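import Pool.Agent.MP_5d10af_nt.Mg.DecompA

/-!
The decomposition of the Dirichlet series.
-/

set_option autoImplicit false

namespace Pool.Agent.MP_5d10af_nt

open Finset

namespace Dec

/-- The coprime double pairing. -/
noncomputable def Bf (N : ℕ) (A B : ℕ → ℕ → ℝ) : ℝ :=
  ∑ a ∈ N.divisors, ∑ e ∈ N.divisors, ∑ c ∈ N.divisors, ∑ b ∈ N.divisors,
    if Nat.Coprime (a * e) (c * b) then A a e * B c b else 0

/-- The part of a double sum on the multiples of `d`. -/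
noncomputable def hat (N : ℕ) (A : ℕ → ℕ → ℝ) (d : ℕ) : ℝ :=
  ∑ a ∈ N.divisors, ∑ e ∈ N.divisors, if d ∣ a * e then A a e else 0

noncomputable def Kw (σ : ℝ) (i j : Fin 4) (a e : ℕ) : ℝ :=
  ((psi i a * psi j e * jacobiSym e a : ℤ) : ℝ) * wt σ a * wt σ e

noncomputable def sw (σ : ℝ) (i j : Fin 4) (a e : ℕ) : ℝ := sig i j a e * wt σ a * wt σ e

noncomputable def Rw (σ : ℝ) (i j : Fin 4) (a e : ℕ) : ℝ :=
  (((psi i a * psi j e * jacobiSym e a : ℤ) : ℝ) - sig i j a e) * wt σ a * wt σ e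

lemma hat_Rw (σ : ℝ) (i j : Fin 4) (N d : ℕ) : hat N (Rw σ i j) d = Ad i j σ N d := rfl

lemma sum_comm4 (D : Finset ℕ) (F : ℕ → ℕ → ℕ → ℕ → ℝ) :
    ∑ a ∈ D, ∑ e ∈ D, ∑ c ∈ D, ∑ b ∈ D, F a e c b =
      ∑ c ∈ D, ∑ b ∈ D, ∑ a ∈ D, ∑ e ∈ D, F a e c b := by
  rw [← sum_product', ← sum_product' (f := fun c b => ∑ a ∈ D, ∑ e ∈ D, F a e c b)]
  simp only [← sum_product' (s := D) (t := D)]
  rw [sum_comm]

lemma sum_comm3 {α : Type} (s : Finset α) (F : Fin 4 → Fin 4 → Fin 4 → α → ℝ) :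
    ∑ j, ∑ i, ∑ k, ∑ x ∈ s, F j i k x = ∑ x ∈ s, ∑ j, ∑ i, ∑ k, F j i k x := by
  rw [sum_comm (s := s)]
  refine sum_congr rfl fun j _ => ?_
  rw [sum_comm (s := s)]
  refine sum_congr rfl fun i _ => ?_
  rw [sum_comm (s := s)]

lemma Bf_symm (N : ℕ) (A B : ℕ → ℕ → ℝ) : Bf N A B = Bf N B A := by
  rw [Bf, Bf, sum_comm4]
  refine sum_congr rfl fun c _ => sum_congr rfl fun b _ => sum_congr rfl fun a _ =>
    sum_congr rfl fun e _ => ?_
  rw [mul_comm (A a e)]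
  exact if_congr Nat.coprime_comm rfl rfl

lemma Bf_sub_left (N : ℕ) (A A' A'' B : ℕ → ℕ → ℝ) (h : ∀ a e, A'' a e = A a e - A' a e) :
    Bf N A'' B = Bf N A B - Bf N A' B := by
  simp only [Bf, ← sum_sub_distrib]
  refine sum_congr rfl fun a _ => sum_congr rfl fun e _ => sum_congr rfl fun c _ =>
    sum_congr rfl fun b _ => ?_
  rw [h]
  split_ifs <;> ring

lemma Rw_eq (σ : ℝ) (i j : Fin 4) (a e : ℕ) : Rw σ i j a e = Kw σ i j a e - sw σ i j a e := by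
  simp only [Rw, Kw, sw]; ring

lemma Bf_moeb {N : ℕ} (hN : N ≠ 0) (A B : ℕ → ℕ → ℝ) :
    Bf N A B = ∑ d ∈ N.divisors,
      ((ArithmeticFunction.moebius d : ℤ) : ℝ) * (hat N A d * hat N B d) := by
  have h1 : ∀ d, ((ArithmeticFunction.moebius d : ℤ) : ℝ) * (hat N A d * hat N B d) =
      ∑ a ∈ N.divisors, ∑ e ∈ N.divisors, ∑ c ∈ N.divisors, ∑ b ∈ N.divisors,
        (if d ∣ a * e ∧ d ∣ c * b then ((ArithmeticFunction.moebius d : ℤ) : ℝ) else 0) *
          (A a e * B c b) := by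
    intro d
    rw [hat, sum_mul, mul_sum]
    refine sum_congr rfl fun a _ => ?_
    rw [sum_mul, mul_sum]
    refine sum_congr rfl fun e _ => ?_
    rw [hat, mul_sum, mul_sum]
    refine sum_congr rfl fun c _ => ?_
    rw [mul_sum, mul_sum]
    refine sum_congr rfl fun b _ => ?_
    by_cases h2 : d ∣ a * e <;> by_cases h3 : d ∣ c * b <;> simp [h2, h3]
  simp only [h1]
  rw [Bf]
  symm
  rw [sum_comm]
  refine sum_congr rfl fun a ha => ?_
  rw [sum_comm]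
  refine sum_congr rfl fun e he => ?_
  rw [sum_comm]
  refine sum_congr rfl fun c _ => ?_
  rw [sum_comm]
  refine sum_congr rfl fun b _ => ?_
  rw [← sum_mul, ← moeb hN fun p hp h => ((Nat.Prime.dvd_mul hp).mp h).elim
    (fun h => h.trans (Nat.dvd_of_mem_divisors ha)) (fun h => h.trans (Nat.dvd_of_mem_divisors he))]
  split_ifs <;> simp

lemma abs_Bf_le {N : ℕ} (hN : N ≠ 0) (A B : ℕ → ℕ → ℝ) {α β : ℝ}
    (hA : ∀ d, d ∣ N → |hat N A d| ≤ α * (d : ℝ) ^ (-(2 / 3) : ℝ))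
    (hB : ∀ d, d ∣ N → |hat N B d| ≤ β * (d : ℝ) ^ (-(2 / 3) : ℝ)) :
    |Bf N A B| ≤ 4 * (α * β) := by
  have hα : 0 ≤ α := by simpa using (abs_nonneg _).trans (hA 1 (one_dvd _))
  have hβ : 0 ≤ β := by simpa using (abs_nonneg _).trans (hB 1 (one_dvd _))
  rw [Bf_moeb hN]
  refine (abs_sum_le_sum_abs _ _).trans ?_
  refine le_trans (sum_le_sum (g := fun d : ℕ =>
    α * β * ((d : ℝ) ^ (-(2 / 3) : ℝ) * (d : ℝ) ^ (-(2 / 3) : ℝ))) fun d hd => ?_) ?_
  · have h1 : |((ArithmeticFunction.moebius d : ℤ) : ℝ)| ≤ 1 := by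
      exact_mod_cast ArithmeticFunction.abs_moebius_le_one
    have h2 := hA d (Nat.dvd_of_mem_divisors hd)
    have h3 := hB d (Nat.dvd_of_mem_divisors hd)
    rw [abs_mul, abs_mul]
    refine (mul_le_of_le_one_left (by positivity) h1).trans ?_
    refine (mul_le_mul h2 h3 (abs_nonneg _) ((abs_nonneg _).trans h2)).trans (le_of_eq ?_)
    ring
  · rw [← mul_sum, mul_comm 4]
    exact mul_le_mul_of_nonneg_left (sum_div_rpow N) (mul_nonneg hα hβ)

/-- Sums against the divergent part. -/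
lemma sum_sw (σ : ℝ) {N : ℕ} (hN : N ≠ 0) (k j : Fin 4) (f : ℕ → ℝ) :
    ∑ c ∈ N.divisors, ∑ b ∈ N.divisors, sw σ k j c b * f (c * b) =
      (dl j k : ℝ) * ∑ b ∈ N.divisors, wt σ b * f b := by
  have h1 : (1 : ℕ) ∈ N.divisors := Nat.one_mem_divisors.mpr hN
  have e1 : ∑ c ∈ N.divisors, ∑ b ∈ N.divisors,
      (if j = 0 ∧ c = 1 then (1 : ℝ) else 0) * wt σ c * wt σ b * f (c * b) =
      (if j = 0 then 1 else 0) * ∑ b ∈ N.divisors, wt σ b * f b := by
    rw [sum_eq_single_of_mem 1 h1 fun c _ hc => by simp [hc], mul_sum]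
    refine sum_congr rfl fun b _ => ?_
    by_cases h : j = 0 <;> simp [h, wt_one]
  have e2 : ∑ c ∈ N.divisors, ∑ b ∈ N.divisors,
      (if k = 0 ∧ b = 1 then (1 : ℝ) else 0) * wt σ c * wt σ b * f (c * b) =
      (if k = 0 then 1 else 0) * ∑ b ∈ N.divisors, wt σ b * f b := by
    rw [mul_sum]
    refine sum_congr rfl fun c _ => ?_
    rw [sum_eq_single_of_mem 1 h1 fun b _ hb => by simp [hb]]
    by_cases h : k = 0 <;> simp [h, wt_one]
  simp only [sw, sig, add_mul, sum_add_distrib, e1, e2, dl]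
  push_cast
  ring

lemma Bf_sw (σ : ℝ) {N : ℕ} (hN : N ≠ 0) (A : ℕ → ℕ → ℝ) (k j : Fin 4) :
    Bf N A (sw σ k j) =
      (dl j k : ℝ) * ∑ a ∈ N.divisors, ∑ e ∈ N.divisors, A a e * Uw σ N (a * e) := by
  rw [Bf, mul_sum]
  refine sum_congr rfl fun a _ => ?_
  rw [mul_sum]
  refine sum_congr rfl fun e _ => ?_
  have h := sum_sw σ hN k j fun n => if Nat.Coprime (a * e) n then A a e else 0
  have h1 : ∑ b ∈ N.divisors, wt σ b * (if Nat.Coprime (a * e) b then A a e else 0) =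
      A a e * Uw σ N (a * e) := by
    rw [Uw, mul_sum]
    refine sum_congr rfl fun b _ => ?_
    split_ifs <;> ring
  rw [← h1, ← h]
  refine sum_congr rfl fun c _ => sum_congr rfl fun b _ => ?_
  split_ifs <;> ring

lemma Bf_sw_sw (σ : ℝ) {N : ℕ} (hN : Squarefree N) (i j k : Fin 4) :
    Bf N (sw σ i j) (sw σ k j) = ((dl j i * dl j k : ℤ) : ℝ) * Y2 σ N := by
  rw [Bf_sw σ hN.ne_zero, sum_sw σ hN.ne_zero i j (Uw σ N), ← Yw_mul_sum_gw σ hN, mul_sum (a := Yw σ N),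
    sum_congr rfl fun b hb => wt_mul_Uw σ hN (Nat.dvd_of_mem_divisors hb)]
  push_cast
  ring

lemma jac_eq_zero {a e : ℕ} (ha : a ≠ 0) (h : ¬ Nat.Coprime a e) : jacobiSym e a = 0 :=
  jacobiSym.eq_zero_iff.mpr ⟨ha, by
    rw [Int.gcd_natCast_natCast]; exact fun h' => h (Nat.Coprime.symm h')⟩

lemma Bf_Kw_sw (σ : ℝ) {N : ℕ} (hN : Squarefree N) (i j k : Fin 4) :
    Bf N (Kw σ i j) (sw σ k j) = Yw σ N * ∑ a ∈ N.divisors, ∑ e ∈ N.divisors,
      gw σ a * gw σ e * jacobiSym e a * ((dl j k * (psi i a * psi j e) : ℤ) : ℝ) := by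
  rw [Bf_sw σ hN.ne_zero, mul_sum, mul_sum]
  refine sum_congr rfl fun a ha => ?_
  rw [mul_sum, mul_sum]
  refine sum_congr rfl fun e he => ?_
  by_cases h : Nat.Coprime a e
  · have h1 := wt_mul_Uw σ hN
      (h.mul_dvd_of_dvd_of_dvd (Nat.dvd_of_mem_divisors ha) (Nat.dvd_of_mem_divisors he))
    rw [wt_mul σ h, gw_mul σ h] at h1
    rw [Kw]
    push_cast
    linear_combination (dl j k : ℝ) * psi i a * psi j e * jacobiSym e a * h1
  · simp [Kw, jac_eq_zero (Nat.pos_of_mem_divisors ha).ne' h]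

lemma odd_of_mem {P N a : ℕ} (h : Good P N) (ha : a ∈ N.divisors) : a % 2 = 1 :=
  Nat.odd_iff.mp (h.odd.of_dvd_nat (Nat.dvd_of_mem_divisors ha))

/-- The cross terms. -/
lemma cross (σ : ℝ) {P N : ℕ} (h : Good P N) :
    ∑ j, ∑ i, ∑ k, (co j i k : ℝ) * (Bf N (Kw σ i j) (sw σ k j) + Bf N (Kw σ k j) (sw σ i j)) =
      32 * (Yw σ N * (rr σ N + 3 * ∑ a ∈ N.divisors, gw σ a)) := by
  have h1 : ∑ j, ∑ i, ∑ k, (co j i k : ℝ) *
      (Bf N (Kw σ i j) (sw σ k j) + Bf N (Kw σ k j) (sw σ i j)) =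
      Yw σ N * ∑ a ∈ N.divisors, ∑ e ∈ N.divisors,
        gw σ a * gw σ e * ((kap' a e * jacobiSym e a : ℤ) : ℝ) := by
    have h2 : ∀ j i k, (co j i k : ℝ) * (Bf N (Kw σ i j) (sw σ k j) + Bf N (Kw σ k j) (sw σ i j)) =
        ∑ x ∈ N.divisors ×ˢ N.divisors, Yw σ N * (gw σ x.1 * gw σ x.2 * jacobiSym x.2 x.1) *
          ((co j i k * (dl j k * (psi i x.1 * psi j x.2) + dl j i * (psi k x.1 * psi j x.2)) : ℤ) :
            ℝ) := by
      intro j i k
      rw [Bf_Kw_sw σ h.sqf, Bf_Kw_sw σ h.sqf, ← sum_product', ← sum_product', ← mul_add,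
        ← sum_add_distrib, mul_sum, mul_sum]
      refine sum_congr rfl fun x _ => ?_
      push_cast
      ring
    simp only [h2]
    rw [sum_comm3, sum_product, mul_sum]
    refine sum_congr rfl fun a _ => ?_
    rw [mul_sum]
    refine sum_congr rfl fun e _ => ?_
    simp only [← mul_sum, ← Int.cast_sum]
    rw [← kap']
    push_cast
    ring
  have h3 : ∑ a ∈ N.divisors, ∑ e ∈ N.divisors,
      gw σ a * gw σ e * ((kap' a e * jacobiSym e a : ℤ) : ℝ) =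
      ∑ a ∈ N.divisors, ∑ e ∈ N.divisors,
        gw σ a * gw σ e * ((kap' e a * jacobiSym a e : ℤ) : ℝ) := by
    rw [sum_comm]
    exact sum_congr rfl fun a _ => sum_congr rfl fun e _ => by rw [mul_comm (gw σ e)]
  have h4 : ∑ a ∈ N.divisors, ∑ e ∈ N.divisors,
      gw σ a * gw σ e * ((kap' a e * jacobiSym e a : ℤ) : ℝ) +
      ∑ a ∈ N.divisors, ∑ e ∈ N.divisors,
        gw σ a * gw σ e * ((kap' e a * jacobiSym a e : ℤ) : ℝ) =
      64 * ∑ a ∈ N.divisors, ∑ e ∈ N.divisors, gw σ a * gw σ e * Kf a e := by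
    rw [← sum_add_distrib, mul_sum]
    refine sum_congr rfl fun a ha => ?_
    rw [← sum_add_distrib, mul_sum]
    refine sum_congr rfl fun e he => ?_
    have h5 : kap' a e * jacobiSym e a + kap' e a * jacobiSym a e =
        2 * (kap a e * jacobiSym a e) := by
      rw [jac_rec (odd_of_mem h ha) (odd_of_mem h he)]
      linear_combination jacobiSym a e * kap'_symm (odd_of_mem h ha) (odd_of_mem h he)
    have h6 := congrArg (Int.cast (R := ℝ)) h5
    rw [Int.cast_add, Int.cast_mul 2] at h6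
    rw [Kf_eq, ← mul_add, h6]
    push_cast
    ring
  rw [h1, rr]
  rw [← h3] at h4
  linear_combination Yw σ N / 2 * h4

lemma sum_swap (D : Finset ℕ) (F : ℕ → ℕ → ℕ → ℕ → ℝ) :
    ∑ a ∈ D, ∑ b ∈ D, ∑ c ∈ D, ∑ e ∈ D, F a b c e =
      ∑ a ∈ D, ∑ e ∈ D, ∑ c ∈ D, ∑ b ∈ D, F a b c e := by
  refine sum_congr rfl fun a _ => ?_
  have h1 : ∑ b ∈ D, ∑ c ∈ D, ∑ e ∈ D, F a b c e = ∑ b ∈ D, ∑ e ∈ D, ∑ c ∈ D, F a b c e :=
    sum_congr rfl fun b _ => sum_comm
  rw [h1, sum_comm]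
  exact sum_congr rfl fun e _ => sum_comm

lemma gcd_aux {c : ℤ} {N d d' : ℕ} (hc : c.gcd N = 1) (hd : d ∣ N) (h : Nat.Coprime d' d) :
    (c * d').gcd d = 1 := by
  refine Int.isCoprime_iff_gcd_eq_one.mp (IsCoprime.mul_left ?_ (Nat.isCoprime_iff_coprime.mpr h))
  exact (Int.isCoprime_iff_gcd_eq_one.mpr hc).of_isCoprime_of_dvd_right
    (Int.natCast_dvd_natCast.mpr hd)

/-- Expansion of the counting function. -/
lemma cnt_expand (σ : ℝ) {N : ℕ} (hN : Squarefree N) {c₁ c₂ : ℤ} (h1 : c₁.gcd N = 1)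
    (h2 : c₂.gcd N = 1) (f : ℕ → ℝ) :
    ∑ m ∈ N.divisors, (m : ℝ) ^ (-σ) * (f m * cnt c₁ c₂ m) =
      ∑ a ∈ N.divisors, ∑ e ∈ N.divisors, ∑ c ∈ N.divisors, ∑ b ∈ N.divisors,
        if Nat.Coprime (a * e) (c * b) then
          f (a * b * (c * e)) *
            ((jacobiSym c₁ a * jacobiSym c₂ c * (jacobiSym c a * jacobiSym a c) : ℤ) : ℝ) *
            ((jacobiSym e a * wt σ a * wt σ e) * (jacobiSym b c * wt σ c * wt σ b))
        else 0 := by
  classical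
  let G : ℕ → ℕ → ℝ := fun d d' => f (d * d') *
    (((d : ℝ) ^ (-σ) * if ∀ p ∈ d.primeFactors, jacobiSym (c₁ * d') p = 1 then 1 else 0) *
      ((d' : ℝ) ^ (-σ) * if ∀ p ∈ d'.primeFactors, jacobiSym (c₂ * d) p = 1 then 1 else 0))
  let H : ℕ → ℕ → ℕ → ℕ → ℝ := fun a b c e =>
    if Nat.Coprime (a * b) (c * e) then f (a * b * (c * e)) *
      ((wt σ (a * b) * jacobiSym (c₁ * (c * e : ℕ)) a) *
        (wt σ (c * e) * jacobiSym (c₂ * (a * b : ℕ)) c)) else 0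
  have e1 : ∑ m ∈ N.divisors, (m : ℝ) ^ (-σ) * (f m * cnt c₁ c₂ m) =
      ∑ m ∈ N.divisors, ∑ x ∈ m.divisorsAntidiagonal, G x.1 x.2 := by
    refine sum_congr rfl fun m _ => ?_
    rw [cnt, card_filter, Nat.cast_sum, mul_sum, mul_sum]
    refine sum_congr rfl fun x hx => ?_
    obtain ⟨rfl, _⟩ := Nat.mem_divisorsAntidiagonal.mp hx
    simp only [G]
    rw [Nat.cast_mul, Real.mul_rpow (Nat.cast_nonneg _) (Nat.cast_nonneg _)]
    by_cases h3 : ∀ p ∈ x.1.primeFactors, jacobiSym (c₁ * x.2) p = 1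
    · by_cases h4 : ∀ p ∈ x.2.primeFactors, jacobiSym (c₂ * x.1) p = 1
      · rw [if_pos ⟨h3, h4⟩, if_pos h3, if_pos h4]; push_cast; ring
      · rw [if_neg fun h => h4 h.2, if_neg h4]; push_cast; ring
    · rw [if_neg fun h => h3 h.1, if_neg h3]; push_cast; ring
  have e2 : ∀ d ∈ N.divisors, ∀ d' ∈ N.divisors, (if Nat.Coprime d d' then G d d' else 0) =
      ∑ y ∈ d.divisorsAntidiagonal, ∑ z ∈ d'.divisorsAntidiagonal, H y.1 y.2 z.1 z.2 := by
    intro d hd d' hd'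
    have hd1 := Nat.dvd_of_mem_divisors hd
    have hd2 := Nat.dvd_of_mem_divisors hd'
    split_ifs with h
    · simp only [G]
      rw [ind_expand σ _ (hN.squarefree_of_dvd hd1) (gcd_aux h1 hd1 h.symm),
        ind_expand σ _ (hN.squarefree_of_dvd hd2) (gcd_aux h2 hd2 h), mul_sum, mul_sum,
        sum_mul_sum, mul_sum]
      refine sum_congr rfl fun y hy => ?_
      rw [mul_sum]
      refine sum_congr rfl fun z hz => ?_
      obtain ⟨rfl, _⟩ := Nat.mem_divisorsAntidiagonal.mp hy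
      obtain ⟨rfl, _⟩ := Nat.mem_divisorsAntidiagonal.mp hz
      simp only [H]
      rw [if_pos h]
    · refine (sum_eq_zero fun y hy => sum_eq_zero fun z hz => ?_).symm
      obtain ⟨rfl, _⟩ := Nat.mem_divisorsAntidiagonal.mp hy
      obtain ⟨rfl, _⟩ := Nat.mem_divisorsAntidiagonal.mp hz
      simp only [H]
      rw [if_neg h]
  have e3 : ∀ d ∈ N.divisors, ∑ d' ∈ N.divisors, (if Nat.Coprime d d' then G d d' else 0) =
      ∑ y ∈ d.divisorsAntidiagonal, ∑ c ∈ N.divisors, ∑ e ∈ N.divisors,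
        if Nat.Coprime c e then H y.1 y.2 c e else 0 := by
    intro d hd
    rw [sum_congr rfl (e2 d hd), sum_comm]
    exact sum_congr rfl fun y _ => sum_antidiag hN (H y.1 y.2)
  rw [e1, sum_antidiag hN, sum_congr rfl e3, sum_antidiag hN fun a b =>
    ∑ c ∈ N.divisors, ∑ e ∈ N.divisors, if Nat.Coprime c e then H a b c e else 0, ← sum_swap]
  refine sum_congr rfl fun a ha => sum_congr rfl fun b hb => ?_
  have e4 : (if Nat.Coprime a b then ∑ c ∈ N.divisors, ∑ e ∈ N.divisors,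
      (if Nat.Coprime c e then H a b c e else 0) else 0) = ∑ c ∈ N.divisors, ∑ e ∈ N.divisors,
      if Nat.Coprime a b then (if Nat.Coprime c e then H a b c e else 0) else 0 := by
    split_ifs <;> simp
  rw [e4]
  refine sum_congr rfl fun c hc => sum_congr rfl fun e he => ?_
  have ha0 := (Nat.pos_of_mem_divisors ha).ne'
  have hc0 := (Nat.pos_of_mem_divisors hc).ne'
  simp only [H, Nat.coprime_mul_iff_left, Nat.coprime_mul_iff_right]
  by_cases hae : Nat.Coprime a e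
  · by_cases hcb : Nat.Coprime c b
    · by_cases hab : Nat.Coprime a b
      · by_cases hce : Nat.Coprime c e
        · by_cases hac : Nat.Coprime a c
          · by_cases heb : Nat.Coprime e b
            · rw [if_pos hab, if_pos hce, if_pos ⟨⟨hac, hcb.symm⟩, hae, heb.symm⟩,
                if_pos ⟨⟨hac, hce.symm⟩, hab, heb⟩, wt_mul σ hab, wt_mul σ hce]
              simp only [Nat.cast_mul, jacobiSym.mul_left]
              push_cast
              ring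
            · rw [if_pos hab, if_pos hce, if_neg fun h => heb h.2.2.symm, if_neg fun h => heb h.2.2]
          · rw [if_pos hab, if_pos hce, if_neg fun h => hac h.1.1, if_neg fun h => hac h.1.1]
        · rw [if_pos hab, if_neg hce, if_neg fun h => hce h.1.2.symm]
      · rw [if_neg hab, if_neg fun h => hab h.2.1]
    · have h5 : ¬ ((Nat.Coprime a c ∧ Nat.Coprime b c) ∧ Nat.Coprime a e ∧ Nat.Coprime b e) :=
        fun h => hcb h.1.2.symm
      rw [if_neg h5, jac_eq_zero hc0 hcb]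
      simp
  · have h5 : ¬ ((Nat.Coprime a c ∧ Nat.Coprime b c) ∧ Nat.Coprime a e ∧ Nat.Coprime b e) :=
      fun h => hae h.2.1
    rw [if_neg h5, jac_eq_zero ha0 hae]
    simp

lemma jac_two {a : ℕ} (ha : a % 2 = 1) : jacobiSym 2 a = psi 2 a := by
  rw [psi_two_eq, jacobiSym.at_two (Nat.odd_iff.mpr ha)]

lemma jac_mul_jac {a c : ℕ} (ha : a % 2 = 1) (hc : c % 2 = 1) (h : Nat.Coprime a c) :
    jacobiSym c a * jacobiSym a c = if c % 4 = 1 then 1 else psi 1 a := by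
  have h1 : jacobiSym a c ^ 2 = 1 := jacobiSym.sq_one (by rw [Int.gcd_natCast_natCast]; exact h)
  rw [jac_rec ha hc, mul_assoc, ← sq, h1, mul_one]

/-- The expansion of the Dirichlet series. -/
lemma FF_expand (σ : ℝ) {P N : ℕ} (h : Good P N) :
    32 * FF σ N = ∑ j, ∑ i, ∑ k, (co j i k : ℝ) * Bf N (Kw σ i j) (Kw σ k j) := by
  have g1 : (1 : ℤ).gcd N = 1 := Int.gcd_one_left _
  have g2 : (2 : ℤ).gcd N = 1 := by
    have : Nat.Coprime 2 N := (Nat.coprime_two_left).mpr h.odd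
    exact_mod_cast this
  have e1 : 32 * FF σ N =
      ∑ m ∈ N.divisors, (m : ℝ) ^ (-σ) * ((if m % 4 = 3 then 16 else 4) * cnt 1 1 m) +
      ∑ m ∈ N.divisors, (m : ℝ) ^ (-σ) * ((if m % 4 = 3 then 0 else 4) * cnt 2 2 m) +
      ∑ m ∈ N.divisors, (m : ℝ) ^ (-σ) * (2 * cnt 1 2 m) +
      ∑ m ∈ N.divisors, (m : ℝ) ^ (-σ) * (2 * cnt 2 1 m) := by
    rw [FF, mul_sum, ← sum_add_distrib, ← sum_add_distrib, ← sum_add_distrib]
    refine sum_congr rfl fun m _ => ?_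
    split_ifs <;> ring
  have e2 : ∀ j i k, (co j i k : ℝ) * Bf N (Kw σ i j) (Kw σ k j) =
      ∑ x ∈ (N.divisors ×ˢ N.divisors) ×ˢ (N.divisors ×ˢ N.divisors),
        (if Nat.Coprime (x.1.1 * x.1.2) (x.2.1 * x.2.2) then
          ((jacobiSym x.1.2 x.1.1 * wt σ x.1.1 * wt σ x.1.2) *
            (jacobiSym x.2.2 x.2.1 * wt σ x.2.1 * wt σ x.2.2)) else 0) *
          ((co j i k * ((psi i x.1.1 * psi j x.1.2) * (psi k x.2.1 * psi j x.2.2)) : ℤ) : ℝ) := by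
    intro j i k
    simp only [Bf, sum_product, mul_sum]
    refine sum_congr rfl fun a _ => sum_congr rfl fun e _ => sum_congr rfl fun c _ =>
      sum_congr rfl fun b _ => ?_
    split_ifs
    · simp only [Kw]; push_cast; ring
    · simp
  simp only [e2]
  rw [sum_comm3, e1, cnt_expand σ h.sqf g1 g1 fun m => if m % 4 = 3 then 16 else 4,
    cnt_expand σ h.sqf g2 g2 fun m => if m % 4 = 3 then 0 else 4,
    cnt_expand σ h.sqf g1 g2 fun _ => 2, cnt_expand σ h.sqf g2 g1 fun _ => 2]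
  simp only [sum_product, ← sum_add_distrib]
  refine sum_congr rfl fun a ha => sum_congr rfl fun e he => sum_congr rfl fun c hc =>
    sum_congr rfl fun b hb => ?_
  simp only [← mul_sum, ← Int.cast_sum]
  have ha1 := odd_of_mem h ha
  have hc1 := odd_of_mem h hc
  rw [← tau ha1 (odd_of_mem h he) hc1 (odd_of_mem h hb)]
  by_cases hcop : Nat.Coprime (a * e) (c * b)
  · have hac : Nat.Coprime a c :=
      Nat.Coprime.coprime_mul_right (Nat.Coprime.coprime_mul_right_right hcop)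
    simp only [if_pos hcop, jac_mul_jac ha1 hc1 hac, jac_two ha1, jac_two hc1, jacobiSym.one_left]
    by_cases h4 : a * b * (c * e) % 4 = 3
    · simp only [if_pos h4]; push_cast; ring
    · simp only [if_neg h4]; push_cast; ring
  · simp only [if_neg hcop]; ring

lemma Bf_split (σ : ℝ) (N : ℕ) (i j k : Fin 4) :
    Bf N (Rw σ i j) (Rw σ k j) = Bf N (Kw σ i j) (Kw σ k j) -
      (Bf N (Kw σ i j) (sw σ k j) + Bf N (Kw σ k j) (sw σ i j)) + Bf N (sw σ i j) (sw σ k j) := by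
  rw [Bf_sub_left N _ _ _ _ (Rw_eq σ i j), Bf_symm N (Kw σ i j), Bf_symm N (sw σ i j),
    Bf_sub_left N _ _ _ _ (Rw_eq σ k j), Bf_sub_left N _ _ _ _ (Rw_eq σ k j),
    Bf_symm N (Kw σ k j) (Kw σ i j), Bf_symm N (sw σ k j) (Kw σ i j),
    Bf_symm N (sw σ k j) (sw σ i j)]
  ring

lemma sum_ss (σ : ℝ) {N : ℕ} (hN : Squarefree N) :
    ∑ j, ∑ i, ∑ k, (co j i k : ℝ) * Bf N (sw σ i j) (sw σ k j) = 48 * Y2 σ N := by
  have h1 : ∀ j i k, (co j i k : ℝ) * Bf N (sw σ i j) (sw σ k j) =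
      ((co j i k * (dl j i * dl j k) : ℤ) : ℝ) * Y2 σ N := by
    intro j i k
    rw [Bf_sw_sw σ hN]; push_cast; ring
  simp only [h1, ← sum_mul, ← Int.cast_sum, sum_co_dl]
  norm_num

lemma eq_one (σ : ℝ) {P N : ℕ} (h : Good P N) :
    32 * (FF σ N - 3 / 2 * Y2 σ N - Yw σ N * rr σ N) =
      ∑ j, ∑ i, ∑ k, (co j i k : ℝ) * Bf N (Rw σ i j) (Rw σ k j) := by
  simp only [Bf_split, mul_add, mul_sub, sum_add_distrib, sum_sub_distrib]
  have h1 := cross σ h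
  simp only [mul_add, sum_add_distrib] at h1
  rw [← FF_expand σ h, sum_ss σ h.sqf, h1]
  linear_combination (96 : ℝ) * Yw_mul_sum_gw σ h.sqf

lemma eq_two (σ : ℝ) {P N : ℕ} (h : Good P N) :
    32 * (Yw σ N * rr σ N) = ∑ j, ∑ i, ∑ k, (co j i k : ℝ) *
      (Bf N (Rw σ i j) (sw σ k j) + Bf N (Rw σ k j) (sw σ i j)) := by
  have h2 : ∀ j i k, (co j i k : ℝ) * (Bf N (Rw σ i j) (sw σ k j) + Bf N (Rw σ k j) (sw σ i j)) =
      (co j i k : ℝ) * (Bf N (Kw σ i j) (sw σ k j) + Bf N (Kw σ k j) (sw σ i j)) -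
        2 * ((co j i k : ℝ) * Bf N (sw σ i j) (sw σ k j)) := by
    intro j i k
    rw [Bf_sub_left N _ _ _ _ (Rw_eq σ i j), Bf_sub_left N _ _ _ _ (Rw_eq σ k j),
      Bf_symm N (sw σ k j) (sw σ i j)]
    ring
  simp only [h2, sum_sub_distrib, ← mul_sum]
  rw [cross σ h, sum_ss σ h.sqf]
  linear_combination (-96 : ℝ) * Yw_mul_sum_gw σ h.sqf

lemma abs_hat_sw {σ : ℝ} (hσ : 1 < σ) {N : ℕ} (hN : Squarefree N) (k j : Fin 4) (d : ℕ)
    (hd : d ∣ N) : |hat N (sw σ k j) d| ≤ 2 * Yw σ N * (d : ℝ) ^ (-(2 / 3) : ℝ) := by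
  have h1 := sum_sw σ hN.ne_zero k j fun n => if d ∣ n then 1 else 0
  have h2 : hat N (sw σ k j) d = (dl j k : ℝ) * ∑ b ∈ N.divisors, if d ∣ b then wt σ b else 0 := by
    simp only [mul_ite, mul_one, mul_zero] at h1
    exact h1
  have h3 : 0 ≤ ∑ b ∈ N.divisors, if d ∣ b then wt σ b else 0 :=
    sum_nonneg fun b _ => by split_ifs; exacts [(wt_pos σ b).le, le_rfl]
  have h4 : (0 : ℝ) ≤ dl j k := by exact_mod_cast dl_nonneg j k
  have h5 : (dl j k : ℝ) ≤ 2 := by exact_mod_cast dl_le j k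
  have hd1 : (1 : ℝ) ≤ d := by exact_mod_cast Nat.pos_of_dvd_of_pos hd (Nat.pos_of_ne_zero hN.ne_zero)
  have h6 : wt σ d ≤ (d : ℝ) ^ (-(2 / 3) : ℝ) :=
    (wt_le_rpow σ (hN.squarefree_of_dvd hd)).trans
      (Real.rpow_le_rpow_of_exponent_le hd1 (by linarith))
  rw [h2, abs_of_nonneg (mul_nonneg h4 h3), mul_assoc, mul_comm (Yw σ N)]
  refine mul_le_mul h5 ((sum_wt_dvd σ hN d).trans ?_) h3 (by norm_num)
  exact mul_le_mul_of_nonneg_right h6 (Yw_pos σ N).le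

lemma abs_sum3_le (F : Fin 4 → Fin 4 → Fin 4 → ℝ) {M : ℝ} (hF : ∀ j i k, |F j i k| ≤ M) :
    |∑ j, ∑ i, ∑ k, (co j i k : ℝ) * F j i k| ≤ 320 * M := by
  have hM : 0 ≤ M := (abs_nonneg _).trans (hF 0 0 0)
  have h1 : ∀ j i k, |(co j i k : ℝ) * F j i k| ≤ 5 * M := by
    intro j i k
    rw [abs_mul]
    refine mul_le_mul ?_ (hF j i k) (abs_nonneg _) (by norm_num)
    exact_mod_cast abs_co_le j i k
  refine (abs_sum_le_sum_abs _ _).trans ((sum_le_sum fun j _ => (abs_sum_le_sum_abs _ _).trans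
    (sum_le_sum fun i _ => (abs_sum_le_sum_abs _ _).trans
      (sum_le_sum fun k _ => h1 j i k))).trans (le_of_eq ?_))
  simp only [sum_const, card_univ, Fintype.card_fin, nsmul_eq_mul]
  push_cast
  ring

end Dec

open Dec in
theorem qualB_of_qualA (h : QualA) : QualB := by
  obtain ⟨C, hC⟩ := h
  refine ⟨40 * C ^ 2 + 160 * |C|, fun σ h1 h2 => ?_⟩
  obtain ⟨P0, hP⟩ := hC σ h1 h2
  refine ⟨P0, fun P N hP0 hG => ?_⟩
  have hε : 0 < σ - 1 := sub_pos.mpr h1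
  set t : ℝ := (σ - 1) ^ (-(3 / 16) : ℝ) with ht
  have ht0 : 0 < t := Real.rpow_pos_of_pos hε _
  have htt : (σ - 1) ^ (-(3 / 8) : ℝ) = t * t := by
    rw [ht, ← Real.rpow_add hε]; norm_num
  have hR : ∀ (i j : Fin 4) (d : ℕ), d ∣ N →
      |hat N (Rw σ i j) d| ≤ C * t * (d : ℝ) ^ (-(2 / 3) : ℝ) := by
    intro i j d hd
    rw [hat_Rw, mul_right_comm]
    exact hP P N hP0 hG i j d hd
  have hN := hG.sqf.ne_zero
  have hY := Yw_pos σ N
  constructor
  · have h3 := abs_sum3_le _ fun j i k => abs_Bf_le hN _ _ (hR i j) (hR k j)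
    rw [← eq_one σ hG, abs_mul, abs_of_pos (by norm_num : (0 : ℝ) < 32)] at h3
    rw [htt]
    have h4 : 0 ≤ |C| * (t * t) := by positivity
    nlinarith
  · have h3 := abs_sum3_le (M := 16 * (C * t * Yw σ N)) _ fun j i k => (abs_add_le _ _).trans
      ((add_le_add (abs_Bf_le hN _ _ (hR i j) (abs_hat_sw h1 hG.sqf k j))
        (abs_Bf_le hN _ _ (hR k j) (abs_hat_sw h1 hG.sqf i j))).trans (le_of_eq (by ring)))
    rw [← eq_two σ hG, abs_mul, abs_mul, abs_of_pos (by norm_num : (0 : ℝ) < 32),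
      abs_of_pos hY] at h3
    have h4 : |rr σ N| ≤ 160 * (C * t) := by
      refine le_of_mul_le_mul_left ?_ hY
      linarith
    have h5 : C * t ≤ |C| * t := mul_le_mul_of_nonneg_right (le_abs_self C) ht0.le
    have h6 : 0 ≤ C ^ 2 * t := by positivity
    nlinarith

end Pool.Agent.MP_5d10af_nt
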