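import Pool.Agent.MP_5d10af_nt.Mg.Euler

/-!
Auxiliary identities for the decomposition: divisor sums and residue tables.
-/

set_option autoImplicit false

namespace Pool.Agent.MP_5d10af_nt.Dec

open Finset

/-- 32 times the coefficients of the character expansion. -/
def co (j i k : Fin 4) : ℤ :=
  ![![![5, 5, 1, 1], ![5, -5, 1, -1], ![1, 1, 1, 1], ![1, -1, 1, -1]],
    ![![3, -3, 0, 0], ![-3, -3, 0, 0], ![0, 0, -1, 1], ![0, 0, 1, 1]],
    ![![0, 0, 0, 0], ![0, 0, 0, 0], ![0, 0, 0, 0], ![0, 0, 0, 0]],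
    ![![0, 0, 0, 0], ![0, 0, 0, 0], ![0, 0, 0, 0], ![0, 0, 0, 0]]] j i k

/-- The number of principal characters among two. -/
def dl (j k : Fin 4) : ℤ := (if j = 0 then 1 else 0) + (if k = 0 then 1 else 0)

lemma abs_co_le (j i k : Fin 4) : |co j i k| ≤ 5 := by revert j i k; decide

lemma sum_co_dl : ∑ j, ∑ i, ∑ k, co j i k * (dl j i * dl j k) = 48 := by decide

lemma dl_nonneg (j k : Fin 4) : 0 ≤ dl j k := by revert j k; decide

lemma dl_le (j k : Fin 4) : dl j k ≤ 2 := by revert j k; decide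

lemma tau_fin : ∀ a e c b : Fin 4,
    (if (2 * c.1 + 1) % 4 = 1 then 1 else psi 1 (2 * a.1 + 1)) *
      ((if ((2 * a.1 + 1) * (2 * b.1 + 1) * ((2 * c.1 + 1) * (2 * e.1 + 1))) % 4 = 3 then 16
        else 4 * (1 + psi 2 (2 * a.1 + 1) * psi 2 (2 * c.1 + 1))) +
        2 * (psi 2 (2 * c.1 + 1) + psi 2 (2 * a.1 + 1))) =
    ∑ j, ∑ i, ∑ k, co j i k * ((psi i (2 * a.1 + 1) * psi j (2 * e.1 + 1)) *
      (psi k (2 * c.1 + 1) * psi j (2 * b.1 + 1))) := by
  decide +kernel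

lemma exists_res {a : ℕ} (ha : a % 2 = 1) : ∃ x : Fin 4, a % 8 = 2 * x.1 + 1 :=
  ⟨⟨a % 8 / 2, by omega⟩, by simp only; omega⟩

lemma psi_res {a : ℕ} {x : Fin 4} (h : a % 8 = 2 * x.1 + 1) (i : Fin 4) :
    psi i a = psi i (2 * x.1 + 1) := by rw [← psi_mod, h]

lemma tau {a e c b : ℕ} (ha : a % 2 = 1) (he : e % 2 = 1) (hc : c % 2 = 1) (hb : b % 2 = 1) :
    (if c % 4 = 1 then 1 else psi 1 a) *
      ((if (a * b * (c * e)) % 4 = 3 then 16 else 4 * (1 + psi 2 a * psi 2 c)) +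
        2 * (psi 2 c + psi 2 a)) =
    ∑ j, ∑ i, ∑ k, co j i k * ((psi i a * psi j e) * (psi k c * psi j b)) := by
  obtain ⟨x, hx⟩ := exists_res ha
  obtain ⟨y, hy⟩ := exists_res he
  obtain ⟨z, hz⟩ := exists_res hc
  obtain ⟨w, hw⟩ := exists_res hb
  have h4 : ∀ {n : ℕ} {t : Fin 4}, n % 8 = 2 * t.1 + 1 → n % 4 = (2 * t.1 + 1) % 4 := by
    intro n t h; omega
  have h5 : (a * b * (c * e)) % 4 =
      ((2 * x.1 + 1) * (2 * w.1 + 1) * ((2 * z.1 + 1) * (2 * y.1 + 1))) % 4 := by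
    exact ((Nat.ModEq.mul (h4 hx) (h4 hw)).mul (Nat.ModEq.mul (h4 hz) (h4 hy)) :)
  simp only [psi_res hx, psi_res hy, psi_res hz, psi_res hw, h4 hz, h5]
  exact tau_fin x y z w

/-- The factor of the cross terms. -/
def kap' (a e : ℕ) : ℤ :=
  ∑ j, ∑ i, ∑ k, co j i k * (dl j k * (psi i a * psi j e) + dl j i * (psi k a * psi j e))

lemma kap'_fin : ∀ a e : Fin 4,
    (if (2 * e.1 + 1) % 4 = 1 then 1 else psi 1 (2 * a.1 + 1)) * kap' (2 * a.1 + 1) (2 * e.1 + 1) +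
      kap' (2 * e.1 + 1) (2 * a.1 + 1) = 2 * kap (2 * a.1 + 1) (2 * e.1 + 1) := by
  decide +kernel

lemma kap'_symm {a e : ℕ} (ha : a % 2 = 1) (he : e % 2 = 1) :
    (if e % 4 = 1 then 1 else psi 1 a) * kap' a e + kap' e a = 2 * kap a e := by
  obtain ⟨x, hx⟩ := exists_res ha
  obtain ⟨y, hy⟩ := exists_res he
  have h4 : e % 4 = (2 * y.1 + 1) % 4 := by omega
  have h1 : kap' a e = kap' (2 * x.1 + 1) (2 * y.1 + 1) := by
    simp only [kap', psi_res hx, psi_res hy]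
  have h2 : kap' e a = kap' (2 * y.1 + 1) (2 * x.1 + 1) := by
    simp only [kap', psi_res hx, psi_res hy]
  rw [h1, h2, ← kap_mod a e, hx, hy, h4, psi_res hx]
  exact kap'_fin x y

/-- Factorisations of the divisors of a squarefree number. -/
lemma sum_antidiag {N : ℕ} (hN : Squarefree N) (G : ℕ → ℕ → ℝ) :
    ∑ m ∈ N.divisors, ∑ x ∈ m.divisorsAntidiagonal, G x.1 x.2 =
      ∑ x ∈ N.divisors, ∑ y ∈ N.divisors, if Nat.Coprime x y then G x y else 0 := by
  rw [sum_sigma', ← sum_product' (f := fun x y => if Nat.Coprime x y then G x y else 0),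
    ← sum_filter]
  refine sum_bij' (fun p _ => p.2) (fun q _ => ⟨q.1 * q.2, q⟩) ?_ ?_ ?_ ?_ ?_
  · rintro ⟨m, x, y⟩ h
    simp only [mem_sigma, Nat.mem_divisors, Nat.mem_divisorsAntidiagonal] at h
    obtain ⟨⟨h1, h2⟩, rfl, _⟩ := h
    simp only [mem_filter, mem_product, Nat.mem_divisors]
    exact ⟨⟨⟨(Dvd.intro _ rfl).trans h1, h2⟩, (Dvd.intro_left _ rfl).trans h1, h2⟩,
      Nat.coprime_of_squarefree_mul (hN.squarefree_of_dvd h1)⟩
  · rintro ⟨x, y⟩ h
    simp only [mem_filter, mem_product, Nat.mem_divisors] at h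
    obtain ⟨⟨⟨h1, h2⟩, h3, _⟩, h4⟩ := h
    have h5 := h4.mul_dvd_of_dvd_of_dvd h1 h3
    simp only [mem_sigma, Nat.mem_divisors, Nat.mem_divisorsAntidiagonal, true_and]
    exact ⟨⟨h5, h2⟩, ne_zero_of_dvd_ne_zero h2 h5⟩
  · rintro ⟨m, x, y⟩ h
    simp only [mem_sigma, Nat.mem_divisors, Nat.mem_divisorsAntidiagonal] at h
    obtain ⟨_, rfl, _⟩ := h
    rfl
  · intro q _; rfl
  · intro p _; rfl

lemma jac_prod (x : ℤ) {a : ℕ} (ha : Squarefree a) :
    jacobiSym x a = ∏ p ∈ a.primeFactors, jacobiSym x p := by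
  have key : ∀ T : Finset ℕ, (∀ p ∈ T, p ≠ 0) → jacobiSym x (∏ p ∈ T, p) = ∏ p ∈ T, jacobiSym x p := by
    intro T
    induction T using Finset.induction_on with
    | empty => intro _; simp
    | insert q T hq ih =>
      intro h
      rw [prod_insert hq, prod_insert hq, jacobiSym.mul_right' _ (h q (mem_insert_self _ _))
        (prod_ne_zero_iff.mpr fun p hp => h p (mem_insert_of_mem hp)),
        ih fun p hp => h p (mem_insert_of_mem hp)]
  conv_lhs => rw [← Nat.prod_primeFactors_of_squarefree ha]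
  exact key _ fun p hp => (Nat.prime_of_mem_primeFactors hp).ne_zero

/-- Expansion of the indicator of the local conditions. -/
lemma ind_expand (σ : ℝ) (x : ℤ) {d : ℕ} (hd : Squarefree d) (hx : x.gcd d = 1) :
    (d : ℝ) ^ (-σ) * (if ∀ p ∈ d.primeFactors, jacobiSym x p = 1 then 1 else 0) =
      wt σ d * ∑ y ∈ d.divisorsAntidiagonal, (jacobiSym x y.1 : ℝ) := by
  rw [Nat.sum_divisorsAntidiagonal (f := fun a _ => (jacobiSym x a : ℝ))]
  have h1 : ∑ a ∈ d.divisors, (jacobiSym x a : ℝ) =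
      ∑ a ∈ d.divisors, ∏ p ∈ a.primeFactors, (jacobiSym x p : ℝ) := by
    refine sum_congr rfl fun a ha => ?_
    rw [jac_prod x (hd.squarefree_of_dvd (Nat.dvd_of_mem_divisors ha))]
    push_cast; rfl
  rw [h1, sum_divisors_prod hd, wt, ← prod_mul_distrib, rpow_eq_prod hd]
  split_ifs with h
  · rw [mul_one]
    refine prod_congr rfl fun p hp => ?_
    rw [h p hp]; push_cast; ring
  · push Not at h
    obtain ⟨p, hp, hne⟩ := h
    have hg : x.gcd p = 1 := by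
      have h2 : (p : ℤ) ∣ (d : ℤ) := Int.natCast_dvd_natCast.mpr (Nat.dvd_of_mem_primeFactors hp)
      exact Int.isCoprime_iff_gcd_eq_one.mp
        ((Int.isCoprime_iff_gcd_eq_one.mpr hx).of_isCoprime_of_dvd_right h2)
    have h3 := (jacobiSym.eq_one_or_neg_one hg).resolve_left hne
    rw [mul_zero]
    refine (prod_eq_zero hp ?_).symm
    rw [h3]; push_cast; ring

lemma moeb {N x y : ℕ} (hN : N ≠ 0) (hx : ∀ p : ℕ, p.Prime → p ∣ x → p ∣ N) :
    (if Nat.Coprime x y then (1 : ℝ) else 0) =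
      ∑ d ∈ N.divisors, if d ∣ x ∧ d ∣ y then ((ArithmeticFunction.moebius d : ℤ) : ℝ) else 0 := by
  have hg : Nat.gcd (Nat.gcd x y) N ≠ 0 := Nat.gcd_ne_zero_right hN
  rw [← sum_filter]
  have h1 : N.divisors.filter (fun d => d ∣ x ∧ d ∣ y) = (Nat.gcd (Nat.gcd x y) N).divisors := by
    ext d
    simp only [mem_filter, Nat.mem_divisors, Nat.dvd_gcd_iff]
    tauto
  have h2 := congrArg (fun f : ArithmeticFunction ℝ => f (Nat.gcd (Nat.gcd x y) N))
    (ArithmeticFunction.coe_moebius_mul_coe_zeta (R := ℝ))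
  simp only [ArithmeticFunction.coe_mul_zeta_apply, ArithmeticFunction.intCoe_apply,
    ArithmeticFunction.one_apply] at h2
  rw [h1, h2]
  have h3 : Nat.Coprime x y ↔ Nat.gcd (Nat.gcd x y) N = 1 := by
    constructor
    · intro h; rw [h, Nat.gcd_one_left]
    · intro h
      by_contra hne
      obtain ⟨p, hp, hpd⟩ := Nat.exists_prime_and_dvd hne
      have : p ∣ Nat.gcd (Nat.gcd x y) N :=
        Nat.dvd_gcd hpd (hx p hp (hpd.trans (Nat.gcd_dvd_left _ _)))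
      rw [h] at this
      exact hp.one_lt.ne' (Nat.dvd_one.mp this)
  simp only [h3]

lemma wt_one (σ : ℝ) : wt σ 1 = 1 := by simp [wt]

lemma sum_wt (σ : ℝ) {N : ℕ} (hN : Squarefree N) : ∑ b ∈ N.divisors, wt σ b = Yw σ N :=
  sum_divisors_prod hN _

lemma Yw_pos (σ : ℝ) (N : ℕ) : 0 < Yw σ N := prod_pos fun p _ => by positivity

/-- The sum of the weights of the divisors coprime to `x`. -/
noncomputable def Uw (σ : ℝ) (N x : ℕ) : ℝ :=
  ∑ b ∈ N.divisors, if Nat.Coprime x b then wt σ b else 0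

lemma wt_mul_Uw (σ : ℝ) {N x : ℕ} (hN : Squarefree N) (hx : x ∣ N) :
    wt σ x * Uw σ N x = Yw σ N * gw σ x := by
  have h1 : Uw σ N x = ∏ p ∈ N.primeFactors, (1 + if p ∣ x then 0 else (p : ℝ) ^ (-σ) / 2) := by
    rw [← sum_divisors_prod hN, Uw]
    refine sum_congr rfl fun b hb => ?_
    split_ifs with h
    · refine prod_congr rfl fun p hp => ?_
      rw [if_neg]
      intro hpx
      have := Nat.dvd_gcd hpx (Nat.dvd_of_mem_primeFactors hp)
      rw [h] at this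
      exact (Nat.prime_of_mem_primeFactors hp).one_lt.ne' (Nat.dvd_one.mp this)
    · obtain ⟨p, hp, hpd⟩ := Nat.exists_prime_and_dvd h
      refine (prod_eq_zero (i := p) ?_ ?_).symm
      · exact Nat.mem_primeFactors.mpr ⟨hp, hpd.trans (Nat.gcd_dvd_right _ _),
          ne_zero_of_dvd_ne_zero hN.ne_zero (Nat.dvd_of_mem_divisors hb)⟩
      · rw [if_pos (hpd.trans (Nat.gcd_dvd_left _ _))]
  have hsub : x.primeFactors ⊆ N.primeFactors := Nat.primeFactors_mono hx hN.ne_zero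
  have hx0 : x ≠ 0 := ne_zero_of_dvd_ne_zero hN.ne_zero hx
  rw [h1, Yw, ← prod_sdiff hsub, ← prod_sdiff hsub, wt, gw]
  have h2 : ∏ p ∈ x.primeFactors, (1 + if p ∣ x then 0 else (p : ℝ) ^ (-σ) / 2) = 1 :=
    prod_eq_one fun p hp => by rw [if_pos (Nat.dvd_of_mem_primeFactors hp), add_zero]
  have h3 : ∏ p ∈ N.primeFactors \ x.primeFactors, (1 + if p ∣ x then 0 else (p : ℝ) ^ (-σ) / 2) =
      ∏ p ∈ N.primeFactors \ x.primeFactors, (1 + (p : ℝ) ^ (-σ) / 2) := by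
    refine prod_congr rfl fun p hp => ?_
    obtain ⟨h4, h5⟩ := mem_sdiff.mp hp
    rw [if_neg fun h => h5 (Nat.mem_primeFactors.mpr ⟨Nat.prime_of_mem_primeFactors h4, h, hx0⟩)]
  rw [h2, h3, mul_one, mul_assoc, ← prod_mul_distrib, mul_comm]
  congr 1
  refine prod_congr rfl fun p hp => ?_
  have hp0 : (0 : ℝ) < p := Nat.cast_pos.mpr (Nat.prime_of_mem_primeFactors hp).pos
  have h6 : (0 : ℝ) < (p : ℝ) ^ σ := Real.rpow_pos_of_pos hp0 σ
  rw [Real.rpow_neg hp0.le]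
  field_simp

lemma Yw_mul_sum_gw (σ : ℝ) {N : ℕ} (hN : Squarefree N) :
    Yw σ N * ∑ a ∈ N.divisors, gw σ a = Y2 σ N := by
  have h1 : ∑ a ∈ N.divisors, gw σ a = ∏ p ∈ N.primeFactors, (1 + 1 / (2 * (p : ℝ) ^ σ + 1)) :=
    sum_divisors_prod hN _
  rw [h1, Yw, Y2, ← prod_mul_distrib]
  refine prod_congr rfl fun p hp => ?_
  have hp0 : (0 : ℝ) < p := Nat.cast_pos.mpr (Nat.prime_of_mem_primeFactors hp).pos
  have h6 : (0 : ℝ) < (p : ℝ) ^ σ := Real.rpow_pos_of_pos hp0 σ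
  rw [Real.rpow_neg hp0.le]
  field_simp
  ring

lemma sum_wt_dvd (σ : ℝ) {N : ℕ} (hN : Squarefree N) (d : ℕ) :
    ∑ b ∈ N.divisors, (if d ∣ b then wt σ b else 0) ≤ wt σ d * Yw σ N := by
  rw [← sum_filter, ← sum_wt σ hN, mul_sum]
  have h1 : ∀ b ∈ N.divisors.filter (fun b => d ∣ b), wt σ b = wt σ d * wt σ (b / d) := by
    intro b hb
    obtain ⟨hb1, c, rfl⟩ := mem_filter.mp hb
    have hsq := hN.squarefree_of_dvd (Nat.dvd_of_mem_divisors hb1)
    have hd : 0 < d := Nat.pos_of_ne_zero fun h => hsq.ne_zero (by rw [h, zero_mul])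
    rw [Nat.mul_div_cancel_left _ hd, wt_mul σ (Nat.coprime_of_squarefree_mul hsq)]
  rw [sum_congr rfl h1, ← sum_image (s := N.divisors.filter (fun b => d ∣ b)) (g := fun b => b / d)
    (f := fun c => wt σ d * wt σ c)]
  · refine sum_le_sum_of_subset_of_nonneg ?_ fun c _ _ => mul_nonneg (wt_pos σ d).le (wt_pos σ c).le
    intro c hc
    obtain ⟨b, hb, rfl⟩ := mem_image.mp hc
    obtain ⟨hb1, hb2⟩ := mem_filter.mp hb
    exact Nat.mem_divisors.mpr ⟨(Nat.div_dvd_of_dvd hb2).trans (Nat.dvd_of_mem_divisors hb1),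
      hN.ne_zero⟩
  · intro b hb b' hb' h
    have h2 := (mem_filter.mp (mem_coe.mp hb)).2
    have h3 := (mem_filter.mp (mem_coe.mp hb')).2
    rw [← Nat.mul_div_cancel' h2, ← Nat.mul_div_cancel' h3]
    exact congrArg _ h

lemma sum_div_rpow (N : ℕ) :
    ∑ d ∈ N.divisors, (d : ℝ) ^ (-(2 / 3) : ℝ) * (d : ℝ) ^ (-(2 / 3) : ℝ) ≤ 4 := by
  have h1 : ∑ d ∈ N.divisors, (d : ℝ) ^ (-(2 / 3) : ℝ) * (d : ℝ) ^ (-(2 / 3) : ℝ) =
      ∑ d ∈ N.divisors, (d : ℝ) ^ (-(4 / 3) : ℝ) := by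
    refine sum_congr rfl fun d hd => ?_
    rw [← Real.rpow_add (Nat.cast_pos.mpr (Nat.pos_of_mem_divisors hd))]
    norm_num
  have h2 : N.divisors ⊆ insert 1 (Ioc 1 N) := by
    intro d hd
    have := Nat.pos_of_mem_divisors hd
    have := Nat.divisor_le hd
    simp only [mem_insert, mem_Ioc]
    omega
  have h3 := sum_rpow_tail (κ := 4 / 3) (by norm_num) (le_refl 1) N
  rw [h1]
  refine (sum_le_sum_of_subset_of_nonneg h2 fun d _ _ => by positivity).trans ?_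
  rw [sum_insert (by simp)]
  simp only [Nat.cast_one, Real.one_rpow] at h3 ⊢
  norm_num at h3 ⊢
  linarith

end Pool.Agent.MP_5d10af_nt.Dec
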