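import Pool.Agent.MP_5d10af_nt.Cnt

-- part MP_5d10af_nt.Defs
section

/-!
Definitions for the analytic part.
-/

set_option autoImplicit false

namespace Pool.Agent.MP_5d10af_nt

open Finset

/-- The four real characters modulo 8 (principal, chi4, chi8, chi-8); all vanish on even numbers. -/
def psi (i : Fin 4) (n : ℕ) : ℤ :=
  if n % 2 = 0 then 0
  else if i = 0 then 1
  else if i = 1 then (if n % 4 = 1 then 1 else -1)
  else if i = 2 then (if n % 8 = 1 ∨ n % 8 = 7 then 1 else -1)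
  else (if n % 8 = 1 ∨ n % 8 = 3 then 1 else -1)

/-- The character `n ↦ psi i n * (n / k)`. -/
noncomputable def chi (i : Fin 4) (k n : ℕ) : ℝ := ((psi i n * jacobiSym n k : ℤ) : ℝ)

/-- The constant in the bilinear bound. -/
noncomputable def cpsi (i : Fin 4) : ℝ := if i = 0 ∨ i = 1 then 1 else √2

/-- 32 times the coefficients of the kernel. -/
def kk32 (i : Fin 4) (e : ℕ) : ℕ :=
  if e % 8 = 1 then ![48, 2, 5, 1] i
  else if e % 8 = 3 then ![16, 20, 1, 5] i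
  else if e % 8 = 5 then ![36, 2, 5, 1] i
  else if e % 8 = 7 then ![24, 20, 1, 5] i
  else 0

noncomputable def kk (i : Fin 4) (e : ℕ) : ℝ := (kk32 i e : ℝ) / 32

/-- The symmetric kernel. -/
noncomputable def Kf (a e : ℕ) : ℝ := ∑ i : Fin 4, kk i e * chi i e a

/-- Bilinear bound over intervals. -/
def Bil (Ξ : ℕ → ℝ) (γ : ℝ) : Prop :=
  ∀ n0 A B : ℕ, |∑ i ∈ range A, ∑ j ∈ range B, Ξ (n0 + i + j)| ≤ γ * √((A : ℝ) * B)

/-- Completely multiplicative, bounded by one, zero on even numbers. -/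
structure CM (χ : ℕ → ℝ) : Prop where
  one : χ 1 = 1
  mul : ∀ m n : ℕ, χ (m * n) = χ m * χ n
  vals : ∀ n : ℕ, χ n = 0 ∨ χ n = 1 ∨ χ n = -1
  two : χ 2 = 0

/-- The series over odd numbers. -/
noncomputable def Lf (σ : ℝ) (χ : ℕ → ℝ) : ℝ :=
  ∑' n : ℕ, ((2 * n + 1 : ℕ) : ℝ) ^ (-σ) * χ (2 * n + 1)

/-- The finite Euler product. -/
noncomputable def LN (σ : ℝ) (N : ℕ) (χ : ℕ → ℝ) : ℝ :=
  ∏ p ∈ N.primeFactors, (1 - χ p * (p : ℝ) ^ (-σ))⁻¹

/-- The diagonal quadratic form. -/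
noncomputable def Qf (M : ℕ) (b : ℕ → ℝ) : ℝ :=
  ∑ n ∈ Icc 1 M, ∑ n' ∈ Icc 1 M, if IsSquare (n * n') then |b n| * |b n'| else 0

/-- The weighted sum of absolute values. -/
noncomputable def Sf (M : ℕ) (b : ℕ → ℝ) : ℝ := ∑ n ∈ Icc 1 M, |b n| * √(n : ℝ)

/-- `N` is odd, squarefree and divisible by all odd primes below `P`. -/
structure Good (P N : ℕ) : Prop where
  sqf : Squarefree N
  odd : Odd N
  dvd : ∀ p : ℕ, p.Prime → p ≠ 2 → p < P → p ∣ N

noncomputable def wt (σ : ℝ) (a : ℕ) : ℝ := ∏ p ∈ a.primeFactors, (p : ℝ) ^ (-σ) / 2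

noncomputable def gw (σ : ℝ) (a : ℕ) : ℝ := ∏ p ∈ a.primeFactors, 1 / (2 * (p : ℝ) ^ σ + 1)

noncomputable def Yw (σ : ℝ) (N : ℕ) : ℝ := ∏ p ∈ N.primeFactors, (1 + (p : ℝ) ^ (-σ) / 2)

noncomputable def Y2 (σ : ℝ) (N : ℕ) : ℝ := ∏ p ∈ N.primeFactors, (1 + (p : ℝ) ^ (-σ))

/-- The coefficient of the secondary term. -/
noncomputable def rr (σ : ℝ) (N : ℕ) : ℝ :=
  ∑ a ∈ N.divisors, ∑ e ∈ N.divisors, gw σ a * gw σ e * Kf a e - 3 * ∑ a ∈ N.divisors, gw σ a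

/-- The truncated Dirichlet series (with the factors at 2 frozen at `σ = 1`). -/
noncomputable def FF (σ : ℝ) (N : ℕ) : ℝ :=
  ∑ m ∈ N.divisors, (m : ℝ) ^ (-σ) *
    ((if m % 4 = 3 then (cnt 1 1 m : ℝ) / 2 else ((cnt 1 1 m : ℝ) + cnt 2 2 m) / 8) +
      ((cnt 1 2 m : ℝ) + cnt 2 1 m) / 16)

/-- The divergent part of the kernel. -/
noncomputable def sig (i j : Fin 4) (a e : ℕ) : ℝ :=
  (if j = 0 ∧ a = 1 then 1 else 0) + (if i = 0 ∧ e = 1 then 1 else 0)

/-- The twisted double sums. -/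
noncomputable def Ad (i j : Fin 4) (σ : ℝ) (N d : ℕ) : ℝ :=
  ∑ a ∈ N.divisors, ∑ e ∈ N.divisors,
    if d ∣ a * e then
      (((psi i a * psi j e * jacobiSym e a : ℤ) : ℝ) - sig i j a e) * wt σ a * wt σ e
    else 0

/-- The qualitative bound for the twisted double sums. -/
def QualA : Prop :=
  ∃ C : ℝ, ∀ σ : ℝ, 1 < σ → σ ≤ 2 → ∃ P0 : ℕ, ∀ P N : ℕ, P0 ≤ P → Good P N →
    ∀ (i j : Fin 4) (d : ℕ), d ∣ N →
      |Ad i j σ N d| ≤ C * (d : ℝ) ^ (-(2 / 3) : ℝ) * (σ - 1) ^ (-(3 / 16) : ℝ)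

/-- The qualitative decomposition. -/
def QualB : Prop :=
  ∃ C : ℝ, ∀ σ : ℝ, 1 < σ → σ ≤ 2 → ∃ P0 : ℕ, ∀ P N : ℕ, P0 ≤ P → Good P N →
    |FF σ N - 3 / 2 * Y2 σ N - Yw σ N * rr σ N| ≤ C * (σ - 1) ^ (-(3 / 8) : ℝ) ∧
    |rr σ N| ≤ C * (σ - 1) ^ (-(3 / 16) : ℝ)

/-- The explicit bound. -/
def Expl : Prop :=
  ∃ η : ℝ, 0 < η ∧ ∃ σ0 : ℝ, 1 < σ0 ∧ ∀ σ : ℝ, 1 < σ → σ < σ0 → ∃ P0 : ℕ, ∀ P N : ℕ,
    P0 ≤ P → Good P N → rr σ N ≤ -η

end Pool.Agent.MP_5d10af_nt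

end

-- part MP_5d10af_nt.Chi
section

/-!
Basic facts on the characters.
-/

set_option autoImplicit false

namespace Pool.Agent.MP_5d10af_nt

open Finset

/-- The group law on the four characters. -/
def pm (i j : Fin 4) : Fin 4 := ![![0, 1, 2, 3], ![1, 0, 3, 2], ![2, 3, 0, 1], ![3, 2, 1, 0]] i j

lemma psi_mod (i : Fin 4) (n : ℕ) : psi i (n % 8) = psi i n := by
  unfold psi
  have h2 : n % 8 % 2 = n % 2 := Nat.mod_mod_of_dvd _ (by norm_num)
  have h4 : n % 8 % 4 = n % 4 := Nat.mod_mod_of_dvd _ (by norm_num)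
  simp only [h2, h4, Nat.mod_mod]

lemma psi_mul (i : Fin 4) (m n : ℕ) : psi i (m * n) = psi i m * psi i n := by
  rw [← psi_mod i (m * n), ← psi_mod i m, ← psi_mod i n, Nat.mul_mod]
  have hm : m % 8 < 8 := Nat.mod_lt _ (by norm_num)
  have hn : n % 8 < 8 := Nat.mod_lt _ (by norm_num)
  generalize m % 8 = a at *
  generalize n % 8 = b at *
  revert i
  interval_cases a <;> interval_cases b <;> decide

lemma psi_pm (i j : Fin 4) (n : ℕ) : psi (pm i j) n = psi i n * psi j n := by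
  rw [← psi_mod i n, ← psi_mod j n, ← psi_mod (pm i j) n]
  have hn : n % 8 < 8 := Nat.mod_lt _ (by norm_num)
  generalize n % 8 = b at *
  revert i j
  interval_cases b <;> decide

lemma pm_eq_zero (i j : Fin 4) : pm i j = 0 ↔ i = j := by revert i j; decide

lemma psi_one (i : Fin 4) : psi i 1 = 1 := by revert i; decide

lemma psi_even (i : Fin 4) {n : ℕ} (h : n % 2 = 0) : psi i n = 0 := by simp [psi, h]

lemma psi_zero_odd {n : ℕ} (h : n % 2 = 1) : psi 0 n = 1 := by simp [psi, h]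

lemma psi_vals (i : Fin 4) (n : ℕ) : psi i n = 0 ∨ psi i n = 1 ∨ psi i n = -1 := by
  unfold psi; split_ifs <;> simp

lemma psi_odd (i : Fin 4) {n : ℕ} (h : n % 2 = 1) : psi i n = 1 ∨ psi i n = -1 := by
  unfold psi; split_ifs <;> simp_all

lemma psi_one_eq (n : ℕ) : psi 1 n = ZMod.χ₄ n := by
  rw [ZMod.χ₄_nat_eq_if_mod_four]; simp [psi]

lemma psi_two_eq (n : ℕ) : psi 2 n = ZMod.χ₈ n := by
  rw [ZMod.χ₈_nat_eq_if_mod_eight]; simp [psi]

lemma cpsi_pos (i : Fin 4) : 0 < cpsi i := by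
  unfold cpsi; split_ifs <;> positivity

lemma one_le_cpsi (i : Fin 4) : 1 ≤ cpsi i := by
  unfold cpsi; split_ifs
  · exact le_rfl
  · exact Real.one_le_sqrt.mpr (by norm_num)

lemma cpsi_le (i : Fin 4) : cpsi i ≤ √2 := by
  unfold cpsi; split_ifs
  · exact Real.one_le_sqrt.mpr (by norm_num)
  · exact le_rfl

lemma cpsi_pm (i j : Fin 4) : cpsi (pm i j) ≤ cpsi i * cpsi j := by
  have h1 : (1 : ℝ) ≤ √2 := Real.one_le_sqrt.mpr (by norm_num)
  fin_cases i <;> fin_cases j <;> simp [cpsi, pm]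

lemma chi_cm (i : Fin 4) (k : ℕ) : CM (chi i k) where
  one := by simp [chi, psi_one]
  mul m n := by
    simp only [chi, psi_mul, Nat.cast_mul, jacobiSym.mul_left]; push_cast; ring
  vals n := by
    unfold chi
    rcases psi_vals i n with h | h | h <;> rcases jacobiSym.trichotomy (n : ℤ) k with h' | h' | h' <;>
      simp [h, h']
  two := by simp [chi, psi_even]

lemma CM.abs_le {χ : ℕ → ℝ} (h : CM χ) (n : ℕ) : |χ n| ≤ 1 := by
  rcases h.vals n with h | h | h <;> simp [h]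

lemma CM.even {χ : ℕ → ℝ} (h : CM χ) {n : ℕ} (hn : n % 2 = 0) : χ n = 0 := by
  obtain ⟨m, rfl⟩ : ∃ m, n = 2 * m := ⟨n / 2, by omega⟩
  rw [h.mul, h.two, zero_mul]

lemma chi_mul_chi (i j : Fin 4) {k k' : ℕ} (hk : k ≠ 0) (hk' : k' ≠ 0) (n : ℕ) :
    chi i k n * chi j k' n = chi (pm i j) (k * k') n := by
  simp only [chi, psi_pm, jacobiSym.mul_right' _ hk hk']; push_cast; ring

/-- Quadratic reciprocity. -/
lemma jac_rec {a e : ℕ} (ha : a % 2 = 1) (he : e % 2 = 1) :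
    jacobiSym e a = (if e % 4 = 1 then 1 else psi 1 a) * jacobiSym a e := by
  have ha' : Odd a := Nat.odd_iff.mpr ha
  have he' : Odd e := Nat.odd_iff.mpr he
  split_ifs with h
  · rw [one_mul]; exact jacobiSym.quadratic_reciprocity_one_mod_four h ha'
  · have h3 : e % 4 = 3 := by omega
    by_cases h1 : a % 4 = 1
    · have : psi 1 a = 1 := by simp [psi, ha, h1]
      rw [this, one_mul]; exact jacobiSym.quadratic_reciprocity_one_mod_four' he' h1
    · have : psi 1 a = -1 := by simp [psi, ha, h1]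
      rw [this, jacobiSym.quadratic_reciprocity_three_mod_four h3 (by omega)]; ring

lemma kk_nonneg (i : Fin 4) (e : ℕ) : 0 ≤ kk i e := by unfold kk; positivity

lemma kk32_mod (i : Fin 4) (e : ℕ) : kk32 i (e % 8) = kk32 i e := by simp [kk32]

/-- 32 times the factor of the kernel. -/
def kap (a e : ℕ) : ℤ := ∑ i : Fin 4, (kk32 i e : ℤ) * psi i a

lemma kap_mod (a e : ℕ) : kap (a % 8) (e % 8) = kap a e := by
  simp only [kap, psi_mod, kk32_mod]

lemma Kf_eq (a e : ℕ) : Kf a e = ((kap a e * jacobiSym a e : ℤ) : ℝ) / 32 := by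
  simp only [Kf, kk, chi, kap, Finset.sum_mul]; push_cast
  rw [Finset.sum_div]
  exact Finset.sum_congr rfl fun i _ => by ring

lemma kap_symm {a e : ℕ} (ha : a % 2 = 1) (he : e % 2 = 1) :
    kap a e = kap e a * (if e % 4 = 1 then 1 else psi 1 a) := by
  rw [← kap_mod a e, ← kap_mod e a, ← psi_mod 1 a]
  have h4 : e % 4 = e % 8 % 4 := (Nat.mod_mod_of_dvd _ (by norm_num)).symm
  have h2 : a % 8 % 2 = 1 := by omega
  have h2' : e % 8 % 2 = 1 := by omega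
  rw [h4]
  have hm : a % 8 < 8 := Nat.mod_lt _ (by norm_num)
  have hn : e % 8 < 8 := Nat.mod_lt _ (by norm_num)
  generalize a % 8 = x at *
  generalize e % 8 = y at *
  interval_cases x <;> interval_cases y <;> first | omega | decide

lemma Kf_symm {a e : ℕ} (ha : a % 2 = 1) (he : e % 2 = 1) : Kf a e = Kf e a := by
  rw [Kf_eq, Kf_eq, jac_rec ha he, kap_symm ha he, mul_assoc]

lemma sum_kk_le (e : ℕ) : ∑ i : Fin 4, kk i e ≤ 7 / 4 := by
  simp only [Fin.sum_univ_four, kk, kk32]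
  split_ifs <;> simp <;> norm_num

lemma sqrt_two_lt : √2 < 1.41422 := by
  rw [Real.sqrt_lt' (by norm_num)]; norm_num

lemma sum_kk_cpsi_le (e : ℕ) : ∑ i : Fin 4, cpsi i * kk i e ≤ 1.828 := by
  have := sqrt_two_lt
  simp only [Fin.sum_univ_four, kk, kk32, cpsi]
  split_ifs <;> simp_all <;> linarith

lemma sum_kk_sq_le (e : ℕ) : ∑ i : Fin 4, kk i e ^ 2 ≤ 2.28 := by
  simp only [Fin.sum_univ_four, kk, kk32]
  split_ifs <;> simp <;> norm_num

lemma abs_Kf_le (a e : ℕ) : |Kf a e| ≤ 7 / 4 := by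
  refine le_trans (Finset.abs_sum_le_sum_abs _ _) (le_trans ?_ (sum_kk_le e))
  refine Finset.sum_le_sum fun i _ => ?_
  rw [abs_mul, abs_of_nonneg (kk_nonneg i e)]
  exact mul_le_of_le_one_right (kk_nonneg i e) ((chi_cm i e).abs_le a)

end Pool.Agent.MP_5d10af_nt

end

-- part MP_5d10af_nt.Euler
section

/-!
Elementary sums and finite Euler products.
-/

set_option autoImplicit false

namespace Pool.Agent.MP_5d10af_nt

open Finset

lemma rpow_step {κ x y : ℝ} (hκ : 1 < κ) (hx : 0 < x) (hxy : x ≤ y) :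
    (y - x) * y ^ (-κ) ≤ (x ^ (1 - κ) - y ^ (1 - κ)) / (κ - 1) := by
  have hy : 0 < y := lt_of_lt_of_le hx hxy
  have hk : 0 < κ - 1 := by linarith
  rw [le_div_iff₀ hk]
  have h1 : y ^ (1 - κ) = y * y ^ (-κ) := by
    rw [sub_eq_add_neg, Real.rpow_add hy, Real.rpow_one]
  have hyk : 0 < y ^ (-κ) := Real.rpow_pos_of_pos hy _
  have h2 : x ^ (1 - κ) = (x / y) ^ (1 - κ) * y ^ (1 - κ) := by
    rw [Real.div_rpow hx.le hy.le]
    field_simp
  have h3 : 1 + (κ - 1) * (1 - x / y) ≤ (x / y) ^ (1 - κ) := by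
    have hu : 0 < x / y := div_pos hx hy
    rw [Real.rpow_def_of_pos hu]
    have h4 := Real.add_one_le_exp (Real.log (x / y) * (1 - κ))
    have h5 := Real.log_le_sub_one_of_pos hu
    nlinarith
  have h6 : (1 + (κ - 1) * (1 - x / y)) * y ^ (1 - κ) ≤ x ^ (1 - κ) := by
    rw [h2]
    exact mul_le_mul_of_nonneg_right h3 (Real.rpow_pos_of_pos hy _).le
  have h7 : (1 + (κ - 1) * (1 - x / y)) * y ^ (1 - κ) =
      y ^ (1 - κ) + (y - x) * y ^ (-κ) * (κ - 1) := by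
    rw [h1]; field_simp
  linarith

lemma sum_rpow_tail {κ : ℝ} (hκ : 1 < κ) {M : ℕ} (hM : 1 ≤ M) (J : ℕ) :
    ∑ n ∈ Ioc M J, (n : ℝ) ^ (-κ) ≤ (M : ℝ) ^ (1 - κ) / (κ - 1) := by
  have hk : 0 < κ - 1 := by linarith
  have key : ∀ J, M ≤ J → ∑ n ∈ Ioc M J, (n : ℝ) ^ (-κ) ≤
      ((M : ℝ) ^ (1 - κ) - (J : ℝ) ^ (1 - κ)) / (κ - 1) := by
    intro J hJ
    induction J, hJ using Nat.le_induction with
    | base => simp
    | succ J hJ ih =>
      rw [Finset.sum_Ioc_succ_top hJ]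
      have hJ0 : (0 : ℝ) < J := by exact_mod_cast (by omega : 0 < J)
      have := rpow_step hκ hJ0 (by linarith : (J : ℝ) ≤ J + 1)
      push_cast
      rw [sub_div] at *
      rw [add_sub_cancel_left, one_mul] at this
      linarith
  rcases le_total M J with h | h
  · refine (key J h).trans ?_
    gcongr
    have : 0 ≤ (J : ℝ) ^ (1 - κ) := by positivity
    linarith
  · rw [Finset.Ioc_eq_empty (by omega)]
    simp only [Finset.sum_empty]
    positivity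

lemma sum_odd_rpow {σ : ℝ} (hσ : 1 < σ) (J : ℕ) :
    ∑ n ∈ range J, ((2 * n + 1 : ℕ) : ℝ) ^ (-σ) ≤ 1 + 1 / (2 * (σ - 1)) := by
  have hk : 0 < σ - 1 := by linarith
  have key : ∀ J : ℕ, ∑ n ∈ range (J + 1), ((2 * n + 1 : ℕ) : ℝ) ^ (-σ) ≤
      1 + (1 - ((2 * J + 1 : ℕ) : ℝ) ^ (1 - σ)) / (σ - 1) / 2 := by
    intro J
    induction J with
    | zero => simp
    | succ J ih =>
      rw [Finset.sum_range_succ]
      have hJ0 : (0 : ℝ) < ((2 * J + 1 : ℕ) : ℝ) := by positivity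
      have h := rpow_step hσ hJ0
        (by push_cast; linarith : ((2 * J + 1 : ℕ) : ℝ) ≤ ((2 * (J + 1) + 1 : ℕ) : ℝ))
      have h2 : ((2 * (J + 1) + 1 : ℕ) : ℝ) - ((2 * J + 1 : ℕ) : ℝ) = 2 := by push_cast; ring
      rw [h2] at h
      rw [sub_div] at *
      linarith
  rcases J with - | J
  · simp only [range_zero, sum_empty]; positivity
  · refine (key J).trans ?_
    have : 0 ≤ ((2 * J + 1 : ℕ) : ℝ) ^ (1 - σ) := by positivity
    have h2 : (1 - ((2 * J + 1 : ℕ) : ℝ) ^ (1 - σ)) / (σ - 1) ≤ 1 / (σ - 1) := by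
      gcongr; linarith
    have h3 : 1 / (2 * (σ - 1)) = 1 / (σ - 1) / 2 := by field_simp
    linarith

lemma summable_odd_rpow {σ : ℝ} (hσ : 1 < σ) :
    Summable fun n : ℕ => ((2 * n + 1 : ℕ) : ℝ) ^ (-σ) :=
  summable_of_sum_range_le (fun _ => by positivity) (sum_odd_rpow hσ)

lemma summable_Lf {σ : ℝ} (hσ : 1 < σ) {χ : ℕ → ℝ} (h : ∀ n, |χ n| ≤ 1) :
    Summable fun n : ℕ => ((2 * n + 1 : ℕ) : ℝ) ^ (-σ) * χ (2 * n + 1) := by
  refine Summable.of_norm_bounded (summable_odd_rpow hσ) fun n => ?_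
  rw [Real.norm_eq_abs, abs_mul, abs_of_nonneg (by positivity)]
  exact mul_le_of_le_one_right (by positivity) (h _)

/-- Telescoping over odd numbers. -/
lemma sum_odd_tele (f G : ℕ → ℝ) {k0 K : ℕ} (hK : k0 ≤ K)
    (hf0 : ∀ k, k0 ≤ k → k < K → 0 ≤ f (2 * k + 1))
    (hf : ∀ k, k0 ≤ k → k < K → f (2 * k + 1) ≤ G (k + 1) - G k) (T : Finset ℕ)
    (hT : ∀ n ∈ T, n % 2 = 1 ∧ k0 ≤ n / 2 ∧ n / 2 < K) : ∑ n ∈ T, f n ≤ G K - G k0 := by
  have hsub : T ⊆ (Ico k0 K).image fun k => 2 * k + 1 := by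
    intro n hn
    obtain ⟨h1, h2, h3⟩ := hT n hn
    exact mem_image.2 ⟨n / 2, mem_Ico.2 ⟨h2, h3⟩, by omega⟩
  calc ∑ n ∈ T, f n ≤ ∑ n ∈ (Ico k0 K).image fun k => 2 * k + 1, f n := by
        refine sum_le_sum_of_subset_of_nonneg hsub fun n hn _ => ?_
        obtain ⟨k, hk, rfl⟩ := mem_image.1 hn
        exact hf0 k (mem_Ico.1 hk).1 (mem_Ico.1 hk).2
    _ = ∑ k ∈ Ico k0 K, f (2 * k + 1) := sum_image fun a _ b _ h => by simpa using h
    _ ≤ ∑ k ∈ Ico k0 K, (G (k + 1) - G k) :=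
        sum_le_sum fun k hk => hf k (mem_Ico.1 hk).1 (mem_Ico.1 hk).2
    _ = G K - G k0 := sum_Ico_sub G hK

/-- Odd numbers above `z`. -/
lemma sum_odd_inv_sq {z : ℕ} (hz : 1 ≤ z) (T : Finset ℕ) (hT : ∀ n ∈ T, n % 2 = 1 ∧ z < n) :
    ∑ n ∈ T, 1 / (n : ℝ) ^ 2 ≤ 1 / (2 * (z : ℝ)) := by
  set K := (z + 1) / 2 + T.sup id + 1 with hK
  have h := sum_odd_tele (fun n => 1 / (n : ℝ) ^ 2) (fun k => -(1 / (4 * (k : ℝ))))
    (k0 := (z + 1) / 2) (K := K) (by omega) (fun k _ _ => by positivity) (fun k hk _ => by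
      have hk1 : (1 : ℝ) ≤ k := by exact_mod_cast (by omega : 1 ≤ k)
      push_cast
      rw [neg_sub_neg, div_sub_div _ _ (by positivity) (by positivity),
        div_le_div_iff₀ (by positivity) (by positivity)]
      nlinarith) T (fun n hn => by
      have := hT n hn
      have h2 : n ≤ T.sup id := Finset.le_sup (f := id) hn
      omega)
  refine h.trans ?_
  have h1 : (z : ℝ) ≤ 2 * (((z + 1) / 2 : ℕ) : ℝ) := by exact_mod_cast (by omega)
  have hz' : (0 : ℝ) < z := by exact_mod_cast hz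
  have h2 : 1 / (4 * (((z + 1) / 2 : ℕ) : ℝ)) ≤ 1 / (2 * (z : ℝ)) := by
    apply one_div_le_one_div_of_le (by positivity); linarith
  have h3 : 0 ≤ 1 / (4 * (K : ℝ)) := by positivity
  linarith

lemma inv_sqrt_le {m : ℝ} (hm : 1 ≤ m) : 1 / √m ≤ √(m + 1) - √(m - 1) := by
  have h0 : 0 < √m := Real.sqrt_pos.2 (by linarith)
  have ha : 0 < √(m + 1) := Real.sqrt_pos.2 (by linarith)
  have hb : 0 ≤ √(m - 1) := Real.sqrt_nonneg _
  have e0 := Real.mul_self_sqrt (by linarith : 0 ≤ m)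
  have ea := Real.mul_self_sqrt (by linarith : 0 ≤ m + 1)
  have eb := Real.mul_self_sqrt (by linarith : 0 ≤ m - 1)
  have hs : √(m + 1) + √(m - 1) ≤ 2 * √m := by
    apply le_of_sq_le_sq _ (by positivity) |> fun h => h
    nlinarith [sq_nonneg (√(m + 1) - √(m - 1))]
  have hd : 0 ≤ √(m + 1) - √(m - 1) := sub_nonneg.2 (Real.sqrt_le_sqrt (by linarith))
  rw [div_le_iff₀ h0]
  nlinarith [mul_le_mul_of_nonneg_left hs hd]

lemma sum_odd_inv_sqrt (Y : ℕ) (T : Finset ℕ) (hT : ∀ n ∈ T, n % 2 = 1 ∧ n < Y) :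
    ∑ n ∈ T, 1 / √(n : ℝ) ≤ √(Y : ℝ) := by
  have h := sum_odd_tele (fun n => 1 / √(n : ℝ)) (fun k => √(2 * (k : ℝ)))
    (k0 := 0) (K := Y / 2) (by omega) (fun k _ _ => by positivity) (fun k _ _ => by
      have hk : (0 : ℝ) ≤ k := by positivity
      have := inv_sqrt_le (m := 2 * (k : ℝ) + 1) (by linarith)
      push_cast
      rw [show 2 * (k : ℝ) + 1 + 1 = 2 * (k + 1) by ring, add_sub_cancel_right] at this
      exact this) T (fun n hn => by
      have := hT n hn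
      omega)
  refine h.trans ?_
  have h1 : 2 * ((Y / 2 : ℕ) : ℝ) ≤ Y := by exact_mod_cast (by omega)
  simpa using Real.sqrt_le_sqrt h1

lemma sum_odd_inv {Y : ℝ} (hY : 1 ≤ Y) (T : Finset ℕ)
    (hT : ∀ n ∈ T, n % 2 = 1 ∧ 1 < n ∧ (n : ℝ) ≤ Y) :
    ∑ n ∈ T, 1 / (n : ℝ) ≤ Real.log Y / 2 := by
  have hfl : 1 ≤ ⌊Y⌋₊ := Nat.le_floor (by exact_mod_cast hY)
  have h := sum_odd_tele (fun n => 1 / (n : ℝ)) (fun k => Real.log (2 * (k : ℝ) - 1) / 2)
    (k0 := 1) (K := (⌊Y⌋₊ + 1) / 2) (by omega) (fun k _ _ => by positivity) (fun k hk _ => by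
      have hk1 : (1 : ℝ) ≤ k := by exact_mod_cast hk
      have h1 : (0 : ℝ) < 2 * k - 1 := by linarith
      have h2 : (0 : ℝ) < 2 * k + 1 := by linarith
      have h3 := Real.log_le_sub_one_of_pos (div_pos h1 h2)
      rw [Real.log_div h1.ne' h2.ne'] at h3
      have h4 : (2 * (k : ℝ) - 1) / (2 * k + 1) - 1 = -2 * (1 / (2 * k + 1)) := by
        field_simp; ring
      push_cast
      rw [show 2 * ((k : ℝ) + 1) - 1 = 2 * k + 1 by ring]
      linarith) T (fun n hn => by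
      obtain ⟨h1, h2, h3⟩ := hT n hn
      have : n ≤ ⌊Y⌋₊ := Nat.le_floor h3
      omega)
  refine h.trans ?_
  have h1 : 2 * (((⌊Y⌋₊ + 1) / 2 : ℕ) : ℝ) ≤ ⌊Y⌋₊ + 1 := by exact_mod_cast (by omega)
  have h2 : (1 : ℝ) ≤ (((⌊Y⌋₊ + 1) / 2 : ℕ) : ℝ) := by exact_mod_cast (by omega)
  have h3 := Nat.floor_le (by linarith : 0 ≤ Y)
  have h4 : Real.log (2 * (((⌊Y⌋₊ + 1) / 2 : ℕ) : ℝ) - 1) ≤ Real.log Y :=
    Real.log_le_log (by linarith) (by linarith)
  simp only [Nat.cast_one]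
  norm_num
  linarith

lemma sum_divisors_prod {N : ℕ} (hN : Squarefree N) (f : ℕ → ℝ) :
    ∑ a ∈ N.divisors, ∏ p ∈ a.primeFactors, f p = ∏ p ∈ N.primeFactors, (1 + f p) := by
  have h := (ArithmeticFunction.IsMultiplicative.prodPrimeFactors
    f).prodPrimeFactors_one_add_of_squarefree hN
  rw [show ∑ a ∈ N.divisors, ∏ p ∈ a.primeFactors, f p =
      ∑ a ∈ N.divisors, ArithmeticFunction.prodPrimeFactors f a from
    sum_congr rfl fun a ha => (ArithmeticFunction.prodPrimeFactors_apply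
      (Nat.pos_of_mem_divisors ha).ne').symm, ← h]
  refine prod_congr rfl fun p hp => ?_
  have hp' := Nat.prime_of_mem_primeFactors hp
  rw [ArithmeticFunction.prodPrimeFactors_apply hp'.ne_zero, hp'.primeFactors, prod_singleton]

/-- The character as a monoid homomorphism. -/
def CM.hom {χ : ℕ → ℝ} (h : CM χ) : ℕ →* ℝ where
  toFun := χ
  map_one' := h.one
  map_mul' := h.mul

lemma CM.prod {χ : ℕ → ℝ} (h : CM χ) {a : ℕ} (ha : Squarefree a) :
    χ a = ∏ p ∈ a.primeFactors, χ p := by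
  conv_lhs => rw [← Nat.prod_primeFactors_of_squarefree ha]
  exact map_prod h.hom _ _

lemma cast_eq_prod {a : ℕ} (ha : Squarefree a) : (a : ℝ) = ∏ p ∈ a.primeFactors, (p : ℝ) := by
  conv_lhs => rw [← Nat.prod_primeFactors_of_squarefree ha]
  push_cast; rfl

lemma rpow_eq_prod {a : ℕ} (ha : Squarefree a) (t : ℝ) :
    (a : ℝ) ^ t = ∏ p ∈ a.primeFactors, (p : ℝ) ^ t := by
  rw [Real.finsetProd_rpow _ _ (fun _ _ => by positivity), ← cast_eq_prod ha]

lemma CM.abs_mul_lt {χ : ℕ → ℝ} (h : CM χ) {σ : ℝ} (hσ : 0 < σ) {p : ℕ} (hp : p.Prime) :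
    |χ p * (p : ℝ) ^ (-σ)| < 1 := by
  rw [abs_mul, abs_of_nonneg (by positivity : 0 ≤ (p : ℝ) ^ (-σ))]
  have h1 : (p : ℝ) ^ (-σ) < 1 :=
    Real.rpow_lt_one_of_one_lt_of_neg (by exact_mod_cast hp.one_lt) (by linarith)
  exact lt_of_le_of_lt (mul_le_of_le_one_left (by positivity) (h.abs_le p)) h1

lemma LN_pos {σ : ℝ} (hσ : 0 < σ) (N : ℕ) {χ : ℕ → ℝ} (h : CM χ) : 0 < LN σ N χ := by
  refine prod_pos fun p hp => inv_pos.2 ?_
  have := (abs_lt.1 (h.abs_mul_lt hσ (Nat.prime_of_mem_primeFactors hp))).2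
  linarith

/-- The term of the Dirichlet series as a monoid homomorphism. -/
noncomputable def CM.term {χ : ℕ → ℝ} (h : CM χ) (σ : ℝ) : ℕ →* ℝ where
  toFun n := χ n * (n : ℝ) ^ (-σ)
  map_one' := by simp [h.one]
  map_mul' m n := by
    rw [h.mul, Nat.cast_mul, Real.mul_rpow (by positivity) (by positivity)]; ring

lemma CM.hasSum_Lf {χ : ℕ → ℝ} (h : CM χ) {σ : ℝ} (hσ : 1 < σ) :
    HasSum (fun n : ℕ => χ n * (n : ℝ) ^ (-σ)) (Lf σ χ) := by
  have h1 := (summable_Lf hσ h.abs_le).hasSum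
  have hinj : Function.Injective fun n : ℕ => 2 * n + 1 := fun a b hab => by simpa using hab
  refine (hinj.hasSum_iff (f := fun n : ℕ => χ n * (n : ℝ) ^ (-σ)) fun n hn => ?_).1 ?_
  · have : n % 2 = 0 := by
      by_contra hc
      exact hn ⟨n / 2, by simp only; omega⟩
    rw [h.even this, zero_mul]
  · have e : (fun n : ℕ => χ n * (n : ℝ) ^ (-σ)) ∘ (fun n : ℕ => 2 * n + 1) =
        fun n : ℕ => ((2 * n + 1 : ℕ) : ℝ) ^ (-σ) * χ (2 * n + 1) := by
      funext n; simp only [Function.comp]; ring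
    rw [e]; exact h1

lemma CM.hasSum_LN {χ : ℕ → ℝ} (h : CM χ) {σ : ℝ} (hσ : 0 < σ) (N : ℕ) :
    HasSum ((Nat.factoredNumbers N.primeFactors).indicator fun n : ℕ => χ n * (n : ℝ) ^ (-σ))
      (LN σ N χ) := by
  have h1 := (EulerProduct.summable_and_hasSum_factoredNumbers_prod_filter_prime_geometric
    (f := h.term σ) (fun {p} hp => h.abs_mul_lt hσ hp) N.primeFactors).2
  rw [Finset.filter_true_of_mem fun p hp => Nat.prime_of_mem_primeFactors hp] at h1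
  exact hasSum_subtype_iff_indicator.1 h1

lemma LN_approx {s η : ℝ} (hs : 1 < s) (hη : 0 < η) :
    ∃ P0 : ℕ, ∀ P N : ℕ, P0 ≤ P → Good P N → ∀ σ : ℝ, s ≤ σ → ∀ χ : ℕ → ℝ, CM χ →
      |LN σ N χ - Lf σ χ| ≤ η := by
  have hk : 0 < s - 1 := by linarith
  obtain ⟨M, hM1, hM⟩ : ∃ M : ℕ, 1 ≤ M ∧ (M : ℝ) ^ (1 - s) / (s - 1) ≤ η := by
    have h1 : Filter.Tendsto (fun M : ℕ => (M : ℝ) ^ (-(s - 1))) Filter.atTop (nhds 0) :=
      (tendsto_rpow_neg_atTop hk).comp tendsto_natCast_atTop_atTop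
    have h2 := h1.eventually (gt_mem_nhds (mul_pos hη hk))
    obtain ⟨M, hM, hM'⟩ := (h2.and (Filter.eventually_ge_atTop 1)).exists
    refine ⟨M, hM', ?_⟩
    rw [div_le_iff₀ hk, show 1 - s = -(s - 1) by ring]
    exact hM.le
  refine ⟨M + 1, fun P N hP hG σ hσ χ h => ?_⟩
  have hσ1 : 1 < σ := lt_of_lt_of_le hs hσ
  have h1 := (h.hasSum_LN (by linarith : 0 < σ) N).sub (h.hasSum_Lf hσ1)
  have hN : N ≠ 0 := hG.sqf.ne_zero
  set g : ℕ → ℝ := fun n => if M < n then (n : ℝ) ^ (-s) else 0 with hg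
  have hg0 : ∀ n, 0 ≤ g n := fun n => by simp only [hg]; split_ifs <;> positivity
  have hgs : ∀ J, ∑ n ∈ range J, g n ≤ η := fun J => by
    refine le_trans ?_ ((sum_rpow_tail hs hM1 J).trans hM)
    rw [hg, ← sum_filter]
    refine sum_le_sum_of_subset_of_nonneg (fun n hn => ?_) fun _ _ _ => by positivity
    simp only [mem_filter, mem_range, mem_Ioc] at *
    omega
  have hgsum : Summable g := summable_of_sum_range_le hg0 hgs
  have h2 : ‖LN σ N χ - Lf σ χ‖ ≤ ∑' n, g n := by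
    refine h1.norm_le_of_bounded hgsum.hasSum fun n => ?_
    by_cases hn : n ∈ Nat.factoredNumbers N.primeFactors
    · rw [Set.indicator_of_mem hn, sub_self, norm_zero]; exact hg0 n
    · rw [Set.indicator_of_notMem hn, zero_sub, norm_neg]
      by_cases he : n % 2 = 0
      · rw [h.even he, zero_mul, norm_zero]; exact hg0 n
      · rw [Nat.mem_factoredNumbers'] at hn
        push Not at hn
        obtain ⟨p, hp, hpn, hpN⟩ := hn
        have hp2 : p ≠ 2 := by rintro rfl; omega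
        have hpP : P ≤ p := by
          by_contra hc
          exact hpN (Nat.mem_primeFactors.2 ⟨hp, hG.dvd p hp hp2 (by omega), hN⟩)
        have hn0 : 0 < n := by omega
        have hpn' := Nat.le_of_dvd hn0 hpn
        have hMn : M < n := by omega
        simp only [hg, if_pos hMn]
        rw [Real.norm_eq_abs, abs_mul, abs_of_nonneg (by positivity : 0 ≤ (n : ℝ) ^ (-σ))]
        refine (mul_le_of_le_one_left (by positivity) (h.abs_le n)).trans ?_
        exact Real.rpow_le_rpow_of_exponent_le (by exact_mod_cast hn0) (by linarith)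
  exact h2.trans (Real.tsum_le_of_sum_range_le hg0 hgs)

lemma chi_zero_one (n : ℕ) : chi 0 1 n = if n % 2 = 0 then 0 else 1 := by
  simp [chi, psi]

lemma zetaN_le {σ : ℝ} (hσ : 1 < σ) {N : ℕ} (hN : Odd N) :
    ∏ p ∈ N.primeFactors, (1 - (p : ℝ) ^ (-σ))⁻¹ ≤ 1 + 1 / (2 * (σ - 1)) := by
  have h := chi_cm 0 1
  have e1 : ∏ p ∈ N.primeFactors, (1 - (p : ℝ) ^ (-σ))⁻¹ = LN σ N (chi 0 1) := by
    refine prod_congr rfl fun p hp => ?_
    have : p % 2 = 1 := Nat.odd_iff.1 (hN.of_dvd_nat (Nat.dvd_of_mem_primeFactors hp))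
    rw [chi_zero_one, if_neg (by omega), one_mul]
  have e2 : LN σ N (chi 0 1) ≤ Lf σ (chi 0 1) := by
    refine hasSum_le (fun n => ?_) (h.hasSum_LN (by linarith) N) (h.hasSum_Lf hσ)
    refine Set.indicator_le_self' (fun n _ => ?_) n
    rw [chi_zero_one]; split_ifs <;> positivity
  have e3 : Lf σ (chi 0 1) ≤ 1 + 1 / (2 * (σ - 1)) := by
    have : ∀ n : ℕ, ((2 * n + 1 : ℕ) : ℝ) ^ (-σ) * chi 0 1 (2 * n + 1) =
        ((2 * n + 1 : ℕ) : ℝ) ^ (-σ) := fun n => by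
      rw [chi_zero_one, if_neg (by omega), mul_one]
    unfold Lf
    simp only [this]
    exact Real.tsum_le_of_sum_range_le (fun _ => by positivity) (sum_odd_rpow hσ)
  linarith

lemma Good.dvd_of_lt {P N a : ℕ} (h : Good P N) (ha : Squarefree a) (ho : a % 2 = 1)
    (hlt : a < P) : a ∣ N := by
  rw [← Nat.prod_primeFactors_of_squarefree ha, Nat.prod_primeFactors_dvd_iff h.sqf.ne_zero]
  intro p hp
  have hp' := Nat.prime_of_mem_primeFactors hp
  have hd := Nat.dvd_of_mem_primeFactors hp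
  have hle := Nat.le_of_mem_primeFactors hp
  exact Nat.mem_primeFactors.2 ⟨hp', h.dvd p hp' (by rintro rfl; omega) (by omega), h.sqf.ne_zero⟩

lemma exists_good (P : ℕ) : ∃ N, Good P N := by
  refine ⟨∏ p ∈ (range P).filter (fun p => p.Prime ∧ p ≠ 2), p, ?_, ?_, ?_⟩
  · refine Finset.squarefree_prod_of_pairwise_isCoprime (fun p hp q hq hpq => ?_)
      fun p hp => (mem_filter.1 hp).2.1.squarefree
    simp only [← Nat.coprime_iff_isRelPrime]
    exact (Nat.coprime_primes (mem_filter.1 hp).2.1 (mem_filter.1 hq).2.1).mpr hpq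
  · refine Finset.prod_induction _ Odd (fun a b => Odd.mul) odd_one fun p hp => ?_
    exact (mem_filter.1 hp).2.1.odd_of_ne_two (mem_filter.1 hp).2.2
  · intro p hp h2 hlt
    exact Finset.dvd_prod_of_mem _ (mem_filter.2 ⟨mem_range.2 hlt, hp, h2⟩)

lemma gw_pos (σ : ℝ) (a : ℕ) : 0 < gw σ a :=
  prod_pos fun _ _ => by positivity

lemma gw_anti {σ : ℝ} (hσ : 1 ≤ σ) (a : ℕ) : gw σ a ≤ gw 1 a := by
  refine prod_le_prod (fun _ _ => by positivity) fun p hp => ?_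
  have h1 : (1 : ℝ) ≤ p := by exact_mod_cast (Nat.prime_of_mem_primeFactors hp).one_le
  have := Real.rpow_le_rpow_of_exponent_le h1 hσ
  apply one_div_le_one_div_of_le (by positivity)
  linarith

lemma gw_le_wt (σ : ℝ) (a : ℕ) : gw σ a ≤ wt σ a := by
  refine prod_le_prod (fun _ _ => by positivity) fun p hp => ?_
  have h1 : (0 : ℝ) < p := by exact_mod_cast (Nat.prime_of_mem_primeFactors hp).pos
  have h2 : 0 < (p : ℝ) ^ σ := Real.rpow_pos_of_pos h1 _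
  rw [Real.rpow_neg h1.le, div_le_div_iff₀ (by positivity) (by positivity)]
  have : ((p : ℝ) ^ σ)⁻¹ * (2 * (p : ℝ) ^ σ + 1) = 2 + ((p : ℝ) ^ σ)⁻¹ := by field_simp
  have h3 : 0 < ((p : ℝ) ^ σ)⁻¹ := by positivity
  linarith

lemma wt_pos (σ : ℝ) (a : ℕ) : 0 < wt σ a := by
  refine prod_pos fun p hp => ?_
  have h1 : (0 : ℝ) < p := by exact_mod_cast (Nat.prime_of_mem_primeFactors hp).pos
  positivity

lemma wt_le_rpow (σ : ℝ) {a : ℕ} (ha : Squarefree a) : wt σ a ≤ (a : ℝ) ^ (-σ) := by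
  rw [rpow_eq_prod ha]
  refine prod_le_prod (fun _ _ => by positivity) fun p _ => ?_
  have : 0 ≤ (p : ℝ) ^ (-σ) := by positivity
  linarith

lemma gw_le_half {σ : ℝ} (hσ : 1 ≤ σ) {a : ℕ} (ha : Squarefree a) (h1 : 1 < a) :
    gw σ a ≤ 1 / (2 * a) := by
  refine (gw_anti hσ a).trans ((gw_le_wt 1 a).trans ?_)
  obtain ⟨q, hq⟩ := Nat.nonempty_primeFactors.2 h1
  have e : (a : ℝ)⁻¹ = ∏ p ∈ a.primeFactors, (p : ℝ) ^ (-1 : ℝ) := by
    rw [← rpow_eq_prod ha, Real.rpow_neg_one]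
  have e2 : 1 / (2 * (a : ℝ)) = (a : ℝ)⁻¹ / 2 := by field_simp
  rw [e2, e, wt, ← mul_prod_erase _ _ hq, ← mul_prod_erase _ _ hq]
  have h3 : ∏ p ∈ a.primeFactors.erase q, (p : ℝ) ^ (-1 : ℝ) / 2 ≤
      ∏ p ∈ a.primeFactors.erase q, (p : ℝ) ^ (-1 : ℝ) := by
    refine prod_le_prod (fun _ _ => by positivity) fun p _ => ?_
    have : 0 ≤ (p : ℝ) ^ (-1 : ℝ) := by positivity
    linarith
  have h4 : 0 ≤ (q : ℝ) ^ (-1 : ℝ) := by positivity
  nlinarith [mul_le_mul_of_nonneg_left h3 h4]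

lemma gw_mul (σ : ℝ) {a b : ℕ} (h : Nat.Coprime a b) : gw σ (a * b) = gw σ a * gw σ b := by
  simp only [gw]
  rw [h.primeFactors_mul, prod_union h.disjoint_primeFactors]

lemma wt_mul (σ : ℝ) {a b : ℕ} (h : Nat.Coprime a b) : wt σ (a * b) = wt σ a * wt σ b := by
  simp only [wt]
  rw [h.primeFactors_mul, prod_union h.disjoint_primeFactors]

lemma hasSum_of_eq {f g : ℕ → ℝ} {a : ℝ} (h : HasSum f a) (e : ∀ n, g n = f n) :
    HasSum g a := by
  rw [show g = f from funext e]; exact h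

lemma hasSum_rough (Z : Finset ℕ) (hZ : ∀ p ∈ Z, p.Prime) :
    HasSum (fun j : ℕ => if ∀ p ∈ Z, ¬ p ∣ j then 1 / (j : ℝ) ^ 2 else 0)
      (Real.pi ^ 2 / 6 * ∏ p ∈ Z, (1 - 1 / (p : ℝ) ^ 2)) := by
  induction Z using Finset.induction_on with
  | empty => simpa using hasSum_zeta_two
  | insert q Z hq ih =>
    have ih' := ih fun p hp => hZ p (mem_insert_of_mem hp)
    have hqp := hZ q (mem_insert_self _ _)
    have hinj : Function.Injective fun m : ℕ => q * m := mul_right_injective₀ hqp.ne_zero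
    have h2 : HasSum (fun j : ℕ => if q ∣ j then
        (if ∀ p ∈ Z, ¬ p ∣ j then 1 / (j : ℝ) ^ 2 else 0) else 0)
        (1 / (q : ℝ) ^ 2 * (Real.pi ^ 2 / 6 * ∏ p ∈ Z, (1 - 1 / (p : ℝ) ^ 2))) := by
      refine (hinj.hasSum_iff fun n hn => ?_).1 ?_
      · rw [if_neg]
        rintro ⟨m, rfl⟩
        exact hn ⟨m, rfl⟩
      · refine hasSum_of_eq (ih'.mul_left (1 / (q : ℝ) ^ 2)) fun m => ?_
        simp only [Function.comp, dvd_mul_right, if_true]
        have : (∀ p ∈ Z, ¬ p ∣ q * m) ↔ ∀ p ∈ Z, ¬ p ∣ m := by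
          refine forall₂_congr fun p hp => not_congr ?_
          have hpp := hZ p (mem_insert_of_mem hp)
          refine Nat.Coprime.dvd_mul_left ((Nat.coprime_primes hpp hqp).2 ?_)
          rintro rfl
          exact hq hp
        simp only [this]
        split_ifs
        · push_cast; rw [mul_pow, one_div_mul_one_div]
        · simp
    have e : Real.pi ^ 2 / 6 * ∏ p ∈ insert q Z, (1 - 1 / (p : ℝ) ^ 2) =
        Real.pi ^ 2 / 6 * ∏ p ∈ Z, (1 - 1 / (p : ℝ) ^ 2) -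
          1 / (q : ℝ) ^ 2 * (Real.pi ^ 2 / 6 * ∏ p ∈ Z, (1 - 1 / (p : ℝ) ^ 2)) := by
      rw [prod_insert hq]; ring
    rw [e]
    refine hasSum_of_eq (ih'.sub h2) fun j => ?_
    simp only [forall_mem_insert]
    by_cases hj : q ∣ j <;> simp [hj]

/-- The sum of the inverse squares of the odd numbers coprime to a set of odd primes. -/
lemma rough_sum_le (Z : Finset ℕ) (hZ : ∀ p ∈ Z, p.Prime ∧ p ≠ 2) (M : ℕ) :
    ∑ j ∈ (Icc 2 M).filter (fun j => j % 2 = 1 ∧ ∀ p ∈ Z, ¬ p ∣ j), 1 / (j : ℝ) ^ 2 ≤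
      1.23371 * ∏ p ∈ Z, (1 - 1 / (p : ℝ) ^ 2) - 1 := by
  have h2 : 2 ∉ Z := fun h => (hZ 2 h).2 rfl
  have h := hasSum_rough (insert 2 Z) (by
    intro p hp
    rcases mem_insert.1 hp with rfl | hp
    · exact Nat.prime_two
    · exact (hZ p hp).1)
  rw [prod_insert h2] at h
  have hle := sum_le_hasSum (insert 1 (Icc 2 M)) (fun j _ => by split_ifs <;> positivity) h
  rw [sum_insert (by simp), if_pos (by
    intro p hp hd
    rcases mem_insert.1 hp with rfl | hp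
    · omega
    · exact (hZ p hp).1.one_lt.ne' (Nat.dvd_one.1 hd)), ← sum_filter] at hle
  rw [filter_congr (q := fun j => j % 2 = 1 ∧ ∀ p ∈ Z, ¬ p ∣ j) (fun j _ => by
    simp only [forall_mem_insert]
    exact and_congr_left fun _ => by omega)] at hle
  have hP : 0 ≤ ∏ p ∈ Z, (1 - 1 / (p : ℝ) ^ 2) := by
    refine prod_nonneg fun p hp => ?_
    have h1 : (1 : ℝ) ≤ p := by exact_mod_cast (hZ p hp).1.one_le
    have : 1 / (p : ℝ) ^ 2 ≤ 1 := by
      rw [div_le_one (by positivity)]; nlinarith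
    linarith
  have hpi : Real.pi ^ 2 / 6 * (1 - 1 / ((2 : ℕ) : ℝ) ^ 2) ≤ 1.23371 := by
    have := Real.pi_lt_d6
    have := Real.pi_pos
    push_cast
    nlinarith
  have := mul_le_mul_of_nonneg_right hpi hP
  simp only [Nat.cast_one, one_pow, div_one] at hle
  nlinarith

end Pool.Agent.MP_5d10af_nt

end
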