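import Pool.Agent.MP_5d10af_nt.Mg.Euler

/-!
The diagonal quadratic form.
-/

set_option autoImplicit false

namespace Pool.Agent.MP_5d10af_nt

open Finset

/-- Dilation of a sequence. -/
noncomputable def dil (d : ℕ) (b : ℕ → ℝ) (n : ℕ) : ℝ := if d ∣ n then b (n / d) else 0

lemma sum_dil {d : ℕ} (hd : 0 < d) (M : ℕ) (b : ℕ → ℝ) (G : ℕ → ℝ → ℝ) (hG : ∀ n, G n 0 = 0) :
    ∑ n ∈ Icc 1 M, G n (dil d b n) = ∑ m ∈ Icc 1 (M / d), G (d * m) (b m) := by
  symm
  refine Finset.sum_bij_ne_zero (fun m _ _ => d * m) ?_ ?_ ?_ ?_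
  · intro m hm _
    rw [mem_Icc] at hm ⊢
    exact ⟨Nat.mul_pos hd hm.1, by rw [mul_comm]; exact (Nat.le_div_iff_mul_le hd).1 hm.2⟩
  · intro a _ _ a' _ _ h
    exact Nat.eq_of_mul_eq_mul_left hd h
  · intro n hn hne
    have hdn : d ∣ n := by
      by_contra h
      exact hne (by rw [dil, if_neg h, hG])
    obtain ⟨m, rfl⟩ := hdn
    rw [mem_Icc] at hn
    have e : dil d b (d * m) = b m := by
      rw [dil, if_pos (dvd_mul_right d m), Nat.mul_div_cancel_left m hd]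
    refine ⟨m, mem_Icc.2 ⟨Nat.pos_of_mul_pos_left hn.1, (Nat.le_div_iff_mul_le hd).2 ?_⟩,
      e ▸ hne, rfl⟩
    rw [mul_comm]; exact hn.2
  · intro m _ _
    rw [dil, if_pos (dvd_mul_right d m), Nat.mul_div_cancel_left m hd]

lemma Qf_nonneg (M : ℕ) (b : ℕ → ℝ) : 0 ≤ Qf M b := by
  refine sum_nonneg fun n _ => sum_nonneg fun n' _ => ?_
  split_ifs <;> positivity

lemma Qf_mono {M : ℕ} {b b' : ℕ → ℝ} (h : ∀ n ∈ Icc 1 M, |b n| ≤ |b' n|) : Qf M b ≤ Qf M b' := by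
  refine sum_le_sum fun n hn => sum_le_sum fun n' hn' => ?_
  split_ifs
  · exact mul_le_mul (h n hn) (h n' hn') (abs_nonneg _) (abs_nonneg _)
  · exact le_rfl

lemma Qf_smul (M : ℕ) (c : ℝ) (b : ℕ → ℝ) : Qf M (fun n => c * b n) = c ^ 2 * Qf M b := by
  simp only [Qf, mul_sum]
  refine sum_congr rfl fun n _ => sum_congr rfl fun n' _ => ?_
  split_ifs
  · rw [abs_mul, abs_mul, ← sq_abs c]; ring
  · simp

lemma isSquare_sq_mul {d m : ℕ} (hd : d ≠ 0) : IsSquare (d ^ 2 * m) ↔ IsSquare m := by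
  constructor
  · rintro ⟨k, hk⟩
    have h1 : d ^ 2 ∣ k ^ 2 := ⟨m, by rw [hk, pow_two k]⟩
    obtain ⟨l, rfl⟩ := (Nat.pow_dvd_pow_iff two_ne_zero).1 h1
    refine ⟨l, Nat.eq_of_mul_eq_mul_left (pow_pos (Nat.pos_of_ne_zero hd) 2) ?_⟩
    rw [hk]; ring
  · rintro ⟨k, rfl⟩
    exact ⟨d * k, by ring⟩

lemma sqfree_eq {r r' : ℕ} (h : Squarefree r) (h' : Squarefree r') (hs : IsSquare (r * r')) :
    r = r' := by
  obtain ⟨k, hk⟩ := hs
  have h1 : r ∣ k ^ 2 := ⟨r', by rw [pow_two, hk]⟩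
  obtain ⟨m, rfl⟩ := (h.dvd_pow_iff_dvd two_ne_zero).1 h1
  have h2 : r' = r * (m * m) :=
    Nat.eq_of_mul_eq_mul_left (Nat.pos_of_ne_zero h.ne_zero) (by rw [hk]; ring)
  have h3 : IsUnit m := h' m ⟨r, by rw [h2]; ring⟩
  rw [h2, Nat.isUnit_iff.1 h3]; ring

/-- The squarefree part. -/
noncomputable def sqp (n : ℕ) : ℕ := (Nat.sq_mul_squarefree n).choose

lemma sqp_spec (n : ℕ) : Squarefree (sqp n) ∧ ∃ j, sqp n * j ^ 2 = n := by
  obtain ⟨j, h1, h2⟩ := (Nat.sq_mul_squarefree n).choose_spec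
  exact ⟨h2, j, by rw [mul_comm]; exact h1⟩

lemma isSquare_iff_sqp {n n' : ℕ} (hn : n ≠ 0) (hn' : n' ≠ 0) :
    IsSquare (n * n') ↔ sqp n = sqp n' := by
  obtain ⟨h1, j, hj⟩ := sqp_spec n
  obtain ⟨h2, j', hj'⟩ := sqp_spec n'
  have j0 : j * j' ≠ 0 := by
    refine mul_ne_zero ?_ ?_
    · rintro rfl; exact hn (by rw [← hj]; simp)
    · rintro rfl; exact hn' (by rw [← hj']; simp)
  have e : n * n' = (j * j') ^ 2 * (sqp n * sqp n') := by
    calc n * n' = (sqp n * j ^ 2) * (sqp n' * j' ^ 2) := by rw [hj, hj']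
      _ = _ := by ring
  rw [e, isSquare_sq_mul j0]
  exact ⟨sqfree_eq h1 h2, fun h => ⟨sqp n, by rw [← h]⟩⟩

lemma sqp_mul_sq {r j : ℕ} (hr : Squarefree r) (hj : j ≠ 0) : sqp (r * j ^ 2) = r := by
  obtain ⟨h1, k, hk⟩ := sqp_spec (r * j ^ 2)
  have k0 : k ≠ 0 := by
    rintro rfl
    exact mul_ne_zero hr.ne_zero (pow_ne_zero 2 hj) (by rw [← hk]; simp)
  refine sqfree_eq h1 hr ((isSquare_sq_mul k0).1 ⟨r * j, ?_⟩)
  calc k ^ 2 * (sqp (r * j ^ 2) * r) = (sqp (r * j ^ 2) * k ^ 2) * r := by ring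
    _ = _ := by rw [hk]; ring

lemma Qf_eq (M : ℕ) (b : ℕ → ℝ) :
    Qf M b = ∑ r ∈ (Icc 1 M).filter Squarefree,
      (∑ j ∈ (Icc 1 M).filter (fun j => r * j ^ 2 ≤ M), |b (r * j ^ 2)|) ^ 2 := by
  have hmap : ∀ n ∈ Icc 1 M, sqp n ∈ (Icc 1 M).filter Squarefree := by
    intro n hn
    obtain ⟨h1, j, hj⟩ := sqp_spec n
    rw [mem_Icc] at hn
    refine mem_filter.2 ⟨mem_Icc.2 ⟨Nat.pos_of_ne_zero h1.ne_zero, le_trans ?_ hn.2⟩, h1⟩
    exact Nat.le_of_dvd hn.1 ⟨j ^ 2, hj.symm⟩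
  have hfib : ∀ r ∈ (Icc 1 M).filter Squarefree,
      ∑ j ∈ (Icc 1 M).filter (fun j => r * j ^ 2 ≤ M), |b (r * j ^ 2)| =
        ∑ n ∈ (Icc 1 M).filter (fun n => sqp n = r), |b n| := by
    intro r hr
    rw [mem_filter, mem_Icc] at hr
    refine sum_bij (fun j _ => r * j ^ 2) ?_ ?_ ?_ (fun _ _ => rfl)
    · intro j hj
      rw [mem_filter, mem_Icc] at hj ⊢
      exact ⟨⟨Nat.mul_pos hr.1.1 (pow_pos hj.1.1 2), hj.2⟩, sqp_mul_sq hr.2 (by omega)⟩
    · intro j _ j' _ h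
      exact Nat.pow_left_injective two_ne_zero (Nat.eq_of_mul_eq_mul_left hr.1.1 h)
    · intro n hn
      rw [mem_filter, mem_Icc] at hn
      obtain ⟨-, j, hj⟩ := sqp_spec n
      rw [hn.2] at hj
      have j0 : j ≠ 0 := by
        rintro rfl
        have := hn.1.1
        rw [← hj] at this; simp at this
      refine ⟨j, mem_filter.2 ⟨mem_Icc.2 ⟨Nat.pos_of_ne_zero j0, ?_⟩, hj ▸ hn.1.2⟩, hj⟩
      have := hr.1.1
      have := hn.1.2
      nlinarith [Nat.pos_of_ne_zero j0]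
  rw [sum_congr rfl fun r hr => by rw [hfib r hr], Qf, ← sum_fiberwise_of_maps_to hmap]
  refine sum_congr rfl fun r _ => ?_
  rw [sq, sum_mul]
  refine sum_congr rfl fun n hn => ?_
  rw [mul_sum, sum_filter]
  refine sum_congr rfl fun n' hn' => ?_
  rw [mem_filter, mem_Icc] at hn
  rw [mem_Icc] at hn'
  simp only [isSquare_iff_sqp (show n ≠ 0 by omega) (show n' ≠ 0 by omega), hn.2, eq_comm]

lemma minkowski {ι : Type} (T : Finset ι) (x y : ι → ℝ) :
    √(∑ i ∈ T, (x i + y i) ^ 2) ≤ √(∑ i ∈ T, x i ^ 2) + √(∑ i ∈ T, y i ^ 2) := by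
  have hx : 0 ≤ ∑ i ∈ T, x i ^ 2 := sum_nonneg fun _ _ => sq_nonneg _
  have hy : 0 ≤ ∑ i ∈ T, y i ^ 2 := sum_nonneg fun _ _ => sq_nonneg _
  rw [Real.sqrt_le_left (by positivity), add_sq, Real.sq_sqrt hx, Real.sq_sqrt hy]
  have := Real.sum_mul_le_sqrt_mul_sqrt T x y
  have e : ∑ i ∈ T, (x i + y i) ^ 2 =
      ∑ i ∈ T, x i ^ 2 + 2 * ∑ i ∈ T, x i * y i + ∑ i ∈ T, y i ^ 2 := by
    rw [mul_sum, ← sum_add_distrib, ← sum_add_distrib]
    exact sum_congr rfl fun _ _ => by ring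
  rw [e]; linarith

lemma sqrt_Qf_add (M : ℕ) (b b' : ℕ → ℝ) :
    √(Qf M fun n => b n + b' n) ≤ √(Qf M b) + √(Qf M b') := by
  rw [Qf_eq, Qf_eq, Qf_eq]
  refine le_trans (Real.sqrt_le_sqrt (sum_le_sum fun r _ => ?_)) (minkowski _ _ _)
  refine pow_le_pow_left₀ (sum_nonneg fun _ _ => abs_nonneg _) ?_ 2
  rw [← sum_add_distrib]
  exact sum_le_sum fun _ _ => abs_add_le _ _

lemma Qf_mono_left {M M' : ℕ} (h : M ≤ M') (b : ℕ → ℝ) : Qf M b ≤ Qf M' b := by
  have hs : Icc 1 M ⊆ Icc 1 M' := Icc_subset_Icc_right h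
  refine le_trans (sum_le_sum fun n _ => sum_le_sum_of_subset_of_nonneg hs fun _ _ _ => ?_)
    (sum_le_sum_of_subset_of_nonneg hs fun _ _ _ => sum_nonneg fun _ _ => ?_)
  · split_ifs <;> positivity
  · split_ifs <;> positivity

lemma Qf_dil {d : ℕ} (hd : 0 < d) (M : ℕ) (b : ℕ → ℝ) : Qf M (dil d b) ≤ Qf M b := by
  refine le_trans (le_of_eq ?_) (Qf_mono_left (Nat.div_le_self M d) b)
  rw [Qf, sum_dil hd M b (fun n x => ∑ n' ∈ Icc 1 M,
    if IsSquare (n * n') then |x| * |dil d b n'| else 0) (by simp)]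
  refine sum_congr rfl fun m _ => ?_
  rw [sum_dil hd M b (fun n' x => if IsSquare (d * m * n') then |b m| * |x| else 0) (by simp)]
  refine sum_congr rfl fun m' _ => ?_
  have : d * m * (d * m') = d ^ 2 * (m * m') := by ring
  simp only [this, isSquare_sq_mul hd.ne']

lemma not_isSquare_mul {p n m : ℕ} (hp : p.Prime) (hn : ¬ p ∣ n) (hm : ¬ p ∣ m) :
    ¬ IsSquare (n * (p * m)) := by
  rintro ⟨k, hk⟩
  have h1 : p ∣ k * k := ⟨n * m, by rw [← hk]; ring⟩
  obtain ⟨l, rfl⟩ : p ∣ k := ((Nat.Prime.dvd_mul hp).1 h1).elim id id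
  have h2 : n * m = p * (l * l) :=
    Nat.eq_of_mul_eq_mul_left hp.pos (by rw [← mul_assoc p n m, mul_comm p n, mul_assoc, hk]; ring)
  exact ((Nat.Prime.dvd_mul hp).1 ⟨_, h2⟩).elim hn hm

lemma Qf_add_dil {p : ℕ} (hp : p.Prime) (M : ℕ) (c : ℝ) {b : ℕ → ℝ} (hb : ∀ n, p ∣ n → b n = 0) :
    Qf M (fun n => b n + c * dil p b n) ≤ (1 + c ^ 2) * Qf M b := by
  have h1 : Qf M (fun n => b n + c * dil p b n) ≤ Qf M b + Qf M (fun n => c * dil p b n) := by
    simp only [Qf, ← sum_add_distrib]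
    refine sum_le_sum fun n _ => sum_le_sum fun n' _ => ?_
    have key : ∀ n n', ¬ p ∣ n → p ∣ n' → IsSquare (n * n') → dil p b n' = 0 := by
      rintro n _ hn ⟨m, rfl⟩ hs
      rw [dil, if_pos (dvd_mul_right p m), Nat.mul_div_cancel_left m hp.pos]
      exact hb m (by_contra fun hm => not_isSquare_mul hp hn hm hs)
    split_ifs with hs
    · by_cases h : p ∣ n <;> by_cases h' : p ∣ n'
      · simp [hb n h, hb n' h']
      · simp [hb n h, key n' n h' h (mul_comm n n' ▸ hs)]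
      · simp [hb n' h', key n n' h h' hs]
      · simp [dil, h, h']
    · simp
  rw [Qf_smul] at h1
  have h2 := mul_le_mul_of_nonneg_left (Qf_dil hp.pos M b) (sq_nonneg c)
  linarith

lemma Qf_sqfree (M : ℕ) {b : ℕ → ℝ} (hb : ∀ n, ¬ Squarefree n → b n = 0) :
    Qf M b = ∑ n ∈ Icc 1 M, b n ^ 2 := by
  refine sum_congr rfl fun n hn => ?_
  rw [sum_eq_single_of_mem n hn]
  · rw [if_pos ⟨n, rfl⟩, abs_mul_abs_self, sq]
  · intro n' _ hne
    split_ifs with hs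
    · by_cases h : Squarefree n
      · by_cases h' : Squarefree n'
        · exact absurd (sqfree_eq h h' hs).symm hne
        · simp [hb n' h']
      · simp [hb n h]
    · rfl

lemma Qf_fibre (M : ℕ) (b : ℕ → ℝ) :
    Qf M b ≤ ∑ r ∈ (Icc 1 M).filter Squarefree,
      (∑ j ∈ (Icc 1 M).filter (fun j => r * j ^ 2 ≤ M), |b (r * j ^ 2)|) ^ 2 :=
  (Qf_eq M b).le

lemma sum_three_half (M : ℕ) : ∑ j ∈ Icc 1 M, (j : ℝ) ^ (-(3 / 2) : ℝ) ≤ 3 := by
  rcases Nat.eq_zero_or_pos M with rfl | hM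
  · simp
  have h := sum_rpow_tail (κ := 3 / 2) (by norm_num) le_rfl M
  rw [← Ioc_insert_left hM, sum_insert (by simp)]
  norm_num at h ⊢
  linarith

lemma fib_mem {M r j : ℕ} (hr : r ∈ (Icc 1 M).filter Squarefree)
    (hj : j ∈ (Icc 1 M).filter (fun j => r * j ^ 2 ≤ M)) : r * j ^ 2 ∈ Icc 1 M := by
  rw [mem_filter, mem_Icc] at hr hj
  exact mem_Icc.2 ⟨Nat.mul_pos hr.1.1 (pow_pos hj.1.1 2), hj.2⟩

lemma Qf_pow (M : ℕ) {b : ℕ → ℝ} {c : ℝ}
    (hb : ∀ n ∈ Icc 1 M, |b n| ≤ c * (n : ℝ) ^ (-(3 / 4) : ℝ)) : Qf M b ≤ 27 * c ^ 2 := by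
  rcases Nat.eq_zero_or_pos M with rfl | hM
  · simp only [Qf]; simp; positivity
  have hc : 0 ≤ c := by
    have := hb 1 (mem_Icc.2 ⟨le_rfl, hM⟩)
    simp only [Nat.cast_one, Real.one_rpow, mul_one] at this
    exact (abs_nonneg _).trans this
  have h1 : ∀ r ∈ (Icc 1 M).filter Squarefree,
      (∑ j ∈ (Icc 1 M).filter (fun j => r * j ^ 2 ≤ M), |b (r * j ^ 2)|) ^ 2 ≤
        9 * c ^ 2 * (r : ℝ) ^ (-(3 / 2) : ℝ) := by
    intro r hr
    have e1 : ∑ j ∈ (Icc 1 M).filter (fun j => r * j ^ 2 ≤ M), |b (r * j ^ 2)| ≤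
        c * (r : ℝ) ^ (-(3 / 4) : ℝ) * 3 := by
      refine le_trans ?_ (mul_le_mul_of_nonneg_left (sum_three_half M) (by positivity))
      rw [mul_sum]
      refine le_trans (sum_le_sum fun j hj => ?_)
        (sum_le_sum_of_subset_of_nonneg (filter_subset _ _) fun _ _ _ => by positivity)
      refine (hb _ (fib_mem hr hj)).trans (le_of_eq ?_)
      push_cast
      rw [Real.mul_rpow (by positivity) (by positivity), ← Real.rpow_natCast,
        ← Real.rpow_mul (by positivity), mul_assoc]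
      norm_num
    refine (pow_le_pow_left₀ (sum_nonneg fun _ _ => abs_nonneg _) e1 2).trans (le_of_eq ?_)
    rw [mul_pow, mul_pow, ← Real.rpow_natCast ((r : ℝ) ^ (-(3 / 4) : ℝ)),
      ← Real.rpow_mul (by positivity)]
    norm_num; ring
  refine (Qf_fibre M b).trans ((sum_le_sum h1).trans ?_)
  rw [← mul_sum]
  have h2 := (sum_le_sum_of_subset_of_nonneg (filter_subset Squarefree (Icc 1 M))
    (f := fun r : ℕ => (r : ℝ) ^ (-(3 / 2) : ℝ)) fun _ _ _ => by positivity).trans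
    (sum_three_half M)
  nlinarith [sq_nonneg c]

lemma sum_odd_le (M : ℕ) (T : Finset ℕ) (hT : ∀ j ∈ T, j % 2 = 1 ∧ j ≤ M) (g : ℕ → ℝ)
    (hg : ∀ j, 0 ≤ g j) : ∑ j ∈ T, g j ≤ ∑ i ∈ range M, g (2 * i + 1) := by
  rw [← sum_image (s := range M) (g := fun i => 2 * i + 1) (f := g)
    (fun a _ b _ h => by simpa using h)]
  refine sum_le_sum_of_subset_of_nonneg (fun j hj => ?_) fun _ _ _ => hg _
  obtain ⟨h1, h2⟩ := hT j hj
  exact mem_image.2 ⟨j / 2, mem_range.2 (by omega), by omega⟩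

lemma fib_odd {M r : ℕ} {b : ℕ → ℝ} (h0 : ∀ n, n % 2 = 0 → b n = 0) :
    ∑ j ∈ (Icc 1 M).filter (fun j => r * j ^ 2 ≤ M), |b (r * j ^ 2)| =
      ∑ j ∈ ((Icc 1 M).filter (fun j => r * j ^ 2 ≤ M)).filter (fun j => j % 2 = 1),
        |b (r * j ^ 2)| := by
  symm
  refine sum_filter_of_ne fun j _ h => ?_
  by_contra hj
  apply h
  rw [h0, abs_zero]
  obtain ⟨k, rfl⟩ : ∃ k, j = 2 * k := ⟨j / 2, by omega⟩
  have : r * (2 * k) ^ 2 = 2 * (r * 2 * k ^ 2) := by ring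
  omega

lemma tele_odd {q r : ℝ} (hq : 0 < q) (hr : 0 < r) (M : ℕ) :
    ∑ i ∈ range M, 4 * r / (q + r * ((2 * i + 1 : ℕ) : ℝ)) ^ 2 ≤ 2 / q := by
  have h : ∑ i ∈ range M, 4 * r / (q + r * ((2 * i + 1 : ℕ) : ℝ)) ^ 2 ≤
      2 / q - 2 / (q + r * (2 * M)) := by
    induction M with
    | zero => simp
    | succ M ih =>
      rw [sum_range_succ]
      have e : 4 * r / (q + r * ((2 * M + 1 : ℕ) : ℝ)) ^ 2 ≤
          2 / (q + r * (2 * M)) - 2 / (q + r * (2 * ((M + 1 : ℕ) : ℝ))) := by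
        push_cast
        have a0 : 0 < q + r * (2 * M) := by positivity
        have a1 : 0 < q + r * (2 * (M + 1)) := by positivity
        rw [div_sub_div _ _ a0.ne' a1.ne', div_le_div_iff₀ (by positivity) (by positivity)]
        have : (2 * (q + r * (2 * (M + 1))) - (q + r * (2 * M)) * 2) = 4 * r := by ring
        rw [this]
        refine mul_le_mul_of_nonneg_left ?_ (by positivity)
        nlinarith [sq_nonneg r]
      linarith
  have : 0 ≤ 2 / (q + r * (2 * M)) := by positivity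
  linarith

lemma Qf_min (M : ℕ) {b : ℕ → ℝ} {m0 : ℝ} (hm0 : 80 ≤ m0) (h0 : ∀ n, n % 2 = 0 → b n = 0)
    (h1 : ∀ n ∈ Icc 1 M, |b n| ≤ 1 / n) (h2 : ∀ n ∈ Icc 1 M, |b n| ≤ 1 / m0) :
    Qf M b ≤ (4.8 + 2 * Real.log m0) / m0 := by
  have hm : 0 < m0 := by linarith
  set R := (Icc 1 M).filter Squarefree with hR
  set F : ℕ → ℝ := fun r => ∑ j ∈ (Icc 1 M).filter (fun j => r * j ^ 2 ≤ M), |b (r * j ^ 2)|
    with hF
  have F0 : ∀ r, 0 ≤ F r := fun r => sum_nonneg fun _ _ => abs_nonneg _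
  have Fe : ∀ r, r % 2 = 0 → F r = 0 := by
    intro r hr
    refine sum_eq_zero fun j _ => ?_
    rw [h0, abs_zero]
    obtain ⟨k, rfl⟩ : ∃ k, r = 2 * k := ⟨r / 2, by omega⟩
    rw [mul_assoc]; omega
  have Fa : ∀ r ∈ R, F r ^ 2 ≤ 4 / m0 * (1 / r) := by
    intro r hr
    have hr0 : (0 : ℝ) < r := by
      have := (mem_Icc.1 (mem_filter.1 hr).1).1
      exact_mod_cast this
    set q := √(r * m0) with hq
    have q0 : 0 < q := Real.sqrt_pos.2 (by positivity)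
    have q2 : q ^ 2 = r * m0 := Real.sq_sqrt (by positivity)
    have e : F r ≤ 2 / q := by
      refine le_trans ?_ (tele_odd q0 hr0 M)
      refine le_trans ?_ (sum_odd_le M (((Icc 1 M).filter (fun j => r * j ^ 2 ≤ M)).filter
        (fun j => j % 2 = 1)) (fun j hj => ?_) (fun j => 4 * r / (q + r * (j : ℝ)) ^ 2)
        fun j => by positivity)
      · rw [hF]
        simp only
        rw [fib_odd h0]
        refine sum_le_sum fun j hj => ?_
        have hj' := (mem_filter.1 hj).1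
        have j0 : (0 : ℝ) < j := by
          have := (mem_Icc.1 (mem_filter.1 hj').1).1
          exact_mod_cast this
        rcases le_total (r * j : ℝ) q with h | h
        · refine (h2 _ (fib_mem hr hj')).trans ?_
          rw [div_le_div_iff₀ hm (by positivity)]
          have : 0 < (r : ℝ) * j := by positivity
          nlinarith
        · refine (h1 _ (fib_mem hr hj')).trans ?_
          push_cast
          rw [div_le_div_iff₀ (by positivity) (by positivity)]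
          nlinarith
      · exact ⟨(mem_filter.1 hj).2, (mem_Icc.1 (mem_filter.1 (mem_filter.1 hj).1).1).2⟩
    refine (pow_le_pow_left₀ (F0 r) e 2).trans (le_of_eq ?_)
    rw [div_pow, q2]; field_simp; norm_num
  have Fb : ∀ r ∈ R, F r ^ 2 ≤ 1.5625 * (1 / (r : ℝ) ^ 2) := by
    intro r hr
    have hr0 : (0 : ℝ) < r := by
      have := (mem_Icc.1 (mem_filter.1 hr).1).1
      exact_mod_cast this
    have e : F r ≤ 1 / r * 1.25 := by
      rw [hF]
      simp only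
      rw [fib_odd h0]
      set T := ((Icc 1 M).filter (fun j => r * j ^ 2 ≤ M)).filter (fun j => j % 2 = 1) with hT
      have e1 : ∑ j ∈ T, 1 / (j : ℝ) ^ 2 ≤ 1.25 := by
        have e2 := sum_odd_inv_sq (z := 2) (by norm_num) (T.erase 1) fun n hn => by
          have a1 := (mem_erase.1 hn).1
          have a2 := (mem_filter.1 (mem_erase.1 hn).2).2
          omega
        by_cases h : 1 ∈ T
        · rw [← add_sum_erase T _ h]
          norm_num at e2 ⊢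
          linarith
        · rw [erase_eq_of_notMem h] at e2
          norm_num at e2 ⊢
          linarith
      refine le_trans ?_ (mul_le_mul_of_nonneg_left e1 (by positivity))
      rw [mul_sum]
      refine sum_le_sum fun j hj => ?_
      refine (h1 _ (fib_mem hr (mem_filter.1 hj).1)).trans (le_of_eq ?_)
      push_cast
      rw [one_div_mul_one_div]
    refine (pow_le_pow_left₀ (F0 r) e 2).trans (le_of_eq ?_)
    field_simp; norm_num
  have hodd : ∑ r ∈ R, F r ^ 2 = ∑ r ∈ R.filter (fun r => r % 2 = 1), F r ^ 2 := by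
    symm
    refine sum_filter_of_ne fun r _ h => ?_
    by_contra hr
    exact h (by rw [Fe r (by omega)]; simp)
  have hlog : 0 ≤ Real.log m0 := Real.log_nonneg (by linarith)
  have s1 : ∑ r ∈ (R.filter (fun r => r % 2 = 1)).filter (fun r : ℕ => (r : ℝ) ≤ m0), F r ^ 2 ≤
      4 / m0 * (1 + Real.log m0 / 2) := by
    set T := (R.filter (fun r => r % 2 = 1)).filter (fun r : ℕ => (r : ℝ) ≤ m0) with hT
    refine (sum_le_sum fun r hr => Fa r (mem_filter.1 (mem_filter.1 hr).1).1).trans ?_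
    rw [← mul_sum]
    refine mul_le_mul_of_nonneg_left ?_ (by positivity)
    have e2 := sum_odd_inv (Y := m0) (by linarith) (T.erase 1) fun n hn => by
      have a1 := (mem_erase.1 hn).1
      have a2 := (mem_filter.1 (mem_filter.1 (mem_erase.1 hn).2).1).2
      exact ⟨a2, by omega, (mem_filter.1 (mem_erase.1 hn).2).2⟩
    by_cases h : 1 ∈ T
    · rw [← add_sum_erase T _ h]
      norm_num at e2 ⊢
      linarith
    · rw [erase_eq_of_notMem h] at e2
      linarith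
  have s2 : ∑ r ∈ (R.filter (fun r => r % 2 = 1)).filter (fun r : ℕ => ¬ (r : ℝ) ≤ m0), F r ^ 2 ≤
      0.8 / m0 := by
    set T := (R.filter (fun r => r % 2 = 1)).filter (fun r : ℕ => ¬ (r : ℝ) ≤ m0) with hT
    refine (sum_le_sum fun r hr => Fb r (mem_filter.1 (mem_filter.1 hr).1).1).trans ?_
    rw [← mul_sum]
    have z1 : 80 ≤ ⌊m0⌋₊ := Nat.le_floor (by exact_mod_cast hm0)
    have e2 := sum_odd_inv_sq (z := ⌊m0⌋₊) (by omega) T fun n hn =>
      ⟨(mem_filter.1 (mem_filter.1 hn).1).2,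
        (Nat.floor_lt hm.le).2 (not_le.1 (mem_filter.1 hn).2)⟩
    have z2 : m0 < ⌊m0⌋₊ + 1 := Nat.lt_floor_add_one m0
    have z3 : (80 : ℝ) ≤ ⌊m0⌋₊ := by exact_mod_cast z1
    refine (mul_le_mul_of_nonneg_left e2 (by norm_num)).trans ?_
    rw [mul_one_div, div_le_div_iff₀ (by positivity) hm]
    linarith
  refine (Qf_fibre M b).trans ?_
  change ∑ r ∈ R, F r ^ 2 ≤ _
  rw [hodd, ← sum_filter_add_sum_filter_not _ (fun r : ℕ => (r : ℝ) ≤ m0)]
  refine (add_le_add s1 s2).trans (le_of_eq ?_)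
  field_simp; ring

lemma Qf_rough (M : ℕ) (Z : Finset ℕ) {u : ℕ → ℝ} {S : ℝ} (hS0 : 0 ≤ S)
    (hS : ∑ j ∈ (Icc 2 M).filter (fun j => j % 2 = 1 ∧ ∀ p ∈ Z, ¬ p ∣ j), 1 / (j : ℝ) ^ 2 ≤ S)
    (hZ : ∀ p ∈ Z, p.Prime)
    (h0 : ∀ n ∈ Icc 1 M, n = 1 ∨ n % 2 = 0 ∨ (∃ p ∈ Z, p ∣ n) → u n = 0)
    (h1 : ∀ n ∈ Icc 1 M, |u n| ≤ 1 / (2 * n))
    (h2 : ∀ n ∈ Icc 1 M, n.Prime → |u n| ≤ 1 / (4 * (n : ℝ) ^ 2)) :
    Qf M u ≤ S ^ 2 * (1 / 4 + (√S / 2 + 0.56) ^ 2) := by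
  set W := (Icc 2 M).filter (fun j => j % 2 = 1 ∧ ∀ p ∈ Z, ¬ p ∣ j) with hW
  set R := (Icc 1 M).filter Squarefree with hR
  set F : ℕ → ℝ := fun r => ∑ j ∈ (Icc 1 M).filter (fun j => r * j ^ 2 ≤ M), |u (r * j ^ 2)|
    with hF
  have F0 : ∀ r, 0 ≤ F r := fun r => sum_nonneg fun _ _ => abs_nonneg _
  have hdiv : ∀ n ∈ Icc 1 M, u n ≠ 0 → ∀ d, d ∣ n → d ≠ 1 → d ∈ W := by
    intro n hn hu d hd hd1
    have a := mt (h0 n hn) hu
    push Not at a
    rw [mem_Icc] at hn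
    have d0 : d ≠ 0 := by rintro rfl; rw [zero_dvd_iff] at hd; omega
    refine mem_filter.2 ⟨mem_Icc.2 ⟨by omega, (Nat.le_of_dvd hn.1 hd).trans hn.2⟩, ?_,
      fun p hp h => a.2.2 p hp (h.trans hd)⟩
    by_contra h
    exact a.2.1 (Nat.mod_eq_zero_of_dvd ((Nat.dvd_of_mod_eq_zero (by omega : d % 2 = 0)).trans hd))
  have Fa : ∀ r ∈ R, F r ≤ |u r| + S / 2 * (1 / r) := by
    intro r hr
    have hr1 := mem_Icc.1 (mem_filter.1 hr).1
    have hr0 : (0 : ℝ) < r := by exact_mod_cast hr1.1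
    set T := (Icc 1 M).filter (fun j => r * j ^ 2 ≤ M) with hT
    have h1T : 1 ∈ T := mem_filter.2 ⟨mem_Icc.2 ⟨le_rfl, hr1.1.trans hr1.2⟩, by simpa using hr1.2⟩
    rw [hF]
    simp only
    rw [← add_sum_erase T _ h1T, one_pow, mul_one, add_le_add_iff_left]
    have e1 : ∑ j ∈ T.erase 1, |u (r * j ^ 2)| =
        ∑ j ∈ (T.erase 1).filter (fun j => j ∈ W), |u (r * j ^ 2)| := by
      symm
      refine sum_filter_of_ne fun j hj h => ?_
      exact hdiv _ (fib_mem hr (mem_erase.1 hj).2) (abs_ne_zero.1 h) j ⟨r * j, by ring⟩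
        (mem_erase.1 hj).1
    rw [e1]
    have e2 : ∑ j ∈ W, 1 / (2 * r) * (1 / (j : ℝ) ^ 2) ≤ S / 2 * (1 / r) := by
      rw [← mul_sum]
      refine (mul_le_mul_of_nonneg_left hS (by positivity)).trans (le_of_eq ?_)
      field_simp
    refine le_trans (le_trans (sum_le_sum fun j hj => ?_)
      (sum_le_sum_of_subset_of_nonneg (fun j hj => (mem_filter.1 hj).2) fun _ _ _ => ?_)) e2
    · refine (h1 _ (fib_mem hr (mem_erase.1 (mem_filter.1 hj).1).2)).trans (le_of_eq ?_)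
      push_cast
      rw [one_div_mul_one_div, mul_assoc]
    · positivity
  have Fz : ∀ r ∈ R, r ≠ 1 → F r ^ 2 ≠ 0 → r ∈ W := by
    intro r hr hr1 h
    obtain ⟨j, hj, hu⟩ := exists_ne_zero_of_sum_ne_zero (show F r ≠ 0 from fun e => h (by simp [e]))
    exact hdiv _ (fib_mem hr hj) (abs_ne_zero.1 hu) r (dvd_mul_right _ _) hr1
  have WI : ∀ r ∈ W, r ∈ Icc 1 M := fun r hr => by
    have := mem_Icc.1 (mem_filter.1 hr).1
    exact mem_Icc.2 ⟨by omega, this.2⟩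
  have s1 : ∑ r ∈ R.filter (fun r => r = 1), F r ^ 2 ≤ S ^ 2 / 4 := by
    by_cases h : 1 ∈ R
    · rw [filter_eq' R 1, if_pos h, sum_singleton]
      have := Fa 1 h
      rw [h0 1 (mem_filter.1 h).1 (Or.inl rfl)] at this
      have e : F 1 ≤ S / 2 := by simpa using this
      nlinarith [F0 1]
    · rw [filter_eq' R 1, if_neg h, sum_empty]; positivity
  have su : ∑ r ∈ W, |u r| ^ 2 ≤ (0.56 * S) ^ 2 := by
    have a1 : ∑ r ∈ W.filter Nat.Prime, |u r| ^ 2 ≤ S ^ 2 / 16 := by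
      have e2 : ∑ r ∈ W, S / 16 * (1 / (r : ℝ) ^ 2) ≤ S ^ 2 / 16 := by
        rw [← mul_sum]
        refine (mul_le_mul_of_nonneg_left hS (by positivity)).trans (le_of_eq ?_)
        ring
      refine le_trans (le_trans (sum_le_sum fun r hr => ?_)
        (sum_le_sum_of_subset_of_nonneg (filter_subset _ _) fun _ _ _ => by positivity)) e2
      have hr' := mem_filter.1 hr
      have e3 : 1 / (r : ℝ) ^ 2 ≤ S :=
        (single_le_sum (f := fun j : ℕ => 1 / (j : ℝ) ^ 2) (fun _ _ => by positivity)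
          hr'.1).trans hS
      have e4 := pow_le_pow_left₀ (abs_nonneg _) (h2 r (WI r hr'.1) hr'.2) 2
      refine e4.trans ?_
      have e5 : (1 / (4 * (r : ℝ) ^ 2)) ^ 2 = 1 / (r : ℝ) ^ 2 / 16 * (1 / (r : ℝ) ^ 2) := by
        ring
      rw [e5]
      exact mul_le_mul_of_nonneg_right (by linarith) (by positivity)
    have a2 : ∑ r ∈ W.filter (fun r => ¬ r.Prime), |u r| ^ 2 ≤ S ^ 2 / 4 := by
      have e1 : ∑ r ∈ W.filter (fun r => ¬ r.Prime), |u r| ^ 2 =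
          ∑ r ∈ (W.filter (fun r => ¬ r.Prime)).filter (fun r => u r ≠ 0), |u r| ^ 2 := by
        symm
        exact sum_filter_of_ne fun r _ h e => h (by simp [e])
      have e2 : ∑ p ∈ W ×ˢ W, 1 / 4 * (1 / ((p.1 * p.2 : ℕ) : ℝ) ^ 2) ≤ S ^ 2 / 4 := by
        rw [← mul_sum, sum_product]
        have : ∑ a ∈ W, ∑ c ∈ W, 1 / ((a * c : ℕ) : ℝ) ^ 2 = (∑ j ∈ W, 1 / (j : ℝ) ^ 2) ^ 2 := by
          rw [sq, sum_mul_sum]
          refine sum_congr rfl fun a _ => sum_congr rfl fun c _ => ?_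
          push_cast
          rw [one_div_mul_one_div, mul_pow]
        simp only
        rw [this]
        have := pow_le_pow_left₀ (sum_nonneg fun _ _ => by positivity) hS 2
        linarith
      rw [e1]
      refine le_trans ?_ e2
      refine le_trans (sum_le_sum (g := fun r : ℕ => 1 / 4 * (1 / (r : ℝ) ^ 2)) fun r hr => ?_) ?_
      · refine (pow_le_pow_left₀ (abs_nonneg _)
          (h1 r (WI r (mem_filter.1 (mem_filter.1 hr).1).1)) 2).trans (le_of_eq ?_)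
        ring
      · refine le_trans (sum_le_sum_of_subset_of_nonneg (t := (W ×ˢ W).image fun p => p.1 * p.2)
          (fun r hr => ?_) fun _ _ _ => by positivity) 
          (sum_image_le_of_nonneg (s := W ×ˢ W) (g := fun p => p.1 * p.2)
            (f := fun r : ℕ => 1 / 4 * (1 / (r : ℝ) ^ 2)) ?_)
        · have b1 := mem_filter.1 hr
          have b2 := mem_filter.1 b1.1
          have b3 := mem_Icc.1 (mem_filter.1 b2.1).1
          have b4 : r.minFac * (r / r.minFac) = r := Nat.mul_div_cancel' (Nat.minFac_dvd r)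
          have b5 : r.minFac.Prime := Nat.minFac_prime (by omega)
          refine mem_image.2 ⟨(r.minFac, r / r.minFac), mem_product.2 ⟨?_, ?_⟩, b4⟩
          · exact hdiv r (WI r b2.1) b1.2 _ (Nat.minFac_dvd r) b5.ne_one
          · refine hdiv r (WI r b2.1) b1.2 _ (Nat.div_dvd_of_dvd (Nat.minFac_dvd r)) fun e => ?_
            simp only at e
            rw [e, mul_one] at b4
            exact b2.2 (b4 ▸ b5)
        · intro _ _; positivity
    rw [← sum_filter_add_sum_filter_not W Nat.Prime]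
    nlinarith [sq_nonneg S]
  have sv : ∑ r ∈ W, (S / 2 * (1 / (r : ℝ))) ^ 2 ≤ (S / 2 * √S) ^ 2 := by
    rw [mul_pow, Real.sq_sqrt hS0]
    refine le_trans (le_of_eq ?_) (mul_le_mul_of_nonneg_left hS (by positivity))
    rw [mul_sum]
    exact sum_congr rfl fun r _ => by ring
  have s2 : ∑ r ∈ R.filter (fun r => ¬ r = 1), F r ^ 2 ≤ (0.56 * S + S / 2 * √S) ^ 2 := by
    have e1 : ∑ r ∈ R.filter (fun r => ¬ r = 1), F r ^ 2 ≤
        ∑ r ∈ W, (|u r| + S / 2 * (1 / (r : ℝ))) ^ 2 := by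
      rw [← sum_filter_ne_zero]
      refine le_trans (sum_le_sum fun r hr => ?_) (sum_le_sum_of_subset_of_nonneg
        (fun r hr => ?_) fun _ _ _ => sq_nonneg _)
      · exact pow_le_pow_left₀ (F0 r) (Fa r (mem_filter.1 (mem_filter.1 hr).1).1) 2
      · have b1 := mem_filter.1 hr
        have b2 := mem_filter.1 b1.1
        exact Fz r b2.1 b2.2 b1.2
    refine e1.trans ((Real.sqrt_le_left (by positivity)).1 ?_)
    refine (minkowski _ _ _).trans (add_le_add ?_ ?_)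
    · exact (Real.sqrt_le_left (by positivity)).2 su
    · exact (Real.sqrt_le_left (by positivity)).2 sv
  refine (Qf_fibre M u).trans ?_
  change ∑ r ∈ R, F r ^ 2 ≤ _
  rw [← sum_filter_add_sum_filter_not _ (fun r : ℕ => r = 1)]
  refine (add_le_add s1 s2).trans (le_of_eq ?_)
  ring

end Pool.Agent.MP_5d10af_nt
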