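import Mathlib
import Pool.Agent.MP_5d10af_nt.Mg.Euler
import Pool.Agent.MP_5d10af_nt.Mg.Sq

-- part MP_5d10af_nt.LemBOp
section

/-!
Operator bounds for the kernels `f (x + y)` attached to Jacobi symbols.
-/

set_option autoImplicit false

namespace Pool.Agent.MP_5d10af_nt

open Finset

/-- The kernel `f (x + y)` has squared operator norm at most `K`. -/
def LBOp {G : Type} [AddCommGroup G] [Fintype G] (f : G → ℝ) (K : ℝ) : Prop :=
  ∀ b : G → ℝ, ∑ x, (∑ y, b y * f (x + y)) ^ 2 ≤ K * ∑ y, b y ^ 2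

lemma LBOp.mono {G : Type} [AddCommGroup G] [Fintype G] {f : G → ℝ} {K K' : ℝ} (h : LBOp f K)
    (hK : K ≤ K') : LBOp f K' := fun b =>
  (h b).trans (mul_le_mul_of_nonneg_right hK (sum_nonneg fun _ _ => sq_nonneg _))

lemma LBOp.tensor {G H : Type} [AddCommGroup G] [Fintype G] [AddCommGroup H] [Fintype H]
    {f : G → ℝ} {g : H → ℝ} {K L : ℝ} (hf : LBOp f K) (hg : LBOp g L) (hK : 0 ≤ K) :
    LBOp (fun p : G × H => f p.1 * g p.2) (K * L) := by
  intro b
  have e1 : ∀ (x : G) (z : H), ∑ y : G × H, b y * (f ((x, z) + y).1 * g ((x, z) + y).2)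
      = ∑ y1, (∑ y2, b (y1, y2) * g (z + y2)) * f (x + y1) := fun x z => by
    rw [Fintype.sum_prod_type]
    refine sum_congr rfl fun y1 _ => ?_
    rw [sum_mul]
    refine sum_congr rfl fun y2 _ => ?_
    simp only [Prod.mk_add_mk]
    ring
  rw [Fintype.sum_prod_type, sum_comm]
  simp only [e1]
  refine (sum_le_sum fun z _ => hf fun y1 => ∑ y2, b (y1, y2) * g (z + y2)).trans ?_
  rw [← mul_sum, sum_comm, mul_assoc, Fintype.sum_prod_type]
  refine mul_le_mul_of_nonneg_left ?_ hK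
  rw [mul_sum]
  exact sum_le_sum fun y1 _ => hg fun y2 => b (y1, y2)

lemma LBOp.transport {G H : Type} [AddCommGroup G] [Fintype G] [AddCommGroup H] [Fintype H]
    {f : H → ℝ} {K : ℝ} (hf : LBOp f K) (e : G ≃+ H) (c : H) :
    LBOp (fun x : G => f (e x + c)) K := by
  intro b
  have h := hf fun y => b (e.symm y)
  have e1 : ∑ y, b (e.symm y) ^ 2 = ∑ y, b y ^ 2 :=
    e.symm.toEquiv.sum_comp fun y => b y ^ 2
  have e2 : ∀ x : G, ∑ y, b y * f (e (x + y) + c) = ∑ y, b (e.symm y) * f (e x + c + y) := by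
    intro x
    rw [← e.toEquiv.sum_comp fun y => b (e.symm y) * f (e x + c + y)]
    refine sum_congr rfl fun y _ => ?_
    simp only [map_add, AddEquiv.toEquiv_eq_coe, EquivLike.coe_coe, AddEquiv.symm_apply_apply]
    rw [add_right_comm]
  simp only [e2]
  rw [e1] at h
  refine le_trans (le_of_eq ?_) h
  exact (e.toEquiv.trans (Equiv.addRight c)).sum_comp
    fun x => (∑ y, b (e.symm y) * f (x + y)) ^ 2

lemma lB_corr {F : Type} [Field F] [Fintype F] [DecidableEq F] (hF : ringChar F ≠ 2) (y z : F) :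
    ∑ x, quadraticChar F (x + y) * quadraticChar F (x + z)
      = (if y = z then (Fintype.card F : ℤ) else 0) - 1 := by
  split_ifs with h
  · subst h
    have e0 := Equiv.sum_comp (Equiv.addRight y) fun x => quadraticChar F x * quadraticChar F x
    simp only [Equiv.coe_addRight] at e0
    rw [e0]
    have e : ∀ x : F, quadraticChar F x * quadraticChar F x = 1 - if x = 0 then 1 else 0 := by
      intro x
      split_ifs with hx
      · simp [hx]
      · rw [← sq, quadraticChar_sq_one hx, sub_zero]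
    simp only [e, sum_sub_distrib]
    simp
  · have hd : z - y ≠ 0 := sub_ne_zero.2 (Ne.symm h)
    have hj := jacobiSum_nontrivial_inv (quadraticChar_ne_one hF)
    rw [(quadraticChar_isQuadratic F).inv, jacobiSum] at hj
    have hd' : -(z - y) ≠ 0 := neg_ne_zero.2 hd
    rw [← Equiv.sum_comp ((Equiv.mulLeft₀ (-(z - y)) hd').trans (Equiv.addRight (-y)))
      fun x => quadraticChar F (x + y) * quadraticChar F (x + z)]
    have e : ∀ x : F, quadraticChar F (-(z - y) * x + -y + y) * quadraticChar F (-(z - y) * x + -y + z)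
        = quadraticChar F (-1) * (quadraticChar F x * quadraticChar F (1 - x)) := by
      intro x
      have h1 : -(z - y) * x + -y + y = -1 * (z - y) * x := by ring
      have h2 : -(z - y) * x + -y + z = (z - y) * (1 - x) := by ring
      have h3 := quadraticChar_sq_one hd
      rw [h1, h2, map_mul, map_mul, map_mul]
      linear_combination (quadraticChar F (-1) * (quadraticChar F x * quadraticChar F (1 - x))) * h3
    simp only [Equiv.trans_apply, Equiv.mulLeft₀_apply, Equiv.coe_addRight, e]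
    rw [← mul_sum, hj]
    have h4 := quadraticChar_sq_one (F := F) (a := -1) (neg_ne_zero.2 one_ne_zero)
    linear_combination -h4

lemma lB_odd {F : Type} [Field F] [Fintype F] [DecidableEq F] (hF : ringChar F ≠ 2) :
    LBOp (fun x : F => ((quadraticChar F x : ℤ) : ℝ)) (Fintype.card F) := by
  intro b
  have e1 : ∀ x : F, (∑ y, b y * ((quadraticChar F (x + y) : ℤ) : ℝ)) ^ 2
      = ∑ y, ∑ z, b y * b z * ((quadraticChar F (x + y) * quadraticChar F (x + z) : ℤ) : ℝ) := by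
    intro x
    rw [sq, sum_mul_sum]
    refine sum_congr rfl fun y _ => sum_congr rfl fun z _ => ?_
    push_cast
    ring
  simp only [e1]
  rw [sum_comm]
  have e2 : ∀ y : F, ∑ x, ∑ z,
      b y * b z * ((quadraticChar F (x + y) * quadraticChar F (x + z) : ℤ) : ℝ)
        = Fintype.card F * b y ^ 2 - b y * ∑ z, b z := by
    intro y
    rw [sum_comm]
    have e3 : ∀ z : F, ∑ x,
        b y * b z * ((quadraticChar F (x + y) * quadraticChar F (x + z) : ℤ) : ℝ)
        = (if y = z then Fintype.card F * b y ^ 2 else 0) - b y * b z := by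
      intro z
      rw [← mul_sum, ← Int.cast_sum, lB_corr hF]
      split_ifs with h
      · subst h; push_cast; ring
      · push_cast; ring
    simp only [e3, sum_sub_distrib, ← mul_sum]
    simp
  simp only [e2, sum_sub_distrib, ← mul_sum, ← sum_mul]
  nlinarith [mul_self_nonneg (∑ z, b z)]

lemma lB_even {G : Type} [AddCommGroup G] [Fintype G] [DecidableEq G] (h2 : 2 ≤ Fintype.card G) :
    LBOp (fun x : G => if x = 0 then (0 : ℝ) else 1) ((Fintype.card G : ℝ) ^ 2) := by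
  intro b
  have e1 : ∀ x : G, ∑ y, b y * (if x + y = 0 then (0 : ℝ) else 1) = ∑ y, b y - b (-x) := by
    intro x
    have e : ∀ y, b y * (if x + y = 0 then (0 : ℝ) else 1) = b y - if -x = y then b y else 0 := by
      intro y
      by_cases h : x + y = 0
      · rw [if_pos h, if_pos (neg_eq_of_add_eq_zero_right h)]; ring
      · rw [if_neg h, if_neg fun h' => h (by rw [← h', add_neg_cancel])]; ring
    simp only [e, sum_sub_distrib]
    simp
  simp only [e1]
  have e0 := Equiv.sum_comp (Equiv.neg G) fun x => (∑ y, b y - b x) ^ 2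
  simp only [Equiv.neg_apply] at e0
  rw [e0]
  set S := ∑ y, b y with hS
  have e2 : ∑ x, (S - b x) ^ 2 = Fintype.card G * S ^ 2 - 2 * S * S + ∑ y, b y ^ 2 := by
    simp only [sub_sq, sum_add_distrib, sum_sub_distrib, ← mul_sum, ← hS]
    simp
  have hc : S ^ 2 ≤ Fintype.card G * ∑ y, b y ^ 2 := by
    have := sq_sum_le_card_mul_sum_sq (s := univ) (f := b)
    simpa using this
  have h2' : (2 : ℝ) ≤ Fintype.card G := by exact_mod_cast h2
  have h0 : 0 ≤ ∑ y, b y ^ 2 := sum_nonneg fun _ _ => sq_nonneg _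
  rw [e2]
  nlinarith [mul_le_mul_of_nonneg_left hc (sub_nonneg.2 h2')]

theorem lB_exists (k : ℕ) : k % 2 = 1 → ∃ (q : ℕ) (_ : NeZero q) (f : ZMod q → ℝ), q ∣ k ∧
    (∀ t : ℕ, ((jacobiSym t k : ℤ) : ℝ) = f t) ∧ LBOp f k ∧ (¬ IsSquare k → ∑ x, f x = 0) := by
  induction k using Nat.recOnPosPrimePosCoprime with
  | prime_pow p v hp hv =>
    intro hk
    haveI := Fact.mk hp
    have hp2 : p ≠ 2 := by
      rintro rfl
      obtain ⟨w, rfl⟩ : ∃ w, v = w + 1 := ⟨v - 1, by omega⟩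
      rw [pow_succ] at hk
      omega
    have hF : ringChar (ZMod p) ≠ 2 := by rwa [ZMod.ringChar_zmod_n]
    have hj : ∀ t : ℕ, jacobiSym t (p ^ v) = quadraticChar (ZMod p) (t : ZMod p) ^ v := by
      intro t
      rw [jacobiSym.pow_right, ← jacobiSym.legendreSym.to_jacobiSym, legendreSym, Int.cast_natCast]
    have hp1 : (1 : ℝ) ≤ p := by exact_mod_cast hp.one_lt.le
    rcases Nat.even_or_odd v with he | ho
    · refine ⟨p, inferInstance, fun x => if x = 0 then (0 : ℝ) else 1, dvd_pow_self p hv.ne',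
        fun t => ?_, ?_, fun h => absurd (he.isSquare_pow p) h⟩
      · rw [hj]
        beta_reduce
        split_ifs with h
        · simp [h, hv.ne']
        · rcases quadraticChar_dichotomy h with h' | h' <;> simp [h', he.neg_one_pow]
      · refine (lB_even (by rw [ZMod.card]; exact hp.two_le)).mono ?_
        rw [ZMod.card, Nat.cast_pow]
        refine pow_le_pow_right₀ hp1 ?_
        obtain ⟨w, rfl⟩ := he
        omega
    · refine ⟨p, inferInstance, fun x => ((quadraticChar (ZMod p) x : ℤ) : ℝ),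
        dvd_pow_self p hv.ne', fun t => ?_, ?_, fun _ => ?_⟩
      · rw [hj]
        rcases quadraticChar_isQuadratic (ZMod p) t with h' | h' | h' <;>
          simp [h', ho.neg_one_pow, hv.ne']
      · refine (lB_odd hF).mono ?_
        rw [ZMod.card, Nat.cast_pow]
        exact le_self_pow₀ hp1 hv.ne'
      · rw [← Int.cast_sum, quadraticChar_sum_zero hF, Int.cast_zero]
  | zero => intro h; omega
  | one =>
    intro _
    refine ⟨1, inferInstance, fun _ => 1, dvd_rfl, fun t => by simp, fun b => ?_,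
      fun h => absurd IsSquare.one h⟩
    simp
  | coprime a b ha hb hab iha ihb =>
    intro hk
    have ha2 : a % 2 = 1 := Nat.odd_iff.1 (Nat.Odd.of_mul_left (Nat.odd_iff.2 hk))
    have hb2 : b % 2 = 1 := Nat.odd_iff.1 (Nat.Odd.of_mul_right (Nat.odd_iff.2 hk))
    obtain ⟨q1, _, f1, hd1, hj1, ho1, hs1⟩ := iha ha2
    obtain ⟨q2, _, f2, hd2, hj2, ho2, hs2⟩ := ihb hb2
    have hq : q1.Coprime q2 := Nat.Coprime.coprime_dvd_left hd1 (Nat.Coprime.coprime_dvd_right hd2 hab)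
    haveI : NeZero (q1 * q2) := ⟨mul_ne_zero (NeZero.ne q1) (NeZero.ne q2)⟩
    set e := ZMod.chineseRemainder hq with he
    refine ⟨q1 * q2, inferInstance, fun x => f1 (e x).1 * f2 (e x).2, mul_dvd_mul hd1 hd2,
      fun t => ?_, ?_, fun h => ?_⟩
    · rw [jacobiSym.mul_right' _ (by omega) (by omega), Int.cast_mul, hj1, hj2]
      simp only [map_natCast, Prod.fst_natCast, Prod.snd_natCast]
    · have := (ho1.tensor ho2 (Nat.cast_nonneg _)).transport e.toAddEquiv 0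
      rw [Nat.cast_mul]
      simpa using this
    · refine (Equiv.sum_comp e.toEquiv fun p : ZMod q1 × ZMod q2 => f1 p.1 * f2 p.2).trans ?_
      rw [Fintype.sum_prod_type]
      simp only
      rw [← sum_mul_sum]
      by_cases h1 : IsSquare a
      · rw [hs2 fun h2 => h (h1.mul h2), mul_zero]
      · rw [hs1 h1, zero_mul]

end Pool.Agent.MP_5d10af_nt

end

-- part MP_5d10af_nt.LemB
section

/-!
The bilinear bound for the real characters.
-/

set_option autoImplicit false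

namespace Pool.Agent.MP_5d10af_nt

open Finset

lemma lB_complex {G : Type} [AddCommGroup G] [Fintype G] {f : G → ℝ} {K : ℝ} (hf : LBOp f K)
    (hK : 0 ≤ K) (a b : G → ℂ) {A B : ℝ} (ha : ∑ x, ‖a x‖ ^ 2 ≤ A) (hb : ∑ x, ‖b x‖ ^ 2 ≤ B) :
    ‖∑ x, ∑ y, a x * b y * (f (x + y) : ℂ)‖ ≤ √K * √(A * B) := by
  have hA : 0 ≤ A := (sum_nonneg fun _ _ => sq_nonneg _).trans ha
  have hB : 0 ≤ B := (sum_nonneg fun _ _ => sq_nonneg _).trans hb
  have h1 : ∑ x, ‖∑ y, b y * (f (x + y) : ℂ)‖ ^ 2 ≤ K * B := by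
    have e1 : ∀ z : ℂ, ‖z‖ ^ 2 = z.re ^ 2 + z.im ^ 2 := fun z => by
      rw [Complex.sq_norm, Complex.normSq_apply]; ring
    have e2 : ∀ x, ‖∑ y, b y * (f (x + y) : ℂ)‖ ^ 2
        = (∑ y, (b y).re * f (x + y)) ^ 2 + (∑ y, (b y).im * f (x + y)) ^ 2 := fun x => by
      rw [e1, Complex.re_sum, Complex.im_sum]
      simp
    simp only [e2, sum_add_distrib]
    refine (add_le_add (hf _) (hf _)).trans ?_
    rw [← mul_add, ← sum_add_distrib]
    refine mul_le_mul_of_nonneg_left (le_trans (le_of_eq ?_) hb) hK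
    exact sum_congr rfl fun y _ => (e1 _).symm
  have h2 : ‖∑ x, ∑ y, a x * b y * (f (x + y) : ℂ)‖
      ≤ ∑ x, ‖a x‖ * ‖∑ y, b y * (f (x + y) : ℂ)‖ := by
    refine (norm_sum_le _ _).trans (le_of_eq (sum_congr rfl fun x _ => ?_))
    rw [← norm_mul, mul_sum]
    simp only [mul_assoc]
  have h3 := sum_mul_sq_le_sq_mul_sq univ (fun x => ‖a x‖)
    fun x => ‖∑ y, b y * (f (x + y) : ℂ)‖
  have h4 : (∑ x, ‖a x‖ * ‖∑ y, b y * (f (x + y) : ℂ)‖) ^ 2 ≤ K * (A * B) := by
    refine h3.trans ((mul_le_mul ha h1 (sum_nonneg fun _ _ => sq_nonneg _) hA).trans (le_of_eq ?_))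
    ring
  rw [← Real.sqrt_mul hK]
  exact h2.trans (Real.le_sqrt_of_sq_le h4)

lemma lB_fiber (q : ℕ) [NeZero q] (A : ℕ) (u : ZMod q) :
    ∃ n : ℕ, ((range A).filter fun x : ℕ => (x : ZMod q) = u).card = n ∧
      (∀ g : ℕ → ℂ, ∑ x ∈ (range A).filter (fun x : ℕ => (x : ZMod q) = u), g x
        = ∑ j ∈ range n, g (u.val + q * j)) ∧ A / q ≤ n ∧ n ≤ A / q + 1 := by
  have hq : 0 < q := Nat.pos_of_ne_zero (NeZero.ne q)
  have hr : u.val < q := ZMod.val_lt u
  set n := (A + q - 1 - u.val) / q with hn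
  have key : ∀ j, j < n ↔ u.val + q * j < A := fun j => by
    rw [hn, Nat.lt_iff_add_one_le, Nat.le_div_iff_mul_le hq, add_mul, mul_comm j q]
    omega
  have himg : ((range A).filter fun x : ℕ => (x : ZMod q) = u)
      = (range n).image fun j => u.val + q * j := by
    ext x
    simp only [mem_filter, mem_range, mem_image, key]
    constructor
    · rintro ⟨h1, h2⟩
      have h3 : u.val + q * (x / q) = x := by
        rw [← h2, ZMod.val_natCast]; exact Nat.mod_add_div x q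
      exact ⟨x / q, by rwa [h3], h3⟩
    · rintro ⟨j, h1, rfl⟩
      refine ⟨h1, ?_⟩
      simp
  have hinj : Function.Injective fun j => u.val + q * j := fun j j' h =>
    Nat.eq_of_mul_eq_mul_left hq (Nat.add_left_cancel h)
  refine ⟨n, ?_, fun g => ?_, ?_, ?_⟩
  · rw [himg, card_image_of_injective _ hinj, card_range]
  · rw [himg, sum_image fun j _ j' _ h => hinj h]
  · exact Nat.div_le_div_right (by omega)
  · rw [← Nat.add_div_right A hq]
    exact Nat.div_le_div_right (by omega)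

lemma lB_card (q : ℕ) [NeZero q] (A : ℕ) :
    ∑ u : ZMod q, (((range A).filter fun x : ℕ => (x : ZMod q) = u).card : ℝ) = A := by
  have := card_eq_sum_card_fiberwise (s := range A) (t := univ) (f := fun x : ℕ => (x : ZMod q))
    fun _ _ => mem_univ _
  rw [card_range] at this
  exact_mod_cast this.symm

lemma lB_geom {ζ : ℂ} (h : ζ = -1 ∨ ζ = Complex.I ∨ ζ = -Complex.I) (n : ℕ) :
    ‖∑ j ∈ range n, ζ ^ j‖ ^ 2 ≤ n := by
  have h4 : ζ ^ 4 = 1 ∧ 1 + ζ + ζ ^ 2 + ζ ^ 3 = 0 ∧ ‖1 + ζ‖ ^ 2 ≤ 2 ∧ ‖1 + ζ + ζ ^ 2‖ ^ 2 ≤ 3 := by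
    have e2 : Complex.I ^ 2 = -1 := Complex.I_sq
    have e3 : ∀ z : ℂ, ‖z‖ ^ 2 = z.re ^ 2 + z.im ^ 2 := fun z => by
      rw [Complex.sq_norm, Complex.normSq_apply]; ring
    rcases h with rfl | rfl | rfl
    · norm_num
    · refine ⟨Complex.I_pow_four, by linear_combination (1 + Complex.I) * e2, ?_, ?_⟩
      · rw [e3]; norm_num
      · rw [e3, e2]; norm_num
    · refine ⟨by linear_combination (Complex.I ^ 2 - 1) * e2,
        by linear_combination (1 - Complex.I) * e2, ?_, ?_⟩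
      · rw [e3]; norm_num
      · rw [e3, neg_sq, e2]; norm_num
  induction n using Nat.strong_induction_on with
  | _ n ih =>
    match n with
    | 0 => simp
    | 1 => simp
    | 2 => simpa [sum_range_succ] using h4.2.2.1
    | 3 => simpa [sum_range_succ] using h4.2.2.2
    | n + 4 =>
      have e : ∑ j ∈ range (n + 4), ζ ^ j = ∑ j ∈ range n, ζ ^ j := by
        simp only [sum_range_succ]
        linear_combination (ζ ^ n) * h4.2.1
      rw [e]
      refine (ih n (by omega)).trans ?_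
      push_cast
      linarith

lemma lB_I_mod (n : ℕ) : Complex.I ^ n = Complex.I ^ (n % 4) :=
  pow_eq_pow_mod n Complex.I_pow_four

lemma lB_norm_rot (q : ℕ) [NeZero q] (hq : q % 2 = 1) {ω : ℂ} (h : ω = -1 ∨ ω = Complex.I) (A : ℕ) :
    ∑ u : ZMod q, ‖∑ x ∈ (range A).filter (fun x : ℕ => (x : ZMod q) = u), ω ^ x‖ ^ 2 ≤ A := by
  have h1 : ‖ω‖ = 1 := by rcases h with rfl | rfl <;> simp
  have h2 : ω ^ q = -1 ∨ ω ^ q = Complex.I ∨ ω ^ q = -Complex.I := by
    rcases h with rfl | rfl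
    · exact Or.inl (Nat.odd_iff.2 hq).neg_one_pow
    · right
      rw [lB_I_mod]
      have : q % 4 = 1 ∨ q % 4 = 3 := by omega
      rcases this with h | h <;> rw [h]
      · left; simp
      · right; exact Complex.I_pow_three
  rw [← lB_card q A]
  refine sum_le_sum fun u _ => ?_
  obtain ⟨n, hn, hg, -, -⟩ := lB_fiber q A u
  rw [hg, hn]
  simp only [pow_add, pow_mul]
  rw [← mul_sum, norm_mul, norm_pow, h1, one_pow, one_mul]
  exact lB_geom h2 n

lemma lB_norm_one (q : ℕ) [NeZero q] (A : ℕ) :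
    ∑ u : ZMod q, ‖(∑ x ∈ (range A).filter (fun x : ℕ => (x : ZMod q) = u), (1 : ℂ) ^ x)
      - ((A / q : ℕ) : ℂ)‖ ^ 2 ≤ A := by
  rw [← lB_card q A]
  refine sum_le_sum fun u _ => ?_
  obtain ⟨n, hn, -, h1, h2⟩ := lB_fiber q A u
  simp only [one_pow, sum_const, hn, nsmul_eq_mul, mul_one]
  generalize A / q = m at h1 h2
  rcases Nat.eq_or_lt_of_le h1 with h | h
  · subst h; simp
  · obtain rfl : n = m + 1 := by omega
    simp

lemma lB_regroup (q : ℕ) [NeZero q] (F : ZMod q → ℝ) (ω : ℂ) (A B : ℕ) :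
    ∑ x ∈ range A, ∑ y ∈ range B, ω ^ x * ω ^ y * (F ((x : ZMod q) + (y : ZMod q)) : ℂ)
      = ∑ u : ZMod q, ∑ v : ZMod q,
        (∑ x ∈ (range A).filter (fun x : ℕ => (x : ZMod q) = u), ω ^ x) *
        (∑ y ∈ (range B).filter (fun x : ℕ => (x : ZMod q) = v), ω ^ y) * (F (u + v) : ℂ) := by
  rw [← sum_fiberwise (s := range A) (g := fun x : ℕ => (x : ZMod q))]
  refine sum_congr rfl fun u _ => ?_
  simp only [sum_mul]
  rw [sum_comm (s := univ)]
  refine sum_congr rfl fun x hx => ?_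
  rw [← sum_fiberwise (s := range B) (g := fun x : ℕ => (x : ZMod q))]
  refine sum_congr rfl fun v _ => ?_
  rw [mul_sum, sum_mul]
  refine sum_congr rfl fun y hy => ?_
  rw [(mem_filter.1 hx).2, (mem_filter.1 hy).2]

lemma lB_center {G : Type} [AddCommGroup G] [Fintype G] {F : G → ℝ} (hF : ∑ x, F x = 0)
    (a b : G → ℂ) (α β : ℂ) :
    ∑ u, ∑ v, a u * b v * (F (u + v) : ℂ) = ∑ u, ∑ v, (a u - α) * (b v - β) * (F (u + v) : ℂ) := by
  have h1 : ∀ u, ∑ v, (F (u + v) : ℂ) = 0 := fun u => by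
    have := Equiv.sum_comp (Equiv.addLeft u) fun x => (F x : ℂ)
    simp only [Equiv.coe_addLeft] at this
    rw [this, ← Complex.ofReal_sum, hF, Complex.ofReal_zero]
  have h2 : ∀ v, ∑ u, (F (u + v) : ℂ) = 0 := fun v => by
    simpa only [add_comm] using h1 v
  have e : ∀ u v, (a u - α) * (b v - β) * (F (u + v) : ℂ)
      = a u * b v * (F (u + v) : ℂ) - (a u - α) * β * (F (u + v) : ℂ)
        - α * b v * (F (u + v) : ℂ) := fun u v => by ring
  simp only [e, sum_sub_distrib]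
  rw [sum_comm (f := fun u v => α * b v * (F (u + v) : ℂ))]
  simp only [← mul_sum, h1, h2]
  simp

lemma lB_psi (i : Fin 4) : ∃ ω c : ℂ, ‖c‖ = cpsi i ∧ (i = 0 ∧ ω = 1 ∨ ω = -1 ∨ ω = Complex.I) ∧
    ∀ t : ℕ, ((psi i (2 * t + 1) : ℤ) : ℝ) = (c * ω ^ t).re := by
  have hn : ∀ s : ℝ, s ^ 2 = 1 → ‖1 + s * Complex.I‖ = √2 := fun s hs => by
    rw [Complex.norm_eq_sqrt_sq_add_sq]
    simp [hs]
    norm_num
  have red : ∀ (j : Fin 4) (c : ℂ),
      (∀ t < 4, ((psi j (2 * t + 1) : ℤ) : ℝ) = (c * Complex.I ^ t).re) →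
      ∀ t : ℕ, ((psi j (2 * t + 1) : ℤ) : ℝ) = (c * Complex.I ^ t).re := fun j c h t => by
    rw [lB_I_mod, ← h (t % 4) (Nat.mod_lt _ (by norm_num)), ← psi_mod j (2 * t + 1),
      ← psi_mod j (2 * (t % 4) + 1)]
    congr 2
    omega
  fin_cases i
  · refine ⟨1, 1, by simp [cpsi], Or.inl ⟨rfl, rfl⟩, fun t => ?_⟩
    simp [psi]
  · refine ⟨-1, 1, by simp [cpsi], Or.inr (Or.inl rfl), fun t => ?_⟩
    rcases Nat.even_or_odd t with h | h
    · have h4 : (2 * t + 1) % 4 = 1 := by obtain ⟨w, rfl⟩ := h; omega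
      rw [h.neg_one_pow]
      simp [psi, h4]
    · have h4 : (2 * t + 1) % 4 = 3 := by obtain ⟨w, rfl⟩ := h; omega
      rw [h.neg_one_pow]
      simp [psi, h4]
  · refine ⟨Complex.I, 1 + (1 : ℝ) * Complex.I, ?_, Or.inr (Or.inr rfl), red _ _ fun t ht => ?_⟩
    · rw [hn 1 (by norm_num)]; simp [cpsi]
    · interval_cases t <;> simp [psi, Complex.I_pow_three]
  · refine ⟨Complex.I, 1 + (-1 : ℝ) * Complex.I, ?_, Or.inr (Or.inr rfl), red _ _ fun t ht => ?_⟩
    · rw [hn (-1) (by norm_num)]; simp [cpsi]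
    · interval_cases t <;> simp [psi, Complex.I_pow_three]

theorem lemB (i : Fin 4) (k : ℕ) (hk : k % 2 = 1) (h : i ≠ 0 ∨ ¬ IsSquare k) :
    Bil (fun n => chi i k (2 * n + 1)) (cpsi i * √k) := by
  intro n0 A B
  obtain ⟨q, _, f, hd, hj, ho, hs⟩ := lB_exists k hk
  obtain ⟨ω, c, hc, hω, hpsi⟩ := lB_psi i
  have hq : q % 2 = 1 := Nat.odd_iff.1 (Odd.of_dvd_nat (Nat.odd_iff.2 hk) hd)
  have hcop : Nat.Coprime 2 q := (Nat.coprime_two_left).2 (Nat.odd_iff.2 hq)
  set e : ZMod q ≃+ ZMod q := AddAut.mulLeft (ZMod.unitOfCoprime 2 hcop) with he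
  have he2 : ∀ x, e x = 2 * x := fun x => by
    rw [he]
    simp [Units.smul_def]
  set F : ZMod q → ℝ := fun x => f (e x + ((2 * n0 + 1 : ℕ) : ZMod q)) with hF
  have hFo : LBOp F k := ho.transport e _
  have hω1 : ‖ω‖ = 1 := by rcases hω with ⟨_, rfl⟩ | rfl | rfl <;> simp
  have e1 : ∑ x ∈ range A, ∑ y ∈ range B, chi i k (2 * (n0 + x + y) + 1)
      = (c * ω ^ n0 * ∑ x ∈ range A, ∑ y ∈ range B,
          ω ^ x * ω ^ y * (F ((x : ZMod q) + (y : ZMod q)) : ℂ)).re := by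
    rw [mul_sum, Complex.re_sum]
    refine sum_congr rfl fun x _ => ?_
    rw [mul_sum, Complex.re_sum]
    refine sum_congr rfl fun y _ => ?_
    have e2 : F ((x : ZMod q) + (y : ZMod q)) = f ((2 * (n0 + x + y) + 1 : ℕ) : ZMod q) := by
      simp only [hF, he2]
      congr 1
      push_cast
      ring
    have e3 : c * ω ^ n0 * (ω ^ x * ω ^ y * (F ((x : ZMod q) + (y : ZMod q)) : ℂ))
        = c * ω ^ (n0 + x + y) * (F ((x : ZMod q) + (y : ZMod q)) : ℂ) := by
      rw [pow_add, pow_add]; ring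
    rw [e3, Complex.re_mul_ofReal, ← hpsi, e2, ← hj, chi, Int.cast_mul]
  have hT : ‖∑ x ∈ range A, ∑ y ∈ range B, ω ^ x * ω ^ y * (F ((x : ZMod q) + (y : ZMod q)) : ℂ)‖
      ≤ √k * √((A : ℝ) * B) := by
    rw [lB_regroup]
    rcases hω with ⟨hi, rfl⟩ | hω
    · have hsq : ¬ IsSquare k := h.resolve_left (not_not.2 hi)
      have hF0 : ∑ x, F x = 0 :=
        (Equiv.sum_comp (e.toEquiv.trans (Equiv.addRight ((2 * n0 + 1 : ℕ) : ZMod q))) f).trans
          (hs hsq)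
      rw [lB_center hF0 _ _ ((A / q : ℕ) : ℂ) ((B / q : ℕ) : ℂ)]
      exact lB_complex hFo (Nat.cast_nonneg _) _ _ (lB_norm_one q A) (lB_norm_one q B)
    · exact lB_complex hFo (Nat.cast_nonneg _) _ _ (lB_norm_rot q hq hω A) (lB_norm_rot q hq hω B)
  simp only
  rw [e1]
  refine (Complex.abs_re_le_norm _).trans ?_
  rw [norm_mul, norm_mul, norm_pow, hω1, one_pow, mul_one, hc, mul_assoc]
  exact mul_le_mul_of_nonneg_left hT (cpsi_pos i).le

end Pool.Agent.MP_5d10af_nt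

end

-- part MP_5d10af_nt.MS
section

/-!
Mean squares of character polynomials.
-/

set_option autoImplicit false

namespace Pool.Agent.MP_5d10af_nt

open Finset

lemma Sf_nonneg (M : ℕ) (b : ℕ → ℝ) : 0 ≤ Sf M b := sum_nonneg fun _ _ => by positivity

lemma Sf_mono {M : ℕ} {b b' : ℕ → ℝ} (h : ∀ n ∈ Icc 1 M, |b n| ≤ |b' n|) : Sf M b ≤ Sf M b' :=
  sum_le_sum fun n hn => mul_le_mul_of_nonneg_right (h n hn) (by positivity)

lemma MS_term (i j : Fin 4) {n n' : ℕ} (hn : n % 2 = 1) (hn' : n' % 2 = 1) (n0 A B : ℕ) :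
    |∑ x ∈ range A, ∑ y ∈ range B,
        chi i n (2 * (n0 + x + y) + 1) * chi j n' (2 * (n0 + x + y) + 1)| ≤
      A * B * (if i = j ∧ IsSquare (n * n') then 1 else 0) +
        √((A : ℝ) * B) * (cpsi i * √(n : ℝ) * (cpsi j * √(n' : ℝ))) := by
  have c1 := cpsi_pos i
  have c2 := cpsi_pos j
  simp only [chi_mul_chi i j (show n ≠ 0 by omega) (show n' ≠ 0 by omega)]
  split_ifs with h
  · refine le_trans ?_ (le_add_of_nonneg_right (by positivity))
    refine (abs_sum_le_sum_abs _ _).trans ?_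
    refine (sum_le_sum fun x _ => (abs_sum_le_sum_abs _ _).trans
      (sum_le_sum fun y _ => (chi_cm _ _).abs_le _)).trans ?_
    simp
  · have hk : n * n' % 2 = 1 := Nat.odd_iff.1 ((Nat.odd_iff.2 hn).mul (Nat.odd_iff.2 hn'))
    have h' : pm i j ≠ 0 ∨ ¬ IsSquare (n * n') := by
      rw [Ne, pm_eq_zero]; exact not_and_or.1 h
    refine (lemB (pm i j) (n * n') hk h' n0 A B).trans ?_
    rw [mul_zero, zero_add, mul_comm]
    refine mul_le_mul_of_nonneg_left ?_ (by positivity)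
    push_cast
    rw [Real.sqrt_mul (by positivity)]
    have := mul_le_mul_of_nonneg_right (cpsi_pm i j)
      (show 0 ≤ √(n : ℝ) * √(n' : ℝ) by positivity)
    linarith

theorem MS (M : ℕ) (c : Fin 4 → ℕ → ℝ) (hc : ∀ i n, n % 2 = 0 → c i n = 0) (n0 A B : ℕ) :
    ∑ x ∈ range A, ∑ y ∈ range B,
        (∑ i : Fin 4, ∑ n ∈ Icc 1 M, c i n * chi i n (2 * (n0 + x + y) + 1)) ^ 2 ≤
      A * B * ∑ i : Fin 4, Qf M (c i) +
        √((A : ℝ) * B) * (∑ i : Fin 4, cpsi i * Sf M (c i)) ^ 2 := by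
  set P : Finset (Fin 4 × ℕ) := univ ×ˢ Icc 1 M with hP
  have e1 : ∑ x ∈ range A, ∑ y ∈ range B,
      (∑ i : Fin 4, ∑ n ∈ Icc 1 M, c i n * chi i n (2 * (n0 + x + y) + 1)) ^ 2 =
      ∑ p ∈ P, ∑ q ∈ P, c p.1 p.2 * c q.1 q.2 * ∑ x ∈ range A, ∑ y ∈ range B,
        chi p.1 p.2 (2 * (n0 + x + y) + 1) * chi q.1 q.2 (2 * (n0 + x + y) + 1) := by
    have : ∀ e : ℕ, (∑ i : Fin 4, ∑ n ∈ Icc 1 M, c i n * chi i n e) ^ 2 =
        ∑ p ∈ P, ∑ q ∈ P, c p.1 p.2 * c q.1 q.2 * (chi p.1 p.2 e * chi q.1 q.2 e) := by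
      intro e
      rw [← sum_product' (f := fun i n => c i n * chi i n e), sq, sum_mul_sum]
      exact sum_congr rfl fun p _ => sum_congr rfl fun q _ => by ring
    simp only [this, mul_sum]
    simp only [← sum_product' (s := range A) (t := range B)]
    rw [sum_comm]
    exact sum_congr rfl fun p _ => sum_comm
  have e2 : ∑ i : Fin 4, Qf M (c i) = ∑ p ∈ P, ∑ q ∈ P, |c p.1 p.2| * |c q.1 q.2| *
      (if p.1 = q.1 ∧ IsSquare (p.2 * q.2) then 1 else 0) := by
    rw [hP, sum_product]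
    refine sum_congr rfl fun i _ => sum_congr rfl fun n _ => ?_
    rw [sum_product, sum_eq_single i]
    · exact sum_congr rfl fun n' _ => by simp
    · intro j _ hj
      exact sum_eq_zero fun n' _ => by simp [hj.symm]
    · simp
  have e3 : (∑ i : Fin 4, cpsi i * Sf M (c i)) ^ 2 = ∑ p ∈ P, ∑ q ∈ P,
      |c p.1 p.2| * |c q.1 q.2| * (cpsi p.1 * √(p.2 : ℝ) * (cpsi q.1 * √(q.2 : ℝ))) := by
    simp only [Sf, mul_sum]
    rw [← sum_product' (f := fun i n => cpsi i * (|c i n| * √(n : ℝ))), sq, sum_mul_sum]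
    exact sum_congr rfl fun p _ => sum_congr rfl fun q _ => by ring
  rw [e1, e2, e3, mul_sum, mul_sum, ← sum_add_distrib]
  refine sum_le_sum fun p _ => ?_
  rw [mul_sum, mul_sum, ← sum_add_distrib]
  refine sum_le_sum fun q _ => ?_
  rcases Nat.mod_two_eq_zero_or_one p.2 with h | h
  · simp [hc _ _ h]
  rcases Nat.mod_two_eq_zero_or_one q.2 with h' | h'
  · simp [hc _ _ h']
  refine (le_abs_self _).trans ?_
  rw [abs_mul, abs_mul]
  have := mul_le_mul_of_nonneg_left (MS_term p.1 q.1 h h' n0 A B)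
    (show 0 ≤ |c p.1 p.2| * |c q.1 q.2| by positivity)
  linarith

lemma window {g : ℕ → ℝ} (hg : ∀ m, 0 ≤ g m) {T : ℕ} (hT : 0 < T) (hper : ∀ m t, g (m + T * t) = g m)
    {Q S : ℝ} (H : ∀ n0 A B : ℕ, ∑ x ∈ range A, ∑ y ∈ range B, g (n0 + x + y) ≤
      A * B * Q + √((A : ℝ) * B) * S) (n1 L : ℕ) {A : ℕ} (hA : 1 ≤ A) :
    ∑ y ∈ range L, g (n1 + y) ≤ (L + A) * Q + √(((L : ℝ) + A) / A) * S := by
  have hA0 : (0 : ℝ) < A := by exact_mod_cast hA
  have hle : A ≤ T * A := Nat.le_mul_of_pos_left A hT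
  have h1 := H (n1 + T * A - A) A (L + A)
  have h2 : ∀ x ∈ range A, ∑ y ∈ range L, g (n1 + y) ≤
      ∑ y ∈ range (L + A), g (n1 + T * A - A + x + y) := by
    intro x hx
    rw [mem_range] at hx
    have e : ∑ y ∈ range L, g (n1 + y) =
        ∑ y ∈ (range L).image (fun y => y + (A - x)), g (n1 + T * A - A + x + y) := by
      rw [sum_image (fun a _ b _ h => by simpa using h)]
      refine sum_congr rfl fun y _ => ?_
      rw [← hper (n1 + y) A]
      congr 1; omega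
    rw [e]
    refine sum_le_sum_of_subset_of_nonneg (fun z hz => ?_) fun _ _ _ => hg _
    obtain ⟨y, hy, rfl⟩ := mem_image.1 hz
    rw [mem_range] at hy ⊢
    omega
  have h3 := (sum_le_sum h2).trans h1
  rw [sum_const, card_range, nsmul_eq_mul] at h3
  have h4 : √((A : ℝ) * ((L + A : ℕ) : ℝ)) = A * √(((L : ℝ) + A) / A) := by
    have : (A : ℝ) * ((L + A : ℕ) : ℝ) = A ^ 2 * (((L : ℝ) + A) / A) := by
      push_cast; field_simp
    rw [this, Real.sqrt_mul (by positivity), Real.sqrt_sq hA0.le]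
  rw [h4] at h3
  refine le_of_mul_le_mul_left (h3.trans (le_of_eq ?_)) hA0
  push_cast; ring

lemma chi_per (i : Fin 4) {M n : ℕ} (hn : n ∈ Icc 1 M) (m t : ℕ) :
    chi i n (2 * (m + 4 * M.factorial * t) + 1) = chi i n (2 * m + 1) := by
  rw [mem_Icc] at hn
  obtain ⟨k, hk⟩ := Nat.dvd_factorial hn.1 hn.2
  unfold chi
  rw [← psi_mod i (2 * (m + 4 * M.factorial * t) + 1), ← psi_mod i (2 * m + 1)]
  have e1 : (2 * (m + 4 * M.factorial * t) + 1) % 8 = (2 * m + 1) % 8 := by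
    rw [mul_assoc]; omega
  have e2 : jacobiSym ((2 * (m + 4 * M.factorial * t) + 1 : ℕ) : ℤ) n =
      jacobiSym ((2 * m + 1 : ℕ) : ℤ) n := by
    refine jacobiSym.mod_left' ?_
    have : ((2 * (m + 4 * M.factorial * t) + 1 : ℕ) : ℤ) =
        ((2 * m + 1 : ℕ) : ℤ) + (n : ℤ) * (8 * k * t) := by
      rw [hk]; push_cast; ring
    rw [this, Int.add_mul_emod_self_left]
  rw [e1, e2]

theorem MS_win (M : ℕ) (c : Fin 4 → ℕ → ℝ) (hc : ∀ i n, n % 2 = 0 → c i n = 0) (n1 L : ℕ)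
    {A : ℕ} (hA : 1 ≤ A) :
    ∑ y ∈ range L, (∑ i : Fin 4, ∑ n ∈ Icc 1 M, c i n * chi i n (2 * (n1 + y) + 1)) ^ 2 ≤
      (L + A) * ∑ i : Fin 4, Qf M (c i) +
        √(((L : ℝ) + A) / A) * (∑ i : Fin 4, cpsi i * Sf M (c i)) ^ 2 := by
  refine window (g := fun m => (∑ i : Fin 4, ∑ n ∈ Icc 1 M, c i n * chi i n (2 * m + 1)) ^ 2)
    (fun _ => sq_nonneg _) (T := 4 * M.factorial) (by positivity) (fun m t => ?_)
    (MS M c hc) n1 L hA
  congr 1
  exact sum_congr rfl fun i _ => sum_congr rfl fun n hn => by rw [chi_per i hn]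

lemma K_conv (M : ℕ) (b : ℕ → ℝ) (hb : ∀ n, n % 2 = 0 → b n = 0) (m : ℕ) :
    ∑ n ∈ Icc 1 M, b n * Kf n (2 * m + 1) =
      ∑ i : Fin 4, ∑ n ∈ Icc 1 M, b n * kk i n * chi i n (2 * m + 1) := by
  rw [sum_comm]
  refine sum_congr rfl fun n _ => ?_
  rcases Nat.mod_two_eq_zero_or_one n with h | h
  · simp [hb n h]
  · rw [Kf_symm h (by omega), Kf, mul_sum]
    exact sum_congr rfl fun i _ => by ring

lemma K_Q (M : ℕ) (b : ℕ → ℝ) : ∑ i : Fin 4, Qf M (fun n => b n * kk i n) ≤ 2.28 * Qf M b := by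
  simp only [Qf, mul_sum]
  rw [sum_comm]
  refine sum_le_sum fun n _ => ?_
  rw [sum_comm]
  refine sum_le_sum fun n' _ => ?_
  split_ifs
  · have e : ∑ i : Fin 4, |b n * kk i n| * |b n' * kk i n'| =
        (∑ i : Fin 4, kk i n * kk i n') * (|b n| * |b n'|) := by
      rw [sum_mul]
      refine sum_congr rfl fun i _ => ?_
      rw [abs_mul, abs_mul, abs_of_nonneg (kk_nonneg i n), abs_of_nonneg (kk_nonneg i n')]
      ring
    rw [e]
    refine mul_le_mul_of_nonneg_right ?_ (by positivity)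
    have h1 : ∑ i : Fin 4, kk i n * kk i n' ≤ ∑ i : Fin 4, (kk i n ^ 2 + kk i n' ^ 2) / 2 :=
      sum_le_sum fun i _ => by nlinarith [sq_nonneg (kk i n - kk i n')]
    rw [← sum_div, sum_add_distrib] at h1
    linarith [sum_kk_sq_le n, sum_kk_sq_le n']
  · simp

lemma K_S (M : ℕ) (b : ℕ → ℝ) :
    (∑ i : Fin 4, cpsi i * Sf M (fun n => b n * kk i n)) ^ 2 ≤ (1.828 * Sf M b) ^ 2 := by
  refine pow_le_pow_left₀ (sum_nonneg fun i _ => mul_nonneg (cpsi_pos i).le (Sf_nonneg _ _)) ?_ 2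
  simp only [Sf, mul_sum]
  rw [sum_comm]
  refine sum_le_sum fun n _ => ?_
  have e : ∑ i : Fin 4, cpsi i * (|b n * kk i n| * √(n : ℝ)) =
      (∑ i : Fin 4, cpsi i * kk i n) * (|b n| * √(n : ℝ)) := by
    rw [sum_mul]
    refine sum_congr rfl fun i _ => ?_
    rw [abs_mul, abs_of_nonneg (kk_nonneg i n)]
    ring
  rw [e]
  exact mul_le_mul_of_nonneg_right (sum_kk_cpsi_le n) (by positivity)

theorem MSK (M : ℕ) (b : ℕ → ℝ) (hb : ∀ n, n % 2 = 0 → b n = 0) (n0 A B : ℕ) :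
    ∑ x ∈ range A, ∑ y ∈ range B,
        (∑ n ∈ Icc 1 M, b n * Kf n (2 * (n0 + x + y) + 1)) ^ 2 ≤
      A * B * (2.28 * Qf M b) + √((A : ℝ) * B) * (1.828 * Sf M b) ^ 2 := by
  simp only [K_conv M b hb]
  refine (MS M (fun i n => b n * kk i n) (fun i n h => by simp [hb n h]) n0 A B).trans ?_
  exact add_le_add (mul_le_mul_of_nonneg_left (K_Q M b) (by positivity))
    (mul_le_mul_of_nonneg_left (K_S M b) (by positivity))

theorem MSK_win (M : ℕ) (b : ℕ → ℝ) (hb : ∀ n, n % 2 = 0 → b n = 0) (n1 L : ℕ)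
    {A : ℕ} (hA : 1 ≤ A) :
    ∑ y ∈ range L, (∑ n ∈ Icc 1 M, b n * Kf n (2 * (n1 + y) + 1)) ^ 2 ≤
      (L + A) * (2.28 * Qf M b) + √(((L : ℝ) + A) / A) * (1.828 * Sf M b) ^ 2 := by
  simp only [K_conv M b hb]
  refine (MS_win M (fun i n => b n * kk i n) (fun i n h => by simp [hb n h]) n1 L hA).trans ?_
  exact add_le_add (mul_le_mul_of_nonneg_left (K_Q M b) (by positivity))
    (mul_le_mul_of_nonneg_left (K_S M b) (by positivity))

lemma MS_two (M : ℕ) (b b0 b1 : ℕ → ℝ) (hb : ∀ n, n % 2 = 0 → b n = 0)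
    (h0 : ∀ n, |b0 n| ≤ |b n|) (h1 : ∀ n, |b1 n| ≤ |b n|) (n1 : ℕ) {L : ℕ} (hL : 1 ≤ L) :
    ∑ y ∈ range L, (∑ n ∈ Icc 1 M, b0 n * chi 0 n (2 * (n1 + y) + 1) +
        ∑ n ∈ Icc 1 M, b1 n * chi 1 n (2 * (n1 + y) + 1)) ^ 2 ≤
      4 * L * Qf M b + 6 * Sf M b ^ 2 := by
  have hL0 : (0 : ℝ) < L := by exact_mod_cast hL
  have h := MS_win M ![b0, b1, fun _ => 0, fun _ => 0] (fun i n hn => by
    have a0 := h0 n
    have a1 := h1 n
    rw [hb n hn, abs_zero, abs_nonpos_iff] at a0 a1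
    fin_cases i <;> simp [a0, a1]) n1 L hL
  have z1 : Qf M (fun _ => 0) = 0 := by simp [Qf]
  have z2 : Sf M (fun _ => 0) = 0 := by simp [Sf]
  have z3 : ((L : ℝ) + L) / L = 2 := by field_simp; norm_num
  simp only [Fin.sum_univ_four, Matrix.cons_val_zero, Matrix.cons_val_one, Matrix.cons_val,
    zero_mul, sum_const_zero, add_zero, z1, z2, mul_zero, z3] at h
  refine h.trans ?_
  have c0 : cpsi 0 = 1 := by simp [cpsi]
  have c1 : cpsi 1 = 1 := by simp [cpsi]
  rw [c0, c1, one_mul, one_mul]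
  have q0 := Qf_mono (M := M) fun n _ => h0 n
  have q1 := Qf_mono (M := M) fun n _ => h1 n
  have s0 := Sf_mono (M := M) fun n _ => h0 n
  have s1 := Sf_mono (M := M) fun n _ => h1 n
  have s2 : (Sf M b0 + Sf M b1) ^ 2 ≤ (2 * Sf M b) ^ 2 :=
    pow_le_pow_left₀ (add_nonneg (Sf_nonneg _ _) (Sf_nonneg _ _)) (by linarith) 2
  have s3 := mul_le_mul sqrt_two_lt.le s2 (sq_nonneg _) (by norm_num)
  have q2 := mul_le_mul_of_nonneg_left (add_le_add q0 q1) (show (0 : ℝ) ≤ L + L by positivity)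
  nlinarith [sq_nonneg (Sf M b)]

/-- Polynomials in `(e / n)`. -/
theorem MS_left (M : ℕ) (b : ℕ → ℝ) (hb : ∀ n, n % 2 = 0 → b n = 0) (n1 : ℕ) {L : ℕ}
    (hL : 1 ≤ L) :
    ∑ y ∈ range L, (∑ n ∈ Icc 1 M, b n * (jacobiSym (2 * (n1 + y) + 1 : ℕ) n : ℝ)) ^ 2 ≤
      4 * L * Qf M b + 6 * Sf M b ^ 2 := by
  refine le_trans (le_of_eq ?_) (MS_two M b b (fun _ => 0) hb (fun _ => le_rfl)
    (fun _ => by simp) n1 hL)
  refine sum_congr rfl fun y _ => ?_
  simp only [zero_mul, sum_const_zero, add_zero, chi,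
    psi_zero_odd (show (2 * (n1 + y) + 1) % 2 = 1 by omega), one_mul]

/-- Polynomials in `(n / e)`. -/
theorem MS_right (M : ℕ) (b : ℕ → ℝ) (hb : ∀ n, n % 2 = 0 → b n = 0) (n1 : ℕ) {L : ℕ}
    (hL : 1 ≤ L) :
    ∑ y ∈ range L, (∑ n ∈ Icc 1 M, b n * (jacobiSym n (2 * (n1 + y) + 1) : ℝ)) ^ 2 ≤
      4 * L * Qf M b + 6 * Sf M b ^ 2 := by
  refine le_trans (le_of_eq ?_) (MS_two M b (fun n => if n % 4 = 1 then b n else 0)
    (fun n => if n % 4 = 1 then 0 else b n) hb (fun n => by split_ifs <;> simp)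
    (fun n => by split_ifs <;> simp) n1 hL)
  refine sum_congr rfl fun y _ => ?_
  rw [← sum_add_distrib]
  congr 1
  refine sum_congr rfl fun n _ => ?_
  have he : (2 * (n1 + y) + 1) % 2 = 1 := by omega
  rcases Nat.mod_two_eq_zero_or_one n with h | h
  · simp [hb n h]
  · rw [jac_rec he h]
    simp only [chi, psi_zero_odd he]
    split_ifs <;> simp

end Pool.Agent.MP_5d10af_nt

end
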