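import Pool.Agent.MP_5d10af_nt.Mg.Euler

/-!
Consequences of the bilinear bound: character sums, truncation of the series.
-/

set_option autoImplicit false

namespace Pool.Agent.MP_5d10af_nt

open Finset

lemma pv_shift {Ξ : ℕ → ℝ} (h1 : ∀ n, |Ξ n| ≤ 1) (n0 A j : ℕ) :
    |∑ i ∈ range A, Ξ (n0 + i) - ∑ i ∈ range A, Ξ (n0 + i + j)| ≤ 2 * j := by
  induction j with
  | zero => simp
  | succ j ih =>
    have e : ∑ i ∈ range A, Ξ (n0 + i + (j + 1)) =
        ∑ i ∈ range A, Ξ (n0 + i + j) + (Ξ (n0 + A + j) - Ξ (n0 + 0 + j)) := by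
      rw [← Finset.sum_range_sub (fun i => Ξ (n0 + i + j)), ← Finset.sum_add_distrib]
      refine Finset.sum_congr rfl fun i _ => ?_
      rw [show n0 + i + (j + 1) = n0 + (i + 1) + j by ring]
      ring
    have a := abs_le.1 (h1 (n0 + A + j))
    have b := abs_le.1 (h1 (n0 + 0 + j))
    have c := abs_le.1 ih
    rw [e, abs_le]
    push_cast
    constructor <;> linarith [a.1, a.2, b.1, b.2, c.1, c.2]

lemma Bil.pv {Ξ : ℕ → ℝ} {γ : ℝ} (h : Bil Ξ γ) (h1 : ∀ n, |Ξ n| ≤ 1) (hγ : 0 ≤ γ)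
    (n0 A : ℕ) {B : ℕ} (hB : 1 ≤ B) :
    |∑ i ∈ range A, Ξ (n0 + i)| ≤ γ * √((A : ℝ) / B) + B := by
  have hB' : (0 : ℝ) < B := by exact_mod_cast hB
  have e : (B : ℝ) * ∑ i ∈ range A, Ξ (n0 + i) = ∑ i ∈ range A, ∑ j ∈ range B, Ξ (n0 + i + j) +
      ∑ j ∈ range B, (∑ i ∈ range A, Ξ (n0 + i) - ∑ i ∈ range A, Ξ (n0 + i + j)) := by
    rw [Finset.sum_sub_distrib, Finset.sum_comm (s := range A)]
    simp
  have b2 : |∑ j ∈ range B, (∑ i ∈ range A, Ξ (n0 + i) - ∑ i ∈ range A, Ξ (n0 + i + j))| ≤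
      (B : ℝ) * B := by
    refine (Finset.abs_sum_le_sum_abs _ _).trans
      ((Finset.sum_le_sum fun j _ => pv_shift h1 n0 A j).trans ?_)
    clear e hB hB'
    induction B with
    | zero => simp
    | succ B ih => rw [Finset.sum_range_succ]; push_cast; nlinarith
  have s : √((A : ℝ) * B) = B * √((A : ℝ) / B) := by
    rw [show (A : ℝ) * B = B ^ 2 * (A / B) by field_simp, Real.sqrt_mul (by positivity),
      Real.sqrt_sq hB'.le]
  have b1 := h n0 A B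
  rw [s] at b1
  have := (abs_add_le _ _).trans (add_le_add b1 b2)
  rw [← e, abs_mul, abs_of_pos hB'] at this
  have _ := hγ
  exact le_of_mul_le_mul_left (by linarith) hB'

lemma abel_id (v a : ℕ → ℝ) (c : ℝ) {M J : ℕ} (hJ : M ≤ J) :
    v M * c + ∑ n ∈ Ico M J, v n * a n = v J * (c + ∑ n ∈ Ico M J, a n) +
      ∑ n ∈ Ico M J, (v n - v (n + 1)) * (c + ∑ i ∈ Ico M (n + 1), a i) := by
  induction J, hJ using Nat.le_induction with
  | base => simp
  | succ J hJ ih =>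
    rw [Finset.sum_Ico_succ_top hJ, Finset.sum_Ico_succ_top hJ (fun n => (v n - v (n + 1)) * _),
      ← add_assoc, ih, Finset.sum_Ico_succ_top hJ]
    ring

lemma abel_id2 (v b : ℕ → ℝ) {M J : ℕ} (hJ : M ≤ J) :
    v J * b J + ∑ n ∈ Ico M J, (v n - v (n + 1)) * b (n + 1) =
      v M * b M + ∑ n ∈ Ico M J, v n * (b (n + 1) - b n) := by
  induction J, hJ using Nat.le_induction with
  | base => simp
  | succ J hJ ih =>
    rw [Finset.sum_Ico_succ_top hJ, Finset.sum_Ico_succ_top hJ]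
    linarith

lemma abel_le (v a b : ℕ → ℝ) (c : ℝ) {M J : ℕ} (hJ : M ≤ J) (hv0 : 0 ≤ v J)
    (hv1 : ∀ n, M ≤ n → v (n + 1) ≤ v n) (hJb : |c + ∑ i ∈ Ico M J, a i| ≤ b J)
    (hb : ∀ n, M ≤ n → |c + ∑ i ∈ Ico M (n + 1), a i| ≤ b (n + 1)) :
    |v M * c + ∑ n ∈ Ico M J, v n * a n| ≤
      v J * b J + ∑ n ∈ Ico M J, (v n - v (n + 1)) * b (n + 1) := by
  rw [abel_id v a c hJ]
  refine (abs_add_le _ _).trans (add_le_add ?_ ((Finset.abs_sum_le_sum_abs _ _).trans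
    (Finset.sum_le_sum fun n hn => ?_)))
  · rw [abs_mul, abs_of_nonneg hv0]
    exact mul_le_mul_of_nonneg_left hJb hv0
  · have hn := (mem_Ico.1 hn).1
    have := sub_nonneg.2 (hv1 n hn)
    rw [abs_mul, abs_of_nonneg this]
    exact mul_le_mul_of_nonneg_left (hb n hn) this

lemma sum_Ico_rpow {κ : ℝ} (hκ : 1 < κ) {M : ℕ} (hM : 1 ≤ M) (J : ℕ) :
    ∑ n ∈ Ico (M + 1) J, (n : ℝ) ^ (-κ) ≤ (M : ℝ) ^ (1 - κ) / (κ - 1) := by
  refine le_trans (Finset.sum_le_sum_of_subset_of_nonneg ?_ fun n _ _ => by positivity)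
    (sum_rpow_tail hκ hM J)
  intro n hn
  rw [mem_Ico] at hn
  rw [mem_Ioc]
  omega

/-- Partial summation. -/
lemma Bil.abel {Ξ : ℕ → ℝ} {γ : ℝ} (h : Bil Ξ γ) (h1 : ∀ n, |Ξ n| ≤ 1) (hγ : 0 ≤ γ)
    {M B : ℕ} (hM : 1 ≤ M) (hB : 1 ≤ B) (v : ℕ → ℝ) (V : ℝ)
    (hv0 : ∀ n, M ≤ n → 0 ≤ v n) (hv1 : ∀ n, M ≤ n → v (n + 1) ≤ v n)
    (hv2 : ∀ n, M ≤ n → v n ≤ V * ((M : ℝ) / n) ^ (3 / 4 : ℝ)) (J : ℕ) :
    |∑ n ∈ Ico M J, v n * Ξ n| ≤ V * (B + 4 * γ * √((M : ℝ) / B)) := by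
  have hB' : (0 : ℝ) < B := by exact_mod_cast hB
  have hM' : (0 : ℝ) < M := by exact_mod_cast hM
  have vM : v M ≤ V := by simpa [hM'.ne'] using hv2 M le_rfl
  have V0 : 0 ≤ V := (hv0 M le_rfl).trans vM
  rcases lt_or_ge J M with hJ | hJ
  · rw [Ico_eq_empty (by omega), sum_empty, abs_zero]; positivity
  have hb : ∀ n, M ≤ n → |0 + ∑ i ∈ Ico M n, Ξ i| ≤ B + γ * √((n : ℝ) / B) := by
    intro n _
    rw [zero_add, Finset.sum_Ico_eq_sum_range, add_comm]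
    refine (h.pv h1 hγ M _ hB).trans ?_
    gcongr
    omega
  have k := abel_le v Ξ (fun n => B + γ * √((n : ℝ) / B)) 0 hJ (hv0 J hJ) hv1 (hb J hJ)
    (fun n hn => hb (n + 1) (by omega))
  rw [abel_id2 v (fun n => B + γ * √((n : ℝ) / B)) hJ, mul_zero, zero_add] at k
  refine k.trans ?_
  have t : ∀ n ∈ Ico M J, v n * (B + γ * √(((n + 1 : ℕ) : ℝ) / B) - (B + γ * √((n : ℝ) / B))) ≤
      V * γ / (2 * √(B : ℝ)) * (M : ℝ) ^ (3 / 4 : ℝ) * (n : ℝ) ^ (-(5 / 4) : ℝ) := by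
    intro n hn
    have hn := (mem_Ico.1 hn).1
    have n0 : (0 : ℝ) < n := by exact_mod_cast hM.trans hn
    have sB : 0 < √(B : ℝ) := Real.sqrt_pos.2 hB'
    have sn : 0 < √(n : ℝ) := Real.sqrt_pos.2 n0
    have d : √((n : ℝ) + 1) - √(n : ℝ) ≤ 1 / (2 * √(n : ℝ)) := by
      rw [sub_le_iff_le_add, Real.sqrt_le_left (by positivity), add_sq,
        Real.sq_sqrt n0.le]
      have : 2 * (1 / (2 * √(n : ℝ))) * √(n : ℝ) = 1 := by field_simp
      nlinarith [sq_nonneg (1 / (2 * √(n : ℝ)))]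
    have d0 : 0 ≤ √((n : ℝ) + 1) - √(n : ℝ) := sub_nonneg.2 (Real.sqrt_le_sqrt (by linarith))
    have e : B + γ * √(((n + 1 : ℕ) : ℝ) / B) - (B + γ * √((n : ℝ) / B)) =
        γ / √(B : ℝ) * (√((n : ℝ) + 1) - √(n : ℝ)) := by
      push_cast
      rw [Real.sqrt_div (by positivity), Real.sqrt_div n0.le]
      ring
    have e2 : (n : ℝ) ^ (-(5 / 4) : ℝ) = ((n : ℝ) ^ (3 / 4 : ℝ))⁻¹ * (√(n : ℝ))⁻¹ := by
      rw [Real.sqrt_eq_rpow, ← Real.rpow_neg n0.le, ← Real.rpow_neg n0.le, ← Real.rpow_add n0]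
      norm_num
    rw [e, e2]
    calc _ ≤ (V * ((M : ℝ) / n) ^ (3 / 4 : ℝ)) * (γ / √(B : ℝ) * (1 / (2 * √(n : ℝ)))) := by
          apply mul_le_mul (hv2 n hn) (by gcongr) (by positivity) (by positivity)
      _ = _ := by rw [Real.div_rpow hM'.le n0.le]; field_simp
  have t2 : ∑ n ∈ Ico M J, (n : ℝ) ^ (-(5 / 4) : ℝ) ≤ 5 * (M : ℝ) ^ (-(1 / 4) : ℝ) := by
    have a := sum_Ico_rpow (κ := 5 / 4) (by norm_num) hM (J + 1)
    have b : (M : ℝ) ^ (-(5 / 4) : ℝ) ≤ (M : ℝ) ^ (-(1 / 4) : ℝ) :=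
      Real.rpow_le_rpow_of_exponent_le (by exact_mod_cast hM) (by norm_num)
    have c : ∑ n ∈ Ico M J, (n : ℝ) ^ (-(5 / 4) : ℝ) ≤
        ∑ n ∈ Ico M (J + 1), (n : ℝ) ^ (-(5 / 4) : ℝ) :=
      Finset.sum_le_sum_of_subset_of_nonneg (Ico_subset_Ico_right (by omega))
        fun n _ _ => by positivity
    rw [Finset.sum_eq_sum_Ico_succ_bot (by omega : M < J + 1)] at c
    rw [show (1 - 5 / 4 : ℝ) = -(1 / 4) by norm_num, show (5 / 4 - 1 : ℝ) = 1 / 4 by norm_num] at a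
    linarith
  have t3 := Finset.sum_le_sum t
  rw [← Finset.mul_sum] at t3
  have t4 : (M : ℝ) ^ (3 / 4 : ℝ) * (M : ℝ) ^ (-(1 / 4) : ℝ) = √(M : ℝ) := by
    rw [Real.sqrt_eq_rpow, ← Real.rpow_add hM']; norm_num
  have t5 : V * γ / (2 * √(B : ℝ)) * (M : ℝ) ^ (3 / 4 : ℝ) * (5 * (M : ℝ) ^ (-(1 / 4) : ℝ)) =
      5 / 2 * (V * (γ * √((M : ℝ) / B))) := by
    rw [Real.sqrt_div hM'.le, ← t4]; ring
  have t6 := t3.trans (mul_le_mul_of_nonneg_left t2 (by positivity))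
  rw [t5] at t6
  have t7 : v M * (B + γ * √((M : ℝ) / B)) ≤ V * (B + γ * √((M : ℝ) / B)) := by gcongr
  have t8 : 0 ≤ V * (γ * √((M : ℝ) / B)) := by positivity
  linarith

lemma Lf_tendsto {χ : ℕ → ℝ} {σ : ℝ} (h1 : ∀ n, |χ n| ≤ 1) (hσ : 1 < σ) (M : ℕ) :
    Filter.Tendsto (fun J => ∑ n ∈ Ico M J, ((2 * n + 1 : ℕ) : ℝ) ^ (-σ) * χ (2 * n + 1))
      Filter.atTop
      (nhds (Lf σ χ - ∑ n ∈ range M, ((2 * n + 1 : ℕ) : ℝ) ^ (-σ) * χ (2 * n + 1))) := by
  refine ((summable_Lf hσ h1).hasSum.tendsto_sum_nat.sub_const _).congr' ?_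
  filter_upwards [Filter.eventually_ge_atTop M] with J hJ
  rw [Finset.sum_Ico_eq_sub _ hJ]

/-- Sharp truncation. -/
lemma TL0 {χ : ℕ → ℝ} {γ σ : ℝ} (h : Bil (fun n => χ (2 * n + 1)) γ) (h1 : ∀ n, |χ n| ≤ 1)
    (hγ : 0 ≤ γ) (hσ : 1 < σ) {M B : ℕ} (hM : 1 ≤ M) (hB : 1 ≤ B) :
    |Lf σ χ - ∑ n ∈ range M, ((2 * n + 1 : ℕ) : ℝ) ^ (-σ) * χ (2 * n + 1)| ≤
      B / (2 * M) + 2 * γ / √((B : ℝ) * M) := by
  have hB' : (0 : ℝ) < B := by exact_mod_cast hB
  have hM' : (0 : ℝ) < M := by exact_mod_cast hM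
  refine le_of_tendsto' (Lf_tendsto h1 hσ M).abs fun J => ?_
  refine (h.abel (fun n => h1 _) hγ hM hB (fun n => ((2 * n + 1 : ℕ) : ℝ) ^ (-σ)) (1 / (2 * M))
    (fun n _ => by positivity) (fun n _ => ?_) (fun n hn => ?_) J).trans (le_of_eq ?_)
  · exact Real.rpow_le_rpow_of_nonpos (by positivity) (by push_cast; linarith) (by linarith)
  · have n0 : (0 : ℝ) < n := by exact_mod_cast hM.trans hn
    have hn' : (M : ℝ) ≤ n := by exact_mod_cast hn
    calc ((2 * n + 1 : ℕ) : ℝ) ^ (-σ) ≤ ((2 * n + 1 : ℕ) : ℝ) ^ (-1 : ℝ) :=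
          Real.rpow_le_rpow_of_exponent_le (by push_cast; linarith) (by linarith)
      _ ≤ 1 / (2 * M) * ((M : ℝ) / n) ^ (1 : ℝ) := by
          rw [Real.rpow_neg_one, Real.rpow_one, show 1 / (2 * (M : ℝ)) * (M / n) = (2 * (n : ℝ))⁻¹ by
            field_simp]
          exact inv_anti₀ (by positivity) (by push_cast; linarith)
      _ ≤ _ := mul_le_mul_of_nonneg_left (Real.rpow_le_rpow_of_exponent_ge (by positivity)
          ((div_le_one n0).2 hn') (by norm_num)) (by positivity)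
  · rw [Real.sqrt_div hM'.le, Real.sqrt_mul hB'.le]
    have sB : 0 < √(B : ℝ) := Real.sqrt_pos.2 hB'
    have sM : 0 < √(M : ℝ) := Real.sqrt_pos.2 hM'
    have e : (M : ℝ) = √(M : ℝ) ^ 2 := (Real.sq_sqrt hM'.le).symm
    generalize √(M : ℝ) = r at *
    rw [e]
    field_simp
    ring

noncomputable def sg (k : ℕ) : ℝ := 1 / (4 * ((k : ℝ) - 1) * k)

noncomputable def sg1 (k : ℕ) : ℝ := (1 / ((k : ℝ) - 1) + 1 / k) / 4

/-- A superposition of tents. -/
noncomputable def FX (X k : ℕ) : ℝ :=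
  if k ≤ X then k * sg X
  else if k < 2 * X then -1 / (2 * k) + 2 * sg1 X - k * sg X
  else 1 / (2 * k) + (if k % 2 = 1 then 1 / (k * ((k : ℝ) ^ 2 - 1)) else 0)

/-- The smoothed coefficients. -/
noncomputable def phi (σ : ℝ) (X m : ℕ) : ℝ :=
  if m % 2 = 1 ∧ m + 1 < 4 * X then
    (m : ℝ) ^ (-σ) - (4 * (X : ℝ) - 1) ^ (1 - σ) * FX X ((m + 1) / 2)
  else 0

noncomputable def pvMu (x : ℕ) : ℝ := 1 / (2 * ((x : ℝ) - 1) * x * (x + 1))

noncomputable def pvTent (x k : ℕ) : ℝ :=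
  if k ≤ x then k else if k < 2 * x then 2 * (x : ℝ) - k else 0

lemma pvMu_nonneg {x : ℕ} (hx : 2 ≤ x) : 0 ≤ pvMu x := by
  have : (2 : ℝ) ≤ x := by exact_mod_cast hx
  have : 0 < (x : ℝ) - 1 := by linarith
  unfold pvMu; positivity

lemma pvTent_nonneg (x k : ℕ) : 0 ≤ pvTent x k := by
  unfold pvTent
  split_ifs with h1 h2
  · positivity
  · have : (k : ℝ) < 2 * x := by exact_mod_cast h2
    linarith
  · exact le_rfl

lemma FX_sub {X k : ℕ} (hX : 2 ≤ X) (hk : 1 ≤ k) :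
    FX X k - FX (X + 1) k = pvMu X * pvTent X k := by
  have h2 : (2 : ℝ) ≤ X := by exact_mod_cast hX
  have a1 : (X : ℝ) - 1 ≠ 0 := by linarith
  have a2 : (X : ℝ) ≠ 0 := by linarith
  have a3 : (X : ℝ) + 1 ≠ 0 := by linarith
  have a4 : (k : ℝ) ≠ 0 := by positivity
  unfold FX pvMu pvTent sg sg1
  push_cast
  simp only [add_sub_cancel_right]
  by_cases c1 : k ≤ X
  · rw [if_pos c1, if_pos (by omega), if_pos c1]; field_simp; ring
  by_cases c2 : k = X + 1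
  · subst c2
    rw [if_neg c1, if_pos (by omega), if_pos le_rfl, if_neg c1, if_pos (by omega)]
    push_cast; field_simp; ring
  by_cases c3 : k < 2 * X
  · rw [if_neg c1, if_pos c3, if_neg (by omega), if_pos (by omega), if_neg c1, if_pos c3]
    field_simp; ring
  by_cases c4 : k = 2 * X
  · subst c4
    rw [if_neg c1, if_neg c3, if_neg (by omega), if_neg (by omega), if_pos (by omega), if_neg c1,
      if_neg c3]
    push_cast; field_simp; ring
  by_cases c5 : k = 2 * X + 1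
  · subst c5
    rw [if_neg c1, if_neg c3, if_pos (by omega), if_neg (by omega), if_pos (by omega), if_neg c1,
      if_neg c3]
    push_cast
    rw [show (2 * (X : ℝ) + 1) ^ 2 - 1 = 4 * X * (X + 1) by ring]
    field_simp; ring
  · rw [if_neg c1, if_neg c3, if_neg (show ¬ k ≤ X + 1 by omega),
      if_neg (show ¬ k < 2 * (X + 1) by omega), if_neg c1, if_neg c3]
    ring

lemma FX_tel {X M k : ℕ} (hX : 2 ≤ X) (hM : X ≤ M) (hk : 1 ≤ k) :
    ∑ x ∈ Ico X M, pvMu x * pvTent x k = FX X k - FX M k := by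
  induction M, hM using Nat.le_induction with
  | base => simp
  | succ M hM ih => rw [Finset.sum_Ico_succ_top hM, ih, ← FX_sub (by omega) hk]; ring

lemma sg1_nonneg {X : ℕ} (hX : 2 ≤ X) : 0 ≤ sg1 X := by
  have : (2 : ℝ) ≤ X := by exact_mod_cast hX
  have : 0 < (X : ℝ) - 1 := by linarith
  unfold sg1; positivity

lemma sg1_le {X : ℕ} (hX : 2 ≤ X) : sg1 X ≤ 1 / (2 * ((X : ℝ) - 1)) := by
  have : (2 : ℝ) ≤ X := by exact_mod_cast hX
  have h : 1 / (X : ℝ) ≤ 1 / ((X : ℝ) - 1) := one_div_le_one_div_of_le (by linarith) (by linarith)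
  have e : 1 / (2 * ((X : ℝ) - 1)) = 1 / ((X : ℝ) - 1) / 2 := by rw [div_div, mul_comm]
  unfold sg1; linarith

lemma mu_tel {X : ℕ} (hX : 2 ≤ X) (M : ℕ) : ∑ x ∈ Ico X M, pvMu x * x ≤ sg1 X := by
  rcases lt_or_ge M X with hM | hM
  · rw [Ico_eq_empty (by omega), sum_empty]; exact sg1_nonneg hX
  have : ∑ x ∈ Ico X M, pvMu x * x = sg1 X - sg1 M := by
    induction M, hM using Nat.le_induction with
    | base => simp
    | succ M hM ih =>
      rw [Finset.sum_Ico_succ_top hM, ih]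
      have h2 : (2 : ℝ) ≤ M := by exact_mod_cast hX.trans hM
      have a1 : (M : ℝ) - 1 ≠ 0 := by linarith
      have a2 : (M : ℝ) ≠ 0 := by linarith
      have a3 : (M : ℝ) + 1 ≠ 0 := by linarith
      rw [sub_add, sub_right_inj]
      unfold pvMu sg1
      push_cast
      simp only [add_sub_cancel_right]
      field_simp; ring
  have := sg1_nonneg (hX.trans hM)
  linarith

lemma tent_count (x n : ℕ) :
    ∑ i ∈ range x, ∑ j ∈ range x, (if i + j = n then (1 : ℝ) else 0) = pvTent x (n + 1) := by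
  have e : ∀ i ∈ range x, ∑ j ∈ range x, (if i + j = n then (1 : ℝ) else 0) =
      if i ∈ Ico (n + 1 - x) (n + 1) then 1 else 0 := by
    intro i _
    split_ifs with h
    · rw [mem_Ico] at h
      rw [Finset.sum_eq_single (n - i)]
      · rw [if_pos (by omega)]
      · intro j _ hj; rw [if_neg (by omega)]
      · intro hj; rw [mem_range] at hj; omega
    · rw [mem_Ico] at h
      exact Finset.sum_eq_zero fun j hj => by rw [mem_range] at hj; rw [if_neg (by omega)]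
  rw [Finset.sum_congr rfl e, Finset.sum_ite_mem, sum_const, range_eq_Ico, Ico_inter_Ico,
    Nat.card_Ico, nsmul_eq_mul, mul_one, pvTent]
  split_ifs with h1 h2
  · congr 1; omega
  · have : min x (n + 1) - max 0 (n + 1 - x) + (n + 1) = 2 * x := by omega
    have := congrArg (Nat.cast : ℕ → ℝ) this
    push_cast at this ⊢
    linarith
  · rw [show min x (n + 1) - max 0 (n + 1 - x) = 0 by omega, Nat.cast_zero]

lemma tent_sum (g : ℕ → ℝ) (x N : ℕ) : ∑ n ∈ range N, pvTent x (n + 1) * g n =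
    ∑ i ∈ range x, ∑ j ∈ range x, if i + j < N then g (i + j) else 0 := by
  simp only [← tent_count, Finset.sum_mul]
  rw [Finset.sum_comm]
  refine Finset.sum_congr rfl fun i _ => ?_
  rw [Finset.sum_comm]
  refine Finset.sum_congr rfl fun j _ => ?_
  simp only [ite_mul, one_mul, zero_mul, Finset.sum_ite_eq, mem_range]

lemma tent_bound {Ξ : ℕ → ℝ} {γ : ℝ} (h : Bil Ξ γ) (h1 : ∀ n, |Ξ n| ≤ 1) (hγ : 0 ≤ γ) {B : ℕ}
    (hB : 1 ≤ B) (x j : ℕ) : |∑ n ∈ range j, pvTent x (n + 1) * Ξ n| ≤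
      γ * x + if (j + 1) / 2 + 1 ≤ x then x * (γ * √((j : ℝ) / B) + B) else 0 := by
  rw [tent_sum]
  split_ifs with c
  · refine (Finset.abs_sum_le_sum_abs _ _).trans (le_trans ?_ (le_add_of_nonneg_left (by positivity)))
    refine (Finset.sum_le_sum (g := fun _ => γ * √((j : ℝ) / B) + B) fun i _ => ?_).trans
      (by rw [sum_const, card_range, nsmul_eq_mul])
    have e : ∑ k ∈ range x, (if i + k < j then Ξ (i + k) else 0) =
        ∑ k ∈ range (min x (j - i)), Ξ (i + k) := by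
      rw [← Finset.sum_filter]
      congr 1
      ext k
      simp only [mem_filter, mem_range]
      omega
    rw [e]
    refine (h.pv h1 hγ i _ hB).trans ?_
    gcongr
    omega
  · have := h 0 x x
    rw [Real.sqrt_mul_self (by positivity)] at this
    rw [add_zero]
    refine le_trans (le_of_eq ?_) this
    congr 1
    refine Finset.sum_congr rfl fun i hi => Finset.sum_congr rfl fun k hk => ?_
    rw [mem_range] at hi hk
    rw [if_pos (by omega), zero_add]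

lemma FX_sum_bound {Ξ : ℕ → ℝ} {γ : ℝ} (h : Bil Ξ γ) (h1 : ∀ n, |Ξ n| ≤ 1) (hγ : 0 ≤ γ) {X B : ℕ}
    (hX : 2 ≤ X) (hB : 1 ≤ B) {j : ℕ} (hj : 2 * X ≤ j) :
    |∑ n ∈ range j, FX X (n + 1) * Ξ n| ≤ γ * sg1 X + (γ / √((B : ℝ) * j) + 2 * B / j) := by
  have hB' : (1 : ℝ) ≤ B := by exact_mod_cast hB
  have hj4 : (4 : ℝ) ≤ j := by exact_mod_cast (show 4 ≤ j by omega)
  have hM : j ≤ j ^ 2 + 1 := by nlinarith
  have e : ∑ n ∈ range j, FX X (n + 1) * Ξ n =
      ∑ x ∈ Ico X (j ^ 2 + 1), pvMu x * ∑ n ∈ range j, pvTent x (n + 1) * Ξ n +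
        ∑ n ∈ range j, ((n + 1 : ℕ) : ℝ) * sg (j ^ 2 + 1) * Ξ n := by
    simp only [Finset.mul_sum, ← mul_assoc]
    rw [Finset.sum_comm, ← Finset.sum_add_distrib]
    refine Finset.sum_congr rfl fun n hn => ?_
    rw [mem_range] at hn
    rw [← Finset.sum_mul, FX_tel hX (by omega) (by omega), FX.eq_1 (j ^ 2 + 1), if_pos (by omega)]
    ring
  have b2 : |∑ n ∈ range j, ((n + 1 : ℕ) : ℝ) * sg (j ^ 2 + 1) * Ξ n| ≤ 1 / j := by
    have s0 : sg (j ^ 2 + 1) = 1 / (4 * (j : ℝ) ^ 2 * (j ^ 2 + 1)) := by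
      unfold sg; push_cast; simp
    refine (Finset.abs_sum_le_sum_abs _ _).trans ((Finset.sum_le_sum
      (g := fun _ => (j : ℝ) * sg (j ^ 2 + 1)) fun n hn => ?_).trans ?_)
    · rw [mem_range] at hn
      have : ((n + 1 : ℕ) : ℝ) ≤ j := by exact_mod_cast hn
      rw [abs_mul, s0, abs_of_nonneg (by positivity)]
      exact (mul_le_of_le_one_right (by positivity) (h1 n)).trans (by gcongr)
    · rw [sum_const, card_range, nsmul_eq_mul, s0, ← mul_assoc, mul_one_div,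
        div_le_div_iff₀ (by positivity) (by positivity)]
      nlinarith [mul_nonneg (sq_nonneg (j : ℝ)) (sq_nonneg ((j : ℝ) - 1)), sq_nonneg ((j : ℝ) ^ 2)]
  have b1 : |∑ x ∈ Ico X (j ^ 2 + 1), pvMu x * ∑ n ∈ range j, pvTent x (n + 1) * Ξ n| ≤
      γ * sg1 X + (γ * √((j : ℝ) / B) + B) * (1 / j) := by
    refine (Finset.abs_sum_le_sum_abs _ _).trans ((Finset.sum_le_sum
      (g := fun x => γ * (pvMu x * x) + (γ * √((j : ℝ) / B) + B) *
        if (j + 1) / 2 + 1 ≤ x then pvMu x * x else 0) fun x hx => ?_).trans ?_)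
    · have m0 := pvMu_nonneg (hX.trans (mem_Ico.1 hx).1)
      rw [abs_mul, abs_of_nonneg m0]
      refine (mul_le_mul_of_nonneg_left (tent_bound h h1 hγ hB x j) m0).trans (le_of_eq ?_)
      split_ifs <;> ring
    · rw [Finset.sum_add_distrib, ← Finset.mul_sum, ← Finset.mul_sum, ← Finset.sum_filter]
      have c1 := mu_tel hX (j ^ 2 + 1)
      have c2 : ∑ x ∈ (Ico X (j ^ 2 + 1)).filter (fun x => (j + 1) / 2 + 1 ≤ x), pvMu x * x ≤
          1 / j := by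
        refine le_trans (Finset.sum_le_sum_of_subset_of_nonneg (t := Ico ((j + 1) / 2 + 1)
          (j ^ 2 + 1)) ?_ ?_) ((mu_tel (by omega) _).trans ((sg1_le (by omega)).trans ?_))
        · intro x hx
          simp only [mem_filter, mem_Ico] at hx ⊢
          omega
        · intro x hx _
          have := pvMu_nonneg (x := x) (by rw [mem_Ico] at hx; omega)
          positivity
        · apply one_div_le_one_div_of_le (by linarith)
          have : ((j : ℕ) : ℝ) ≤ ((2 * ((j + 1) / 2) : ℕ) : ℝ) := by exact_mod_cast (by omega)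
          rw [Nat.cast_mul] at this
          rw [Nat.cast_add, Nat.cast_one, add_sub_cancel_right]
          exact_mod_cast this
      gcongr
  have e2 : γ * √((j : ℝ) / B) * (1 / j) = γ / √((B : ℝ) * j) := by
    rw [Real.sqrt_div (by positivity), Real.sqrt_mul (by positivity)]
    have sB : 0 < √(B : ℝ) := Real.sqrt_pos.2 (by linarith)
    have sM : 0 < √(j : ℝ) := Real.sqrt_pos.2 (by linarith)
    have e : (j : ℝ) = √(j : ℝ) ^ 2 := (Real.sq_sqrt (by linarith)).symm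
    generalize √(j : ℝ) = r at *
    rw [e]
    field_simp
  have e3 : 1 / (j : ℝ) ≤ B * (1 / j) := le_mul_of_one_le_left (by positivity) hB'
  have e4 : 2 * (B : ℝ) / j = 2 * (B * (1 / j)) := by ring
  rw [e]
  refine (abs_add_le _ _).trans ?_
  rw [add_mul, e2] at b1
  linarith

lemma FX_close {X k : ℕ} (hX : 2 ≤ X) (hk : 2 * X ≤ k) :
    |1 / (2 * (k : ℝ) - 1) - FX X k| ≤ (1 / ((k : ℝ) - 1) - 1 / k) / 4 := by
  have h4 : (4 : ℝ) ≤ k := by exact_mod_cast (show 4 ≤ k by omega)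
  have a1 : 0 < (k : ℝ) - 1 := by linarith
  have a2 : 0 < 2 * (k : ℝ) - 1 := by linarith
  have a3 : 0 < (k : ℝ) ^ 2 - 1 := by nlinarith
  have e1 : 1 / (2 * (k : ℝ) - 1) - 1 / (2 * k) = 1 / (k * (2 * (2 * k - 1))) := by
    field_simp; ring
  have e2 : (1 / ((k : ℝ) - 1) - 1 / k) / 4 = 1 / (k * (4 * (k - 1))) := by field_simp; ring
  have l1 : 1 / (k * (2 * (2 * (k : ℝ) - 1))) ≤ 1 / (k * (4 * (k - 1))) :=
    one_div_le_one_div_of_le (by positivity) (by nlinarith)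
  have l2 : 1 / (k * ((k : ℝ) ^ 2 - 1)) ≤ 1 / (k * (2 * (2 * (k : ℝ) - 1))) :=
    one_div_le_one_div_of_le (by positivity) (mul_le_mul_of_nonneg_left (by nlinarith) (by linarith))
  have l3 : 0 ≤ 1 / (k * ((k : ℝ) ^ 2 - 1)) := by positivity
  have l4 : 0 ≤ 1 / (k * (4 * ((k : ℝ) - 1))) := by positivity
  rw [FX, if_neg (by omega), if_neg (by omega), e2, ← sub_sub, e1, abs_le]
  split_ifs <;> constructor <;> linarith

lemma part_bound {Ξ : ℕ → ℝ} {γ : ℝ} (h : Bil Ξ γ) (h1 : ∀ n, |Ξ n| ≤ 1) (hγ : 0 ≤ γ) {X B : ℕ}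
    (hX : 2 ≤ X) (hB : 1 ≤ B) {j : ℕ} (hj : 2 * X ≤ j) :
    |∑ n ∈ range (2 * X - 1), FX X (n + 1) * Ξ n +
      ∑ n ∈ Ico (2 * X - 1) j, 1 / (2 * (n : ℝ) + 1) * Ξ n| ≤
      γ * sg1 X + 1 / (4 * X) + (γ / √((B : ℝ) * j) + 2 * B / j) := by
  have b1 := FX_sum_bound h h1 hγ hX hB hj
  have hK : 2 * X - 1 ≤ j := by omega
  have b2 : ∀ N, 2 * X - 1 ≤ N →
      |∑ n ∈ Ico (2 * X - 1) N, (1 / (2 * (n : ℝ) + 1) - FX X (n + 1)) * Ξ n| ≤
        (1 / ((2 * X - 1 : ℕ) : ℝ) - 1 / N) / 4 := by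
    intro N hN
    induction N, hN using Nat.le_induction with
    | base => simp
    | succ N hN ih =>
      rw [Finset.sum_Ico_succ_top hN]
      have c := FX_close (k := N + 1) hX (by omega)
      push_cast at c ⊢
      rw [show 2 * ((N : ℝ) + 1) - 1 = 2 * N + 1 by ring, add_sub_cancel_right] at c
      have d : |(1 / (2 * (N : ℝ) + 1) - FX X (N + 1)) * Ξ N| ≤
          |1 / (2 * (N : ℝ) + 1) - FX X (N + 1)| := by
        rw [abs_mul]; exact mul_le_of_le_one_right (abs_nonneg _) (h1 N)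
      refine (abs_add_le _ _).trans ?_
      linarith
  have b3 := b2 j hK
  have e : ∑ n ∈ range (2 * X - 1), FX X (n + 1) * Ξ n +
      ∑ n ∈ Ico (2 * X - 1) j, 1 / (2 * (n : ℝ) + 1) * Ξ n = ∑ n ∈ range j, FX X (n + 1) * Ξ n +
      ∑ n ∈ Ico (2 * X - 1) j, (1 / (2 * (n : ℝ) + 1) - FX X (n + 1)) * Ξ n := by
    rw [← Finset.sum_range_add_sum_Ico _ hK]
    simp only [sub_mul, Finset.sum_sub_distrib]
    ring
  have l1 : 1 / ((2 * X - 1 : ℕ) : ℝ) ≤ 1 / X :=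
    one_div_le_one_div_of_le (by positivity) (by exact_mod_cast (by omega))
  have l2 : (0 : ℝ) ≤ 1 / j := by positivity
  have l3 : 1 / (4 * (X : ℝ)) = 1 / X / 4 := by rw [div_div, mul_comm]
  rw [e]
  refine (abs_add_le _ _).trans ?_
  linarith

lemma phi_sum (χ : ℕ → ℝ) (σ : ℝ) {X : ℕ} (hX : 2 ≤ X) :
    ∑ m ∈ Icc 1 (4 * X), phi σ X m * χ m = ∑ n ∈ range (2 * X - 1),
      (((2 * n + 1 : ℕ) : ℝ) ^ (-σ) - (4 * (X : ℝ) - 1) ^ (1 - σ) * FX X (n + 1)) *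
        χ (2 * n + 1) := by
  simp only [phi, ite_mul, zero_mul]
  rw [← Finset.sum_filter]
  symm
  refine Finset.sum_nbij' (fun n => 2 * n + 1) (fun m => m / 2) ?_ ?_ ?_ ?_ ?_
  · intro n hn; simp only [mem_filter, mem_Icc, mem_range] at hn ⊢; omega
  · intro n hn; simp only [mem_filter, mem_Icc, mem_range] at hn ⊢; omega
  · intro n _; omega
  · intro n hn; simp only [mem_filter, mem_Icc] at hn; omega
  · intro n _
    rw [show (2 * n + 1 + 1) / 2 = n + 1 by omega]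

lemma pv_rpow_step {a t : ℝ} (ha : 1 ≤ a) (ht : 0 ≤ t) : a ^ (-t) - (a + 2) ^ (-t) ≤ t * (2 / a) := by
  have a0 : 0 < a := by linarith
  have e : (a + 2) ^ (-t) = a ^ (-t) * (1 + 2 / a) ^ (-t) := by
    rw [← Real.mul_rpow a0.le (by positivity)]; congr 1; field_simp
  have l1 : a ^ (-t) ≤ 1 := Real.rpow_le_one_of_one_le_of_nonpos ha (by linarith)
  have l0 : 0 ≤ a ^ (-t) := by positivity
  have l2 : 1 - t * (2 / a) ≤ (1 + 2 / a) ^ (-t) := by
    rw [Real.rpow_def_of_pos (by positivity)]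
    have b := Real.log_le_sub_one_of_pos (show 0 < 1 + 2 / a by positivity)
    have c := Real.add_one_le_exp (Real.log (1 + 2 / a) * -t)
    nlinarith
  have l3 : 0 ≤ t * (2 / a) := by positivity
  rw [e]
  nlinarith

lemma err_sum {γ : ℝ} (hγ : 0 ≤ γ) {X B : ℕ} (hX : 2 ≤ X) (hB : 1 ≤ B) (J : ℕ) :
    ∑ n ∈ Ico (2 * X - 1) J, 2 / (2 * (n : ℝ) + 1) *
      (γ / √((B : ℝ) * ((n + 1 : ℕ) : ℝ)) + 2 * B / ((n + 1 : ℕ) : ℝ)) ≤
      2 * (γ / √((B : ℝ) * X) + B / X) := by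
  have hB' : (0 : ℝ) < B := by exact_mod_cast hB
  have hX' : (2 : ℝ) ≤ X := by exact_mod_cast hX
  have sB : 0 < √(B : ℝ) := Real.sqrt_pos.2 hB'
  have t : ∀ n ∈ Ico (2 * X - 1) J, 2 / (2 * (n : ℝ) + 1) *
      (γ / √((B : ℝ) * ((n + 1 : ℕ) : ℝ)) + 2 * B / ((n + 1 : ℕ) : ℝ)) ≤
      8 / 7 * (γ / √(B : ℝ)) * ((n + 1 : ℕ) : ℝ) ^ (-(3 / 2) : ℝ) +
        16 / 7 * B * ((n + 1 : ℕ) : ℝ) ^ (-(2 : ℝ)) := by
    intro n hn
    have h3 : (3 : ℝ) ≤ n := by exact_mod_cast (show 3 ≤ n by rw [mem_Ico] at hn; omega)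
    have n0 : (0 : ℝ) < ((n + 1 : ℕ) : ℝ) := by positivity
    have a : 2 / (2 * (n : ℝ) + 1) ≤ 8 / 7 * (((n + 1 : ℕ) : ℝ))⁻¹ := by
      rw [← div_eq_mul_inv, div_le_div_iff₀ (by positivity) n0]; push_cast; linarith
    have e1 : ((n + 1 : ℕ) : ℝ) ^ (-(3 / 2) : ℝ) = (((n + 1 : ℕ) : ℝ))⁻¹ * (√((n + 1 : ℕ) : ℝ))⁻¹ := by
      rw [Real.sqrt_eq_rpow, ← Real.rpow_neg n0.le, ← Real.rpow_neg_one, ← Real.rpow_add n0]
      norm_num
    have e2 : ((n + 1 : ℕ) : ℝ) ^ (-(2 : ℝ)) = (((n + 1 : ℕ) : ℝ))⁻¹ * (((n + 1 : ℕ) : ℝ))⁻¹ := by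
      rw [← Real.rpow_neg_one, ← Real.rpow_add n0]
      norm_num
    refine (mul_le_mul_of_nonneg_right a (by positivity)).trans (le_of_eq ?_)
    rw [e1, e2, Real.sqrt_mul hB'.le]
    field_simp
    ring
  refine (Finset.sum_le_sum t).trans ?_
  rw [Finset.sum_add_distrib, ← Finset.mul_sum, ← Finset.mul_sum,
    Finset.sum_Ico_add' (fun n : ℕ => (n : ℝ) ^ (-(3 / 2) : ℝ)),
    Finset.sum_Ico_add' (fun n : ℕ => (n : ℝ) ^ (-(2 : ℝ)))]
  have a := sum_Ico_rpow (κ := 3 / 2) (by norm_num) (M := 2 * X - 1) (by omega) (J + 1)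
  have b := sum_Ico_rpow (κ := 2) (by norm_num) (M := 2 * X - 1) (by omega) (J + 1)
  have c : ((2 * X - 1 : ℕ) : ℝ) = 2 * X - 1 := by rw [Nat.cast_sub (by omega)]; push_cast; ring
  rw [c] at a b
  have sX : 0 < √(X : ℝ) := Real.sqrt_pos.2 (by linarith)
  have a' : (2 * (X : ℝ) - 1) ^ (1 - 3 / 2 : ℝ) / (3 / 2 - 1) ≤ 7 / 4 * (√(X : ℝ))⁻¹ := by
    rw [show (1 - 3 / 2 : ℝ) = -(1 / 2) by norm_num, Real.rpow_neg (by linarith),
      ← Real.sqrt_eq_rpow, show (3 / 2 - 1 : ℝ) = 1 / 2 by norm_num]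
    have : 8 / 7 * √(X : ℝ) ≤ √(2 * (X : ℝ) - 1) := by
      apply Real.le_sqrt_of_sq_le
      rw [mul_pow, Real.sq_sqrt (by linarith)]
      linarith
    have := inv_anti₀ (by positivity) this
    rw [mul_inv] at this
    linarith
  have b' : (2 * (X : ℝ) - 1) ^ (1 - 2 : ℝ) / (2 - 1) ≤ 7 / 8 * (X : ℝ)⁻¹ := by
    rw [show (1 - 2 : ℝ) = -1 by norm_num, Real.rpow_neg_one]
    have := inv_anti₀ (by positivity) (show 8 / 7 * (X : ℝ) ≤ 2 * X - 1 by linarith)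
    rw [mul_inv] at this
    linarith
  refine (add_le_add (mul_le_mul_of_nonneg_left (a.trans a') (by positivity))
    (mul_le_mul_of_nonneg_left (b.trans b') (by positivity))).trans (le_of_eq ?_)
  rw [Real.sqrt_mul hB'.le]
  field_simp
  ring

/-- Smoothed truncation. -/
theorem TL1 {χ : ℕ → ℝ} {γ σ : ℝ} (h : Bil (fun n => χ (2 * n + 1)) γ) (h1 : ∀ n, |χ n| ≤ 1)
    (hγ : 0 ≤ γ) (hσ : 1 < σ) {X B : ℕ} (hX : 2 ≤ X) (hB : 1 ≤ B) :
    |Lf σ χ - ∑ m ∈ Icc 1 (4 * X), phi σ X m * χ m| ≤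
      γ * sg1 X + 1 / (4 * X) + (σ - 1) * (2 * (γ / √((B : ℝ) * X) + B / X)) := by
  have hX' : (2 : ℝ) ≤ X := by exact_mod_cast hX
  obtain ⟨v, hv⟩ : ∃ v : ℕ → ℝ, ∀ n, v n = (2 * (n : ℝ) + 1) ^ (-(σ - 1)) := ⟨_, fun _ => rfl⟩
  obtain ⟨er, her⟩ : ∃ er : ℕ → ℝ, ∀ j, er j = γ / √((B : ℝ) * j) + 2 * B / j := ⟨_, fun _ => rfl⟩
  have v0 : ∀ n, 0 ≤ v n := fun n => by rw [hv]; positivity
  have v1 : ∀ n, v n ≤ 1 := fun n => by
    rw [hv]
    exact Real.rpow_le_one_of_one_le_of_nonpos (le_add_of_nonneg_left (by positivity)) (by linarith)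
  have v2 : ∀ n, v (n + 1) ≤ v n := fun n => by
    rw [hv, hv]
    exact Real.rpow_le_rpow_of_nonpos (by positivity) (by push_cast; linarith) (by linarith)
  have v3 : ∀ n, v n - v (n + 1) ≤ (σ - 1) * (2 / (2 * (n : ℝ) + 1)) := fun n => by
    rw [hv, hv]
    have := pv_rpow_step (a := 2 * (n : ℝ) + 1) (t := σ - 1) (le_add_of_nonneg_left (by positivity))
      (by linarith)
    rwa [show 2 * ((n + 1 : ℕ) : ℝ) + 1 = 2 * n + 1 + 2 by push_cast; ring]
  have vK : v (2 * X - 1) = (4 * (X : ℝ) - 1) ^ (1 - σ) := by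
    rw [hv, Nat.cast_sub (by omega)]
    congr 1 <;> push_cast <;> ring
  have er0 : ∀ j, 0 ≤ er j := fun j => by rw [her]; positivity
  have c0 : 0 ≤ γ * sg1 X + 1 / (4 * X) := by have := sg1_nonneg hX; positivity
  have lim1 := ((Lf_tendsto h1 hσ (2 * X - 1)).const_add ((4 * (X : ℝ) - 1) ^ (1 - σ) *
    ∑ n ∈ range (2 * X - 1), FX X (n + 1) * χ (2 * n + 1))).abs
  have lim2 : Filter.Tendsto er Filter.atTop (nhds 0) := by
    have hB' : (0 : ℝ) < B := by exact_mod_cast hB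
    have a : Filter.Tendsto (fun j : ℕ => γ / √((B : ℝ) * j)) Filter.atTop (nhds 0) :=
      Filter.Tendsto.const_div_atTop (Real.tendsto_sqrt_atTop.comp
        (tendsto_natCast_atTop_atTop.const_mul_atTop hB')) γ
    have b := a.add (tendsto_const_div_atTop_nhds_zero_nat (2 * (B : ℝ)))
    rw [add_zero] at b
    exact b.congr fun j => (her j).symm
  have lim3 := lim2.const_add
    (γ * sg1 X + 1 / (4 * X) + (σ - 1) * (2 * (γ / √((B : ℝ) * X) + B / X)))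
  rw [add_zero] at lim3
  refine le_trans (le_of_eq ?_) (le_of_tendsto_of_tendsto lim1 lim3 ?_)
  · rw [phi_sum χ σ hX]
    simp only [sub_mul, Finset.sum_sub_distrib, mul_assoc, ← Finset.mul_sum]
    congr 1
    ring
  filter_upwards [Filter.eventually_ge_atTop (2 * X)] with J hJ
  have k := abel_le v (fun n => 1 / (2 * (n : ℝ) + 1) * χ (2 * n + 1))
    (fun j => γ * sg1 X + 1 / (4 * X) + er j) (∑ n ∈ range (2 * X - 1), FX X (n + 1) * χ (2 * n + 1))
    (M := 2 * X - 1) (J := J) (by omega) (v0 J) (fun n _ => v2 n)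
    (by rw [her]; exact part_bound h (fun n => h1 _) hγ hX hB hJ)
    (fun n hn => by rw [her]; exact part_bound h (fun n => h1 _) hγ hX hB (by omega))
  have e : ∑ n ∈ Ico (2 * X - 1) J, v n * (1 / (2 * (n : ℝ) + 1) * χ (2 * n + 1)) =
      ∑ n ∈ Ico (2 * X - 1) J, ((2 * n + 1 : ℕ) : ℝ) ^ (-σ) * χ (2 * n + 1) := by
    refine Finset.sum_congr rfl fun n _ => ?_
    rw [hv, ← mul_assoc, one_div, ← Real.rpow_neg_one, ← Real.rpow_add (by positivity)]
    push_cast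
    congr 2
    ring
  rw [e, vK] at k
  refine k.trans ?_
  simp only [mul_add (_ - _) (γ * sg1 X + 1 / (4 * X)), Finset.sum_add_distrib, ← Finset.sum_mul]
  have t1 : ∑ n ∈ Ico (2 * X - 1) J, (v n - v (n + 1)) = v (2 * X - 1) - v J := by
    have := abel_id2 v (fun _ => 1) (M := 2 * X - 1) (J := J) (by omega)
    simp only [mul_one, sub_self, mul_zero, sum_const_zero] at this
    linarith
  have t2 : ∑ n ∈ Ico (2 * X - 1) J, (v n - v (n + 1)) * er (n + 1) ≤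
      (σ - 1) * (2 * (γ / √((B : ℝ) * X) + B / X)) := by
    refine le_trans ?_ (mul_le_mul_of_nonneg_left (err_sum hγ hX hB J) (by linarith))
    rw [Finset.mul_sum]
    refine Finset.sum_le_sum fun n _ => ?_
    rw [← her, ← mul_assoc]
    exact mul_le_mul_of_nonneg_right (v3 n) (er0 _)
  rw [t1]
  have t3 := mul_le_of_le_one_left (er0 J) (v1 J)
  have t4 := mul_le_of_le_one_left c0 (v1 (2 * X - 1))
  nlinarith

lemma FX_bounds {X k : ℕ} (hX : 32 ≤ X) (h1 : 1 ≤ k) (hk : k < 2 * X) :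
    0 ≤ FX X k ∧ FX X k ≤ 1 / (2 * (k : ℝ) - 1) ∧ FX X k ≤ 1 / (3 * X) := by
  have hX' : (32 : ℝ) ≤ X := by exact_mod_cast hX
  have h1' : (1 : ℝ) ≤ k := by exact_mod_cast h1
  have a1 : 0 < (X : ℝ) - 1 := by linarith
  have a2 : 0 < 2 * (k : ℝ) - 1 := by linarith
  unfold FX
  split_ifs with c
  · have c' : (k : ℝ) ≤ X := by exact_mod_cast c
    rw [sg, mul_one_div]
    refine ⟨by positivity, ?_, ?_⟩ <;> rw [div_le_div_iff₀ (by positivity) (by positivity)] <;>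
      nlinarith
  · have c' : (X : ℝ) + 1 ≤ k := by exact_mod_cast (show X + 1 ≤ k by omega)
    have c2 : (k : ℝ) + 1 ≤ 2 * X := by exact_mod_cast hk
    have e : -1 / (2 * (k : ℝ)) + 2 * sg1 X - k * sg X =
        (k * (4 * X - 2 - k) - 2 * X * (X - 1)) / (4 * k * X * (X - 1)) := by
      unfold sg sg1; field_simp; ring
    rw [e]
    refine ⟨div_nonneg (by nlinarith) (by positivity), ?_, ?_⟩
    · rw [div_le_div_iff₀ (by positivity) (by positivity)]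
      have := mul_nonneg a2.le (sq_nonneg ((k : ℝ) - (2 * X - 1)))
      nlinarith
    · rw [div_le_div_iff₀ (by positivity) (by positivity)]
      have : 0 ≤ 3 * (k : ℝ) ^ 2 - (8 * X - 2) * k + 6 * X * (X - 1) := by
        nlinarith [sq_nonneg (3 * (k : ℝ) - (4 * X - 1))]
      have := mul_nonneg this (show (0 : ℝ) ≤ X by linarith)
      nlinarith

lemma phi_bounds {σ : ℝ} (hσ : 1 ≤ σ) {X : ℕ} (hX : 32 ≤ X) {m : ℕ} (hm : m % 2 = 1) :
    0 ≤ phi σ X m ∧ phi σ X m ≤ (m : ℝ) ^ (-σ) ∧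
      (m : ℝ) ^ (-σ) - phi σ X m ≤ 1 / (3 * X) := by
  have hX' : (32 : ℝ) ≤ X := by exact_mod_cast hX
  have m1 : (1 : ℝ) ≤ m := by exact_mod_cast (show 1 ≤ m by omega)
  unfold phi
  split_ifs with c
  · obtain ⟨f0, f1, f2⟩ := FX_bounds (k := (m + 1) / 2) hX (by omega) (by omega)
    have e : 2 * (((m + 1) / 2 : ℕ) : ℝ) - 1 = m := by
      have : 2 * ((m + 1) / 2) = m + 1 := by omega
      have := congrArg (Nat.cast : ℕ → ℝ) this
      push_cast at this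
      linarith
    rw [e] at f1
    have c' : (m : ℝ) + 1 ≤ 4 * X := by exact_mod_cast c.2.le
    have H0 : 0 ≤ (4 * (X : ℝ) - 1) ^ (1 - σ) := Real.rpow_nonneg (by linarith) _
    have H1 : (4 * (X : ℝ) - 1) ^ (1 - σ) ≤ 1 :=
      Real.rpow_le_one_of_one_le_of_nonpos (by linarith) (by linarith)
    have H2 : (4 * (X : ℝ) - 1) ^ (1 - σ) ≤ (m : ℝ) ^ (1 - σ) :=
      Real.rpow_le_rpow_of_nonpos (by linarith) (by linarith) (by linarith)
    have e2 : (m : ℝ) ^ (1 - σ) * (1 / m) = (m : ℝ) ^ (-σ) := by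
      rw [one_div, ← Real.rpow_neg_one, ← Real.rpow_add (by linarith)]; congr 1; ring
    have l1 := mul_le_mul H2 f1 f0 (H0.trans H2)
    have l2 := mul_nonneg H0 f0
    have l3 := mul_le_of_le_one_left f0 H1
    exact ⟨by linarith, by linarith, by linarith⟩
  · have c' : 4 * (X : ℝ) ≤ m + 1 := by exact_mod_cast (show 4 * X ≤ m + 1 by omega)
    refine ⟨le_rfl, by positivity, ?_⟩
    rw [sub_zero]
    refine (Real.rpow_le_rpow_of_exponent_le m1 (show -σ ≤ -1 by linarith)).trans ?_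
    rw [Real.rpow_neg_one, one_div]
    exact inv_anti₀ (by positivity) (by linarith)

lemma weight_le {t : ℝ} (ht : 0 < t) {X n M : ℕ} (hX : 1024 ≤ X) (hn : 2 * X ≤ n)
    (hM : 4 * (n + 1) ≤ M) : ((2 * n + 1 : ℕ) : ℝ) ^ (-1 - t) ≤
      1.035 * ∑ x ∈ Ico X M, pvMu x * ((x : ℝ) / 4) ^ (-t) * pvTent x (n + 1) := by
  have hn' : (2048 : ℝ) ≤ n := by exact_mod_cast (show 2048 ≤ n by omega)
  have a : ((n + 1 : ℕ) : ℝ) ^ (-t) * (FX X (n + 1) - FX (4 * (n + 1)) (n + 1)) ≤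
      ∑ x ∈ Ico X M, pvMu x * ((x : ℝ) / 4) ^ (-t) * pvTent x (n + 1) := by
    rw [← FX_tel (by omega) (by omega) (by omega), Finset.mul_sum]
    refine le_trans (Finset.sum_le_sum fun x hx => ?_)
      (Finset.sum_le_sum_of_subset_of_nonneg (Ico_subset_Ico_right hM) fun x hx _ => ?_)
    · rw [mem_Ico] at hx
      have m0 := pvMu_nonneg (x := x) (by omega)
      have t0 := pvTent_nonneg x (n + 1)
      have x0 : (0 : ℝ) < x := by exact_mod_cast (show 0 < x by omega)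
      have x1 : (x : ℝ) ≤ 4 * ((n + 1 : ℕ) : ℝ) := by exact_mod_cast hx.2.le
      have : ((n + 1 : ℕ) : ℝ) ^ (-t) ≤ ((x : ℝ) / 4) ^ (-t) :=
        Real.rpow_le_rpow_of_nonpos (by positivity) (by linarith) (by linarith)
      rw [mul_right_comm, mul_comm]
      exact mul_le_mul_of_nonneg_left this (mul_nonneg m0 t0)
    · have m0 := pvMu_nonneg (x := x) (by rw [mem_Ico] at hx; omega)
      have t0 := pvTent_nonneg x (n + 1)
      positivity
  have b : (2 * (n : ℝ) + 1)⁻¹ ≤ 1.035 * (FX X (n + 1) - FX (4 * (n + 1)) (n + 1)) := by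
    have f1 : 1 / (2 * ((n : ℝ) + 1)) ≤ FX X (n + 1) := by
      rw [FX, if_neg (by omega), if_neg (by omega)]
      push_cast
      have : 0 < ((n : ℝ) + 1) ^ 2 - 1 := by nlinarith
      split_ifs
      · exact le_add_of_nonneg_right (by positivity)
      · rw [add_zero]
    have f2 : FX (4 * (n + 1)) (n + 1) = 1 / (16 * (4 * (n : ℝ) + 3)) := by
      rw [FX, if_pos (by omega), sg]
      push_cast
      rw [show 4 * ((n : ℝ) + 1) - 1 = 4 * n + 3 by ring]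
      field_simp
      ring
    have f3 : (2 * (n : ℝ) + 1)⁻¹ ≤ 1.001 * (1 / (2 * ((n : ℝ) + 1))) := by
      rw [← one_div, mul_one_div, div_le_div_iff₀ (by positivity) (by positivity)]; linarith
    have f4 : 1 / (16 * (4 * (n : ℝ) + 3)) ≤ 0.032 * (1 / (2 * ((n : ℝ) + 1))) := by
      rw [mul_one_div, div_le_div_iff₀ (by positivity) (by positivity)]; linarith
    have f5 : 0 ≤ 1 / (2 * ((n : ℝ) + 1)) := by positivity
    rw [f2]
    linarith
  have c : ((2 * n + 1 : ℕ) : ℝ) ^ (-t) ≤ ((n + 1 : ℕ) : ℝ) ^ (-t) :=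
    Real.rpow_le_rpow_of_nonpos (by positivity) (by push_cast; linarith) (by linarith)
  have e : ((2 * n + 1 : ℕ) : ℝ) ^ (-1 - t) = ((2 * n + 1 : ℕ) : ℝ) ^ (-t) * (2 * (n : ℝ) + 1)⁻¹ := by
    rw [show -1 - t = -t + -1 by ring, Real.rpow_add (by positivity), Real.rpow_neg_one]
    push_cast
    rfl
  rw [e]
  refine (mul_le_mul c b (by positivity) (by positivity)).trans ?_
  linarith

/-- A mean square over a half line from mean squares over tents. -/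
theorem tail_weight {f : ℕ → ℝ} (hf : ∀ n, 0 ≤ f n) {q o t : ℝ} (hq : 0 ≤ q) (ho : 0 ≤ o)
    (ht : 0 < t) (h : ∀ A : ℕ, ∑ i ∈ range A, ∑ j ∈ range A, f (i + j) ≤ A ^ 2 * q + A * o)
    {X : ℕ} (hX : 1024 ≤ X) (J : ℕ) :
    ∑ n ∈ Ico (2 * X) J, ((2 * n + 1 : ℕ) : ℝ) ^ (-1 - t) * f n ≤
      1.04 * (q / (2 * t) + o / (2 * ((X : ℝ) - 1))) := by
  have hX' : (1024 : ℝ) ≤ X := by exact_mod_cast hX
  have nu0 : ∀ x ∈ Ico X (4 * J + 4), 0 ≤ pvMu x * ((x : ℝ) / 4) ^ (-t) := fun x hx => by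
    have m0 := pvMu_nonneg (x := x) (by rw [mem_Ico] at hx; omega)
    positivity
  have s1 : ∑ n ∈ Ico (2 * X) J, ((2 * n + 1 : ℕ) : ℝ) ^ (-1 - t) * f n ≤
      1.035 * ∑ x ∈ Ico X (4 * J + 4), pvMu x * ((x : ℝ) / 4) ^ (-t) * (x ^ 2 * q + x * o) := by
    calc _ ≤ ∑ n ∈ Ico (2 * X) J, (1.035 * ∑ x ∈ Ico X (4 * J + 4),
            pvMu x * ((x : ℝ) / 4) ^ (-t) * pvTent x (n + 1)) * f n :=
          Finset.sum_le_sum fun n hn => mul_le_mul_of_nonneg_right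
            (weight_le ht hX (mem_Ico.1 hn).1 (by have := (mem_Ico.1 hn).2; omega)) (hf n)
      _ ≤ ∑ n ∈ range J, (1.035 * ∑ x ∈ Ico X (4 * J + 4),
            pvMu x * ((x : ℝ) / 4) ^ (-t) * pvTent x (n + 1)) * f n :=
          Finset.sum_le_sum_of_subset_of_nonneg
            (fun n hn => mem_range.2 (mem_Ico.1 hn).2) fun n _ _ => mul_nonneg (mul_nonneg
              (by norm_num) (Finset.sum_nonneg fun x hx =>
                mul_nonneg (nu0 x hx) (pvTent_nonneg _ _))) (hf n)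
      _ = 1.035 * ∑ x ∈ Ico X (4 * J + 4), pvMu x * ((x : ℝ) / 4) ^ (-t) *
            ∑ n ∈ range J, pvTent x (n + 1) * f n := by
          simp only [Finset.mul_sum, Finset.sum_mul, mul_assoc]
          rw [Finset.sum_comm]
      _ ≤ _ := by
          refine mul_le_mul_of_nonneg_left (Finset.sum_le_sum fun x hx =>
            mul_le_mul_of_nonneg_left ?_ (nu0 x hx)) (by norm_num)
          rw [tent_sum]
          refine le_trans (Finset.sum_le_sum fun i _ => Finset.sum_le_sum fun j _ => ?_) (h x)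
          split_ifs
          · exact le_rfl
          · exact hf _
  have s2 : ∑ x ∈ Ico X (4 * J + 4), pvMu x * ((x : ℝ) / 4) ^ (-t) * x ≤ 1 / (2 * ((X : ℝ) - 1)) := by
    refine le_trans (Finset.sum_le_sum fun x hx => ?_)
      ((mu_tel (by omega) (4 * J + 4)).trans (sg1_le (by omega)))
    have hx := (mem_Ico.1 hx).1
    have m0 := pvMu_nonneg (x := x) (by omega)
    have x0 : (X : ℝ) ≤ x := by exact_mod_cast hx
    rw [mul_right_comm]
    exact mul_le_of_le_one_right (by positivity)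
      (Real.rpow_le_one_of_one_le_of_nonpos (by linarith) (by linarith))
  have s3 : ∑ x ∈ Ico X (4 * J + 4), pvMu x * ((x : ℝ) / 4) ^ (-t) * x ^ 2 ≤
      1.001 * (1 / (2 * t)) := by
    have a := sum_Ico_rpow (κ := 1 + t) (by linarith) (M := X - 1) (by omega) (4 * J + 4)
    rw [show X - 1 + 1 = X by omega, Nat.cast_sub (by omega), show 1 - (1 + t) = -t by ring,
      show 1 + t - 1 = t by ring, Nat.cast_one] at a
    have b : (4 : ℝ) ^ t * ((X : ℝ) - 1) ^ (-t) ≤ 1 := by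
      rw [Real.rpow_neg (by linarith), ← div_eq_mul_inv, div_le_one (Real.rpow_pos_of_pos
        (by linarith) _)]
      exact Real.rpow_le_rpow (by norm_num) (by linarith) ht.le
    calc _ ≤ ∑ x ∈ Ico X (4 * J + 4), 1.001 / 2 * 4 ^ t * (x : ℝ) ^ (-(1 + t)) := by
          refine Finset.sum_le_sum fun x hx => ?_
          have x0 : (X : ℝ) ≤ x := by exact_mod_cast (mem_Ico.1 hx).1
          have x1 : (0 : ℝ) < x := by linarith
          have x2 : (0 : ℝ) < x - 1 := by linarith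
          have c : pvMu x * x ^ 2 ≤ 1.001 / 2 * (x : ℝ)⁻¹ := by
            rw [pvMu, one_div_mul_eq_div, ← div_eq_mul_inv,
              div_le_div_iff₀ (by positivity) (by positivity)]
            have : 0 ≤ (x : ℝ) * (0.001 * x ^ 2 - 1.001) := mul_nonneg x1.le (by nlinarith)
            nlinarith
          have e : ((x : ℝ) / 4) ^ (-t) = 4 ^ t * (x : ℝ) ^ (-t) := by
            rw [Real.div_rpow x1.le (by norm_num), Real.rpow_neg (by norm_num : (0 : ℝ) ≤ 4)]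
            field_simp
          rw [mul_right_comm, e, show -(1 + t) = -1 + -t by ring, Real.rpow_add x1,
            Real.rpow_neg_one]
          refine (mul_le_mul_of_nonneg_right c (by positivity)).trans (le_of_eq ?_)
          ring
      _ ≤ 1.001 / 2 * 4 ^ t * (((X : ℝ) - 1) ^ (-t) / t) := by
          rw [← Finset.mul_sum]
          exact mul_le_mul_of_nonneg_left a (by positivity)
      _ = 1.001 * (1 / (2 * t)) * (4 ^ t * ((X : ℝ) - 1) ^ (-t)) := by field_simp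
      _ ≤ _ := mul_le_of_le_one_right (by positivity) b
  have e : ∑ x ∈ Ico X (4 * J + 4), pvMu x * ((x : ℝ) / 4) ^ (-t) * (x ^ 2 * q + x * o) =
      (∑ x ∈ Ico X (4 * J + 4), pvMu x * ((x : ℝ) / 4) ^ (-t) * x ^ 2) * q +
      (∑ x ∈ Ico X (4 * J + 4), pvMu x * ((x : ℝ) / 4) ^ (-t) * x) * o := by
    rw [Finset.sum_mul, Finset.sum_mul, ← Finset.sum_add_distrib]
    exact Finset.sum_congr rfl fun x _ => by ring
  rw [e] at s1
  have s4 := mul_le_mul_of_nonneg_right s3 hq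
  have s5 := mul_le_mul_of_nonneg_right s2 ho
  have x2 : (0 : ℝ) < X - 1 := by linarith
  have p1 : 0 ≤ 1 / (2 * t) * q := by positivity
  have p2 : 0 ≤ 1 / (2 * ((X : ℝ) - 1)) * o := by positivity
  rw [← one_div_mul_eq_div (2 * t), ← one_div_mul_eq_div (2 * ((X : ℝ) - 1))]
  linarith

end Pool.Agent.MP_5d10af_nt
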