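import Pool.Agent.MP_5d10af_nt.Mg.WinA
import Pool.Agent.MP_5d10af_nt.Mg.PV

/-!
Bounds for the coefficient sequence of a window.
-/

set_option autoImplicit false

namespace Pool.Agent.MP_5d10af_nt

open Finset

namespace WinA

lemma xx_pos (σ : ℝ) {p : ℕ} (hp : 0 < p) : 0 < xx σ p :=
  Real.rpow_pos_of_pos (Nat.cast_pos.mpr hp) _

lemma xx_le {σ : ℝ} (hσ : 1 ≤ σ) {p : ℕ} (hp : 0 < p) : xx σ p ≤ 1 / p := by
  have h1 : (1 : ℝ) ≤ p := Nat.one_le_cast.mpr hp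
  calc xx σ p ≤ (p : ℝ) ^ (-1 : ℝ) := Real.rpow_le_rpow_of_exponent_le h1 (by linarith)
    _ = 1 / p := by rw [Real.rpow_neg_one, one_div]

lemma gg_eq (σ : ℝ) {p : ℕ} (hp : 0 < p) : gg σ p = xx σ p / (2 + xx σ p) := by
  have h : (0 : ℝ) < (p : ℝ) ^ σ := Real.rpow_pos_of_pos (Nat.cast_pos.mpr hp) _
  unfold gg xx
  rw [Real.rpow_neg (Nat.cast_nonneg _)]
  field_simp

lemma gg_pos (σ : ℝ) (p : ℕ) : 0 < gg σ p := by
  have h : (0 : ℝ) ≤ (p : ℝ) ^ σ := Real.rpow_nonneg (Nat.cast_nonneg _) _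
  unfold gg; positivity

lemma gg_le {σ : ℝ} (hσ : 1 ≤ σ) {p : ℕ} (hp : 0 < p) : gg σ p ≤ 1 / (2 * (p : ℝ) + 1) := by
  have h1 : (1 : ℝ) ≤ p := Nat.one_le_cast.mpr hp
  have h2 : (p : ℝ) ≤ (p : ℝ) ^ σ := by
    calc (p : ℝ) = (p : ℝ) ^ (1 : ℝ) := (Real.rpow_one _).symm
      _ ≤ _ := Real.rpow_le_rpow_of_exponent_le h1 hσ
  unfold gg
  exact one_div_le_one_div_of_le (by positivity) (by linarith)

lemma sub_le_aux {x P : ℝ} (hx : 0 < x) (hP : 0 < P) (h : x ≤ 1 / P) :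
    x - x / (2 + x) ≤ (P + 1) / (P * (2 * P + 1)) := by
  have hy : x * P ≤ 1 := by rwa [le_div_iff₀ hP] at h
  have e : x - x / (2 + x) = x * (1 + x) / (2 + x) := by field_simp; ring
  rw [e, div_le_div_iff₀ (by positivity) (by positivity)]
  have h1 : 0 ≤ 1 - x * P := by linarith
  nlinarith [mul_nonneg h1 hx.le, mul_nonneg h1 hP.le, mul_nonneg (mul_nonneg h1 hx.le) hP.le,
    mul_pos hx hP]

lemma abs_gx {σ : ℝ} (hσ : 1 ≤ σ) {p : ℕ} (hp : 0 < p) :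
    |gg σ p - xx σ p| ≤ ((p : ℝ) + 1) / (p * (2 * p + 1)) := by
  have hx := xx_pos σ hp
  have h1 : gg σ p ≤ xx σ p := by
    rw [gg_eq σ hp]; exact div_le_self hx.le (by linarith)
  rw [abs_sub_comm, abs_of_nonneg (by linarith), gg_eq σ hp]
  exact sub_le_aux hx (Nat.cast_pos.mpr hp) (xx_le hσ hp)

lemma abs_gx' {σ : ℝ} (hσ : 1 ≤ σ) {p : ℕ} (hp : 0 < p) :
    |gg σ p * xx σ p| ≤ 1 / (p * (2 * (p : ℝ) + 1)) := by
  have hx := xx_pos σ hp
  have hg := gg_pos σ p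
  have hp' : (0 : ℝ) < p := Nat.cast_pos.mpr hp
  rw [abs_of_nonneg (by positivity)]
  calc gg σ p * xx σ p ≤ 1 / (2 * (p : ℝ) + 1) * (1 / p) :=
        mul_le_mul (gg_le hσ hp) (xx_le hσ hp) hx.le (by positivity)
    _ = _ := by field_simp

lemma sqrt_Qf_TL {σ : ℝ} (hσ : 1 ≤ σ) (M : ℕ) {l : List ℕ} (hl : ∀ p ∈ l, 0 < p) (f : ℕ → ℝ) :
    √(Qf M (TL σ l f)) ≤
      (l.map fun p : ℕ => 1 + ((p : ℝ) + 2) / (p * (2 * p + 1))).prod * √(Qf M f) := by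
  refine fold_le (fun f => √(Qf M f)) _ _ l (fun p _ => by positivity) (fun p hp f => ?_) f
  have h0 := hl p hp
  have hp' : (0 : ℝ) < p := Nat.cast_pos.mpr h0
  refine le_trans (Qf_Tp h0 M _ _ f) (mul_le_mul_of_nonneg_right ?_ (Real.sqrt_nonneg _))
  have h1 := abs_gx hσ h0
  have h2 := abs_gx' hσ h0
  have e : ((p : ℝ) + 2) / (p * (2 * p + 1)) =
      ((p : ℝ) + 1) / (p * (2 * p + 1)) + 1 / (p * (2 * (p : ℝ) + 1)) := by ring
  linarith

lemma sqrt_aux {p : ℕ} (hp : 0 < p) :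
    ((p : ℝ) + 1) / (p * (2 * p + 1)) * √(p : ℝ) = ((p : ℝ) + 1) / (√(p : ℝ) * (2 * p + 1)) := by
  have hp' : (0 : ℝ) < p := Nat.cast_pos.mpr hp
  have hs : 0 < √(p : ℝ) := Real.sqrt_pos.mpr hp'
  have h2 : √(p : ℝ) * √(p : ℝ) = p := Real.mul_self_sqrt hp'.le
  rw [div_mul_eq_mul_div, div_eq_div_iff (by positivity) (by positivity)]
  calc ((p : ℝ) + 1) * √(p : ℝ) * (√(p : ℝ) * (2 * p + 1))
      = ((p : ℝ) + 1) * ((√(p : ℝ) * √(p : ℝ)) * (2 * p + 1)) := by ring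
    _ = _ := by rw [h2]

lemma Sf_TL {σ : ℝ} (hσ : 1 ≤ σ) (M : ℕ) {l : List ℕ} (hl : ∀ p ∈ l, 0 < p) (f : ℕ → ℝ) :
    Sf M (TL σ l f) ≤ (l.map fun p : ℕ =>
      1 + ((p : ℝ) + 1) / (√(p : ℝ) * (2 * p + 1)) + 1 / (2 * p + 1)).prod * Sf M f := by
  refine fold_le (fun f => Sf M f) _ _ l (fun p _ => by positivity) (fun p hp f => ?_) f
  have h0 := hl p hp
  have hp' : (0 : ℝ) < p := Nat.cast_pos.mpr h0
  refine le_trans (Sf_Tp h0 M _ _ f) (mul_le_mul_of_nonneg_right ?_ (Sf_nonneg M f))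
  have h1 := mul_le_mul_of_nonneg_right (abs_gx hσ h0) (Real.sqrt_nonneg (p : ℝ))
  have h2 := mul_le_mul_of_nonneg_right (abs_gx' hσ h0) hp'.le
  rw [sqrt_aux h0] at h1
  have e : 1 / (p * (2 * (p : ℝ) + 1)) * p = 1 / (2 * p + 1) := by field_simp
  linarith

lemma Sf_PL {σ : ℝ} (hσ : 1 ≤ σ) (M : ℕ) {l : List ℕ} (hl : ∀ p ∈ l, 0 < p) (f : ℕ → ℝ) :
    Sf M (PL σ l f) ≤ (l.map fun p : ℕ =>
      1 + ((p : ℝ) + 1) / (√(p : ℝ) * (2 * p + 1)) + 1 / (2 * p + 1)).prod * Sf M f := by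
  refine fold_le (fun f => Sf M f) _ _ l (fun p _ => by positivity) (fun p hp f => ?_) f
  have h0 := hl p hp
  have hp' : (0 : ℝ) < p := Nat.cast_pos.mpr h0
  refine le_trans (Sf_Pop h0 M _ f) (mul_le_mul_of_nonneg_right ?_ (Sf_nonneg M f))
  have h1 : |gg σ p| ≤ ((p : ℝ) + 1) / (p * (2 * p + 1)) := by
    rw [abs_of_pos (gg_pos σ p)]
    refine le_trans (gg_le hσ h0) ?_
    rw [div_le_div_iff₀ (by positivity) (by positivity)]
    nlinarith
  have h2 := mul_le_mul_of_nonneg_right h1 (Real.sqrt_nonneg (p : ℝ))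
  rw [sqrt_aux h0] at h2
  have : (0 : ℝ) ≤ 1 / (2 * p + 1) := by positivity
  linarith

lemma prod_gg_le {σ : ℝ} (hσ : 1 ≤ σ) (Z : Finset ℕ) (hZ : ∀ p ∈ Z, p.Prime ∧ p % 2 = 1) :
    ∏ p ∈ Z, (1 + gg σ p ^ 2) ≤ 1.03 ^ 2 := by
  have h1 : ∏ p ∈ Z, (1 + gg σ p ^ 2) ≤ Real.exp (∑ p ∈ Z, gg σ p ^ 2) := by
    rw [Real.exp_sum]
    refine Finset.prod_le_prod (fun p _ => by positivity) fun p _ => ?_
    have := Real.add_one_le_exp (gg σ p ^ 2)
    linarith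
  have h2 : ∑ p ∈ Z, gg σ p ^ 2 ≤ 1 / 49 + 1 / 32 := by
    rw [← Finset.sum_filter_add_sum_filter_not Z (fun p => p = 3)]
    refine add_le_add ?_ ?_
    · refine le_trans (Finset.sum_le_sum_of_subset_of_nonneg (t := {3})
        (fun p hp => by simpa using (Finset.mem_filter.mp hp).2) fun _ _ _ => by positivity) ?_
      rw [Finset.sum_singleton]
      have h3 := gg_le hσ (p := 3) (by norm_num)
      have h4 := gg_pos σ 3
      have : gg σ 3 ≤ 1 / 7 := by refine le_trans h3 (by norm_num)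
      nlinarith
    · have h5 := sum_odd_inv_sq (z := 4) (by norm_num) (Z.filter fun p => ¬ p = 3) (by
        intro n hn
        obtain ⟨hn, hn3⟩ := Finset.mem_filter.mp hn
        obtain ⟨hp, hp2⟩ := hZ n hn
        have := hp.two_le
        omega)
      have h6 : ∑ p ∈ Z.filter (fun p => ¬ p = 3), gg σ p ^ 2 ≤
          ∑ p ∈ Z.filter (fun p => ¬ p = 3), 1 / 4 * (1 / (p : ℝ) ^ 2) := by
        refine Finset.sum_le_sum fun p hp => ?_
        have h0 := (hZ p (Finset.mem_filter.mp hp).1).1.pos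
        have hp' : (0 : ℝ) < p := Nat.cast_pos.mpr h0
        have h7 : gg σ p ≤ 1 / (2 * (p : ℝ)) :=
          le_trans (gg_le hσ h0) (one_div_le_one_div_of_le (by positivity) (by linarith))
        calc gg σ p ^ 2 ≤ (1 / (2 * (p : ℝ))) ^ 2 := pow_le_pow_left₀ (gg_pos σ p).le h7 2
          _ = _ := by field_simp; norm_num
      rw [← Finset.mul_sum] at h6
      norm_num at h5 h6 ⊢
      linarith
  have h3 : Real.exp (1 / 49 + 1 / 32) ≤ 1 / (1 - (1 / 49 + 1 / 32)) :=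
    Real.exp_bound_div_one_sub_of_interval (by norm_num) (by norm_num)
  calc _ ≤ _ := h1
    _ ≤ Real.exp (1 / 49 + 1 / 32) := Real.exp_le_exp.mpr h2
    _ ≤ _ := h3
    _ ≤ _ := by norm_num

noncomputable def dd (n : ℕ) : ℝ := if n = 1 then 1 else 0

noncomputable def uu (σ : ℝ) (l : List ℕ) (n : ℕ) : ℝ :=
  1 * (1 / 2 * dd n + 1 / 2 * (aa σ n * RR l n)) + (-1) * (GG σ n * RR l n)

noncomputable def DD (σ : ℝ) (A n : ℕ) : ℝ := if n ≤ A then GG σ n else 0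

noncomputable def GA (σ : ℝ) (A n : ℕ) : ℝ := if n ≤ A then 0 else GG σ n

noncomputable def bb (σ : ℝ) (l : List ℕ) (X A n : ℕ) : ℝ :=
  1 / 2 * PL σ l dd n + 1 / 2 * TL σ l (phi σ X) n + (-1) * DD σ A n

lemma bb_eq (σ : ℝ) {l : List ℕ} (hl : ∀ p ∈ l, p.Prime ∧ p % 2 = 1) (hnd : l.Nodup) (X A : ℕ) :
    bb σ l X A = fun n => (PL σ l (uu σ l) n + GA σ A n) +
      (-(1 / 2)) * TL σ l (fun m => 1 * aa σ m + (-1) * phi σ X m) n := by
  funext n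
  have h1 : PL σ l (uu σ l) = _ := PL_lin σ l 1 (-1) _ _
  rw [h1, PL_lin, TL_lin, PL_GG σ hl hnd, ← TL_aa σ hl hnd]
  simp only [bb, DD, GA]
  split_ifs <;> ring

lemma aa_le {σ : ℝ} (hσ : 1 ≤ σ) {n : ℕ} (hn : 0 < n) : 0 ≤ aa σ n ∧ aa σ n ≤ 1 / n := by
  unfold aa
  split_ifs
  · exact ⟨(xx_pos σ hn).le, xx_le hσ hn⟩
  · exact ⟨le_rfl, by positivity⟩

lemma GG_nonneg (σ : ℝ) (n : ℕ) : 0 ≤ GG σ n := by
  unfold GG; split_ifs
  · exact (gw_pos σ n).le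
  · exact le_rfl

lemma GG_le {σ : ℝ} (hσ : 1 ≤ σ) {n : ℕ} (hn : 1 < n) : GG σ n ≤ 1 / (2 * n) := by
  unfold GG; split_ifs with h
  · exact gw_le_half hσ h.1 hn
  · positivity

lemma GG_one (σ : ℝ) : GG σ 1 = 1 := by simp [GG, gw]

lemma GG_even (σ : ℝ) {n : ℕ} (hn : n % 2 = 0) : GG σ n = 0 := by simp [GG, hn]

lemma aa_even (σ : ℝ) {n : ℕ} (hn : n % 2 = 0) : aa σ n = 0 := by simp [aa, hn]

lemma phi_even (σ : ℝ) (X : ℕ) {n : ℕ} (hn : n % 2 = 0) : phi σ X n = 0 := by simp [phi, hn]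

lemma uu_van (σ : ℝ) {l : List ℕ} (hl : ∀ p ∈ l, p.Prime) {p : ℕ} (hp : p ∈ l) (n : ℕ)
    (hn : p ∣ n) : uu σ l n = 0 := by
  have h1 : n ≠ 1 := by
    rintro rfl
    exact (hl p hp).one_lt.ne' (Nat.dvd_one.mp hn)
  have h2 : RR l n = 0 := if_neg fun h => h p hp hn
  simp [uu, dd, h1, h2]

lemma Qf_uu {σ : ℝ} (hσ : 1 ≤ σ) (M : ℕ) (Z : Finset ℕ) (hZ : ∀ p ∈ Z, p.Prime) {S : ℝ}
    (hS0 : 0 ≤ S)
    (hS : ∑ j ∈ (Icc 2 M).filter (fun j => j % 2 = 1 ∧ ∀ p ∈ Z, ¬ p ∣ j), 1 / (j : ℝ) ^ 2 ≤ S) :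
    Qf M (uu σ Z.toList) ≤ S ^ 2 * (1 / 4 + (√S / 2 + 0.56) ^ 2) := by
  have hl : ∀ p ∈ Z.toList, p.Prime := fun p hp => hZ p (Finset.mem_toList.mp hp)
  have hone : uu σ Z.toList 1 = 0 := by
    have : RR Z.toList 1 = 1 := if_pos fun p hp h => (hl p hp).one_lt.ne' (Nat.dvd_one.mp h)
    simp [uu, dd, this, GG_one, aa]; norm_num
  have hR : ∀ n, RR Z.toList n = 0 ∨ RR Z.toList n = 1 := fun n => by
    unfold RR; split_ifs <;> simp
  refine Qf_rough M Z hS0 hS hZ ?_ ?_ ?_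
  · rintro n - (rfl | h | ⟨p, hp, h⟩)
    · exact hone
    · have : n ≠ 1 := by omega
      simp [uu, dd, this, GG_even σ h, aa_even σ h]
    · exact uu_van σ hl (Finset.mem_toList.mpr hp) n h
  · intro n hn
    rcases eq_or_lt_of_le (Finset.mem_Icc.mp hn).1 with rfl | h1
    · rw [hone]; simp
    · have h2 := aa_le hσ (n := n) (by omega)
      have h3 := GG_le hσ h1
      have h4 := GG_nonneg σ n
      have h5 : dd n = 0 := if_neg h1.ne'
      have hn' : (0 : ℝ) < n := Nat.cast_pos.mpr (by omega)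
      have e : 1 / (2 * (n : ℝ)) = 1 / 2 * (1 / n) := by field_simp
      unfold uu
      rw [h5, abs_le]
      rcases hR n with h | h <;> rw [h] <;> constructor <;> nlinarith
  · intro n _ hp
    have h5 : dd n = 0 := if_neg hp.one_lt.ne'
    have hn' : (0 : ℝ) < n := Nat.cast_pos.mpr hp.pos
    by_cases h2 : n % 2 = 1
    · have ha : aa σ n = xx σ n := if_pos h2
      have hg : GG σ n = xx σ n / (2 + xx σ n) := by
        rw [← gg_eq σ hp.pos, ← gw_prime σ hp]; exact if_pos ⟨hp.squarefree, h2⟩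
      have hx := xx_pos σ hp.pos
      have hx' := xx_le hσ hp.pos
      have e : 1 / 2 * xx σ n - xx σ n / (2 + xx σ n) = xx σ n ^ 2 / (2 * (2 + xx σ n)) := by
        field_simp; ring
      have h6 : xx σ n ^ 2 / (2 * (2 + xx σ n)) ≤ 1 / (4 * (n : ℝ) ^ 2) := by
        calc xx σ n ^ 2 / (2 * (2 + xx σ n)) ≤ (1 / (n : ℝ)) ^ 2 / 4 := by
              gcongr
              linarith
          _ = _ := by field_simp
      have h7 : 0 ≤ xx σ n ^ 2 / (2 * (2 + xx σ n)) := by positivity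
      have h8 : 0 ≤ 1 / (4 * (n : ℝ) ^ 2) := by positivity
      unfold uu
      rw [h5, ha, hg, abs_le]
      rcases hR n with h | h <;> rw [h] <;> constructor <;> linarith
    · have h2' : n % 2 = 0 := by omega
      simp [uu, h5, GG_even σ h2', aa_even σ h2']

lemma Qf_GA {σ : ℝ} (hσ : 1 ≤ σ) (M : ℕ) {A : ℕ} (hA : 1 ≤ A) :
    Qf M (GA σ A) ≤ 1 / (8 * (A : ℝ)) := by
  rw [Qf_sqfree M fun n hn => by simp [GA, GG, hn]]
  have h1 := sum_odd_inv_sq hA ((Icc 1 M).filter fun n => n % 2 = 1 ∧ A < n)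
    fun n hn => (Finset.mem_filter.mp hn).2
  have h2 : ∑ n ∈ Icc 1 M, GA σ A n ^ 2 ≤
      1 / 4 * ∑ n ∈ (Icc 1 M).filter (fun n => n % 2 = 1 ∧ A < n), 1 / (n : ℝ) ^ 2 := by
    rw [Finset.sum_filter, Finset.mul_sum]
    refine Finset.sum_le_sum fun n _ => ?_
    unfold GA
    by_cases h : n ≤ A
    · rw [if_pos h, if_neg (by omega)]; simp
    · rw [if_neg h]
      by_cases h' : n % 2 = 1
      · rw [if_pos ⟨h', by omega⟩]
        have hn' : (0 : ℝ) < n := Nat.cast_pos.mpr (by omega)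
        calc GG σ n ^ 2 ≤ (1 / (2 * (n : ℝ))) ^ 2 :=
              pow_le_pow_left₀ (GG_nonneg σ n) (GG_le hσ (by omega)) 2
          _ = _ := by field_simp; norm_num
      · rw [GG_even σ (by omega), if_neg (by omega)]; simp
  have hA' : (0 : ℝ) < A := Nat.cast_pos.mpr hA
  have e : 1 / (8 * (A : ℝ)) = 1 / 4 * (1 / (2 * A)) := by field_simp; norm_num
  linarith

lemma Qf_aphi {σ : ℝ} (hσ : 1 ≤ σ) (M : ℕ) {X : ℕ} (hX : 32 ≤ X) :
    Qf M (fun m => 1 * aa σ m + (-1) * phi σ X m) ≤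
      (4.8 + 2 * Real.log (3 * X)) / (3 * X) := by
  have hX' : (32 : ℝ) ≤ X := by exact_mod_cast hX
  have key : ∀ n ∈ Icc 1 M, |1 * aa σ n + (-1) * phi σ X n| ≤ 1 / n ∧
      |1 * aa σ n + (-1) * phi σ X n| ≤ 1 / (3 * X) := by
    intro n hn
    have hn0 : 0 < n := (Finset.mem_Icc.mp hn).1
    by_cases h : n % 2 = 1
    · obtain ⟨h1, h2, h3⟩ := phi_bounds hσ hX h
      have ha : aa σ n = (n : ℝ) ^ (-σ) := if_pos h
      have h4 := (aa_le hσ hn0).2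
      rw [← ha] at h2 h3
      rw [abs_of_nonneg (by linarith)]
      constructor <;> linarith
    · have h' : n % 2 = 0 := by omega
      rw [aa_even σ h', phi_even σ X h']
      constructor <;> simp
  exact Qf_min M (by linarith) (fun n hn => by simp [aa_even σ hn, phi_even σ X hn])
    (fun n hn => (key n hn).1) fun n hn => (key n hn).2

lemma Sf_dd (M : ℕ) : Sf M dd ≤ 1 := by
  unfold Sf
  have : ∀ n ∈ Icc 1 M, |dd n| * √(n : ℝ) = if n = 1 then 1 else 0 := fun n _ => by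
    unfold dd; split_ifs with h <;> simp [h]
  rw [Finset.sum_congr rfl this, Finset.sum_ite_eq']
  split_ifs <;> norm_num

lemma Sf_phi {σ : ℝ} (hσ : 1 ≤ σ) (M : ℕ) {X : ℕ} (hX : 32 ≤ X) :
    Sf M (phi σ X) ≤ √(4 * (X : ℝ)) := by
  have h1 := sum_odd_inv_sqrt (4 * X) ((Icc 1 M).filter fun n => n % 2 = 1 ∧ n < 4 * X)
    fun n hn => (Finset.mem_filter.mp hn).2
  rw [Nat.cast_mul, Nat.cast_ofNat, Finset.sum_filter] at h1
  refine le_trans (Finset.sum_le_sum fun n hn => ?_) h1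
  have hn0 : 0 < n := (Finset.mem_Icc.mp hn).1
  have hn' : (0 : ℝ) < n := Nat.cast_pos.mpr hn0
  split_ifs with h
  · obtain ⟨h1, h2, -⟩ := phi_bounds hσ hX h.1
    have h3 : phi σ X n ≤ 1 / n := le_trans h2 (xx_le hσ hn0)
    have hs : 0 < √(n : ℝ) := Real.sqrt_pos.mpr hn'
    rw [abs_of_nonneg h1]
    calc phi σ X n * √(n : ℝ) ≤ 1 / n * √(n : ℝ) := mul_le_mul_of_nonneg_right h3 hs.le
      _ = 1 / √(n : ℝ) := by
        rw [div_mul_eq_mul_div, div_eq_div_iff hn'.ne' hs.ne', one_mul, one_mul,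
          Real.mul_self_sqrt hn'.le]
  · have : phi σ X n = 0 := if_neg fun hh => h ⟨hh.1, by omega⟩
    simp [this]

lemma Sf_DD {σ : ℝ} (hσ : 1 ≤ σ) (M A : ℕ) : Sf M (DD σ A) ≤ √(A : ℝ) / 2 + 1 := by
  have h1 := sum_odd_inv_sqrt (A + 1) ((Icc 1 M).filter fun n => n % 2 = 1 ∧ n < A + 1)
    fun n hn => (Finset.mem_filter.mp hn).2
  rw [Finset.sum_filter] at h1
  have h2 : Sf M (DD σ A) ≤ ∑ n ∈ Icc 1 M, (1 / 2 * (if n % 2 = 1 ∧ n < A + 1 then 1 / √(n : ℝ)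
      else 0) + 1 / 2 * (|dd n| * √(n : ℝ))) := by
    refine Finset.sum_le_sum fun n hn => ?_
    have hn0 : 0 < n := (Finset.mem_Icc.mp hn).1
    have hn' : (0 : ℝ) < n := Nat.cast_pos.mpr hn0
    have hs : 0 < √(n : ℝ) := Real.sqrt_pos.mpr hn'
    have hd : 0 ≤ |dd n| * √(n : ℝ) := by positivity
    split_ifs with h
    · have hD : DD σ A n = GG σ n := if_pos (by omega)
      rw [hD, abs_of_nonneg (GG_nonneg σ n)]
      rcases eq_or_lt_of_le (Nat.succ_le_of_lt hn0) with h1 | h1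
      · subst h1; simp [GG_one, dd]; norm_num
      · have : GG σ n * √(n : ℝ) ≤ 1 / 2 * (1 / √(n : ℝ)) := by
          calc GG σ n * √(n : ℝ) ≤ 1 / (2 * n) * √(n : ℝ) :=
                mul_le_mul_of_nonneg_right (GG_le hσ h1) hs.le
            _ = 1 / 2 * (1 / √(n : ℝ)) := by
              rw [div_mul_eq_mul_div, div_mul_div_comm, div_eq_div_iff (by positivity)
                (by positivity)]
              nlinarith [Real.mul_self_sqrt hn'.le]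
        linarith
    · have : DD σ A n = 0 := by
        unfold DD
        split_ifs with h'
        · exact GG_even σ (by omega)
        · rfl
      rw [this]; simp only [abs_zero, zero_mul, mul_zero, zero_add]; positivity
  rw [Finset.sum_add_distrib, ← Finset.mul_sum, ← Finset.mul_sum] at h2
  have h3 : ∑ n ∈ Icc 1 M, |dd n| * √(n : ℝ) ≤ 1 := Sf_dd M
  have h4 : √((A + 1 : ℕ) : ℝ) ≤ √(A : ℝ) + 1 := by
    rw [Real.sqrt_le_iff]
    refine ⟨by positivity, ?_⟩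
    have := Real.sq_sqrt (Nat.cast_nonneg (α := ℝ) A)
    have := Real.sqrt_nonneg (A : ℝ)
    push_cast
    nlinarith
  linarith

lemma bb_even (σ : ℝ) {l : List ℕ} (hl : ∀ p ∈ l, p.Prime ∧ p % 2 = 1) (X A n : ℕ)
    (hn : n % 2 = 0) : bb σ l X A n = 0 := by
  have hc : ∀ p ∈ l, Nat.Coprime 2 p := fun p hp =>
    (Nat.Prime.coprime_iff_not_dvd Nat.prime_two).mpr (by have := (hl p hp).2; omega)
  have h1 := PL_van σ hc (f := dd) (fun m hm => if_neg (by omega)) n (by omega)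
  have h2 := TL_van σ hc (f := phi σ X) (fun m hm => phi_even σ X (by omega)) n (by omega)
  have h3 : DD σ A n = 0 := by simp [DD, GG_even σ hn]
  simp [bb, h1, h2, h3]

end WinA

end Pool.Agent.MP_5d10af_nt
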