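import Pool.Agent.MP_5d10af_nt.Mg.MS
import Pool.Agent.MP_5d10af_nt.Mg.PV
import Pool.Agent.MP_5d10af_nt.Mg.WinB

-- part MP_5d10af_nt.Maj
section

/-!
The majorant for the Euler product, and its variation.
-/

set_option autoImplicit false

namespace Pool.Agent.MP_5d10af_nt

open Finset

noncomputable def PZ (σ : ℝ) (Z : Finset ℕ) (χ : ℕ → ℝ) : ℝ :=
  ∏ p ∈ Z, (1 + χ p * (1 / (2 * (p : ℝ) ^ σ + 1)))

noncomputable def HZ (σ : ℝ) (Z : Finset ℕ) (χ : ℕ → ℝ) : ℝ :=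
  ∏ p ∈ Z, ((1 + χ p * (1 / (2 * (p : ℝ) ^ σ + 1))) * (1 - χ p * (p : ℝ) ^ (-σ)))

lemma maj_le_rpow {σ : ℝ} (hσ : 1 ≤ σ) {p : ℕ} (hp : p.Prime) :
    (2 : ℝ) ≤ p ∧ (p : ℝ) ≤ (p : ℝ) ^ σ := by
  have h2 : (2 : ℝ) ≤ p := by exact_mod_cast hp.two_le
  refine ⟨h2, ?_⟩
  nth_rewrite 1 [← Real.rpow_one p]
  exact Real.rpow_le_rpow_of_exponent_le (by linarith) hσ

/-- The elementary facts on the local parameters. -/
lemma maj_loc {σ : ℝ} (hσ : 1 ≤ σ) {p : ℕ} (hp : p.Prime) :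
    0 < (p : ℝ) ^ (-σ) ∧ (p : ℝ) ^ (-σ) ≤ 1 / 2 ∧ 0 < 1 / (2 * (p : ℝ) ^ σ + 1) ∧
      1 / (2 * (p : ℝ) ^ σ + 1) * (2 + (p : ℝ) ^ (-σ)) = (p : ℝ) ^ (-σ) := by
  obtain ⟨h1, h2⟩ := maj_le_rpow hσ hp
  rw [Real.rpow_neg (by positivity)]
  generalize (p : ℝ) ^ σ = y at *
  have h3 : 0 < y := by linarith
  refine ⟨by positivity, ?_, by positivity, by field_simp⟩
  rw [inv_le_comm₀ h3 (by norm_num)]
  linarith

lemma maj_G_le {c x g : ℝ} (hc : c = 0 ∨ c = 1 ∨ c = -1) (hx : 0 < x) (hg : 0 < g)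
    (h : g * (2 + x) = x) : (1 + c * g) ^ 2 * (1 - c * x) ≤ 1 := by
  have h1 : x - 2 * g = g * x := by linarith
  have h2 : 0 < g * x := by positivity
  rcases hc with rfl | rfl | rfl
  · simp
  · nlinarith [mul_pos h2 hg, mul_pos hg hg]
  · have h3 : (1 - g) * (1 + x) = 1 + g := by linarith
    have h4 : (1 + -1 * g) ^ 2 * (1 - -1 * x) = (1 - g) * ((1 - g) * (1 + x)) := by ring
    rw [h4, h3]
    nlinarith

lemma maj_G_mono {c x g y : ℝ} (hc : c = 0 ∨ c = 1 ∨ c = -1) (hx : 0 < x) (hx2 : x ≤ 1 / 2)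
    (hg : 0 < g) (h : g * (2 + x) = x) (hy : 0 ≤ y) (hy1 : y ≤ 1) :
    (1 + c * g) ^ 2 * (1 - c * x) ≤ (1 + c * (g * y)) ^ 2 * (1 - c * (x * y)) := by
  have h1 : x - 2 * g = g * x := by linarith
  have h2 : 0 < g * x := by positivity
  have h5 : 0 ≤ 1 - y := by linarith
  rcases hc with rfl | rfl | rfl
  · simp
  · have h3 : 0 ≤ (x - 2 * g) + g * (2 * x - g) * (1 + y) + g ^ 2 * x * (1 + y + y ^ 2) := by
      have : 0 ≤ 2 * x - g := by linarith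
      have : 0 ≤ x - 2 * g := by linarith
      positivity
    nlinarith [mul_nonneg h5 h3]
  · have h6 : 0 ≤ 2 * x - g - g * x * (1 + y) := by nlinarith
    have h3 : 0 ≤ g * (g + y * (2 * x - g - g * x * (1 + y))) := by positivity
    have h4 : (1 + -1 * (g * y)) ^ 2 * (1 - -1 * (x * y)) - (1 + -1 * g) ^ 2 * (1 - -1 * x) =
        (1 - y) * (g * (g + y * (2 * x - g - g * x * (1 + y)))) := by
      linear_combination (-(1 - y) * (1 - g)) * h1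
    nlinarith [mul_nonneg h5 h3]

lemma maj_fac_pos {c x : ℝ} (hc : |c| ≤ 1) (hx : 0 ≤ x) (hx2 : x ≤ 1 / 2) :
    0 < 1 + c * x ∧ 0 < 1 - c * x := by
  have := abs_le.1 hc
  constructor <;> nlinarith

lemma PZ_pos {σ : ℝ} (hσ : 1 ≤ σ) {Z : Finset ℕ} (hZ : ∀ p ∈ Z, p.Prime) {χ : ℕ → ℝ}
    (h : CM χ) : 0 < PZ σ Z χ := by
  refine prod_pos fun p hp => ?_
  obtain ⟨h1, h2, h3, h4⟩ := maj_loc hσ (hZ p hp)
  exact (maj_fac_pos (h.abs_le p) h3.le (by nlinarith)).1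

lemma HZ_pos {σ : ℝ} (hσ : 1 ≤ σ) {Z : Finset ℕ} (hZ : ∀ p ∈ Z, p.Prime) {χ : ℕ → ℝ}
    (h : CM χ) : 0 < HZ σ Z χ := by
  refine prod_pos fun p hp => ?_
  obtain ⟨h1, h2, h3, h4⟩ := maj_loc hσ (hZ p hp)
  exact mul_pos (maj_fac_pos (h.abs_le p) h3.le (by nlinarith)).1
    (maj_fac_pos (h.abs_le p) h1.le h2).2

lemma HZ_le {σ : ℝ} (hσ : 1 ≤ σ) {Z : Finset ℕ} (hZ : ∀ p ∈ Z, p.Prime) {χ : ℕ → ℝ}
    (h : CM χ) : HZ σ Z χ ≤ ∏ p ∈ Z, (1 + 1 / (2 * (p : ℝ) + 1)) := by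
  refine prod_le_prod (fun p hp => ?_) fun p hp => ?_
  · obtain ⟨h1, h2, h3, h4⟩ := maj_loc hσ (hZ p hp)
    exact (mul_pos (maj_fac_pos (h.abs_le p) h3.le (by nlinarith)).1
      (maj_fac_pos (h.abs_le p) h1.le h2).2).le
  · obtain ⟨h1, h2, h3, h4⟩ := maj_loc hσ (hZ p hp)
    obtain ⟨h5, h6⟩ := maj_le_rpow hσ (hZ p hp)
    have h7 : 1 / (2 * (p : ℝ) ^ σ + 1) ≤ 1 / (2 * (p : ℝ) + 1) := by gcongr
    generalize 1 / (2 * (p : ℝ) ^ σ + 1) = g at *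
    generalize (p : ℝ) ^ (-σ) = x at *
    rcases h.vals p with e | e | e <;> rw [e] <;> nlinarith [mul_pos h1 h3]

lemma maj_ell (σ s : ℝ) {N : ℕ} (hN : Squarefree N) {χ : ℕ → ℝ} (h : CM χ) :
    ∑ a ∈ N.divisors, gw σ a * (a : ℝ) ^ s * χ a =
      ∏ p ∈ N.primeFactors, (1 + χ p * (1 / (2 * (p : ℝ) ^ σ + 1) * (p : ℝ) ^ s)) := by
  rw [← sum_divisors_prod hN]
  refine sum_congr rfl fun a ha => ?_
  have ha' := hN.squarefree_of_dvd (Nat.dvd_of_mem_divisors ha)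
  rw [h.prod ha', rpow_eq_prod ha', gw, ← prod_mul_distrib, ← prod_mul_distrib]
  exact prod_congr rfl fun p _ => by ring

/-- The majorant from the inequality between the means. -/
theorem maj {σ : ℝ} (hσ : 1 ≤ σ) {N : ℕ} (hN : Squarefree N) {Z : Finset ℕ}
    (hZ : Z ⊆ N.primeFactors) {χ : ℕ → ℝ} (h : CM χ) :
    ∑ a ∈ N.divisors, gw σ a * χ a ≤ PZ σ Z χ / 2 + HZ σ Z χ * LN σ N χ / 2 := by
  have h1 := maj_ell σ 0 hN h
  simp only [Real.rpow_zero, mul_one] at h1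
  have hZ' : ∀ p ∈ Z, p.Prime := fun p hp => Nat.prime_of_mem_primeFactors (hZ hp)
  have h2 : HZ σ Z χ * LN σ N χ =
      PZ σ Z χ * ∏ p ∈ N.primeFactors \ Z, (1 - χ p * (p : ℝ) ^ (-σ))⁻¹ := by
    rw [LN, ← prod_sdiff hZ, mul_comm (∏ p ∈ N.primeFactors \ Z, _), ← mul_assoc, HZ, PZ,
      ← prod_mul_distrib]
    congr 1
    refine prod_congr rfl fun p hp => ?_
    obtain ⟨h1, h2, -, -⟩ := maj_loc hσ (hZ' p hp)
    rw [mul_assoc, mul_inv_cancel₀ (maj_fac_pos (h.abs_le p) h1.le h2).2.ne', mul_one]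
  have h3 : (∏ p ∈ N.primeFactors \ Z, (1 + χ p * (1 / (2 * (p : ℝ) ^ σ + 1)))) ^ 2 ≤
      ∏ p ∈ N.primeFactors \ Z, (1 - χ p * (p : ℝ) ^ (-σ))⁻¹ := by
    rw [← prod_pow]
    refine prod_le_prod (fun p _ => sq_nonneg _) fun p hp => ?_
    obtain ⟨h1, h2, h3, h4⟩ := maj_loc hσ (Nat.prime_of_mem_primeFactors (mem_sdiff.1 hp).1)
    rw [← one_div, le_div_iff₀ (maj_fac_pos (h.abs_le p) h1.le h2).2]
    exact maj_G_le (h.vals p) h1 h3 h4
  have h4 := PZ_pos hσ hZ' h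
  rw [h1, h2, ← prod_sdiff hZ]
  change _ * PZ σ Z χ ≤ _
  generalize ∏ p ∈ N.primeFactors \ Z, (1 + χ p * (1 / (2 * (p : ℝ) ^ σ + 1))) = r at *
  nlinarith [mul_nonneg h4.le (sq_nonneg (r - 1)), mul_le_mul_of_nonneg_left h3 h4.le]

/-- A discrete form of the inequality for the square root of a nonnegative function. -/
lemma glaeser {f : ℕ → ℝ} {β : ℝ} (hβ : 0 ≤ β) (hf : ∀ j, 0 ≤ f j)
    (h : ∀ j, f j - 2 * f (j + 1) + f (j + 2) ≤ β) : √(f 0) - √(f 1) ≤ √β := by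
  set d := f 0 - f 1 with hd
  have h1 : ∀ j : ℕ, d - j * β ≤ f j - f (j + 1) := by
    intro j
    induction j with
    | zero => simp [hd]
    | succ j ih => push_cast; linarith [h j]
  have h2 : ∀ m : ℕ, m * d - β * (m * (m + 1) / 2) ≤ f 1 - f (m + 1) := by
    intro m
    induction m with
    | zero => simp
    | succ m ih => have := h1 (m + 1); push_cast at this ⊢; linarith
  rcases le_or_gt d 0 with h0 | h0
  · have := Real.sqrt_le_sqrt (show f 0 ≤ f 1 by linarith)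
    linarith [Real.sqrt_nonneg β]
  have h3 : d ^ 2 ≤ β * (f 0 + f 1) := by
    rcases hβ.eq_or_lt with rfl | hβ'
    · obtain ⟨m, hm⟩ := exists_nat_gt (f 1 / d)
      rw [div_lt_iff₀ h0] at hm
      linarith [h2 m, hf (m + 1)]
    · set m := ⌊d / β⌋₊
      have a1 : (m : ℝ) ≤ d / β := Nat.floor_le (by positivity)
      have a2 : d / β < m + 1 := Nat.lt_floor_add_one _
      rw [le_div_iff₀ hβ'] at a1
      rw [div_lt_iff₀ hβ'] at a2
      have a3 : m * d - β * (m * (m + 1) / 2) ≤ f 1 := by linarith [h2 m, hf (m + 1)]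
      have a4 := mul_le_mul_of_nonneg_left a3 hβ
      nlinarith [mul_nonneg (sub_nonneg.2 a1) (sub_nonneg.2 a2.le)]
  have s0 := Real.sq_sqrt (hf 0)
  have s1 := Real.sq_sqrt (hf 1)
  have s2 := Real.sq_sqrt hβ
  have p0 := Real.sqrt_nonneg (f 0)
  have p1 := Real.sqrt_nonneg (f 1)
  have p2 := Real.sqrt_nonneg β
  generalize √(f 0) = a at *
  generalize √(f 1) = b at *
  generalize √β = c at *
  have h4 : d = (a - b) * (a + b) := by rw [hd, ← s0, ← s1]; ring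
  have h5 : 0 < a + b := by
    by_contra hc
    have : a + b = 0 := by linarith
    rw [this, mul_zero] at h4
    linarith
  have h6 : d ≤ c * (a + b) := by
    refine (abs_le_of_sq_le_sq' ?_ (by positivity)).2
    rw [mul_pow, s2]
    refine h3.trans (mul_le_mul_of_nonneg_left ?_ hβ)
    nlinarith [mul_nonneg p0 p1]
  rw [h4] at h6
  exact le_of_mul_le_mul_right h6 h5

lemma maj_one_sub_le {t m : ℝ} (hm : 0 < m) : 1 - m ^ (-t) ≤ t * Real.log m := by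
  rw [Real.rpow_def_of_pos hm]
  linarith [Real.add_one_le_exp (Real.log m * -t)]

lemma maj_one_sub_nonneg {t m : ℝ} (ht : 0 ≤ t) (hm : 1 ≤ m) : 0 ≤ 1 - m ^ (-t) :=
  sub_nonneg.2 (Real.rpow_le_one_of_one_le_of_nonpos hm (by linarith))

lemma maj_anti {s t m m' : ℝ} (hs : 1 ≤ s) (ht : 0 < t) (hm : 0 < m) (h2 : 2 ≤ Real.log m)
    (hmm : m ≤ m') : m' ^ (-s) * (1 - m' ^ (-t)) ^ 2 ≤ m ^ (-s) * (1 - m ^ (-t)) ^ 2 := by
  have hm' : 0 < m' := hm.trans_le hmm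
  have h3 := Real.log_le_log hm hmm
  simp only [Real.rpow_def_of_pos hm, Real.rpow_def_of_pos hm']
  obtain ⟨d, hd⟩ : ∃ d, Real.log m' = Real.log m + d := ⟨Real.log m' - Real.log m, by ring⟩
  rw [hd] at h3 ⊢
  generalize Real.log m = u at *
  have d0 : 0 ≤ d := by linarith
  have e1 : Real.exp ((u + d) * -s) = Real.exp (u * -s) * Real.exp (d * -s) := by
    rw [← Real.exp_add]; ring_nf
  have e2 : Real.exp ((u + d) * -t) = Real.exp (u * -t) * Real.exp (d * -t) := by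
    rw [← Real.exp_add]; ring_nf
  have e3 : Real.exp (u * -t) * Real.exp (u * t) = 1 := by rw [← Real.exp_add]; simp
  have a1 := Real.add_one_le_exp (d * -t)
  have a2 := Real.add_one_le_exp (u * t)
  have a3 := Real.exp_pos (u * -t)
  have a4 : Real.exp (d * -t) ≤ 1 := Real.exp_le_one_iff.2 (by nlinarith)
  have a5 : Real.exp (u * -t) ≤ 1 := Real.exp_le_one_iff.2 (by nlinarith)
  have a6 : (1 + d / 2) ^ 2 * Real.exp (d * -s) ≤ 1 := by
    have b1 : (1 + d / 2) ^ 2 ≤ Real.exp (d / 2) ^ 2 :=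
      pow_le_pow_left₀ (by linarith) (by linarith [Real.add_one_le_exp (d / 2)]) 2
    refine (mul_le_mul_of_nonneg_right b1 (Real.exp_pos _).le).trans ?_
    rw [← Real.exp_nat_mul, ← Real.exp_add, Real.exp_le_one_iff]
    push_cast
    nlinarith
  rw [e1, e2]
  generalize Real.exp (u * -t) = E at *
  have a7 : 2 * t * E ≤ 1 - E := by nlinarith [mul_le_mul_of_nonneg_left a2 a3.le, mul_pos ht a3]
  have a8 : 1 - E * Real.exp (d * -t) ≤ (1 - E) * (1 + d / 2) := by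
    nlinarith [mul_le_mul_of_nonneg_left a1 a3.le, mul_le_mul_of_nonneg_left a7 d0]
  have a9 : (1 - E * Real.exp (d * -t)) ^ 2 ≤ ((1 - E) * (1 + d / 2)) ^ 2 :=
    pow_le_pow_left₀ (by nlinarith [Real.exp_pos (d * -t)]) a8 2
  rw [mul_assoc]
  refine mul_le_mul_of_nonneg_left ?_ (Real.exp_pos _).le
  refine (mul_le_mul_of_nonneg_left a9 (Real.exp_pos _).le).trans ?_
  nlinarith [mul_le_mul_of_nonneg_left a6 (sq_nonneg (1 - E))]

lemma maj_term_le {s t m L : ℝ} (hs : 1 ≤ s) (ht : 0 < t) (hm : 1 ≤ m) (hL : Real.log m ≤ L) :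
    m ^ (-s) * (1 - m ^ (-t)) ^ 2 ≤ t ^ 2 * L ^ 2 * (1 / m) := by
  have h1 : m ^ (-s) ≤ 1 / m := by
    rw [one_div, ← Real.rpow_neg_one]
    exact Real.rpow_le_rpow_of_exponent_le hm (by linarith)
  have h2 : (1 - m ^ (-t)) ^ 2 ≤ (t * L) ^ 2 := pow_le_pow_left₀ (maj_one_sub_nonneg ht.le hm)
    ((maj_one_sub_le (by linarith)).trans (mul_le_mul_of_nonneg_left hL ht.le)) 2
  calc _ ≤ 1 / m * (t * L) ^ 2 := mul_le_mul h1 h2 (sq_nonneg _) (by positivity)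
    _ = _ := by ring

lemma maj_log_ge {M : ℕ} (hM : 2048 ≤ M) : 8 ≤ Real.log (2 * M + 1) := by
  have h1 : (2048 : ℝ) ≤ M := by exact_mod_cast hM
  rw [Real.le_log_iff_exp_le (by positivity)]
  have h2 : Real.exp 8 = Real.exp 1 ^ 8 := by rw [← Real.exp_nat_mul]; norm_num
  have h3 : Real.exp 1 ^ 8 ≤ 2.72 ^ 8 :=
    pow_le_pow_left₀ (Real.exp_pos _).le (by linarith [Real.exp_one_lt_d9]) 8
  rw [h2]
  refine h3.trans ?_
  norm_num
  linarith

lemma maj_second {s t γ : ℝ} (hs : 1 < s) (ht : 0 < t) (hγ : 0 ≤ γ) {χ : ℕ → ℝ} (h : CM χ)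
    (hb : Bil (fun n => χ (2 * n + 1)) γ) {M B : ℕ} (hM : 2048 ≤ M) (hB : 1 ≤ B) :
    Lf s χ - 2 * Lf (s + t) χ + Lf (s + t + t) χ ≤ t ^ 2 * Real.log (2 * M + 1) ^ 2 *
      (Real.log (2 * M + 1) / 2 + B / (2 * M) + 2 * γ / √((B : ℝ) * M)) := by
  have hL8 := maj_log_ge hM
  set L := Real.log (2 * M + 1) with hL
  have hM0 : (2048 : ℝ) ≤ M := by exact_mod_cast hM
  have hB0 : (1 : ℝ) ≤ B := by exact_mod_cast hB
  set v : ℕ → ℝ := fun n => ((2 * n + 1 : ℕ) : ℝ) ^ (-s) * (1 - ((2 * n + 1 : ℕ) : ℝ) ^ (-t)) ^ 2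
    with hv
  have hsum : HasSum (fun n => v n * χ (2 * n + 1))
      (Lf s χ - 2 * Lf (s + t) χ + Lf (s + t + t) χ) := by
    have h1 := (((summable_Lf hs h.abs_le).hasSum).sub
      (((summable_Lf (σ := s + t) (by linarith) h.abs_le).hasSum).mul_left 2)).add
      (summable_Lf (σ := s + t + t) (by linarith) h.abs_le).hasSum
    have e : (fun n => v n * χ (2 * n + 1)) = fun n : ℕ =>
        ((2 * n + 1 : ℕ) : ℝ) ^ (-s) * χ (2 * n + 1) -
          2 * (((2 * n + 1 : ℕ) : ℝ) ^ (-(s + t)) * χ (2 * n + 1)) +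
          ((2 * n + 1 : ℕ) : ℝ) ^ (-(s + t + t)) * χ (2 * n + 1) := by
      funext n
      have hm : (0 : ℝ) < ((2 * n + 1 : ℕ) : ℝ) := by positivity
      simp only [hv, neg_add, Real.rpow_add hm]
      ring
    rw [e]; exact h1
  have hv0 : ∀ n, 0 ≤ v n := fun n => by simp only [hv]; positivity
  have hone : ∀ n : ℕ, (1 : ℝ) ≤ ((2 * n + 1 : ℕ) : ℝ) := fun n => by
    exact_mod_cast Nat.le_add_left 1 _
  have hhead : ∑ n ∈ range M, v n * χ (2 * n + 1) ≤ t ^ 2 * L ^ 2 * (L / 2) := by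
    have h1 := sum_odd_inv (Y := 2 * M + 1) (by linarith) ((Ico 1 M).image fun n => 2 * n + 1) (by
      intro m hm
      obtain ⟨n, hn, rfl⟩ := mem_image.1 hm
      rw [mem_Ico] at hn
      refine ⟨by omega, by omega, ?_⟩
      exact_mod_cast (show 2 * n + 1 ≤ 2 * M + 1 by omega))
    rw [sum_image fun a _ b _ e => by simpa using e] at h1
    refine le_trans ?_ (mul_le_mul_of_nonneg_left h1 (by positivity))
    rw [range_eq_Ico, sum_eq_sum_Ico_succ_bot (by omega), mul_sum]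
    have h2 : v 0 = 0 := by simp [hv]
    rw [h2, zero_mul, zero_add]
    refine sum_le_sum fun n hn => ?_
    refine (mul_le_of_le_one_right (hv0 n) ((le_abs_self _).trans (h.abs_le _))).trans ?_
    refine maj_term_le hs.le ht (hone n) (Real.log_le_log (by positivity) ?_)
    rw [mem_Ico] at hn
    exact_mod_cast (show 2 * n + 1 ≤ 2 * M + 1 by omega)
  have htail := fun J => hb.abel (fun n => h.abs_le _) hγ (M := M) (by omega) hB v
    (t ^ 2 * L ^ 2 / (2 * M)) (fun n _ => hv0 n) (fun n hn => by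
      refine maj_anti hs.le ht (by positivity) ?_ (by exact_mod_cast (by omega))
      refine le_trans (by linarith) (Real.log_le_log (x := 2 * M + 1) (by positivity) ?_)
      exact_mod_cast (show 2 * M + 1 ≤ 2 * n + 1 by omega)) (fun n hn => by
      have hn0 : (M : ℝ) ≤ n := by exact_mod_cast hn
      set z : ℝ := n / M with hz
      have hz1 : 1 ≤ z := by rw [hz, le_div_iff₀ (by linarith)]; linarith
      have hz0 : 0 < z := by linarith
      have hn1 : (n : ℝ) = z * M := by rw [hz]; field_simp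
      have h1 : Real.log ((2 * n + 1 : ℕ) : ℝ) ≤ L * z ^ (1 / 8 : ℝ) := by
        have a1 : Real.log ((2 * n + 1 : ℕ) : ℝ) ≤ L + Real.log z := by
          rw [hL, ← Real.log_mul (by positivity) hz0.ne']
          refine Real.log_le_log (by positivity) ?_
          push_cast
          nlinarith
        have a2 := Real.log_le_sub_one_of_pos (Real.rpow_pos_of_pos hz0 (1 / 8))
        rw [Real.log_rpow hz0] at a2
        nlinarith [Real.log_nonneg hz1]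
      refine (maj_term_le hs.le ht (hone n) h1).trans ?_
      have h2 : ((M : ℝ) / n) ^ (3 / 4 : ℝ) = (z ^ (1 / 8 : ℝ)) ^ 2 / z := by
        rw [← Real.rpow_natCast, ← Real.rpow_mul hz0.le, ← Real.rpow_sub_one hz0.ne',
          ← inv_div, ← hz, Real.inv_rpow hz0.le, ← Real.rpow_neg hz0.le]
        norm_num
      have h3 : 1 / ((2 * n + 1 : ℕ) : ℝ) ≤ 1 / (2 * (z * M)) := by
        rw [← hn1]
        push_cast
        gcongr
        · linarith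
        · linarith
      refine (mul_le_mul_of_nonneg_left h3 (by positivity)).trans (le_of_eq ?_)
      rw [h2]
      field_simp) J
  have e : t ^ 2 * L ^ 2 / (2 * M) * (B + 4 * γ * √((M : ℝ) / B)) =
      t ^ 2 * L ^ 2 * (B / (2 * M) + 2 * γ / √((B : ℝ) * M)) := by
    have h1 : √((M : ℝ) / B) * √((B : ℝ) * M) = M := by
      rw [← Real.sqrt_mul (by positivity), show (M : ℝ) / B * (B * M) = M ^ 2 by field_simp,
        Real.sqrt_sq (by linarith)]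
    have h2 : 0 < √((B : ℝ) * M) := by positivity
    rw [eq_div_of_mul_eq h2.ne' h1]
    field_simp
    ring
  refine le_of_tendsto hsum.tendsto_sum_nat ?_
  filter_upwards [Filter.eventually_ge_atTop M] with J hJ
  rw [← sum_range_add_sum_Ico _ hJ]
  have h3 := (le_abs_self _).trans (htail J)
  rw [e] at h3
  linarith

/-- The variation of the Euler product. -/
theorem vary {σ t η γ : ℝ} (hσ : 1 < σ) (ht : 0 < t) (hη : 0 ≤ η) (hγ : 0 ≤ γ) {N : ℕ}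
    (hN : Squarefree N) {χ : ℕ → ℝ} (h : CM χ) (hb : Bil (fun n => χ (2 * n + 1)) γ)
    (hL : ∀ σ' : ℝ, σ ≤ σ' → |LN σ' N χ - Lf σ' χ| ≤ η) {M B : ℕ} (hM : 2048 ≤ M) (hB : 1 ≤ B) :
    ∑ e ∈ N.divisors, gw σ e * (1 - (e : ℝ) ^ (-t)) * χ e ≤
      t * Real.log (2 * M + 1) *
        √(Real.log (2 * M + 1) / 2 + B / (2 * M) + 2 * γ / √((B : ℝ) * M)) + √(2 * η) := by
  have hL8 := maj_log_ge hM
  have hLN : ∀ j : ℕ, σ ≤ σ + j * t := fun j => le_add_of_nonneg_right (by positivity)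
  have h1 := glaeser (f := fun j => Lf (σ + j * t) χ + η) (β := t ^ 2 * Real.log (2 * M + 1) ^ 2 *
      (Real.log (2 * M + 1) / 2 + B / (2 * M) + 2 * γ / √((B : ℝ) * M))) (by positivity)
    (fun j => by
      have := abs_le.1 (hL _ (hLN j))
      linarith [LN_pos (σ := σ + j * t) (by linarith [hLN j]) N h, this.2])
    (fun j => by
      have := maj_second (s := σ + j * t) (by linarith [hLN j]) ht hγ h hb hM hB
      push_cast
      rw [show σ + ((j : ℝ) + 1) * t = σ + j * t + t by ring,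
        show σ + ((j : ℝ) + 2) * t = σ + j * t + t + t by ring]
      linarith)
  simp only [Nat.cast_zero, zero_mul, add_zero, Nat.cast_one, one_mul] at h1
  rw [← mul_pow, Real.sqrt_mul (sq_nonneg _), Real.sqrt_sq (by positivity)] at h1
  have a0 := LN_pos (σ := σ) (by linarith) N h
  have a1 := LN_pos (σ := σ + t) (by linarith) N h
  have h2 : √(LN σ N χ) ≤ √(Lf σ χ + η) :=
    Real.sqrt_le_sqrt (by linarith [(abs_le.1 (hL σ le_rfl)).2])
  have h3 : √(Lf (σ + t) χ + η) ≤ √(LN (σ + t) N χ) + √(2 * η) := by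
    rw [Real.sqrt_le_iff]
    refine ⟨by positivity, ?_⟩
    have b1 := Real.sq_sqrt a1.le
    have b2 := Real.sq_sqrt (show 0 ≤ 2 * η by linarith)
    nlinarith [(abs_le.1 (hL (σ + t) (by linarith))).1,
      mul_nonneg (Real.sqrt_nonneg (LN (σ + t) N χ)) (Real.sqrt_nonneg (2 * η))]
  have e0 := maj_ell σ 0 hN h
  have e1 := maj_ell σ (-t) hN h
  simp only [Real.rpow_zero, mul_one] at e0
  have e2 : ∑ e ∈ N.divisors, gw σ e * (1 - (e : ℝ) ^ (-t)) * χ e =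
      ∑ a ∈ N.divisors, gw σ a * χ a - ∑ a ∈ N.divisors, gw σ a * (a : ℝ) ^ (-t) * χ a := by
    rw [← sum_sub_distrib]
    exact sum_congr rfl fun a _ => by ring
  rw [e2, e0, e1]
  set G := ∏ p ∈ N.primeFactors,
    ((1 + χ p * (1 / (2 * (p : ℝ) ^ σ + 1))) ^ 2 * (1 - χ p * (p : ℝ) ^ (-σ))) with hG
  have hloc := fun p (hp : p ∈ N.primeFactors) => maj_loc hσ.le (Nat.prime_of_mem_primeFactors hp)
  have hy : ∀ p ∈ N.primeFactors, 0 ≤ (p : ℝ) ^ (-t) ∧ (p : ℝ) ^ (-t) ≤ 1 := fun p hp =>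
    ⟨by positivity, Real.rpow_le_one_of_one_le_of_nonpos
      (by exact_mod_cast (Nat.prime_of_mem_primeFactors hp).one_le) (by linarith)⟩
  have hfac : ∀ p ∈ N.primeFactors, 0 ≤
      (1 + χ p * (1 / (2 * (p : ℝ) ^ σ + 1))) ^ 2 * (1 - χ p * (p : ℝ) ^ (-σ)) := fun p hp =>
    mul_nonneg (sq_nonneg _) (maj_fac_pos (h.abs_le p) (hloc p hp).1.le (hloc p hp).2.1).2.le
  have hG0 : 0 ≤ G := prod_nonneg hfac
  have hG1 : √G ≤ 1 := Real.sqrt_le_one.2 (prod_le_one hfac fun p hp =>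
    maj_G_le (h.vals p) (hloc p hp).1 (hloc p hp).2.2.1 (hloc p hp).2.2.2)
  have h4 : ∏ p ∈ N.primeFactors, (1 + χ p * (1 / (2 * (p : ℝ) ^ σ + 1))) ≤
      √G * √(LN σ N χ) := by
    rw [← Real.sqrt_mul hG0]
    refine Real.le_sqrt_of_sq_le (le_of_eq ?_)
    rw [hG, LN, ← prod_mul_distrib, ← prod_pow]
    refine prod_congr rfl fun p hp => ?_
    rw [mul_assoc, mul_inv_cancel₀
      (maj_fac_pos (h.abs_le p) (hloc p hp).1.le (hloc p hp).2.1).2.ne', mul_one]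
  have h5 : √G * √(LN (σ + t) N χ) ≤
      ∏ p ∈ N.primeFactors, (1 + χ p * (1 / (2 * (p : ℝ) ^ σ + 1) * (p : ℝ) ^ (-t))) := by
    rw [← Real.sqrt_mul hG0, Real.sqrt_le_iff]
    constructor
    · refine prod_nonneg fun p hp => ?_
      obtain ⟨b1, b2, b3, b4⟩ := hloc p hp
      obtain ⟨b5, b6⟩ := hy p hp
      exact (maj_fac_pos (h.abs_le p) (by positivity) (by nlinarith)).1.le
    · rw [hG, LN, ← prod_mul_distrib, ← prod_pow]
      have hx : ∀ p ∈ N.primeFactors, 0 < 1 - χ p * (p : ℝ) ^ (-(σ + t)) := fun p hp => by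
        obtain ⟨b1, b2, -, -⟩ := maj_loc (σ := σ + t) (by linarith)
          (Nat.prime_of_mem_primeFactors hp)
        exact (maj_fac_pos (h.abs_le p) b1.le b2).2
      refine prod_le_prod (fun p hp => mul_nonneg (hfac p hp) (inv_pos.2 (hx p hp)).le)
        fun p hp => ?_
      obtain ⟨b1, b2, b3, b4⟩ := hloc p hp
      obtain ⟨b5, b6⟩ := hy p hp
      rw [← div_eq_mul_inv, div_le_iff₀ (hx p hp), neg_add, Real.rpow_add
        (by exact_mod_cast (Nat.prime_of_mem_primeFactors hp).pos)]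
      exact maj_G_mono (h.vals p) b1 b2 b3 b4 b5 b6
  have h6 : 0 ≤ t * Real.log (2 * M + 1) *
      √(Real.log (2 * M + 1) / 2 + B / (2 * M) + 2 * γ / √((B : ℝ) * M)) + √(2 * η) := by
    positivity
  have h7 := Real.sqrt_nonneg G
  nlinarith

end Pool.Agent.MP_5d10af_nt

end

-- part MP_5d10af_nt.Win
section

/-!
The contribution of a window.
-/

set_option autoImplicit false

namespace Pool.Agent.MP_5d10af_nt

open Finset

noncomputable def nbW (S α' : ℝ) (X A : ℕ) : ℝ :=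
  1.03 * S * √(1 / 4 + (√S / 2 + 0.56) ^ 2) + √(1 / (8 * (A : ℝ))) +
    α' / 2 * √((4.8 + 2 * Real.log (3 * X)) / (3 * X))

noncomputable def sbW (β : ℝ) (X A : ℕ) : ℝ :=
  β / 2 * (1 + √(4 * (X : ℝ))) + √(A : ℝ) / 2 + 1

namespace WinA

lemma sqrt_Qf_bb {σ : ℝ} (hσ : 1 ≤ σ) (M : ℕ) (Z : Finset ℕ)
    (hZ : ∀ p ∈ Z, p.Prime ∧ p % 2 = 1) {X A : ℕ} (hX : 32 ≤ X) (hA : 1 ≤ A) {α' S : ℝ}
    (hα' : ∏ p ∈ Z, (1 + ((p : ℝ) + 2) / (p * (2 * p + 1))) ≤ α') (hS0 : 0 ≤ S)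
    (hS : ∑ j ∈ (Icc 2 M).filter (fun j => j % 2 = 1 ∧ ∀ p ∈ Z, ¬ p ∣ j), 1 / (j : ℝ) ^ 2 ≤ S) :
    √(Qf M (bb σ Z.toList X A)) ≤ nbW S α' X A := by
  have hl : ∀ p ∈ Z.toList, p.Prime ∧ p % 2 = 1 := fun p hp => hZ p (Finset.mem_toList.mp hp)
  have hl1 : ∀ p ∈ Z.toList, p.Prime := fun p hp => (hl p hp).1
  rw [bb_eq σ hl Z.nodup_toList]
  refine le_trans (sqrt_Qf_add M _ _) ?_
  have h1 := sqrt_Qf_add M (PL σ Z.toList (uu σ Z.toList)) (GA σ A)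
  have h2 := Qf_PL σ M hl1 Z.nodup_toList (f := uu σ Z.toList) fun p hp => uu_van σ hl1 hp
  rw [Finset.prod_map_toList] at h2
  have h3 := Qf_uu hσ M Z (fun p hp => (hZ p hp).1) hS0 hS
  have h4 : Qf M (PL σ Z.toList (uu σ Z.toList)) ≤
      (1.03 * S) ^ 2 * (1 / 4 + (√S / 2 + 0.56) ^ 2) := by
    refine le_trans h2 ?_
    rw [mul_pow, mul_assoc]
    exact mul_le_mul (prod_gg_le hσ Z hZ) h3 (Qf_nonneg _ _) (by positivity)
  have h5 := Real.sqrt_le_sqrt h4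
  rw [Real.sqrt_mul (sq_nonneg _), Real.sqrt_sq (by positivity)] at h5
  have h6 := Real.sqrt_le_sqrt (Qf_GA hσ M hA)
  have h7 := sqrt_Qf_TL hσ M (l := Z.toList) (fun p hp => (hl1 p hp).pos)
    (fun m => 1 * aa σ m + (-1) * phi σ X m)
  rw [Finset.prod_map_toList] at h7
  have h8 := Real.sqrt_le_sqrt (Qf_aphi hσ M hX)
  have hp0 : 0 ≤ ∏ p ∈ Z, (1 + ((p : ℝ) + 2) / (p * (2 * p + 1))) :=
    Finset.prod_nonneg fun p _ => by positivity
  have h9 := le_trans h7 (mul_le_mul hα' h8 (Real.sqrt_nonneg _) (le_trans hp0 hα'))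
  rw [sqrt_Qf_smul, abs_neg, abs_of_pos (by norm_num : (0 : ℝ) < 1 / 2)]
  unfold nbW
  linarith

lemma Sf_bb {σ : ℝ} (hσ : 1 ≤ σ) (M : ℕ) (Z : Finset ℕ)
    (hZ : ∀ p ∈ Z, p.Prime ∧ p % 2 = 1) {X : ℕ} (hX : 32 ≤ X) (A : ℕ) {β : ℝ}
    (hβ : ∏ p ∈ Z, (1 + ((p : ℝ) + 1) / (√(p : ℝ) * (2 * p + 1)) + 1 / (2 * p + 1)) ≤ β) :
    Sf M (bb σ Z.toList X A) ≤ sbW β X A := by
  have hl : ∀ p ∈ Z.toList, 0 < p := fun p hp => (hZ p (Finset.mem_toList.mp hp)).1.pos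
  have h0 := Sf_add M (fun n => 1 / 2 * PL σ Z.toList dd n + 1 / 2 * TL σ Z.toList (phi σ X) n)
    fun n => (-1) * DD σ A n
  have h1 := Sf_add M (fun n => 1 / 2 * PL σ Z.toList dd n)
    fun n => 1 / 2 * TL σ Z.toList (phi σ X) n
  rw [Sf_smul, Sf_smul, abs_of_pos (by norm_num : (0 : ℝ) < 1 / 2)] at h1
  rw [Sf_smul, abs_neg, abs_one, one_mul] at h0
  have h2 := Sf_PL hσ M hl dd
  have h3 := Sf_TL hσ M hl (phi σ X)
  rw [Finset.prod_map_toList] at h2 h3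
  have hp0 : 0 ≤ ∏ p ∈ Z, (1 + ((p : ℝ) + 1) / (√(p : ℝ) * (2 * p + 1)) + 1 / (2 * p + 1)) :=
    Finset.prod_nonneg fun p _ => by positivity
  have h4 := le_trans h2 (mul_le_mul hβ (Sf_dd M) (Sf_nonneg _ _) (le_trans hp0 hβ))
  have h5 := le_trans h3 (mul_le_mul hβ (Sf_phi hσ M hX) (Sf_nonneg _ _) (le_trans hp0 hβ))
  have h6 := Sf_DD hσ M A
  have h7 : Sf M (bb σ Z.toList X A) = Sf M fun n => (1 / 2 * PL σ Z.toList dd n +
    1 / 2 * TL σ Z.toList (phi σ X) n) + (-1) * DD σ A n := rfl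
  unfold sbW
  linarith

lemma sum_bb (σ : ℝ) {P N : ℕ} (hN : Good P N) (Z : Finset ℕ) (hZ : ∀ p ∈ Z, p.Prime)
    {X A M : ℕ} (hX : 1 ≤ X) (hM : 4 * X * (∏ p ∈ Z, p) ^ 2 ≤ M) (hAM : A ≤ M) (hPA : A < P)
    {χ : ℕ → ℝ} (hχ : CM χ) :
    ∑ n ∈ Icc 1 M, bb σ Z.toList X A n * χ n =
      PZ σ Z χ / 2 + HZ σ Z χ * (∑ m ∈ Icc 1 (4 * X), phi σ X m * χ m) / 2 -
        ∑ a ∈ N.divisors.filter (fun a => ¬ A < a), gw σ a * χ a := by
  have hl : ∀ p ∈ Z.toList, 0 < p := fun p hp => (hZ p (Finset.mem_toList.mp hp)).pos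
  have hprod : Z.toList.prod = ∏ p ∈ Z, p := Finset.prod_toList Z
  have hpos : 1 ≤ ∏ p ∈ Z, p := Finset.prod_pos fun p hp => (hZ p hp).pos
  have hM1 : 1 * Z.toList.prod ≤ M := by rw [hprod]; nlinarith
  have hM2 : 4 * X ≤ M := le_trans (Nat.le_mul_of_pos_right _ (pow_pos hpos 2)) hM
  have h1 := PL_sum σ hl hM1 (f := dd) (fun n hn => if_neg hn.ne') hχ
  have h2 := TL_sum σ hl (Y := 4 * X) (M := M) (by rw [hprod]; exact hM) (f := phi σ X)
    (fun n hn => if_neg fun h => by omega) hχ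
  rw [Finset.prod_map_toList] at h1 h2
  have h3 : ∑ n ∈ Icc 1 M, dd n * χ n = 1 := by
    rw [Finset.sum_eq_single_of_mem 1 (Finset.mem_Icc.mpr ⟨le_rfl, by omega⟩)]
    · simp [dd, hχ.one]
    · intro n _ hn; simp [dd, hn]
  have h4 : ∑ n ∈ Icc 1 M, phi σ X n * χ n = ∑ m ∈ Icc 1 (4 * X), phi σ X m * χ m :=
    (sum_trunc (Y := 4 * X) le_rfl hM2 fun n hn => by
      have : phi σ X n = 0 := if_neg fun h => by omega
      rw [this, zero_mul]).symm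
  have h5 : ∑ n ∈ Icc 1 M, DD σ A n * χ n =
      ∑ a ∈ N.divisors.filter (fun a => ¬ A < a), gw σ a * χ a := by
    symm
    refine Finset.sum_subset_zero_on_sdiff ?_ ?_ ?_
    · intro a ha
      obtain ⟨ha, ha'⟩ := Finset.mem_filter.mp ha
      exact Finset.mem_Icc.mpr ⟨Nat.pos_of_mem_divisors ha, by omega⟩
    · intro n hn
      obtain ⟨-, hn⟩ := Finset.mem_sdiff.mp hn
      have : DD σ A n = 0 := by
        unfold DD GG
        split_ifs with h h'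
        · exact absurd (Finset.mem_filter.mpr ⟨Nat.mem_divisors.mpr
            ⟨hN.dvd_of_lt h'.1 h'.2 (by omega), hN.sqf.ne_zero⟩, by omega⟩) hn
        · rfl
        · rfl
      rw [this, zero_mul]
    · intro a ha
      obtain ⟨ha, ha'⟩ := Finset.mem_filter.mp ha
      have hd := Nat.dvd_of_mem_divisors ha
      have : DD σ A a = gw σ a := by
        unfold DD GG
        rw [if_pos (by omega), if_pos ⟨hN.sqf.squarefree_of_dvd hd,
          Nat.odd_iff.mp (hN.odd.of_dvd_nat hd)⟩]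
      rw [this]
  have h6 : ∀ n, bb σ Z.toList X A n * χ n = 1 / 2 * (PL σ Z.toList dd n * χ n) +
      1 / 2 * (TL σ Z.toList (phi σ X) n * χ n) - DD σ A n * χ n := fun n => by
    unfold bb; ring
  simp only [h6, Finset.sum_sub_distrib, Finset.sum_add_distrib, ← Finset.mul_sum]
  rw [h1, h2, h3, h4, h5]
  unfold PZ HZ gg xx
  ring

lemma sum_W_sq {n1 L : ℕ} (W : Finset ℕ)
    (hW : ∀ e ∈ W, e % 2 = 1 ∧ 2 * n1 < e ∧ e ≤ 2 * (n1 + L)) (V : ℕ → ℝ) :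
    ∑ e ∈ W, V e ^ 2 ≤ ∑ y ∈ range L, V (2 * (n1 + y) + 1) ^ 2 := by
  rw [← Finset.sum_image (s := range L) (g := fun y => 2 * (n1 + y) + 1) (f := fun e => V e ^ 2)
    (fun a _ b _ h => by simp only at h; omega)]
  refine Finset.sum_le_sum_of_subset_of_nonneg (fun e he => ?_) fun _ _ _ => sq_nonneg _
  obtain ⟨h1, h2, h3⟩ := hW e he
  exact Finset.mem_image.mpr ⟨e / 2 - n1, Finset.mem_range.mpr (by omega), by omega⟩

end WinA

open WinA in
theorem win {σ η : ℝ} (hσ : 1 < σ) (hη : 0 ≤ η) {P N : ℕ} (hN : Good P N)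
    (hL : ∀ χ : ℕ → ℝ, CM χ → |LN σ N χ - Lf σ χ| ≤ η)
    (Z : Finset ℕ) (hZ : ∀ p ∈ Z, p.Prime ∧ p ≠ 2)
    {X B A At n1 L : ℕ} (hX : 32 ≤ X) (hB : 1 ≤ B) (hA : 1 ≤ A) (hAt : 1 ≤ At) (hn1 : 1 ≤ n1)
    (hP : 4 * X * (∏ p ∈ Z, p) ^ 2 < P) (hPA : A < P)
    {α α' β S G0 G1 G2 : ℝ}
    (hα : ∏ p ∈ Z, (1 + 1 / (2 * (p : ℝ) + 1)) ≤ α)
    (hα' : ∏ p ∈ Z, (1 + ((p : ℝ) + 2) / (p * (2 * p + 1))) ≤ α')
    (hβ : ∏ p ∈ Z, (1 + ((p : ℝ) + 1) / (√(p : ℝ) * (2 * p + 1)) + 1 / (2 * p + 1)) ≤ β)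
    (hS0 : 0 ≤ S)
    (hS : ∀ M : ℕ, ∑ j ∈ (Icc 2 M).filter (fun j => j % 2 = 1 ∧ ∀ p ∈ Z, ¬ p ∣ j),
      1 / (j : ℝ) ^ 2 ≤ S)
    (W : Finset ℕ) (hW : ∀ e ∈ W, e ∣ N ∧ 2 * n1 < e ∧ e ≤ 2 * (n1 + L))
    (hG0 : ∑ e ∈ W, gw 1 e ≤ G0) (hG1 : ∑ e ∈ W, gw 1 e * √(e : ℝ) ≤ G1)
    (hG2 : ∑ e ∈ W, gw 1 e ^ 2 ≤ G2) :
    ∑ e ∈ W, gw σ e * ∑ a ∈ N.divisors.filter (fun a => A < a), gw σ a * Kf a e ≤
      1.828 * (α / 2) * sg1 X * G1 +
      7 / 4 * (α / 2) * (1 / (4 * X) + η +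
        (σ - 1) * (2 * (2 * √((n1 : ℝ) + L) / √((B : ℝ) * X) + B / X))) * G0 +
      √(G2 * ((L + At) * (2.28 * nbW S α' X A ^ 2) +
        √(((L : ℝ) + At) / At) * (1.828 * sbW β X A) ^ 2)) := by
  have hZ' : ∀ p ∈ Z, p.Prime ∧ p % 2 = 1 := fun p hp =>
    ⟨(hZ p hp).1, ((hZ p hp).1.eq_two_or_odd).resolve_left (hZ p hp).2⟩
  have hZp : ∀ p ∈ Z, p.Prime := fun p hp => (hZ p hp).1
  have hpos : 1 ≤ ∏ p ∈ Z, p := Finset.prod_pos fun p hp => (hZp p hp).pos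
  have hZN : Z ⊆ N.primeFactors := fun p hp => by
    have h1 : p ≤ ∏ p ∈ Z, p := Nat.le_of_dvd hpos (Finset.dvd_prod_of_mem (fun p => p) hp)
    exact Nat.mem_primeFactors.mpr ⟨hZp p hp, hN.dvd p (hZp p hp) (hZ p hp).2 (by nlinarith),
      hN.sqf.ne_zero⟩
  obtain ⟨M, hM⟩ : ∃ M, M = 4 * X * (∏ p ∈ Z, p) ^ 2 + A := ⟨_, rfl⟩
  obtain ⟨V, hV⟩ : ∃ V : ℕ → ℝ, V = fun e => ∑ n ∈ Icc 1 M, bb σ Z.toList X A n * Kf n e :=
    ⟨_, rfl⟩
  obtain ⟨E, hE⟩ : ∃ E : ℝ, E = 1 / (4 * X) + η +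
    (σ - 1) * (2 * (2 * √((n1 : ℝ) + L) / √((B : ℝ) * X) + B / X)) := ⟨_, rfl⟩
  have hX' : (32 : ℝ) ≤ X := by exact_mod_cast hX
  have hσ0 : 0 ≤ σ - 1 := by linarith
  have hE0 : 0 ≤ E := by rw [hE]; positivity
  have hsg : 0 ≤ sg1 X := by
    have : (0 : ℝ) < (X : ℝ) - 1 := by linarith
    unfold sg1; positivity
  have hα0 : 0 ≤ α := le_trans (Finset.prod_nonneg fun p _ => by positivity) hα
  have hodd : ∀ e ∈ W, e % 2 = 1 := fun e he => Nat.odd_iff.mp (hN.odd.of_dvd_nat (hW e he).1)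
  have key : ∀ e ∈ W, ∑ a ∈ N.divisors.filter (fun a => A < a), gw σ a * Kf a e ≤
      V e + (1.828 * (α / 2) * sg1 X * √(e : ℝ) + 7 / 4 * (α / 2) * E) := by
    intro e he
    obtain ⟨hd, h1, h2⟩ := hW e he
    have hsq : ¬ IsSquare e := by
      rintro ⟨r, hr⟩
      have := Nat.isUnit_iff.mp (hN.sqf.squarefree_of_dvd hd r (hr ▸ dvd_rfl))
      rw [this] at hr
      omega
    have hi : ∀ i : Fin 4, ∑ a ∈ N.divisors.filter (fun a => A < a), gw σ a * chi i e a ≤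
        ∑ n ∈ Icc 1 M, bb σ Z.toList X A n * chi i e n +
          (α / 2 * sg1 X * √(e : ℝ) * cpsi i + α / 2 * E) := by
      intro i
      have hχ := chi_cm i e
      have hγ : 0 ≤ cpsi i * √(e : ℝ) := mul_nonneg (cpsi_pos i).le (Real.sqrt_nonneg _)
      have hγ' : cpsi i * √(e : ℝ) ≤ 2 * √((n1 : ℝ) + L) := by
        have h3 : √(e : ℝ) ≤ √2 * √((n1 : ℝ) + L) := by
          rw [← Real.sqrt_mul (by norm_num)]
          exact Real.sqrt_le_sqrt (by exact_mod_cast h2)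
        calc cpsi i * √(e : ℝ) ≤ √2 * (√2 * √((n1 : ℝ) + L)) :=
              mul_le_mul (cpsi_le i) h3 (Real.sqrt_nonneg _) (Real.sqrt_nonneg _)
          _ = _ := by rw [← mul_assoc, Real.mul_self_sqrt (by norm_num)]
      have h3 := (abs_le.mp (TL1 (lemB i e (hodd e he) (Or.inr hsq)) hχ.abs_le hγ hσ
        (X := X) (by omega) hB)).2
      have h4 := (abs_le.mp (hL _ hχ)).2
      have h5 := maj hσ.le hN.sqf hZN hχ
      have h6 := HZ_pos hσ.le hZp hχ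
      have h7 := le_trans (HZ_le hσ.le hZp hχ) hα
      have h8 : (σ - 1) * (2 * (cpsi i * √(e : ℝ) / √((B : ℝ) * X) + B / X)) ≤
          (σ - 1) * (2 * (2 * √((n1 : ℝ) + L) / √((B : ℝ) * X) + B / X)) := by gcongr
      have h9 : LN σ N (chi i e) ≤ ∑ m ∈ Icc 1 (4 * X), phi σ X m * chi i e m +
          (cpsi i * √(e : ℝ) * sg1 X + E) := by rw [hE]; linarith
      have h10 := mul_le_mul_of_nonneg_left h9 h6.le
      have h11 := mul_le_mul_of_nonneg_right h7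
        (add_nonneg (mul_nonneg hγ hsg) hE0)
      rw [sum_bb σ hN Z hZp (by omega) (by omega) (by omega) hPA hχ]
      have h12 := Finset.sum_filter_add_sum_filter_not N.divisors (fun a => A < a)
        (fun a => gw σ a * chi i e a)
      nlinarith
    have e1 : ∀ (s : Finset ℕ) (f : ℕ → ℝ), ∑ a ∈ s, f a * Kf a e =
        ∑ i : Fin 4, kk i e * ∑ a ∈ s, f a * chi i e a := by
      intro s f
      simp only [Kf, Finset.mul_sum]
      rw [Finset.sum_comm]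
      exact Finset.sum_congr rfl fun i _ => Finset.sum_congr rfl fun a _ => by ring
    have h3 := mul_le_mul_of_nonneg_left (sum_kk_cpsi_le e)
      (show 0 ≤ α / 2 * sg1 X * √(e : ℝ) by positivity)
    have h4 := mul_le_mul_of_nonneg_left (sum_kk_le e) (show 0 ≤ α / 2 * E by positivity)
    have h5 := Finset.sum_le_sum (s := (univ : Finset (Fin 4)))
      fun i _ => mul_le_mul_of_nonneg_left (hi i) (kk_nonneg i e)
    have h6 : ∑ i : Fin 4, kk i e * (∑ n ∈ Icc 1 M, bb σ Z.toList X A n * chi i e n +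
          (α / 2 * sg1 X * √(e : ℝ) * cpsi i + α / 2 * E)) =
        ∑ i : Fin 4, kk i e * ∑ n ∈ Icc 1 M, bb σ Z.toList X A n * chi i e n +
          (α / 2 * sg1 X * √(e : ℝ) * ∑ i : Fin 4, cpsi i * kk i e +
            α / 2 * E * ∑ i : Fin 4, kk i e) := by
      simp only [Fin.sum_univ_four]; ring
    rw [hV]
    simp only [e1]
    linarith
  have hc1 : 0 ≤ 1.828 * (α / 2) * sg1 X := by positivity
  have hc2 : 0 ≤ 7 / 4 * (α / 2) * E := by positivity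
  have h1 : ∑ e ∈ W, gw σ e * ∑ a ∈ N.divisors.filter (fun a => A < a), gw σ a * Kf a e ≤
      ∑ e ∈ W, (gw 1 e * |V e| + (1.828 * (α / 2) * sg1 X * (gw 1 e * √(e : ℝ)) +
        7 / 4 * (α / 2) * E * gw 1 e)) := by
    refine Finset.sum_le_sum fun e he => ?_
    have h2 : 0 ≤ |V e| + (1.828 * (α / 2) * sg1 X * √(e : ℝ) + 7 / 4 * (α / 2) * E) := by
      positivity
    calc _ ≤ gw σ e * (|V e| + (1.828 * (α / 2) * sg1 X * √(e : ℝ) + 7 / 4 * (α / 2) * E)) :=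
          mul_le_mul_of_nonneg_left (le_trans (key e he) (by linarith [le_abs_self (V e)]))
            (gw_pos σ e).le
      _ ≤ gw 1 e * (|V e| + (1.828 * (α / 2) * sg1 X * √(e : ℝ) + 7 / 4 * (α / 2) * E)) :=
          mul_le_mul_of_nonneg_right (gw_anti hσ.le e) h2
      _ = _ := by ring
  rw [Finset.sum_add_distrib, Finset.sum_add_distrib, ← Finset.mul_sum, ← Finset.mul_sum] at h1
  have h2 := mul_le_mul_of_nonneg_left hG1 hc1
  have h3 := mul_le_mul_of_nonneg_left hG0 hc2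
  have hQ : Qf M (bb σ Z.toList X A) ≤ nbW S α' X A ^ 2 := by
    have := sqrt_Qf_bb hσ.le M Z hZ' hX hA hα' hS0 (hS M)
    rw [← Real.sq_sqrt (Qf_nonneg M (bb σ Z.toList X A))]
    exact pow_le_pow_left₀ (Real.sqrt_nonneg _) this 2
  have hSf := Sf_bb hσ.le M Z hZ' hX A hβ
  have hSf0 := Sf_nonneg M (bb σ Z.toList X A)
  have h4 : ∑ e ∈ W, |V e| ^ 2 ≤ (L + At) * (2.28 * nbW S α' X A ^ 2) +
      √(((L : ℝ) + At) / At) * (1.828 * sbW β X A) ^ 2 := by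
    simp only [sq_abs]
    refine le_trans (sum_W_sq W (fun e he => ⟨hodd e he, (hW e he).2⟩) V) ?_
    rw [hV]
    refine le_trans (MSK_win M (bb σ Z.toList X A)
      (bb_even σ (fun p hp => hZ' p (Finset.mem_toList.mp hp)) X A) n1 L hAt) ?_
    gcongr
  have h5 : ∑ e ∈ W, gw 1 e * |V e| ≤ √(G2 * ((L + At) * (2.28 * nbW S α' X A ^ 2) +
      √(((L : ℝ) + At) / At) * (1.828 * sbW β X A) ^ 2)) := by
    refine Real.le_sqrt_of_sq_le (le_trans (Finset.sum_mul_sq_le_sq_mul_sq _ _ _) ?_)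
    exact mul_le_mul hG2 h4 (Finset.sum_nonneg fun _ _ => sq_nonneg _)
      (le_trans (Finset.sum_nonneg fun _ _ => sq_nonneg _) hG2)
  rw [← hE]
  linarith

end Pool.Agent.MP_5d10af_nt

end
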