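import Mathlib
import Pool.Agent.MP_5d10af_nt.Num.Prog
import Pool.Agent.MP_5d10af_nt.Mg.Euler
import Pool.Agent.MP_5d10af_nt.Mg.Win

-- part MP_5d10af_nt.Num.Pack
section

/-!
Vectors packed in natural numbers.
-/

set_option autoImplicit false

namespace Pool.Agent.MP_5d10af_nt.Num

open Finset

def pack (w : ℕ) (f : ℕ → ℕ) (n : ℕ) : ℕ := ∑ j ∈ range n, f j * 2 ^ (w * j)

lemma pack_zero (w : ℕ) (f : ℕ → ℕ) : pack w f 0 = 0 := by simp [pack]

lemma pack_succ (w : ℕ) (f : ℕ → ℕ) (n : ℕ) :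
    pack w f (n + 1) = pack w f n + f n * 2 ^ (w * n) := by
  simp [pack, sum_range_succ]

lemma pack_succ' (w : ℕ) (f : ℕ → ℕ) (n : ℕ) :
    pack w f (n + 1) = 2 ^ w * pack w (fun j => f (j + 1)) n + f 0 := by
  simp only [pack, sum_range_succ', mul_sum, mul_zero, pow_zero, mul_one]
  congr 1
  exact sum_congr rfl fun j _ => by rw [mul_add, pow_add]; ring

lemma pack_congr {w n : ℕ} {f g : ℕ → ℕ} (h : ∀ j < n, f j = g j) : pack w f n = pack w g n :=
  sum_congr rfl fun j hj => by rw [h j (mem_range.mp hj)]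

lemma pack_add (w n : ℕ) (f g : ℕ → ℕ) :
    pack w f n + pack w g n = pack w (fun j => f j + g j) n := by
  simp [pack, ← sum_add_distrib, add_mul]

lemma pack_mul (w n c : ℕ) (f : ℕ → ℕ) : pack w f n * c = pack w (fun j => f j * c) n := by
  simp only [pack, sum_mul]
  exact sum_congr rfl fun j _ => by ring

lemma pack_sub {w n : ℕ} {f g : ℕ → ℕ} (h : ∀ j < n, g j ≤ f j) :
    pack w f n - pack w g n = pack w (fun j => f j - g j) n := by
  have : pack w f n = pack w (fun j => f j - g j) n + pack w g n := by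
    rw [pack_add]; exact pack_congr fun j hj => (Nat.sub_add_cancel (h j hj)).symm
  omega

lemma pack_lt {w n : ℕ} {f : ℕ → ℕ} (h : ∀ j < n, f j < 2 ^ w) : pack w f n < 2 ^ (w * n) := by
  induction n with
  | zero => simp [pack]
  | succ n ih =>
    rw [pack_succ, mul_add, pow_add, mul_one]
    have h1 := ih fun j hj => h j (by omega)
    have h2 := h n (by omega)
    have h3 : (f n + 1) * 2 ^ (w * n) ≤ 2 ^ w * 2 ^ (w * n) := Nat.mul_le_mul_right _ h2
    nlinarith

lemma pack_append (w a b : ℕ) (f : ℕ → ℕ) :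
    pack w f (a + b) = pack w f a + pack w (fun j => f (a + j)) b * 2 ^ (w * a) := by
  simp only [pack, sum_range_add, sum_mul]
  congr 1
  exact sum_congr rfl fun j _ => by rw [mul_add, pow_add]; ring

lemma pack_pad {w n n' : ℕ} {f : ℕ → ℕ} (hn : n ≤ n') (h : ∀ j, n ≤ j → j < n' → f j = 0) :
    pack w f n' = pack w f n := by
  obtain ⟨b, rfl⟩ := Nat.exists_eq_add_of_le hn
  rw [pack_append]
  have : pack w (fun j => f (n + j)) b = 0 := by
    unfold pack
    exact sum_eq_zero fun j hj => by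
      show f (n + j) * _ = 0
      rw [h _ (by omega) (by have := mem_range.mp hj; omega), zero_mul]
  rw [this]; simp

lemma testBit_pack {w : ℕ} (hw : 0 < w) {n : ℕ} {f : ℕ → ℕ} (h : ∀ j < n, f j < 2 ^ w) (t : ℕ) :
    (pack w f n).testBit t = (decide (t / w < n) && (f (t / w)).testBit (t % w)) := by
  induction n generalizing f t with
  | zero => simp [pack]
  | succ n ih =>
    rw [pack_succ', Nat.testBit_two_pow_mul_add _ (h 0 (by omega))]
    split_ifs with ht
    · rw [Nat.div_eq_of_lt ht, Nat.mod_eq_of_lt ht]; simp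
    · obtain ⟨u, rfl⟩ := Nat.exists_eq_add_of_le (not_lt.mp ht)
      rw [ih fun j hj => h (j + 1) (by omega), Nat.add_sub_cancel_left, Nat.add_div_left _ hw,
        Nat.add_mod_left]
      simp

lemma pack_land {w : ℕ} (hw : 0 < w) {n n' : ℕ} {f g : ℕ → ℕ} (hf : ∀ j < n, f j < 2 ^ w)
    (hg : ∀ j < n', g j < 2 ^ w) (hn : n ≤ n') :
    pack w f n &&& pack w g n' = pack w (fun j => f j &&& g j) n := by
  apply Nat.eq_of_testBit_eq
  intro t
  rw [Nat.testBit_and, testBit_pack hw hf, testBit_pack hw hg,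
    testBit_pack hw fun j hj => lt_of_le_of_lt Nat.and_le_left (hf j hj), Nat.testBit_and]
  by_cases h : t / w < n
  · have h' : t / w < n' := by omega
    simp [h, h']
  · simp [h]

lemma pack_land' {w : ℕ} (hw : 0 < w) {n n' : ℕ} {f g : ℕ → ℕ} (hf : ∀ j < n, f j < 2 ^ w)
    (hg : ∀ j < n', g j < 2 ^ w) (hn : n' ≤ n) :
    pack w f n &&& pack w g n' = pack w (fun j => f j &&& g j) n' := by
  rw [Nat.and_comm, pack_land hw hg hf hn]
  exact pack_congr fun j _ => Nat.and_comm _ _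

lemma pack_xor {w : ℕ} (hw : 0 < w) {n : ℕ} {f g : ℕ → ℕ} (hf : ∀ j < n, f j < 2 ^ w)
    (hg : ∀ j < n, g j < 2 ^ w) :
    pack w f n ^^^ pack w g n = pack w (fun j => f j ^^^ g j) n := by
  apply Nat.eq_of_testBit_eq
  intro t
  rw [Nat.testBit_xor, testBit_pack hw hf, testBit_pack hw hg,
    testBit_pack hw fun j hj => Nat.xor_lt_two_pow (hf j hj) (hg j hj), Nat.testBit_xor]
  by_cases h : t / w < n <;> simp [h]

lemma full_eq (n : ℕ) : full n = 2 ^ n - 1 := rfl

lemma pack_one_mul (w n : ℕ) : pack w (fun _ => 1) n * (2 ^ w - 1) = 2 ^ (w * n) - 1 := by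
  induction n with
  | zero => simp [pack]
  | succ n ih =>
    rw [pack_succ, add_mul, ih, mul_add, pow_add, mul_one, one_mul]
    have h1 : 1 ≤ 2 ^ (w * n) := Nat.one_le_two_pow
    have h2 : 1 ≤ 2 ^ w := Nat.one_le_two_pow
    obtain ⟨a, ha⟩ := Nat.exists_eq_add_of_le h1
    obtain ⟨b, hb⟩ := Nat.exists_eq_add_of_le h2
    rw [ha, hb]
    have : (1 + a) * (1 + b) = 1 + (a + (1 + a) * b) := by ring
    rw [this]; simp

lemma ones_eq {w : ℕ} (hw : 0 < w) (n : ℕ) : ones w n = pack w (fun _ => 1) n := by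
  have h : 0 < 2 ^ w - 1 := by
    have : 2 ^ 1 ≤ 2 ^ w := Nat.pow_le_pow_right (by norm_num) hw
    omega
  show (2 ^ (w * n) - 1) / (2 ^ w - 1) = _
  rw [← pack_one_mul, Nat.mul_div_cancel _ h]

lemma full_pack (w n : ℕ) : full (w * n) = pack w (fun _ => 2 ^ w - 1) n := by
  rw [full_eq, ← pack_one_mul, pack_mul]; simp

lemma pack_modEq (w n : ℕ) (f : ℕ → ℕ) :
    pack w f n ≡ ∑ j ∈ range n, f j [MOD 2 ^ w - 1] := by
  have h : 2 ^ w ≡ 1 [MOD 2 ^ w - 1] :=
    ((Nat.modEq_iff_dvd' Nat.one_le_two_pow).mpr dvd_rfl).symm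
  induction n with
  | zero => simp [pack, Nat.ModEq]
  | succ n ih =>
    rw [pack_succ, sum_range_succ]
    refine ih.add ?_
    have := (h.pow n).mul_left (f n)
    rwa [one_pow, mul_one, ← pow_mul] at this

lemma ext_zero (x L : ℕ) : ext x L 0 = x := rfl

lemma ext_succ (x L k : ℕ) : ext x L (k + 1) = ext x L k + ext x L k <<< (L * 2 ^ k) := rfl

lemma ext_pack (w p k : ℕ) (f : ℕ → ℕ) :
    ext (pack w f p) (w * p) k = pack w (fun j => f (j % p)) (p * 2 ^ k) := by
  induction k with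
  | zero =>
    rw [ext_zero, pow_zero, mul_one]
    exact pack_congr fun j hj => by rw [Nat.mod_eq_of_lt hj]
  | succ k ih =>
    rw [ext_succ, ih, Nat.shiftLeft_eq, pow_succ, ← mul_assoc, mul_two, pack_append, mul_assoc]
    congr 2
    exact pack_congr fun j _ => by rw [Nat.mul_add_mod]

lemma land_max {w x : ℕ} (h : x < 2 ^ w) : x &&& (2 ^ w - 1) = x := by
  rw [Nat.and_two_pow_sub_one_eq_mod, Nat.mod_eq_of_lt h]

lemma pack_trunc {w : ℕ} (hw : 0 < w) {n n' : ℕ} {f : ℕ → ℕ} (hf : ∀ j < n', f j < 2 ^ w)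
    (hn : n ≤ n') : pack w f n' &&& full (w * n) = pack w f n := by
  have h2 : 1 ≤ 2 ^ w := Nat.one_le_two_pow
  rw [full_pack, pack_land' hw hf (fun _ _ => by omega) hn]
  exact pack_congr fun j hj => land_max (hf j (by omega))

lemma per_pack {w p : ℕ} (hw : 0 < w) (hp : 0 < p) (n : ℕ) {f : ℕ → ℕ}
    (hf : ∀ j < p, f j < 2 ^ w) : per w p n (pack w f p) = pack w (fun j => f (j % p)) n := by
  show ext (pack w f p) (w * p) (Nat.log2 (n / p) + 1) &&& full (w * n) = _
  rw [ext_pack]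
  refine pack_trunc hw (fun j _ => hf _ (Nat.mod_lt _ hp)) ?_
  have h1 : n / p < 2 ^ (Nat.log2 (n / p) + 1) := Nat.lt_log2_self
  have h2 : n < p * (n / p + 1) := Nat.lt_mul_div_succ n hp
  exact le_trans h2.le (Nat.mul_le_mul_left _ h1)

lemma cls_pack {w v q r : ℕ} (hw : 0 < w) (hv : v < 2 ^ w) (hr : r < q) (h n : ℕ) :
    cls w v q r h n = pack w (fun j => if (h + j) % q = r then v else 0) n := by
  have hq : 0 < q := by omega
  set s := (r + q - h % q) % q with hs
  have hsq : s < q := Nat.mod_lt _ hq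
  have e1 : v <<< (w * s) = pack w (fun j => if j = s then v else 0) q := by
    rw [Nat.shiftLeft_eq, pack, sum_eq_single s]
    · simp
    · intro j _ hj; simp [hj]
    · intro hj; exact absurd (mem_range.mpr hsq) hj
  show per w q n (v <<< (w * s)) = _
  rw [e1, per_pack hw hq n fun j _ => by split_ifs; exacts [hv, by positivity]]
  refine pack_congr fun j _ => ?_
  have hh : h % q < q := Nat.mod_lt _ hq
  have hj : j % q < q := Nat.mod_lt _ hq
  have key : j % q = s ↔ (h + j) % q = r := by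
    rw [Nat.add_mod h j, hs]
    generalize h % q = a at *
    generalize j % q = b at *
    by_cases h1 : r + q - a < q
    · rw [Nat.mod_eq_of_lt h1]
      by_cases h2 : a + b < q
      · rw [Nat.mod_eq_of_lt h2]; omega
      · rw [Nat.mod_eq_sub_mod (not_lt.mp h2), Nat.mod_eq_of_lt (by omega)]; omega
    · rw [Nat.mod_eq_sub_mod (not_lt.mp h1), Nat.mod_eq_of_lt (by omega)]
      by_cases h2 : a + b < q
      · rw [Nat.mod_eq_of_lt h2]; omega
      · rw [Nat.mod_eq_sub_mod (not_lt.mp h2), Nat.mod_eq_of_lt (by omega)]; omega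
  simp only [key]

def slice (x s b : ℕ) : ℕ := x >>> s % 2 ^ b

lemma slice_lt (x s b : ℕ) : slice x s b < 2 ^ b := Nat.mod_lt _ (by positivity)

lemma testBit_slice (x s b t : ℕ) : (slice x s b).testBit t = (decide (t < b) && x.testBit (s + t)) := by
  rw [slice, Nat.testBit_mod_two_pow, Nat.testBit_shiftRight]

lemma slice_slice (x s b s' b' : ℕ) (h : s' + b' ≤ b) :
    slice (slice x s b) s' b' = slice x (s + s') b' := by
  apply Nat.eq_of_testBit_eq
  intro t
  rw [testBit_slice, testBit_slice, testBit_slice, add_assoc]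
  by_cases ht : t < b'
  · have : s' + t < b := by omega
    simp [ht, this]
  · simp [ht]

lemma spread_step {b K m W W' D : ℕ} (hb : 0 < b) (hK : 0 < K) (hW : W' = D + b)
    (hW' : W = K * W') (hD : K * b ≤ D) {v : ℕ → ℕ} (hv : ∀ i < m, v i < 2 ^ (K * b)) :
    (pack W v m * ones D K) &&& (ones W' (m * K) * full b) =
      pack W' (fun t => slice (v (t / K)) (b * (t % K)) b) (m * K) := by
  have hD0 : 0 < D := lt_of_lt_of_le (Nat.mul_pos hK hb) hD
  have hW0 : 0 < W' := by omega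
  have hW1 : 0 < W := hW' ▸ Nat.mul_pos hK hW0
  have hvD : ∀ i < m, v i < 2 ^ D := fun i hi =>
    lt_of_lt_of_le (hv i hi) (Nat.pow_le_pow_right (by norm_num) hD)
  have hbW : 2 ^ b ≤ 2 ^ W' := Nat.pow_le_pow_right (by norm_num) (by omega)
  have hb1 : 1 ≤ 2 ^ b := Nat.one_le_two_pow
  have e1 : pack W v m * ones D K = pack W (fun i => pack D (fun _ => v i) K) m := by
    rw [pack_mul, ones_eq hD0]
    exact pack_congr fun i _ => by rw [mul_comm, pack_mul]; simp
  have h1 : ∀ i < m, pack D (fun _ => v i) K < 2 ^ W := fun i hi =>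
    lt_of_lt_of_le (pack_lt fun _ _ => hvD i hi)
      (Nat.pow_le_pow_right (by norm_num) (by rw [hW', hW]; nlinarith))
  rw [e1, ones_eq hW0, pack_mul]
  apply Nat.eq_of_testBit_eq
  intro t
  rw [Nat.testBit_and, testBit_pack hW1 h1,
    testBit_pack hW0 fun _ _ => by rw [one_mul, full_eq]; omega,
    testBit_pack hW0 fun j _ => lt_of_lt_of_le (slice_lt _ _ _) hbW, testBit_slice, one_mul,
    full_eq, Nat.testBit_two_pow_sub_one]
  have hdiv : t / W = t / W' / K := by rw [Nat.div_div_eq_div_mul, hW', mul_comm]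
  have hlt : t / W' / K < m ↔ t / W' < m * K := Nat.div_lt_iff_lt_mul hK
  by_cases hc : t % W' < b
  · by_cases hm : t / W' < m * K
    · have hm' := hlt.mpr hm
      have hκ : t / W' % K < K := Nat.mod_lt _ hK
      have hmod : t % W = D * (t / W' % K) + (b * (t / W' % K) + t % W') := by
        rw [hW', mul_comm K W', Nat.mod_mul, hW]; ring
      have hsm : b * (t / W' % K) + t % W' < D := by
        have : b * (t / W' % K + 1) ≤ b * K := Nat.mul_le_mul_left _ hκ
        nlinarith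
      rw [hdiv, testBit_pack hD0 fun _ _ => hvD _ hm', hmod, Nat.mul_add_div hD0,
        Nat.div_eq_of_lt hsm, Nat.mul_add_mod, Nat.mod_eq_of_lt hsm]
      simp [hc, hm, hm', hκ]
    · simp [hm]
  · simp [hc]

lemma full_one : full 1 = 1 := rfl

attribute [local irreducible] ones full

lemma MM_eq : MM = 2 ^ 40 - 1 := by norm_num [MM]

lemma spread_pack {x n : ℕ} (hn : n ≤ 8192) (hx : x < 2 ^ n) :
    spread x = pack 40 (fun j => if x.testBit j then MM else 0) n := by
  have hx' : x < 2 ^ (32 * 256) :=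
    lt_of_lt_of_le hx (Nat.pow_le_pow_right (by norm_num) (by omega))
  have e0 : x = pack 327680 (fun _ => x) 1 := by simp [pack]
  have e1 : (x * C0) &&& M0 = pack 10240 (fun t => slice x (256 * t) 256) 32 := by
    have := spread_step (b := 256) (K := 32) (m := 1) (W := 327680) (W' := 10240) (D := 9984)
      (v := fun _ => x) (by norm_num) (by norm_num) (by norm_num) (by norm_num) (by norm_num)
      (fun _ _ => hx')
    rw [← e0] at this
    refine this.trans (pack_congr fun t ht => ?_)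
    rw [Nat.mod_eq_of_lt (by omega)]
  have e2 : (pack 10240 (fun t => slice x (256 * t) 256) 32 * C1) &&& M1 =
      pack 640 (fun t => slice x (16 * t) 16) 512 := by
    have := spread_step (b := 16) (K := 16) (m := 32) (W := 10240) (W' := 640) (D := 624)
      (v := fun t => slice x (256 * t) 256) (by norm_num) (by norm_num) (by norm_num)
      (by norm_num) (by norm_num) (fun _ _ => slice_lt _ _ _)
    refine this.trans (pack_congr fun t _ => ?_)
    rw [slice_slice _ _ _ _ _ (by omega)]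
    congr 1; omega
  have e3 : (pack 640 (fun t => slice x (16 * t) 16) 512 * C2) &&& M2 =
      pack 40 (fun t => slice x t 1) 8192 := by
    have := spread_step (b := 1) (K := 16) (m := 512) (W := 640) (W' := 40) (D := 39)
      (v := fun t => slice x (16 * t) 16) (by norm_num) (by norm_num) (by norm_num)
      (by norm_num) (by norm_num) (fun _ _ => slice_lt _ _ _)
    rw [full_one, mul_one] at this
    refine this.trans (pack_congr fun t _ => ?_)
    rw [slice_slice _ _ _ _ _ (by omega)]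
    congr 1; omega
  show ((((((x * C0) &&& M0) * C1) &&& M1) * C2) &&& M2) * MM = _
  rw [e1, e2, e3, pack_mul, ← pack_pad hn (f := fun j => if x.testBit j then MM else 0)]
  · refine pack_congr fun t _ => ?_
    rw [slice, pow_one, Nat.shiftRight_eq_div_pow, Nat.testBit_eq_decide_div_mod_eq]
    rcases Nat.mod_two_eq_zero_or_one (x / 2 ^ t) with h | h <;> simp [h]
  · intro j hj _
    rw [Nat.testBit_lt_two_pow (lt_of_lt_of_le hx (Nat.pow_le_pow_right (by norm_num) hj))]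
    simp

lemma shr_pack {n : ℕ} {f : ℕ → ℕ} (hf : ∀ j < n, f j < 2 ^ 40) :
    shr n (pack 40 f n) = pack 40 (fun j => f j / 65536) n := by
  show (pack 40 f n >>> 16) &&& (ones 40 n * full 24) = _
  rw [ones_eq (by norm_num), pack_mul]
  apply Nat.eq_of_testBit_eq
  intro t
  rw [Nat.testBit_and, Nat.testBit_shiftRight, testBit_pack (by norm_num) hf,
    testBit_pack (by norm_num) fun _ _ => by norm_num [full_eq],
    testBit_pack (by norm_num) fun j hj => lt_of_le_of_lt (Nat.div_le_self _ _) (hf j hj),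
    one_mul, full_eq, Nat.testBit_two_pow_sub_one, show 65536 = 2 ^ 16 by norm_num,
    Nat.testBit_div_two_pow]
  by_cases hc : t % 40 < 24
  · have h1 : (16 + t) / 40 = t / 40 := by omega
    have h2 : (16 + t) % 40 = t % 40 + 16 := by omega
    rw [h1, h2]
    by_cases hm : t / 40 < n <;> simp [hc, hm]
  · by_cases hm : t / 40 < n
    · have : (f (t / 40)).testBit (t % 40 + 16) = false :=
        Nat.testBit_lt_two_pow (lt_of_lt_of_le (hf _ hm)
          (Nat.pow_le_pow_right (by norm_num) (by omega)))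
      simp [hc, this]
    · simp [hm]

lemma pack_pair (f : ℕ → ℕ) (n : ℕ) :
    pack 40 f (2 * n) = pack 80 (fun i => 2 ^ 40 * f (2 * i + 1) + f (2 * i)) n := by
  induction n with
  | zero => simp [pack]
  | succ n ih =>
    rw [show 2 * (n + 1) = 2 * n + 1 + 1 by ring, pack_succ, pack_succ, pack_succ, ih,
      show 40 * (2 * n + 1) = 40 + 80 * n by ring, show 40 * (2 * n) = 80 * n by ring, pow_add]
    ring

lemma even_sum {f : ℕ → ℕ} (hf : ∀ j, f j < 2 ^ 40) :
    (pack 40 f 8192 &&& evenM) % full 80 = ∑ i ∈ range 4096, f (2 * i) := by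
  have e1 : pack 40 f 8192 &&& evenM = pack 80 (fun i => f (2 * i)) 4096 := by
    show _ &&& (ones 80 4096 * MM) = _
    rw [show 8192 = 2 * 4096 by norm_num, pack_pair, ones_eq (by norm_num), pack_mul,
      pack_land (by norm_num) _ (fun _ _ => by norm_num [MM]) le_rfl]
    · refine pack_congr fun i _ => ?_
      rw [one_mul, MM_eq, Nat.and_two_pow_sub_one_eq_mod, Nat.mul_add_mod, Nat.mod_eq_of_lt (hf _)]
    · intro j _
      have h1 := hf (2 * j + 1)
      have h2 := hf (2 * j)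
      norm_num at *
      omega
  rw [e1, full_eq, pack_modEq 80 4096 _]
  apply Nat.mod_eq_of_lt
  have : ∑ i ∈ range 4096, f (2 * i) ≤ 4096 • 2 ^ 40 := by
    have := sum_le_card_nsmul (range 4096) (fun i => f (2 * i)) (2 ^ 40) fun i _ => (hf _).le
    rwa [card_range] at this
  norm_num at *
  omega

lemma sum_pair (f : ℕ → ℕ) (n : ℕ) :
    ∑ i ∈ range n, f (2 * i) + ∑ i ∈ range n, f (2 * i + 1) = ∑ j ∈ range (2 * n), f j := by
  induction n with
  | zero => simp
  | succ n ih =>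
    rw [show 2 * (n + 1) = 2 * n + 1 + 1 by ring, sum_range_succ, sum_range_succ,
      sum_range_succ, sum_range_succ, ← ih]
    ring

lemma sumF_pack {n : ℕ} (hn : n ≤ 8192) {f : ℕ → ℕ} (hf : ∀ j < n, f j < 2 ^ 40) :
    sumF (pack 40 f n) = ∑ j ∈ range n, f j := by
  set g : ℕ → ℕ := fun j => if j < n then f j else 0 with hg
  have hgb : ∀ j, g j < 2 ^ 40 := fun j => by
    simp only [hg]; split_ifs with h
    exacts [hf j h, by positivity]
  have e0 : ∀ k, n ≤ k → pack 40 f n = pack 40 g k := fun k hk => by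
    rw [pack_pad hk (f := g) fun j hj _ => by simp [hg, not_lt.mpr hj]]
    exact pack_congr fun j hj => by simp [hg, hj]
  have e1 : pack 40 f n >>> 40 = pack 40 (fun j => g (j + 1)) 8192 := by
    rw [e0 (8192 + 1) (by omega), pack_succ', Nat.shiftRight_eq_div_pow,
      Nat.mul_add_div (by positivity), Nat.div_eq_of_lt (hgb 0), add_zero]
  show (pack 40 f n &&& evenM) % full 80 + (pack 40 f n >>> 40 &&& evenM) % full 80 = _
  rw [e1, e0 8192 hn, even_sum hgb, even_sum fun j => hgb _, sum_pair g 4096]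
  rw [← sum_subset (range_subset_range.mpr (show n ≤ 2 * 4096 by omega))]
  · exact sum_congr rfl fun j hj => by simp [hg, mem_range.mp hj]
  · intro j _ hj
    simp only [mem_range] at hj
    simp [hg, hj]

lemma kill_pack (h : ℕ) {n : ℕ} {f : ℕ → ℕ} (hf : ∀ j < n, f j < 2 ^ 40) :
    kill h (pack 40 f n) = pack 40 (fun j => if h + j = 0 then 0 else f j) n := by
  unfold kill
  rcases Nat.eq_zero_or_pos h with rfl | hh
  · show (pack 40 f n >>> 40) <<< 40 = _
    rcases n with _ | n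
    · simp [pack]
    · rw [pack_succ', pack_succ', Nat.shiftRight_eq_div_pow, Nat.mul_add_div (by positivity),
        Nat.div_eq_of_lt (hf 0 (by omega)), Nat.shiftLeft_eq]
      simp [mul_comm]
  · have : Nat.beq h 0 = false := by
      rw [Bool.eq_false_iff]; intro h'; have := Nat.eq_of_beq_eq_true h'; omega
    rw [this, cond_false]
    exact pack_congr fun j _ => by rw [if_neg (by omega)]

lemma bits_pack {x n : ℕ} (hx : x < 2 ^ n) :
    x = pack 1 (fun j => if x.testBit j then 1 else 0) n := by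
  apply Nat.eq_of_testBit_eq
  intro t
  rw [testBit_pack (by norm_num) fun j _ => by split_ifs <;> norm_num, Nat.div_one, Nat.mod_one]
  by_cases ht : t < n
  · cases x.testBit t <;> simp [ht]
  · rw [Nat.testBit_lt_two_pow (lt_of_lt_of_le hx
      (Nat.pow_le_pow_right (by norm_num) (not_lt.mp ht)))]
    simp [ht]

end Pool.Agent.MP_5d10af_nt.Num

end

-- part MP_5d10af_nt.Num.Mask
section

/-!
The masks.
-/

set_option autoImplicit false

namespace Pool.Agent.MP_5d10af_nt.Num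

open Finset

attribute [local irreducible] ones full

def ee (h j : ℕ) : ℕ := 2 * (h + j) + 1

def msk (n : ℕ) (s : ℕ → Bool) : ℕ := pack 40 (fun j => if s j then MM else 0) n

lemma MM_lt : MM < 2 ^ 40 := by norm_num [MM]

lemma ite_lt (b : Bool) : (if b then MM else 0) < 2 ^ 40 := by
  cases b <;> norm_num [MM]

lemma msk_congr {n : ℕ} {s t : ℕ → Bool} (h : ∀ j < n, s j = t j) : msk n s = msk n t :=
  pack_congr fun j hj => by rw [h j hj]

lemma land_msk {n : ℕ} {f : ℕ → ℕ} (hf : ∀ j < n, f j < 2 ^ 40) (s : ℕ → Bool) :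
    pack 40 f n &&& msk n s = pack 40 (fun j => if s j then f j else 0) n := by
  rw [msk, pack_land (by norm_num) hf (fun j _ => ite_lt _) le_rfl]
  refine pack_congr fun j hj => ?_
  cases s j
  · simp
  · simp only [if_true, MM_eq]; exact land_max (hf j hj)

lemma xor_MM {x : ℕ} (hx : x < 2 ^ 40) : x ^^^ MM = MM - x := by
  have : MM - x = 2 ^ 40 - (x + 1) := by rw [MM_eq]; omega
  rw [this, MM_eq]
  apply Nat.eq_of_testBit_eq
  intro t
  rw [Nat.testBit_xor, Nat.testBit_two_pow_sub_one, Nat.testBit_two_pow_sub_succ hx]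
  by_cases ht : t < 40
  · simp [ht]
  · have := Nat.testBit_lt_two_pow (lt_of_lt_of_le hx
      (Nat.pow_le_pow_right (by norm_num) (not_lt.mp ht)))
    simp [ht, this]

lemma xor_msk {n : ℕ} {f : ℕ → ℕ} (hf : ∀ j < n, f j < 2 ^ 40) (s : ℕ → Bool) :
    pack 40 f n ^^^ msk n s = pack 40 (fun j => if s j then MM - f j else f j) n := by
  rw [msk, pack_xor (by norm_num) hf (fun j _ => ite_lt _)]
  refine pack_congr fun j hj => ?_
  cases s j
  · simp
  · simp only [if_true]; exact xor_MM (hf j hj)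

lemma msk_land (n : ℕ) (s t : ℕ → Bool) : msk n s &&& msk n t = msk n fun j => s j && t j := by
  rw [msk, land_msk fun j _ => ite_lt _]
  exact pack_congr fun j _ => by cases hs : s j <;> cases ht : t j <;> simp [hs, ht]

lemma msk_xor (n : ℕ) (s t : ℕ → Bool) : msk n s ^^^ msk n t = msk n fun j => xor (s j) (t j) := by
  rw [msk, xor_msk fun j _ => ite_lt _]
  exact pack_congr fun j _ => by cases hs : s j <;> cases ht : t j <;> simp [hs, ht]

lemma full_msk (n : ℕ) : full (40 * n) = msk n fun _ => true := by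
  rw [full_pack, msk, MM_eq]; simp

lemma zero_msk (n : ℕ) : 0 = msk n fun _ => false := by simp [msk, pack]

lemma cls_msk {q r : ℕ} (hr : r < q) (h n : ℕ) :
    cls 40 MM q r h n = msk n fun j => decide ((h + j) % q = r) := by
  rw [cls_pack (by norm_num) MM_lt hr, msk]; simp

lemma dvd_ee {p : ℕ} (hp : p % 2 = 1) (h j : ℕ) : (h + j) % p = p / 2 ↔ p ∣ ee h j := by
  have hp0 : 0 < p := by omega
  have hy : (h + j) % p < p := Nat.mod_lt _ hp0
  have e : ee h j = p * (2 * ((h + j) / p)) + (2 * ((h + j) % p) + 1) := by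
    have := Nat.div_add_mod (h + j) p
    unfold ee; nlinarith
  rw [e, Nat.dvd_add_right (dvd_mul_right _ _)]
  generalize (h + j) % p = y at *
  constructor
  · intro hy; exact ⟨1, by omega⟩
  · rintro ⟨c, hc⟩
    have hc2 : c < 2 := by
      by_contra hcon
      have : p * 2 ≤ p * c := Nat.mul_le_mul_left _ (not_lt.mp hcon)
      omega
    interval_cases c <;> omega

lemma mkZ_eq {p : ℕ} (hp : p % 2 = 1) (h n : ℕ) :
    mkZ h n p = msk n fun j => decide (p ∣ ee h j) := by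
  show cls 40 MM p (p / 2) h n = _
  rw [cls_msk (by omega)]
  exact msk_congr fun j _ => by simp only [dvd_ee hp]

lemma mkN_eq {p : ℕ} (hp : p % 2 = 1) (h n : ℕ) :
    mkN h n p = msk n fun j => !decide (p ∣ ee h j) := by
  show mkZ h n p ^^^ full (40 * n) = _
  rw [mkZ_eq hp, full_msk, msk_xor]
  exact msk_congr fun j _ => by simp

noncomputable def marks (p k : ℕ) : ℕ :=
  Nat.rec 0 (fun i acc =>
    Nat.lor acc (Nat.shiftLeft 1 (Nat.mod (Nat.mul 2 (Nat.mul i (Nat.succ i))) p))) k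

lemma marks_succ (p k : ℕ) : marks p (k + 1) = marks p k ||| 1 <<< (2 * (k * (k + 1)) % p) := rfl

lemma testBit_marks (p k y : ℕ) :
    (marks p k).testBit y = true ↔ ∃ i < k, 2 * (i * (i + 1)) % p = y := by
  induction k with
  | zero => simp [marks]
  | succ k ih =>
    rw [marks_succ, Nat.testBit_or, Bool.or_eq_true, ih, Nat.one_shiftLeft, Nat.testBit_two_pow]
    simp only [decide_eq_true_eq]
    constructor
    · rintro (⟨i, hi, h⟩ | h)
      exacts [⟨i, by omega, h⟩, ⟨k, by omega, h⟩]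
    · rintro ⟨i, hi, h⟩
      rcases Nat.lt_succ_iff_lt_or_eq.mp hi with hi | rfl
      exacts [Or.inl ⟨i, hi, h⟩, Or.inr h]

lemma qr_eq (p : ℕ) : qr p = full p ^^^ marks p (p / 2) := rfl

lemma qr_lt {p : ℕ} (hp : 0 < p) : qr p < 2 ^ p := by
  rw [qr_eq, full_eq]
  refine Nat.xor_lt_two_pow (by have : 0 < 2 ^ p := by positivity
                                omega) ?_
  apply Nat.lt_pow_two_of_testBit
  intro y hy
  rw [Bool.eq_false_iff]
  intro h
  obtain ⟨i, -, hi⟩ := (testBit_marks _ _ _).mp h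
  have := Nat.mod_lt (2 * (i * (i + 1))) hp
  omega

lemma jac_qr {p : ℕ} (hp : p.Prime) (hp2 : p % 2 = 1) {t : ℕ} (hd : ¬ p ∣ 2 * t + 1) :
    jacobiSym ((2 * t + 1 : ℕ) : ℤ) p = if (qr p).testBit (t % p) then -1 else 1 := by
  have := Fact.mk hp
  have hy : t % p < p := Nat.mod_lt _ hp.pos
  have hne : ((((2 * t + 1 : ℕ) : ℤ)) : ZMod p) ≠ 0 := by
    rw [Int.cast_natCast, Ne, ZMod.natCast_eq_zero_iff]; exact hd
  have h2 : (2 : ZMod p) ≠ 0 := by
    intro h
    have : p ∣ 2 := (ZMod.natCast_eq_zero_iff 2 p).mp (by exact_mod_cast h)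
    have := Nat.le_of_dvd (by norm_num) this
    have := hp.two_le
    omega
  have key : (marks p (p / 2)).testBit (t % p) = true ↔
      IsSquare ((((2 * t + 1 : ℕ) : ℤ)) : ZMod p) := by
    rw [testBit_marks]
    constructor
    · rintro ⟨i, -, hi⟩
      have h1 : ((2 * (i * (i + 1)) : ℕ) : ZMod p) = (t : ℕ) :=
        (ZMod.natCast_eq_natCast_iff' _ _ _).mpr hi
      refine ⟨2 * i + 1, ?_⟩
      push_cast at h1 ⊢
      linear_combination (-2) * h1
    · rintro ⟨x, hx⟩
      have hx0 : x ≠ 0 := by rintro rfl; exact hne (by rw [hx, mul_zero])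
      have hv : x.val < p := ZMod.val_lt x
      have hv0 : x.val ≠ 0 := by rwa [Ne, ZMod.val_eq_zero]
      have fin : ∀ i : ℕ, ((2 * i + 1 : ℕ) : ZMod p) ^ 2 = x ^ 2 →
          2 * (i * (i + 1)) % p = t % p := by
        intro i hi
        rw [← ZMod.natCast_eq_natCast_iff']
        apply mul_left_cancel₀ h2
        push_cast at hi hx ⊢
        linear_combination hi - hx
      rcases Nat.mod_two_eq_zero_or_one x.val with h0 | h1
      · refine ⟨(p - x.val) / 2, by omega, fin _ ?_⟩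
        rw [show 2 * ((p - x.val) / 2) + 1 = p - x.val by omega, Nat.cast_sub hv.le]
        simp
      · refine ⟨x.val / 2, by omega, fin _ ?_⟩
        rw [show 2 * (x.val / 2) + 1 = x.val by omega]
        simp
  rw [← jacobiSym.legendreSym.to_jacobiSym, qr_eq, Nat.testBit_xor, full_eq,
    Nat.testBit_two_pow_sub_one]
  by_cases hs : IsSquare ((((2 * t + 1 : ℕ) : ℤ)) : ZMod p)
  · rw [key.mpr hs, (legendreSym.eq_one_iff p hne).mpr hs]; simp [hy]
  · have : (marks p (p / 2)).testBit (t % p) = false := by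
      rw [Bool.eq_false_iff]; exact fun h => hs (key.mp h)
    rw [this, (legendreSym.eq_neg_one_iff p).mpr hs]; simp [hy]

noncomputable def sB (p h j : ℕ) : Bool :=
  xor ((qr p).testBit ((h + j) % p)) (decide (p % 4 = 3) && decide ((h + j) % 2 = 1))

lemma jac_sB {p : ℕ} (hp : p.Prime) (hp2 : p % 2 = 1) {h j : ℕ} (hd : ¬ p ∣ ee h j) :
    jacobiSym p (ee h j) = if sB p h j then -1 else 1 := by
  have he : ee h j % 2 = 1 := by unfold ee; omega
  rw [jac_rec he hp2, ee, jac_qr hp hp2 hd, sB]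
  by_cases h4 : p % 4 = 1
  · have : ¬ p % 4 = 3 := by omega
    simp [h4]
  · have h3 : p % 4 = 3 := by omega
    rcases Nat.mod_two_eq_zero_or_one (h + j) with h0 | h1
    · have : psi 1 (2 * (h + j) + 1) = 1 := by
        have a1 : ¬ (2 * (h + j) + 1) % 2 = 0 := by omega
        have a2 : (2 * (h + j) + 1) % 4 = 1 := by omega
        simp [psi, a2]
      simp [h3, h0, this]
    · have : psi 1 (2 * (h + j) + 1) = -1 := by
        have a1 : ¬ (2 * (h + j) + 1) % 2 = 0 := by omega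
        have a2 : ¬ (2 * (h + j) + 1) % 4 = 1 := by omega
        simp [psi, a2]
      cases hq : (qr p).testBit ((h + j) % p) <;> simp [h3, h1, this]

lemma beq_eq (a b : ℕ) : Nat.beq a b = decide (a = b) := by
  by_cases h : a = b
  · subst h; simp [Nat.beq_refl]
  · rw [decide_eq_false h, Bool.eq_false_iff]; exact fun h' => h (Nat.eq_of_beq_eq_true h')

lemma mkS_eq {p : ℕ} (hp : 0 < p) (h : ℕ) {n : ℕ} (hn : n ≤ 8192) :
    mkS h n p (qr p) = msk n (sB p h) := by
  set R := ((qr p + qr p <<< p) >>> (h % p)) &&& full p with hR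
  have hRlt : R < 2 ^ p := by
    rw [hR, full_eq, Nat.and_two_pow_sub_one_eq_mod]; exact Nat.mod_lt _ (by positivity)
  have hRb : ∀ j < p, R.testBit j = (qr p).testBit ((h + j) % p) := by
    intro j hj
    have hh : h % p < p := Nat.mod_lt _ hp
    rw [hR, Nat.testBit_and, full_eq, Nat.testBit_two_pow_sub_one, Nat.testBit_shiftRight,
      Nat.shiftLeft_eq, add_comm, mul_comm, Nat.testBit_two_pow_mul_add _ (qr_lt hp),
      Nat.add_mod h j, Nat.mod_eq_of_lt hj]
    split_ifs with h1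
    · rw [Nat.mod_eq_of_lt h1]; simp [hj]
    · rw [Nat.mod_eq_sub_mod (not_lt.mp h1),
        Nat.mod_eq_of_lt (show h % p + j - p < p by omega)]
      simp [hj]
  have b1 : ∀ (c : Prop) [Decidable c], (if c then 1 else 0 : ℕ) < 2 ^ 1 := fun c _ => by
    split_ifs <;> norm_num
  have e1 : per 1 p n R =
      pack 1 (fun j => if (qr p).testBit ((h + j) % p) then 1 else 0) n := by
    rw [bits_pack hRlt, per_pack (by norm_num) hp n fun j _ => b1 _]
    refine pack_congr fun j _ => ?_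
    rw [hRb _ (Nat.mod_lt _ hp), Nat.add_mod_mod]
  have e2 : cond (Nat.beq (p % 4) 3) (cls 1 1 2 1 h n) 0 =
      pack 1 (fun j => if p % 4 = 3 ∧ (h + j) % 2 = 1 then 1 else 0) n := by
    rw [beq_eq]
    by_cases h3 : p % 4 = 3
    · rw [decide_eq_true h3, cond_true, cls_pack (by norm_num) (by norm_num) (by norm_num)]
      simp [h3]
    · rw [decide_eq_false h3, cond_false]; simp [h3, pack]
  show spread (per 1 p n R ^^^ cond (Nat.beq (p % 4) 3) (cls 1 1 2 1 h n) 0) = _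
  rw [e1, e2, pack_xor (by norm_num) (fun j _ => b1 _) (fun j _ => b1 _)]
  have hb : ∀ j < n, ((if (qr p).testBit ((h + j) % p) then 1 else 0) ^^^
      (if p % 4 = 3 ∧ (h + j) % 2 = 1 then 1 else 0) : ℕ) < 2 ^ 1 :=
    fun j _ => Nat.xor_lt_two_pow (b1 _) (b1 _)
  rw [spread_pack hn (by simpa using pack_lt hb), msk]
  refine pack_congr fun j hj => ?_
  rw [testBit_pack (by norm_num) hb, Nat.div_one, Nat.mod_one, sB]
  cases (qr p).testBit ((h + j) % p) <;> by_cases h3 : p % 4 = 3 <;>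
    by_cases h1 : (h + j) % 2 = 1 <;> simp [hj, h3, h1]

end Pool.Agent.MP_5d10af_nt.Num

end

-- part MP_5d10af_nt.NumDefs
section

/-!
The finite part of the explicit bound.
-/

set_option autoImplicit false

namespace Pool.Agent.MP_5d10af_nt

open Finset

noncomputable def GG (σ : ℝ) (e : ℕ) : ℝ := if Squarefree e then gw σ e else 0

def Z97 : Finset ℕ :=
  {3, 5, 7, 11, 13, 17, 19, 23, 29, 31, 37, 41, 43, 47, 53, 59, 61, 67, 71, 73, 79, 83, 89, 97}

noncomputable def majT (σ : ℝ) (i : Fin 4) (e : ℕ) : ℝ :=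
  (∑ m ∈ Icc 1 8192, phi σ 2048 m * chi i e m) + cpsi i * √(e : ℝ) * sg1 2048 + 0.000222

noncomputable def numT (σ c : ℝ) (e : ℕ) : ℝ :=
  GG σ e * (c * ∑ i : Fin 4, (if e = 1 ∧ i = 0 then 0 else
      kk i e * (PZ σ Z97 (chi i e) / 2 + HZ σ Z97 (chi i e) * majT σ i e / 2)) -
    ∑ a ∈ Icc 1 8192, GG σ a * Kf a e)

noncomputable def numS (σ : ℝ) : ℝ :=
  ∑ j ∈ range 4096, numT σ 2 (2 * j + 1) + ∑ j ∈ Ico 4096 524288, numT σ 1 (2 * j + 1)

/-- The part of the double sum where both variables are large. -/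
noncomputable def tailS (σ : ℝ) (N : ℕ) : ℝ :=
  ∑ e ∈ N.divisors.filter (fun e => 2 ^ 20 < e),
    gw σ e * ∑ a ∈ N.divisors.filter (fun a => 2 ^ 13 < a), gw σ a * Kf a e

/-- A bound that holds for `σ` close to one and `N` divisible by enough primes. -/
def Ev (S : ℝ → ℕ → Prop) : Prop :=
  ∃ σ0 : ℝ, 1 < σ0 ∧ ∀ σ : ℝ, 1 < σ → σ < σ0 → ∃ P0 : ℕ, ∀ P N : ℕ, P0 ≤ P → Good P N → S σ N

def Ew (i : ℕ) : ℕ := 2 ^ (20 + 4 * i)

def Ab (l : ℕ) : ℕ := 2 ^ (13 + 6 * l)

noncomputable def winS (σ : ℝ) (N i : ℕ) : ℝ :=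
  ∑ e ∈ N.divisors.filter (fun e => Ew i < e ∧ e ≤ Ew (i + 1)),
    gw σ e * ∑ a ∈ N.divisors.filter (fun a => Ab ((i + 1) / 3) < a), gw σ a * Kf a e

noncomputable def blkS (σ : ℝ) (N l : ℕ) : ℝ :=
  ∑ e ∈ N.divisors.filter (fun e => Ew (2 + 3 * l) < e),
    gw σ e * ∑ a ∈ N.divisors.filter (fun a => Ab l < a ∧ a ≤ Ab (l + 1)), gw σ a * Kf a e

end Pool.Agent.MP_5d10af_nt

end

-- part MP_5d10af_nt.Num.Wt
section

/-!
The weight vectors.
-/

set_option autoImplicit false

namespace Pool.Agent.MP_5d10af_nt.Num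

open Finset

attribute [local irreducible] ones full

def PrimeL (L : List (ℕ × ℕ)) : Prop := ∀ x ∈ L, x.1.Prime ∧ x.1 % 2 = 1 ∧ x.2 = qr x.1

lemma PrimeL.tail {x : ℕ × ℕ} {t : List (ℕ × ℕ)} (h : PrimeL (x :: t)) : PrimeL t :=
  fun y hy => h y (List.mem_cons_of_mem _ hy)

lemma foldP_nil (f : ℕ → ℕ → ℕ → ℕ) (W : ℕ) : foldP f W [] = W := rfl

lemma foldP_cons (f : ℕ → ℕ → ℕ → ℕ) (W : ℕ) (x : ℕ × ℕ) (t : List (ℕ × ℕ)) :
    foldP f W (x :: t) = f x.1 x.2 (foldP f W t) := rfl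

lemma prodP_eq (L : List (ℕ × ℕ)) : prodP L = (L.map Prod.fst).prod := by
  induction L with
  | nil => rfl
  | cons x t ih => rw [List.map_cons, List.prod_cons, ← ih]; rfl

lemma bld_pack (Q SC d e : ℕ) : bld Q SC d e = pack 40 (fun j => val Q SC (e + 2 * j)) (2 ^ d) := by
  induction d generalizing e with
  | zero => simp [pack]; rfl
  | succ d ih =>
    show bld Q SC d e + bld Q SC d (e + 2 ^ (d + 1)) <<< (40 * 2 ^ d) = _
    rw [ih, ih, Nat.shiftLeft_eq, pow_succ 2 d, mul_two, pack_append]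
    congr 2
    exact pack_congr fun j _ => by congr 1; ring

lemma val_eq (Q SC e : ℕ) : val Q SC e =
    if Nat.gcd (e / Nat.gcd e Q) (Nat.gcd e Q) = 1 then
      (if e / Nat.gcd e Q = 1 then SC / e else SC / (Nat.gcd e Q * (2 * (e / Nat.gcd e Q) + 1)))
    else 0 := by
  unfold val
  rw [beq_eq, beq_eq]
  simp only [Bool.cond_decide]
  rfl

lemma val_le (Q SC : ℕ) {e : ℕ} (he : 0 < e) : val Q SC e ≤ SC / e := by
  rw [val_eq]
  split_ifs
  · exact le_rfl
  · refine Nat.div_le_div_left ?_ he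
    have := Nat.mul_div_cancel' (Nat.gcd_dvd_left e Q)
    nlinarith [Nat.zero_le (Nat.gcd e Q * (e / Nat.gcd e Q)), Nat.zero_le (Nat.gcd e Q)]
  · exact Nat.zero_le _

noncomputable def Fg (L : List (ℕ × ℕ)) (e : ℕ) : ℝ :=
  (L.map fun x => if x.1 ∣ e then (x.1 : ℝ) / (2 * x.1 + 1) else 1).prod

lemma div_bounds (a : ℕ) {b : ℕ} (hb : 0 < b) :
    ((a / b : ℕ) : ℝ) ≤ a * (1 / b) ∧ a * (1 / (b : ℝ)) ≤ (a / b : ℕ) + 1 := by
  have hb' : (0 : ℝ) < b := by exact_mod_cast hb
  rw [mul_one_div]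
  refine ⟨Nat.cast_div_le, ?_⟩
  rw [div_le_iff₀ hb']
  have := Nat.lt_mul_div_succ a hb
  rw [mul_comm] at this
  exact_mod_cast this.le

lemma val_spec {L : List (ℕ × ℕ)} (hL : PrimeL L) (hn : (L.map Prod.fst).Nodup)
    (hc : ∀ q : ℕ, q.Prime → q % 2 = 1 → q < 1031 → q ∈ L.map Prod.fst) (SC : ℕ) {e : ℕ}
    (he : e % 2 = 1) (hlt : e < 2 ^ 20) :
    ∃ γ : ℝ, 0 ≤ γ ∧ (val (prodP L) SC e : ℝ) ≤ SC * γ ∧ SC * γ ≤ val (prodP L) SC e + 1 ∧
      γ * Fg L e = GG 1 e := by
  set Z := (L.map Prod.fst).toFinset with hZ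
  have hZp : ∀ p ∈ Z, p.Prime := fun p hp => by
    obtain ⟨x, hx, rfl⟩ := List.mem_map.mp (List.mem_toFinset.mp hp)
    exact (hL x hx).1
  have hQ : prodP L = ∏ p ∈ Z, p := by
    rw [prodP_eq, hZ, List.prod_toFinset (fun p => p) hn, List.map_id']
  have hQf : (prodP L).primeFactors = Z := by rw [hQ]; exact Nat.primeFactors_prod hZp
  have hQ0 : prodP L ≠ 0 := by rw [hQ]; exact prod_ne_zero_iff.mpr fun p hp => (hZp p hp).ne_zero
  have hQs : Squarefree (prodP L) := by
    rw [hQ]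
    refine Finset.squarefree_prod_of_pairwise_isCoprime (fun a ha b hb hab => ?_)
      fun p hp => (hZp p hp).squarefree
    exact Nat.coprime_iff_isRelPrime.mp ((Nat.coprime_primes (hZp a ha) (hZp b hb)).mpr hab)
  have he0 : 0 < e := by omega
  set d := Nat.gcd e (prodP L) with hd
  set q := e / d with hq
  have hde : d ∣ e := Nat.gcd_dvd_left _ _
  have hd0 : 0 < d := Nat.gcd_pos_of_pos_left _ he0
  have heq : e = d * q := (Nat.mul_div_cancel' hde).symm
  have hds : Squarefree d := hQs.squarefree_of_dvd (Nat.gcd_dvd_right _ _)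
  have hsmall : ∀ p : ℕ, p.Prime → p ∣ e → p < 1031 → p ∣ d := fun p hp hpe hlt => by
    have hpo : p % 2 = 1 := Nat.odd_iff.mp ((Nat.odd_iff.mpr he).of_dvd_nat hpe)
    have : p ∈ (prodP L).primeFactors := by
      rw [hQf]; exact List.mem_toFinset.mpr (hc p hp hpo hlt)
    exact Nat.dvd_gcd hpe (Nat.dvd_of_mem_primeFactors this)
  rw [val_eq, ← hd, ← hq]
  by_cases hs : Squarefree e
  · have hco : Nat.Coprime d q := Nat.coprime_of_squarefree_mul (heq ▸ hs)
    have hF : Fg L e = ∏ p ∈ d.primeFactors, (p : ℝ) / (2 * p + 1) := by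
      have : Fg L e = ∏ p ∈ Z, if p ∣ e then (p : ℝ) / (2 * p + 1) else 1 := by
        rw [hZ, List.prod_toFinset _ hn, List.map_map]; rfl
      rw [this, ← prod_filter, hd, Nat.primeFactors_gcd he0.ne' hQ0, hQf]
      refine prod_congr ?_ fun _ _ => rfl
      ext p
      simp only [mem_filter, mem_inter, Nat.mem_primeFactors]
      constructor
      · rintro ⟨h1, h2⟩; exact ⟨⟨hZp p h1, h2, he0.ne'⟩, h1⟩
      · rintro ⟨⟨-, h2, -⟩, h1⟩; exact ⟨h1, h2⟩
    have hgd : 1 / (d : ℝ) * Fg L e = gw 1 d := by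
      have h1 : (d : ℝ) = ∏ p ∈ d.primeFactors, (p : ℝ) := by
        rw [← Nat.cast_prod, Nat.prod_primeFactors_of_squarefree hds]
      rw [hF, prod_div_distrib, ← h1, gw, prod_div_distrib]
      have : (d : ℝ) ≠ 0 := by exact_mod_cast hd0.ne'
      simp only [Real.rpow_one, prod_const_one]
      field_simp
    rw [if_pos (show Nat.gcd q d = 1 from hco.symm), GG, if_pos hs]
    by_cases hq1 : q = 1
    · have hed : e = d := by rw [heq, hq1, mul_one]
      rw [if_pos hq1]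
      refine ⟨1 / e, by positivity, (div_bounds SC he0).1, (div_bounds SC he0).2, ?_⟩
      have := hgd
      rw [← hed] at this
      exact this
    · have hqp : q.Prime := by
        by_contra hnp
        have hq0 : 0 < q := Nat.pos_of_ne_zero fun h => by rw [h, mul_zero] at heq; omega
        have hm := Nat.minFac_prime hq1
        have h2 := Nat.minFac_sq_le_self hq0 hnp
        have hqe : q ≤ e := Nat.div_le_self _ _
        have h3 : q.minFac < 1031 := by
          by_contra hcon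
          have : 1031 ^ 2 ≤ q.minFac ^ 2 := Nat.pow_le_pow_left (not_lt.mp hcon) 2
          omega
        have h4 := hsmall _ hm ((Nat.minFac_dvd q).trans (Dvd.intro_left _ heq.symm)) h3
        exact hm.one_lt.ne' (Nat.eq_one_of_dvd_coprimes hco h4 (Nat.minFac_dvd q))
      have hpos : 0 < d * (2 * q + 1) := by positivity
      rw [if_neg hq1]
      refine ⟨1 / (d * (2 * q + 1) : ℕ), by positivity, (div_bounds SC hpos).1,
        (div_bounds SC hpos).2, ?_⟩
      have h5 : gw 1 e = gw 1 d * gw 1 q := by rw [← gw_mul 1 hco, ← heq]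
      rw [h5, ← hgd, gw, hqp.primeFactors, prod_singleton, Real.rpow_one]
      push_cast
      have : (d : ℝ) ≠ 0 := by exact_mod_cast hd0.ne'
      field_simp
  · refine ⟨0, le_rfl, ?_, ?_, by simp [GG, hs]⟩
    · rw [if_neg]; · simp
      intro hco
      rw [Nat.squarefree_iff_prime_squarefree] at hs
      push Not at hs
      obtain ⟨p, hp, hpe⟩ := hs
      have h3 : p < 1031 := by
        by_contra hcon
        have h1 : 1031 * 1031 ≤ p * p := Nat.mul_le_mul (not_lt.mp hcon) (not_lt.mp hcon)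
        have := Nat.le_of_dvd he0 hpe
        omega
      have hpd := hsmall p hp (Dvd.dvd.trans (Dvd.intro _ rfl) hpe) h3
      have hpq : ¬ p ∣ q := fun h =>
        hp.one_lt.ne' (Nat.eq_one_of_dvd_coprimes (show Nat.Coprime q d from hco) h hpd)
      have hc2 : Nat.Coprime (p * p) q :=
        Nat.Coprime.mul_left ((Nat.Prime.coprime_iff_not_dvd hp).mpr hpq)
          ((Nat.Prime.coprime_iff_not_dvd hp).mpr hpq)
      rw [heq] at hpe
      exact (Nat.squarefree_iff_prime_squarefree.mp hds p hp) (hc2.dvd_of_dvd_mul_right hpe)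
    · rw [mul_zero]; positivity

lemma Fg_nil (e : ℕ) : Fg [] e = 1 := by simp [Fg]

lemma Fg_cons (x : ℕ × ℕ) (t : List (ℕ × ℕ)) (e : ℕ) :
    Fg (x :: t) e = (if x.1 ∣ e then (x.1 : ℝ) / (2 * x.1 + 1) else 1) * Fg t e := by
  simp [Fg]

lemma cg_bounds (p : ℕ) : 65536 * p / (2 * p + 1) + 1 ≤ 65536 ∧
    ((65536 * p / (2 * p + 1) : ℕ) : ℝ) ≤ 65536 * ((p : ℝ) / (2 * p + 1)) ∧
    65536 * ((p : ℝ) / (2 * p + 1)) ≤ (65536 * p / (2 * p + 1) + 1 : ℕ) := by
  have h := div_bounds (65536 * p) (show 0 < 2 * p + 1 by omega)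
  push_cast at h ⊢
  refine ⟨?_, by rw [← mul_div_assoc, ← mul_one_div (65536 * (p : ℝ))]; exact h.1,
    by rw [← mul_div_assoc, ← mul_one_div (65536 * (p : ℝ))]; exact h.2⟩
  have : 65536 * p / (2 * p + 1) < 65536 := by
    rw [Nat.div_lt_iff_lt_mul (by omega)]; omega
  omega

lemma stepLo_pack {p : ℕ} (hp : p % 2 = 1) (h : ℕ) {n : ℕ} {w : ℕ → ℕ}
    (hw : ∀ j < n, w j < 2 ^ 24) :
    stepLo h n p (pack 40 w n) = pack 40
      (fun j => if p ∣ ee h j then w j * (65536 * p / (2 * p + 1)) / 65536 else w j) n := by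
  have hw' : ∀ j < n, w j < 2 ^ 40 := fun j hj => lt_trans (hw j hj) (by norm_num)
  have hc := (cg_bounds p).1
  show (pack 40 w n &&& mkN h n p) +
    shr n ((pack 40 w n &&& mkZ h n p) * (65536 * p / (2 * p + 1))) = _
  rw [mkN_eq hp, mkZ_eq hp, land_msk hw', land_msk hw', pack_mul, shr_pack, pack_add]
  · exact pack_congr fun j _ => by by_cases hd : p ∣ ee h j <;> simp [hd]
  · intro j hj
    have := hw j hj
    split_ifs
    · nlinarith
    · simp

lemma stepHi_pack {p : ℕ} (hp : p % 2 = 1) (h : ℕ) {n : ℕ} {w : ℕ → ℕ}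
    (hw : ∀ j < n, w j < 2 ^ 24) :
    stepHi h n p (pack 40 w n) = pack 40
      (fun j => if p ∣ ee h j then w j * (65536 * p / (2 * p + 1) + 1) / 65536 + 1 else w j) n := by
  have hw' : ∀ j < n, w j < 2 ^ 40 := fun j hj => lt_trans (hw j hj) (by norm_num)
  have hc := (cg_bounds p).1
  show (pack 40 w n &&& mkN h n p) +
    shr n ((pack 40 w n &&& mkZ h n p) * (65536 * p / (2 * p + 1) + 1)) +
      (ones 40 n &&& mkZ h n p) = _
  rw [mkN_eq hp, mkZ_eq hp, land_msk hw', land_msk hw', pack_mul, shr_pack, pack_add,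
    ones_eq (by norm_num), land_msk (fun _ _ => by norm_num), pack_add]
  · exact pack_congr fun j _ => by by_cases hd : p ∣ ee h j <;> simp [hd]
  · intro j hj
    have := hw j hj
    split_ifs
    · nlinarith
    · simp

lemma foldLo {L : List (ℕ × ℕ)} (hL : PrimeL L) (h : ℕ) {n b : ℕ} (hb : b < 2 ^ 24) {w0 : ℕ → ℕ}
    {T : ℕ → ℝ} (h0 : ∀ j < n, w0 j ≤ b ∧ (w0 j : ℝ) ≤ T j) :
    ∃ w : ℕ → ℕ, foldP (fun p _ W => stepLo h n p W) (pack 40 w0 n) L = pack 40 w n ∧
      ∀ j < n, w j ≤ b ∧ (w j : ℝ) ≤ T j * Fg L (ee h j) := by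
  induction L with
  | nil => exact ⟨w0, rfl, fun j hj => by rw [Fg_nil, mul_one]; exact h0 j hj⟩
  | cons x t ih =>
    obtain ⟨w, hw, hw'⟩ := ih hL.tail
    refine ⟨_, by
      rw [foldP_cons, hw]
      exact stepLo_pack (hL x List.mem_cons_self).2.1 h
        fun j hj => lt_of_le_of_lt (hw' j hj).1 hb, fun j hj => ?_⟩
    obtain ⟨h1, h2⟩ := hw' j hj
    obtain ⟨c1, c2, -⟩ := cg_bounds x.1
    rw [Fg_cons]
    split_ifs with hd
    · constructor
      · refine le_trans (Nat.div_le_of_le_mul ?_) h1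
        nlinarith
      · have h3 : ((w j * (65536 * x.1 / (2 * x.1 + 1)) / 65536 : ℕ) : ℝ) ≤
            (w j * (65536 * x.1 / (2 * x.1 + 1)) : ℕ) / (65536 : ℕ) := Nat.cast_div_le
        refine h3.trans ?_
        rw [Nat.cast_mul, div_le_iff₀ (by norm_num)]
        have h4 : (0 : ℝ) ≤ (x.1 : ℝ) / (2 * x.1 + 1) := by positivity
        have h5 : (0 : ℝ) ≤ w j := by positivity
        calc (w j : ℝ) * (65536 * x.1 / (2 * x.1 + 1) : ℕ)
            ≤ w j * (65536 * ((x.1 : ℝ) / (2 * x.1 + 1))) := mul_le_mul_of_nonneg_left c2 h5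
          _ ≤ (T j * Fg t (ee h j)) * (65536 * ((x.1 : ℝ) / (2 * x.1 + 1))) :=
            mul_le_mul_of_nonneg_right h2 (by positivity)
          _ = _ := by push_cast; ring
    · exact ⟨h1, by rw [one_mul]; exact h2⟩

lemma up_step {w c : ℕ} {T F : ℝ} (hT : T ≤ w) (hF0 : 0 ≤ F) (hF : 65536 * F ≤ c) :
    T * F ≤ ((w * c / 65536 + 1 : ℕ) : ℝ) := by
  have h := (div_bounds (w * c) (show 0 < 65536 by norm_num)).2
  have h5 : (0 : ℝ) ≤ w := by positivity
  push_cast at h ⊢
  refine le_trans ?_ h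
  calc T * F ≤ w * F := mul_le_mul_of_nonneg_right hT hF0
    _ = w * (65536 * F) * (1 / 65536) := by ring
    _ ≤ w * c * (1 / 65536) :=
      mul_le_mul_of_nonneg_right (mul_le_mul_of_nonneg_left hF h5) (by norm_num)

lemma foldHi {L : List (ℕ × ℕ)} (hL : PrimeL L) (h : ℕ) {n b : ℕ} (hb : b + L.length < 2 ^ 24)
    {w0 : ℕ → ℕ} {T : ℕ → ℝ} (h0 : ∀ j < n, w0 j ≤ b ∧ T j ≤ (w0 j : ℝ)) :
    ∃ w : ℕ → ℕ, foldP (fun p _ W => stepHi h n p W) (pack 40 w0 n) L = pack 40 w n ∧
      ∀ j < n, w j ≤ b + L.length ∧ T j * Fg L (ee h j) ≤ (w j : ℝ) := by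
  induction L with
  | nil => exact ⟨w0, rfl, fun j hj => by rw [Fg_nil, mul_one]; exact h0 j hj⟩
  | cons x t ih =>
    rw [List.length_cons] at hb ⊢
    obtain ⟨w, hw, hw'⟩ := ih hL.tail (by omega)
    refine ⟨_, by
      rw [foldP_cons, hw]
      exact stepHi_pack (hL x List.mem_cons_self).2.1 h
        fun j hj => lt_of_le_of_lt (hw' j hj).1 (by omega), fun j hj => ?_⟩
    obtain ⟨h1, h2⟩ := hw' j hj
    obtain ⟨c1, -, c3⟩ := cg_bounds x.1
    rw [Fg_cons]
    split_ifs with hd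
    · constructor
      · have : w j * (65536 * x.1 / (2 * x.1 + 1) + 1) / 65536 ≤ w j :=
          Nat.div_le_of_le_mul (by nlinarith)
        omega
      · rw [mul_comm _ (Fg t _), ← mul_assoc]
        exact up_step h2 (by positivity) c3
    · exact ⟨by omega, by rw [one_mul]; exact h2⟩

lemma g_spec {L : List (ℕ × ℕ)} (hL : PrimeL L) (hn : (L.map Prod.fst).Nodup)
    (hc : ∀ q : ℕ, q.Prime → q % 2 = 1 → q < 1031 → q ∈ L.map Prod.fst) (hlen : L.length = 171)
    {h n SC d : ℕ} (hd : n ≤ 2 ^ d) (hE : h + n ≤ 2 ^ 19)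
    (hSC : SC ≤ 2 ^ 22 * (2 * h + 1)) :
    ∃ g0 g1 : ℕ → ℕ, gLo L h n SC d = pack 40 g0 n ∧ gHi L h n SC d = pack 40 g1 n ∧
      ∀ j < n, g0 j ≤ 4194476 ∧ g1 j ≤ 4194476 ∧ (g0 j : ℝ) ≤ SC * GG 1 (ee h j) ∧
        SC * GG 1 (ee h j) ≤ g1 j := by
  have hv : ∀ j, val (prodP L) SC (2 * h + 1 + 2 * j) ≤ 4194304 := fun j => by
    refine (val_le _ _ (by omega)).trans (Nat.div_le_of_le_mul ?_)
    nlinarith [Nat.zero_le j]
  have hI : ini L h n SC d = pack 40 (fun j => val (prodP L) SC (ee h j)) n := by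
    show bld (prodP L) SC d (2 * h + 1) &&& full (40 * n) = _
    rw [bld_pack, pack_trunc (by norm_num) (fun j _ => lt_of_le_of_lt (hv j) (by norm_num)) hd]
    exact pack_congr fun j _ => by congr 1; unfold ee; ring
  have hv' : ∀ j, val (prodP L) SC (ee h j) ≤ 4194304 := fun j => by
    have := hv j
    rwa [show 2 * h + 1 + 2 * j = ee h j by unfold ee; ring] at this
  have hs : ∀ j, ∃ γ : ℝ, j < n → (val (prodP L) SC (ee h j) : ℝ) ≤ SC * γ ∧
      SC * γ ≤ val (prodP L) SC (ee h j) + 1 ∧ γ * Fg L (ee h j) = GG 1 (ee h j) := fun j => by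
    by_cases hj : j < n
    · obtain ⟨γ, -, h1⟩ := val_spec hL hn hc SC (e := ee h j) (by unfold ee; omega)
        (by unfold ee; omega)
      exact ⟨γ, fun _ => h1⟩
    · exact ⟨0, fun h => absurd h hj⟩
  choose γ hγ using hs
  obtain ⟨g0, e0, h0⟩ := foldLo hL h (n := n) (b := 4194304) (by norm_num)
    (w0 := fun j => val (prodP L) SC (ee h j)) (T := fun j => SC * γ j)
    fun j hj => ⟨hv' j, (hγ j hj).1⟩
  obtain ⟨g1, e1, h1⟩ := foldHi hL h (n := n) (b := 4194305) (by rw [hlen]; norm_num)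
    (w0 := fun j => val (prodP L) SC (ee h j) + 1) (T := fun j => SC * γ j)
    fun j hj => ⟨by have := hv' j; omega, by push_cast; exact (hγ j hj).2.1⟩
  refine ⟨g0, g1, by rw [gLo, hI, e0], ?_, fun j hj => ⟨?_, ?_, ?_, ?_⟩⟩
  · show foldP _ (ini L h n SC d + ones 40 n) L = _
    rw [hI, ones_eq (by norm_num), pack_add, e1]
  · have := (h0 j hj).1; omega
  · have := (h1 j hj).1; omega
  · rw [← (hγ j hj).2.2, ← mul_assoc]; exact (h0 j hj).2
  · rw [← (hγ j hj).2.2, ← mul_assoc]; exact (h1 j hj).2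

lemma step3_pack {p : ℕ} (hp : p % 2 = 1) (h : ℕ) {n : ℕ} (hn : n ≤ 8192) {ca cb c : ℕ}
    (ha : ca ≤ c) (hb : cb ≤ c) (hc : 1 ≤ c) {w : ℕ → ℕ} (hw : ∀ j < n, w j * c < 2 ^ 40) :
    step3 h n p (qr p) ca cb (pack 40 w n) = pack 40
      (fun j => (if p ∣ ee h j then w j else w j * (if sB p h j then ca else cb) / 65536) + 1) n := by
  have hw' : ∀ j < n, w j < 2 ^ 40 := fun j hj =>
    lt_of_le_of_lt (Nat.le_mul_of_pos_right _ hc) (hw j hj)
  have eA : mA h n p (qr p) = msk n fun j => !decide (p ∣ ee h j) && sB p h j := by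
    show mkN h n p &&& mkS h n p (qr p) = _
    rw [mkN_eq hp, mkS_eq (by omega) h hn, msk_land]
  have eB : mB h n p (qr p) = msk n fun j => !decide (p ∣ ee h j) && !sB p h j := by
    show mkN h n p ^^^ mA h n p (qr p) = _
    rw [mkN_eq hp, eA, msk_xor]
    exact msk_congr fun j _ => by cases decide (p ∣ ee h j) <;> cases sB p h j <;> rfl
  show (pack 40 w n &&& mkZ h n p) + shr n ((pack 40 w n &&& mA h n p (qr p)) * ca +
    (pack 40 w n &&& mB h n p (qr p)) * cb) + ones 40 n = _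
  rw [eA, eB, mkZ_eq hp, land_msk hw', land_msk hw', land_msk hw', pack_mul, pack_mul, pack_add,
    shr_pack, pack_add, ones_eq (by norm_num), pack_add]
  · exact pack_congr fun j _ => by
      by_cases hd : p ∣ ee h j <;> cases hs : sB p h j <;> simp [hd]
  · intro j hj
    have h1 := hw j hj
    have h2 := Nat.mul_le_mul_left (w j) ha
    have h3 := Nat.mul_le_mul_left (w j) hb
    by_cases hd : p ∣ ee h j <;> cases hs : sB p h j <;> simp [hd] <;> omega

def bnd (b : ℕ) : List ℕ → ℕ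
  | [] => b
  | p :: t => bnd b t * cPp p / 65536 + 1

def okB (b : ℕ) : List ℕ → Bool
  | [] => true
  | p :: t => okB b t && decide (bnd b t * cPp p < 2 ^ 40)

lemma cPp_eq (p : ℕ) : cPp p = 65536 * (2 * p + 2) / (2 * p + 1) + 1 := rfl
lemma cPm_eq (p : ℕ) : cPm p = 65536 * (2 * p) / (2 * p + 1) + 1 := rfl
lemma cHp_eq (p : ℕ) : cHp p = 65536 * ((2 * p + 2) * (p - 1)) / ((2 * p + 1) * p) + 1 := rfl

lemma le_cPp (p : ℕ) : 65536 ≤ cPp p := by
  rw [cPp_eq]
  have : 65536 ≤ 65536 * (2 * p + 2) / (2 * p + 1) := by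
    rw [Nat.le_div_iff_mul_le (by omega)]; omega
  omega

lemma fold3 {L : List (ℕ × ℕ)} (hL : PrimeL L) (h : ℕ) {n b : ℕ} (hn : n ≤ 8192)
    (hb : okB b (L.map Prod.fst) = true) (st : ℕ → ℕ → ℕ → ℕ) (ca cb : ℕ → ℕ)
    (hst : ∀ p B W, st p B W = step3 h n p B (ca p) (cb p) W)
    (F : ℕ → ℕ → ℝ) (hF : ∀ p, p.Prime → p % 2 = 1 → ca p ≤ cPp p ∧ cb p ≤ cPp p ∧ ∀ j,
      0 ≤ F p j ∧ (p ∣ ee h j → F p j = 1) ∧
        (¬ p ∣ ee h j → 65536 * F p j ≤ (if sB p h j then ca p else cb p : ℕ)))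
    {w0 : ℕ → ℕ} {T : ℕ → ℝ} (h0 : ∀ j < n, w0 j ≤ b ∧ T j ≤ (w0 j : ℝ)) :
    ∃ w : ℕ → ℕ, foldP st (pack 40 w0 n) L = pack 40 w n ∧
      ∀ j < n, w j ≤ bnd b (L.map Prod.fst) ∧
        T j * ((L.map Prod.fst).map fun p => F p j).prod ≤ (w j : ℝ) := by
  induction L with
  | nil => exact ⟨w0, rfl, fun j hj => by simpa [bnd] using h0 j hj⟩
  | cons x t ih =>
    rw [List.map_cons, okB, Bool.and_eq_true, decide_eq_true_eq] at hb
    obtain ⟨w, hw, hw'⟩ := ih hL.tail hb.1
    obtain ⟨hp, hp2, hB⟩ := hL x List.mem_cons_self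
    obtain ⟨ha, hb', hF'⟩ := hF x.1 hp hp2
    have hc := le_cPp x.1
    refine ⟨_, by
      rw [foldP_cons, hw, hst, hB]
      exact step3_pack hp2 h hn ha hb' (by omega) fun j hj =>
        lt_of_le_of_lt (Nat.mul_le_mul_right _ (hw' j hj).1) hb.2, fun j hj => ?_⟩
    obtain ⟨h1, h2⟩ := hw' j hj
    obtain ⟨f0, f1, f2⟩ := hF' j
    rw [List.map_cons, List.map_cons, List.prod_cons, bnd, mul_comm (F x.1 j), ← mul_assoc]
    by_cases hd : x.1 ∣ ee h j
    · rw [if_pos hd, f1 hd, mul_one]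
      refine ⟨?_, by push_cast; linarith⟩
      have : w j ≤ bnd b (t.map Prod.fst) * cPp x.1 / 65536 := by
        rw [Nat.le_div_iff_mul_le (by norm_num)]; exact Nat.mul_le_mul h1 hc
      omega
    · rw [if_neg hd]
      refine ⟨?_, up_step h2 f0 (f2 hd)⟩
      have : w j * (if sB x.1 h j then ca x.1 else cb x.1) ≤ bnd b (t.map Prod.fst) * cPp x.1 :=
        Nat.mul_le_mul h1 (by split_ifs <;> assumption)
      have := Nat.div_le_div_right (c := 65536) this
      omega

lemma psi_psiNeg (i : Fin 4) {p : ℕ} (hp : p % 2 = 1) :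
    psi i p = if psiNeg i p then -1 else 1 := by
  have e : psiNeg i p = psiNeg i (p % 8) := by
    have h4 : Nat.mod (p % 8) 4 = Nat.mod p 4 := Nat.mod_mod_of_dvd _ (by norm_num)
    have h8 : Nat.mod (p % 8) 8 = Nat.mod p 8 := Nat.mod_mod _ _
    unfold psiNeg
    rw [h4, h8]
  rw [e, ← psi_mod]
  clear e
  have h2 : p % 8 % 2 = 1 := by omega
  have hm : p % 8 < 8 := Nat.mod_lt _ (by norm_num)
  generalize p % 8 = x at *
  revert i
  interval_cases x <;> first | omega | decide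

lemma chi_cases (i : Fin 4) {p : ℕ} (hp : p.Prime) (hp2 : p % 2 = 1) (h j : ℕ) :
    (p ∣ ee h j → chi i (ee h j) p = 0) ∧
    (¬ p ∣ ee h j → chi i (ee h j) p = if xor (psiNeg i p) (sB p h j) then -1 else 1) := by
  constructor
  · intro hd
    have : jacobiSym p (ee h j) = 0 := by
      have : NeZero (ee h j) := ⟨by unfold ee; omega⟩
      refine jacobiSym.eq_zero_iff_not_coprime.mpr ?_
      rw [Int.gcd_natCast_natCast, Nat.gcd_eq_left hd]
      exact hp.one_lt.ne'
    simp [chi, this]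
  · intro hd
    rw [chi, jac_sB hp hp2 hd, psi_psiNeg i hp2]
    cases psiNeg i p <;> cases sB p h j <;> simp

lemma c_bounds {p : ℕ} (hp : p.Prime) :
    cPm p ≤ cPp p ∧ cHp p ≤ cPp p ∧
    65536 * (1 + 1 / (2 * (p : ℝ) + 1)) ≤ cPp p ∧ 65536 * (1 - 1 / (2 * (p : ℝ) + 1)) ≤ cPm p ∧
    65536 * ((1 + 1 / (2 * (p : ℝ) + 1)) * (1 - 1 / p)) ≤ cHp p := by
  have h2 := hp.two_le
  have hp0 : (0 : ℝ) < p := by exact_mod_cast hp.pos
  refine ⟨?_, ?_, ?_, ?_, ?_⟩
  · rw [cPm_eq, cPp_eq]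
    have := Nat.div_le_div_right (c := 2 * p + 1)
      (show 65536 * (2 * p) ≤ 65536 * (2 * p + 2) by omega)
    omega
  · rw [cHp_eq, cPp_eq, ← Nat.mul_div_mul_right (65536 * (2 * p + 2)) (2 * p + 1) hp.pos]
    have := Nat.div_le_div_right (c := (2 * p + 1) * p)
      (show 65536 * ((2 * p + 2) * (p - 1)) ≤ 65536 * (2 * p + 2) * p by
        rw [mul_assoc]
        exact Nat.mul_le_mul_left _ (Nat.mul_le_mul_left _ (by omega)))
    omega
  · have h := (div_bounds (65536 * (2 * p + 2)) (show 0 < 2 * p + 1 by omega)).2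
    rw [cPp_eq]; push_cast at h ⊢
    refine le_trans (le_of_eq ?_) h
    field_simp; ring
  · have h := (div_bounds (65536 * (2 * p)) (show 0 < 2 * p + 1 by omega)).2
    rw [cPm_eq]; push_cast at h ⊢
    refine le_trans (le_of_eq ?_) h
    field_simp; ring
  · have h := (div_bounds (65536 * ((2 * p + 2) * (p - 1)))
      (show 0 < (2 * p + 1) * p by positivity)).2
    rw [cHp_eq]
    rw [Nat.cast_mul, Nat.cast_mul, Nat.cast_sub hp.one_le] at h
    push_cast at h ⊢
    refine le_trans (le_of_eq ?_) h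
    field_simp; ring

def l97 : List ℕ :=
  [3, 5, 7, 11, 13, 17, 19, 23, 29, 31, 37, 41, 43, 47, 53, 59, 61, 67, 71, 73, 79, 83, 89, 97]

lemma prod_l97 (f : ℕ → ℝ) : (l97.map f).prod = ∏ p ∈ Z97, f p := by
  rw [← List.prod_toFinset f (show l97.Nodup by decide)]
  rfl

lemma foldPZ {L : List (ℕ × ℕ)} (hL : PrimeL L) (hl : L.map Prod.fst = l97) (h : ℕ) {n : ℕ}
    (hn : n ≤ 8192) (i : Fin 4) {w0 : ℕ → ℕ} {T : ℕ → ℝ}
    (h0 : ∀ j < n, w0 j ≤ 8388952 ∧ T j ≤ (w0 j : ℝ)) :
    ∃ w : ℕ → ℕ, foldP (stepP h n i) (pack 40 w0 n) L = pack 40 w n ∧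
      ∀ j < n, w j ≤ 16000000 ∧ T j * PZ 1 Z97 (chi i (ee h j)) ≤ (w j : ℝ) := by
  obtain ⟨w, e, hw⟩ := fold3 hL h hn (b := 8388952) (by rw [hl]; decide +kernel) (stepP h n i)
    (fun p => if psiNeg i p then cPp p else cPm p) (fun p => if psiNeg i p then cPm p else cPp p)
    (fun p B W => by unfold stepP; cases psiNeg i p <;> rfl)
    (fun p j => 1 + chi i (ee h j) p * (1 / (2 * (p : ℝ) ^ (1 : ℝ) + 1))) (fun p hp hp2 => by
      obtain ⟨c1, c2, c3, c4, c5⟩ := c_bounds hp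
      refine ⟨by split_ifs <;> omega, by split_ifs <;> omega, fun j => ?_⟩
      obtain ⟨d1, d2⟩ := chi_cases i hp hp2 h j
      have hg : 1 / (2 * (p : ℝ) + 1) ≤ 1 := by
        rw [div_le_one (by positivity)]; have : (0 : ℝ) ≤ p := by positivity
        linarith
      have hg0 : 0 ≤ 1 / (2 * (p : ℝ) + 1) := by positivity
      rw [Real.rpow_one]
      refine ⟨?_, fun hd => by rw [d1 hd]; simp, fun hd => ?_⟩
      · rcases (chi_cm i (ee h j)).vals p with h' | h' | h' <;> rw [h'] <;> linarith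
      · rw [d2 hd]
        cases psiNeg i p <;> cases sB p h j <;> simp only [Bool.xor_false, Bool.xor_true,
          Bool.not_true, Bool.not_false, if_true, Bool.false_eq_true, if_false] <;> linarith) h0
  refine ⟨w, e, fun j hj => ⟨(hw j hj).1.trans (by rw [hl]; decide +kernel), ?_⟩⟩
  have := (hw j hj).2
  rwa [hl, prod_l97] at this

lemma foldHZ {L : List (ℕ × ℕ)} (hL : PrimeL L) (hl : L.map Prod.fst = l97) (h : ℕ) {n : ℕ}
    (hn : n ≤ 8192) (i : Fin 4) {w0 : ℕ → ℕ} {T : ℕ → ℝ}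
    (h0 : ∀ j < n, w0 j ≤ 8388952 ∧ T j ≤ (w0 j : ℝ)) :
    ∃ w : ℕ → ℕ, foldP (stepH h n i) (pack 40 w0 n) L = pack 40 w n ∧
      ∀ j < n, w j ≤ 16000000 ∧ T j * HZ 1 Z97 (chi i (ee h j)) ≤ (w j : ℝ) := by
  obtain ⟨w, e, hw⟩ := fold3 hL h hn (b := 8388952) (by rw [hl]; decide +kernel) (stepH h n i)
    (fun p => if psiNeg i p then cHp p else cPp p) (fun p => if psiNeg i p then cPp p else cHp p)
    (fun p B W => by unfold stepH; cases psiNeg i p <;> rfl)
    (fun p j => (1 + chi i (ee h j) p * (1 / (2 * (p : ℝ) ^ (1 : ℝ) + 1))) *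
      (1 - chi i (ee h j) p * (p : ℝ) ^ (-(1 : ℝ)))) (fun p hp hp2 => by
      obtain ⟨c1, c2, c3, c4, c5⟩ := c_bounds hp
      refine ⟨by split_ifs <;> omega, by split_ifs <;> omega, fun j => ?_⟩
      obtain ⟨d1, d2⟩ := chi_cases i hp hp2 h j
      have hp1 : (1 : ℝ) ≤ p := by exact_mod_cast hp.one_le
      have hg : 1 / (2 * (p : ℝ) + 1) ≤ 1 := by
        rw [div_le_one (by positivity)]; linarith
      have hg0 : 0 ≤ 1 / (2 * (p : ℝ) + 1) := by positivity
      have hx : 1 / (p : ℝ) ≤ 1 := by rw [div_le_one (by positivity)]; exact hp1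
      have hx0 : 0 ≤ 1 / (p : ℝ) := by positivity
      have hm : (1 - 1 / (2 * (p : ℝ) + 1)) * (1 + 1 / p) = 1 + 1 / (2 * (p : ℝ) + 1) := by
        field_simp; ring
      rw [Real.rpow_one, Real.rpow_neg_one, ← one_div]
      refine ⟨?_, fun hd => by rw [d1 hd]; simp, fun hd => ?_⟩
      · rcases (chi_cm i (ee h j)).vals p with h' | h' | h' <;> rw [h'] <;>
          apply mul_nonneg <;> linarith
      · rw [d2 hd]
        cases psiNeg i p <;> cases sB p h j <;> simp only [Bool.xor_false, Bool.xor_true,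
          Bool.not_true, Bool.not_false, if_true, Bool.false_eq_true, if_false, one_mul, neg_mul,
          sub_neg_eq_add, ← sub_eq_add_neg, hm] <;> linarith) h0
  refine ⟨w, e, fun j hj => ⟨(hw j hj).1.trans (by rw [hl]; decide +kernel), ?_⟩⟩
  have := (hw j hj).2
  rwa [hl, prod_l97] at this

lemma mulK_pack (h : ℕ) {n : ℕ} (k1 k3 k5 k7 : ℕ) {w : ℕ → ℕ} (hw : ∀ j < n, w j < 2 ^ 40) :
    mulK h n k1 k3 k5 k7 (pack 40 w n) = pack 40 (fun j => w j *
      (if ee h j % 8 = 1 then k1 else if ee h j % 8 = 3 then k3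
        else if ee h j % 8 = 5 then k5 else k7)) n := by
  show (pack 40 w n &&& cls 40 MM 4 0 h n) * k1 + (pack 40 w n &&& cls 40 MM 4 1 h n) * k3 +
    ((pack 40 w n &&& cls 40 MM 4 2 h n) * k5 + (pack 40 w n &&& cls 40 MM 4 3 h n) * k7) = _
  rw [cls_msk (by norm_num), cls_msk (by norm_num), cls_msk (by norm_num), cls_msk (by norm_num),
    land_msk hw, land_msk hw, land_msk hw, land_msk hw, pack_mul, pack_mul, pack_mul, pack_mul,
    pack_add, pack_add, pack_add]
  refine pack_congr fun j _ => ?_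
  have e : ee h j % 8 = 2 * ((h + j) % 4) + 1 := by unfold ee; omega
  have hm : (h + j) % 4 < 4 := Nat.mod_lt _ (by norm_num)
  rw [e]
  generalize (h + j) % 4 = x at *
  interval_cases x <;> simp

lemma kk32_ee (i : Fin 4) (h j : ℕ) : kk32 i (ee h j) =
    if ee h j % 8 = 1 then ![48, 2, 5, 1] i else if ee h j % 8 = 3 then ![16, 20, 1, 5] i
      else if ee h j % 8 = 5 then ![36, 2, 5, 1] i else ![24, 20, 1, 5] i := by
  have : ee h j % 2 = 1 := by unfold ee; omega
  unfold kk32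
  split_ifs <;> first | rfl | omega

lemma mK_pack (h : ℕ) {n : ℕ} {w : ℕ → ℕ} (hw : ∀ j < n, w j < 2 ^ 40) :
    mK0 h n (pack 40 w n) = pack 40 (fun j => w j * kk32 0 (ee h j)) n ∧
    mK1 h n (pack 40 w n) = pack 40 (fun j => w j * kk32 1 (ee h j)) n ∧
    mK2 h n (pack 40 w n) = pack 40 (fun j => w j * kk32 2 (ee h j)) n ∧
    mK3 h n (pack 40 w n) = pack 40 (fun j => w j * kk32 3 (ee h j)) n := by
  refine ⟨?_, ?_, ?_, ?_⟩
  · rw [mK0, mulK_pack h _ _ _ _ hw]; exact pack_congr fun j _ => by rw [kk32_ee]; rfl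
  · rw [mK1, mulK_pack h _ _ _ _ hw]; exact pack_congr fun j _ => by rw [kk32_ee]; rfl
  · rw [mK2, mulK_pack h _ _ _ _ hw]; exact pack_congr fun j _ => by rw [kk32_ee]; rfl
  · rw [mK3, mulK_pack h _ _ _ _ hw]; exact pack_congr fun j _ => by rw [kk32_ee]; rfl

end Pool.Agent.MP_5d10af_nt.Num

end

-- part MP_5d10af_nt.Num.Dot
section

/-!
Signed sums and the enumeration of odd numbers.
-/

set_option autoImplicit false

namespace Pool.Agent.MP_5d10af_nt.Num

open Finset

attribute [local irreducible] ones full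

lemma halfv_pack (n : ℕ) : halfv n = pack 40 (fun _ => HALF) n := by
  show ones 40 n * HALF = _
  rw [ones_eq (by norm_num), pack_mul]; simp

lemma comb_gen (n A B C D r : ℕ) : comb n A B C D r =
    if r = 1 then A + B + (C + D) + halfv n else if r = 3 then A + D + halfv n - (B + C)
    else if r = 5 then A + B + halfv n - (C + D) else A + C + halfv n - (B + D) := by
  unfold comb
  rw [beq_eq, beq_eq, beq_eq, Bool.cond_decide, Bool.cond_decide, Bool.cond_decide]
  simp only [Nat.add_eq, Nat.sub_eq]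

lemma comb1 (n A B C D : ℕ) : comb n A B C D 1 = A + B + (C + D) + halfv n := by
  rw [comb_gen, if_pos rfl]

lemma comb3 (n A B C D : ℕ) : comb n A B C D 3 = A + D + halfv n - (B + C) := by
  rw [comb_gen, if_neg (by norm_num), if_pos rfl]

lemma comb5 (n A B C D : ℕ) : comb n A B C D 5 = A + B + halfv n - (C + D) := by
  rw [comb_gen, if_neg (by norm_num), if_neg (by norm_num), if_pos rfl]

lemma comb7 (n A B C D : ℕ) : comb n A B C D 7 = A + C + halfv n - (B + D) := by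
  rw [comb_gen, if_neg (by norm_num), if_neg (by norm_num), if_neg (by norm_num)]

lemma comb_pack {n : ℕ} (a : Fin 4 → ℕ → ℕ) (ha : ∀ j < n, a 0 j + a 1 j + a 2 j + a 3 j < HALF)
    {m : ℕ} (hm : m % 2 = 1) :
    ∃ t : ℕ → ℕ, comb n (pack 40 (a 0) n) (pack 40 (a 1) n) (pack 40 (a 2) n) (pack 40 (a 3) n)
      (m % 8) = pack 40 t n ∧
      ∀ j < n, t j < 2 ^ 40 ∧ (t j : ℤ) = HALF + ∑ i : Fin 4, psi i m * a i j := by
  have hH : HALF = 549755813888 := rfl
  have h8 : m % 8 = 1 ∨ m % 8 = 3 ∨ m % 8 = 5 ∨ m % 8 = 7 := by omega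
  simp only [Fin.sum_univ_four, ← psi_mod _ m]
  rcases h8 with h | h | h | h <;> rw [h]
  · refine ⟨fun j => a 0 j + a 1 j + (a 2 j + a 3 j) + HALF, ?_, fun j hj => ?_⟩
    · rw [comb1, halfv_pack, pack_add, pack_add, pack_add, pack_add]
    · have := ha j hj
      beta_reduce
      refine ⟨by omega, ?_⟩
      rw [show psi 0 1 = 1 by decide, show psi 1 1 = 1 by decide, show psi 2 1 = 1 by decide,
        show psi 3 1 = 1 by decide]
      omega
  · refine ⟨fun j => a 0 j + a 3 j + HALF - (a 1 j + a 2 j), ?_, fun j hj => ?_⟩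
    · rw [comb3, halfv_pack, pack_add, pack_add, pack_add, pack_sub fun j hj => by
        have := ha j hj; omega]
    · have := ha j hj
      beta_reduce
      refine ⟨by omega, ?_⟩
      rw [show psi 0 3 = 1 by decide, show psi 1 3 = -1 by decide, show psi 2 3 = -1 by decide,
        show psi 3 3 = 1 by decide]
      omega
  · refine ⟨fun j => a 0 j + a 1 j + HALF - (a 2 j + a 3 j), ?_, fun j hj => ?_⟩
    · rw [comb5, halfv_pack, pack_add, pack_add, pack_add, pack_sub fun j hj => by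
        have := ha j hj; omega]
    · have := ha j hj
      beta_reduce
      refine ⟨by omega, ?_⟩
      rw [show psi 0 5 = 1 by decide, show psi 1 5 = 1 by decide, show psi 2 5 = -1 by decide,
        show psi 3 5 = -1 by decide]
      omega
  · refine ⟨fun j => a 0 j + a 2 j + HALF - (a 1 j + a 3 j), ?_, fun j hj => ?_⟩
    · rw [comb7, halfv_pack, pack_add, pack_add, pack_add, pack_sub fun j hj => by
        have := ha j hj; omega]
    · have := ha j hj
      beta_reduce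
      refine ⟨by omega, ?_⟩
      rw [show psi 0 7 = 1 by decide, show psi 1 7 = -1 by decide, show psi 2 7 = 1 by decide,
        show psi 3 7 = -1 by decide]
      omega

lemma dot_spec {n : ℕ} {t : ℕ → ℕ} {u χ : ℕ → ℤ} {s z : ℕ → Bool}
    (ht : ∀ j < n, t j < 2 ^ 40 ∧ (t j : ℤ) = HALF + u j)
    (hχ : ∀ j < n, χ j = if z j then (if s j then -1 else 1) else 0)
    (hb : 2 * ∑ j ∈ range n, |u j| + n < HALF) :
    dot (pack 40 t n) (msk n s) (msk n z) ≤ MM ∧
    |(if dot (pack 40 t n) (msk n s) (msk n z) < HALF then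
        (dot (pack 40 t n) (msk n s) (msk n z) : ℤ)
      else dot (pack 40 t n) (msk n s) (msk n z) - MM) - 2 * ∑ j ∈ range n, χ j * u j| ≤ n := by
  have hM : MM = 1099511627775 := rfl
  have hH : HALF = 549755813888 := rfl
  set v := dot (pack 40 t n) (msk n s) (msk n z) with hv
  set f : ℕ → ℕ := fun j => if z j then (if s j then MM - t j else t j) else 0 with hf
  have e1 : v = 2 * (pack 40 f n % MM) % MM := by
    show 2 * (((pack 40 t n ^^^ msk n s) &&& msk n z) % MM) % MM = _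
    rw [xor_msk fun j hj => (ht j hj).1, land_msk fun j hj => by
      have := (ht j hj).1
      split_ifs <;> omega]
  have hvlt : v < MM := by rw [e1]; exact Nat.mod_lt _ (by norm_num [MM])
  have e2 : v ≡ 2 * ∑ j ∈ range n, f j [MOD MM] := by
    rw [e1]
    refine (Nat.mod_modEq _ _).trans (Nat.ModEq.mul_left _ ((Nat.mod_modEq _ _).trans ?_))
    rw [MM_eq]; exact pack_modEq 40 n f
  have e3 : ((MM : ℕ) : ℤ) ∣ ∑ j ∈ range n, (2 * (f j : ℤ) - (2 * (χ j * u j) + χ j)) := by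
    refine dvd_sum fun j hj => ?_
    obtain ⟨h1, h2⟩ := ht j (mem_range.mp hj)
    rw [hχ j (mem_range.mp hj)]
    simp only [hf]
    cases z j <;> cases s j
    · simp
    · simp
    · exact ⟨1, by simp only [if_true, Bool.false_eq_true, if_false]; omega⟩
    · exact ⟨1, by simp only [if_true]; omega⟩
  have e4 : ((MM : ℕ) : ℤ) ∣ (2 * ∑ j ∈ range n, χ j * u j + ∑ j ∈ range n, χ j) - v := by
    have h1 := (Nat.modEq_iff_dvd.mp e2)
    rw [sum_sub_distrib, sum_add_distrib, ← mul_sum, ← mul_sum] at e3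
    push_cast at h1
    have := dvd_sub h1 e3
    rwa [show 2 * ∑ j ∈ range n, (f j : ℤ) - v - (2 * ∑ j ∈ range n, (f j : ℤ) -
      (2 * ∑ j ∈ range n, χ j * u j + ∑ j ∈ range n, χ j)) =
      (2 * ∑ j ∈ range n, χ j * u j + ∑ j ∈ range n, χ j) - v by ring] at this
  have b0 : ∀ j ∈ range n, |χ j| ≤ 1 := fun j hj => by
    rw [hχ j (mem_range.mp hj)]; split_ifs <;> simp
  have b1 : |∑ j ∈ range n, χ j| ≤ n := by
    refine (abs_sum_le_sum_abs _ _).trans ?_
    simpa using sum_le_sum b0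
  have b2 : |∑ j ∈ range n, χ j * u j| ≤ ∑ j ∈ range n, |u j| := by
    refine (abs_sum_le_sum_abs _ _).trans (sum_le_sum fun j hj => ?_)
    rw [abs_mul]; exact mul_le_of_le_one_left (abs_nonneg _) (b0 j hj)
  obtain ⟨c, hc⟩ := e4
  rw [abs_le] at b1 b2
  refine ⟨hvlt.le, ?_⟩
  generalize ∑ j ∈ range n, χ j * u j = A at *
  generalize ∑ j ∈ range n, χ j = B at *
  generalize ∑ j ∈ range n, |u j| = C at *
  rw [hM] at hc hvlt
  rw [hH] at hb
  rw [hM, hH, abs_le]
  split_ifs <;> omega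

lemma blt_eq (a b : ℕ) : Nat.blt a b = decide (a < b) := by
  by_cases h : a < b
  · rw [decide_eq_true h]; exact Nat.blt_eq.mpr h
  · rw [decide_eq_false h, Bool.eq_false_iff]; exact fun h' => h (Nat.blt_eq.mp h')

lemma ble_eq (a b : ℕ) : Nat.ble a b = decide (a ≤ b) := by
  by_cases h : a ≤ b
  · rw [decide_eq_true h]; exact Nat.ble_eq.mpr h
  · rw [decide_eq_false h, Bool.eq_false_iff]; exact fun h' => h (Nat.ble_eq.mp h')

lemma cast_sub_ge (a b : ℕ) : (a : ℝ) - b ≤ (a - b : ℕ) := by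
  rcases le_total b a with h | h
  · rw [Nat.cast_sub h]
  · have : (a : ℝ) ≤ b := by exact_mod_cast h
    have h2 : (0 : ℝ) ≤ (a - b : ℕ) := by positivity
    linarith

lemma termU_ge {n c v : ℕ} {φ : ℝ} {σ : ℤ} (h1 : (c : ℝ) ≤ φ) (h2 : φ ≤ c + 1) (hv : v ≤ MM)
    (h : |(if v < HALF then (v : ℤ) else v - MM) - 2 * σ| ≤ n) :
    BIG + φ * (2 * σ) ≤ termU n c v := by
  have hφ : 0 ≤ φ := le_trans (by positivity) h1
  unfold termU
  rw [blt_eq, Bool.cond_decide]
  split_ifs at h ⊢ with hh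
  · have h3 : 2 * (σ : ℝ) ≤ v + n := by
      have : 2 * σ ≤ v + n := by rw [abs_le] at h; omega
      exact_mod_cast this
    show _ ≤ ((BIG + (c + 1) * (v + n) : ℕ) : ℝ)
    push_cast
    have := mul_le_mul_of_nonneg_left h3 hφ
    have := mul_le_mul_of_nonneg_right h2 (show (0 : ℝ) ≤ v + n by positivity)
    linarith
  · have h3 : 2 * (σ : ℝ) ≤ n - (MM - v : ℕ) := by
      have : 2 * σ ≤ n - (MM - v : ℕ) := by rw [abs_le] at h; omega
      exact_mod_cast this
    show _ ≤ ((BIG + (c + 1) * n - c * (MM - v) : ℕ) : ℝ)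
    refine le_trans ?_ (cast_sub_ge _ _)
    rw [Nat.cast_add, Nat.cast_mul, Nat.cast_mul, Nat.cast_add, Nat.cast_one]
    have := mul_le_mul_of_nonneg_left h3 hφ
    have := mul_le_mul_of_nonneg_right h2 (show (0 : ℝ) ≤ n by positivity)
    have := mul_le_mul_of_nonneg_right h1 (show (0 : ℝ) ≤ (MM - v : ℕ) by positivity)
    linarith

lemma termG_ge {n c v : ℕ} {φ : ℝ} {σ : ℤ} (h1 : (c : ℝ) ≤ φ) (h2 : φ ≤ c + 1) (hv : v ≤ MM)
    (h : |(if v < HALF then (v : ℤ) else v - MM) - 2 * σ| ≤ n) :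
    BIG - φ * (2 * σ) ≤ termG n c v := by
  have hφ : 0 ≤ φ := le_trans (by positivity) h1
  unfold termG
  rw [blt_eq, Bool.cond_decide]
  split_ifs at h ⊢ with hh
  · have h3 : (v : ℝ) - n ≤ 2 * σ := by
      have : (v : ℤ) - n ≤ 2 * σ := by rw [abs_le] at h; omega
      exact_mod_cast this
    show _ ≤ ((BIG + (c + 1) * n - c * v : ℕ) : ℝ)
    refine le_trans ?_ (cast_sub_ge _ _)
    push_cast
    have := mul_le_mul_of_nonneg_left h3 hφ
    have := mul_le_mul_of_nonneg_right h2 (show (0 : ℝ) ≤ n by positivity)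
    have := mul_le_mul_of_nonneg_right h1 (show (0 : ℝ) ≤ v by positivity)
    linarith
  · have h3 : -(((MM - v : ℕ) : ℝ) + n) ≤ 2 * σ := by
      have : -(((MM - v : ℕ) : ℤ) + n) ≤ 2 * σ := by rw [abs_le] at h; omega
      exact_mod_cast this
    show _ ≤ ((BIG + (c + 1) * (MM - v + n) : ℕ) : ℝ)
    rw [Nat.cast_add, Nat.cast_mul, Nat.cast_add, Nat.cast_add, Nat.cast_one]
    have := mul_le_mul_of_nonneg_left h3 hφ
    have := mul_le_mul_of_nonneg_right h2
      (show (0 : ℝ) ≤ (MM - v : ℕ) + n by positivity)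
    linarith

lemma phiLo_spec {m : ℕ} (hm : m % 2 = 1) (hlt : m < 8192) :
    (phiLo m : ℝ) ≤ 2 ^ 40 * phi 1 2048 m ∧ 2 ^ 40 * phi 1 2048 m ≤ phiLo m + 1 := by
  obtain ⟨k, rfl⟩ : ∃ k, m = 2 * k + 1 := ⟨m / 2, by omega⟩
  have hk : (2 * k + 1 + 1) / 2 = k + 1 := by omega
  have hk' : Nat.div (Nat.succ (2 * k + 1)) 2 = k + 1 := hk
  have hk0 : (0 : ℝ) ≤ k := by positivity
  unfold phiLo
  rw [ble_eq, ble_eq, Bool.cond_decide, Bool.cond_decide]
  split_ifs with h1 h2
  · have e : Nat.div (Nat.mul 1099511627776 (Nat.sub 16769024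
        (Nat.mul (Nat.div (Nat.succ (2 * k + 1)) 2) (2 * k + 1)))) (Nat.mul 16769024 (2 * k + 1)) =
        1099511627776 * (16769024 - (k + 1) * (2 * k + 1)) / (16769024 * (2 * k + 1)) := by
      rw [hk']; rfl
    have hle : (k + 1) * (2 * k + 1) ≤ 16769024 := by
      have : (k + 1) * (2 * k + 1) ≤ 2048 * 4095 := Nat.mul_le_mul (by omega) h1
      omega
    have := div_bounds (1099511627776 * (16769024 - (k + 1) * (2 * k + 1)))
      (show 0 < 16769024 * (2 * k + 1) by omega)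
    have e2 : 2 ^ 40 * phi 1 2048 (2 * k + 1) =
        (1099511627776 * (16769024 - (k + 1) * (2 * k + 1)) : ℕ) *
          (1 / (16769024 * (2 * k + 1) : ℕ)) := by
      rw [phi, if_pos ⟨hm, by omega⟩, hk, FX, if_pos (by omega), sg, sub_self, Real.rpow_zero,
        Real.rpow_neg_one, Nat.cast_mul, Nat.cast_sub hle]
      push_cast
      field_simp
      ring
    rw [e, e2]; exact this
  · have e : Nat.div (Nat.mul 1099511627776
        (Nat.sub (Nat.add (Nat.add (Nat.mul 16769024 (Nat.div (Nat.succ (2 * k + 1)) 2))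
          (Nat.mul 8384512 (2 * k + 1)))
          (Nat.mul (Nat.mul (Nat.div (Nat.succ (2 * k + 1)) 2) (Nat.div (Nat.succ (2 * k + 1)) 2))
            (2 * k + 1)))
          (Nat.mul 8190 (Nat.mul (2 * k + 1) (Nat.div (Nat.succ (2 * k + 1)) 2)))))
        (Nat.mul (Nat.mul 16769024 (2 * k + 1)) (Nat.div (Nat.succ (2 * k + 1)) 2)) =
        1099511627776 * (16769024 * (k + 1) + 8384512 * (2 * k + 1) +
          (k + 1) * (k + 1) * (2 * k + 1) - 8190 * ((2 * k + 1) * (k + 1))) /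
          (16769024 * (2 * k + 1) * (k + 1)) := by
      rw [hk']; rfl
    have hle : 8190 * ((2 * k + 1) * (k + 1)) ≤ 16769024 * (k + 1) + 8384512 * (2 * k + 1) +
        (k + 1) * (k + 1) * (2 * k + 1) := by
      zify
      have h5 : (k : ℤ) ≤ 4095 := by omega
      have h6 := mul_nonneg (show (0 : ℤ) ≤ 2 * k + 1 by positivity)
        (sq_nonneg ((k : ℤ) - 4094))
      linarith
    have := div_bounds (1099511627776 * (16769024 * (k + 1) + 8384512 * (2 * k + 1) +
          (k + 1) * (k + 1) * (2 * k + 1) - 8190 * ((2 * k + 1) * (k + 1))))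
      (show 0 < 16769024 * (2 * k + 1) * (k + 1) by positivity)
    have e2 : 2 ^ 40 * phi 1 2048 (2 * k + 1) =
        (1099511627776 * (16769024 * (k + 1) + 8384512 * (2 * k + 1) +
          (k + 1) * (k + 1) * (2 * k + 1) - 8190 * ((2 * k + 1) * (k + 1))) : ℕ) *
          (1 / (16769024 * (2 * k + 1) * (k + 1) : ℕ)) := by
      rw [phi, if_pos ⟨hm, by omega⟩, hk, FX, if_neg (by omega), if_pos (by omega), sg, sg1,
        sub_self, Real.rpow_zero, Real.rpow_neg_one, Nat.cast_mul, Nat.cast_sub hle]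
      push_cast
      field_simp
      ring
    rw [e, e2]; exact this
  · rw [phi, if_neg (by omega)]; simp

def sgm (h n : ℕ) (a : Fin 4 → ℕ → ℕ) (m : ℕ) : ℤ :=
  ∑ j ∈ range n, jacobiSym m (ee h j) * ∑ i : Fin 4, psi i m * a i j

structure St (h n m S N den : ℕ) : Prop where
  odd : m % 2 = 1
  msk : ∃ s z : ℕ → Bool, S = msk n s ∧ N = msk n z ∧
    ∀ j < n, jacobiSym m (ee h j) = if z j then (if s j then -1 else 1) else 0
  den : (den = 0 ∧ ¬ Squarefree m) ∨ (0 < den ∧ Squarefree m ∧ gw 1 m = 1 / den)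

lemma St.one (h n : ℕ) : St h n 1 0 (full (40 * n)) 1 where
  odd := rfl
  msk := ⟨fun _ => false, fun _ => true, zero_msk n, full_msk n, fun j _ => by simp⟩
  den := Or.inr ⟨by norm_num, squarefree_one, by simp [gw]⟩

lemma St.child {h n m S N den p : ℕ} (hn : n ≤ 8192) (st : St h n m S N den) (hp : p.Prime)
    (hp2 : p % 2 = 1) :
    St h n (m * p) (S ^^^ mkS h n p (qr p)) (N &&& mkN h n p)
      (cond (Nat.beq (m % p) 0) 0 (den * (2 * p + 1))) where
  odd := by rw [Nat.mul_mod, st.odd, hp2]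
  msk := by
    obtain ⟨s, z, rfl, rfl, hj⟩ := st.msk
    refine ⟨_, _, by rw [mkS_eq hp.pos h hn, msk_xor], by rw [mkN_eq hp2, msk_land],
      fun j hjn => ?_⟩
    rw [Nat.cast_mul, jacobiSym.mul_left, hj j hjn]
    by_cases hd : p ∣ ee h j
    · have : jacobiSym p (ee h j) = 0 := by
        have : NeZero (ee h j) := ⟨by unfold ee; omega⟩
        refine jacobiSym.eq_zero_iff_not_coprime.mpr ?_
        rw [Int.gcd_natCast_natCast, Nat.gcd_eq_left hd]
        exact hp.one_lt.ne'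
      simp [this, hd]
    · rw [jac_sB hp hp2 hd]
      cases s j <;> cases z j <;> cases sB p h j <;> simp [hd]
  den := by
    rw [beq_eq, Bool.cond_decide]
    split_ifs with hd
    · refine Or.inl ⟨rfl, fun hs => ?_⟩
      exact Nat.squarefree_iff_prime_squarefree.mp hs p hp
        (Nat.mul_dvd_mul_right (Nat.dvd_of_mod_eq_zero hd) p)
    · have hc : Nat.Coprime m p :=
        ((Nat.Prime.coprime_iff_not_dvd hp).mpr fun h' => hd (Nat.mod_eq_zero_of_dvd h')).symm
      rcases st.den with ⟨h0, h1⟩ | ⟨h0, h1, h2⟩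
      · exact Or.inl ⟨by rw [h0, zero_mul], fun hs => h1 hs.of_mul_left⟩
      · refine Or.inr ⟨by positivity, (Nat.squarefree_mul hc).mpr ⟨h1, hp.squarefree⟩, ?_⟩
        rw [gw_mul 1 hc, h2, gw, hp.primeFactors, prod_singleton, Real.rpow_one]
        push_cast
        rw [div_mul_div_comm, one_mul]

lemma abs_sum_psi_le (a : Fin 4 → ℕ → ℕ) (m j : ℕ) :
    |∑ i : Fin 4, psi i m * (a i j : ℤ)| ≤ (a 0 j + a 1 j + a 2 j + a 3 j : ℕ) := by
  refine (abs_sum_le_sum_abs _ _).trans ?_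
  have : ∀ i, |psi i m * (a i j : ℤ)| ≤ a i j := fun i => by
    rcases psi_vals i m with h | h | h <;> simp [h]
  rw [Fin.sum_univ_four]
  push_cast
  linarith [this 0, this 1, this 2, this 3]

lemma dot_comb {h n m S N den : ℕ} (st : St h n m S N den) (a : Fin 4 → ℕ → ℕ)
    (ha : 2 * ∑ j ∈ range n, (a 0 j + a 1 j + a 2 j + a 3 j) + n < HALF) :
    dot (comb n (pack 40 (a 0) n) (pack 40 (a 1) n) (pack 40 (a 2) n) (pack 40 (a 3) n)
      (m % 8)) S N ≤ MM ∧
    |(if dot (comb n (pack 40 (a 0) n) (pack 40 (a 1) n) (pack 40 (a 2) n) (pack 40 (a 3) n)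
      (m % 8)) S N < HALF then (dot (comb n (pack 40 (a 0) n) (pack 40 (a 1) n) (pack 40 (a 2) n)
        (pack 40 (a 3) n) (m % 8)) S N : ℤ) else dot (comb n (pack 40 (a 0) n) (pack 40 (a 1) n)
        (pack 40 (a 2) n) (pack 40 (a 3) n) (m % 8)) S N - MM) - 2 * sgm h n a m| ≤ n := by
  obtain ⟨s, z, rfl, rfl, hj⟩ := st.msk
  obtain ⟨t, e, ht⟩ := comb_pack (n := n) a (fun j hj => by
    have := single_le_sum (f := fun j => a 0 j + a 1 j + a 2 j + a 3 j)
      (fun _ _ => Nat.zero_le _) (mem_range.mpr hj)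
    beta_reduce at this
    omega) st.odd
  rw [e]
  refine dot_spec ht hj ?_
  have h1 : ∑ j ∈ range n, |∑ i : Fin 4, psi i m * (a i j : ℤ)| ≤
      ∑ j ∈ range n, ((a 0 j + a 1 j + a 2 j + a 3 j : ℕ) : ℤ) :=
    sum_le_sum fun j _ => abs_sum_psi_le a m j
  rw [← Nat.cast_sum] at h1
  omega

noncomputable def tau (h n : ℕ) (a b : Fin 4 → ℕ → ℕ) (m : ℕ) : ℝ :=
  2 * BIG + 2 ^ 40 * phi 1 2048 m * (2 * sgm h n a m) - 2 ^ 41 * GG 1 m * (2 * sgm h n b m)

lemma node_ge {h n m S N den : ℕ} (st : St h n m S N den) (hm : m < 8192)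
    (a b : Fin 4 → ℕ → ℕ)
    (ha : 2 * ∑ j ∈ range n, (a 0 j + a 1 j + a 2 j + a 3 j) + n < HALF)
    (hb : 2 * ∑ j ∈ range n, (b 0 j + b 1 j + b 2 j + b 3 j) + n < HALF) :
    tau h n a b m ≤ node n
      (comb n (pack 40 (a 0) n) (pack 40 (a 1) n) (pack 40 (a 2) n) (pack 40 (a 3) n))
      (comb n (pack 40 (b 0) n) (pack 40 (b 1) n) (pack 40 (b 2) n) (pack 40 (b 3) n))
      m S N den := by
  obtain ⟨a1, a2⟩ := dot_comb st a ha
  obtain ⟨b1, b2⟩ := dot_comb st b hb
  obtain ⟨p1, p2⟩ := phiLo_spec st.odd hm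
  have h1 := termU_ge p1 p2 a1 a2
  show _ ≤ ((termU n (phiLo m) (dot (comb n (pack 40 (a 0) n) (pack 40 (a 1) n) (pack 40 (a 2) n)
    (pack 40 (a 3) n) (m % 8)) S N) + cond (Nat.beq den 0) BIG (termG n (2199023255552 / den)
    (dot (comb n (pack 40 (b 0) n) (pack 40 (b 1) n) (pack 40 (b 2) n) (pack 40 (b 3) n)
      (m % 8)) S N)) : ℕ) : ℝ)
  rw [beq_eq, Bool.cond_decide, Nat.cast_add, tau, GG]
  rcases st.den with ⟨h0, h2⟩ | ⟨h0, h2, h3⟩
  · rw [if_pos h0, if_neg h2]; linarith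
  · have hd := div_bounds 2199023255552 h0
    have h4 := termG_ge hd.1 hd.2 b1 b2
    rw [if_neg h0.ne', if_pos h2, h3]
    push_cast at h4
    norm_num at h1 h4 ⊢
    linarith

open Classical in
noncomputable def KS (m : ℕ) (L : List (ℕ × ℕ)) : Finset ℕ :=
  (Ico 2 8192).filter fun k => m * k < 8192 ∧ ∀ q : ℕ, q.Prime → q ∣ k → q ∈ L.map Prod.fst

lemma mem_KS {m k : ℕ} {L : List (ℕ × ℕ)} : k ∈ KS m L ↔
    (2 ≤ k ∧ k < 8192) ∧ m * k < 8192 ∧ ∀ q : ℕ, q.Prime → q ∣ k → q ∈ L.map Prod.fst := by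
  simp only [KS, mem_filter, mem_Ico]

lemma dfs_nil (h n : ℕ) (nd : ℕ → ℕ → ℕ → ℕ → ℕ) (f m S N den : ℕ) :
    dfs h n nd (f + 1) m S N den [] = 0 := rfl

lemma dfs_cons (h n : ℕ) (nd : ℕ → ℕ → ℕ → ℕ → ℕ) (f m S N den : ℕ) (x : ℕ × ℕ)
    (t : List (ℕ × ℕ)) : dfs h n nd (f + 1) m S N den (x :: t) =
      cond (Nat.blt (m * x.1) 8192)
        (nd (m * x.1) (S ^^^ mkS h n x.1 x.2) (N &&& mkN h n x.1)
            (cond (Nat.beq (m % x.1) 0) 0 (den * (2 * x.1 + 1))) +
          dfs h n nd f (m * x.1) (S ^^^ mkS h n x.1 x.2) (N &&& mkN h n x.1)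
            (cond (Nat.beq (m % x.1) 0) 0 (den * (2 * x.1 + 1))) (x :: t) +
          dfs h n nd (f + 1) m S N den t) 0 := rfl

lemma dfs_ge {h n : ℕ} (hn : n ≤ 8192) (nd : ℕ → ℕ → ℕ → ℕ → ℕ) (τ : ℕ → ℝ)
    (hnd : ∀ m S N den, St h n m S N den → m < 8192 → τ m ≤ nd m S N den) (f : ℕ) :
    ∀ (L : List (ℕ × ℕ)) (m S N den : ℕ), PrimeL L → (L.map Prod.fst).Pairwise (· < ·) →
      St h n m S N den → 8192 ≤ m * 3 ^ f →
      ∑ k ∈ KS m L, τ (m * k) ≤ dfs h n nd f m S N den L := by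
  induction f with
  | zero =>
    intro L m S N den _ _ _ hf
    rw [sum_eq_zero, show dfs h n nd 0 m S N den L = 0 from rfl, Nat.cast_zero]
    intro k hk
    obtain ⟨h1, h2, -⟩ := mem_KS.mp hk
    nlinarith [h1.1]
  | succ f ihf =>
    intro L m S N den hL hs st hf
    induction L with
    | nil =>
      rw [sum_eq_zero, dfs_nil, Nat.cast_zero]
      intro k hk
      obtain ⟨h1, -, h3⟩ := mem_KS.mp hk
      simpa using h3 _ (Nat.minFac_prime (by omega)) (Nat.minFac_dvd k)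
    | cons x t ih =>
      obtain ⟨hp, hp2, hB⟩ := hL x List.mem_cons_self
      rw [List.map_cons, List.pairwise_cons] at hs
      rw [dfs_cons, blt_eq, Bool.cond_decide]
      split_ifs with hlt
      · have hc := st.child hn hp hp2
        rw [← hB] at hc
        have h3 : 3 ≤ x.1 := by have := hp.two_le; omega
        have i1 := hnd _ _ _ _ hc hlt
        have i2 := ihf (x :: t) _ _ _ _ hL (by rw [List.map_cons, List.pairwise_cons]; exact hs)
          hc (by
            refine hf.trans ?_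
            rw [pow_succ, mul_comm _ 3, ← mul_assoc]
            exact Nat.mul_le_mul_right _ (Nat.mul_le_mul_left _ h3))
        have i3 := ih hL.tail hs.2
        have m0 : 1 ≤ m := by have := st.odd; omega
        have e1 : (KS m (x :: t)).filter (fun k => ¬ x.1 ∣ k) = KS m t := by
          ext k
          rw [mem_filter, mem_KS, mem_KS, List.map_cons]
          constructor
          · rintro ⟨⟨h1, h2, h3⟩, h4⟩
            refine ⟨h1, h2, fun q hq hqk => ?_⟩
            rcases List.mem_cons.mp (h3 q hq hqk) with rfl | h5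
            exacts [absurd hqk h4, h5]
          · rintro ⟨h1, h2, h3⟩
            exact ⟨⟨h1, h2, fun q hq hqk => List.mem_cons_of_mem _ (h3 q hq hqk)⟩,
              fun h4 => lt_irrefl _ (hs.1 _ (h3 _ hp h4))⟩
        have e2 : (KS m (x :: t)).filter (fun k => x.1 ∣ k) =
            (insert 1 (KS (m * x.1) (x :: t))).image (fun k => x.1 * k) := by
          ext k
          rw [mem_filter, mem_image, mem_KS]
          constructor
          · rintro ⟨⟨h1, h2, h3⟩, k', rfl⟩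
            refine ⟨k', ?_, rfl⟩
            rw [mem_insert, mem_KS]
            by_cases hk1 : k' = 1
            · exact Or.inl hk1
            · have hk0 : k' ≠ 0 := by rintro rfl; simp at h1
              refine Or.inr ⟨⟨by omega, by nlinarith [h1.2]⟩, by rwa [mul_assoc],
                fun q hq hqk => h3 q hq (Dvd.dvd.mul_left hqk _)⟩
          · rintro ⟨k', hk', rfl⟩
            refine ⟨?_, Dvd.intro _ rfl⟩
            rcases mem_insert.mp hk' with rfl | hk'
            · refine ⟨⟨by omega, by nlinarith⟩, by rwa [mul_one], fun q hq hqk => ?_⟩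
              rw [mul_one] at hqk
              rw [(Nat.prime_dvd_prime_iff_eq hq hp).mp hqk]; simp
            · obtain ⟨h1, h2, h4⟩ := mem_KS.mp hk'
              rw [mul_assoc] at h2
              refine ⟨⟨by nlinarith [h1.1], by nlinarith⟩, h2, fun q hq hqk => ?_⟩
              rcases (Nat.Prime.dvd_mul hq).mp hqk with h5 | h5
              · rw [(Nat.prime_dvd_prime_iff_eq hq hp).mp h5]; simp
              · exact h4 q hq h5
        rw [← sum_filter_add_sum_filter_not _ (fun k => x.1 ∣ k), e1, e2,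
          sum_image fun a _ b _ hab => Nat.eq_of_mul_eq_mul_left hp.pos hab,
          sum_insert fun h1 => by have := (mem_KS.mp h1).1.1; omega, mul_one]
        simp only [← mul_assoc]
        push_cast
        linarith
      · rw [sum_eq_zero, Nat.cast_zero]
        intro k hk
        obtain ⟨h1, h2, h3⟩ := mem_KS.mp hk
        have h4 := h3 _ (Nat.minFac_prime (by omega)) (Nat.minFac_dvd k)
        have h5 : k.minFac ≤ k := Nat.minFac_le (by omega)
        have h6 : x.1 ≤ k.minFac := by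
          rcases List.mem_cons.mp h4 with h7 | h7
          exacts [h7.ge, (hs.1 _ h7).le]
        have : m * x.1 ≤ m * k := Nat.mul_le_mul_left _ (h6.trans h5)
        omega

end Pool.Agent.MP_5d10af_nt.Num

end

-- part MP_5d10af_nt.Num.Sound
section

/-!
Soundness of the check.
-/

set_option autoImplicit false

namespace Pool.Agent.MP_5d10af_nt.Num

open Finset

attribute [local irreducible] ones full

structure TabOK (L : List (ℕ × ℕ)) : Prop where
  prime : PrimeL L
  sorted : (L.map Prod.fst).Pairwise (· < ·)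
  all : ∀ q : ℕ, q.Prime → q % 2 = 1 → q < 8192 → q ∈ L.map Prod.fst
  z : (L.take 24).map Prod.fst = l97
  len : (L.take 171).length = 171
  g : ∀ q : ℕ, q.Prime → q % 2 = 1 → q < 1031 → q ∈ (L.take 171).map Prod.fst

lemma PrimeL.take {L : List (ℕ × ℕ)} (h : PrimeL L) (k : ℕ) : PrimeL (L.take k) :=
  fun x hx => h x (List.mem_of_mem_take hx)

lemma KS_one {L : List (ℕ × ℕ)} (hL : TabOK L) :
    KS 1 L = (Ico 1 4096).image fun i => 2 * i + 1 := by
  ext k
  rw [mem_KS, mem_image]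
  constructor
  · rintro ⟨h1, -, h3⟩
    have : k % 2 = 1 := by
      by_contra h
      obtain ⟨x, hx, h2⟩ := List.mem_map.mp (h3 2 Nat.prime_two (by omega))
      have := (hL.prime x hx).2.1
      omega
    exact ⟨k / 2, mem_Ico.mpr (by omega), by omega⟩
  · rintro ⟨i, hi, rfl⟩
    rw [mem_Ico] at hi
    refine ⟨by omega, by omega, fun q hq hd => hL.all q hq ?_ ?_⟩
    · exact Nat.odd_iff.mp ((Nat.odd_iff.mpr (by omega)).of_dvd_nat hd)
    · have := Nat.le_of_dvd (by omega) hd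
      omega

lemma sum_odd_split {L : List (ℕ × ℕ)} (hL : TabOK L) {F : ℕ → ℝ} (hF : ∀ m, m % 2 = 0 → F m = 0) :
    ∑ m ∈ Icc 1 8192, F m = F 1 + ∑ k ∈ KS 1 L, F k := by
  have h1 : 1 ∉ KS 1 L := fun h => by have := (mem_KS.mp h).1.1; omega
  rw [← sum_insert h1]
  refine (sum_subset ?_ ?_).symm
  · intro k hk
    rcases mem_insert.mp hk with rfl | hk
    · simp
    · have := (mem_KS.mp hk).1
      exact mem_Icc.mpr (by omega)
  · intro k hk hk'
    apply hF
    by_contra h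
    rw [mem_insert, KS_one hL, mem_image, not_or] at hk'
    rw [mem_Icc] at hk
    exact hk'.2 ⟨k / 2, mem_Ico.mpr (by omega), by omega⟩

lemma card_KS {L : List (ℕ × ℕ)} (hL : TabOK L) : (KS 1 L).card = 4095 := by
  rw [KS_one hL, card_image_of_injective _ fun a b h => by simpa using h, Nat.card_Ico]

lemma sgm_even (h n : ℕ) (a : Fin 4 → ℕ → ℕ) {m : ℕ} (hm : m % 2 = 0) : sgm h n a m = 0 := by
  simp [sgm, psi_even _ hm]

lemma GG_nonneg (a : ℕ) : 0 ≤ GG 1 a := by
  unfold GG; split_ifs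
  exacts [(gw_pos _ _).le, le_rfl]

lemma D_bound' (e K : ℕ) (hK1 : 1 ≤ K) (hK : Real.log K ≤ 9.011) :
    |∑ a ∈ Icc 1 K, GG 1 a * Kf a e| ≤ 5.7 := by
  set T := (Icc 1 K).filter (fun a => a % 2 = 1 ∧ 1 < a) with hT
  have h1 : 1 ∉ T := by simp [hT]
  have e1 : ∑ a ∈ Icc 1 K, GG 1 a * Kf a e = ∑ a ∈ insert 1 T, GG 1 a * Kf a e := by
    refine (sum_subset ?_ ?_).symm
    · intro k hk
      rcases mem_insert.mp hk with rfl | hk
      · simpa using hK1
      · exact (mem_filter.mp hk).1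
    · intro k hk hk'
      rw [mem_insert, hT, mem_filter, not_or] at hk'
      have h2 : k % 2 = 0 := by
        rw [mem_Icc] at hk
        by_contra h
        exact hk'.2 ⟨mem_Icc.mpr hk, by omega, by omega⟩
      simp [Kf, (chi_cm _ e).even h2]
  have h2 : ∀ a ∈ T, |GG 1 a * Kf a e| ≤ 7 / 8 * (1 / (a : ℝ)) := fun a ha => by
    have h3 : GG 1 a ≤ 1 / (2 * a) := by
      unfold GG; split_ifs with hs
      exacts [gw_le_half le_rfl hs (mem_filter.mp ha).2.2, by positivity]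
    rw [abs_mul, abs_of_nonneg (GG_nonneg a)]
    calc GG 1 a * |Kf a e| ≤ 1 / (2 * a) * (7 / 4) :=
          mul_le_mul h3 (abs_Kf_le a e) (abs_nonneg _) (by positivity)
      _ = _ := by rw [one_div, mul_inv]; ring
  have h3 := sum_odd_inv (Y := K) (by exact_mod_cast hK1) T fun a ha => by
    obtain ⟨h4, h5, h6⟩ := mem_filter.mp ha
    exact ⟨h5, h6, by exact_mod_cast (mem_Icc.mp h4).2⟩
  have h5 : |GG 1 1 * Kf 1 e| ≤ 7 / 4 := by
    have : GG 1 1 = 1 := by simp [GG, gw]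
    rw [this, one_mul]; exact abs_Kf_le 1 e
  rw [e1]
  refine (abs_sum_le_sum_abs _ _).trans ?_
  rw [sum_insert h1]
  have h6 := sum_le_sum h2
  rw [← mul_sum] at h6
  linarith

lemma D_bound (e : ℕ) : |∑ a ∈ Icc 1 8192, GG 1 a * Kf a e| ≤ 5.7 := by
  refine D_bound' e 8192 (by norm_num) ?_
  rw [show ((8192 : ℕ) : ℝ) = 2 ^ 13 by norm_num, Real.log_pow]
  have := Real.log_two_lt_d9
  push_cast; linarith

lemma sum_kk32_le (e : ℕ) : kk32 0 e + kk32 1 e + kk32 2 e + kk32 3 e ≤ 56 := by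
  unfold kk32; split_ifs <;> simp

lemma swap_sum (h n : ℕ) (a : Fin 4 → ℕ → ℕ) (c : ℕ → ℝ) :
    ∑ j ∈ range n, ∑ i : Fin 4, (a i j : ℝ) * ∑ m ∈ Icc 1 8192, c m * chi i (ee h j) m =
      ∑ m ∈ Icc 1 8192, c m * sgm h n a m := by
  simp only [sgm, chi, mul_sum]
  push_cast
  simp only [mul_sum]
  rw [sum_comm (s := Icc 1 8192)]
  refine sum_congr rfl fun j _ => ?_
  rw [sum_comm]
  exact sum_congr rfl fun m _ => sum_congr rfl fun i _ => by ring

lemma fin_eq (L : List (ℕ × ℕ)) (h n sq g0 g1 P0 P1 P2 P3 H0 H1 H2 H3 : ℕ) :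
    fin L h n sq g0 g1 P0 P1 P2 P3 H0 H1 H2 H3 =
      node n (comb n H0 H1 H2 H3) (comb n (mK0 h n g1) (mK1 h n g1) (mK2 h n g1) (mK3 h n g1))
        1 0 (full (40 * n)) 1 +
      dfs h n (node n (comb n H0 H1 H2 H3)
        (comb n (mK0 h n g1) (mK1 h n g1) (mK2 h n g1) (mK3 h n g1))) 9 1 0 (full (40 * n)) 1 L +
      2199023255552 * sumF (P0 + P1 + (P2 + P3)) +
      ((537002049 * sq + 488300000) * sumF (H0 + H1) +
        (759439038 * sq + 488300000) * sumF (H2 + H3) +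
        803000000000000 * (sumF g1 - sumF g0)) := by
  unfold fin
  simp only [Nat.add_eq, Nat.mul_eq, Nat.sub_eq]

lemma fin_ge {L : List (ℕ × ℕ)} (hL : TabOK L) {h n sq : ℕ} (hn : n ≤ 8192)
    (hsq : 2 * (h + n) ≤ sq ^ 2) (g0 g1 : ℕ → ℕ) (P H : Fin 4 → ℕ → ℕ)
    (hg : ∀ j < n, g0 j ≤ 4194476 ∧ g1 j ≤ 4194476)
    (hP : ∀ i, ∀ j < n, P i j ≤ 1000000000) (hH : ∀ i, ∀ j < n, H i j ≤ 1000000000)
    (hf : fits h n (pack 40 g1 n) (pack 40 (H 0) n) (pack 40 (H 1) n) (pack 40 (H 2) n)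
      (pack 40 (H 3) n) = true) :
    8192 * BIG + 2 ^ 47 * ∑ j ∈ range n,
      (∑ i : Fin 4, ((P i j : ℝ) + H i j * majT 1 i (ee h j)) / 64 -
        g1 j * ∑ a ∈ Icc 1 8192, GG 1 a * Kf a (ee h j) + ((g1 j : ℝ) - g0 j) * 5.7) ≤
      fin L h n sq (pack 40 g0 n) (pack 40 g1 n) (pack 40 (P 0) n) (pack 40 (P 1) n)
        (pack 40 (P 2) n) (pack 40 (P 3) n) (pack 40 (H 0) n) (pack 40 (H 1) n)
        (pack 40 (H 2) n) (pack 40 (H 3) n) := by
  have g0b : ∀ j < n, g0 j < 2 ^ 40 := fun j hj => by have := (hg j hj).1; omega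
  have g1b : ∀ j < n, g1 j < 2 ^ 40 := fun j hj => by have := (hg j hj).2; omega
  set b : Fin 4 → ℕ → ℕ := fun i j => g1 j * kk32 i (ee h j) with hb
  obtain ⟨k0, k1, k2, k3⟩ := mK_pack h g1b
  have s4 : ∀ A : Fin 4 → ℕ → ℕ, (∀ i, ∀ j < n, A i j ≤ 1000000000) →
      sumF (pack 40 (A 0) n + pack 40 (A 1) n + (pack 40 (A 2) n + pack 40 (A 3) n)) =
        ∑ j ∈ range n, (A 0 j + A 1 j + A 2 j + A 3 j) := fun A hA => by
    rw [pack_add, pack_add, pack_add, sumF_pack hn fun j hj => by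
      have := hA 0 j hj; have := hA 1 j hj; have := hA 2 j hj; have := hA 3 j hj; omega]
    exact sum_congr rfl fun j _ => by ring
  have s2 : ∀ i i', sumF (pack 40 (H i) n + pack 40 (H i') n) =
      ∑ j ∈ range n, (H i j + H i' j) := fun i i' => by
    rw [pack_add, sumF_pack hn fun j hj => by have := hH i j hj; have := hH i' j hj; omega]
  unfold fits at hf
  simp only [Nat.add_eq, Nat.mul_eq, blt_eq, Bool.and_eq_true, decide_eq_true_eq] at hf
  rw [s4 H hH, sumF_pack hn g1b] at hf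
  have hfb : 2 * ∑ j ∈ range n, (b 0 j + b 1 j + b 2 j + b 3 j) + n < HALF := by
    have : ∑ j ∈ range n, (b 0 j + b 1 j + b 2 j + b 3 j) ≤ ∑ j ∈ range n, 56 * g1 j :=
      sum_le_sum fun j _ => by
        have := Nat.mul_le_mul_left (g1 j) (sum_kk32_le (ee h j))
        simp only [hb]; linarith
    rw [← mul_sum] at this
    omega
  have hnd := fun m S N den (st : St h n m S N den) (hm : m < 8192) => node_ge st hm H b hf.1 hfb
  have d1 := hnd _ _ _ _ (St.one h n) (by norm_num)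
  have d2 := dfs_ge hn _ _ hnd 9 L 1 _ _ _ hL.prime hL.sorted (St.one h n) (by norm_num)
  simp only [one_mul] at d2
  rw [fin_eq, k0, k1, k2, k3, s4 P hP, s2, s2, sumF_pack hn g1b, sumF_pack hn g0b]
  have t1 : tau h n H b 1 + ∑ k ∈ KS 1 L, tau h n H b k = 8192 * BIG +
      (2 ^ 41 * ∑ m ∈ Icc 1 8192, phi 1 2048 m * sgm h n H m -
        2 ^ 42 * ∑ m ∈ Icc 1 8192, GG 1 m * sgm h n b m) := by
    rw [sum_odd_split hL fun m hm => by rw [sgm_even h n H hm]; simp,
      sum_odd_split hL fun m hm => by rw [sgm_even h n b hm]; simp]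
    simp only [tau, sum_sub_distrib, sum_add_distrib, sum_const, card_KS hL, nsmul_eq_mul, mul_add,
      mul_sum]
    have a1 : ∑ k ∈ KS 1 L, 2 ^ 40 * phi 1 2048 k * (2 * (sgm h n H k : ℝ)) =
        ∑ k ∈ KS 1 L, 2 ^ 41 * (phi 1 2048 k * (sgm h n H k : ℝ)) :=
      sum_congr rfl fun k _ => by ring
    have a2 : ∑ k ∈ KS 1 L, 2 ^ 41 * GG 1 k * (2 * (sgm h n b k : ℝ)) =
        ∑ k ∈ KS 1 L, 2 ^ 42 * (GG 1 k * (sgm h n b k : ℝ)) :=
      sum_congr rfl fun k _ => by ring
    rw [a1, a2]; push_cast; ring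
  have t2 : ∑ j ∈ range n, (g1 j : ℝ) * ∑ a ∈ Icc 1 8192, GG 1 a * Kf a (ee h j) =
      (∑ m ∈ Icc 1 8192, GG 1 m * sgm h n b m) / 32 := by
    rw [← swap_sum, sum_div]
    refine sum_congr rfl fun j _ => ?_
    simp only [Kf, kk, hb, mul_sum, sum_div]
    rw [sum_comm]
    exact sum_congr rfl fun i _ => sum_congr rfl fun m _ => by push_cast; ring
  have hs1 : (2 : ℝ) ^ 41 * sg1 2048 ≤ 537002048.04 := by norm_num [sg1]
  have hs0 : 0 ≤ sg1 2048 := by norm_num [sg1]
  have t3 : ∀ j ∈ range n, 2 ^ 47 * ∑ i : Fin 4, ((P i j : ℝ) + H i j * majT 1 i (ee h j)) / 64 ≤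
      2 ^ 41 * ∑ i : Fin 4, (H i j : ℝ) * ∑ m ∈ Icc 1 8192, phi 1 2048 m * chi i (ee h j) m +
      (2199023255552 * ((P 0 j + P 1 j + P 2 j + P 3 j : ℕ) : ℝ) +
        ((537002049 * sq + 488300000) * ((H 0 j + H 1 j : ℕ) : ℝ) +
        (759439038 * sq + 488300000) * ((H 2 j + H 3 j : ℕ) : ℝ))) := fun j hj => by
    have he : √(ee h j : ℝ) ≤ sq := by
      rw [Real.sqrt_le_left (by positivity)]
      have : ee h j ≤ sq ^ 2 := by have := mem_range.mp hj; unfold ee; omega
      exact_mod_cast this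
    have hr := Real.sqrt_nonneg (ee h j : ℝ)
    have hq : (0 : ℝ) ≤ sq := by positivity
    have u1 : 2 ^ 41 * (1 * √(ee h j : ℝ) * sg1 2048 + 0.000222) ≤ 537002049 * sq + 488300000 := by
      have := mul_le_mul he hs1 (by positivity) hq
      norm_num at this ⊢
      linarith
    have u2 : 2 ^ 41 * (√2 * √(ee h j : ℝ) * sg1 2048 + 0.000222) ≤
        759439038 * sq + 488300000 := by
      have := mul_le_mul sqrt_two_lt.le (mul_le_mul he hs1 (by positivity) hq) (by positivity)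
        (by norm_num)
      norm_num at this ⊢
      linarith
    have c0 : cpsi 0 = 1 := by simp [cpsi]
    have c1 : cpsi 1 = 1 := by simp [cpsi]
    have c2 : cpsi 2 = √2 := by simp [cpsi]
    have c3 : cpsi 3 = √2 := by simp [cpsi]
    have v0 := mul_le_mul_of_nonneg_left u1 (show (0 : ℝ) ≤ H 0 j by positivity)
    have v1 := mul_le_mul_of_nonneg_left u1 (show (0 : ℝ) ≤ H 1 j by positivity)
    have v2 := mul_le_mul_of_nonneg_left u2 (show (0 : ℝ) ≤ H 2 j by positivity)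
    have v3 := mul_le_mul_of_nonneg_left u2 (show (0 : ℝ) ≤ H 3 j by positivity)
    simp only [Fin.sum_univ_four, majT, c0, c1, c2, c3]
    push_cast
    linarith
  have t4 := sum_le_sum t3
  rw [sum_add_distrib, sum_add_distrib, sum_add_distrib, ← mul_sum, ← mul_sum, ← mul_sum,
    ← mul_sum, ← mul_sum, swap_sum, ← Nat.cast_sum, ← Nat.cast_sum, ← Nat.cast_sum] at t4
  have t5 := cast_sub_ge (∑ j ∈ range n, g1 j) (∑ j ∈ range n, g0 j)
  have t6 : (0 : ℝ) ≤ ((∑ j ∈ range n, g1 j - ∑ j ∈ range n, g0 j : ℕ) : ℝ) := by positivity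
  rw [sum_add_distrib, sum_sub_distrib, t2, ← sum_mul, sum_sub_distrib, ← Nat.cast_sum,
    ← Nat.cast_sum]
  simp only [Nat.cast_add, Nat.cast_mul, Nat.cast_ofNat]
  simp only [hb] at d1 d2 t1 ⊢
  linarith

lemma chk2_eq (L Lz : List (ℕ × ℕ)) (h n SC sq a b g0 g1 gc : ℕ) :
    chk2 L Lz h n SC sq a b g0 g1 gc = true ↔
    fits h n g1
      (mK0 h n (foldP (stepH h n 0) (kill h gc) Lz)) (mK1 h n (foldP (stepH h n 1) gc Lz))
      (mK2 h n (foldP (stepH h n 2) gc Lz)) (mK3 h n (foldP (stepH h n 3) gc Lz)) = true ∧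
    1000000 * fin L h n sq g0 g1
        (mK0 h n (foldP (stepP h n 0) (kill h gc) Lz)) (mK1 h n (foldP (stepP h n 1) gc Lz))
        (mK2 h n (foldP (stepP h n 2) gc Lz)) (mK3 h n (foldP (stepP h n 3) gc Lz))
        (mK0 h n (foldP (stepH h n 0) (kill h gc) Lz)) (mK1 h n (foldP (stepH h n 1) gc Lz))
        (mK2 h n (foldP (stepH h n 2) gc Lz)) (mK3 h n (foldP (stepH h n 3) gc Lz)) +
        b * (140737488355328 * SC) ≤ 1000000 * (8192 * BIG) + a * (140737488355328 * SC) := by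
  unfold chk2
  simp only [Nat.add_eq, Nat.mul_eq, ble_eq, Bool.and_eq_true, decide_eq_true_eq]

theorem chk_sound {L : List (ℕ × ℕ)} (hL : TabOK L)
    (hpos : ∀ (i : Fin 4) (e : ℕ), e % 2 = 1 → 0 ≤ majT 1 i e) {h n d c SC sq a b : ℕ}
    (hp : n ≤ 8192 ∧ n ≤ 2 ^ d ∧ h + n ≤ 2 ^ 19 ∧ c ≤ 2 ∧ 0 < SC ∧ SC ≤ 2 ^ 22 * (2 * h + 1) ∧
      2 * (h + n) ≤ sq ^ 2)
    (hchk : chk L h n d c SC sq a b = true) :
    ∑ j ∈ Ico h (h + n), numT 1 c (2 * j + 1) ≤ ((a : ℝ) - b) / 1000000 := by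
  obtain ⟨hn, hd, hE, hc, hSC0, hSC, hsq⟩ := hp
  have hnd : ((L.take 171).map Prod.fst).Nodup := by
    rw [List.map_take]
    exact (hL.sorted.imp fun h => ne_of_lt h).sublist (List.take_sublist _ _)
  obtain ⟨g0, g1, e0, e1, hg⟩ := g_spec (hL.prime.take 171) hnd hL.g hL.len hd hE hSC
  rw [chk, chk2_eq, e0, e1, Nat.mul_eq, mul_comm c, pack_mul] at hchk
  have gcb : ∀ j < n, g1 j * c ≤ 8388952 := fun j hj => by
    have := Nat.mul_le_mul (hg j hj).2.1 hc; omega
  rw [kill_pack h fun j hj => lt_of_le_of_lt (gcb j hj) (by norm_num)] at hchk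
  set w0 : Fin 4 → ℕ → ℕ := fun i j => if h + j = 0 ∧ i = 0 then 0 else g1 j * c with hw0
  set T : Fin 4 → ℕ → ℝ := fun i j =>
    if h + j = 0 ∧ i = 0 then 0 else SC * GG 1 (ee h j) * c with hT
  have h0 : ∀ i, ∀ j < n, w0 i j ≤ 8388952 ∧ T i j ≤ (w0 i j : ℝ) := fun i j hj => by
    simp only [hw0, hT]
    split_ifs
    · simp
    · refine ⟨gcb j hj, ?_⟩
      push_cast
      exact mul_le_mul_of_nonneg_right (hg j hj).2.2.2 (by positivity)
  choose wP eP hP using fun i => foldPZ (hL.prime.take 24) hL.z h hn i (h0 i)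
  choose wH eH hH using fun i => foldHZ (hL.prime.take 24) hL.z h hn i (h0 i)
  have r0 : (fun j => if h + j = 0 then 0 else g1 j * c) = w0 0 := by
    funext j; simp [hw0]
  have r1 : (fun j => g1 j * c) = w0 1 := by funext j; simp [hw0]
  have r2 : w0 1 = w0 2 := by funext j; simp [hw0]
  have r3 : w0 1 = w0 3 := by funext j; simp [hw0]
  have p0 := eP 0
  have p1 := eP 1
  have p2 := eP 2
  have p3 := eP 3
  have q0 := eH 0
  have q1 := eH 1
  have q2 := eH 2
  have q3 := eH 3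
  rw [← r2] at p2 q2
  rw [← r3] at p3 q3
  simp only [Fin.val_zero, Fin.val_one, Fin.val_two, show ((3 : Fin 4) : ℕ) = 3 from rfl]
    at p0 p1 p2 p3 q0 q1 q2 q3
  have bP : ∀ i, ∀ j < n, wP i j < 2 ^ 40 := fun i j hj => by have := (hP i j hj).1; omega
  have bH : ∀ i, ∀ j < n, wH i j < 2 ^ 40 := fun i j hj => by have := (hH i j hj).1; omega
  rw [r0, r1, p0, p1, p2, p3, q0, q1, q2, q3, (mK_pack h (bP 0)).1, (mK_pack h (bP 1)).2.1,
    (mK_pack h (bP 2)).2.2.1, (mK_pack h (bP 3)).2.2.2, (mK_pack h (bH 0)).1,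
    (mK_pack h (bH 1)).2.1, (mK_pack h (bH 2)).2.2.1, (mK_pack h (bH 3)).2.2.2] at hchk
  have kb : ∀ i e, kk32 i e ≤ 56 := fun i e => by
    have := sum_kk32_le e
    fin_cases i <;> simp only [Fin.zero_eta, Fin.mk_one, Fin.reduceFinMk] <;> omega
  have key := fin_ge hL hn hsq g0 g1 (fun i j => wP i j * kk32 i (ee h j))
    (fun i j => wH i j * kk32 i (ee h j)) (fun j hj => ⟨(hg j hj).1, (hg j hj).2.1⟩)
    (fun i j hj => by have := Nat.mul_le_mul (hP i j hj).1 (kb i (ee h j)); omega)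
    (fun i j hj => by have := Nat.mul_le_mul (hH i j hj).1 (kb i (ee h j)); omega) hchk.1
  have h2 := (Nat.cast_le (α := ℝ)).mpr hchk.2
  have hS : (0 : ℝ) < SC := by exact_mod_cast hSC0
  have t : ∀ j ∈ range n, SC * numT 1 c (ee h j) ≤
      ∑ i : Fin 4, (((wP i j * kk32 i (ee h j) : ℕ) : ℝ) +
        ((wH i j * kk32 i (ee h j) : ℕ) : ℝ) * majT 1 i (ee h j)) / 64 -
        g1 j * ∑ a ∈ Icc 1 8192, GG 1 a * Kf a (ee h j) + ((g1 j : ℝ) - g0 j) * 5.7 := by
    intro j hj
    have hj := mem_range.mp hj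
    obtain ⟨-, -, l0, l1⟩ := hg j hj
    have hD := abs_le.mp (D_bound (ee h j))
    have u1 : SC * GG 1 (ee h j) * c * ∑ i : Fin 4, (if ee h j = 1 ∧ i = 0 then 0 else
        kk i (ee h j) * (PZ 1 Z97 (chi i (ee h j)) / 2 +
          HZ 1 Z97 (chi i (ee h j)) * majT 1 i (ee h j) / 2)) ≤
        ∑ i : Fin 4, (((wP i j * kk32 i (ee h j) : ℕ) : ℝ) +
        ((wH i j * kk32 i (ee h j) : ℕ) : ℝ) * majT 1 i (ee h j)) / 64 := by
      rw [mul_sum]
      refine sum_le_sum fun i _ => ?_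
      have m0 := hpos i (ee h j) (by unfold ee; omega)
      have k0 : (0 : ℝ) ≤ kk32 i (ee h j) := by positivity
      have a1 := (hP i j hj).2
      have a2 := (hH i j hj).2
      have hiff : ee h j = 1 ∧ i = 0 ↔ h + j = 0 ∧ i = 0 := by unfold ee; omega
      simp only [hT] at a1 a2
      by_cases hz : h + j = 0 ∧ i = 0
      · rw [if_pos (hiff.mpr hz), mul_zero]; positivity
      · rw [if_neg hz] at a1 a2
        rw [if_neg fun h' => hz (hiff.mp h'), kk]
        have a3 := mul_le_mul_of_nonneg_right a1 k0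
        have a4 := mul_le_mul_of_nonneg_right (mul_le_mul_of_nonneg_right a2 k0) m0
        push_cast
        linarith
    have u2 := mul_le_mul_of_nonneg_left hD.2 (sub_nonneg.mpr l1)
    rw [numT]
    linarith
  have t2 := sum_le_sum t
  rw [← mul_sum] at t2
  rw [sum_Ico_eq_sum_range, Nat.add_sub_cancel_left, le_div_iff₀ (by norm_num)]
  refine le_of_mul_le_mul_left ?_ (show (0 : ℝ) < 140737488355328 * SC by positivity)
  simp only [Nat.cast_add, Nat.cast_mul, Nat.cast_ofNat] at h2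
  have e : ∑ j ∈ range n, numT 1 c (2 * (h + j) + 1) = ∑ j ∈ range n, numT 1 c (ee h j) := rfl
  rw [e]
  norm_num at key
  norm_num at t2
  linarith

end Pool.Agent.MP_5d10af_nt.Num

end
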