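import Pool.Agent.MP_5d10af_nt.Mg.Head
import Pool.Agent.MP_5d10af_nt.Num.Run7
import Pool.Agent.MP_5d10af_nt.Num.Run8
import Pool.Agent.MP_5d10af_nt.Num.Run9
import Pool.Agent.MP_5d10af_nt.Mg.Euler
import Pool.Agent.MP_5d10af_nt.Mg.Num_Sound
import Pool.Agent.MP_5d10af_nt.Mg.Win
import Pool.Agent.MP_5d10af_nt.Mg.MS

-- part MP_5d10af_nt.Num.Main
section

/-!
The finite sum is at most `-1.4`.
-/

set_option autoImplicit false

namespace Pool.Agent.MP_5d10af_nt.Num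

open Finset

lemma glue {c h0 h n d SC sq a b : ℕ} {v w : ℝ}
    (h1 : ∑ j ∈ Ico h0 h, numT 1 c (2 * j + 1) ≤ v) (hchk : chk tab0 h n d c SC sq a b = true)
    (hp : n ≤ 8192 ∧ n ≤ 2 ^ d ∧ h + n ≤ 2 ^ 19 ∧ c ≤ 2 ∧ 0 < SC ∧ SC ≤ 2 ^ 22 * (2 * h + 1) ∧
      2 * (h + n) ≤ sq ^ 2) (h' : ℕ) (hh : h0 ≤ h ∧ h' = h + n)
    (hw : v + ((a : ℝ) - b) / 1000000 ≤ w) :
    ∑ j ∈ Ico h0 h', numT 1 c (2 * j + 1) ≤ w := by
  have h2 := chk_sound tabOK (fun i e he => majT_nonneg i he) hp hchk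
  rw [hh.2, ← sum_Ico_consecutive _ hh.1 (Nat.le_add_right h n)]
  linarith

lemma start (c h : ℕ) : ∑ j ∈ Ico h h, numT 1 c (2 * j + 1) ≤ 0 := by simp

lemma acc0 : ∑ j ∈ Ico 0 256, numT 1 (2 : ℕ) (2 * j + 1) ≤ -1927766 / 1000000 :=
  glue (start 2 0) runs0.1 (by norm_num) _ (by norm_num) (by norm_num)

lemma acc1 : ∑ j ∈ Ico 0 1024, numT 1 (2 : ℕ) (2 * j + 1) ≤ -1674206 / 1000000 :=
  glue acc0 runs0.2.1 (by norm_num) _ (by norm_num) (by norm_num)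

lemma acc2 : ∑ j ∈ Ico 0 4096, numT 1 (2 : ℕ) (2 * j + 1) ≤ -1433163 / 1000000 :=
  glue acc1 runs0.2.2.1 (by norm_num) _ (by norm_num) (by norm_num)

lemma acc3 : ∑ j ∈ Ico 4096 8192, numT 1 (1 : ℕ) (2 * j + 1) ≤ 1731 / 1000000 :=
  glue (start 1 4096) runs0.2.2.2 (by norm_num) _ (by norm_num) (by norm_num)

lemma acc4 : ∑ j ∈ Ico 4096 16384, numT 1 (1 : ℕ) (2 * j + 1) ≤ 4034 / 1000000 :=
  glue acc3 runs1.1 (by norm_num) _ (by norm_num) (by norm_num)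

lemma acc5 : ∑ j ∈ Ico 4096 24576, numT 1 (1 : ℕ) (2 * j + 1) ≤ 5630 / 1000000 :=
  glue acc4 runs1.2.1 (by norm_num) _ (by norm_num) (by norm_num)

lemma acc6 : ∑ j ∈ Ico 4096 32768, numT 1 (1 : ℕ) (2 * j + 1) ≤ 6910 / 1000000 :=
  glue acc5 runs1.2.2.1 (by norm_num) _ (by norm_num) (by norm_num)

lemma acc7 : ∑ j ∈ Ico 4096 40960, numT 1 (1 : ℕ) (2 * j + 1) ≤ 8017 / 1000000 :=
  glue acc6 runs1.2.2.2.1 (by norm_num) _ (by norm_num) (by norm_num)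

lemma acc8 : ∑ j ∈ Ico 4096 49152, numT 1 (1 : ℕ) (2 * j + 1) ≤ 8997 / 1000000 :=
  glue acc7 runs1.2.2.2.2.1 (by norm_num) _ (by norm_num) (by norm_num)

lemma acc9 : ∑ j ∈ Ico 4096 57344, numT 1 (1 : ℕ) (2 * j + 1) ≤ 9888 / 1000000 :=
  glue acc8 runs1.2.2.2.2.2.1 (by norm_num) _ (by norm_num) (by norm_num)

lemma acc10 : ∑ j ∈ Ico 4096 65536, numT 1 (1 : ℕ) (2 * j + 1) ≤ 10710 / 1000000 :=
  glue acc9 runs1.2.2.2.2.2.2 (by norm_num) _ (by norm_num) (by norm_num)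

lemma acc11 : ∑ j ∈ Ico 4096 73728, numT 1 (1 : ℕ) (2 * j + 1) ≤ 11475 / 1000000 :=
  glue acc10 runs2.1 (by norm_num) _ (by norm_num) (by norm_num)

lemma acc12 : ∑ j ∈ Ico 4096 81920, numT 1 (1 : ℕ) (2 * j + 1) ≤ 12194 / 1000000 :=
  glue acc11 runs2.2.1 (by norm_num) _ (by norm_num) (by norm_num)

lemma acc13 : ∑ j ∈ Ico 4096 90112, numT 1 (1 : ℕ) (2 * j + 1) ≤ 12876 / 1000000 :=
  glue acc12 runs2.2.2.1 (by norm_num) _ (by norm_num) (by norm_num)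

lemma acc14 : ∑ j ∈ Ico 4096 98304, numT 1 (1 : ℕ) (2 * j + 1) ≤ 13523 / 1000000 :=
  glue acc13 runs2.2.2.2.1 (by norm_num) _ (by norm_num) (by norm_num)

lemma acc15 : ∑ j ∈ Ico 4096 106496, numT 1 (1 : ℕ) (2 * j + 1) ≤ 14142 / 1000000 :=
  glue acc14 runs2.2.2.2.2.1 (by norm_num) _ (by norm_num) (by norm_num)

lemma acc16 : ∑ j ∈ Ico 4096 114688, numT 1 (1 : ℕ) (2 * j + 1) ≤ 14734 / 1000000 :=
  glue acc15 runs2.2.2.2.2.2.1 (by norm_num) _ (by norm_num) (by norm_num)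

lemma acc17 : ∑ j ∈ Ico 4096 122880, numT 1 (1 : ℕ) (2 * j + 1) ≤ 15303 / 1000000 :=
  glue acc16 runs2.2.2.2.2.2.2 (by norm_num) _ (by norm_num) (by norm_num)

lemma acc18 : ∑ j ∈ Ico 4096 131072, numT 1 (1 : ℕ) (2 * j + 1) ≤ 15852 / 1000000 :=
  glue acc17 runs3.1 (by norm_num) _ (by norm_num) (by norm_num)

lemma acc19 : ∑ j ∈ Ico 4096 139264, numT 1 (1 : ℕ) (2 * j + 1) ≤ 16384 / 1000000 :=
  glue acc18 runs3.2.1 (by norm_num) _ (by norm_num) (by norm_num)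

lemma acc20 : ∑ j ∈ Ico 4096 147456, numT 1 (1 : ℕ) (2 * j + 1) ≤ 16899 / 1000000 :=
  glue acc19 runs3.2.2.1 (by norm_num) _ (by norm_num) (by norm_num)

lemma acc21 : ∑ j ∈ Ico 4096 155648, numT 1 (1 : ℕ) (2 * j + 1) ≤ 17398 / 1000000 :=
  glue acc20 runs3.2.2.2.1 (by norm_num) _ (by norm_num) (by norm_num)

lemma acc22 : ∑ j ∈ Ico 4096 163840, numT 1 (1 : ℕ) (2 * j + 1) ≤ 17885 / 1000000 :=
  glue acc21 runs3.2.2.2.2.1 (by norm_num) _ (by norm_num) (by norm_num)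

lemma acc23 : ∑ j ∈ Ico 4096 172032, numT 1 (1 : ℕ) (2 * j + 1) ≤ 18357 / 1000000 :=
  glue acc22 runs3.2.2.2.2.2.1 (by norm_num) _ (by norm_num) (by norm_num)

lemma acc24 : ∑ j ∈ Ico 4096 180224, numT 1 (1 : ℕ) (2 * j + 1) ≤ 18818 / 1000000 :=
  glue acc23 runs3.2.2.2.2.2.2 (by norm_num) _ (by norm_num) (by norm_num)

lemma acc25 : ∑ j ∈ Ico 4096 188416, numT 1 (1 : ℕ) (2 * j + 1) ≤ 19267 / 1000000 :=
  glue acc24 runs4.1 (by norm_num) _ (by norm_num) (by norm_num)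

lemma acc26 : ∑ j ∈ Ico 4096 196608, numT 1 (1 : ℕ) (2 * j + 1) ≤ 19706 / 1000000 :=
  glue acc25 runs4.2.1 (by norm_num) _ (by norm_num) (by norm_num)

lemma acc27 : ∑ j ∈ Ico 4096 204800, numT 1 (1 : ℕ) (2 * j + 1) ≤ 20134 / 1000000 :=
  glue acc26 runs4.2.2.1 (by norm_num) _ (by norm_num) (by norm_num)

lemma acc28 : ∑ j ∈ Ico 4096 212992, numT 1 (1 : ℕ) (2 * j + 1) ≤ 20555 / 1000000 :=
  glue acc27 runs4.2.2.2.1 (by norm_num) _ (by norm_num) (by norm_num)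

lemma acc29 : ∑ j ∈ Ico 4096 221184, numT 1 (1 : ℕ) (2 * j + 1) ≤ 20967 / 1000000 :=
  glue acc28 runs4.2.2.2.2.1 (by norm_num) _ (by norm_num) (by norm_num)

lemma acc30 : ∑ j ∈ Ico 4096 229376, numT 1 (1 : ℕ) (2 * j + 1) ≤ 21371 / 1000000 :=
  glue acc29 runs4.2.2.2.2.2.1 (by norm_num) _ (by norm_num) (by norm_num)

lemma acc31 : ∑ j ∈ Ico 4096 237568, numT 1 (1 : ℕ) (2 * j + 1) ≤ 21767 / 1000000 :=
  glue acc30 runs4.2.2.2.2.2.2 (by norm_num) _ (by norm_num) (by norm_num)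

lemma acc32 : ∑ j ∈ Ico 4096 245760, numT 1 (1 : ℕ) (2 * j + 1) ≤ 22156 / 1000000 :=
  glue acc31 runs5.1 (by norm_num) _ (by norm_num) (by norm_num)

lemma acc33 : ∑ j ∈ Ico 4096 253952, numT 1 (1 : ℕ) (2 * j + 1) ≤ 22538 / 1000000 :=
  glue acc32 runs5.2.1 (by norm_num) _ (by norm_num) (by norm_num)

lemma acc34 : ∑ j ∈ Ico 4096 262144, numT 1 (1 : ℕ) (2 * j + 1) ≤ 22914 / 1000000 :=
  glue acc33 runs5.2.2.1 (by norm_num) _ (by norm_num) (by norm_num)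

lemma acc35 : ∑ j ∈ Ico 4096 270336, numT 1 (1 : ℕ) (2 * j + 1) ≤ 23283 / 1000000 :=
  glue acc34 runs5.2.2.2.1 (by norm_num) _ (by norm_num) (by norm_num)

lemma acc36 : ∑ j ∈ Ico 4096 278528, numT 1 (1 : ℕ) (2 * j + 1) ≤ 23646 / 1000000 :=
  glue acc35 runs5.2.2.2.2.1 (by norm_num) _ (by norm_num) (by norm_num)

lemma acc37 : ∑ j ∈ Ico 4096 286720, numT 1 (1 : ℕ) (2 * j + 1) ≤ 24003 / 1000000 :=
  glue acc36 runs5.2.2.2.2.2.1 (by norm_num) _ (by norm_num) (by norm_num)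

lemma acc38 : ∑ j ∈ Ico 4096 294912, numT 1 (1 : ℕ) (2 * j + 1) ≤ 24356 / 1000000 :=
  glue acc37 runs5.2.2.2.2.2.2 (by norm_num) _ (by norm_num) (by norm_num)

lemma acc39 : ∑ j ∈ Ico 4096 303104, numT 1 (1 : ℕ) (2 * j + 1) ≤ 24702 / 1000000 :=
  glue acc38 runs6.1 (by norm_num) _ (by norm_num) (by norm_num)

lemma acc40 : ∑ j ∈ Ico 4096 311296, numT 1 (1 : ℕ) (2 * j + 1) ≤ 25045 / 1000000 :=
  glue acc39 runs6.2.1 (by norm_num) _ (by norm_num) (by norm_num)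

lemma acc41 : ∑ j ∈ Ico 4096 319488, numT 1 (1 : ℕ) (2 * j + 1) ≤ 25381 / 1000000 :=
  glue acc40 runs6.2.2.1 (by norm_num) _ (by norm_num) (by norm_num)

lemma acc42 : ∑ j ∈ Ico 4096 327680, numT 1 (1 : ℕ) (2 * j + 1) ≤ 25713 / 1000000 :=
  glue acc41 runs6.2.2.2.1 (by norm_num) _ (by norm_num) (by norm_num)

lemma acc43 : ∑ j ∈ Ico 4096 335872, numT 1 (1 : ℕ) (2 * j + 1) ≤ 26040 / 1000000 :=
  glue acc42 runs6.2.2.2.2.1 (by norm_num) _ (by norm_num) (by norm_num)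

lemma acc44 : ∑ j ∈ Ico 4096 344064, numT 1 (1 : ℕ) (2 * j + 1) ≤ 26364 / 1000000 :=
  glue acc43 runs6.2.2.2.2.2.1 (by norm_num) _ (by norm_num) (by norm_num)

lemma acc45 : ∑ j ∈ Ico 4096 352256, numT 1 (1 : ℕ) (2 * j + 1) ≤ 26683 / 1000000 :=
  glue acc44 runs6.2.2.2.2.2.2 (by norm_num) _ (by norm_num) (by norm_num)

lemma acc46 : ∑ j ∈ Ico 4096 360448, numT 1 (1 : ℕ) (2 * j + 1) ≤ 26999 / 1000000 :=
  glue acc45 runs7.1 (by norm_num) _ (by norm_num) (by norm_num)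

lemma acc47 : ∑ j ∈ Ico 4096 368640, numT 1 (1 : ℕ) (2 * j + 1) ≤ 27312 / 1000000 :=
  glue acc46 runs7.2.1 (by norm_num) _ (by norm_num) (by norm_num)

lemma acc48 : ∑ j ∈ Ico 4096 376832, numT 1 (1 : ℕ) (2 * j + 1) ≤ 27620 / 1000000 :=
  glue acc47 runs7.2.2.1 (by norm_num) _ (by norm_num) (by norm_num)

lemma acc49 : ∑ j ∈ Ico 4096 385024, numT 1 (1 : ℕ) (2 * j + 1) ≤ 27926 / 1000000 :=
  glue acc48 runs7.2.2.2.1 (by norm_num) _ (by norm_num) (by norm_num)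

lemma acc50 : ∑ j ∈ Ico 4096 393216, numT 1 (1 : ℕ) (2 * j + 1) ≤ 28228 / 1000000 :=
  glue acc49 runs7.2.2.2.2.1 (by norm_num) _ (by norm_num) (by norm_num)

lemma acc51 : ∑ j ∈ Ico 4096 401408, numT 1 (1 : ℕ) (2 * j + 1) ≤ 28526 / 1000000 :=
  glue acc50 runs7.2.2.2.2.2.1 (by norm_num) _ (by norm_num) (by norm_num)

lemma acc52 : ∑ j ∈ Ico 4096 409600, numT 1 (1 : ℕ) (2 * j + 1) ≤ 28820 / 1000000 :=
  glue acc51 runs7.2.2.2.2.2.2 (by norm_num) _ (by norm_num) (by norm_num)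

lemma acc53 : ∑ j ∈ Ico 4096 417792, numT 1 (1 : ℕ) (2 * j + 1) ≤ 29112 / 1000000 :=
  glue acc52 runs8.1 (by norm_num) _ (by norm_num) (by norm_num)

lemma acc54 : ∑ j ∈ Ico 4096 425984, numT 1 (1 : ℕ) (2 * j + 1) ≤ 29401 / 1000000 :=
  glue acc53 runs8.2.1 (by norm_num) _ (by norm_num) (by norm_num)

lemma acc55 : ∑ j ∈ Ico 4096 434176, numT 1 (1 : ℕ) (2 * j + 1) ≤ 29687 / 1000000 :=
  glue acc54 runs8.2.2.1 (by norm_num) _ (by norm_num) (by norm_num)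

lemma acc56 : ∑ j ∈ Ico 4096 442368, numT 1 (1 : ℕ) (2 * j + 1) ≤ 29970 / 1000000 :=
  glue acc55 runs8.2.2.2.1 (by norm_num) _ (by norm_num) (by norm_num)

lemma acc57 : ∑ j ∈ Ico 4096 450560, numT 1 (1 : ℕ) (2 * j + 1) ≤ 30250 / 1000000 :=
  glue acc56 runs8.2.2.2.2.1 (by norm_num) _ (by norm_num) (by norm_num)

lemma acc58 : ∑ j ∈ Ico 4096 458752, numT 1 (1 : ℕ) (2 * j + 1) ≤ 30527 / 1000000 :=
  glue acc57 runs8.2.2.2.2.2.1 (by norm_num) _ (by norm_num) (by norm_num)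

lemma acc59 : ∑ j ∈ Ico 4096 466944, numT 1 (1 : ℕ) (2 * j + 1) ≤ 30802 / 1000000 :=
  glue acc58 runs8.2.2.2.2.2.2 (by norm_num) _ (by norm_num) (by norm_num)

lemma acc60 : ∑ j ∈ Ico 4096 475136, numT 1 (1 : ℕ) (2 * j + 1) ≤ 31074 / 1000000 :=
  glue acc59 runs9.1 (by norm_num) _ (by norm_num) (by norm_num)

lemma acc61 : ∑ j ∈ Ico 4096 483328, numT 1 (1 : ℕ) (2 * j + 1) ≤ 31344 / 1000000 :=
  glue acc60 runs9.2.1 (by norm_num) _ (by norm_num) (by norm_num)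

lemma acc62 : ∑ j ∈ Ico 4096 491520, numT 1 (1 : ℕ) (2 * j + 1) ≤ 31610 / 1000000 :=
  glue acc61 runs9.2.2.1 (by norm_num) _ (by norm_num) (by norm_num)

lemma acc63 : ∑ j ∈ Ico 4096 499712, numT 1 (1 : ℕ) (2 * j + 1) ≤ 31875 / 1000000 :=
  glue acc62 runs9.2.2.2.1 (by norm_num) _ (by norm_num) (by norm_num)

lemma acc64 : ∑ j ∈ Ico 4096 507904, numT 1 (1 : ℕ) (2 * j + 1) ≤ 32138 / 1000000 :=
  glue acc63 runs9.2.2.2.2.1 (by norm_num) _ (by norm_num) (by norm_num)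

lemma acc65 : ∑ j ∈ Ico 4096 516096, numT 1 (1 : ℕ) (2 * j + 1) ≤ 32398 / 1000000 :=
  glue acc64 runs9.2.2.2.2.2.1 (by norm_num) _ (by norm_num) (by norm_num)

lemma acc66 : ∑ j ∈ Ico 4096 524288, numT 1 (1 : ℕ) (2 * j + 1) ≤ 32656 / 1000000 :=
  glue acc65 runs9.2.2.2.2.2.2 (by norm_num) _ (by norm_num) (by norm_num)

theorem numS_le : numS 1 ≤ -1.4 := by
  have h1 := acc2
  have h2 := acc66
  rw [Nat.cast_ofNat, ← range_eq_Ico] at h1
  rw [Nat.cast_one] at h2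
  rw [numS]
  linarith

end Pool.Agent.MP_5d10af_nt.Num

end

-- part MP_5d10af_nt.Sieve
section

/-!
Upper bounds for sums of the weight over intervals.
-/

set_option autoImplicit false

namespace Pool.Agent.MP_5d10af_nt

open Finset

/-- A homogeneous decreasing weight `w` with primitive `W`. -/
structure Wt (w W : ℝ → ℝ) : Prop where
  nonneg : ∀ t, 0 < t → 0 ≤ w t
  anti : ∀ s t, 0 < s → s ≤ t → w t ≤ w s
  lo : ∀ s t, 0 < s → s ≤ t → (t - s) * w t ≤ W t - W s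
  hi : ∀ s t, 0 < s → s ≤ t → W t - W s ≤ (t - s) * w s
  mul : ∀ s t, 0 < s → 0 < t → w (s * t) = w s * w t
  scale : ∀ d s t, 0 < d → 0 < s → 0 < t → W t - W s = d * w d * (W (t / d) - W (s / d))

lemma Wt.mono {w W : ℝ → ℝ} (h : Wt w W) {s t : ℝ} (hs : 0 < s) (hst : s ≤ t) : W s ≤ W t := by
  have h1 := h.lo s t hs hst
  have h2 := mul_nonneg (sub_nonneg.2 hst) (h.nonneg t (hs.trans_le hst))
  linarith

lemma wt_inv : Wt (fun t => 1 / t) Real.log where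
  nonneg t ht := by positivity
  anti s t hs hst := one_div_le_one_div_of_le hs hst
  lo s t hs hst := by
    have ht : 0 < t := hs.trans_le hst
    have h := Real.log_le_sub_one_of_pos (div_pos hs ht)
    rw [Real.log_div hs.ne' ht.ne'] at h
    have : (t - s) * (1 / t) = 1 - s / t := by field_simp
    linarith
  hi s t hs hst := by
    have ht : 0 < t := hs.trans_le hst
    have h := Real.log_le_sub_one_of_pos (div_pos ht hs)
    rw [Real.log_div ht.ne' hs.ne'] at h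
    have : (t - s) * (1 / s) = t / s - 1 := by field_simp
    linarith
  mul s t hs ht := by field_simp
  scale d s t hd hs ht := by
    rw [Real.log_div ht.ne' hd.ne', Real.log_div hs.ne' hd.ne']
    field_simp
    ring

lemma wt_sqrt : Wt (fun t => 1 / √t) (fun t => 2 * √t) where
  nonneg t ht := by positivity
  anti s t hs hst := one_div_le_one_div_of_le (Real.sqrt_pos.2 hs) (Real.sqrt_le_sqrt hst)
  lo s t hs hst := by
    have ht : 0 < t := hs.trans_le hst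
    have h1 := Real.sqrt_pos.2 ht
    have es := Real.mul_self_sqrt hs.le
    have et := Real.mul_self_sqrt ht.le
    rw [mul_one_div, div_le_iff₀ h1]
    nlinarith [sq_nonneg (√t - √s)]
  hi s t hs hst := by
    have ht : 0 < t := hs.trans_le hst
    have h1 := Real.sqrt_pos.2 hs
    have es := Real.mul_self_sqrt hs.le
    have et := Real.mul_self_sqrt ht.le
    rw [mul_one_div, le_div_iff₀ h1]
    nlinarith [sq_nonneg (√t - √s)]
  mul s t hs ht := by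
    rw [Real.sqrt_mul hs.le, one_div_mul_one_div]
  scale d s t hd hs ht := by
    rw [Real.sqrt_div ht.le, Real.sqrt_div hs.le]
    have h1 := Real.sqrt_pos.2 hd
    have ed := Real.mul_self_sqrt hd.le
    have : d * (1 / √d) = √d := by
      rw [mul_one_div, div_eq_iff h1.ne', ed]
    rw [this]
    field_simp

lemma wt_sq : Wt (fun t => 1 / t ^ 2) (fun t => -(1 / t)) where
  nonneg t ht := by positivity
  anti s t hs hst := one_div_le_one_div_of_le (by positivity) (by gcongr)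
  lo s t hs hst := by
    have ht : 0 < t := hs.trans_le hst
    have e : -(1 / t) - -(1 / s) = (t - s) * (1 / (s * t)) := by field_simp; ring
    rw [e]
    refine mul_le_mul_of_nonneg_left ?_ (sub_nonneg.2 hst)
    apply one_div_le_one_div_of_le (by positivity)
    nlinarith
  hi s t hs hst := by
    have ht : 0 < t := hs.trans_le hst
    have e : -(1 / t) - -(1 / s) = (t - s) * (1 / (s * t)) := by field_simp; ring
    rw [e]
    refine mul_le_mul_of_nonneg_left ?_ (sub_nonneg.2 hst)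
    apply one_div_le_one_div_of_le (by positivity)
    nlinarith
  mul s t hs ht := by field_simp
  scale d s t hd hs ht := by field_simp

/-- The odd numbers in a real interval. -/
noncomputable def oddIn (x y : ℝ) : Finset ℕ := (Ioc ⌊x⌋₊ ⌊y⌋₊).filter fun n => n % 2 = 1

lemma oddIn_pos {x y : ℝ} {n : ℕ} (h : n ∈ oddIn x y) : (0 : ℝ) < n := by
  have := (mem_filter.1 h).2
  exact_mod_cast (by omega : 0 < n)

lemma sum_oddIn_eq (x y : ℝ) (f : ℕ → ℝ) :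
    ∑ n ∈ oddIn x y, f n = ∑ k ∈ Ico ((⌊x⌋₊ + 1) / 2) ((⌊y⌋₊ + 1) / 2), f (2 * k + 1) := by
  have : oddIn x y = (Ico ((⌊x⌋₊ + 1) / 2) ((⌊y⌋₊ + 1) / 2)).image fun k => 2 * k + 1 := by
    ext n
    simp only [oddIn, mem_filter, mem_Ioc, mem_image, mem_Ico]
    constructor
    · rintro ⟨⟨h1, h2⟩, h3⟩
      exact ⟨n / 2, by omega, by omega⟩
    · rintro ⟨k, hk, rfl⟩
      omega
  rw [this, sum_image fun a _ b _ h => by simpa using h]

lemma Wt.base {w W : ℝ → ℝ} (h : Wt w W) {x y : ℝ} (hx : 0 < x) (hxy : x ≤ y) :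
    |∑ n ∈ oddIn x y, w n - (W y - W x) / 2| ≤ w x := by
  rw [sum_oddIn_eq]
  have hfl : ⌊x⌋₊ ≤ ⌊y⌋₊ := Nat.floor_le_floor hxy
  have hx1 := Nat.floor_le hx.le
  have hx2 := Nat.lt_floor_add_one x
  have hy1 := Nat.floor_le (hx.le.trans hxy)
  have hy2 := Nat.lt_floor_add_one y
  set k0 := (⌊x⌋₊ + 1) / 2 with hk0
  set K := (⌊y⌋₊ + 1) / 2 with hK
  have hkK : k0 ≤ K := by omega
  have a1 : (⌊x⌋₊ : ℝ) + 1 ≤ ((2 * k0 + 1 : ℕ) : ℝ) := by exact_mod_cast (by omega)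
  have a2 : ((2 * k0 + 1 : ℕ) : ℝ) ≤ (⌊x⌋₊ : ℝ) + 2 := by exact_mod_cast (by omega)
  have a3 : (⌊y⌋₊ : ℝ) + 1 ≤ ((2 * K + 1 : ℕ) : ℝ) := by exact_mod_cast (by omega)
  have hw := h.nonneg x hx
  have hstep : ∀ k : ℕ, ((2 * (k + 1) + 1 : ℕ) : ℝ) - ((2 * k + 1 : ℕ) : ℝ) = 2 := fun k => by
    push_cast; ring
  have hle : ∀ k : ℕ, ((2 * k + 1 : ℕ) : ℝ) ≤ ((2 * (k + 1) + 1 : ℕ) : ℝ) := fun k => by
    have := hstep k; linarith
  have hpos : ∀ k : ℕ, (0 : ℝ) < ((2 * k + 1 : ℕ) : ℝ) := fun k => by positivity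
  rw [abs_le]
  constructor
  · have h1 : ∑ k ∈ Ico k0 K, (W ((2 * (k + 1) + 1 : ℕ) : ℝ) / 2 - W ((2 * k + 1 : ℕ) : ℝ) / 2) ≤
        ∑ k ∈ Ico k0 K, w ((2 * k + 1 : ℕ) : ℝ) := by
      refine sum_le_sum fun k _ => ?_
      have := h.hi _ _ (hpos k) (hle k)
      rw [hstep] at this
      linarith
    rw [sum_Ico_sub (fun k => W ((2 * k + 1 : ℕ) : ℝ) / 2) hkK] at h1
    have h2 : W y ≤ W ((2 * K + 1 : ℕ) : ℝ) := h.mono (hx.trans_le hxy) (by linarith)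
    have h3 := h.hi x ((2 * k0 + 1 : ℕ) : ℝ) hx (by linarith)
    have h4 : (((2 * k0 + 1 : ℕ) : ℝ) - x) * w x ≤ 2 * w x :=
      mul_le_mul_of_nonneg_right (by linarith) hw
    linarith
  · have hWxy := h.mono hx hxy
    rcases hkK.eq_or_lt with he | hlt
    · rw [he, Ico_self, sum_empty]; linarith
    · have key : ∀ L, k0 ≤ L → ∑ k ∈ Ico k0 (L + 1), w ((2 * k + 1 : ℕ) : ℝ) ≤
          w ((2 * k0 + 1 : ℕ) : ℝ) +
            (W ((2 * L + 1 : ℕ) : ℝ) - W ((2 * k0 + 1 : ℕ) : ℝ)) / 2 := by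
        intro L hL
        induction L, hL using Nat.le_induction with
        | base => simp
        | succ L hL ih =>
          rw [sum_Ico_succ_top (by omega)]
          have := h.lo _ _ (hpos L) (hle L)
          rw [hstep] at this
          linarith
      have h1 := key (K - 1) (by omega)
      rw [show K - 1 + 1 = K by omega] at h1
      have a4 : ((2 * (K - 1) + 1 : ℕ) : ℝ) ≤ (⌊y⌋₊ : ℝ) := by exact_mod_cast (by omega)
      have h2 : W ((2 * (K - 1) + 1 : ℕ) : ℝ) ≤ W y := h.mono (hpos _) (by linarith)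
      have h3 : W x ≤ W ((2 * k0 + 1 : ℕ) : ℝ) := h.mono hx (by linarith)
      have h4 := h.anti x ((2 * k0 + 1 : ℕ) : ℝ) hx (by linarith)
      linarith

lemma sum_oddIn_dvd {d : ℕ} (hd : d % 2 = 1) (x y : ℝ) (f : ℕ → ℝ) :
    ∑ n ∈ oddIn x y, (if d ∣ n then f n else 0) = ∑ m ∈ oddIn (x / d) (y / d), f (d * m) := by
  have hd0 : 0 < d := by omega
  rw [← sum_filter]
  have : (oddIn x y).filter (fun n => d ∣ n) = (oddIn (x / d) (y / d)).image fun m => d * m := by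
    ext n
    simp only [oddIn, mem_filter, mem_Ioc, mem_image, Nat.floor_div_natCast]
    constructor
    · rintro ⟨⟨⟨h1, h2⟩, h3⟩, m, rfl⟩
      refine ⟨m, ⟨⟨?_, ?_⟩, ?_⟩, rfl⟩
      · rw [Nat.div_lt_iff_lt_mul hd0, mul_comm]; exact h1
      · rw [Nat.le_div_iff_mul_le hd0, mul_comm]; exact h2
      · exact Nat.odd_iff.1 (Nat.odd_mul.1 (Nat.odd_iff.2 h3)).2
    · rintro ⟨m, ⟨⟨h1, h2⟩, h3⟩, rfl⟩
      rw [Nat.div_lt_iff_lt_mul hd0, mul_comm] at h1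
      rw [Nat.le_div_iff_mul_le hd0, mul_comm] at h2
      exact ⟨⟨⟨h1, h2⟩, Nat.odd_iff.1 ((Nat.odd_iff.2 hd).mul (Nat.odd_iff.2 h3))⟩,
        dvd_mul_right _ _⟩
  rw [this, sum_image fun a _ b _ h => Nat.eq_of_mul_eq_mul_left hd0 h]

/-- The sieve weight. -/
noncomputable def FZ (Z : Finset ℕ) (v : ℕ → ℝ) (n : ℕ) : ℝ :=
  ∏ p ∈ Z, if p ^ 2 ∣ n then 0 else if p ∣ n then v p else 1

/-- The mean value of the sieve weight. -/
noncomputable def rho (Z : Finset ℕ) (v : ℕ → ℝ) : ℝ :=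
  ∏ p ∈ Z, (1 - (1 - v p) / p - v p / (p : ℝ) ^ 2)

lemma FZ_mul {Z : Finset ℕ} (v : ℕ → ℝ) {d : ℕ} (hd : ∀ p ∈ Z, Nat.Coprime p d) (m : ℕ) :
    FZ Z v (d * m) = FZ Z v m := by
  refine prod_congr rfl fun p hp => ?_
  have h1 : p ∣ d * m ↔ p ∣ m := (hd p hp).dvd_mul_left
  have h2 : p ^ 2 ∣ d * m ↔ p ^ 2 ∣ m := ((hd p hp).pow_left 2).dvd_mul_left
  simp only [h1, h2]

lemma FZ_nonneg {Z : Finset ℕ} {v : ℕ → ℝ} (hv : ∀ p, 0 ≤ v p) (n : ℕ) : 0 ≤ FZ Z v n := by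
  refine prod_nonneg fun p _ => ?_
  split_ifs
  · exact le_rfl
  · exact hv p
  · exact zero_le_one

lemma Wt.sieve {w W : ℝ → ℝ} (h : Wt w W) {v : ℕ → ℝ} (hv0 : ∀ p, 0 ≤ v p) (hv1 : ∀ p, v p ≤ 1)
    (Z : Finset ℕ) (hZ : ∀ p ∈ Z, p.Prime ∧ p ≠ 2) :
    ∀ x y : ℝ, 0 < x → x ≤ y →
      |∑ n ∈ oddIn x y, FZ Z v n * w n - rho Z v * (W y - W x) / 2| ≤ 2 ^ Z.card * w x := by
  induction Z using Finset.induction_on with
  | empty =>
    intro x y hx hxy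
    simpa [FZ, rho] using h.base hx hxy
  | insert q Z hq ih =>
    intro x y hx hxy
    have ih' := ih fun p hp => hZ p (mem_insert_of_mem hp)
    obtain ⟨hqp, hq2⟩ := hZ q (mem_insert_self _ _)
    have hy : 0 < y := hx.trans_le hxy
    have hcop : ∀ p ∈ Z, Nat.Coprime p q := fun p hp =>
      (Nat.coprime_primes (hZ p (mem_insert_of_mem hp)).1 hqp).2 (by rintro rfl; exact hq hp)
    -- the sum over multiples of an odd number coprime to `Z`
    have mult : ∀ d : ℕ, d % 2 = 1 → (∀ p ∈ Z, Nat.Coprime p d) →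
        |∑ n ∈ oddIn x y, (if d ∣ n then FZ Z v n * w n else 0) -
          rho Z v * (W y - W x) / 2 / d| ≤ 2 ^ Z.card * w x := by
      intro d hd hdc
      have hd0 : (0 : ℝ) < d := by exact_mod_cast (by omega : 0 < d)
      have hwd := h.nonneg d hd0
      rw [sum_oddIn_dvd hd]
      have e1 : ∑ m ∈ oddIn (x / d) (y / d), FZ Z v (d * m) * w ((d * m : ℕ) : ℝ) =
          w d * ∑ m ∈ oddIn (x / d) (y / d), FZ Z v m * w m := by
        rw [mul_sum]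
        refine sum_congr rfl fun m hm => ?_
        rw [FZ_mul v hdc, Nat.cast_mul, h.mul _ _ hd0 (oddIn_pos hm)]; ring
      have e2 : rho Z v * (W y - W x) / 2 / d =
          w d * (rho Z v * (W (y / d) - W (x / d)) / 2) := by
        rw [h.scale d x y hd0 hx hy]; field_simp
      have e3 : w x = w d * w (x / d) := by
        rw [← h.mul _ _ hd0 (div_pos hx hd0)]; congr 1; field_simp
      rw [e1, e2, ← mul_sub, abs_mul, abs_of_nonneg hwd, e3, mul_left_comm]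
      exact mul_le_mul_of_nonneg_left
        (ih' _ _ (div_pos hx hd0) (div_le_div_of_nonneg_right hxy hd0.le)) hwd
    have hqo : q % 2 = 1 := Nat.odd_iff.1 (hqp.odd_of_ne_two hq2)
    have m0 := ih' x y hx hxy
    have m1 := mult q hqo hcop
    have m2 := mult (q ^ 2) (Nat.odd_iff.1 (Nat.odd_iff.2 hqo).pow)
      fun p hp => (hcop p hp).pow_right 2
    have e1 : ∑ n ∈ oddIn x y, FZ (insert q Z) v n * w n =
        ∑ n ∈ oddIn x y, FZ Z v n * w n -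
          (1 - v q) * ∑ n ∈ oddIn x y, (if q ∣ n then FZ Z v n * w n else 0) -
          v q * ∑ n ∈ oddIn x y, (if q ^ 2 ∣ n then FZ Z v n * w n else 0) := by
      rw [mul_sum, mul_sum, ← sum_sub_distrib, ← sum_sub_distrib]
      refine sum_congr rfl fun n _ => ?_
      rw [FZ, prod_insert hq, ← FZ]
      by_cases h2 : q ^ 2 ∣ n
      · have h1 : q ∣ n := (dvd_pow_self q two_ne_zero).trans h2
        simp only [h1, h2, if_true]; ring
      · by_cases h1 : q ∣ n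
        · simp only [h1, h2, if_true, if_false]; ring
        · simp only [h1, h2, if_false]; ring
    have e2 : rho (insert q Z) v * (W y - W x) / 2 =
        rho Z v * (W y - W x) / 2 - (1 - v q) * (rho Z v * (W y - W x) / 2 / q) -
          v q * (rho Z v * (W y - W x) / 2 / ((q ^ 2 : ℕ) : ℝ)) := by
      rw [rho, prod_insert hq, ← rho]; push_cast; ring
    rw [e1, e2, card_insert_of_notMem hq, pow_succ (2 : ℝ)]
    have a0 := hv0 q
    have a1 := sub_nonneg.2 (hv1 q)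
    rw [abs_le] at m0 m1 m2 ⊢
    have b1 := mul_le_mul_of_nonneg_left m1.1 a1
    have b2 := mul_le_mul_of_nonneg_left m1.2 a1
    have b3 := mul_le_mul_of_nonneg_left m2.1 a0
    have b4 := mul_le_mul_of_nonneg_left m2.2 a0
    constructor <;> linarith [m0.1, m0.2]

lemma prod_le_FZ {u : ℕ → ℝ} {c : ℝ} (hu0 : ∀ p, 0 ≤ u p) (huc : ∀ p, u p ≤ c) (hc : c ≤ 1)
    {Z : Finset ℕ} (hZ : ∀ p ∈ Z, p.Prime) {e : ℕ} (he : Squarefree e) (hlt : ∏ p ∈ Z, p < e) :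
    ∏ p ∈ e.primeFactors, u p ≤ c * FZ Z u e := by
  obtain ⟨q, hq, hqZ⟩ : ∃ q ∈ e.primeFactors, q ∉ Z := by
    by_contra hcon
    push Not at hcon
    have h1 : ∏ p ∈ e.primeFactors, p ≤ ∏ p ∈ Z, p :=
      prod_le_prod_of_subset_of_one_le' hcon fun p hp _ => (hZ p hp).one_le
    rw [Nat.prod_primeFactors_of_squarefree he] at h1
    omega
  have e1 : FZ Z u e = ∏ p ∈ e.primeFactors.filter (· ∈ Z), u p := by
    have : e.primeFactors.filter (· ∈ Z) = Z.filter (· ∣ e) := by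
      ext p
      simp only [mem_filter, Nat.mem_primeFactors]
      exact ⟨fun h => ⟨h.2, h.1.2.1⟩, fun h => ⟨⟨hZ p h.1, h.2, he.ne_zero⟩, h.1⟩⟩
    rw [this, prod_filter]
    refine prod_congr rfl fun p hp => ?_
    rw [if_neg]
    rw [pow_two]
    exact Nat.squarefree_iff_prime_squarefree.1 he p (hZ p hp)
  rw [e1, ← prod_filter_mul_prod_filter_not e.primeFactors (· ∈ Z), mul_comm c]
  refine mul_le_mul_of_nonneg_left ?_ (prod_nonneg fun p _ => hu0 p)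
  have hq' : q ∈ e.primeFactors.filter (fun p => ¬ p ∈ Z) := mem_filter.2 ⟨hq, hqZ⟩
  rw [← mul_prod_erase _ _ hq']
  have h1 : ∏ p ∈ (e.primeFactors.filter (fun p => ¬ p ∈ Z)).erase q, u p ≤ 1 :=
    prod_le_one (fun p _ => hu0 p) fun p _ => (huc p).trans hc
  exact (mul_le_of_le_one_right (hu0 q) h1).trans (huc q)

/-- The local factor. -/
noncomputable def vv (p : ℕ) : ℝ := p / (2 * p + 1)

lemma vv_nonneg (p : ℕ) : 0 ≤ vv p := by unfold vv; positivity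

lemma vv_le (p : ℕ) : vv p ≤ 1 / 2 := by
  unfold vv
  rw [div_le_iff₀ (by positivity)]
  linarith

lemma mul_gw {e : ℕ} (he : Squarefree e) : e * gw 1 e = ∏ p ∈ e.primeFactors, vv p := by
  rw [cast_eq_prod he, gw, ← prod_mul_distrib]
  refine prod_congr rfl fun p _ => ?_
  rw [vv, Real.rpow_one, mul_one_div]

lemma Wt.sum_le {w W : ℝ → ℝ} (h : Wt w W) {u : ℕ → ℝ} {c : ℝ} (hu0 : ∀ p, 0 ≤ u p)
    (huc : ∀ p, u p ≤ c) (hc : c ≤ 1) (Z : Finset ℕ) (hZ : ∀ p ∈ Z, p.Prime ∧ p ≠ 2)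
    {x y : ℕ} (hx : ∏ p ∈ Z, p ≤ x) (hxy : x ≤ y) (T : Finset ℕ)
    (hT : ∀ e ∈ T, Squarefree e ∧ e % 2 = 1 ∧ x < e ∧ e ≤ y) :
    ∑ e ∈ T, (∏ p ∈ e.primeFactors, u p) * w e ≤
      c * (rho Z u * (W y - W x) / 2 + 2 ^ Z.card * w x) := by
  have hc0 : 0 ≤ c := (hu0 0).trans (huc 0)
  have hx0 : (0 : ℝ) < x := by
    have : 0 < ∏ p ∈ Z, p := prod_pos fun p hp => (hZ p hp).1.pos
    exact_mod_cast (by omega : 0 < x)
  have h1 := (abs_le.1 (h.sieve hu0 (fun p => (huc p).trans hc) Z hZ x y hx0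
    (by exact_mod_cast hxy))).2
  have hsub : T ⊆ oddIn x y := fun e he => by
    obtain ⟨-, a, b, c⟩ := hT e he
    simp only [oddIn, Nat.floor_natCast, mem_filter, mem_Ioc]
    exact ⟨⟨b, c⟩, a⟩
  calc ∑ e ∈ T, (∏ p ∈ e.primeFactors, u p) * w e ≤ ∑ e ∈ T, c * (FZ Z u e * w e) := by
        refine sum_le_sum fun e he => ?_
        rw [← mul_assoc]
        refine mul_le_mul_of_nonneg_right ?_ (h.nonneg _ (oddIn_pos (hsub he)))
        have := hT e he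
        exact prod_le_FZ hu0 huc hc (fun p hp => (hZ p hp).1) this.1 (by omega)
    _ = c * ∑ e ∈ T, FZ Z u e * w e := by rw [mul_sum]
    _ ≤ c * ∑ e ∈ oddIn x y, FZ Z u e * w e := by
        refine mul_le_mul_of_nonneg_left
          (sum_le_sum_of_subset_of_nonneg hsub fun n hn _ => ?_) hc0
        exact mul_nonneg (FZ_nonneg hu0 n) (h.nonneg _ (oddIn_pos hn))
    _ ≤ _ := mul_le_mul_of_nonneg_left (by linarith) hc0

lemma sieve_gen (Z : Finset ℕ) (hZ : ∀ p ∈ Z, p.Prime ∧ p ≠ 2)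
    {x y : ℕ} (hx : ∏ p ∈ Z, p ≤ x) (hxy : x ≤ y) (T : Finset ℕ)
    (hT : ∀ e ∈ T, Squarefree e ∧ e % 2 = 1 ∧ x < e ∧ e ≤ y) {r1 r2 r3 C : ℝ}
    (h1 : rho Z vv / 4 ≤ r1) (h2 : rho Z vv / 2 ≤ r2) (h3 : rho Z (fun p => vv p ^ 2) / 8 ≤ r3)
    (hC : (2 : ℝ) ^ Z.card = C) :
    ∑ e ∈ T, gw 1 e ≤ r1 * Real.log ((y : ℝ) / x) + C / 2 / x ∧
    ∑ e ∈ T, gw 1 e * √(e : ℝ) ≤ r2 * (√(y : ℝ) - √(x : ℝ)) + C / 2 / √(x : ℝ) ∧
    ∑ e ∈ T, gw 1 e ^ 2 ≤ r3 * (1 / (x : ℝ) - 1 / y) + C / 4 / (x : ℝ) ^ 2 := by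
  have hx0 : (0 : ℝ) < x := by
    have : 0 < ∏ p ∈ Z, p := prod_pos fun p hp => (hZ p hp).1.pos
    exact_mod_cast (by omega : 0 < x)
  have hxy' : (x : ℝ) ≤ y := by exact_mod_cast hxy
  have hy0 : (0 : ℝ) < y := hx0.trans_le hxy'
  have hpos : ∀ e ∈ T, (0 : ℝ) < e := fun e he => by
    have := hT e he
    exact_mod_cast (by omega : 0 < e)
  refine ⟨?_, ?_, ?_⟩
  · have h := wt_inv.sum_le vv_nonneg vv_le (by norm_num) Z hZ hx hxy T hT
    rw [sum_congr rfl (g := fun e => gw 1 e) fun e he => by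
      have := hpos e he
      rw [← mul_gw (hT e he).1]; field_simp, hC] at h
    rw [Real.log_div hy0.ne' hx0.ne']
    have h4 := mul_le_mul_of_nonneg_right h1 (sub_nonneg.2 (Real.log_le_log hx0 hxy'))
    refine h.trans (le_of_le_of_eq (b := r1 * (Real.log y - Real.log x) + 1 / 2 * (C * (1 / x)))
      (by linarith) (by ring))
  · have h := wt_sqrt.sum_le vv_nonneg vv_le (by norm_num) Z hZ hx hxy T hT
    rw [sum_congr rfl (g := fun e => gw 1 e * √(e : ℝ)) fun e he => by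
      have h0 := hpos e he
      have h5 := Real.sqrt_pos.2 h0
      have h6 := Real.mul_self_sqrt h0.le
      rw [← mul_gw (hT e he).1, mul_one_div, div_eq_iff h5.ne', mul_assoc, h6, mul_comm], hC] at h
    have h4 := mul_le_mul_of_nonneg_right h2 (sub_nonneg.2 (Real.sqrt_le_sqrt hxy'))
    refine h.trans (le_of_le_of_eq
      (b := r2 * (√(y : ℝ) - √(x : ℝ)) + 1 / 2 * (C * (1 / √(x : ℝ)))) (by linarith) (by ring))
  · have h := wt_sq.sum_le (u := fun p => vv p ^ 2) (c := 1 / 4) (fun p => by positivity)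
      (fun p => by have := vv_nonneg p; have := vv_le p; nlinarith) (by norm_num) Z hZ hx hxy T hT
    rw [sum_congr rfl (g := fun e => gw 1 e ^ 2) fun e he => by
      have := hpos e he
      rw [prod_pow, ← mul_gw (hT e he).1]; field_simp, hC] at h
    have h4 := mul_le_mul_of_nonneg_right h3 (sub_nonneg.2 (one_div_le_one_div_of_le hx0 hxy'))
    refine h.trans (le_of_le_of_eq
      (b := r3 * (1 / (x : ℝ) - 1 / y) + 1 / 4 * (C * (1 / (x : ℝ) ^ 2))) (by linarith) (by ring))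

theorem sieve11 {x y : ℕ} (hx : 1155 ≤ x) (hxy : x ≤ y) (T : Finset ℕ)
    (hT : ∀ e ∈ T, Squarefree e ∧ e % 2 = 1 ∧ x < e ∧ e ≤ y) :
    ∑ e ∈ T, gw 1 e ≤ 0.1442 * Real.log ((y : ℝ) / x) + 8 / x ∧
    ∑ e ∈ T, gw 1 e * √(e : ℝ) ≤ 0.2884 * (√(y : ℝ) - √(x : ℝ)) + 8 / √(x : ℝ) ∧
    ∑ e ∈ T, gw 1 e ^ 2 ≤ 0.0605 * (1 / (x : ℝ) - 1 / y) + 4 / (x : ℝ) ^ 2 := by
  have h := sieve_gen {3, 5, 7, 11} (by decide) (by simpa using hx) hxy T hT
    (r1 := 0.1442) (r2 := 0.2884) (r3 := 0.0605) (C := 16)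
    (by simp [rho, vv]; norm_num) (by simp [rho, vv]; norm_num) (by simp [rho, vv]; norm_num)
    (by simp; norm_num)
  norm_num at h ⊢
  exact h

theorem sieve17 {x y : ℕ} (hx : 255255 ≤ x) (hxy : x ≤ y) (T : Finset ℕ)
    (hT : ∀ e ∈ T, Squarefree e ∧ e % 2 = 1 ∧ x < e ∧ e ≤ y) :
    ∑ e ∈ T, gw 1 e ≤ 0.1337 * Real.log ((y : ℝ) / x) + 32 / x ∧
    ∑ e ∈ T, gw 1 e * √(e : ℝ) ≤ 0.2673 * (√(y : ℝ) - √(x : ℝ)) + 32 / √(x : ℝ) ∧
    ∑ e ∈ T, gw 1 e ^ 2 ≤ 0.0542 * (1 / (x : ℝ) - 1 / y) + 16 / (x : ℝ) ^ 2 := by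
  have h := sieve_gen {3, 5, 7, 11, 13, 17} (by decide) (by simpa using hx) hxy T hT
    (r1 := 0.1337) (r2 := 0.2673) (r3 := 0.0542) (C := 64)
    (by simp [rho, vv]; norm_num) (by simp [rho, vv]; norm_num) (by simp [rho, vv]; norm_num)
    (by simp; norm_num)
  norm_num at h ⊢
  exact h

lemma mass_le_quarter {x : ℕ} (hx : 1 ≤ x) (T : Finset ℕ)
    (hT : ∀ e ∈ T, Squarefree e ∧ e % 2 = 1 ∧ x < e ∧ e ≤ 2 * x) :
    ∑ e ∈ T, gw 1 e ≤ 1 / 4 := by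
  have hx0 : (0 : ℝ) < x := by exact_mod_cast hx
  have h1 : ∑ e ∈ T, gw 1 e ≤ ∑ _e ∈ T, 1 / (2 * (x : ℝ)) := by
    refine sum_le_sum fun e he => ?_
    obtain ⟨a, -, b, -⟩ := hT e he
    refine (gw_le_half le_rfl a (by omega)).trans ?_
    have : (x : ℝ) ≤ e := by exact_mod_cast b.le
    apply one_div_le_one_div_of_le (by positivity)
    linarith
  have h2 := sum_odd_tele (fun _ => 1 / (2 * (x : ℝ))) (fun k => k * (1 / (2 * (x : ℝ))))
    (k0 := (x + 1) / 2) (K := x) (by omega) (fun _ _ _ => by positivity)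
    (fun k _ _ => by push_cast; linarith) T (fun e he => by have := hT e he; omega)
  have h3 : (x : ℝ) ≤ 2 * (((x + 1) / 2 : ℕ) : ℝ) := by exact_mod_cast (by omega)
  have h4 : (x : ℝ) * (1 / (2 * (x : ℝ))) = 1 / 2 := by field_simp
  have h5 : 0 ≤ 1 / (2 * (x : ℝ)) := by positivity
  have h6 := mul_le_mul_of_nonneg_right h3 h5
  linarith

lemma sum_gw_log_step {J : ℕ} {B m : ℝ}
    (hB : ∀ T : Finset ℕ, (∀ e ∈ T, Squarefree e ∧ e % 2 = 1 ∧ e ≤ 2 ^ J) →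
      ∑ e ∈ T, gw 1 e * Real.log e ≤ Real.log 2 * B)
    (hm : ∀ T : Finset ℕ, (∀ e ∈ T, Squarefree e ∧ e % 2 = 1 ∧ 2 ^ J < e ∧ e ≤ 2 * 2 ^ J) →
      ∑ e ∈ T, gw 1 e ≤ m) (T : Finset ℕ)
    (hT : ∀ e ∈ T, Squarefree e ∧ e % 2 = 1 ∧ e ≤ 2 ^ (J + 1)) :
    ∑ e ∈ T, gw 1 e * Real.log e ≤ Real.log 2 * (B + (J + 1) * m) := by
  rw [← sum_filter_add_sum_filter_not T (fun e => e ≤ 2 ^ J)]
  have h1 := hB (T.filter fun e => e ≤ 2 ^ J) fun e he => by
    obtain ⟨a, b⟩ := mem_filter.1 he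
    exact ⟨(hT e a).1, (hT e a).2.1, b⟩
  have h2 := hm (T.filter fun e => ¬ e ≤ 2 ^ J) fun e he => by
    obtain ⟨a, b⟩ := mem_filter.1 he
    have := (hT e a).2.2
    exact ⟨(hT e a).1, (hT e a).2.1, by omega, by omega⟩
  have hl : 0 ≤ Real.log 2 * (J + 1) := mul_nonneg (Real.log_nonneg one_le_two) (by positivity)
  have h3 : ∑ e ∈ T.filter fun e => ¬ e ≤ 2 ^ J, gw 1 e * Real.log e ≤
      ∑ e ∈ T.filter fun e => ¬ e ≤ 2 ^ J, Real.log 2 * (J + 1) * gw 1 e := by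
    refine sum_le_sum fun e he => ?_
    obtain ⟨a, -⟩ := mem_filter.1 he
    obtain ⟨-, b, c⟩ := hT e a
    rw [mul_comm]
    refine mul_le_mul_of_nonneg_right ?_ (gw_pos 1 e).le
    have h4 : Real.log e ≤ Real.log ((2 : ℝ) ^ (J + 1)) :=
      Real.log_le_log (by exact_mod_cast (by omega : 0 < e)) (by exact_mod_cast c)
    rw [Real.log_pow] at h4
    push_cast at h4
    linarith
  rw [← mul_sum] at h3
  have h5 := mul_le_mul_of_nonneg_left h2 hl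
  linarith

lemma sum_gw_log_small (J : ℕ) (T : Finset ℕ)
    (hT : ∀ e ∈ T, Squarefree e ∧ e % 2 = 1 ∧ e ≤ 2 ^ J) :
    ∑ e ∈ T, gw 1 e * Real.log e ≤ Real.log 2 * (J * (J + 1) / 8) := by
  induction J generalizing T with
  | zero =>
    rw [sum_eq_zero fun e he => ?_]
    · simp
    · have := hT e he
      rw [show e = 1 by omega]; simp
  | succ J ih =>
    refine (sum_gw_log_step ih (fun T hT => mass_le_quarter Nat.one_le_two_pow T hT) T hT).trans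
      (le_of_eq ?_)
    push_cast; ring

lemma sum_gw_log_big {J : ℕ} (hJ : 11 ≤ J) (T : Finset ℕ)
    (hT : ∀ e ∈ T, Squarefree e ∧ e % 2 = 1 ∧ e ≤ 2 ^ J) :
    ∑ e ∈ T, gw 1 e * Real.log e ≤
      Real.log 2 * (10.1 + 0.05 * J * (J + 1) - 16 * (J + 2) / 2 ^ J) := by
  induction J, hJ using Nat.le_induction generalizing T with
  | base =>
    refine (sum_gw_log_small 11 T hT).trans
      (mul_le_mul_of_nonneg_left ?_ (Real.log_nonneg one_le_two))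
    norm_num
  | succ J hJ ih =>
    have hm : ∀ T : Finset ℕ,
        (∀ e ∈ T, Squarefree e ∧ e % 2 = 1 ∧ 2 ^ J < e ∧ e ≤ 2 * 2 ^ J) →
        ∑ e ∈ T, gw 1 e ≤ 0.1 + 8 / 2 ^ J := by
      intro T hT
      have h1 : 2 ^ 11 ≤ 2 ^ J := Nat.pow_le_pow_right (by norm_num) hJ
      have h2 := (sieve11 (x := 2 ^ J) (y := 2 * 2 ^ J) (by omega) (by omega) T hT).1
      push_cast at h2
      rw [mul_div_assoc, div_self (by positivity), mul_one] at h2
      have := Real.log_two_lt_d9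
      linarith
    refine (sum_gw_log_step ih hm T hT).trans (le_of_eq ?_)
    push_cast
    congr 1
    field_simp
    ring

theorem sum_gw_log {J : ℕ} (hJ : 11 ≤ J) (T : Finset ℕ)
    (hT : ∀ e ∈ T, Squarefree e ∧ e % 2 = 1 ∧ e ≤ 2 ^ J) :
    ∑ e ∈ T, gw 1 e * Real.log e ≤ Real.log 2 * (10.1 + 0.05 * J * (J + 1)) := by
  refine (sum_gw_log_big hJ T hT).trans
    (mul_le_mul_of_nonneg_left ?_ (Real.log_nonneg one_le_two))
  have : (0 : ℝ) ≤ 16 * (J + 2) / 2 ^ J := by positivity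
  linarith

end Pool.Agent.MP_5d10af_nt

end

-- part MP_5d10af_nt.WinSumA
section

/-!
The sum over the windows: the general frame.
-/

set_option autoImplicit false

namespace Pool.Agent.MP_5d10af_nt

open Finset

namespace WinS

/-- The bound for one window. -/
def WinOK (i : ℕ) (m c : ℝ) : Prop :=
  ∃ a : ℝ, 0 ≤ a ∧ ∃ Q : ℕ, ∀ σ η : ℝ, 1 < σ → 0 ≤ η → ∀ P N : ℕ, Q ≤ P → Good P N →
    (∀ χ : ℕ → ℝ, CM χ → |LN σ N χ - Lf σ χ| ≤ η) → winS σ N i ≤ m + a * η + c * (σ - 1)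

lemma Ew_cast (i : ℕ) : ((Ew i : ℕ) : ℝ) = ((2 : ℝ) ^ (10 + 2 * i)) ^ 2 := by
  unfold Ew; push_cast; rw [← pow_mul]; congr 1; ring

lemma Ew_succ (i : ℕ) : Ew (i + 1) = 16 * Ew i := by
  unfold Ew; rw [show 20 + 4 * (i + 1) = 4 + (20 + 4 * i) by ring, pow_add]; norm_num

lemma Ew_two (i : ℕ) : Ew i = 2 * 2 ^ (19 + 4 * i) := by
  unfold Ew; rw [show 20 + 4 * i = 1 + (19 + 4 * i) by ring, pow_add, pow_one]

lemma t_ge (i : ℕ) : (1024 : ℝ) ≤ 2 ^ (10 + 2 * i) := by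
  rw [pow_add]
  have : (1 : ℝ) ≤ 2 ^ (2 * i) := one_le_pow₀ (by norm_num)
  nlinarith

lemma sieve_win (i : ℕ) (T : Finset ℕ)
    (hT : ∀ e ∈ T, Squarefree e ∧ e % 2 = 1 ∧ Ew i < e ∧ e ≤ Ew (i + 1)) :
    ∑ e ∈ T, gw 1 e ≤ 0.3708 ∧ ∑ e ∈ T, gw 1 e * √(e : ℝ) ≤ 0.802 * 2 ^ (10 + 2 * i) ∧
      ∑ e ∈ T, gw 1 e ^ 2 ≤ 0.0509 / ((2 : ℝ) ^ (10 + 2 * i)) ^ 2 := by
  have hx : 255255 ≤ Ew i := by
    unfold Ew; rw [pow_add]
    have : 1 ≤ 2 ^ (4 * i) := Nat.one_le_two_pow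
    omega
  obtain ⟨h0, h1, h2⟩ := sieve17 hx (by rw [Ew_succ]; omega) T hT
  have e : ((Ew (i + 1) : ℕ) : ℝ) = (4 * (2 : ℝ) ^ (10 + 2 * i)) ^ 2 := by
    rw [Ew_succ]; push_cast; rw [Ew_cast]; ring
  rw [e, Ew_cast] at h0 h1 h2
  have ht := t_ge i
  generalize (2 : ℝ) ^ (10 + 2 * i) = t at *
  have ht0 : 0 < t := by linarith
  have ht2 : 1048576 ≤ t ^ 2 := by nlinarith
  refine ⟨?_, ?_, ?_⟩
  · have e1 : (4 * t) ^ 2 / t ^ 2 = 2 ^ 4 := by field_simp; norm_num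
    rw [e1, Real.log_pow] at h0
    have h3 := Real.log_two_lt_d9
    have h4 : 32 / t ^ 2 ≤ 32 / 1048576 := by gcongr
    push_cast at h0
    linarith
  · rw [Real.sqrt_sq (by positivity), Real.sqrt_sq ht0.le] at h1
    have h4 : 32 / t ≤ 0.0001 * t := by rw [div_le_iff₀ ht0]; nlinarith
    linarith
  · refine h2.trans ?_
    have h4 : 16 / (t ^ 2) ^ 2 ≤ 0.00008 / t ^ 2 := by
      rw [div_le_div_iff₀ (by positivity) (by positivity)]; nlinarith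
    have e1 : 0.0542 * (1 / t ^ 2 - 1 / (4 * t) ^ 2) = 0.0508125 / t ^ 2 := by
      field_simp; norm_num
    have h5 : 0.0508125 / t ^ 2 + 0.00008 / t ^ 2 ≤ 0.0509 / t ^ 2 := by
      rw [← add_div]; gcongr; norm_num
    linarith

lemma winI (i : ℕ) (Z : Finset ℕ) (hZ : ∀ p ∈ Z, p.Prime ∧ p ≠ 2) {X B k : ℕ} (hX : 32 ≤ X)
    (hB : 1 ≤ B) (hk : 1 ≤ k) {α α' β S nb sb ρ m c : ℝ}
    (hα : ∏ p ∈ Z, (1 + 1 / (2 * (p : ℝ) + 1)) ≤ α)
    (hα' : ∏ p ∈ Z, (1 + ((p : ℝ) + 2) / (p * (2 * p + 1))) ≤ α')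
    (hβ : ∏ p ∈ Z, (1 + ((p : ℝ) + 1) / (√(p : ℝ) * (2 * p + 1)) + 1 / (2 * p + 1)) ≤ β)
    (hS0 : 0 ≤ S)
    (hS : ∀ M : ℕ, ∑ j ∈ (Icc 2 M).filter (fun j => j % 2 = 1 ∧ ∀ p ∈ Z, ¬ p ∣ j),
      1 / (j : ℝ) ^ 2 ≤ S)
    (hnb : nbW S α' X (Ab ((i + 1) / 3)) ≤ nb) (hsb : sbW β X (Ab ((i + 1) / 3)) ≤ sb)
    (hρ : √((15 + (k : ℝ)) / k) ≤ ρ)
    (hm : 1.828 * (α / 2) * (1 / (2 * ((X : ℝ) - 1))) * (0.802 * 2 ^ (10 + 2 * i)) +
      7 / 4 * (α / 2) * (1 / (4 * X)) * 0.3708 +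
      √(0.0509 * ((15 + (k : ℝ)) / 2 * (2.28 * nb ^ 2) +
        ρ * (1.828 * sb) ^ 2 / ((2 : ℝ) ^ (10 + 2 * i)) ^ 2)) ≤ m)
    (hc : 7 / 4 * (α / 2) * (2 * (8 * 2 ^ (10 + 2 * i) / √((B : ℝ) * X) + B / X)) * 0.3708 ≤ c) :
    WinOK i m c := by
  have hα0 : 0 ≤ α := le_trans (Finset.prod_nonneg fun p _ => by positivity) hα
  have hα0' : 0 ≤ α' := le_trans (Finset.prod_nonneg fun p _ => by positivity) hα'
  have hβ0 : 0 ≤ β := le_trans (Finset.prod_nonneg fun p _ => by positivity) hβ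
  refine ⟨7 / 4 * (α / 2) * 0.3708, by positivity,
    4 * X * (∏ p ∈ Z, p) ^ 2 + Ab ((i + 1) / 3) + 1, fun σ η hσ hη P N hP hN hL => ?_⟩
  obtain ⟨n1, hn1⟩ : ∃ n1 : ℕ, n1 = 2 ^ (19 + 4 * i) := ⟨_, rfl⟩
  have hn1' : 1 ≤ n1 := hn1 ▸ Nat.one_le_two_pow
  have hE : Ew i = 2 * n1 := hn1 ▸ Ew_two i
  have hE' : Ew (i + 1) = 2 * (n1 + 15 * n1) := by rw [Ew_succ, hE]; ring
  obtain ⟨g0, g1, g2⟩ := sieve_win i
    (N.divisors.filter (fun e => Ew i < e ∧ e ≤ Ew (i + 1))) fun e he => by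
      obtain ⟨h1, h2⟩ := mem_filter.1 he
      have hd := Nat.dvd_of_mem_divisors h1
      exact ⟨hN.sqf.squarefree_of_dvd hd, Nat.odd_iff.1 (hN.odd.of_dvd_nat hd), h2⟩
  have h := win hσ hη hN hL Z hZ (X := X) (B := B) (A := Ab ((i + 1) / 3)) (At := k * n1)
    (n1 := n1) (L := 15 * n1) hX hB Nat.one_le_two_pow (Nat.mul_pos hk hn1') hn1' (by omega)
    (by omega) hα hα' hβ hS0 hS (N.divisors.filter (fun e => Ew i < e ∧ e ≤ Ew (i + 1)))
    (fun e he => by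
      obtain ⟨h1, h2⟩ := mem_filter.1 he
      exact ⟨Nat.dvd_of_mem_divisors h1, by omega, by omega⟩) g0 g1 g2
  refine le_trans h ?_
  have hn2 : 2 * (n1 : ℝ) = ((2 : ℝ) ^ (10 + 2 * i)) ^ 2 := by
    rw [← Ew_cast, hE]; push_cast; ring
  have ht := t_ge i
  generalize (2 : ℝ) ^ (10 + 2 * i) = t at *
  have ht0 : 0 < t := by linarith
  have hX' : (32 : ℝ) ≤ X := by exact_mod_cast hX
  have hk' : (1 : ℝ) ≤ k := by exact_mod_cast hk
  have hn0 : (0 : ℝ) < n1 := by exact_mod_cast hn1'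
  have hs : sg1 X ≤ 1 / (2 * ((X : ℝ) - 1)) := by
    unfold sg1
    have h1 : 1 / (X : ℝ) ≤ 1 / ((X : ℝ) - 1) :=
      one_div_le_one_div_of_le (by linarith) (by linarith)
    have h2 : 1 / (2 * ((X : ℝ) - 1)) = 1 / ((X : ℝ) - 1) / 2 := by
      rw [div_div, mul_comm]
    linarith
  have h1 : 1.828 * (α / 2) * sg1 X * (0.802 * t) ≤
      1.828 * (α / 2) * (1 / (2 * ((X : ℝ) - 1))) * (0.802 * t) := by gcongr
  have h2 : √((n1 : ℝ) + ((15 * n1 : ℕ) : ℝ)) ≤ 4 * t := by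
    refine Real.sqrt_le_iff.2 ⟨by positivity, ?_⟩
    push_cast; nlinarith
  have hσ0 : 0 ≤ σ - 1 := by linarith
  have h3 : 7 / 4 * (α / 2) * (2 * (2 * √((n1 : ℝ) + ((15 * n1 : ℕ) : ℝ)) / √((B : ℝ) * X) + B / X))
      * 0.3708 ≤ c := by
    refine le_trans ?_ hc
    have : 2 * √((n1 : ℝ) + ((15 * n1 : ℕ) : ℝ)) ≤ 8 * t := by linarith
    gcongr
  have h4 := mul_le_mul_of_nonneg_right h3 hσ0
  have hnb0 : 0 ≤ nbW S α' X (Ab ((i + 1) / 3)) := by unfold nbW; positivity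
  have hsb0 : 0 ≤ sbW β X (Ab ((i + 1) / 3)) := by unfold sbW; positivity
  have e1 : (((15 * n1 : ℕ) : ℝ) + ((k * n1 : ℕ) : ℝ)) / ((k * n1 : ℕ) : ℝ) = (15 + k) / k := by
    push_cast; field_simp
  have e2 : ((15 * n1 : ℕ) : ℝ) + ((k * n1 : ℕ) : ℝ) = (15 + k) / 2 * t ^ 2 := by
    rw [← hn2]; push_cast; ring
  have h5 : √(0.0509 / t ^ 2 * ((((15 * n1 : ℕ) : ℝ) + ((k * n1 : ℕ) : ℝ)) *
      (2.28 * nbW S α' X (Ab ((i + 1) / 3)) ^ 2) +
      √((((15 * n1 : ℕ) : ℝ) + ((k * n1 : ℕ) : ℝ)) / ((k * n1 : ℕ) : ℝ)) *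
        (1.828 * sbW β X (Ab ((i + 1) / 3))) ^ 2)) ≤
      √(0.0509 * ((15 + (k : ℝ)) / 2 * (2.28 * nb ^ 2) + ρ * (1.828 * sb) ^ 2 / t ^ 2)) := by
    refine Real.sqrt_le_sqrt ?_
    rw [e1, e2]
    have hρ0 : 0 ≤ ρ := le_trans (Real.sqrt_nonneg _) hρ
    calc _ ≤ 0.0509 / t ^ 2 * ((15 + (k : ℝ)) / 2 * t ^ 2 * (2.28 * nb ^ 2) +
          ρ * (1.828 * sb) ^ 2) := by gcongr
      _ = _ := by field_simp
  have e3 : ∀ u v w : ℝ, 7 / 4 * (α / 2) * (u + η + (σ - 1) * w) * v =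
      7 / 4 * (α / 2) * u * v + 7 / 4 * (α / 2) * v * η + 7 / 4 * (α / 2) * w * v * (σ - 1) :=
    fun u v w => by ring
  rw [e3]
  linarith

lemma inner_le {σ : ℝ} (hσ : 1 < σ) {N : ℕ} (hN : Squarefree N) (A e : ℕ) :
    ∑ a ∈ N.divisors.filter (fun a => A < a), gw σ a * Kf a e ≤ 7 / 4 * (1 + 1 / (σ - 1)) := by
  have h1 : ∑ a ∈ N.divisors.filter (fun a => A < a), gw σ a * Kf a e ≤
      ∑ a ∈ N.divisors.filter (fun a => A < a), 7 / 4 * (a : ℝ) ^ (-σ) := by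
    refine sum_le_sum fun a ha => ?_
    have hd := Nat.dvd_of_mem_divisors (mem_filter.1 ha).1
    have h2 := (gw_le_wt σ a).trans (wt_le_rpow σ (hN.squarefree_of_dvd hd))
    have h3 := (abs_le.1 (abs_Kf_le a e)).2
    have h4 := gw_pos σ a
    nlinarith
  have h2 : ∑ a ∈ N.divisors.filter (fun a => A < a), (a : ℝ) ^ (-σ) ≤
      ∑ a ∈ insert 1 (Ioc 1 N), (a : ℝ) ^ (-σ) := by
    refine sum_le_sum_of_subset_of_nonneg (fun a ha => ?_) fun _ _ _ => by positivity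
    have h3 := (mem_filter.1 ha).1
    have h4 := Nat.pos_of_mem_divisors h3
    have h5 := Nat.divisor_le h3
    simp only [mem_insert, mem_Ioc]; omega
  rw [sum_insert (by simp)] at h2
  have h3 := sum_rpow_tail hσ (M := 1) le_rfl N
  simp only [Nat.cast_one, Real.one_rpow] at h2 h3
  rw [← mul_sum] at h1
  linarith

lemma Ew_mono {i j : ℕ} (h : i ≤ j) : Ew i ≤ Ew j :=
  Nat.pow_le_pow_right (by norm_num) (by omega)

lemma tail {σ : ℝ} (hσ : 1 < σ) : ∃ I0 : ℕ, ∀ N : ℕ, Squarefree N → ∀ I : ℕ,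
    ∑ i ∈ Ico I0 I, winS σ N i ≤ 0.01 := by
  have hk : 0 < σ - 1 := by linarith
  obtain ⟨D, hD⟩ : ∃ D : ℝ, D = 7 / 4 * (1 + 1 / (σ - 1)) := ⟨_, rfl⟩
  have hD0 : 0 < D := by rw [hD]; positivity
  obtain ⟨M, hM1, hM⟩ : ∃ M : ℕ, 1 ≤ M ∧ (M : ℝ) ^ (1 - σ) ≤ 0.01 * (σ - 1) / D := by
    have h1 : Filter.Tendsto (fun M : ℕ => (M : ℝ) ^ (-(σ - 1))) Filter.atTop (nhds 0) :=
      (tendsto_rpow_neg_atTop hk).comp tendsto_natCast_atTop_atTop
    have h2 := (h1.eventually (ge_mem_nhds (by positivity : 0 < 0.01 * (σ - 1) / D))).and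
      (Filter.eventually_ge_atTop 1)
    obtain ⟨M, h3, h4⟩ := h2.exists
    exact ⟨M, h4, by rwa [neg_sub] at h3⟩
  refine ⟨M, fun N hN I => ?_⟩
  have hw : ∀ i, winS σ N i ≤ D * ∑ e ∈ Ioc (Ew i) (Ew (i + 1)), (e : ℝ) ^ (-σ) := by
    intro i
    unfold winS
    calc _ ≤ ∑ e ∈ N.divisors.filter (fun e => Ew i < e ∧ e ≤ Ew (i + 1)), D * (e : ℝ) ^ (-σ) := by
          refine sum_le_sum fun e he => ?_
          have hd := Nat.dvd_of_mem_divisors (mem_filter.1 he).1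
          have h2 := (gw_le_wt σ e).trans (wt_le_rpow σ (hN.squarefree_of_dvd hd))
          have h3 := inner_le hσ hN (Ab ((i + 1) / 3)) e
          rw [← hD] at h3
          have h4 := gw_pos σ e
          nlinarith
      _ ≤ ∑ e ∈ Ioc (Ew i) (Ew (i + 1)), D * (e : ℝ) ^ (-σ) :=
          sum_le_sum_of_subset_of_nonneg (fun e he => mem_Ioc.2 (mem_filter.1 he).2)
            fun _ _ _ => by positivity
      _ = _ := by rw [mul_sum]
  rcases le_total I M with hI | hI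
  · rw [Ico_eq_empty (by omega)]; norm_num
  have key : ∀ I, M ≤ I → ∑ i ∈ Ico M I, winS σ N i ≤
      D * ∑ e ∈ Ioc (Ew M) (Ew I), (e : ℝ) ^ (-σ) := by
    intro I hI
    induction I, hI using Nat.le_induction with
    | base => simp
    | succ I hI ih =>
      rw [sum_Ico_succ_top hI, ← sum_Ioc_consecutive _ (Ew_mono hI) (Ew_mono (Nat.le_succ I)),
        mul_add]
      linarith [hw I]
  refine (key I hI).trans ?_
  have hME : M ≤ Ew M := by
    unfold Ew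
    exact le_trans (by omega) (Nat.lt_two_pow_self (n := 20 + 4 * M)).le
  have h1 := sum_rpow_tail hσ (M := Ew M) (by omega) (Ew I)
  have h2 : ((Ew M : ℕ) : ℝ) ^ (1 - σ) ≤ (M : ℝ) ^ (1 - σ) :=
    Real.rpow_le_rpow_of_nonpos (by exact_mod_cast hM1) (by exact_mod_cast hME) (by linarith)
  have h3 : ((Ew M : ℕ) : ℝ) ^ (1 - σ) / (σ - 1) ≤ 0.01 / D := by
    rw [div_le_iff₀ hk]
    calc _ ≤ 0.01 * (σ - 1) / D := h2.trans hM
      _ = _ := by ring
  calc _ ≤ D * (0.01 / D) := mul_le_mul_of_nonneg_left (h1.trans h3) hD0.le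
    _ = 0.01 := by field_simp

lemma assemble (m c : ℕ → ℝ) (h : ∀ i, WinOK i (m i) (c i)) {C : ℝ} (hC : 0 < C)
    (hm : ∀ I, ∑ i ∈ range I, m i ≤ 0.82) (hc : ∀ I, ∑ i ∈ range I, c i ≤ C) :
    Ev fun σ N => ∀ I : ℕ, ∑ i ∈ range I, winS σ N i ≤ 0.85 := by
  choose a ha Q hQ using h
  refine ⟨1 + 0.01 / C, by have : 0 < 0.01 / C := by positivity
                           linarith, fun σ hσ hσ' => ?_⟩
  obtain ⟨I0, hI0⟩ := tail hσ
  obtain ⟨T, hT⟩ : ∃ T : ℝ, T = ∑ i ∈ range I0, a i + 1 := ⟨_, rfl⟩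
  have hT0 : 0 < T := by
    have := sum_nonneg fun i (_ : i ∈ range I0) => ha i
    linarith
  obtain ⟨P0, hP0⟩ := LN_approx hσ (η := 0.01 / T) (by positivity)
  refine ⟨P0 + ∑ i ∈ range I0, Q i, fun P N hP hN I => ?_⟩
  have key : ∀ J, J ≤ I0 → ∑ i ∈ range J, winS σ N i ≤ 0.84 := by
    intro J hJ
    have h1 : ∑ i ∈ range J, winS σ N i ≤
        ∑ i ∈ range J, (m i + a i * (0.01 / T) + c i * (σ - 1)) := by
      refine sum_le_sum fun i hi => hQ i σ _ hσ (by positivity) P N ?_ hN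
        (hP0 P N (by omega) hN σ le_rfl)
      have := single_le_sum (f := Q) (fun _ _ => Nat.zero_le _)
        (mem_range.2 (lt_of_lt_of_le (mem_range.1 hi) hJ))
      omega
    rw [sum_add_distrib, sum_add_distrib, ← sum_mul, ← sum_mul] at h1
    have h2 : ∑ i ∈ range J, a i ≤ T := by
      have := sum_le_sum_of_subset_of_nonneg (range_mono hJ) fun i _ _ => ha i
      linarith
    have h3 : (∑ i ∈ range J, a i) * (0.01 / T) ≤ 0.01 :=
      calc _ ≤ T * (0.01 / T) := mul_le_mul_of_nonneg_right h2 (by positivity)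
        _ = 0.01 := by field_simp
    have h4 : (∑ i ∈ range J, c i) * (σ - 1) ≤ 0.01 :=
      calc _ ≤ C * (σ - 1) := mul_le_mul_of_nonneg_right (hc J) (by linarith)
        _ ≤ C * (0.01 / C) := mul_le_mul_of_nonneg_left (by linarith) hC.le
        _ = 0.01 := by field_simp
    linarith [hm J]
  rcases le_total I I0 with hI | hI
  · linarith [key I hI]
  · rw [← sum_range_add_sum_Ico _ hI]
    linarith [key I0 le_rfl, hI0 N hN.sqf I]

end WinS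

end Pool.Agent.MP_5d10af_nt

end

-- part MP_5d10af_nt.WinSumN
section

/-!
The sum over the windows: the first eight windows.
-/

set_option autoImplicit false

namespace Pool.Agent.MP_5d10af_nt

open Finset

namespace WinS

/-- Lower approximations of square roots. -/
noncomputable def rt (p : ℕ) : ℝ :=
  if p = 3 then 1.732 else if p = 5 then 2.236 else if p = 7 then 2.645 else if p = 11 then 3.316
  else if p = 13 then 3.605 else if p = 17 then 4.123 else if p = 19 then 4.358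
  else if p = 23 then 4.795 else if p = 29 then 5.385 else if p = 31 then 5.567 else 1

lemma rt_pos (p : ℕ) : 0 < rt p := by
  unfold rt; split_ifs <;> norm_num

lemma rt_le {p : ℕ} (hp : 1 ≤ p) : rt p ≤ √(p : ℝ) := by
  refine Real.le_sqrt_of_sq_le ?_
  unfold rt
  split_ifs
  all_goals first
    | (subst_vars; norm_num; done)
    | (rw [one_pow]; exact_mod_cast hp)

lemma beta_le (Z : Finset ℕ) (hZ : ∀ p ∈ Z, p.Prime ∧ p ≠ 2) :
    ∏ p ∈ Z, (1 + ((p : ℝ) + 1) / (√(p : ℝ) * (2 * p + 1)) + 1 / (2 * p + 1)) ≤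
      ∏ p ∈ Z, (1 + ((p : ℝ) + 1) / (rt p * (2 * p + 1)) + 1 / (2 * p + 1)) := by
  refine prod_le_prod (fun p _ => by positivity) fun p hp => ?_
  have h1 := rt_le (hZ p hp).1.one_le
  have h2 := rt_pos p
  gcongr

lemma sqrt_le_of {x y : ℝ} (hy : 0 ≤ y) (h : x ≤ y ^ 2) : √x ≤ y := Real.sqrt_le_iff.2 ⟨hy, h⟩

lemma nb_le {S α' rS u v t : ℝ} {X A : ℕ} (hS : 0 ≤ S) (hα : 0 ≤ α') (hrS : 0 ≤ rS) (hu : 0 ≤ u)
    (hv : 0 ≤ v) (ht : 0 ≤ t) (h1 : S ≤ rS ^ 2) (h2 : 1 / 4 + (rS / 2 + 0.56) ^ 2 ≤ u ^ 2)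
    (h3 : 1 / (8 * (A : ℝ)) ≤ v ^ 2) (h4 : (4.8 + 2 * Real.log (3 * X)) / (3 * X) ≤ t ^ 2) :
    nbW S α' X A ≤ 1.03 * S * u + v + α' / 2 * t := by
  unfold nbW
  have a1 := sqrt_le_of hrS h1
  have a2 : √(1 / 4 + (√S / 2 + 0.56) ^ 2) ≤ u :=
    sqrt_le_of hu (le_trans (by gcongr) h2)
  have a3 := sqrt_le_of hv h3
  have a4 := sqrt_le_of ht h4
  gcongr

lemma near (i s q : ℕ) (Z : Finset ℕ) (hZ : ∀ p ∈ Z, p.Prime ∧ p ≠ 2)
    {α α' β S rS u v t rA nb sb w m c : ℝ} (hs : 6 ≤ s ∧ 3 * s ^ 2 ≤ 2 ^ q)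
    (hα : ∏ p ∈ Z, (1 + 1 / (2 * (p : ℝ) + 1)) ≤ α)
    (hα' : ∏ p ∈ Z, (1 + ((p : ℝ) + 2) / (p * (2 * p + 1))) ≤ α')
    (hβ : ∏ p ∈ Z, (1 + ((p : ℝ) + 1) / (rt p * (2 * p + 1)) + 1 / (2 * p + 1)) ≤ β)
    (hS : 1.23371 * ∏ p ∈ Z, (1 - 1 / (p : ℝ) ^ 2) - 1 ≤ S)
    (h0 : 0 ≤ S ∧ 0 ≤ rS ∧ 0 ≤ u) (h0' : 0 ≤ v ∧ 0 ≤ t) (h0'' : 0 ≤ rA ∧ 0 ≤ w)
    (h1 : S ≤ rS ^ 2) (h2 : 1 / 4 + (rS / 2 + 0.56) ^ 2 ≤ u ^ 2)
    (h3 : 1 / (8 * (Ab ((i + 1) / 3) : ℝ)) ≤ v ^ 2)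
    (h4 : (4.8 + 2 * (q * 0.6932)) / (3 * (s : ℝ) ^ 2) ≤ t ^ 2)
    (h5 : (Ab ((i + 1) / 3) : ℝ) ≤ rA ^ 2)
    (hnb : 1.03 * S * u + v + α' / 2 * t ≤ nb) (hsb : β / 2 * (1 + 2 * s) + rA / 2 + 1 ≤ sb)
    (hw : 0.0509 * (27 / 2 * (2.28 * nb ^ 2) +
        3 / 2 * (1.828 * sb) ^ 2 / ((2 : ℝ) ^ (10 + 2 * i)) ^ 2) ≤ w ^ 2)
    (hm : 1.828 * (α / 2) * (1 / (2 * ((s : ℝ) ^ 2 - 1))) * (0.802 * 2 ^ (10 + 2 * i)) +
      7 / 4 * (α / 2) * (1 / (4 * s ^ 2)) * 0.3708 + w ≤ m)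
    (hc : 7 / 4 * (α / 2) * (2 * (8 * 2 ^ (10 + 2 * i) / (s : ℝ) + 1 / s ^ 2)) * 0.3708 ≤ c) :
    WinOK i m c := by
  have hα0' : 0 ≤ α' := le_trans (Finset.prod_nonneg fun p _ => by positivity) hα'
  have hβ' := (beta_le Z hZ).trans hβ
  have hβ0 : 0 ≤ β := le_trans (Finset.prod_nonneg fun p _ => by positivity) hβ'
  have hs' : (6 : ℝ) ≤ s := by exact_mod_cast hs.1
  have hlog : Real.log (3 * ((s ^ 2 : ℕ) : ℝ)) ≤ q * 0.6932 := by
    have a1 : (3 : ℝ) * ((s ^ 2 : ℕ) : ℝ) ≤ 2 ^ q := by exact_mod_cast hs.2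
    have a2 := Real.log_le_log (by push_cast; positivity) a1
    rw [Real.log_pow] at a2
    have a3 := Real.log_two_lt_d9
    have a4 : (0 : ℝ) ≤ q := by positivity
    nlinarith
  refine winI i Z hZ (X := s ^ 2) (B := 1) (k := 12) (nb := nb) (sb := sb) (ρ := 3 / 2)
    (by nlinarith [hs.1]) le_rfl (by norm_num) hα hα' hβ' h0.1
    (fun M => (rough_sum_le Z hZ M).trans hS) ?_ ?_ (sqrt_le_of (by norm_num) (by norm_num)) ?_ ?_
  · refine le_trans (nb_le h0.1 hα0' h0.2.1 h0.2.2 h0'.1 h0'.2 h1 h2 h3 (le_trans ?_ h4)) hnb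
    rw [show (s : ℝ) ^ 2 = ((s ^ 2 : ℕ) : ℝ) by push_cast; rfl]
    gcongr
  · refine le_trans ?_ hsb
    unfold sbW
    have a1 : √(4 * ((s ^ 2 : ℕ) : ℝ)) ≤ 2 * s :=
      sqrt_le_of (by positivity) (by push_cast; nlinarith)
    have a2 := sqrt_le_of h0''.1 h5
    gcongr
  · have a1 := sqrt_le_of h0''.2 hw
    push_cast
    rw [show ((15 : ℝ) + 12) / 2 = 27 / 2 by norm_num]
    linarith
  · push_cast
    rw [one_mul, Real.sqrt_sq (by positivity)]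
    exact hc

lemma near0 : WinOK 0 0.1981 10000 :=
  near 0 128 16 {3, 5} (by decide) (α := 1.247) (α' := 1.396)
    (β := 1.966) (S := 0.05277) (rS := 0.23) (u := 0.841) (v := 0.003907)
    (t := 0.02343) (rA := 91) (nb := 0.06598) (sb := 300) (w := 0.1695)
    (by norm_num) (by simp; norm_num) (by simp; norm_num) (by simp [rt]; norm_num)
    (by simp; norm_num) (by norm_num) (by norm_num) (by norm_num) (by norm_num) (by norm_num)
    (by norm_num [Ab]) (by norm_num) (by norm_num [Ab]) (by norm_num) (by norm_num) (by norm_num)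
    (by norm_num) (by norm_num)

lemma near1 : WinOK 1 0.1279 10000 :=
  near 1 320 19 {3, 5} (by decide) (α := 1.247) (α' := 1.396)
    (β := 1.966) (S := 0.05277) (rS := 0.23) (u := 0.841) (v := 0.003907)
    (t := 0.010069) (rA := 91) (nb := 0.05665) (sb := 677) (w := 0.1096)
    (by norm_num) (by simp; norm_num) (by simp; norm_num) (by simp [rt]; norm_num)
    (by simp; norm_num) (by norm_num) (by norm_num) (by norm_num) (by norm_num) (by norm_num)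
    (by norm_num [Ab]) (by norm_num) (by norm_num [Ab]) (by norm_num) (by norm_num) (by norm_num)
    (by norm_num) (by norm_num)

lemma near2 : WinOK 2 0.0913 10000 :=
  near 2 640 21 {3, 5, 7} (by decide) (α := 1.33) (α' := 1.516)
    (β := 2.494) (S := 0.03129) (rS := 0.177) (u := 0.819) (v := 0.000489)
    (t := 0.005254) (rA := 725) (nb := 0.03087) (sb := 1961) (w := 0.0718)
    (by norm_num) (by simp; norm_num) (by simp; norm_num) (by simp [rt]; norm_num)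
    (by simp; norm_num) (by norm_num) (by norm_num) (by norm_num) (by norm_num) (by norm_num)
    (by norm_num [Ab]) (by norm_num) (by norm_num [Ab]) (by norm_num) (by norm_num) (by norm_num)
    (by norm_num) (by norm_num)

lemma near3 : WinOK 3 0.0609 10000 :=
  near 3 1536 23 {3, 5, 7, 11} (by decide) (α := 1.388) (α' := 1.594)
    (β := 2.995) (S := 0.02276) (rS := 0.151) (u := 0.809) (v := 0.000489)
    (t := 0.002277) (rA := 725) (nb := 0.02127) (sb := 4966) (w := 0.0467)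
    (by norm_num) (by simp; norm_num) (by simp; norm_num) (by simp [rt]; norm_num)
    (by simp; norm_num) (by norm_num) (by norm_num) (by norm_num) (by norm_num) (by norm_num)
    (by norm_num [Ab]) (by norm_num) (by norm_num [Ab]) (by norm_num) (by norm_num) (by norm_num)
    (by norm_num) (by norm_num)

lemma near4 : WinOK 4 0.0423 10000 :=
  near 4 3584 26 {3, 5, 7, 11, 13} (by decide) (α := 1.44) (α' := 1.662)
    (β := 3.536) (S := 0.01671) (rS := 0.13) (u := 0.801) (v := 0.000489)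
    (t := 0.00103) (rA := 725) (nb := 0.01514) (sb := 13039) (w := 0.0315)
    (by norm_num) (by simp; norm_num) (by simp; norm_num) (by simp [rt]; norm_num)
    (by simp; norm_num) (by norm_num) (by norm_num) (by norm_num) (by norm_num) (by norm_num)
    (by norm_num [Ab]) (by norm_num) (by norm_num [Ab]) (by norm_num) (by norm_num) (by norm_num)
    (by norm_num) (by norm_num)

lemma near5 : WinOK 5 0.031 10000 :=
  near 5 8192 28 {3, 5, 7, 11, 13, 17} (by decide) (α := 1.481) (α' := 1.715)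
    (β := 4.078) (S := 0.01319) (rS := 0.115) (u := 0.795) (v := 0.000062)
    (t := 0.000466) (rA := 5793) (nb := 0.01127) (sb := 36307) (w := 0.0225)
    (by norm_num) (by simp; norm_num) (by simp; norm_num) (by simp [rt]; norm_num)
    (by simp; norm_num) (by norm_num) (by norm_num) (by norm_num) (by norm_num) (by norm_num)
    (by norm_num [Ab]) (by norm_num) (by norm_num [Ab]) (by norm_num) (by norm_num) (by norm_num)
    (by norm_num) (by norm_num)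

lemma near6 : WinOK 6 0.0217 10000 :=
  near 6 20480 31 {3, 5, 7, 11, 13, 17, 19} (by decide) (α := 1.519) (α' := 1.763)
    (β := 4.663) (S := 0.01039) (rS := 0.102) (u := 0.79) (v := 0.000062)
    (t := 0.000195) (rA := 5793) (nb := 0.00869) (sb := 98399) (w := 0.0161)
    (by norm_num) (by simp; norm_num) (by simp; norm_num) (by simp [rt]; norm_num)
    (by simp; norm_num) (by norm_num) (by norm_num) (by norm_num) (by norm_num) (by norm_num)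
    (by norm_num [Ab]) (by norm_num) (by norm_num [Ab]) (by norm_num) (by norm_num) (by norm_num)
    (by norm_num) (by norm_num)

lemma near7 : WinOK 7 0.0157 10000 :=
  near 7 49152 33 {3, 5, 7, 11, 13, 17, 19, 23, 29} (by decide) (α := 1.577) (α' := 1.837)
    (β := 5.844) (S := 0.00728) (rS := 0.086) (u := 0.784) (v := 0.000062)
    (t := 0.000084) (rA := 5793) (nb := 0.00602) (sb := 290145) (w := 0.0116)
    (by norm_num) (by simp; norm_num) (by simp; norm_num) (by simp [rt]; norm_num)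
    (by simp; norm_num) (by norm_num) (by norm_num) (by norm_num) (by norm_num) (by norm_num)
    (by norm_num [Ab]) (by norm_num) (by norm_num [Ab]) (by norm_num) (by norm_num) (by norm_num)
    (by norm_num) (by norm_num)

end WinS

end Pool.Agent.MP_5d10af_nt

end

-- part MP_5d10af_nt.WinSumF
section

/-!
The sum over the windows: the far windows.
-/

set_option autoImplicit false

namespace Pool.Agent.MP_5d10af_nt

open Finset

namespace WinS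

def Zf (j : ℕ) : Finset ℕ := (range (2 * ((8 + j) ^ 2 / 4))).filter fun p => p.Prime ∧ p ≠ 2

def Z31 : Finset ℕ := {3, 5, 7, 11, 13, 17, 19, 23, 29, 31}

lemma pw (j : ℕ) {a b c d : ℝ} (ha : 0 ≤ a) (hb : 0 ≤ b) (h : a * b ≤ c * d) :
    a ^ j * b ^ j ≤ c ^ j * d ^ j := by
  rw [← mul_pow, ← mul_pow]; exact pow_le_pow_left₀ (mul_nonneg ha hb) h j

lemma pw1 (j : ℕ) {a b c : ℝ} (ha : 0 ≤ a) (hb : 0 ≤ b) (h : a * b ≤ c) :
    a ^ j * b ^ j ≤ c ^ j := by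
  rw [← mul_pow]; exact pow_le_pow_left₀ (mul_nonneg ha hb) h j

lemma prod_far (j : ℕ) (y : ℕ → ℝ) {c v r : ℝ} (hc : 0 ≤ c) (hy0 : ∀ n, 0 ≤ y n)
    (hy : ∀ n : ℕ, 33 ≤ n → y n ≤ c * (1 / √(n : ℝ))) (hv : ∏ p ∈ Z31, (1 + y p) ≤ v)
    (hr : Real.exp (c * 0.7072) ≤ r) : ∏ p ∈ Zf j, (1 + y p) ≤ v * r ^ j := by
  rw [← prod_filter_mul_prod_filter_not (Zf j) (fun p => p < 33)]
  have h1 : ∏ p ∈ (Zf j).filter (fun p => p < 33), (1 + y p) ≤ ∏ p ∈ Z31, (1 + y p) := by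
    refine prod_le_prod_of_subset_of_one_le (fun p hp => ?_) (fun p _ => by linarith [hy0 p])
      fun p _ _ => by linarith [hy0 p]
    obtain ⟨h1, h2⟩ := mem_filter.1 hp
    have h3 := (mem_filter.1 h1).2
    revert h3
    interval_cases p <;> decide
  obtain ⟨K, hK⟩ : ∃ K, K = (8 + j) ^ 2 / 4 := ⟨_, rfl⟩
  have hK16 : 16 ≤ K := by
    rw [hK, Nat.le_div_iff_mul_le (by norm_num)]; nlinarith [Nat.zero_le j]
  have h2 := sum_odd_tele (fun n => 1 / √(n : ℝ)) (fun k => √(2 * (k : ℝ)))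
    (k0 := 16) (K := K) hK16 (fun k _ _ => by positivity) (fun k _ _ => by
      have hk : (0 : ℝ) ≤ k := by positivity
      have := inv_sqrt_le (m := 2 * (k : ℝ) + 1) (by linarith)
      push_cast
      rw [show 2 * (k : ℝ) + 1 + 1 = 2 * (k + 1) by ring, add_sub_cancel_right] at this
      exact this) ((Zf j).filter (fun p => ¬ p < 33)) (fun n hn => by
      obtain ⟨h1, h2⟩ := mem_filter.1 hn
      obtain ⟨h3, h4, h5⟩ := mem_filter.1 h1
      have h6 := mem_range.1 h3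
      have h7 := h4.eq_two_or_odd
      rw [← hK] at h6
      omega)
  have h3 : √(2 * (K : ℝ)) ≤ √(2 * ((16 : ℕ) : ℝ)) + 0.7072 * j := by
    have a1 : 5.6568 ≤ √(2 * ((16 : ℕ) : ℝ)) := Real.le_sqrt_of_sq_le (by norm_num)
    have a2 : √(2 * ((16 : ℕ) : ℝ)) ^ 2 = 32 := by rw [Real.sq_sqrt (by norm_num)]; norm_num
    have a3 : 4 * (K : ℝ) ≤ (8 + j) ^ 2 := by
      exact_mod_cast (hK ▸ Nat.mul_div_le _ 4 : 4 * K ≤ (8 + j) ^ 2)
    have a4 : (0 : ℝ) ≤ j := by positivity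
    refine sqrt_le_of (by positivity) ?_
    generalize √(2 * ((16 : ℕ) : ℝ)) = s at a1 a2
    nlinarith [mul_le_mul_of_nonneg_right a1 a4, sq_nonneg (j : ℝ)]
  have h4 : ∑ p ∈ (Zf j).filter (fun p => ¬ p < 33), y p ≤ j * (c * 0.7072) := by
    calc _ ≤ ∑ p ∈ (Zf j).filter (fun p => ¬ p < 33), c * (1 / √(p : ℝ)) :=
          sum_le_sum fun p hp => hy p (by have := (mem_filter.1 hp).2; omega)
      _ = c * ∑ p ∈ (Zf j).filter (fun p => ¬ p < 33), 1 / √(p : ℝ) := by rw [mul_sum]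
      _ ≤ c * (0.7072 * j) := mul_le_mul_of_nonneg_left (by linarith) hc
      _ = _ := by ring
  have h5 : ∏ p ∈ (Zf j).filter (fun p => ¬ p < 33), (1 + y p) ≤ r ^ j :=
    calc _ ≤ Real.exp (∑ p ∈ (Zf j).filter (fun p => ¬ p < 33), y p) :=
          Real.prod_one_add_le_exp_sum _ hy0
      _ ≤ Real.exp (j * (c * 0.7072)) := Real.exp_le_exp.2 h4
      _ = Real.exp (c * 0.7072) ^ j := Real.exp_nat_mul _ _
      _ ≤ r ^ j := pow_le_pow_left₀ (Real.exp_pos _).le hr j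
  have h6 : 0 ≤ ∏ p ∈ (Zf j).filter (fun p => p < 33), (1 + y p) :=
    prod_nonneg fun p _ => by linarith [hy0 p]
  exact mul_le_mul (h1.trans hv) h5 (prod_nonneg fun p _ => by linarith [hy0 p])
    (h6.trans (h1.trans hv))

lemma exp_le3 {x r : ℝ} (h0 : 0 ≤ x) (h1 : x ≤ 1) (h : 1 + x + x ^ 2 / 2 + x ^ 3 * (2 / 9) ≤ r) :
    Real.exp x ≤ r := by
  have := Real.exp_bound' h0 h1 (n := 3) (by norm_num)
  simp only [sum_range_succ, Nat.factorial, range_zero, sum_empty] at this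
  norm_num at this
  linarith

lemma alpha_far (j : ℕ) :
    ∏ p ∈ Zf j, (1 + ((p : ℝ) + 2) / (p * (2 * p + 1))) ≤ 1.868 * 1.07 ^ j := by
  refine prod_far j (fun p => ((p : ℝ) + 2) / (p * (2 * p + 1))) (c := 0.095) (by norm_num)
    (fun n => by positivity) (fun n hn => ?_) (by simp [Z31]; norm_num)
    (exp_le3 (by norm_num) (by norm_num) (by norm_num))
  have h1 : (33 : ℝ) ≤ n := by exact_mod_cast hn
  have h2 : 5.74 ≤ √(n : ℝ) := Real.le_sqrt_of_sq_le (by linarith)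
  have h3 := Real.mul_self_sqrt (by linarith : (0 : ℝ) ≤ n)
  generalize √(n : ℝ) = s at *
  rw [mul_one_div, div_le_div_iff₀ (by positivity) (by positivity), ← h3]
  have h4 : s * s + 2 ≤ 0.095 * (s * (2 * (s * s) + 1)) := by nlinarith
  nlinarith

lemma alpha_far' (j : ℕ) : ∏ p ∈ Zf j, (1 + 1 / (2 * (p : ℝ) + 1)) ≤ 1.868 * 1.07 ^ j := by
  refine le_trans (prod_le_prod (fun p _ => by positivity) fun p hp => ?_) (alpha_far j)
  have h1 : (0 : ℝ) < p := by exact_mod_cast (mem_filter.1 hp).2.1.pos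
  have h2 : 1 / (2 * (p : ℝ) + 1) ≤ ((p : ℝ) + 2) / (p * (2 * p + 1)) := by
    rw [div_le_div_iff₀ (by positivity) (by positivity)]; nlinarith
  linarith

lemma beta_far (j : ℕ) :
    ∏ p ∈ Zf j, (1 + ((p : ℝ) + 1) / (√(p : ℝ) * (2 * p + 1)) + 1 / (2 * p + 1)) ≤
      6.47 * 1.525 ^ j := by
  simp only [add_assoc (1 : ℝ)]
  refine prod_far j (fun p => ((p : ℝ) + 1) / (√(p : ℝ) * (2 * p + 1)) + 1 / (2 * p + 1))
    (c := 0.594) (by norm_num) (fun n => by positivity) (fun n hn => ?_) ?_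
    (exp_le3 (by norm_num) (by norm_num) (by norm_num))
  · have h1 : (33 : ℝ) ≤ n := by exact_mod_cast hn
    have h2 : 5.74 ≤ √(n : ℝ) := Real.le_sqrt_of_sq_le (by linarith)
    have h3 := Real.mul_self_sqrt (by linarith : (0 : ℝ) ≤ n)
    generalize √(n : ℝ) = s at *
    have hs : 0 < s := by linarith
    have e : ((n : ℝ) + 1) / (s * (2 * n + 1)) + 1 / (2 * n + 1) =
        ((n : ℝ) + 1 + s) / (s * (2 * n + 1)) := by field_simp
    rw [e, mul_one_div, div_le_div_iff₀ (by positivity) hs, ← h3]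
    have h4 : s * s + 1 + s ≤ 0.594 * (2 * (s * s) + 1) := by nlinarith
    nlinarith
  · have := beta_le Z31 (by decide)
    simp only [add_assoc (1 : ℝ)] at this
    refine this.trans ?_
    simp [Z31, rt]; norm_num

lemma S_far (j M : ℕ) :
    ∑ n ∈ (Icc 2 M).filter (fun n => n % 2 = 1 ∧ ∀ p ∈ Zf j, ¬ p ∣ n), 1 / (n : ℝ) ^ 2 ≤
      1 / (((8 : ℝ) + j) ^ 2 - 1) := by
  obtain ⟨K, hK⟩ : ∃ K, K = (8 + j) ^ 2 / 4 := ⟨_, rfl⟩
  have hK16 : 16 ≤ K := by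
    rw [hK, Nat.le_div_iff_mul_le (by norm_num)]; nlinarith [Nat.zero_le j]
  refine le_trans (sum_odd_inv_sq (z := 2 * K) (by omega) _ fun n hn => ?_) ?_
  · obtain ⟨h1, h2, h3⟩ := mem_filter.1 hn
    have h4 := (mem_Icc.1 h1).1
    have hp := Nat.minFac_prime (n := n) (by omega)
    have h5 : n.minFac ≠ 2 := fun h => by
      have := Nat.minFac_dvd n
      rw [h] at this; omega
    have h6 : ¬ n.minFac < 2 * K := fun h =>
      h3 _ (mem_filter.2 ⟨mem_range.2 (hK ▸ h), hp, h5⟩) (Nat.minFac_dvd n)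
    have h7 := Nat.minFac_le (n := n) (by omega)
    omega
  · have h1 : (8 + j) ^ 2 ≤ 4 * K + 1 := by
      have h2 : (8 + j) ^ 2 % 4 ≤ 1 := by
        rw [Nat.pow_mod]
        have : (8 + j) % 4 < 4 := Nat.mod_lt _ (by norm_num)
        generalize (8 + j) % 4 = r at *
        interval_cases r <;> norm_num
      omega
    have h2 : ((8 : ℝ) + j) ^ 2 ≤ 4 * K + 1 := by exact_mod_cast h1
    have h3 : (0 : ℝ) ≤ j := by positivity
    refine one_div_le_one_div_of_le (by nlinarith) ?_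
    push_cast; linarith

lemma nb_far (j : ℕ) :
    nbW (1 / (((8 : ℝ) + j) ^ 2 - 1)) (1.868 * 1.07 ^ j) (15625000000 * 5 ^ j) (Ab ((8 + j + 1) / 3))
      ≤ 0.823 * (1 / (((8 : ℝ) + j) ^ 2 - 1)) + 0.00007 * 0.856 ^ j := by
  have hj : (0 : ℝ) ≤ j := by positivity
  have hS : 1 / (((8 : ℝ) + j) ^ 2 - 1) ≤ 1 / 63 :=
    one_div_le_one_div_of_le (by norm_num) (by nlinarith)
  have hS0 : 0 ≤ 1 / (((8 : ℝ) + j) ^ 2 - 1) := by
    have : 0 < ((8 : ℝ) + j) ^ 2 - 1 := by nlinarith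
    positivity
  refine le_trans (nb_le (rS := 0.126) (u := 0.799) (v := 1 / 2 ^ (15 + j))
    (t := 0.000035 * 0.64 ^ j) hS0 (by positivity) (by norm_num) (by norm_num) (by positivity)
    (by positivity) (by linarith) (by norm_num) ?_ ?_) ?_
  · rw [div_pow, one_pow, ← pow_mul]
    refine one_div_le_one_div_of_le (by positivity) ?_
    have : 2 ^ ((15 + j) * 2) ≤ 8 * Ab ((8 + j + 1) / 3) := by
      unfold Ab
      rw [show 8 = 2 ^ 3 by norm_num, ← pow_add]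
      exact Nat.pow_le_pow_right (by norm_num) (by omega)
    exact_mod_cast this
  · have a1 : (3 : ℝ) * ((15625000000 * 5 ^ j : ℕ) : ℝ) ≤ 2 ^ (36 + 3 * j) := by
      have : (5 : ℝ) ^ j ≤ (2 ^ 3) ^ j := pow_le_pow_left₀ (by norm_num) (by norm_num) j
      rw [pow_add, pow_mul]
      push_cast
      have : (0 : ℝ) ≤ 5 ^ j := by positivity
      nlinarith
    have a2 := Real.log_le_log (by positivity) a1
    rw [Real.log_pow] at a2
    have a3 := Real.log_two_lt_d9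
    have a4 : 1 + (j : ℝ) * 1 ≤ (1 + 1) ^ j := one_add_mul_le_pow (by norm_num) j
    have a5 : 4.8 + 2 * Real.log (3 * ((15625000000 * 5 ^ j : ℕ) : ℝ)) ≤ 55 * 2 ^ j := by
      push_cast at a2 ⊢
      norm_num at a4
      nlinarith
    have a6 : (2 : ℝ) ^ j * 1 ^ j ≤ (0.64 ^ 2) ^ j * 5 ^ j := pw j (by norm_num) (by norm_num) (by norm_num)
    rw [div_le_iff₀ (by positivity)]
    refine a5.trans ?_
    rw [one_pow, mul_one, ← pow_mul, mul_comm 2 j, pow_mul] at a6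
    push_cast
    have : (0 : ℝ) ≤ 2 ^ j := by positivity
    nlinarith
  · have a1 : (1 : ℝ) / 2 ^ (15 + j) ≤ 0.000031 * 0.856 ^ j := by
      have a2 : (1 : ℝ) ^ j * 1 ^ j ≤ 0.856 ^ j * 2 ^ j := pw j (by norm_num) (by norm_num) (by norm_num)
      rw [div_le_iff₀ (by positivity), pow_add]
      simp only [one_pow] at a2
      nlinarith
    have a2 : (1.07 : ℝ) ^ j * 0.64 ^ j ≤ 0.856 ^ j := pw1 j (by norm_num) (by norm_num) (by norm_num)
    have a3 : (0 : ℝ) ≤ 0.856 ^ j := by positivity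
    nlinarith

lemma sb_far (j : ℕ) :
    sbW (6.47 * 1.525 ^ j) (15625000000 * 5 ^ j) (Ab ((8 + j + 1) / 3)) ≤ 841600 * 3.42 ^ j := by
  unfold sbW
  have a1 : √(4 * ((15625000000 * 5 ^ j : ℕ) : ℝ)) ≤ 250000 * 2.2361 ^ j := by
    refine sqrt_le_of (by positivity) ?_
    have : (5 : ℝ) ^ j ≤ (2.2361 ^ 2) ^ j := pow_le_pow_left₀ (by norm_num) (by norm_num) j
    rw [← pow_mul, mul_comm 2 j, pow_mul] at this
    push_cast
    nlinarith
  have a2 : √((Ab ((8 + j + 1) / 3) : ℕ) : ℝ) ≤ 2 ^ (16 + j) := by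
    refine sqrt_le_of (by positivity) ?_
    have : Ab ((8 + j + 1) / 3) ≤ (2 ^ (16 + j)) ^ 2 := by
      unfold Ab
      rw [← pow_mul]
      exact Nat.pow_le_pow_right (by norm_num) (by omega)
    exact_mod_cast this
  have a3 : (1.525 : ℝ) ^ j * 2.2361 ^ j ≤ 3.42 ^ j := pw1 j (by norm_num) (by norm_num) (by norm_num)
  have a4 : (1.525 : ℝ) ^ j ≤ 3.42 ^ j := pow_le_pow_left₀ (by norm_num) (by norm_num) j
  have a5 : (2 : ℝ) ^ j ≤ 3.42 ^ j := pow_le_pow_left₀ (by norm_num) (by norm_num) j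
  have a6 : (1 : ℝ) ≤ 3.42 ^ j := one_le_pow₀ (by norm_num)
  have a7 : 6.47 * 1.525 ^ j / 2 * (1 + √(4 * ((15625000000 * 5 ^ j : ℕ) : ℝ))) ≤
      6.47 * 1.525 ^ j / 2 * (1 + 250000 * 2.2361 ^ j) := by gcongr
  rw [pow_add] at a2
  nlinarith

lemma far (j : ℕ) : WinOK (8 + j) (0.888 * (1 / (((8 : ℝ) + j) ^ 2 - 1)) + 0.0104 * 0.856 ^ j)
    (5300 * 0.96 ^ j) := by
  have hj : (0 : ℝ) ≤ j := by positivity
  have hS0 : 0 ≤ 1 / (((8 : ℝ) + j) ^ 2 - 1) := by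
    have : 0 < ((8 : ℝ) + j) ^ 2 - 1 := by nlinarith
    positivity
  have h5 : 1 ≤ 5 ^ j := Nat.one_le_pow _ _ (by norm_num)
  have h5' : (1 : ℝ) ≤ 5 ^ j := one_le_pow₀ (by norm_num)
  have et : (2 : ℝ) ^ (10 + 2 * (8 + j)) = 67108864 * 4 ^ j := by
    rw [show 10 + 2 * (8 + j) = 26 + 2 * j by ring, pow_add, pow_mul]; norm_num
  refine winI (8 + j) (Zf j) (fun p hp => (mem_filter.1 hp).2) (X := 15625000000 * 5 ^ j)
    (B := 4 ^ j) (k := 5) (ρ := 2) (by omega) (Nat.one_le_pow _ _ (by norm_num)) (by norm_num)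
    (alpha_far' j) (alpha_far j) (beta_far j) hS0 (S_far j) (nb_far j) (sb_far j)
    (sqrt_le_of (by norm_num) (by norm_num)) ?_ ?_
  · rw [et]
    push_cast
    generalize 1 / (((8 : ℝ) + j) ^ 2 - 1) = S at *
    have g0 : (0 : ℝ) < 0.856 ^ j := by positivity
    have a1 : (1.07 : ℝ) ^ j * 4 ^ j ≤ 0.856 ^ j * 5 ^ j := pw j (by norm_num) (by norm_num) (by norm_num)
    have a2 : (1.07 : ℝ) ^ j * 1 ^ j ≤ 0.856 ^ j * 5 ^ j := pw j (by norm_num) (by norm_num) (by norm_num)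
    have a3 : (3.42 : ℝ) ^ j * 1 ^ j ≤ 0.856 ^ j * 4 ^ j := pw j (by norm_num) (by norm_num) (by norm_num)
    rw [one_pow, mul_one] at a2 a3
    have b1 : 1.828 * (1.868 * 1.07 ^ j / 2) * (1 / (2 * (15625000000 * (5 : ℝ) ^ j - 1))) *
        (0.802 * (67108864 * 4 ^ j)) ≤ 0.00296 * 0.856 ^ j := by
      have hp : 0 < 2 * (15625000000 * (5 : ℝ) ^ j - 1) := by linarith
      rw [mul_one_div, div_mul_eq_mul_div, div_le_iff₀ hp]
      nlinarith [mul_le_mul_of_nonneg_left h5' g0.le]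
    have b2 : 7 / 4 * (1.868 * 1.07 ^ j / 2) * (1 / (4 * (15625000000 * (5 : ℝ) ^ j))) * 0.3708 ≤
        0.000001 * 0.856 ^ j := by
      rw [mul_one_div, div_mul_eq_mul_div, div_le_iff₀ (by positivity)]
      nlinarith [mul_le_mul_of_nonneg_left h5' g0.le]
    have b3 : (841600 * (3.42 : ℝ) ^ j) / (67108864 * 4 ^ j) ≤ 0.012541 * 0.856 ^ j := by
      rw [div_le_iff₀ (by positivity)]
      have : (0 : ℝ) ≤ 3.42 ^ j := by positivity
      nlinarith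
    have b4 : (0 : ℝ) ≤ (841600 * (3.42 : ℝ) ^ j) / (67108864 * 4 ^ j) := by positivity
    have e1 : 2 * (1.828 * (841600 * (3.42 : ℝ) ^ j)) ^ 2 / (67108864 * 4 ^ j) ^ 2 =
        2 * 1.828 ^ 2 * ((841600 * (3.42 : ℝ) ^ j) / (67108864 * 4 ^ j)) ^ 2 := by
      field_simp
    rw [e1]
    generalize (841600 * (3.42 : ℝ) ^ j) / (67108864 * 4 ^ j) = o at *
    have hd : 0 ≤ 0.823 * S + 0.00007 * 0.856 ^ j := by positivity
    obtain ⟨d, hd'⟩ : ∃ d : ℝ, d = 0.823 * S + 0.00007 * 0.856 ^ j := ⟨_, rfl⟩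
    rw [← hd'] at hd ⊢
    have b5 : √(0.0509 * ((15 + 5) / 2 * (2.28 * d ^ 2) + 2 * 1.828 ^ 2 * o ^ 2)) ≤
        1.078 * d + 0.5833 * o := by
      refine sqrt_le_of (by positivity) ?_
      nlinarith [mul_nonneg hd b4, sq_nonneg d, sq_nonneg o]
    linarith
  · rw [et]
    push_cast
    have a1 : 125000 * 4.47 ^ j ≤ √((4 : ℝ) ^ j * (15625000000 * 5 ^ j)) := by
      refine Real.le_sqrt_of_sq_le ?_
      have : ((4.47 : ℝ) ^ 2) ^ j * 1 ^ j ≤ 4 ^ j * 5 ^ j := pw j (by norm_num) (by norm_num) (by norm_num)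
      rw [one_pow, mul_one, ← pow_mul, mul_comm 2 j, pow_mul] at this
      nlinarith
    have g0 : (0 : ℝ) < 0.895 ^ j := by positivity
    have a2 : 8 * (67108864 * 4 ^ j) / √((4 : ℝ) ^ j * (15625000000 * 5 ^ j)) ≤
        4295 * 0.895 ^ j := by
      refine le_trans (div_le_div_of_nonneg_left (by positivity) (by positivity) a1) ?_
      have : (4 : ℝ) ^ j * 1 ^ j ≤ 0.895 ^ j * 4.47 ^ j := pw j (by norm_num) (by norm_num) (by norm_num)
      rw [one_pow, mul_one] at this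
      rw [div_le_iff₀ (by positivity)]
      have : (0 : ℝ) ≤ 4 ^ j := by positivity
      nlinarith
    have a3 : (4 : ℝ) ^ j / (15625000000 * 5 ^ j) ≤ 0.895 ^ j := by
      have : (4 : ℝ) ^ j * 1 ^ j ≤ 0.895 ^ j * 5 ^ j := pw j (by norm_num) (by norm_num) (by norm_num)
      rw [one_pow, mul_one] at this
      rw [div_le_iff₀ (by positivity)]
      have : (0 : ℝ) ≤ 4 ^ j := by positivity
      nlinarith
    have a4 : (1.07 : ℝ) ^ j * 0.895 ^ j ≤ 0.96 ^ j := pw1 j (by norm_num) (by norm_num) (by norm_num)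
    have g1 : (0 : ℝ) < 0.96 ^ j := by positivity
    calc _ ≤ 7 / 4 * (1.868 * 1.07 ^ j / 2) * (2 * (4295 * 0.895 ^ j + (0.895 : ℝ) ^ j)) * 0.3708 := by
          gcongr
      _ ≤ _ := by nlinarith

end WinS

end Pool.Agent.MP_5d10af_nt

end

-- part MP_5d10af_nt.WinSum
section

/-!
The sum over the windows.
-/

set_option autoImplicit false

namespace Pool.Agent.MP_5d10af_nt

open Finset

namespace WinS

noncomputable def mW (i : ℕ) : ℝ :=
  if i = 0 then 0.1981 else if i = 1 then 0.1279 else if i = 2 then 0.0913 else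
  if i = 3 then 0.0609 else if i = 4 then 0.0423 else if i = 5 then 0.031 else
  if i = 6 then 0.0217 else if i = 7 then 0.0157 else
  0.888 * (1 / (((8 : ℝ) + (i - 8 : ℕ)) ^ 2 - 1)) + 0.0104 * 0.856 ^ (i - 8)

noncomputable def cW (i : ℕ) : ℝ := if i < 8 then 10000 else 5300 * 0.96 ^ (i - 8)

lemma mW_far (j : ℕ) :
    mW (8 + j) = 0.888 * (1 / (((8 : ℝ) + j) ^ 2 - 1)) + 0.0104 * 0.856 ^ j := by
  unfold mW
  rw [if_neg (by omega), if_neg (by omega), if_neg (by omega), if_neg (by omega),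
    if_neg (by omega), if_neg (by omega), if_neg (by omega), if_neg (by omega),
    Nat.add_sub_cancel_left]

lemma cW_far (j : ℕ) : cW (8 + j) = 5300 * 0.96 ^ j := by
  unfold cW
  rw [if_neg (by omega), Nat.add_sub_cancel_left]

lemma ok (i : ℕ) : WinOK i (mW i) (cW i) := by
  rcases lt_or_ge i 8 with h | h
  · interval_cases i
    · simpa [mW, cW] using near0
    · simpa [mW, cW] using near1
    · simpa [mW, cW] using near2
    · simpa [mW, cW] using near3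
    · simpa [mW, cW] using near4
    · simpa [mW, cW] using near5
    · simpa [mW, cW] using near6
    · simpa [mW, cW] using near7
  · obtain ⟨j, rfl⟩ := Nat.exists_eq_add_of_le h
    rw [mW_far, cW_far]
    exact far j

lemma sum_le_of (f : ℕ → ℝ) {C : ℝ} (h0 : ∀ i, 0 ≤ f i)
    (h : ∀ J, ∑ i ∈ range 8, f i + ∑ j ∈ range J, f (8 + j) ≤ C) (I : ℕ) :
    ∑ i ∈ range I, f i ≤ C := by
  refine le_trans ?_ (h I)
  rw [← sum_range_add]
  exact sum_le_sum_of_subset_of_nonneg (range_mono (by omega)) fun i _ _ => h0 i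

lemma mW_nonneg (i : ℕ) : 0 ≤ mW i := by
  rcases lt_or_ge i 8 with h | h
  · interval_cases i <;> norm_num [mW]
  · obtain ⟨j, rfl⟩ := Nat.exists_eq_add_of_le h
    rw [mW_far]
    have hj : (0 : ℝ) ≤ j := by positivity
    have : 0 < ((8 : ℝ) + j) ^ 2 - 1 := by nlinarith
    positivity

lemma sum_mW (I : ℕ) : ∑ i ∈ range I, mW i ≤ 0.82 := by
  refine sum_le_of mW mW_nonneg (fun J => ?_) I
  have h1 : ∑ i ∈ range 8, mW i = 0.5889 := by
    simp only [sum_range_succ, range_zero, sum_empty]; norm_num [mW]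
  have h2 : ∑ j ∈ range J, mW (8 + j) ≤ 0.888 * ((1 / 7 + 1 / 8) / 2 -
      (1 / (7 + (J : ℝ)) + 1 / (8 + (J : ℝ))) / 2) + 0.0104 * ((1 - 0.856 ^ J) * (125 / 18)) := by
    induction J with
    | zero => norm_num
    | succ J ih =>
      rw [sum_range_succ, mW_far]
      have hj : (0 : ℝ) ≤ J := by positivity
      have e : 1 / (((8 : ℝ) + J) ^ 2 - 1) = (1 / (7 + (J : ℝ)) - 1 / (8 + ((J : ℝ) + 1))) / 2 := by
        have : ((8 : ℝ) + J) ^ 2 - 1 = (7 + J) * (8 + (J + 1)) := by ring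
        rw [this]; field_simp; ring
      push_cast
      rw [e, show (7 : ℝ) + (J + 1) = 8 + J by ring, pow_succ]
      linarith
  have hj : (0 : ℝ) ≤ J := by positivity
  have h3 : 0 ≤ (1 / (7 + (J : ℝ)) + 1 / (8 + (J : ℝ))) / 2 := by positivity
  have h4 : (0 : ℝ) ≤ 0.856 ^ J := by positivity
  linarith

lemma sum_cW (I : ℕ) : ∑ i ∈ range I, cW i ≤ 300000 := by
  refine sum_le_of cW (fun i => by unfold cW; split_ifs <;> positivity) (fun J => ?_) I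
  have h1 : ∑ i ∈ range 8, cW i = 80000 := by
    simp only [sum_range_succ, range_zero, sum_empty]; norm_num [cW]
  have h2 : ∑ j ∈ range J, cW (8 + j) ≤ 5300 * ((1 - 0.96 ^ J) * 25) := by
    induction J with
    | zero => norm_num
    | succ J ih =>
      rw [sum_range_succ, cW_far, pow_succ]
      linarith
  have h4 : (0 : ℝ) ≤ 0.96 ^ J := by positivity
  linarith

end WinS

theorem winSum : Ev fun σ N => ∀ I : ℕ, ∑ i ∈ range I, winS σ N i ≤ 0.85 :=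
  WinS.assemble WinS.mW WinS.cW WinS.ok (by norm_num) WinS.sum_mW WinS.sum_cW

end Pool.Agent.MP_5d10af_nt

end

-- part MP_5d10af_nt.Blk
section

/-!
The contribution of a block.
-/

set_option autoImplicit false

namespace Pool.Agent.MP_5d10af_nt

open Finset

lemma blk_quart {z : ℝ} (h0 : 0 ≤ z) : (1 + z / 4) ^ 4 * (1 - z) ≤ 1 := by
  have h1 : (1 + z / 4) ^ 4 * (1 - z) =
      1 - z ^ 2 * (5 / 8 + 5 / 16 * z + 15 / 256 * z ^ 2 + 1 / 256 * z ^ 3) := by ring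
  have h2 : 0 ≤ z ^ 2 * (5 / 8 + 5 / 16 * z + 15 / 256 * z ^ 2 + 1 / 256 * z ^ 3) := by
    positivity
  linarith

lemma blk_first {σ t : ℝ} (hσ : 1 ≤ σ) (ht : 0 < t) {N : ℕ} (hN : Squarefree N) (hNo : Odd N) :
    ∑ e ∈ N.divisors, gw σ e ^ 2 * (e : ℝ) ^ (1 - t) ≤ (1 + 1 / (2 * t)) ^ (1 / 4 : ℝ) := by
  have h1 : ∑ e ∈ N.divisors, gw σ e ^ 2 * (e : ℝ) ^ (1 - t) =
      ∏ p ∈ N.primeFactors, (1 + (1 / (2 * (p : ℝ) ^ σ + 1)) ^ 2 * (p : ℝ) ^ (1 - t)) := by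
    rw [← sum_divisors_prod hN]
    refine sum_congr rfl fun a ha => ?_
    have ha' := hN.squarefree_of_dvd (Nat.dvd_of_mem_divisors ha)
    rw [rpow_eq_prod ha', gw, ← prod_pow, ← prod_mul_distrib]
  have h2 := zetaN_le (σ := 1 + t) (by linarith) hNo
  rw [add_sub_cancel_left] at h2
  rw [h1, show (1 / 4 : ℝ) = ((4 : ℕ) : ℝ)⁻¹ by norm_num,
    Real.le_rpow_inv_iff_of_pos (prod_nonneg fun p _ => by positivity) (by positivity)
      (by norm_num), Real.rpow_natCast, ← prod_pow]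
  refine le_trans (prod_le_prod (fun p _ => by positivity) fun p hp => ?_) h2
  have hp' := Nat.prime_of_mem_primeFactors hp
  obtain ⟨a1, a2⟩ := maj_le_rpow hσ hp'
  obtain ⟨b1, b2, -, -⟩ := maj_loc (σ := 1 + t) (by linarith) hp'
  have hp0 : (0 : ℝ) < p := by linarith
  have a3 : (1 / (2 * (p : ℝ) ^ σ + 1)) ^ 2 * (p : ℝ) ^ (1 - t) ≤ (p : ℝ) ^ (-(1 + t)) / 4 := by
    have c1 : (p : ℝ) ^ (1 - t) = (p : ℝ) ^ (-(1 + t)) * p ^ 2 := by
      rw [← Real.rpow_natCast, ← Real.rpow_add hp0]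
      congr 1
      push_cast
      ring
    have c2 : 1 / (2 * (p : ℝ) ^ σ + 1) ≤ 1 / (2 * p) := by
      gcongr
      linarith
    have c3 := pow_le_pow_left₀ (by positivity) c2 2
    rw [c1]
    refine (mul_le_mul_of_nonneg_right c3 (by positivity)).trans (le_of_eq ?_)
    field_simp
    norm_num
  rw [← one_div, le_div_iff₀ (by linarith)]
  refine le_trans (mul_le_mul_of_nonneg_right (pow_le_pow_left₀ (by positivity)
    (add_le_add_right a3 1) 4) (by linarith)) (blk_quart b1.le)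

lemma blk_second {σ t : ℝ} (hσ : 1 ≤ σ) (ht : 0 < t)
    (T : Finset ℕ) (hT : ∀ a ∈ T, Squarefree a ∧ a % 2 = 1) {G1 G2 : ℝ}
    (hG1 : ∑ a ∈ T, gw 1 a * √(a : ℝ) ≤ G1) (hG2 : ∑ a ∈ T, gw 1 a ^ 2 ≤ G2)
    {X : ℕ} (hX : 1024 ≤ X) (E : Finset ℕ) (hE : ∀ e ∈ E, e % 2 = 1 ∧ 4 * X < e) :
    ∑ e ∈ E, (e : ℝ) ^ (-1 - t) * (∑ a ∈ T, gw σ a * Kf a e) ^ 2 ≤
      1.04 * (2.28 * G2 / (2 * t) + (1.828 * G1) ^ 2 / (2 * ((X : ℝ) - 1))) := by
  set b : ℕ → ℝ := fun n => if n ∈ T then gw σ n else 0 with hb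
  set M := T.sup id with hM
  have hTM : T ⊆ Icc 1 M := fun a ha =>
    mem_Icc.2 ⟨by have := (hT a ha).2; omega, le_sup (f := id) ha⟩
  have hsum : ∀ F : ℕ → ℝ → ℝ, (∀ n, F n 0 = 0) →
      ∑ n ∈ Icc 1 M, F n (b n) = ∑ a ∈ T, F a (gw σ a) := by
    intro F hF
    rw [← sum_subset hTM fun n _ hn => by simp [hb, hn, hF]]
    exact sum_congr rfl fun a ha => by simp [hb, ha]
  have hQ : Qf M b ≤ G2 := by
    rw [Qf_sqfree M fun n hn => if_neg fun h => hn (hT n h).1,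
      hsum (fun _ x => x ^ 2) fun _ => by simp]
    exact le_trans (sum_le_sum fun a _ =>
      pow_le_pow_left₀ (gw_pos σ a).le (gw_anti hσ a) 2) hG2
  have hS0 : 0 ≤ Sf M b := sum_nonneg fun n _ => by positivity
  have hS : Sf M b ≤ G1 := by
    rw [Sf, hsum (fun n x => |x| * √(n : ℝ)) fun _ => by simp]
    refine le_trans (sum_le_sum fun a _ => ?_) hG1
    rw [abs_of_pos (gw_pos σ a)]
    exact mul_le_mul_of_nonneg_right (gw_anti hσ a) (Real.sqrt_nonneg _)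
  have hQ0 := Qf_nonneg M b
  have h1 := tail_weight (f := fun n => (∑ a ∈ T, gw σ a * Kf a (2 * n + 1)) ^ 2)
    (fun n => sq_nonneg _) (q := 2.28 * G2) (o := (1.828 * G1) ^ 2) (by linarith) (sq_nonneg _) ht
    (fun A => by
      have h2 := MSK M b (fun n hn => if_neg fun h => by have := (hT n h).2; omega) 0 A A
      have h3 : ∀ e, ∑ n ∈ Icc 1 M, b n * Kf n e = ∑ a ∈ T, gw σ a * Kf a e := fun e =>
        hsum (fun n x => x * Kf n e) fun _ => zero_mul _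
      simp only [zero_add, h3] at h2
      rw [Real.sqrt_mul_self (Nat.cast_nonneg A), ← sq] at h2
      refine h2.trans (add_le_add (mul_le_mul_of_nonneg_left (by linarith) (sq_nonneg _))
        (mul_le_mul_of_nonneg_left (pow_le_pow_left₀ (by positivity) (by linarith) 2)
          (Nat.cast_nonneg A)))) hX (E.sup id)
  refine le_trans ?_ h1
  have h3 : E ⊆ (Ico (2 * X) (E.sup id)).image fun n => 2 * n + 1 := by
    intro e he
    obtain ⟨h4, h5⟩ := hE e he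
    have h6 : e ≤ E.sup id := le_sup (f := id) he
    exact mem_image.2 ⟨e / 2, mem_Ico.2 ⟨by omega, by omega⟩, by omega⟩
  refine (sum_le_sum_of_subset_of_nonneg h3 fun e _ _ => by positivity).trans (le_of_eq ?_)
  rw [sum_image fun a _ b _ e => by simpa using e]

theorem r3 {σ t : ℝ} (hσ : 1 ≤ σ) (ht : 0 < t) {N : ℕ} (hN : Squarefree N) (hNo : Odd N)
    (T : Finset ℕ) (hT : ∀ a ∈ T, Squarefree a ∧ a % 2 = 1) {G1 G2 : ℝ}
    (hG1 : ∑ a ∈ T, gw 1 a * √(a : ℝ) ≤ G1) (hG2 : ∑ a ∈ T, gw 1 a ^ 2 ≤ G2)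
    {X : ℕ} (hX : 1024 ≤ X) :
    ∑ e ∈ N.divisors.filter (fun e => 4 * X < e),
        gw σ e * (e : ℝ) ^ (-t) * |∑ a ∈ T, gw σ a * Kf a e| ≤
      √(((1 + 1 / (2 * t)) ^ (1 / 4 : ℝ) - 1) *
        (1.04 * (2.28 * G2 / (2 * t) + (1.828 * G1) ^ 2 / (2 * ((X : ℝ) - 1))))) := by
  set E := N.divisors.filter (fun e => 4 * X < e) with hE
  have h1 := blk_second hσ ht T hT hG1 hG2 hX E fun e he =>
    ⟨Nat.odd_iff.1 (hNo.of_dvd_nat (Nat.dvd_of_mem_divisors (mem_filter.1 he).1)),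
      (mem_filter.1 he).2⟩
  have h2 : ∑ e ∈ E, gw σ e ^ 2 * (e : ℝ) ^ (1 - t) ≤ (1 + 1 / (2 * t)) ^ (1 / 4 : ℝ) - 1 := by
    have h3 := blk_first hσ ht hN hNo
    have h4 : 1 ∉ E := fun h => by have := (mem_filter.1 h).2; omega
    have h5 : insert 1 E ⊆ N.divisors :=
      insert_subset (Nat.one_mem_divisors.2 hN.ne_zero) (filter_subset _ _)
    have h6 := (sum_le_sum_of_subset_of_nonneg h5 fun e _ _ => by positivity).trans h3
    rw [sum_insert h4] at h6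
    simp only [gw, Nat.primeFactors_one, prod_empty, Nat.cast_one, Real.one_rpow] at h6 ⊢
    linarith
  refine Real.le_sqrt_of_sq_le (le_trans (sum_sq_le_sum_mul_sum_of_sq_le_mul E
    (f := fun e => gw σ e ^ 2 * (e : ℝ) ^ (1 - t))
    (g := fun e => (e : ℝ) ^ (-1 - t) * (∑ a ∈ T, gw σ a * Kf a e) ^ 2)
    (fun e _ => by positivity) (fun e _ => by positivity) fun e he => le_of_eq ?_)
    (mul_le_mul h2 h1 (sum_nonneg fun e _ => by positivity)
      ((sum_nonneg fun e _ => by positivity).trans h2)))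
  have he0 : (0 : ℝ) < e := by
    have := (mem_filter.1 he).2
    exact_mod_cast (show 0 < e by omega)
  have h3 : (e : ℝ) ^ (1 - t) * (e : ℝ) ^ (-1 - t) = ((e : ℝ) ^ (-t)) ^ 2 := by
    rw [sq, ← Real.rpow_add he0, ← Real.rpow_add he0]
    congr 1
    ring
  rw [mul_pow, mul_pow, sq_abs, ← h3]
  ring

lemma blk_Bil_mono {Ξ : ℕ → ℝ} {γ γ' : ℝ} (h : Bil Ξ γ) (hγ : γ ≤ γ') : Bil Ξ γ' :=
  fun n0 A B => (h n0 A B).trans (mul_le_mul_of_nonneg_right hγ (Real.sqrt_nonneg _))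

lemma blk_one {σ t η : ℝ} (hσ : 1 < σ) (ht : 0 < t) (hη : 0 ≤ η) {N : ℕ} (hN : Squarefree N)
    (hNo : Odd N) (hL : ∀ σ' : ℝ, σ ≤ σ' → ∀ χ : ℕ → ℝ, CM χ → |LN σ' N χ - Lf σ' χ| ≤ η)
    {M J : ℕ} (hM : 2048 ≤ M) (hJ : 11 ≤ J) {a : ℕ} (ha : a ∣ N ∧ 1 < a ∧ 8 * a ≤ M ^ 2) :
    ∑ e ∈ N.divisors.filter (fun e => 2 ^ J < e), gw σ e * (1 - (e : ℝ) ^ (-t)) * Kf a e ≤
      7 / 4 * (t * (Real.log (2 * M + 1) * √(Real.log (2 * M + 1) / 2 + 3 / 2) +
        Real.log 2 * (10.1 + 0.05 * J * (J + 1))) + √(2 * η)) := by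
  obtain ⟨ha1, ha2, ha3⟩ := ha
  have hodd : ∀ e, e ∣ N → e % 2 = 1 := fun e he => Nat.odd_iff.1 (hNo.of_dvd_nat he)
  have hL8 := maj_log_ge hM
  have hM0 : (2048 : ℝ) ≤ M := by exact_mod_cast hM
  have hsq : ¬ IsSquare a := by
    rintro ⟨r, rfl⟩
    have := Nat.isUnit_iff.1 (hN.squarefree_of_dvd ha1 r dvd_rfl)
    subst this
    omega
  have h1 : ∀ i : Fin 4, ∑ e ∈ N.divisors, gw σ e * (1 - (e : ℝ) ^ (-t)) * chi i a e ≤
      t * Real.log (2 * M + 1) * √(Real.log (2 * M + 1) / 2 + 3 / 2) + √(2 * η) := by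
    intro i
    have b1 : cpsi i * √(a : ℝ) ≤ M / 2 := by
      refine (mul_le_mul_of_nonneg_right (cpsi_le i) (Real.sqrt_nonneg _)).trans ?_
      rw [← Real.sqrt_mul (by norm_num), Real.sqrt_le_iff]
      have : (8 * a : ℝ) ≤ M ^ 2 := by exact_mod_cast ha3
      exact ⟨by positivity, by linarith⟩
    have b2 := vary hσ ht hη (γ := M / 2) (by positivity) hN (chi_cm i a)
      (blk_Bil_mono (lemB i a (hodd a ha1) (Or.inr hsq)) b1)
      (fun σ' h => hL σ' h _ (chi_cm i a)) hM (B := M) (by omega)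
    rw [Real.sqrt_mul_self (by positivity)] at b2
    have b3 : Real.log (2 * M + 1) / 2 + M / (2 * M) + 2 * (M / 2) / (M : ℝ) =
        Real.log (2 * M + 1) / 2 + 3 / 2 := by
      field_simp
      ring
    rwa [b3] at b2
  have h2 : ∑ e ∈ N.divisors, gw σ e * (1 - (e : ℝ) ^ (-t)) * Kf a e ≤
      7 / 4 * (t * Real.log (2 * M + 1) * √(Real.log (2 * M + 1) / 2 + 3 / 2) + √(2 * η)) := by
    have b1 : ∑ e ∈ N.divisors, gw σ e * (1 - (e : ℝ) ^ (-t)) * Kf a e =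
        ∑ i : Fin 4, kk i a * ∑ e ∈ N.divisors, gw σ e * (1 - (e : ℝ) ^ (-t)) * chi i a e := by
      simp only [mul_sum]
      rw [sum_comm]
      refine sum_congr rfl fun e he => ?_
      rw [Kf_symm (hodd a ha1) (hodd e (Nat.dvd_of_mem_divisors he)), Kf, mul_sum]
      exact sum_congr rfl fun i _ => by ring
    rw [b1]
    refine (sum_le_sum fun i _ => mul_le_mul_of_nonneg_left (h1 i) (kk_nonneg i a)).trans ?_
    rw [← sum_mul]
    exact mul_le_mul_of_nonneg_right (sum_kk_le a) (by positivity)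
  have h3 : -∑ e ∈ N.divisors.filter (fun e => ¬ 2 ^ J < e),
      gw σ e * (1 - (e : ℝ) ^ (-t)) * Kf a e ≤
      7 / 4 * t * (Real.log 2 * (10.1 + 0.05 * J * (J + 1))) := by
    refine le_trans ?_ (mul_le_mul_of_nonneg_left (sum_gw_log hJ
      (N.divisors.filter (fun e => ¬ 2 ^ J < e)) fun e he => ?_) (by positivity))
    · rw [← sum_neg_distrib, mul_sum]
      refine sum_le_sum fun e he => ?_
      have he1 : (1 : ℝ) ≤ e := by exact_mod_cast Nat.pos_of_mem_divisors (mem_filter.1 he).1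
      have b1 := maj_one_sub_le (t := t) (m := e) (by linarith)
      have b2 := maj_one_sub_nonneg ht.le he1
      have b3 := gw_pos σ e
      have b4 : gw σ e * (1 - (e : ℝ) ^ (-t)) ≤ gw 1 e * (t * Real.log e) :=
        mul_le_mul (gw_anti hσ.le e) b1 b2 (gw_pos 1 e).le
      have b5 := mul_le_mul_of_nonneg_left (abs_le.1 (abs_Kf_le a e)).1 (mul_nonneg b3.le b2)
      linarith
    · obtain ⟨b1, b2⟩ := mem_filter.1 he
      have b3 := Nat.dvd_of_mem_divisors b1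
      exact ⟨hN.squarefree_of_dvd b3, hodd e b3, not_lt.1 b2⟩
  rw [← sum_filter_add_sum_filter_not N.divisors (fun e => 2 ^ J < e)] at h2
  linarith

theorem t2 {σ t η : ℝ} (hσ : 1 < σ) (ht : 0 < t) (hη : 0 ≤ η) {N : ℕ} (hN : Squarefree N)
    (hNo : Odd N) (hL : ∀ σ' : ℝ, σ ≤ σ' → ∀ χ : ℕ → ℝ, CM χ → |LN σ' N χ - Lf σ' χ| ≤ η)
    {M J : ℕ} (hM : 2048 ≤ M) (hJ : 11 ≤ J)
    (T : Finset ℕ) (hT : ∀ a ∈ T, a ∣ N ∧ 1 < a ∧ 8 * a ≤ M ^ 2) {G0 : ℝ}
    (hG0 : ∑ a ∈ T, gw 1 a ≤ G0) :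
    ∑ e ∈ N.divisors.filter (fun e => 2 ^ J < e),
        gw σ e * (1 - (e : ℝ) ^ (-t)) * ∑ a ∈ T, gw σ a * Kf a e ≤
      7 / 4 * G0 * (t * (Real.log (2 * M + 1) * √(Real.log (2 * M + 1) / 2 + 3 / 2) +
        Real.log 2 * (10.1 + 0.05 * J * (J + 1))) + √(2 * η)) := by
  have hL8 := maj_log_ge hM
  have hl2 := Real.log_pos (show (1 : ℝ) < 2 by norm_num)
  have h1 : ∑ e ∈ N.divisors.filter (fun e => 2 ^ J < e),
      gw σ e * (1 - (e : ℝ) ^ (-t)) * ∑ a ∈ T, gw σ a * Kf a e =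
      ∑ a ∈ T, gw σ a * ∑ e ∈ N.divisors.filter (fun e => 2 ^ J < e),
        gw σ e * (1 - (e : ℝ) ^ (-t)) * Kf a e := by
    simp only [mul_sum]
    rw [sum_comm]
    exact sum_congr rfl fun a _ => sum_congr rfl fun e _ => by ring
  rw [h1]
  refine (sum_le_sum fun a ha => mul_le_mul_of_nonneg_left
    (blk_one hσ ht hη hN hNo hL hM hJ (hT a ha)) (gw_pos σ a).le).trans ?_
  rw [← sum_mul, mul_comm (7 / 4 : ℝ) G0, mul_assoc G0]
  exact mul_le_mul_of_nonneg_right ((sum_le_sum fun a _ => gw_anti hσ.le a).trans hG0)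
    (by positivity)

end Pool.Agent.MP_5d10af_nt

end

-- part MP_5d10af_nt.BlkSum
section

/-!
The sum over the blocks.
-/

set_option autoImplicit false

namespace Pool.Agent.MP_5d10af_nt

open Finset

lemma bs_Ab_cast (l : ℕ) : ((Ab l : ℕ) : ℝ) = 8192 * ((2 : ℝ) ^ l) ^ 6 := by
  unfold Ab
  push_cast
  ring

lemma bs_Ab_mono : Monotone Ab := fun a b h =>
  Nat.pow_le_pow_right (by norm_num) (by omega)

lemma bs_Ew_mono : Monotone Ew := fun a b h =>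
  Nat.pow_le_pow_right (by norm_num) (by omega)

lemma bs_sieve (l : ℕ) (T : Finset ℕ)
    (hT : ∀ e ∈ T, Squarefree e ∧ e % 2 = 1 ∧ Ab l < e ∧ e ≤ Ab (l + 1)) :
    ∑ e ∈ T, gw 1 e ≤ 0.601 ∧
    ∑ e ∈ T, gw 1 e * √(e : ℝ) ≤ 183 * ((2 : ℝ) ^ l) ^ 3 ∧
    ∑ e ∈ T, gw 1 e ^ 2 ≤ 0.0601 / (8192 * ((2 : ℝ) ^ l) ^ 6) := by
  have hx : 1155 ≤ Ab l := le_trans (by unfold Ab; norm_num) (bs_Ab_mono (Nat.zero_le l))
  obtain ⟨h0, h1, h2⟩ := sieve11 hx (bs_Ab_mono (Nat.le_succ l)) T hT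
  have hy : ((Ab (l + 1) : ℕ) : ℝ) = 64 * (8192 * ((2 : ℝ) ^ l) ^ 6) := by
    rw [bs_Ab_cast]; ring
  rw [hy, bs_Ab_cast] at h0 h1 h2
  set q : ℝ := (2 : ℝ) ^ l with hq
  have hq1 : 1 ≤ q := one_le_pow₀ (by norm_num)
  have hq3 : 1 ≤ q ^ 3 := one_le_pow₀ hq1
  have hq6 : 1 ≤ q ^ 6 := one_le_pow₀ hq1
  set x : ℝ := 8192 * q ^ 6 with hxd
  have hx1 : 8192 ≤ x := by linarith
  have hx0 : 0 < x := by linarith
  refine ⟨h0.trans ?_, h1.trans ?_, h2.trans ?_⟩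
  · have e1 : 64 * x / x = 2 ^ 6 := by field_simp; norm_num
    rw [e1, Real.log_pow]
    have e2 := Real.log_two_lt_d9
    have e3 : 8 / x ≤ 8 / 8192 := by gcongr
    push_cast
    linarith
  · have e1 : √(64 * x) = 8 * √x := by
      rw [Real.sqrt_mul (by norm_num), show (64 : ℝ) = 8 ^ 2 by norm_num,
        Real.sqrt_sq (by norm_num)]
    have e2 : √x ≤ 90.51 * q ^ 3 := by
      rw [Real.sqrt_le_iff]
      refine ⟨by positivity, ?_⟩
      have : (90.51 * q ^ 3) ^ 2 = 8192.0601 * q ^ 6 := by ring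
      rw [this, hxd]
      linarith
    have e3 : 90 ≤ √x := by
      rw [Real.le_sqrt (by norm_num) hx0.le]
      linarith
    have e4 : 8 / √x ≤ 8 / 90 := by gcongr
    rw [e1]
    linarith
  · have e1 : 4 / x ^ 2 ≤ 4 / 8192 / x := by
      rw [div_div, sq]
      gcongr
    have e2 : 0.0605 * (1 / x - 1 / (64 * x)) + 4 / 8192 / x =
        (0.0605 * (63 / 64) + 4 / 8192) / x := by
      field_simp
      ring
    have e3 : (0.0605 * (63 / 64) + 4 / 8192) / x ≤ 0.0601 / x := by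
      gcongr
      norm_num
    linarith

lemma bs_r3_num (l : ℕ) :
    √(((1 + 1 / (2 * (1 / (512 * ((2 : ℝ) ^ l) ^ 2)))) ^ (1 / 4 : ℝ) - 1) *
        (1.04 * (2.28 * (0.0601 / (8192 * ((2 : ℝ) ^ l) ^ 6)) /
            (2 * (1 / (512 * ((2 : ℝ) ^ l) ^ 2))) +
          (1.828 * (183 * ((2 : ℝ) ^ l) ^ 3)) ^ 2 /
            (2 * (((2 ^ (26 + 12 * l) : ℕ) : ℝ) - 1))))) ≤ 0.1465 * 0.3 ^ l := by
  have hX : ((2 ^ (26 + 12 * l) : ℕ) : ℝ) = 67108864 * ((2 : ℝ) ^ l) ^ 12 := by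
    push_cast; ring
  have hr : (0.3 : ℝ) ^ l = 1.2 ^ l / ((2 : ℝ) ^ l) ^ 2 := by
    rw [← pow_mul, mul_comm l 2, pow_mul, ← div_pow]
    norm_num
  have hs8 : ((2 : ℝ) ^ l) ^ 2 ≤ ((1.2 : ℝ) ^ l) ^ 8 := by
    rw [← pow_mul, ← pow_mul, mul_comm l 2, mul_comm l 8, pow_mul, pow_mul]
    exact pow_le_pow_left₀ (by norm_num) (by norm_num) l
  rw [hX, hr]
  set q : ℝ := (2 : ℝ) ^ l with hq
  set s : ℝ := (1.2 : ℝ) ^ l with hs
  have hq1 : 1 ≤ q := one_le_pow₀ (by norm_num)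
  have hs1 : 1 ≤ s := one_le_pow₀ (by norm_num)
  have hq0 : 0 < q := by linarith
  have hs0 : 0 < s := by linarith
  have hA : (1 + 1 / (2 * (1 / (512 * q ^ 2)))) ^ (1 / 4 : ℝ) - 1 ≤ 4 * s ^ 2 := by
    have e1 : 1 / (2 * (1 / (512 * q ^ 2))) = 256 * q ^ 2 := by field_simp; norm_num
    rw [e1, sub_le_iff_le_add, show (1 / 4 : ℝ) = ((4 : ℕ) : ℝ)⁻¹ by norm_num,
      Real.rpow_inv_le_iff_of_pos (by positivity) (by positivity) (by norm_num),
      Real.rpow_natCast]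
    have e2 : (4 * s ^ 2 + 1) ^ 4 =
        256 * s ^ 8 + 1 + (256 * s ^ 6 + 96 * s ^ 4 + 16 * s ^ 2) := by ring
    rw [e2]
    have e3 : 0 ≤ 256 * s ^ 6 + 96 * s ^ 4 + 16 * s ^ 2 := by positivity
    linarith
  have hA0 : 0 ≤ (1 + 1 / (2 * (1 / (512 * q ^ 2)))) ^ (1 / 4 : ℝ) - 1 := by
    rw [sub_nonneg]
    exact Real.one_le_rpow (by simp; positivity) (by norm_num)
  have hq12 : 1 ≤ q ^ 12 := one_le_pow₀ hq1
  have hB1 : 2.28 * (0.0601 / (8192 * q ^ 6)) / (2 * (1 / (512 * q ^ 2))) ≤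
      0.004283 / q ^ 4 := by
    have e1 : 2.28 * (0.0601 / (8192 * q ^ 6)) / (2 * (1 / (512 * q ^ 2))) =
        (2.28 * 0.0601 / 32) / q ^ 4 := by
      field_simp
      ring
    rw [e1]
    gcongr
    norm_num
  have hB2 : (1.828 * (183 * q ^ 3)) ^ 2 / (2 * (67108864 * q ^ 12 - 1)) ≤ 0.000835 / q ^ 4 := by
    rw [div_le_div_iff₀ (by linarith) (by positivity)]
    have e1 : (1.828 * (183 * q ^ 3)) ^ 2 * q ^ 4 = (1.828 * 183) ^ 2 * q ^ 10 := by ring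
    have e2 : q ^ 10 ≤ q ^ 12 := pow_le_pow_right₀ hq1 (by norm_num)
    rw [e1]
    nlinarith
  have hB0 : 0 ≤ 1.04 * (2.28 * (0.0601 / (8192 * q ^ 6)) / (2 * (1 / (512 * q ^ 2))) +
      (1.828 * (183 * q ^ 3)) ^ 2 / (2 * (67108864 * q ^ 12 - 1))) := by
    have : 0 < 67108864 * q ^ 12 - 1 := by linarith
    positivity
  have hB : 1.04 * (2.28 * (0.0601 / (8192 * q ^ 6)) / (2 * (1 / (512 * q ^ 2))) +
      (1.828 * (183 * q ^ 3)) ^ 2 / (2 * (67108864 * q ^ 12 - 1))) ≤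
      1.04 * 0.005118 / q ^ 4 := by
    have e1 : 1.04 * 0.005118 / q ^ 4 = 1.04 * (0.004283 / q ^ 4 + 0.000835 / q ^ 4) := by
      field_simp
      ring
    rw [e1]
    linarith
  rw [Real.sqrt_le_iff]
  refine ⟨by positivity, (mul_le_mul hA hB hB0 (by positivity)).trans ?_⟩
  have e1 : 4 * s ^ 2 * (1.04 * 0.005118 / q ^ 4) = (4 * 1.04 * 0.005118) * (s ^ 2 / q ^ 4) := by
    field_simp
  have e2 : (0.1465 * (s / q ^ 2)) ^ 2 = 0.1465 ^ 2 * (s ^ 2 / q ^ 4) := by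
    field_simp
  rw [e1, e2]
  gcongr
  norm_num

lemma bs_poly (l : ℕ) : 55 + 30.5 * (l : ℝ) + 5.5 * (l : ℝ) ^ 2 ≤ 55 * 1.7 ^ l := by
  induction l with
  | zero => norm_num
  | succ n ih =>
    have hn : (0 : ℝ) ≤ n := Nat.cast_nonneg n
    rw [pow_succ (1.7 : ℝ)]
    push_cast
    nlinarith [sq_nonneg (n : ℝ)]

lemma bs_t2_num (l : ℕ) :
    1 / (512 * ((2 : ℝ) ^ l) ^ 2) *
      (Real.log (2 * ((2 ^ (11 + 3 * l) : ℕ) : ℝ) + 1) *
          √(Real.log (2 * ((2 ^ (11 + 3 * l) : ℕ) : ℝ) + 1) / 2 + 3 / 2) +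
        Real.log 2 * (10.1 + 0.05 * ((28 + 12 * l : ℕ) : ℝ) * (((28 + 12 * l : ℕ) : ℝ) + 1))) ≤
      55 / 512 * 0.425 ^ l := by
  have hn : (0 : ℝ) ≤ l := Nat.cast_nonneg l
  have h2 := Real.log_two_lt_d9
  have h2' := Real.log_two_gt_d9
  set M : ℝ := ((2 ^ (11 + 3 * l) : ℕ) : ℝ) with hM
  have hM1 : M = 2 ^ (11 + 3 * l) := by rw [hM]; push_cast; rfl
  have hM2 : 2048 ≤ M := by
    rw [hM1, pow_add]
    have : (1 : ℝ) ≤ 2 ^ (3 * l) := one_le_pow₀ (by norm_num)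
    linarith
  set L : ℝ := Real.log (2 * M + 1) with hL
  have hL0 : 0 ≤ L := Real.log_nonneg (by linarith)
  have hL1 : L ≤ 8.32 + 2.08 * l := by
    have e1 : 2 * M + 1 = 2 ^ (12 + 3 * l) * (1 + 1 / (2 * M)) := by
      have : (2 : ℝ) ^ (12 + 3 * l) = 2 * M := by rw [hM1]; ring
      rw [this]
      field_simp
    have e2 : Real.log (1 + 1 / (2 * M)) ≤ 1 / (2 * M) := by
      have := Real.log_le_sub_one_of_pos (show 0 < 1 + 1 / (2 * M) by positivity)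
      linarith
    have e3 : 1 / (2 * M) ≤ 1 / (2 * 2048) := by gcongr
    rw [hL, e1, Real.log_mul (by positivity) (by positivity), Real.log_pow]
    push_cast
    nlinarith
  have hs : √(L / 2 + 3 / 2) ≤ (L / 2 + 3 / 2 + 6.25) / 5 := by
    rw [Real.sqrt_le_iff]
    refine ⟨by positivity, ?_⟩
    nlinarith [sq_nonneg (L / 2 + 3 / 2 - 6.25)]
  have h3 : L * √(L / 2 + 3 / 2) ≤
      (8.32 + 2.08 * l) * (((8.32 + 2.08 * l) / 2 + 3 / 2 + 6.25) / 5) :=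
    mul_le_mul hL1 (hs.trans (by linarith)) (Real.sqrt_nonneg _) (by positivity)
  have h4 : Real.log 2 * (10.1 + 0.05 * ((28 + 12 * l : ℕ) : ℝ) * (((28 + 12 * l : ℕ) : ℝ) + 1)) ≤
      0.6932 * (10.1 + 0.05 * (28 + 12 * l) * ((28 + 12 * l) + 1)) := by
    push_cast
    exact mul_le_mul_of_nonneg_right (by linarith) (by positivity)
  have h5 : L * √(L / 2 + 3 / 2) +
      Real.log 2 * (10.1 + 0.05 * ((28 + 12 * l : ℕ) : ℝ) * (((28 + 12 * l : ℕ) : ℝ) + 1)) ≤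
      55 * 1.7 ^ l := by
    refine le_trans ?_ (bs_poly l)
    nlinarith [sq_nonneg (l : ℝ)]
  refine (mul_le_mul_of_nonneg_left h5 (by positivity)).trans (le_of_eq ?_)
  have e1 : (0.425 : ℝ) ^ l = 1.7 ^ l / ((2 : ℝ) ^ l) ^ 2 := by
    rw [← pow_mul, mul_comm l 2, pow_mul, ← div_pow]
    norm_num
  rw [e1]
  field_simp

lemma bs_one {σ η : ℝ} (hσ : 1 < σ) (hη : 0 ≤ η) {N : ℕ} (hN : Squarefree N)
    (hNo : Odd N) (hL : ∀ σ' : ℝ, σ ≤ σ' → ∀ χ : ℕ → ℝ, CM χ → |LN σ' N χ - Lf σ' χ| ≤ η)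
    (l : ℕ) :
    blkS σ N l ≤ 0.1465 * 0.3 ^ l + 7 / 4 * 0.601 * (55 / 512 * 0.425 ^ l + √(2 * η)) := by
  set T := N.divisors.filter (fun a => Ab l < a ∧ a ≤ Ab (l + 1)) with hTd
  have hT : ∀ e ∈ T, Squarefree e ∧ e % 2 = 1 ∧ Ab l < e ∧ e ≤ Ab (l + 1) := by
    intro e he
    obtain ⟨h1, h2⟩ := mem_filter.1 he
    have h3 := Nat.dvd_of_mem_divisors h1
    exact ⟨hN.squarefree_of_dvd h3, Nat.odd_iff.1 (hNo.of_dvd_nat h3), h2⟩
  obtain ⟨g0, g1, g2⟩ := bs_sieve l T hT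
  set t : ℝ := 1 / (512 * ((2 : ℝ) ^ l) ^ 2) with htd
  have ht : 0 < t := by positivity
  have hE1 : Ew (2 + 3 * l) = 4 * 2 ^ (26 + 12 * l) := by unfold Ew; ring
  have hE2 : Ew (2 + 3 * l) = 2 ^ (28 + 12 * l) := by unfold Ew; ring
  have a1 := (r3 hσ.le ht hN hNo T (fun a ha => ⟨(hT a ha).1, (hT a ha).2.1⟩) g1 g2
    (X := 2 ^ (26 + 12 * l))
    (le_trans (by norm_num) (Nat.pow_le_pow_right (by norm_num) (Nat.le_add_right 26 _)))).trans
    (bs_r3_num l)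
  have a2 := t2 hσ ht hη hN hNo hL (M := 2 ^ (11 + 3 * l)) (J := 28 + 12 * l)
    (le_trans (by norm_num) (Nat.pow_le_pow_right (by norm_num) (Nat.le_add_right 11 _)))
    (by omega) T (fun a ha => by
      obtain ⟨-, -, h1, h2⟩ := hT a ha
      refine ⟨Nat.dvd_of_mem_divisors (mem_filter.1 ha).1, ?_, ?_⟩
      · have : 1 ≤ Ab l := Nat.one_le_two_pow
        omega
      · have : (2 ^ (11 + 3 * l)) ^ 2 = 8 * Ab (l + 1) := by unfold Ab; ring
        omega) g0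
  have a3 := bs_t2_num l
  rw [← hE1] at a1
  rw [← hE2] at a2
  have a4 : blkS σ N l ≤
      ∑ e ∈ N.divisors.filter (fun e => Ew (2 + 3 * l) < e),
        gw σ e * (e : ℝ) ^ (-t) * |∑ a ∈ T, gw σ a * Kf a e| +
      ∑ e ∈ N.divisors.filter (fun e => Ew (2 + 3 * l) < e),
        gw σ e * (1 - (e : ℝ) ^ (-t)) * ∑ a ∈ T, gw σ a * Kf a e := by
    rw [← sum_add_distrib, blkS]
    refine sum_le_sum fun e _ => ?_
    have b1 := gw_pos σ e
    have b2 : 0 ≤ gw σ e * (e : ℝ) ^ (-t) := by positivity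
    have b3 := mul_le_mul_of_nonneg_left (le_abs_self (∑ a ∈ T, gw σ a * Kf a e)) b2
    linarith
  have a5 := mul_le_mul_of_nonneg_left (add_le_add_left a3 (√(2 * η)))
    (show (0 : ℝ) ≤ 7 / 4 * 0.601 by norm_num)
  linarith

lemma bs_triv {σ : ℝ} (hσ : 1 < σ) {N : ℕ} (hN : Squarefree N) (l : ℕ) :
    blkS σ N l ≤ 7 / 4 * (1 + 1 / (σ - 1)) * ∑ a ∈ Ioc (Ab l) (Ab (l + 1)), (a : ℝ) ^ (-σ) := by
  have hg : ∀ e ∈ N.divisors, gw σ e ≤ (e : ℝ) ^ (-σ) := fun e he =>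
    (gw_le_wt σ e).trans (wt_le_rpow σ (hN.squarefree_of_dvd (Nat.dvd_of_mem_divisors he)))
  set S := ∑ a ∈ Ioc (Ab l) (Ab (l + 1)), (a : ℝ) ^ (-σ) with hS
  have hS0 : 0 ≤ S := sum_nonneg fun a _ => by positivity
  have h1 : ∀ e, ∑ a ∈ N.divisors.filter (fun a => Ab l < a ∧ a ≤ Ab (l + 1)),
      gw σ a * Kf a e ≤ 7 / 4 * S := by
    intro e
    have b1 : ∑ a ∈ N.divisors.filter (fun a => Ab l < a ∧ a ≤ Ab (l + 1)), gw σ a * Kf a e ≤
        ∑ a ∈ N.divisors.filter (fun a => Ab l < a ∧ a ≤ Ab (l + 1)),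
          7 / 4 * (a : ℝ) ^ (-σ) := by
      refine sum_le_sum fun a ha => ?_
      have c1 := hg a (mem_filter.1 ha).1
      have c2 := mul_le_mul_of_nonneg_left (abs_le.1 (abs_Kf_le a e)).2 (gw_pos σ a).le
      linarith
    refine b1.trans ?_
    rw [← mul_sum]
    refine mul_le_mul_of_nonneg_left (sum_le_sum_of_subset_of_nonneg
      (fun a ha => mem_Ioc.2 (mem_filter.1 ha).2) fun a _ _ => by positivity) (by norm_num)
  have h2 : ∑ e ∈ N.divisors.filter (fun e => Ew (2 + 3 * l) < e), gw σ e ≤ 1 / (σ - 1) := by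
    have b1 := sum_rpow_tail hσ (le_refl 1) N
    simp only [Nat.cast_one, Real.one_rpow] at b1
    refine le_trans (sum_le_sum fun e he => hg e (mem_filter.1 he).1) (le_trans
      (sum_le_sum_of_subset_of_nonneg (fun e he => ?_) fun a _ _ => by positivity) b1)
    obtain ⟨c1, c2⟩ := mem_filter.1 he
    have : 1 ≤ Ew (2 + 3 * l) := Nat.one_le_two_pow
    exact mem_Ioc.2 ⟨by omega, Nat.divisor_le c1⟩
  rw [blkS]
  refine (sum_le_sum fun e _ => mul_le_mul_of_nonneg_left (h1 e) (gw_pos σ e).le).trans ?_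
  rw [← sum_mul]
  have h3 := mul_le_mul_of_nonneg_right h2 (show 0 ≤ 7 / 4 * S by positivity)
  nlinarith

lemma bs_consec (f : ℕ → ℝ) (l0 k : ℕ) :
    ∑ l ∈ Ico l0 (l0 + k), ∑ a ∈ Ioc (Ab l) (Ab (l + 1)), f a =
      ∑ a ∈ Ioc (Ab l0) (Ab (l0 + k)), f a := by
  induction k with
  | zero => simp
  | succ k ih =>
    rw [← add_assoc, sum_Ico_succ_top (Nat.le_add_right _ _), ih,
      sum_Ioc_consecutive _ (bs_Ab_mono (Nat.le_add_right _ _)) (bs_Ab_mono (Nat.le_succ _))]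

theorem blkSum : Ev fun σ N => ∀ I : ℕ, ∑ l ∈ range I, blkS σ N l ≤ 0.45 := by
  refine ⟨2, by norm_num, fun σ hσ _ => ?_⟩
  have hk : 0 < σ - 1 := by linarith
  set C : ℝ := 7 / 4 * (1 + 1 / (σ - 1)) with hC
  have hC0 : 0 < C := by positivity
  obtain ⟨l0, hl0⟩ : ∃ l0 : ℕ, C * ((Ab l0 : ℝ) ^ (1 - σ) / (σ - 1)) ≤ 0.01 := by
    have h1 : Filter.Tendsto (fun M : ℕ => (M : ℝ) ^ (-(σ - 1))) Filter.atTop (nhds 0) :=
      (tendsto_rpow_neg_atTop hk).comp tendsto_natCast_atTop_atTop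
    have h2 := h1.eventually (gt_mem_nhds (show 0 < 0.01 * (σ - 1) / C by positivity))
    obtain ⟨M, hM⟩ := Filter.eventually_atTop.1 h2
    refine ⟨M, ?_⟩
    have h3 : M ≤ Ab M := by
      have := @Nat.lt_two_pow_self M
      have h4 : 2 ^ M ≤ Ab M := Nat.pow_le_pow_right (by norm_num) (by omega)
      omega
    have h4 := (hM _ h3).le
    rw [neg_sub, le_div_iff₀ hC0] at h4
    rw [← mul_div_assoc, div_le_iff₀ hk]
    linarith
  set δ : ℝ := 0.005 / (l0 + 1) with hδ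
  have hδ0 : 0 < δ := by positivity
  obtain ⟨P0, hP0⟩ := LN_approx hσ (show 0 < δ ^ 2 / 2 by positivity)
  refine ⟨P0, fun P N hP hG I => ?_⟩
  have hL := hP0 P N hP hG
  have hsq : √(2 * (δ ^ 2 / 2)) = δ := by
    rw [show 2 * (δ ^ 2 / 2) = δ ^ 2 by ring, Real.sqrt_sq hδ0.le]
  have hnear : ∀ n, n ≤ l0 → ∑ l ∈ range n, blkS σ N l ≤ 0.44 := by
    intro n hn
    refine (sum_le_sum fun l _ => bs_one hσ (by positivity) hG.sqf hG.odd hL l).trans ?_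
    rw [hsq, sum_add_distrib, ← mul_sum, ← mul_sum, sum_add_distrib, ← mul_sum, sum_const,
      card_range, nsmul_eq_mul]
    have g1 := sum_le_hasSum (range n) (fun i _ => by positivity)
      (hasSum_geometric_of_lt_one (r := 0.3) (by norm_num) (by norm_num))
    have g2 := sum_le_hasSum (range n) (fun i _ => by positivity)
      (hasSum_geometric_of_lt_one (r := 0.425) (by norm_num) (by norm_num))
    have g3 : (n : ℝ) * δ ≤ 0.005 := by
      rw [hδ, ← mul_div_assoc, div_le_iff₀ (by positivity)]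
      have : (n : ℝ) ≤ l0 := by exact_mod_cast hn
      linarith
    norm_num at g1 g2
    linarith
  rcases le_total I l0 with hI | hI
  · linarith [hnear I hI]
  · obtain ⟨k, rfl⟩ := Nat.exists_eq_add_of_le hI
    rw [← sum_range_add_sum_Ico _ hI]
    have h1 : ∑ l ∈ Ico l0 (l0 + k), blkS σ N l ≤ 0.01 := by
      refine (sum_le_sum fun l _ => bs_triv hσ hG.sqf l).trans ?_
      rw [← mul_sum, bs_consec]
      exact (mul_le_mul_of_nonneg_left
        (sum_rpow_tail hσ (M := Ab l0) Nat.one_le_two_pow _) hC0.le).trans hl0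
    linarith [hnear l0 le_rfl]

lemma bs_tele (a m : ℕ) (c : ℝ) :
    ∑ l ∈ range m, (if Ab l < a ∧ a ≤ Ab (l + 1) then c else 0) =
      if Ab 0 < a ∧ a ≤ Ab m then c else 0 := by
  induction m with
  | zero => simp
  | succ m ih =>
    rw [sum_range_succ, ih]
    have h1 := bs_Ab_mono (Nat.zero_le m)
    have h2 : Ab m ≤ Ab (m + 1) := bs_Ab_mono (Nat.le_succ m)
    split_ifs <;> first | (exfalso; omega) | simp

lemma bs_point {N a e : ℕ} (he : e ≤ N) (c : ℝ) :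
    (if 2 ^ 20 < e then (if 2 ^ 13 < a then c else 0) else 0) =
      ∑ i ∈ range N, (if Ew i < e ∧ e ≤ Ew (i + 1) then
        (if Ab ((i + 1) / 3) < a then c else 0) else 0) +
      ∑ l ∈ range N, (if Ew (2 + 3 * l) < e then
        (if Ab l < a ∧ a ≤ Ab (l + 1) then c else 0) else 0) := by
  have hE0 : Ew 0 = 2 ^ 20 := rfl
  have hA0 : Ab 0 = 2 ^ 13 := rfl
  have hlt : ∀ i, i < Ew i := fun i =>
    lt_of_lt_of_le Nat.lt_two_pow_self (Nat.pow_le_pow_right (by norm_num) (by omega))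
  by_cases h : 2 ^ 20 < e
  · have hex : ∃ i, e ≤ Ew (i + 1) := ⟨e, by have := hlt (e + 1); omega⟩
    set i0 := Nat.find hex with hi0
    have h1 : e ≤ Ew (i0 + 1) := Nat.find_spec hex
    have h2 : Ew i0 < e := by
      rcases Nat.eq_zero_or_pos i0 with h0 | h0
      · rw [h0, hE0]; exact h
      · have := Nat.find_min hex (m := i0 - 1) (by omega)
        rw [show i0 - 1 + 1 = i0 by omega] at this
        omega
    have h3 : i0 < N := by have := hlt i0; omega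
    have h4 : ∀ j, Ew j < e ↔ j ≤ i0 := by
      intro j
      constructor
      · intro hj
        by_contra hc
        have := bs_Ew_mono (show i0 + 1 ≤ j by omega)
        omega
      · intro hj
        have := bs_Ew_mono hj
        omega
    rw [if_pos h, sum_eq_single i0, if_pos (show Ew i0 < e ∧ e ≤ Ew (i0 + 1) from ⟨h2, h1⟩)]
    · have h5 : range ((i0 + 1) / 3) ⊆ range N := range_subset_range.2 (by omega)
      rw [← sum_subset h5]
      · rw [sum_congr rfl (g := fun l => if Ab l < a ∧ a ≤ Ab (l + 1) then c else 0)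
          (fun l hl => if_pos ((h4 _).2 (by have := mem_range.1 hl; omega))), bs_tele, hA0]
        have := bs_Ab_mono (Nat.zero_le ((i0 + 1) / 3))
        rw [hA0] at this
        split_ifs <;> first | (exfalso; omega) | simp
      · intro l _ hl
        rw [if_neg]
        rw [h4]
        have := mt mem_range.2 hl
        omega
    · intro i _ hi
      rw [if_neg]
      rintro ⟨c1, c2⟩
      have c3 := (h4 i).1 c1
      have c4 := mt (h4 (i + 1)).2 (by omega)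
      omega
    · intro hc
      exact absurd (mem_range.2 h3) hc
  · rw [if_neg h, sum_eq_zero, sum_eq_zero, add_zero]
    · intro l _
      have := bs_Ew_mono (Nat.zero_le (2 + 3 * l))
      rw [if_neg (by omega)]
    · intro i _
      have := bs_Ew_mono (Nat.zero_le i)
      rw [if_neg (by omega)]

lemma bs_expand (D : Finset ℕ) (p q : ℕ → Prop) [DecidablePred p] [DecidablePred q]
    (g : ℕ → ℝ) (F : ℕ → ℕ → ℝ) :
    ∑ e ∈ D.filter p, g e * ∑ a ∈ D.filter q, F a e =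
      ∑ e ∈ D, ∑ a ∈ D, (if p e then (if q a then g e * F a e else 0) else 0) := by
  rw [sum_filter]
  refine sum_congr rfl fun e _ => ?_
  split_ifs
  · rw [mul_sum, sum_filter]
  · simp

theorem tailS_eq (σ : ℝ) {N : ℕ} (hN : N ≠ 0) :
    tailS σ N = ∑ i ∈ range N, winS σ N i + ∑ l ∈ range N, blkS σ N l := by
  simp only [tailS, winS, blkS, bs_expand]
  rw [sum_comm (s := range N), sum_comm (s := range N), ← sum_add_distrib]
  refine sum_congr rfl fun e he => ?_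
  rw [sum_comm (s := range N), sum_comm (s := range N), ← sum_add_distrib]
  exact sum_congr rfl fun a _ => bs_point (Nat.divisor_le he) _

end Pool.Agent.MP_5d10af_nt

end

-- part MP_5d10af_nt.Expl
section

/-!
The explicit bound.
-/

set_option autoImplicit false

namespace Pool.Agent.MP_5d10af_nt

theorem expl : Expl := by
  obtain ⟨s1, h1, H1⟩ := head Num.numS_le
  obtain ⟨s2, h2, H2⟩ := winSum
  obtain ⟨s3, h3, H3⟩ := blkSum
  refine ⟨0.05, by norm_num, min s1 (min s2 s3), lt_min h1 (lt_min h2 h3), fun σ hσ hσ' => ?_⟩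
  rw [lt_min_iff, lt_min_iff] at hσ'
  obtain ⟨P1, K1⟩ := H1 σ hσ hσ'.1
  obtain ⟨P2, K2⟩ := H2 σ hσ hσ'.2.1
  obtain ⟨P3, K3⟩ := H3 σ hσ hσ'.2.2
  refine ⟨max P1 (max P2 P3), fun P N hP hG => ?_⟩
  rw [max_le_iff, max_le_iff] at hP
  have a1 := K1 P N hP.1 hG
  have a2 := K2 P N hP.2.1 hG N
  have a3 := K3 P N hP.2.2 hG N
  have a4 := tailS_eq σ (N := N) hG.1.ne_zero
  linarith

end Pool.Agent.MP_5d10af_nt

end
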