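import Pool.Agent.MP_5d10af_nt.Mg.Euler

-- part MP_5d10af_nt.FinalA
section

/-!
Abel summation for a sequence whose partial sums have a power saving error term.
-/

set_option autoImplicit false

namespace Pool.Agent.MP_5d10af_nt

open Finset

lemma rpow_diff_le {x h t : ℝ} (hx : 0 < x) (hh : 0 ≤ h) (ht : 0 ≤ t) :
    x ^ (-t) - (x + h) ^ (-t) ≤ t * h * x ^ (-t - 1) := by
  have h1 : 0 < 1 + h / x := by positivity
  have e1 : x + h = x * (1 + h / x) := by field_simp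
  have e2 : (x + h) ^ (-t) = x ^ (-t) * (1 + h / x) ^ (-t) := by
    rw [e1, Real.mul_rpow hx.le h1.le]
  have e3 : x ^ (-t - 1) = x ^ (-t) / x := by
    rw [Real.rpow_sub hx, Real.rpow_one]
  have h2 : 1 - t * (h / x) ≤ (1 + h / x) ^ (-t) := by
    rw [Real.rpow_def_of_pos h1]
    have h3 : Real.log (1 + h / x) ≤ h / x := by
      have := Real.log_le_sub_one_of_pos h1
      linarith
    have h4 := Real.add_one_le_exp (Real.log (1 + h / x) * -t)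
    nlinarith
  have h5 : 0 < x ^ (-t) := Real.rpow_pos_of_pos hx _
  rw [e2, e3]
  have : x ^ (-t) * (1 - t * (h / x)) ≤ x ^ (-t) * (1 + h / x) ^ (-t) :=
    mul_le_mul_of_nonneg_left h2 h5.le
  have e4 : t * h * (x ^ (-t) / x) = x ^ (-t) * (t * (h / x)) := by ring
  rw [e4]; nlinarith

lemma rpow_diff_nonneg {x h t : ℝ} (hx : 0 < x) (hh : 0 ≤ h) (ht : 0 ≤ t) :
    0 ≤ x ^ (-t) - (x + h) ^ (-t) := by
  have := Real.rpow_le_rpow_of_nonpos hx (by linarith : x ≤ x + h) (by linarith : -t ≤ 0)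
  linarith

lemma sum_Ico_rpow_le {κ : ℝ} (hκ : 1 < κ) (J : ℕ) :
    ∑ n ∈ Ico 1 J, (n : ℝ) ^ (-κ) ≤ 1 + 1 / (κ - 1) := by
  have h := sum_rpow_tail hκ (le_refl 1) J
  have hs : Ico 1 J ⊆ insert 1 (Ioc 1 J) := by
    intro n hn
    simp only [mem_Ico, mem_insert, mem_Ioc] at hn ⊢
    omega
  refine le_trans (sum_le_sum_of_subset_of_nonneg hs fun n _ _ => by positivity) ?_
  rw [sum_insert (by simp)]
  simp only [Nat.cast_one, Real.one_rpow] at h ⊢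
  linarith

lemma sum_Ico_rpow_ge {ε : ℝ} (hε : 0 < ε) (J : ℕ) (hJ : 1 ≤ J) :
    (1 - (J : ℝ) ^ (-ε)) / ε ≤ ∑ n ∈ Ico 1 J, (n : ℝ) ^ (-(1 + ε)) := by
  induction J, hJ using Nat.le_induction with
  | base => simp
  | succ J hJ ih =>
    rw [sum_Ico_succ_top hJ]
    have hJ0 : (0 : ℝ) < J := by exact_mod_cast hJ
    have h := rpow_diff_le hJ0 zero_le_one hε.le
    have e : -ε - 1 = -(1 + ε) := by ring
    rw [e] at h
    have h2 : ((J : ℝ) ^ (-ε) - ((J : ℝ) + 1) ^ (-ε)) / ε ≤ (J : ℝ) ^ (-(1 + ε)) := by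
      rw [div_le_iff₀ hε]; linarith
    push_cast
    have e2 : (1 - ((J : ℝ) + 1) ^ (-ε)) / ε =
        (1 - (J : ℝ) ^ (-ε)) / ε + ((J : ℝ) ^ (-ε) - ((J : ℝ) + 1) ^ (-ε)) / ε := by ring
    linarith

lemma exists_rpow_small {ε : ℝ} (hε : 0 < ε) :
    ∃ J0 : ℕ, 1 ≤ J0 ∧ ∀ x : ℝ, (J0 : ℝ) ≤ x → x ^ (-ε) ≤ ε := by
  have h := (tendsto_rpow_neg_atTop hε).eventually (ge_mem_nhds hε)
  obtain ⟨x0, hx0⟩ := Filter.eventually_atTop.1 h
  refine ⟨⌈x0⌉₊ + 1, by omega, fun x hx => hx0 x ?_⟩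
  have := Nat.le_ceil x0
  push_cast at hx
  linarith

lemma fa_abel_id (E : ℕ → ℝ) (w : ℕ → ℝ) (J : ℕ) (hJ : 1 ≤ J) :
    ∑ n ∈ Ico 1 J, (E (n + 1) - E n) * w n =
      E J * w J - E 1 * w 1 + ∑ n ∈ Ico 1 J, E (n + 1) * (w n - w (n + 1)) := by
  induction J, hJ using Nat.le_induction with
  | base => simp
  | succ J hJ ih =>
    rw [sum_Ico_succ_top hJ, sum_Ico_succ_top hJ, ih]
    ring

/-- The truncated Dirichlet series of a sequence with a power saving. -/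
lemma dirichlet_of_saving (a : ℕ → ℝ) (c δ C : ℝ) (hδ : 0 < δ) (hδ1 : δ ≤ 1)
    (h : ∀ n : ℕ, 1 ≤ n → |∑ m ∈ Ico 1 n, a m - c * n| ≤ C * (n : ℝ) ^ (1 - δ)) :
    ∃ K : ℝ, 0 ≤ K ∧ ∀ ε : ℝ, 0 < ε → ε ≤ 1 → ∃ J0 : ℕ, ∀ J : ℕ, J0 ≤ J →
      |∑ n ∈ Ico 1 J, a n * (n : ℝ) ^ (-(1 + ε)) - c / ε| ≤ K := by
  have hC : 0 ≤ C := by
    have := h 1 le_rfl
    simp only [Nat.cast_one, Real.one_rpow, mul_one] at this
    exact le_trans (abs_nonneg _) this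
  refine ⟨|c| + 2 * C + 4 * C * (1 + 1 / δ), by positivity, fun ε hε hε1 => ?_⟩
  obtain ⟨J0, hJ1, hJ0⟩ := exists_rpow_small hε
  refine ⟨J0, fun J hJ => ?_⟩
  have hJ' : 1 ≤ J := le_trans hJ1 hJ
  set E : ℕ → ℝ := fun n => ∑ m ∈ Ico 1 n, a m - c * n with hE
  set w : ℕ → ℝ := fun n => (n : ℝ) ^ (-(1 + ε)) with hw
  have e1 : ∑ n ∈ Ico 1 J, a n * w n =
      c * ∑ n ∈ Ico 1 J, w n + ∑ n ∈ Ico 1 J, (E (n + 1) - E n) * w n := by
    rw [mul_sum, ← sum_add_distrib]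
    refine sum_congr rfl fun n hn => ?_
    have hn1 : 1 ≤ n := (mem_Ico.1 hn).1
    simp only [hE]
    rw [sum_Ico_succ_top hn1]
    push_cast; ring
  have hz1 : ∑ n ∈ Ico 1 J, w n ≤ 1 + 1 / ε := by
    have := sum_Ico_rpow_le (κ := 1 + ε) (by linarith) J
    rwa [add_sub_cancel_left] at this
  have hz2 : 1 / ε - 1 ≤ ∑ n ∈ Ico 1 J, w n := by
    have h1 := sum_Ico_rpow_ge hε J hJ'
    have h2 := hJ0 J (by exact_mod_cast hJ)
    have h3 : 1 / ε - 1 ≤ (1 - (J : ℝ) ^ (-ε)) / ε := by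
      rw [le_div_iff₀ hε]
      have : (1 / ε - 1) * ε = 1 - ε := by field_simp
      linarith
    exact le_trans h3 h1
  have hz : |c * ∑ n ∈ Ico 1 J, w n - c / ε| ≤ |c| := by
    have : c * ∑ n ∈ Ico 1 J, w n - c / ε = c * (∑ n ∈ Ico 1 J, w n - 1 / ε) := by ring
    rw [this, abs_mul]
    refine mul_le_of_le_one_right (abs_nonneg _) (abs_le.2 ⟨by linarith, by linarith⟩)
  have hEw : ∀ n : ℕ, 1 ≤ n → |E n * w n| ≤ C := by
    intro n hn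
    have hn1 : (1 : ℝ) ≤ n := by exact_mod_cast hn
    have hw0 : 0 ≤ w n := by simp only [hw]; positivity
    rw [abs_mul, abs_of_nonneg hw0]
    refine le_trans (mul_le_mul_of_nonneg_right (h n hn) hw0) ?_
    rw [mul_assoc]
    refine mul_le_of_le_one_right hC ?_
    simp only [hw]
    rw [← Real.rpow_add (by linarith)]
    exact Real.rpow_le_one_of_one_le_of_nonpos hn1 (by linarith)
  have hterm : ∀ n ∈ Ico 1 J, |E (n + 1) * (w n - w (n + 1))| ≤ 4 * C * (n : ℝ) ^ (-(1 + δ)) := by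
    intro n hn
    have hn1 : (1 : ℝ) ≤ n := by exact_mod_cast (mem_Ico.1 hn).1
    have hn0 : (0 : ℝ) < n := by linarith
    have d0 : 0 ≤ w n - w (n + 1) := by
      simp only [hw]; push_cast
      exact rpow_diff_nonneg hn0 zero_le_one (by linarith)
    have d1 : w n - w (n + 1) ≤ 2 * (n : ℝ) ^ (-2 : ℝ) := by
      simp only [hw]; push_cast
      refine le_trans (rpow_diff_le hn0 zero_le_one (by linarith)) ?_
      have : (n : ℝ) ^ (-(1 + ε) - 1) ≤ (n : ℝ) ^ (-2 : ℝ) :=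
        Real.rpow_le_rpow_of_exponent_le hn1 (by linarith)
      have h0 : 0 ≤ (n : ℝ) ^ (-(1 + ε) - 1) := by positivity
      nlinarith
    have d2 : |E (n + 1)| ≤ 2 * C * (n : ℝ) ^ (1 - δ) := by
      refine le_trans (h (n + 1) (by omega)) ?_
      have h1 : (((n + 1 : ℕ) : ℝ)) ^ (1 - δ) ≤ (2 * (n : ℝ)) ^ (1 - δ) :=
        Real.rpow_le_rpow (by positivity) (by push_cast; linarith) (by linarith)
      rw [Real.mul_rpow (by norm_num) hn0.le] at h1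
      have h2 : (2 : ℝ) ^ (1 - δ) ≤ 2 := by
        have := Real.rpow_le_rpow_of_exponent_le (by norm_num : (1 : ℝ) ≤ 2)
          (by linarith : 1 - δ ≤ 1)
        simpa using this
      have h3 : 0 ≤ (n : ℝ) ^ (1 - δ) := by positivity
      have h4 : (((n + 1 : ℕ) : ℝ)) ^ (1 - δ) ≤ 2 * (n : ℝ) ^ (1 - δ) := by nlinarith
      nlinarith
    rw [abs_mul, abs_of_nonneg d0]
    have e : (n : ℝ) ^ (-(1 + δ)) = (n : ℝ) ^ (1 - δ) * (n : ℝ) ^ (-2 : ℝ) := by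
      rw [← Real.rpow_add hn0]; congr 1; ring
    rw [e]
    calc |E (n + 1)| * (w n - w (n + 1))
        ≤ (2 * C * (n : ℝ) ^ (1 - δ)) * (2 * (n : ℝ) ^ (-2 : ℝ)) :=
          mul_le_mul d2 d1 d0 (by positivity)
      _ = _ := by ring
  have hsum : |∑ n ∈ Ico 1 J, E (n + 1) * (w n - w (n + 1))| ≤ 4 * C * (1 + 1 / δ) := by
    refine le_trans (abs_sum_le_sum_abs _ _) (le_trans (sum_le_sum hterm) ?_)
    rw [← mul_sum]
    refine mul_le_mul_of_nonneg_left ?_ (by positivity)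
    have := sum_Ico_rpow_le (κ := 1 + δ) (by linarith) J
    simpa using this
  have e2 := fa_abel_id E w J hJ'
  have a1 := abs_le.1 (hEw J hJ')
  have a2 := abs_le.1 (hEw 1 le_rfl)
  have a3 := abs_le.1 hsum
  have a4 := abs_le.1 hz
  change |∑ n ∈ Ico 1 J, a n * w n - c / ε| ≤ _
  rw [e1, e2]
  exact abs_le.2 ⟨by linarith [a1.1, a2.2, a3.1, a4.1], by linarith [a1.2, a2.1, a3.2, a4.2]⟩

end Pool.Agent.MP_5d10af_nt

end

-- part MP_5d10af_nt.FinalB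
section

/-!
Comparison of `FF` with the truncated Dirichlet series.
-/

set_option autoImplicit false

namespace Pool.Agent.MP_5d10af_nt

open Finset

lemma cnt_one (c₁ c₂ : ℤ) : cnt c₁ c₂ 1 = 1 := by
  unfold cnt
  simp [filter_singleton]

/-- The odd part of the correspondence between odd squarefree numbers and discriminants. -/
def gd (m : ℕ) : ℕ := if m % 4 = 3 then m else 4 * m

/-- The absolute values of the discriminants seen by `N`. -/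
def UN (N : ℕ) : Finset ℕ :=
  ((N.divisors.erase 1).image gd) ∪ (N.divisors.image fun m => 8 * m)

lemma odd_of_dvd {P N m : ℕ} (h : Good P N) (hm : m ∈ N.divisors) : m % 2 = 1 :=
  Nat.odd_iff.1 (h.odd.of_dvd_nat (Nat.dvd_of_mem_divisors hm))

lemma sqf_of_dvd {P N m : ℕ} (h : Good P N) (hm : m ∈ N.divisors) : Squarefree m :=
  h.sqf.squarefree_of_dvd (Nat.dvd_of_mem_divisors hm)

lemma sum_UN {P N : ℕ} (h : Good P N) (f : ℕ → ℝ) :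
    ∑ n ∈ UN N, f n = ∑ m ∈ N.divisors.erase 1, f (gd m) + ∑ m ∈ N.divisors, f (8 * m) := by
  unfold UN
  rw [sum_union, sum_image, sum_image]
  · intro x _ y _ hxy
    simpa using hxy
  · intro x hx y hy hxy
    have h1 := odd_of_dvd h (mem_of_mem_erase hx)
    have h2 := odd_of_dvd h (mem_of_mem_erase hy)
    unfold gd at hxy
    split_ifs at hxy <;> omega
  · rw [disjoint_left]
    intro n h1 h2
    obtain ⟨x, hx, rfl⟩ := mem_image.1 h1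
    obtain ⟨y, _, hy⟩ := mem_image.1 h2
    have h3 := odd_of_dvd h (mem_of_mem_erase hx)
    unfold gd at hy
    split_ifs at hy <;> omega

lemma FF_eq (F : ℤ → ℕ) (hG : Genus F) {P N : ℕ} (h : Good P N) (σ : ℝ) :
    FF σ N = 1 / 4 + ∑ m ∈ N.divisors.erase 1,
        (F (-(gd m : ℕ)) : ℝ) * ((if m % 4 = 3 then 1 else 1 / 4) * (m : ℝ) ^ (-σ)) +
      ∑ m ∈ N.divisors, (F (-(8 * m : ℕ)) : ℝ) * (1 / 8 * (m : ℝ) ^ (-σ)) := by
  have h1 : 1 ∈ N.divisors := Nat.one_mem_divisors.2 h.sqf.ne_zero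
  unfold FF
  simp only [mul_add]
  rw [sum_add_distrib]
  congr 1
  · rw [← add_sum_erase _ _ h1]
    congr 1
    · simp [cnt_one]; norm_num
    · refine sum_congr rfl fun m hm => ?_
      have hm' := mem_of_mem_erase hm
      have hm1 := ne_of_mem_erase hm
      have ho := odd_of_dvd h hm'
      have hs := sqf_of_dvd h hm'
      unfold gd
      split_ifs with h3
      · have := hG.odd m hs h3
        have e : (cnt 1 1 m : ℝ) = 2 * F (-(m : ℤ)) := by exact_mod_cast this.symm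
        rw [e]; ring
      · have := hG.four m hs (by omega) hm1
        have e : (cnt 1 1 m : ℝ) + cnt 2 2 m = 2 * F (-(4 * m : ℕ)) := by
          exact_mod_cast this.symm
        rw [e]; ring
  · refine sum_congr rfl fun m hm => ?_
    have := hG.eight m (sqf_of_dvd h hm) (odd_of_dvd h hm)
    have e : (cnt 1 2 m : ℝ) + cnt 2 1 m = 2 * F (-(8 * m : ℕ)) := by
      exact_mod_cast this.symm
    rw [e]; ring

lemma mul_rpow_cmp {k ε : ℝ} (hk1 : 1 ≤ k) (hk8 : k ≤ 8) (hε : 0 < ε) (hε1 : ε ≤ 1) {x : ℝ}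
    (hx : 0 ≤ x) :
    (k * x) ^ (-(1 + ε)) ≤ 1 / k * x ^ (-(1 + ε)) ∧
      1 / k * x ^ (-(1 + ε)) ≤ (1 + 7 * ε) * (k * x) ^ (-(1 + ε)) := by
  have hk0 : 0 < k := by linarith
  have e : (k * x) ^ (-(1 + ε)) = (k ^ ε)⁻¹ * (1 / k * x ^ (-(1 + ε))) := by
    rw [Real.mul_rpow hk0.le hx, Real.rpow_neg hk0.le, Real.rpow_add hk0, Real.rpow_one]
    field_simp
  have h1 : 1 ≤ k ^ ε := Real.one_le_rpow hk1 hε.le
  have h2 : k ^ ε ≤ 1 + 7 * ε := by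
    have h3 : k ^ ε ≤ (1 + 7 : ℝ) ^ ε := Real.rpow_le_rpow hk0.le (by linarith) hε.le
    have h4 := rpow_one_add_le_one_add_mul_self (s := 7) (by norm_num) hε.le hε1
    linarith
  have h0 : 0 ≤ 1 / k * x ^ (-(1 + ε)) := by positivity
  rw [e]
  constructor
  · exact mul_le_of_le_one_left h0 (inv_le_one_of_one_le₀ h1)
  · rw [← mul_assoc]
    refine le_mul_of_one_le_left h0 ?_
    rw [← div_eq_mul_inv, le_div_iff₀ (by linarith)]
    linarith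

lemma FF_cmp (F : ℤ → ℕ) (hG : Genus F) {P N : ℕ} (h : Good P N) {ε : ℝ} (hε : 0 < ε)
    (hε1 : ε ≤ 1) :
    ∑ n ∈ UN N, (F (-(n : ℤ)) : ℝ) * (n : ℝ) ^ (-(1 + ε)) ≤ FF (1 + ε) N - 1 / 4 ∧
      FF (1 + ε) N - 1 / 4 ≤
        (1 + 7 * ε) * ∑ n ∈ UN N, (F (-(n : ℤ)) : ℝ) * (n : ℝ) ^ (-(1 + ε)) := by
  rw [FF_eq F hG h, sum_UN h]
  have k1 : ∀ m : ℕ, ((gd m : ℕ) : ℝ) ^ (-(1 + ε)) ≤
        (if m % 4 = 3 then 1 else 1 / 4) * (m : ℝ) ^ (-(1 + ε)) ∧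
      (if m % 4 = 3 then 1 else 1 / 4) * (m : ℝ) ^ (-(1 + ε)) ≤
        (1 + 7 * ε) * ((gd m : ℕ) : ℝ) ^ (-(1 + ε)) := by
    intro m
    unfold gd
    split_ifs
    · have := mul_rpow_cmp (k := 1) le_rfl (by norm_num) hε hε1 (Nat.cast_nonneg (α := ℝ) m)
      simpa using this
    · have := mul_rpow_cmp (k := 4) (by norm_num) (by norm_num) hε hε1
        (Nat.cast_nonneg (α := ℝ) m)
      push_cast
      exact this
  have k2 : ∀ m : ℕ, ((8 * m : ℕ) : ℝ) ^ (-(1 + ε)) ≤ 1 / 8 * (m : ℝ) ^ (-(1 + ε)) ∧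
      1 / 8 * (m : ℝ) ^ (-(1 + ε)) ≤ (1 + 7 * ε) * ((8 * m : ℕ) : ℝ) ^ (-(1 + ε)) := by
    intro m
    have := mul_rpow_cmp (k := 8) (by norm_num) (by norm_num) hε hε1
      (Nat.cast_nonneg (α := ℝ) m)
    push_cast
    exact this
  constructor
  · have a1 := sum_le_sum (s := N.divisors.erase 1) fun m _ =>
      mul_le_mul_of_nonneg_left (k1 m).1 (Nat.cast_nonneg (α := ℝ) (F (-(gd m : ℕ))))
    have a2 := sum_le_sum (s := N.divisors) fun m _ =>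
      mul_le_mul_of_nonneg_left (k2 m).1 (Nat.cast_nonneg (α := ℝ) (F (-(8 * m : ℕ))))
    linarith
  · have a1 := sum_le_sum (s := N.divisors.erase 1) fun m _ =>
      mul_le_mul_of_nonneg_left (k1 m).2 (Nat.cast_nonneg (α := ℝ) (F (-(gd m : ℕ))))
    have a2 := sum_le_sum (s := N.divisors) fun m _ =>
      mul_le_mul_of_nonneg_left (k2 m).2 (Nat.cast_nonneg (α := ℝ) (F (-(8 * m : ℕ))))
    rw [mul_add, mul_sum, mul_sum]
    have b1 : ∑ m ∈ N.divisors.erase 1, (F (-(gd m : ℕ)) : ℝ) *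
        ((1 + 7 * ε) * ((gd m : ℕ) : ℝ) ^ (-(1 + ε))) = ∑ m ∈ N.divisors.erase 1,
        (1 + 7 * ε) * ((F (-(gd m : ℕ)) : ℝ) * ((gd m : ℕ) : ℝ) ^ (-(1 + ε))) :=
      sum_congr rfl fun m _ => by ring
    have b2 : ∑ m ∈ N.divisors, (F (-(8 * m : ℕ)) : ℝ) *
        ((1 + 7 * ε) * ((8 * m : ℕ) : ℝ) ^ (-(1 + ε))) = ∑ m ∈ N.divisors,
        (1 + 7 * ε) * ((F (-(8 * m : ℕ)) : ℝ) * ((8 * m : ℕ) : ℝ) ^ (-(1 + ε))) :=
      sum_congr rfl fun m _ => by ring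
    linarith

lemma UN_subset {P N : ℕ} (h : Good P N) {J : ℕ} (hJ : 8 * N < J) : UN N ⊆ Ico 1 J := by
  intro n hn
  have hN := h.sqf.ne_zero
  rcases mem_union.1 hn with h1 | h1
  · obtain ⟨x, hx, rfl⟩ := mem_image.1 h1
    have h2 := Nat.divisor_le (mem_of_mem_erase hx)
    have h3 := odd_of_dvd h (mem_of_mem_erase hx)
    rw [mem_Ico]; unfold gd
    split_ifs <;> omega
  · obtain ⟨x, hx, rfl⟩ := mem_image.1 h1
    have h2 := Nat.divisor_le hx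
    have h3 := odd_of_dvd h hx
    rw [mem_Ico]; omega

lemma mem_UN (F : ℤ → ℕ) (hG : Genus F) {P N : ℕ} (h : Good P N) {n : ℕ} (hn : n ∈ Ico 1 P)
    (h4 : n ≠ 4) (h0 : F (-(n : ℤ)) ≠ 0) : n ∈ UN N := by
  have hN := h.sqf.ne_zero
  rw [mem_Ico] at hn
  by_cases c1 : Squarefree n ∧ n % 4 = 3
  · refine mem_union_left _ (mem_image.2 ⟨n, mem_erase.2 ⟨by omega, ?_⟩, by simp [gd, c1.2]⟩)
    exact Nat.mem_divisors.2 ⟨h.dvd_of_lt c1.1 (by omega) hn.2, hN⟩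
  by_cases c2 : ∃ m : ℕ, Squarefree m ∧ m % 4 = 1 ∧ n = 4 * m
  · obtain ⟨m, hs, hm, rfl⟩ := c2
    refine mem_union_left _ (mem_image.2 ⟨m, mem_erase.2 ⟨by omega, ?_⟩, ?_⟩)
    · exact Nat.mem_divisors.2 ⟨h.dvd_of_lt hs (by omega) (by omega), hN⟩
    · unfold gd; rw [if_neg (by omega)]
  by_cases c3 : ∃ m : ℕ, Squarefree m ∧ m % 2 = 1 ∧ n = 8 * m
  · obtain ⟨m, hs, hm, rfl⟩ := c3
    refine mem_union_right _ (mem_image.2 ⟨m, ?_, rfl⟩)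
    exact Nat.mem_divisors.2 ⟨h.dvd_of_lt hs hm (by omega), hN⟩
  exact absurd (hG.zero n (by omega) c1 (fun m hs hm e => c2 ⟨m, hs, hm, e⟩)
    (fun m hs hm e => c3 ⟨m, hs, hm, e⟩)) h0

lemma sum_UN_ge (F : ℤ → ℕ) (hG : Genus F) {P N : ℕ} (h : Good P N) {ε : ℝ} (hε : 0 < ε) :
    ∑ n ∈ Ico 1 P, (F (-(n : ℤ)) : ℝ) * (n : ℝ) ^ (-(1 + ε)) ≤
      F (-4) + ∑ n ∈ UN N, (F (-(n : ℤ)) : ℝ) * (n : ℝ) ^ (-(1 + ε)) := by
  classical
  set f : ℕ → ℝ := fun n => (F (-(n : ℤ)) : ℝ) * (n : ℝ) ^ (-(1 + ε)) with hf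
  have f0 : ∀ n, 0 ≤ f n := fun n => by simp only [hf]; positivity
  have h1 : ∑ n ∈ Ico 1 P, f n ≤ ∑ n ∈ insert 4 (UN N), f n := by
    rw [← sum_filter_ne_zero]
    refine sum_le_sum_of_subset_of_nonneg (fun n hn => ?_) fun n _ _ => f0 n
    obtain ⟨hn1, hn2⟩ := mem_filter.1 hn
    by_cases h4 : n = 4
    · simp [h4]
    · refine mem_insert_of_mem (mem_UN F hG h hn1 h4 fun e => hn2 ?_)
      simp only [hf]; rw [e]; simp
  have h2 : ∑ n ∈ insert 4 (UN N), f n ≤ f 4 + ∑ n ∈ UN N, f n := by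
    by_cases h4 : 4 ∈ UN N
    · rw [insert_eq_of_mem h4]; linarith [f0 4]
    · rw [sum_insert h4]
  have h3 : f 4 ≤ F (-4) := by
    simp only [hf]
    refine mul_le_of_le_one_right (by positivity) ?_
    exact Real.rpow_le_one_of_one_le_of_nonpos (by norm_num) (by linarith)
  linarith

/-- The main term of `FF`. -/
lemma FF_main (F : ℤ → ℕ) (hG : Genus F) (c δ C : ℝ) (hδ : 0 < δ) (hδ1 : δ ≤ 1)
    (h : ∀ n : ℕ, 1 ≤ n →
      |∑ m ∈ Ico 1 n, (F (-(m : ℤ)) : ℝ) - c * n| ≤ C * (n : ℝ) ^ (1 - δ)) :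
    ∃ K : ℝ, 0 ≤ K ∧ ∀ ε : ℝ, 0 < ε → ε ≤ 1 → ∃ P0 : ℕ, ∀ P N : ℕ, P0 ≤ P → Good P N →
      |FF (1 + ε) N - c / ε| ≤ K := by
  obtain ⟨K, hK, hD⟩ := dirichlet_of_saving (fun m => (F (-(m : ℤ)) : ℝ)) c δ C hδ hδ1 h
  refine ⟨1 + 7 * |c| + 8 * K + F (-4), by positivity, fun ε hε hε1 => ?_⟩
  obtain ⟨J0, hJ0⟩ := hD ε hε hε1
  refine ⟨J0, fun P N hP hN => ?_⟩
  obtain ⟨c1, c2⟩ := FF_cmp F hG hN hε hε1
  have l1 := sum_UN_ge F hG hN hε
  have l2 := (abs_le.1 (hJ0 P hP)).1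
  have u1 := sum_le_sum_of_subset_of_nonneg (UN_subset hN (J := 8 * N + 1 + J0) (by omega))
    (f := fun n : ℕ => (F (-(n : ℤ)) : ℝ) * (n : ℝ) ^ (-(1 + ε))) fun n _ _ => by positivity
  have u2 := (abs_le.1 (hJ0 (8 * N + 1 + J0) (by omega))).2
  have u3 : FF (1 + ε) N - 1 / 4 ≤ (1 + 7 * ε) * (c / ε + K) :=
    le_trans c2 (mul_le_mul_of_nonneg_left (by linarith) (by positivity))
  have e : (1 + 7 * ε) * (c / ε + K) = c / ε + 7 * c + K + 7 * (ε * K) := by field_simp; ring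
  have u4 : ε * K ≤ K := mul_le_of_le_one_left hK hε1
  have u5 := le_abs_self c
  have u6 : (0 : ℝ) ≤ F (-4) := by positivity
  have u7 := abs_nonneg c
  exact abs_le.2 ⟨by linarith, by linarith⟩

end Pool.Agent.MP_5d10af_nt

end

-- part MP_5d10af_nt.FinalC
section

/-!
The size of the products `Y2` and `Yw`.
-/

set_option autoImplicit false

namespace Pool.Agent.MP_5d10af_nt

open Finset

lemma chi0_odd {n : ℕ} (h : n % 2 = 1) : chi 0 1 n = 1 := by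
  simp [chi, psi_zero_odd h]

lemma Lf_chi0 (σ : ℝ) : Lf σ (chi 0 1) = ∑' n : ℕ, ((2 * n + 1 : ℕ) : ℝ) ^ (-σ) := by
  unfold Lf
  exact tsum_congr fun n => by rw [chi0_odd (by omega), mul_one]

lemma Lf0_le {σ : ℝ} (hσ : 1 < σ) : Lf σ (chi 0 1) ≤ 1 + 1 / (2 * (σ - 1)) := by
  rw [Lf_chi0]
  exact Real.tsum_le_of_sum_range_le (fun n => by positivity) (sum_odd_rpow hσ)

lemma one_le_Lf0 {σ : ℝ} (hσ : 1 < σ) : 1 ≤ Lf σ (chi 0 1) := by
  rw [Lf_chi0]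
  have := (summable_odd_rpow hσ).le_tsum 0 fun j _ => by positivity
  simpa using this

lemma sum_odd_ge {ε : ℝ} (hε : 0 < ε) (J : ℕ) :
    (1 - ((2 * J + 1 : ℕ) : ℝ) ^ (-ε)) / (2 * ε) ≤
      ∑ n ∈ range J, ((2 * n + 1 : ℕ) : ℝ) ^ (-(1 + ε)) := by
  induction J with
  | zero => simp
  | succ J ih =>
    rw [sum_range_succ]
    have hJ0 : (0 : ℝ) < ((2 * J + 1 : ℕ) : ℝ) := by positivity
    have h := rpow_diff_le hJ0 (by norm_num : (0 : ℝ) ≤ 2) hε.le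
    have e : -ε - 1 = -(1 + ε) := by ring
    rw [e] at h
    have e1 : ((2 * (J + 1) + 1 : ℕ) : ℝ) = ((2 * J + 1 : ℕ) : ℝ) + 2 := by push_cast; ring
    rw [e1]
    have h2 : (((2 * J + 1 : ℕ) : ℝ) ^ (-ε) - (((2 * J + 1 : ℕ) : ℝ) + 2) ^ (-ε)) / (2 * ε) ≤
        ((2 * J + 1 : ℕ) : ℝ) ^ (-(1 + ε)) := by
      rw [div_le_iff₀ (by positivity)]; linarith
    have e2 : (1 - (((2 * J + 1 : ℕ) : ℝ) + 2) ^ (-ε)) / (2 * ε) =
        (1 - ((2 * J + 1 : ℕ) : ℝ) ^ (-ε)) / (2 * ε) +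
          (((2 * J + 1 : ℕ) : ℝ) ^ (-ε) - (((2 * J + 1 : ℕ) : ℝ) + 2) ^ (-ε)) / (2 * ε) := by
      ring
    linarith

lemma Lf0_ge {ε : ℝ} (hε : 0 < ε) : 1 / (2 * ε) - 1 ≤ Lf (1 + ε) (chi 0 1) := by
  rw [Lf_chi0]
  obtain ⟨J, _, hJ⟩ := exists_rpow_small hε
  have h1 := hJ ((2 * J + 1 : ℕ) : ℝ) (by push_cast; linarith [Nat.cast_nonneg (α := ℝ) J])
  have h2 := sum_odd_ge hε J
  have h3 := (summable_odd_rpow (σ := 1 + ε) (by linarith)).sum_le_tsum (range J)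
    fun j _ => by positivity
  have h4 : 1 / (2 * ε) - 1 ≤ (1 - ((2 * J + 1 : ℕ) : ℝ) ^ (-ε)) / (2 * ε) := by
    rw [le_div_iff₀ (by positivity)]
    have : (1 / (2 * ε) - 1) * (2 * ε) = 1 - 2 * ε := by field_simp
    linarith
  linarith

lemma Lf0_two {t : ℝ} (ht : 0 ≤ t) : |Lf (2 + t) (chi 0 1) - Lf 2 (chi 0 1)| ≤ 4 * t := by
  have s1 := summable_odd_rpow (σ := 2 + t) (by linarith)
  have s2 := summable_odd_rpow (σ := 2) (by norm_num)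
  have s3 := summable_odd_rpow (σ := 3 / 2) (by norm_num)
  have b3 := Lf0_le (σ := 3 / 2) (by norm_num)
  rw [Lf_chi0] at b3
  rw [Lf_chi0, Lf_chi0, abs_sub_comm, ← s2.tsum_sub s1]
  have k : ∀ n : ℕ, 0 ≤ ((2 * n + 1 : ℕ) : ℝ) ^ (-2 : ℝ) - ((2 * n + 1 : ℕ) : ℝ) ^ (-(2 + t)) ∧
      ((2 * n + 1 : ℕ) : ℝ) ^ (-2 : ℝ) - ((2 * n + 1 : ℕ) : ℝ) ^ (-(2 + t)) ≤
        2 * t * ((2 * n + 1 : ℕ) : ℝ) ^ (-(3 / 2) : ℝ) := by
    intro n
    set x : ℝ := ((2 * n + 1 : ℕ) : ℝ) with hx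
    have x1 : 1 ≤ x := by rw [hx]; exact_mod_cast (by omega : 1 ≤ 2 * n + 1)
    have x0 : 0 < x := by linarith
    constructor
    · have := Real.rpow_le_rpow_of_exponent_le x1 (by linarith : -(2 + t) ≤ -2)
      linarith
    · have e1 : x ^ (-(2 + t)) = x ^ (-2 : ℝ) * x ^ (-t) := by
        rw [← Real.rpow_add x0]; congr 1; ring
      have e2 : x ^ (-(3 / 2) : ℝ) = x ^ (-2 : ℝ) * x ^ (1 / 2 : ℝ) := by
        rw [← Real.rpow_add x0]; congr 1; ring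
      have h1 : Real.log x ≤ x ^ (1 / 2 : ℝ) / (1 / 2) :=
        Real.log_le_rpow_div x0.le (by norm_num)
      have h2 : 1 - t * Real.log x ≤ x ^ (-t) := by
        rw [Real.rpow_def_of_pos x0]
        have := Real.add_one_le_exp (Real.log x * -t)
        linarith
      have h3 : 1 - x ^ (-t) ≤ 2 * t * x ^ (1 / 2 : ℝ) := by nlinarith
      have h4 : 0 < x ^ (-2 : ℝ) := by positivity
      rw [e1, e2]
      nlinarith
  rw [abs_of_nonneg (tsum_nonneg fun n => (k n).1)]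
  have h5 := Summable.tsum_le_tsum (fun n => (k n).2) (s2.sub s1) (s3.mul_left (2 * t))
  rw [tsum_mul_left] at h5
  refine le_trans h5 ?_
  norm_num at b3 ⊢
  nlinarith

lemma prime_rpow_lt {σ : ℝ} (hσ : 0 < σ) {N p : ℕ} (hp : p ∈ N.primeFactors) :
    0 < (p : ℝ) ^ (-σ) ∧ (p : ℝ) ^ (-σ) < 1 := by
  have h := (Nat.prime_of_mem_primeFactors hp).one_lt
  have h1 : (1 : ℝ) < p := by exact_mod_cast h
  exact ⟨by positivity, Real.rpow_lt_one_of_one_lt_of_neg h1 (by linarith)⟩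

lemma LN_chi0 (σ : ℝ) {N : ℕ} (hN : Odd N) :
    LN σ N (chi 0 1) = ∏ p ∈ N.primeFactors, (1 - (p : ℝ) ^ (-σ))⁻¹ := by
  unfold LN
  refine prod_congr rfl fun p hp => ?_
  rw [chi0_odd (Nat.odd_iff.1 (hN.of_dvd_nat (Nat.dvd_of_mem_primeFactors hp))), one_mul]

lemma Y2_mul {σ : ℝ} (hσ : 0 < σ) {N : ℕ} (hN : Odd N) :
    Y2 σ N * LN (2 * σ) N (chi 0 1) = LN σ N (chi 0 1) := by
  rw [LN_chi0 _ hN, LN_chi0 _ hN]
  unfold Y2
  rw [← prod_mul_distrib]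
  refine prod_congr rfl fun p hp => ?_
  obtain ⟨h0, h1⟩ := prime_rpow_lt hσ hp
  have e : (p : ℝ) ^ (-(2 * σ)) = ((p : ℝ) ^ (-σ)) ^ 2 := by
    rw [← Real.rpow_natCast, ← Real.rpow_mul (Nat.cast_nonneg p)]
    congr 1; push_cast; ring
  rw [e]
  have h2 : 1 - (p : ℝ) ^ (-σ) ≠ 0 := by linarith
  have h3 : 1 - ((p : ℝ) ^ (-σ)) ^ 2 ≠ 0 := by nlinarith
  field_simp
  ring

lemma Yw_pos (σ : ℝ) (N : ℕ) : 0 < Yw σ N :=
  prod_pos fun p _ => by positivity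

lemma Y2_pos (σ : ℝ) (N : ℕ) : 0 < Y2 σ N :=
  prod_pos fun p _ => by positivity

lemma Y2_le_Yw_sq (σ : ℝ) (N : ℕ) : Y2 σ N ≤ Yw σ N ^ 2 := by
  unfold Y2 Yw
  rw [← prod_pow]
  refine prod_le_prod (fun p _ => by positivity) fun p _ => ?_
  nlinarith [sq_nonneg ((p : ℝ) ^ (-σ))]

lemma Yw_sq_le {σ : ℝ} (hσ : 1 < σ) {N : ℕ} (hN : Odd N) :
    Yw σ N ^ 2 ≤ 1 + 1 / (2 * (σ - 1)) := by
  refine le_trans ?_ (zetaN_le hσ hN)
  unfold Yw
  rw [← prod_pow]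
  refine prod_le_prod (fun p _ => by positivity) fun p hp => ?_
  obtain ⟨h0, h1⟩ := prime_rpow_lt (by linarith : 0 < σ) hp
  rw [← one_div, le_div_iff₀ (by linarith)]
  nlinarith [mul_pos h0 h0, mul_pos h0 (mul_pos h0 h0)]

/-- The main term of `Y2`. -/
lemma Y2_main : ∃ c1 : ℝ, 0 < c1 ∧ ∀ ε : ℝ, 0 < ε → ε ≤ 1 → ∃ P0 : ℕ, ∀ P N : ℕ, P0 ≤ P →
    Good P N → |Y2 (1 + ε) N - c1 / ε| ≤ 16 := by
  have z1 := one_le_Lf0 (σ := 2) (by norm_num)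
  set Z := Lf 2 (chi 0 1) with hZ
  refine ⟨1 / (2 * Z), by positivity, fun ε hε hε1 => ?_⟩
  obtain ⟨P0, hP0⟩ := LN_approx (s := 1 + ε) (η := ε) (by linarith) hε
  refine ⟨P0, fun P N hP hN => ?_⟩
  have a1 := abs_le.1 (hP0 P N hP hN (1 + ε) le_rfl _ (chi_cm 0 1))
  have a2 := abs_le.1 (hP0 P N hP hN (2 * (1 + ε)) (by linarith) _ (chi_cm 0 1))
  have a3 := abs_le.1 (Lf0_two (t := 2 * ε) (by linarith))
  have e : 2 * (1 + ε) = 2 + 2 * ε := by ring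
  have m := Y2_mul (σ := 1 + ε) (by linarith) hN.odd
  rw [e] at a2 m
  have b1 := Lf0_le (σ := 1 + ε) (by linarith)
  have b2 := Lf0_ge hε
  have y0 := Y2_pos (1 + ε) N
  have y1 := le_trans (Y2_le_Yw_sq (1 + ε) N) (Yw_sq_le (σ := 1 + ε) (by linarith) hN.odd)
  rw [add_sub_cancel_left] at b1 y1
  set Y := Y2 (1 + ε) N
  set L1 := LN (1 + ε) N (chi 0 1)
  set L2 := LN (2 + 2 * ε) N (chi 0 1)
  have d1 : |Z - L2| ≤ 9 * ε := abs_le.2 ⟨by linarith [a2.2, a3.2], by linarith [a2.1, a3.1]⟩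
  have d2 : |Y * (Z - L2)| ≤ 14 := by
    rw [abs_mul, abs_of_pos y0]
    have h1 : Y * |Z - L2| ≤ (1 + 1 / (2 * ε)) * (9 * ε) :=
      mul_le_mul y1 d1 (abs_nonneg _) (by positivity)
    have h2 : (1 + 1 / (2 * ε)) * (9 * ε) = 9 * ε + 9 / 2 := by field_simp
    linarith
  have d3 : |Y * Z - 1 / (2 * ε)| ≤ 16 := by
    have h1 := abs_le.1 d2
    have h2 : Y * Z = L1 + Y * (Z - L2) := by rw [← m]; ring
    rw [h2]
    exact abs_le.2 ⟨by linarith [a1.1, h1.1], by linarith [a1.2, h1.2]⟩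
  have e2 : Y - 1 / (2 * Z) / ε = (Y * Z - 1 / (2 * ε)) / Z := by field_simp
  rw [e2, abs_div, abs_of_pos (by linarith : 0 < Z), div_le_iff₀ (by linarith)]
  linarith

end Pool.Agent.MP_5d10af_nt

end

-- part MP_5d10af_nt.Final
section

/-!
From the behaviour of the Dirichlet series to the absence of a power saving.
-/

set_option autoImplicit false

namespace Pool.Agent.MP_5d10af_nt

open Finset

lemma sum_Ioo_neg (f : ℤ → ℝ) (n : ℕ) :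
    ∑ d ∈ Finset.Ioo (-(n : ℤ)) 0, f d = ∑ m ∈ Ico 1 n, f (-(m : ℤ)) := by
  symm
  refine sum_bij (fun m _ => -(m : ℤ)) (fun m hm => ?_) (fun x _ y _ h => ?_)
    (fun d hd => ?_) fun _ _ => rfl
  · rw [mem_Ico] at hm; rw [mem_Ioo]; omega
  · omega
  · rw [mem_Ioo] at hd
    exact ⟨d.natAbs, by rw [mem_Ico]; omega, by omega⟩

/-- The numerical contradiction. -/
lemma final_num {κ K Q η c1 : ℝ} (hK : 0 ≤ K) (hQ : 0 ≤ Q) (hη : 0 < η) (hc : 0 < c1) :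
    ∃ v0 : ℝ, ∀ v : ℝ, v0 ≤ v → 1 ≤ v → ∀ Y r : ℝ, 0 < Y → Y ^ 2 ≤ 1 + v ^ 16 / 2 →
      c1 * v ^ 16 - 16 ≤ Y ^ 2 → |r| ≤ Q * v ^ 3 → r ≤ -η →
      |κ * v ^ 16 - Y * r| ≤ K + Q * v ^ 6 → False := by
  rcases le_or_gt 0 κ with hκ | hκ
  · refine ⟨((K + Q) ^ 2 + 16 * η ^ 2) / (η ^ 2 * c1) + 1,
      fun v hv hv1 Y r hY _ h2 _ h4 h5 => ?_⟩
    have v0 : 0 < v := by linarith
    have p6 : 1 ≤ v ^ 6 := one_le_pow₀ hv1
    have p12 : 1 ≤ v ^ 12 := one_le_pow₀ hv1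
    have a1 : η * Y ≤ (K + Q) * v ^ 6 := by
      have h6 := (abs_le.1 h5).2
      have h7 : 0 ≤ κ * v ^ 16 := by positivity
      have h8 : Y * r ≤ Y * -η := mul_le_mul_of_nonneg_left h4 hY.le
      nlinarith
    have a2 : (η * Y) ^ 2 ≤ ((K + Q) * v ^ 6) ^ 2 := pow_le_pow_left₀ (by positivity) a1 2
    have a3 : η ^ 2 * (c1 * v ^ 16 - 16) ≤ η ^ 2 * Y ^ 2 :=
      mul_le_mul_of_nonneg_left h2 (by positivity)
    have a4 : (η ^ 2 * c1 * v ^ 4) * v ^ 12 ≤ ((K + Q) ^ 2 + 16 * η ^ 2) * v ^ 12 := by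
      have : 16 * η ^ 2 * 1 ≤ 16 * η ^ 2 * v ^ 12 :=
        mul_le_mul_of_nonneg_left p12 (by positivity)
      nlinarith
    have a5 := le_of_mul_le_mul_right a4 (by positivity)
    have a6 : v ≤ v ^ 4 := le_self_pow₀ hv1 (by norm_num)
    have a7 : ((K + Q) ^ 2 + 16 * η ^ 2) / (η ^ 2 * c1) < v := by linarith
    rw [div_lt_iff₀ (by positivity)] at a7
    have a8 : η ^ 2 * c1 * v ≤ η ^ 2 * c1 * v ^ 4 := mul_le_mul_of_nonneg_left a6 (by positivity)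
    nlinarith
  · refine ⟨(3 * Q + K) / (-κ) + 1, fun v hv hv1 Y r hY h1 _ h3 _ h5 => ?_⟩
    have v0 : 0 < v := by linarith
    have p16 : 1 ≤ v ^ 16 := one_le_pow₀ hv1
    have p11 : 1 ≤ v ^ 11 := one_le_pow₀ hv1
    have p6 : v ^ 6 ≤ v ^ 11 := pow_le_pow_right₀ hv1 (by norm_num)
    have a1 : Y ≤ 2 * v ^ 8 := by
      refine (pow_le_pow_iff_left₀ hY.le (by positivity) two_ne_zero).1 ?_
      nlinarith
    have a2 : |Y * r| ≤ 2 * v ^ 8 * (Q * v ^ 3) := by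
      rw [abs_mul, abs_of_pos hY]
      exact mul_le_mul a1 h3 (abs_nonneg _) (by positivity)
    have a3 : (-κ * v ^ 5) * v ^ 11 ≤ (3 * Q + K) * v ^ 11 := by
      have h6 := (abs_le.1 h5).1
      have h7 := (abs_le.1 a2).1
      have h8 : Q * v ^ 6 ≤ Q * v ^ 11 := mul_le_mul_of_nonneg_left p6 hQ
      have h9 : K * 1 ≤ K * v ^ 11 := mul_le_mul_of_nonneg_left p11 hK
      nlinarith
    have a4 := le_of_mul_le_mul_right a3 (by positivity)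
    have a5 : v ≤ v ^ 5 := le_self_pow₀ hv1 (by norm_num)
    have a6 : (3 * Q + K) / (-κ) < v := by linarith
    rw [div_lt_iff₀ (by linarith)] at a6
    have a7 : -κ * v ≤ -κ * v ^ 5 := mul_le_mul_of_nonneg_left a5 (by linarith)
    nlinarith

lemma eps_rpow {v : ℝ} (hv : 0 < v) (k : ℕ) (t : ℝ) (ht : t = -((k : ℝ) / 16)) :
    (1 + (v ^ 16)⁻¹ - 1) ^ t = v ^ k := by
  rw [add_sub_cancel_left, ht, Real.rpow_neg (by positivity), Real.inv_rpow (by positivity),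
    inv_inv, ← Real.rpow_natCast v 16, ← Real.rpow_mul hv.le, ← Real.rpow_natCast]
  congr 1
  push_cast; ring

theorem final (F : ℤ → ℕ) (hG : Genus F) (hq : QualB) (he : Expl) (c δ C : ℝ) (hδ : 0 < δ) :
    ∃ X : ℝ, 2 ≤ X ∧
      C * X ^ (1 - δ) < |(∑ d ∈ Finset.Ioo (-⌈X⌉) 0, (F d : ℝ)) - c * X| := by
  by_contra hcon
  push Not at hcon
  have hsav : ∀ n : ℕ, 1 ≤ n → |∑ m ∈ Ico 1 n, (F (-(m : ℤ)) : ℝ) - c * n| ≤
      (|C| + |c|) * (n : ℝ) ^ (1 - min δ 1) := by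
    intro n hn
    rcases Nat.eq_or_lt_of_le hn with rfl | hn2
    · simp
    · have h1 : (2 : ℝ) ≤ n := by exact_mod_cast hn2
      have h2 := hcon n h1
      rw [Int.ceil_natCast, sum_Ioo_neg (fun d => (F d : ℝ))] at h2
      refine le_trans h2 ?_
      have h3 : (n : ℝ) ^ (1 - δ) ≤ (n : ℝ) ^ (1 - min δ 1) :=
        Real.rpow_le_rpow_of_exponent_le (by linarith) (by linarith [min_le_left δ 1])
      exact mul_le_mul (by linarith [le_abs_self C, abs_nonneg c]) h3 (by positivity)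
        (by positivity)
  obtain ⟨K, hK, hF⟩ := FF_main F hG c (min δ 1) (|C| + |c|) (lt_min hδ one_pos)
    (min_le_right _ _) hsav
  obtain ⟨c1, hc1, hY⟩ := Y2_main
  obtain ⟨Q, hQ⟩ := hq
  obtain ⟨η, hη, σ0, hσ0, hE⟩ := he
  obtain ⟨v0, hv0⟩ := final_num (κ := c - 3 / 2 * c1) (K := K + 24) (Q := |Q|) (η := η)
    (by positivity) (abs_nonneg Q) hη hc1
  obtain ⟨v, hv1, hv2, hv3⟩ : ∃ v : ℝ, v0 ≤ v ∧ 1 ≤ v ∧ 1 / (σ0 - 1) < v :=
    ⟨max v0 (max 1 (1 / (σ0 - 1) + 1)), le_max_left _ _,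
      le_trans (le_max_left _ _) (le_max_right _ _),
      lt_of_lt_of_le (by linarith) (le_trans (le_max_right _ _) (le_max_right _ _))⟩
  have v0' : 0 < v := by linarith
  have p16 : v ≤ v ^ 16 := le_self_pow₀ hv2 (by norm_num)
  have hε : 0 < (v ^ 16)⁻¹ := by positivity
  have hε1 : (v ^ 16)⁻¹ ≤ 1 := inv_le_one_of_one_le₀ (by linarith)
  have hε2 : 1 + (v ^ 16)⁻¹ < σ0 := by
    have h1 : (v ^ 16)⁻¹ < σ0 - 1 := by
      rw [inv_lt_comm₀ (by positivity) (by linarith), ← one_div]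
      linarith
    linarith
  obtain ⟨P1, hP1⟩ := hF _ hε hε1
  obtain ⟨P2, hP2⟩ := hY _ hε hε1
  obtain ⟨P3, hP3⟩ := hQ (1 + (v ^ 16)⁻¹) (by linarith) (by linarith)
  obtain ⟨P4, hP4⟩ := hE (1 + (v ^ 16)⁻¹) (by linarith) hε2
  obtain ⟨N, hN⟩ := exists_good (P1 + P2 + P3 + P4)
  have b1 := abs_le.1 (hP1 _ N (by omega) hN)
  have b2 := abs_le.1 (hP2 _ N (by omega) hN)
  obtain ⟨b3, b4⟩ := hP3 _ N (by omega) hN
  have b5 := hP4 _ N (by omega) hN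
  rw [eps_rpow v0' 6 _ (by norm_num)] at b3
  rw [eps_rpow v0' 3 _ (by norm_num)] at b4
  rw [div_inv_eq_mul] at b1 b2
  have b6 := Yw_sq_le (σ := 1 + (v ^ 16)⁻¹) (by linarith) hN.odd
  have b7 := Y2_le_Yw_sq (1 + (v ^ 16)⁻¹) N
  have e : 1 / (2 * (1 + (v ^ 16)⁻¹ - 1)) = v ^ 16 / 2 := by
    rw [add_sub_cancel_left]; field_simp
  rw [e] at b6
  have q3 : Q * v ^ 3 ≤ |Q| * v ^ 3 := mul_le_mul_of_nonneg_right (le_abs_self Q) (by positivity)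
  have q6 : Q * v ^ 6 ≤ |Q| * v ^ 6 := mul_le_mul_of_nonneg_right (le_abs_self Q) (by positivity)
  have b8 := abs_le.1 b3
  refine hv0 v hv1 hv2 _ _ (Yw_pos _ N) b6 (by linarith [b2.1]) (le_trans b4 q3) b5 ?_
  exact abs_le.2 ⟨by linarith [b1.1, b1.2, b2.1, b2.2, b8.1, b8.2],
    by linarith [b1.1, b1.2, b2.1, b2.2, b8.1, b8.2]⟩

end Pool.Agent.MP_5d10af_nt

end
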