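import Pool.Agent.MP_5d10af_nt.Mg.Final

-- part MP_5d10af_nt.H69.Abel
section

/-! One-sided Abel summation with an error of size `n / √(log n)`. -/

set_option autoImplicit false

namespace Pool.Agent.MP_5d10af_nt.H69

open Finset Real

lemma Lf_two : Lf 2 (chi 0 1) = π ^ 2 / 8 := by
  rw [Lf_chi0]
  have h := hasSum_zeta_two
  have he : HasSum (fun k : ℕ => (1 : ℝ) / ((2 * k : ℕ) : ℝ) ^ 2) (π ^ 2 / 6 / 4) := by
    have e : (fun k : ℕ => (1 : ℝ) / ((2 * k : ℕ) : ℝ) ^ 2) =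
        fun k : ℕ => (1 : ℝ) / (k : ℝ) ^ 2 / 4 := by
      funext k; push_cast; ring
    rw [e]; exact h.div_const 4
  have ho : Summable (fun k : ℕ => (1 : ℝ) / ((2 * k + 1 : ℕ) : ℝ) ^ 2) :=
    h.summable.comp_injective (fun a b hab => by simpa using hab)
  have h2 := (HasSum.even_add_odd (f := fun n : ℕ => (1 : ℝ) / (n : ℝ) ^ 2) he ho.hasSum).unique h
  have h3 : ∑' n : ℕ, ((2 * n + 1 : ℕ) : ℝ) ^ (-2 : ℝ) =
      ∑' k : ℕ, (1 : ℝ) / ((2 * k + 1 : ℕ) : ℝ) ^ 2 :=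
    tsum_congr fun n => by rw [Real.rpow_neg (by positivity), one_div]; norm_cast
  rw [h3]; linarith

lemma Y2_expl (ε : ℝ) (hε : 0 < ε) (hε1 : ε ≤ 1) : ∃ P0 : ℕ, ∀ P N : ℕ, P0 ≤ P →
    Good P N → |Y2 (1 + ε) N - 4 / π ^ 2 / ε| ≤ 16 := by
  have hc : 4 / π ^ 2 = 1 / (2 * Lf 2 (chi 0 1)) := by
    rw [Lf_two]; field_simp; norm_num
  rw [hc]
  have z1 := one_le_Lf0 (σ := 2) (by norm_num)
  set Z := Lf 2 (chi 0 1) with hZ
  obtain ⟨P0, hP0⟩ := LN_approx (s := 1 + ε) (η := ε) (by linarith) hε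
  refine ⟨P0, fun P N hP hN => ?_⟩
  have a1 := abs_le.1 (hP0 P N hP hN (1 + ε) le_rfl _ (chi_cm 0 1))
  have a2 := abs_le.1 (hP0 P N hP hN (2 * (1 + ε)) (by linarith) _ (chi_cm 0 1))
  have a3 := abs_le.1 (Lf0_two (t := 2 * ε) (by linarith))
  have e : 2 * (1 + ε) = 2 + 2 * ε := by ring
  have m := Y2_mul (σ := 1 + ε) (by linarith) hN.odd
  rw [e] at a2 m
  have b1 := Lf0_le (σ := 1 + ε) (by linarith)
  have b2 := Lf0_ge hε
  have y0 := Y2_pos (1 + ε) N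
  have y1 := le_trans (Y2_le_Yw_sq (1 + ε) N) (Yw_sq_le (σ := 1 + ε) (by linarith) hN.odd)
  rw [add_sub_cancel_left] at b1 y1
  set Y := Y2 (1 + ε) N
  set L1 := LN (1 + ε) N (chi 0 1)
  set L2 := LN (2 + 2 * ε) N (chi 0 1)
  have d1 : |Z - L2| ≤ 9 * ε := abs_le.2 ⟨by linarith [a2.2, a3.2], by linarith [a2.1, a3.1]⟩
  have d2 : |Y * (Z - L2)| ≤ 14 := by
    rw [abs_mul, abs_of_pos y0]
    have h1 : Y * |Z - L2| ≤ (1 + 1 / (2 * ε)) * (9 * ε) :=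
      mul_le_mul y1 d1 (abs_nonneg _) (by positivity)
    have h2 : (1 + 1 / (2 * ε)) * (9 * ε) = 9 * ε + 9 / 2 := by field_simp
    linarith
  have d3 : |Y * Z - 1 / (2 * ε)| ≤ 16 := by
    have h1 := abs_le.1 d2
    have h2 : Y * Z = L1 + Y * (Z - L2) := by rw [← m]; ring
    rw [h2]
    exact abs_le.2 ⟨by linarith [a1.1, h1.1], by linarith [a1.2, h1.2]⟩
  have e2 : Y - 1 / (2 * Z) / ε = (Y * Z - 1 / (2 * ε)) / Z := by field_simp
  rw [e2, abs_div, abs_of_pos (by linarith : 0 < Z), div_le_iff₀ (by linarith)]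
  linarith

lemma log_step {x : ℝ} (hx : 1 ≤ x) :
    1 / x / √(log (x + 1)) ≤ 4 * (√(log (x + 1)) - √(log x)) := by
  have l0 : 0 ≤ log x := log_nonneg hx
  have l1 : 0 < log (x + 1) := log_pos (by linarith)
  have s1 : 0 < √(log (x + 1)) := sqrt_pos.2 l1
  have s0 : 0 ≤ √(log x) := sqrt_nonneg _
  have hle : √(log x) ≤ √(log (x + 1)) := sqrt_le_sqrt (log_le_log (by linarith) (by linarith))
  have h1 : 1 / (x + 1) ≤ log (x + 1) - log x := by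
    have := log_le_sub_one_of_pos (show 0 < x / (x + 1) by positivity)
    rw [log_div (by positivity) (by positivity)] at this
    have e : x / (x + 1) - 1 = -(1 / (x + 1)) := by field_simp; ring
    linarith
  have h2 : 1 / x ≤ 2 * (1 / (x + 1)) := by
    rw [mul_one_div, div_le_div_iff₀ (by positivity) (by positivity)]; linarith
  rw [div_le_iff₀ s1]
  have q1 := sq_sqrt l1.le
  have q0 := sq_sqrt l0
  nlinarith [sq_nonneg (√(log (x + 1)) - √(log x))]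

lemma sum_log_le {ε : ℝ} (hε : 0 < ε) (hε1 : ε ≤ 1) (J : ℕ) :
    ∑ n ∈ Ico 1 J, (n : ℝ) ^ (-(1 + ε)) / √(log ((n : ℝ) + 1)) ≤ 6 / √ε := by
  have se : 0 < √ε := sqrt_pos.2 hε
  have see : √ε * √ε = ε := mul_self_sqrt hε.le
  set G : ℕ → ℝ := fun n => min √(log n) (1 / √ε) with hG
  have key : ∀ n ∈ Ico 1 J, (n : ℝ) ^ (-(1 + ε)) / √(log ((n : ℝ) + 1)) ≤
      √ε * (n : ℝ) ^ (-(1 + ε)) + 4 * (G (n + 1) - G n) := by
    intro n hn
    have n1 : (1 : ℝ) ≤ n := by exact_mod_cast (mem_Ico.1 hn).1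
    have w0 : 0 ≤ (n : ℝ) ^ (-(1 + ε)) := by positivity
    have hle : √(log n) ≤ √(log ((n : ℝ) + 1)) :=
      sqrt_le_sqrt (log_le_log (by linarith) (by linarith))
    have s1 : 0 < √(log ((n : ℝ) + 1)) := sqrt_pos.2 (log_pos (by linarith))
    simp only [hG]
    push_cast
    rcases le_total √(log ((n : ℝ) + 1)) (1 / √ε) with h | h
    · rw [min_eq_left h, min_eq_left (hle.trans h)]
      have h1 : (n : ℝ) ^ (-(1 + ε)) ≤ 1 / n := by
        rw [one_div, ← rpow_neg_one]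
        exact rpow_le_rpow_of_exponent_le n1 (by linarith)
      have h2 := (div_le_div_of_nonneg_right h1 s1.le).trans (log_step n1)
      have : 0 ≤ √ε * (n : ℝ) ^ (-(1 + ε)) := by positivity
      linarith
    · have h1 : min √(log n) (1 / √ε) ≤ min √(log ((n : ℝ) + 1)) (1 / √ε) :=
        min_le_min_right _ hle
      have h2 : (n : ℝ) ^ (-(1 + ε)) / √(log ((n : ℝ) + 1)) ≤ √ε * (n : ℝ) ^ (-(1 + ε)) := by
        rw [div_le_iff₀ s1]
        rw [div_le_iff₀ se] at h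
        nlinarith
      linarith
  refine (sum_le_sum key).trans ?_
  rw [sum_add_distrib, ← mul_sum, ← mul_sum]
  have h1 := sum_Ico_rpow_le (κ := 1 + ε) (by linarith) J
  rw [add_sub_cancel_left] at h1
  have h2 : ∑ n ∈ Ico 1 J, (G (n + 1) - G n) ≤ 1 / √ε := by
    rcases Nat.eq_zero_or_pos J with rfl | hJ
    · simp
    · rw [sum_Ico_sub G hJ]
      have : 0 ≤ G 1 := le_min (sqrt_nonneg _) (by positivity)
      have : G J ≤ 1 / √ε := min_le_right _ _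
      linarith
  have h3 : √ε * (1 + 1 / ε) ≤ 2 * (1 / √ε) := by
    have e : √ε * (1 + 1 / ε) = (ε + 1) * (1 / √ε) := by
      field_simp; rw [sq_sqrt hε.le]
    rw [e]; exact mul_le_mul_of_nonneg_right (by linarith) (by positivity)
  have h4 := mul_le_mul_of_nonneg_left h1 se.le
  have e : 6 / √ε = 6 * (1 / √ε) := by ring
  linarith

lemma dirichlet_lower (a : ℕ → ℝ) (c η : ℝ) (hη : 0 ≤ η) (n0 : ℕ)
    (h : ∀ n : ℕ, n0 ≤ n → -(η * n / √(log n)) ≤ ∑ m ∈ Ico 1 n, a m - c * n) :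
    ∃ K : ℝ, 0 ≤ K ∧ ∀ ε : ℝ, 0 < ε → ε ≤ 1 → ∃ J0 : ℕ, ∀ J : ℕ, J0 ≤ J →
      c / ε - K - 24 * η / √ε ≤ ∑ n ∈ Ico 1 J, a n * (n : ℝ) ^ (-(1 + ε)) := by
  set E : ℕ → ℝ := fun n => ∑ m ∈ Ico 1 n, a m - c * n with hE
  obtain ⟨C, hC, hEC⟩ : ∃ C : ℝ, 0 ≤ C ∧ ∀ n : ℕ, -(C + η * n / √(log n)) ≤ E n := by
    refine ⟨∑ n ∈ range n0, |E n|, sum_nonneg fun _ _ => abs_nonneg _, fun n => ?_⟩
    have h0 : 0 ≤ ∑ n ∈ range n0, |E n| := sum_nonneg fun _ _ => abs_nonneg _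
    rcases le_or_gt n0 n with hn | hn
    · have := h n hn
      simp only [hE] at h0 ⊢
      linarith
    · have h1 := single_le_sum (f := fun n => |E n|) (fun _ _ => abs_nonneg _) (mem_range.2 hn)
      have h2 : 0 ≤ η * n / √(log n) := by positivity
      have := neg_abs_le (E n)
      linarith
  refine ⟨2 * |c| + 2 * C + 2 * η, by positivity, fun ε hε hε1 => ?_⟩
  obtain ⟨J0, hJ1, hJ0⟩ := exists_rpow_small hε
  refine ⟨J0 + 3, fun J hJ => ?_⟩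
  have hJ' : 1 ≤ J := by omega
  set w : ℕ → ℝ := fun n => (n : ℝ) ^ (-(1 + ε)) with hw
  have e1 : ∑ n ∈ Ico 1 J, a n * w n =
      c * ∑ n ∈ Ico 1 J, w n + ∑ n ∈ Ico 1 J, (E (n + 1) - E n) * w n := by
    rw [mul_sum, ← sum_add_distrib]
    refine sum_congr rfl fun n hn => ?_
    have hn1 : 1 ≤ n := (mem_Ico.1 hn).1
    simp only [hE]
    rw [sum_Ico_succ_top hn1]
    push_cast; ring
  have hz1 : ∑ n ∈ Ico 1 J, w n ≤ 1 + 1 / ε := by
    have := sum_Ico_rpow_le (κ := 1 + ε) (by linarith) J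
    rwa [add_sub_cancel_left] at this
  have hz2 : 1 / ε - 1 ≤ ∑ n ∈ Ico 1 J, w n := by
    have h1 := sum_Ico_rpow_ge hε J hJ'
    have h2 := hJ0 J (by exact_mod_cast (by omega : J0 ≤ J))
    have h3 : 1 / ε - 1 ≤ (1 - (J : ℝ) ^ (-ε)) / ε := by
      rw [le_div_iff₀ hε]
      have : (1 / ε - 1) * ε = 1 - ε := by field_simp
      linarith
    exact le_trans h3 h1
  have hz : |c * ∑ n ∈ Ico 1 J, w n - c / ε| ≤ |c| := by
    have : c * ∑ n ∈ Ico 1 J, w n - c / ε = c * (∑ n ∈ Ico 1 J, w n - 1 / ε) := by ring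
    rw [this, abs_mul]
    refine mul_le_of_le_one_right (abs_nonneg _) (abs_le.2 ⟨by linarith, by linarith⟩)
  have hEJ : -(C + 2 * η) ≤ E J * w J := by
    have J3 : (3 : ℝ) ≤ J := by exact_mod_cast (by omega : 3 ≤ J)
    have w0 : 0 ≤ w J := by simp only [hw]; positivity
    have w1 : w J ≤ 1 / J := by
      simp only [hw]
      rw [one_div, ← rpow_neg_one]
      exact rpow_le_rpow_of_exponent_le (by linarith) (by linarith)
    have l1 : 1 ≤ √(log J) := by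
      rw [one_le_sqrt, le_log_iff_exp_le (by linarith)]
      linarith [exp_one_lt_d9]
    have h1 : η * J / √(log J) ≤ η * J := div_le_self (by positivity) l1
    have h2 : -(C + η * J) * w J ≤ E J * w J :=
      mul_le_mul_of_nonneg_right (by linarith [hEC J]) w0
    have h3 : (C + η * J) * w J ≤ (C + η * J) * (1 / J) :=
      mul_le_mul_of_nonneg_left w1 (by positivity)
    have h4 : (C + η * J) * (1 / J) = C / J + η := by field_simp
    have h5 : C / J ≤ C := div_le_self hC (by linarith)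
    linarith
  have hE1 : E 1 * w 1 = -c := by simp [hE, hw]
  have hterm : ∀ n ∈ Ico 1 J, -(C * (w n - w (n + 1)) + 4 * η * (w n / √(log ((n : ℝ) + 1)))) ≤
      E (n + 1) * (w n - w (n + 1)) := by
    intro n hn
    have hn1 : (1 : ℝ) ≤ n := by exact_mod_cast (mem_Ico.1 hn).1
    have hn0 : (0 : ℝ) < n := by linarith
    have d0 : 0 ≤ w n - w (n + 1) := by
      simp only [hw]; push_cast
      exact rpow_diff_nonneg hn0 zero_le_one (by linarith)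
    have d1 : ((n : ℝ) + 1) * (w n - w (n + 1)) ≤ 4 * w n := by
      have h1 := rpow_diff_le hn0 zero_le_one (by linarith : 0 ≤ 1 + ε)
      rw [rpow_sub hn0, rpow_one] at h1
      have w0 : 0 ≤ (n : ℝ) ^ (-(1 + ε)) / n := by positivity
      have e : (n : ℝ) ^ (-(1 + ε)) = n * ((n : ℝ) ^ (-(1 + ε)) / n) := by field_simp
      simp only [hw]; push_cast
      calc ((n : ℝ) + 1) * ((n : ℝ) ^ (-(1 + ε)) - ((n : ℝ) + 1) ^ (-(1 + ε)))
          ≤ (2 * n) * (2 * ((n : ℝ) ^ (-(1 + ε)) / n)) :=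
            mul_le_mul (by linarith) (h1.trans (by nlinarith))
              (rpow_diff_nonneg hn0 zero_le_one (by linarith)) (by positivity)
        _ = 4 * (n : ℝ) ^ (-(1 + ε)) := by field_simp; norm_num
    have s1 : 0 < √(log ((n : ℝ) + 1)) := sqrt_pos.2 (log_pos (by linarith))
    have h1 := mul_le_mul_of_nonneg_right (hEC (n + 1)) d0
    push_cast at h1
    have h2 : η * ((n : ℝ) + 1) / √(log ((n : ℝ) + 1)) * (w n - w (n + 1)) ≤
        4 * η * (w n / √(log ((n : ℝ) + 1))) := by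
      have h3 := mul_le_mul_of_nonneg_left d1 (show 0 ≤ η / √(log ((n : ℝ) + 1)) by positivity)
      calc _ = η / √(log ((n : ℝ) + 1)) * (((n : ℝ) + 1) * (w n - w (n + 1))) := by ring
        _ ≤ _ := h3
        _ = _ := by ring
    linarith
  have hsum := sum_le_sum hterm
  rw [sum_neg_distrib, sum_add_distrib, ← mul_sum, ← mul_sum] at hsum
  have t1 : ∑ n ∈ Ico 1 J, (w n - w (n + 1)) ≤ 1 := by
    have := sum_Ico_sub (fun n => -w n) hJ'
    have w0 : 0 ≤ w J := by simp only [hw]; positivity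
    have w1 : w 1 = 1 := by simp [hw]
    have e : ∑ n ∈ Ico 1 J, (w n - w (n + 1)) = ∑ n ∈ Ico 1 J, (-w (n + 1) - -w n) :=
      sum_congr rfl fun n _ => by ring
    rw [e, this]; linarith
  have t2 := mul_le_mul_of_nonneg_left (sum_log_le hε hε1 J) (show 0 ≤ 4 * η by positivity)
  have t3 := mul_le_mul_of_nonneg_left t1 hC
  have e2 := fa_abel_id E w J hJ'
  have a4 := abs_le.1 hz
  have e3 : 4 * η * (6 / √ε) = 24 * η / √ε := by ring
  change _ ≤ ∑ n ∈ Ico 1 J, a n * w n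
  rw [e1, e2, hE1]
  simp only [hw] at hsum t2 t3 ⊢
  simp only [hw] at hEJ a4
  linarith [neg_abs_le c, a4.1]

end Pool.Agent.MP_5d10af_nt.H69

end

-- part MP_5d10af_nt.H69.Omega
section

/-! Omega results for the partial sums. -/

set_option autoImplicit false

namespace Pool.Agent.MP_5d10af_nt.H69

open Finset Real

lemma sqrt_eps {v : ℝ} (hv : 0 < v) (t : ℝ) : t / √((v ^ 16)⁻¹) = t * v ^ 8 := by
  have : √((v ^ 16)⁻¹) = (v ^ 8)⁻¹ := by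
    rw [show (v ^ 16)⁻¹ = ((v ^ 8)⁻¹) ^ 2 by rw [inv_pow, ← pow_mul], sqrt_sq (by positivity)]
  rw [this, div_inv_eq_mul]

theorem omega_neg (F : ℤ → ℕ) (hG : Genus F) (hq : QualB) (he : Expl) :
    ∃ η : ℝ, 0 < η ∧ ∀ n0 : ℕ, ∃ n : ℕ, n0 ≤ n ∧
      ∑ m ∈ Ico 1 n, (F (-(m : ℤ)) : ℝ) - 6 / π ^ 2 * n < -(η * n / √(log n)) := by
  obtain ⟨Q, hQ⟩ := hq
  obtain ⟨η, hη, σ0, hσ0, hE⟩ := he
  refine ⟨η / 144, by positivity, fun n0 => ?_⟩
  by_contra hcon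
  push Not at hcon
  obtain ⟨K, hK, hD⟩ := dirichlet_lower (fun m => (F (-(m : ℤ)) : ℝ)) (6 / π ^ 2) (η / 144)
    (by positivity) n0 hcon
  obtain ⟨K', hK'⟩ : ∃ K' : ℝ, K' = K + F (-4) + 24 + |Q| := ⟨_, rfl⟩
  have K'0 : 0 ≤ K' := by rw [hK']; positivity
  obtain ⟨v, hv1, hv2, hv3⟩ : ∃ v : ℝ, 6 * K' / η < v ∧ 2 ≤ v ∧ 1 / (σ0 - 1) < v :=
    ⟨max (6 * K' / η + 1) (max 2 (1 / (σ0 - 1) + 1)),
      lt_of_lt_of_le (by linarith) (le_max_left _ _),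
      le_trans (le_max_left _ _) (le_max_right _ _),
      lt_of_lt_of_le (by linarith) (le_trans (le_max_right _ _) (le_max_right _ _))⟩
  have v0' : 0 < v := by linarith
  have v1 : 1 ≤ v := by linarith
  have p16 : v ≤ v ^ 16 := le_self_pow₀ v1 (by norm_num)
  have hε : 0 < (v ^ 16)⁻¹ := by positivity
  have hε1 : (v ^ 16)⁻¹ ≤ 1 := inv_le_one_of_one_le₀ (by linarith)
  have hε2 : 1 + (v ^ 16)⁻¹ < σ0 := by
    have h1 : (v ^ 16)⁻¹ < σ0 - 1 := by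
      rw [inv_lt_comm₀ (by positivity) (by linarith), ← one_div]
      linarith
    linarith
  obtain ⟨P1, hP1⟩ := hD _ hε hε1
  obtain ⟨P2, hP2⟩ := Y2_expl _ hε hε1
  obtain ⟨P3, hP3⟩ := hQ (1 + (v ^ 16)⁻¹) (by linarith) (by linarith)
  obtain ⟨P4, hP4⟩ := hE (1 + (v ^ 16)⁻¹) (by linarith) hε2
  obtain ⟨N, hN⟩ := exists_good (P1 + P2 + P3 + P4)
  have b1 := hP1 (P1 + P2 + P3 + P4) (by omega)
  have b2 := abs_le.1 (hP2 _ N (by omega) hN)
  obtain ⟨b3, -⟩ := hP3 _ N (by omega) hN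
  have b5 := hP4 _ N (by omega) hN
  rw [eps_rpow v0' 6 _ (by norm_num)] at b3
  rw [sqrt_eps v0', div_inv_eq_mul] at b1
  rw [div_inv_eq_mul] at b2
  have b7 := Y2_le_Yw_sq (1 + (v ^ 16)⁻¹) N
  have c1 := (FF_cmp F hG hN hε hε1).1
  have l1 := sum_UN_ge F hG hN hε
  have q6 : Q * v ^ 6 ≤ |Q| * v ^ 6 := mul_le_mul_of_nonneg_right (le_abs_self Q) (by positivity)
  have b8 := (abs_le.1 b3).2
  have hY := Yw_pos (1 + (v ^ 16)⁻¹) N
  have hπ : 1 / 4 ≤ 4 / π ^ 2 := by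
    rw [div_le_div_iff₀ (by norm_num) (by positivity)]
    nlinarith [pi_pos, pi_le_four]
  have big : 65536 ≤ v ^ 16 := le_trans (by norm_num) (pow_le_pow_left₀ (by norm_num) hv2 16)
  have y1 : v ^ 8 / 3 ≤ Yw (1 + (v ^ 16)⁻¹) N := by
    refine (pow_le_pow_iff_left₀ (by positivity) hY.le two_ne_zero).1 ?_
    have h1 := mul_le_mul_of_nonneg_right hπ (show 0 ≤ v ^ 16 by positivity)
    have e : (v ^ 8 / 3) ^ 2 = v ^ 16 / 9 := by ring
    linarith [b2.1]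
  have y2 : Yw (1 + (v ^ 16)⁻¹) N * rr (1 + (v ^ 16)⁻¹) N ≤ -(η * (v ^ 8 / 3)) := by
    have h1 := mul_le_mul_of_nonneg_left b5 hY.le
    have h2 := mul_le_mul_of_nonneg_left y1 hη.le
    linarith
  have p6 : 1 ≤ v ^ 6 := one_le_pow₀ v1
  have e6 : 6 / π ^ 2 * v ^ 16 = 3 / 2 * (4 / π ^ 2 * v ^ 16) := by ring
  have f0 : (0 : ℝ) ≤ F (-4) := by positivity
  have m1 : (K + F (-4) + 24) * 1 ≤ (K + F (-4) + 24) * v ^ 6 :=
    mul_le_mul_of_nonneg_left p6 (by positivity)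
  have fin : (η * v ^ 2) * v ^ 6 ≤ (6 * K') * v ^ 6 := by
    rw [hK']; linarith [b2.2]
  have g1 := le_of_mul_le_mul_right fin (by positivity)
  rw [div_lt_iff₀ hη] at hv1
  have g2 : η * v ≤ η * v ^ 2 := mul_le_mul_of_nonneg_left (le_self_pow₀ v1 two_ne_zero) hη.le
  linarith

theorem omega_pos (F : ℤ → ℕ) (hG : Genus F) (hq : QualB) {c η : ℝ} (hc : c < 6 / π ^ 2)
    (hη : 0 ≤ η) (n0 : ℕ) : ∃ n : ℕ, n0 ≤ n ∧
      η * n / √(log n) < ∑ m ∈ Ico 1 n, (F (-(m : ℤ)) : ℝ) - c * n := by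
  obtain ⟨Q, hQ⟩ := hq
  by_contra hcon
  push Not at hcon
  obtain ⟨K, hK, hD⟩ := dirichlet_lower (fun m => -(F (-(m : ℤ)) : ℝ)) (-c) η hη n0 fun n hn => by
    rw [sum_neg_distrib]; linarith [hcon n hn]
  obtain ⟨K', hK'⟩ : ∃ K' : ℝ, K' = 7 * |c| + 8 * K + 25 + 192 * η + 3 * |Q| := ⟨_, rfl⟩
  obtain ⟨κ, hκ⟩ : ∃ κ : ℝ, κ = 6 / π ^ 2 - c := ⟨_, rfl⟩
  have κ0 : 0 < κ := by linarith
  obtain ⟨v, hv1, v1⟩ : ∃ v : ℝ, K' / κ < v ∧ 1 ≤ v :=
    ⟨max (K' / κ + 1) 1, lt_of_lt_of_le (by linarith) (le_max_left _ _), le_max_right _ _⟩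
  have v0' : 0 < v := by linarith
  have p16 : 1 ≤ v ^ 16 := one_le_pow₀ v1
  have hε : 0 < (v ^ 16)⁻¹ := by positivity
  have hε1 : (v ^ 16)⁻¹ ≤ 1 := inv_le_one_of_one_le₀ p16
  obtain ⟨P1, hP1⟩ := hD _ hε hε1
  obtain ⟨P2, hP2⟩ := Y2_expl _ hε hε1
  obtain ⟨P3, hP3⟩ := hQ (1 + (v ^ 16)⁻¹) (by linarith) (by linarith)
  obtain ⟨N, hN⟩ := exists_good (P2 + P3)
  have b1 := hP1 (8 * N + 1 + P1) (by omega)
  have b2 := abs_le.1 (hP2 _ N (by omega) hN)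
  obtain ⟨b3, b4⟩ := hP3 _ N (by omega) hN
  rw [eps_rpow v0' 6 _ (by norm_num)] at b3
  rw [eps_rpow v0' 3 _ (by norm_num)] at b4
  rw [sqrt_eps v0', div_inv_eq_mul] at b1
  rw [div_inv_eq_mul] at b2
  simp only [neg_mul, sum_neg_distrib] at b1
  have b6 := Yw_sq_le (σ := 1 + (v ^ 16)⁻¹) (by linarith) hN.odd
  have e : 1 / (2 * (1 + (v ^ 16)⁻¹ - 1)) = v ^ 16 / 2 := by
    rw [add_sub_cancel_left]; field_simp
  rw [e] at b6
  have c2 := (FF_cmp F hG hN hε hε1).2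
  have u1 := sum_le_sum_of_subset_of_nonneg (UN_subset hN (J := 8 * N + 1 + P1) (by omega))
    (f := fun n : ℕ => (F (-(n : ℤ)) : ℝ) * (n : ℝ) ^ (-(1 + (v ^ 16)⁻¹))) fun n _ _ => by positivity
  have u3 : FF (1 + (v ^ 16)⁻¹) N - 1 / 4 ≤
      (1 + 7 * (v ^ 16)⁻¹) * (c * v ^ 16 + (K + 24 * η * v ^ 8)) :=
    le_trans c2 (mul_le_mul_of_nonneg_left (by linarith) (by positivity))
  have e2 : (1 + 7 * (v ^ 16)⁻¹) * (c * v ^ 16 + (K + 24 * η * v ^ 8)) =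
      c * v ^ 16 + 7 * c + (1 + 7 * (v ^ 16)⁻¹) * (K + 24 * η * v ^ 8) := by
    field_simp
  have u4 : (1 + 7 * (v ^ 16)⁻¹) * (K + 24 * η * v ^ 8) ≤ 8 * (K + 24 * η * v ^ 8) :=
    mul_le_mul_of_nonneg_right (by linarith) (by positivity)
  have hY := Yw_pos (1 + (v ^ 16)⁻¹) N
  have a1 : Yw (1 + (v ^ 16)⁻¹) N ≤ 2 * v ^ 8 := by
    refine (pow_le_pow_iff_left₀ hY.le (by positivity) two_ne_zero).1 ?_
    have e : (2 * v ^ 8) ^ 2 = 4 * v ^ 16 := by ring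
    linarith
  have q3 : Q * v ^ 3 ≤ |Q| * v ^ 3 := mul_le_mul_of_nonneg_right (le_abs_self Q) (by positivity)
  have q6 : Q * v ^ 6 ≤ |Q| * v ^ 11 :=
    mul_le_mul (le_abs_self Q) (pow_le_pow_right₀ v1 (by norm_num)) (by positivity) (abs_nonneg Q)
  have a2 : |Yw (1 + (v ^ 16)⁻¹) N * rr (1 + (v ^ 16)⁻¹) N| ≤ 2 * v ^ 8 * (|Q| * v ^ 3) := by
    rw [abs_mul, abs_of_pos hY]
    exact mul_le_mul a1 (b4.trans q3) (abs_nonneg _) (by positivity)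
  have a3 := (abs_le.1 a2).1
  have b8 := (abs_le.1 b3).1
  have p11 : 1 ≤ v ^ 11 := one_le_pow₀ v1
  have m1 : (7 * |c| + 8 * K + 25) * 1 ≤ (7 * |c| + 8 * K + 25) * v ^ 11 :=
    mul_le_mul_of_nonneg_left p11 (by positivity)
  have m2 : η * v ^ 8 ≤ η * v ^ 11 :=
    mul_le_mul_of_nonneg_left (pow_le_pow_right₀ v1 (by norm_num)) hη
  have e6 : 6 / π ^ 2 * v ^ 16 = 3 / 2 * (4 / π ^ 2 * v ^ 16) := by ring
  have fin : (κ * v ^ 5) * v ^ 11 ≤ K' * v ^ 11 := by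
    rw [hK', hκ]; linarith [b2.1, le_abs_self c]
  have g1 := le_of_mul_le_mul_right fin (by positivity)
  rw [div_lt_iff₀ κ0] at hv1
  have g2 : κ * v ≤ κ * v ^ 5 := mul_le_mul_of_nonneg_left (le_self_pow₀ v1 (by norm_num)) κ0.le
  linarith

end Pool.Agent.MP_5d10af_nt.H69

end
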