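import Pool.Agent.MP_5d10af_nt.Mg.Sq
import Pool.Agent.MP_5d10af_nt.Mg.PV

-- part MP_5d10af_nt.HalfA
section

/-!
Euler products with halved factors: elementary facts.
-/

set_option autoImplicit false

namespace Pool.Agent.MP_5d10af_nt.QA

open Finset

/-- The Euler product with halved factors. -/
noncomputable def ell (σ : ℝ) (N : ℕ) (χ : ℕ → ℝ) : ℝ :=
  ∏ p ∈ N.primeFactors, (1 + χ p * (p : ℝ) ^ (-σ) / 2)

lemma ell_eq_sum {N : ℕ} (hN : Squarefree N) {χ : ℕ → ℝ} (h : CM χ) (σ : ℝ) :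
    ell σ N χ = ∑ a ∈ N.divisors, wt σ a * χ a := by
  unfold ell
  rw [← sum_divisors_prod hN]
  refine Finset.sum_congr rfl fun a ha => ?_
  have ha' : Squarefree a := hN.squarefree_of_dvd (Nat.dvd_of_mem_divisors ha)
  rw [h.prod ha', wt, ← Finset.prod_mul_distrib]
  exact Finset.prod_congr rfl fun p _ => by ring

lemma wt_add {a : ℕ} (ha : Squarefree a) (σ t : ℝ) :
    wt (σ + t) a = wt σ a * (a : ℝ) ^ (-t) := by
  rw [rpow_eq_prod ha, wt, wt, ← Finset.prod_mul_distrib]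
  refine Finset.prod_congr rfl fun p hp => ?_
  have hp0 : (0 : ℝ) < p := by exact_mod_cast (Nat.prime_of_mem_primeFactors hp).pos
  rw [neg_add, Real.rpow_add hp0]; ring

lemma sum_odd_set {σ : ℝ} (hσ : 1 < σ) (T : Finset ℕ) (hT : ∀ n ∈ T, n % 2 = 1) :
    ∑ n ∈ T, (n : ℝ) ^ (-σ) ≤ 1 + 1 / (2 * (σ - 1)) := by
  obtain ⟨J, hJ⟩ : ∃ J, ∀ n ∈ T, n < J := ⟨T.sup id + 1, fun n hn =>
    Nat.lt_succ_of_le (Finset.le_sup (f := id) hn)⟩
  refine le_trans ?_ (sum_odd_rpow hσ J)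
  have hsub : T ⊆ (range J).image (fun n => 2 * n + 1) := by
    intro n hn
    refine Finset.mem_image.mpr ⟨n / 2, Finset.mem_range.mpr ?_, ?_⟩
    · have := hJ n hn; omega
    · have := hT n hn; omega
  refine le_trans (Finset.sum_le_sum_of_subset_of_nonneg hsub fun n _ _ => by positivity) ?_
  rw [Finset.sum_image (fun a _ b _ h => by omega)]

lemma abs_prod_sub_prod {ι : Type*} (s : Finset ι) (f g : ι → ℝ)
    (hf : ∀ i ∈ s, 0 ≤ f i ∧ f i ≤ 1) (hg : ∀ i ∈ s, 0 ≤ g i ∧ g i ≤ 1) :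
    |∏ i ∈ s, f i - ∏ i ∈ s, g i| ≤ ∑ i ∈ s, |f i - g i| := by
  classical
  induction s using Finset.induction_on with
  | empty => simp
  | insert a s ha ih =>
    rw [Finset.prod_insert ha, Finset.prod_insert ha, Finset.sum_insert ha]
    have h1 := ih (fun i hi => hf i (Finset.mem_insert_of_mem hi))
      (fun i hi => hg i (Finset.mem_insert_of_mem hi))
    have hF0 : 0 ≤ ∏ i ∈ s, f i :=
      Finset.prod_nonneg fun i hi => (hf i (Finset.mem_insert_of_mem hi)).1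
    have hF1 : ∏ i ∈ s, f i ≤ 1 :=
      Finset.prod_le_one (fun i hi => (hf i (Finset.mem_insert_of_mem hi)).1)
        fun i hi => (hf i (Finset.mem_insert_of_mem hi)).2
    have hga := hg a (Finset.mem_insert_self a s)
    have e : f a * ∏ i ∈ s, f i - g a * ∏ i ∈ s, g i =
        (f a - g a) * ∏ i ∈ s, f i + g a * (∏ i ∈ s, f i - ∏ i ∈ s, g i) := by ring
    rw [e]
    refine le_trans (abs_add_le _ _) (add_le_add ?_ ?_)
    · rw [abs_mul, abs_of_nonneg hF0]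
      exact mul_le_of_le_one_right (abs_nonneg _) hF1
    · rw [abs_mul, abs_of_nonneg hga.1]
      exact le_trans (mul_le_of_le_one_left (abs_nonneg _) hga.2) h1

lemma odd_prime_ge {N p : ℕ} (hN : Odd N) (hp : p ∈ N.primeFactors) : p % 2 = 1 ∧ 3 ≤ p := by
  have h1 : Odd p := hN.of_dvd_nat (Nat.dvd_of_mem_primeFactors hp)
  have h2 := (Nat.prime_of_mem_primeFactors hp).two_le
  have h3 := Nat.odd_iff.mp h1
  omega

lemma rpow_neg_le_inv {x σ : ℝ} (hx : 1 ≤ x) (hσ : 1 ≤ σ) : x ^ (-σ) ≤ 1 / x := by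
  rw [one_div, ← Real.rpow_neg_one]
  exact Real.rpow_le_rpow_of_exponent_le hx (by linarith)

lemma one_sub_rpow_le {x t : ℝ} (hx : 0 < x) : 1 - x ^ (-t) ≤ t * Real.log x := by
  rw [Real.rpow_def_of_pos hx]
  have := Real.add_one_le_exp (Real.log x * -t)
  linarith

lemma rpow_neg_le_one {x t : ℝ} (hx : 1 ≤ x) (ht : 0 ≤ t) : x ^ (-t) ≤ 1 :=
  Real.rpow_le_one_of_one_le_of_nonpos hx (by linarith)

/-- The correction factor. -/
noncomputable def gfac (z : ℝ) : ℝ := 1 - 3 * z ^ 2 / 4 - z ^ 3 / 4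

lemma gfac_mem {z : ℝ} (hz : |z| ≤ 1 / 3) : 0 ≤ gfac z ∧ gfac z ≤ 1 := by
  obtain ⟨h1, h2⟩ := abs_le.mp hz
  unfold gfac
  constructor <;> nlinarith [sq_nonneg z]

lemma gfac_sub {z z' r : ℝ} (hz : |z| ≤ r) (hz' : |z'| ≤ r) (hr : r ≤ 1 / 3) :
    |gfac z - gfac z'| ≤ |z - z'| * (2 * r) := by
  have e : gfac z - gfac z' = (z - z') * (-(3 * (z + z') + (z ^ 2 + z * z' + z' ^ 2)) / 4) := by
    unfold gfac; ring
  rw [e, abs_mul]
  refine mul_le_mul_of_nonneg_left ?_ (abs_nonneg _)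
  obtain ⟨h1, h2⟩ := abs_le.mp hz
  obtain ⟨h3, h4⟩ := abs_le.mp hz'
  have hr0 : 0 ≤ r := le_trans (abs_nonneg _) hz
  have a1 : z ^ 2 ≤ r ^ 2 := by nlinarith
  have a2 : z' ^ 2 ≤ r ^ 2 := by nlinarith
  have a3 : z * z' ≤ r ^ 2 := by nlinarith
  have a4 : r ^ 2 ≤ r / 3 := by nlinarith
  have a5 : 0 ≤ z ^ 2 + z * z' + z' ^ 2 := by nlinarith [sq_nonneg (z + z'), sq_nonneg z, sq_nonneg z']
  rw [abs_le]; constructor <;> nlinarith

lemma abs_z_le {N p : ℕ} (hN : Odd N) (hp : p ∈ N.primeFactors) {χ : ℕ → ℝ} (h : CM χ) {σ : ℝ}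
    (hσ : 1 ≤ σ) : |χ p * (p : ℝ) ^ (-σ)| ≤ 1 / p ∧ (1 : ℝ) / p ≤ 1 / 3 := by
  have h3 : (3 : ℝ) ≤ p := by exact_mod_cast (odd_prime_ge hN hp).2
  refine ⟨?_, one_div_le_one_div_of_le (by norm_num) h3⟩
  rw [abs_mul, abs_of_nonneg (by positivity : (0 : ℝ) ≤ (p : ℝ) ^ (-σ))]
  exact le_trans (mul_le_of_le_one_left (by positivity) (h.abs_le p))
    (rpow_neg_le_inv (by linarith) hσ)

lemma ell_nonneg {N : ℕ} (hN : Odd N) {χ : ℕ → ℝ} (h : CM χ) {σ : ℝ} (hσ : 1 ≤ σ) :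
    0 ≤ ell σ N χ := by
  refine Finset.prod_nonneg fun p hp => ?_
  obtain ⟨h1, h2⟩ := abs_z_le hN hp h hσ
  have := (abs_le.mp h1).1
  linarith

lemma ell_sq {N : ℕ} (hN : Odd N) {χ : ℕ → ℝ} (h : CM χ) {σ : ℝ} (hσ : 1 ≤ σ) :
    ell σ N χ ^ 2 = LN σ N χ * ∏ p ∈ N.primeFactors, gfac (χ p * (p : ℝ) ^ (-σ)) := by
  unfold ell LN
  rw [← Finset.prod_pow, ← Finset.prod_mul_distrib]
  refine Finset.prod_congr rfl fun p hp => ?_
  obtain ⟨h1, h2⟩ := abs_z_le hN hp h hσ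
  have h3 := (abs_le.mp h1).2
  have h4 : 1 - χ p * (p : ℝ) ^ (-σ) ≠ 0 := by linarith
  unfold gfac
  field_simp
  ring

lemma gprod_mem {N : ℕ} (hN : Odd N) {χ : ℕ → ℝ} (h : CM χ) {σ : ℝ} (hσ : 1 ≤ σ) :
    0 ≤ ∏ p ∈ N.primeFactors, gfac (χ p * (p : ℝ) ^ (-σ)) ∧
      ∏ p ∈ N.primeFactors, gfac (χ p * (p : ℝ) ^ (-σ)) ≤ 1 := by
  have hm : ∀ p ∈ N.primeFactors, 0 ≤ gfac (χ p * (p : ℝ) ^ (-σ)) ∧
      gfac (χ p * (p : ℝ) ^ (-σ)) ≤ 1 := fun p hp =>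
    gfac_mem (le_trans (abs_z_le hN hp h hσ).1 (abs_z_le hN hp h hσ).2)
  exact ⟨Finset.prod_nonneg fun p hp => (hm p hp).1,
    Finset.prod_le_one (fun p hp => (hm p hp).1) fun p hp => (hm p hp).2⟩

lemma ell_sq_le {N : ℕ} (hN : Odd N) {χ : ℕ → ℝ} (h : CM χ) {σ : ℝ} (hσ : 1 ≤ σ) :
    ell σ N χ ^ 2 ≤ LN σ N χ := by
  rw [ell_sq hN h hσ]
  exact mul_le_of_le_one_right (LN_pos (by linarith) N h).le (gprod_mem hN h hσ).2

lemma gprod_sub {N : ℕ} (hN : Odd N) {χ : ℕ → ℝ} (h : CM χ) {σ τ : ℝ} (hσ : 1 ≤ σ)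
    (hτ : 0 ≤ τ) :
    |∏ p ∈ N.primeFactors, gfac (χ p * (p : ℝ) ^ (-σ)) -
      ∏ p ∈ N.primeFactors, gfac (χ p * (p : ℝ) ^ (-(σ + τ)))| ≤ 8 * τ := by
  have hσ' : 1 ≤ σ + τ := by linarith
  refine le_trans (abs_prod_sub_prod _ _ _
    (fun p hp => gfac_mem (le_trans (abs_z_le hN hp h hσ).1 (abs_z_le hN hp h hσ).2))
    (fun p hp => gfac_mem (le_trans (abs_z_le hN hp h hσ').1 (abs_z_le hN hp h hσ').2))) ?_
  have hs := sum_odd_set (σ := 3 / 2) (by norm_num) N.primeFactors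
    fun p hp => (odd_prime_ge hN hp).1
  have : ∑ p ∈ N.primeFactors, |gfac (χ p * (p : ℝ) ^ (-σ)) - gfac (χ p * (p : ℝ) ^ (-(σ + τ)))|
      ≤ ∑ p ∈ N.primeFactors, 4 * τ * (p : ℝ) ^ (-(3 / 2 : ℝ)) := by
    refine Finset.sum_le_sum fun p hp => ?_
    refine le_trans (gfac_sub (abs_z_le hN hp h hσ).1 (abs_z_le hN hp h hσ').1
      (abs_z_le hN hp h hσ).2) ?_
    have h3 : (3 : ℝ) ≤ p := by exact_mod_cast (odd_prime_ge hN hp).2
    have hp0 : (0 : ℝ) < p := by linarith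
    have e1 : χ p * (p : ℝ) ^ (-σ) - χ p * (p : ℝ) ^ (-(σ + τ)) =
        χ p * (p : ℝ) ^ (-σ) * (1 - (p : ℝ) ^ (-τ)) := by
      rw [neg_add, Real.rpow_add hp0]; ring
    have h5 : 0 ≤ 1 - (p : ℝ) ^ (-τ) := by
      have := rpow_neg_le_one (x := p) (by linarith) hτ; linarith
    have h6 : 1 - (p : ℝ) ^ (-τ) ≤ τ * (2 * (p : ℝ) ^ (1 / 2 : ℝ)) := by
      refine le_trans (one_sub_rpow_le hp0) (mul_le_mul_of_nonneg_left ?_ hτ)
      have := Real.log_le_rpow_div hp0.le (show (0 : ℝ) < 1 / 2 by norm_num)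
      linarith
    rw [e1, abs_mul, abs_of_nonneg h5]
    have h7 := (abs_z_le hN hp h hσ).1
    have e2 : (p : ℝ) ^ (-(3 / 2 : ℝ)) = (p : ℝ) ^ (1 / 2 : ℝ) * (1 / p) * (1 / p) := by
      rw [one_div (p : ℝ), ← Real.rpow_neg_one, ← Real.rpow_add hp0, ← Real.rpow_add hp0]
      norm_num
    rw [e2]
    calc |χ p * (p : ℝ) ^ (-σ)| * (1 - (p : ℝ) ^ (-τ)) * (2 * (1 / p))
        ≤ (1 / p) * (τ * (2 * (p : ℝ) ^ (1 / 2 : ℝ))) * (2 * (1 / p)) := by gcongr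
      _ = _ := by ring
  rw [← Finset.mul_sum] at this
  refine le_trans this ?_
  norm_num at hs
  nlinarith

lemma ell_diff_sq {N : ℕ} (hN : Odd N) {χ : ℕ → ℝ} (h : CM χ) {σ τ : ℝ} (hσ : 1 ≤ σ)
    (hτ : 0 ≤ τ) :
    (ell σ N χ - ell (σ + τ) N χ) ^ 2 ≤
      |LN σ N χ - LN (σ + τ) N χ| + 8 * τ * LN (σ + τ) N χ := by
  have hσ' : 1 ≤ σ + τ := by linarith
  have h1 := ell_nonneg hN h hσ
  have h2 := ell_nonneg hN h hσ'
  have h3 : (ell σ N χ - ell (σ + τ) N χ) ^ 2 ≤ |ell σ N χ ^ 2 - ell (σ + τ) N χ ^ 2| := by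
    rcases le_total (ell σ N χ) (ell (σ + τ) N χ) with h | h
    · refine le_trans ?_ (neg_le_abs _); nlinarith
    · refine le_trans ?_ (le_abs_self _); nlinarith
  refine le_trans h3 ?_
  rw [ell_sq hN h hσ, ell_sq hN h hσ']
  have g1 := gprod_mem hN h hσ
  have g2 := gprod_sub hN h hσ hτ
  have g3 := (LN_pos (by linarith : 0 < σ + τ) N h).le
  set G := ∏ p ∈ N.primeFactors, gfac (χ p * (p : ℝ) ^ (-σ))
  set G' := ∏ p ∈ N.primeFactors, gfac (χ p * (p : ℝ) ^ (-(σ + τ)))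
  have e : LN σ N χ * G - LN (σ + τ) N χ * G' =
      (LN σ N χ - LN (σ + τ) N χ) * G + LN (σ + τ) N χ * (G - G') := by ring
  rw [e]
  refine le_trans (abs_add_le _ _) (add_le_add ?_ ?_)
  · rw [abs_mul, abs_of_nonneg g1.1]
    exact mul_le_of_le_one_right (abs_nonneg _) g1.2
  · rw [abs_mul, abs_of_nonneg g3, mul_comm]
    exact mul_le_mul_of_nonneg_right g2 g3

/-- Products `prod (1 + p^(-σ)/k)`. -/
lemma prod_one_add_pow_le {N : ℕ} (hN : Odd N) {σ : ℝ} (hσ : 1 < σ) {k : ℕ} (hk : 1 ≤ k) :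
    (∏ p ∈ N.primeFactors, (1 + (p : ℝ) ^ (-σ) / k)) ^ k ≤ 1 + 1 / (2 * (σ - 1)) := by
  refine le_trans ?_ (zetaN_le hσ hN)
  rw [← Finset.prod_pow]
  have hk0 : (0 : ℝ) < k := by exact_mod_cast hk
  refine Finset.prod_le_prod (fun p _ => by positivity) fun p hp => ?_
  have h3 : (3 : ℝ) ≤ p := by exact_mod_cast (odd_prime_ge hN hp).2
  have hx0 : 0 ≤ (p : ℝ) ^ (-σ) := by positivity
  have hx1 : (p : ℝ) ^ (-σ) ≤ 1 / 3 :=
    le_trans (rpow_neg_le_inv (by linarith) hσ.le) (one_div_le_one_div_of_le (by norm_num) h3)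
  set x := (p : ℝ) ^ (-σ)
  have h1 : 1 + x / k ≤ Real.exp (x / k) := by
    have := Real.add_one_le_exp (x / k); linarith
  have h2 : (1 + x / k) ^ k ≤ Real.exp x := by
    refine le_trans (pow_le_pow_left₀ (by positivity) h1 k) ?_
    rw [← Real.exp_nat_mul, mul_div_cancel₀ _ hk0.ne']
  refine le_trans h2 ?_
  have h4 := Real.add_one_le_exp (-x)
  rw [Real.exp_neg] at h4
  rw [le_inv_comm₀ (Real.exp_pos x) (by linarith)]
  linarith

lemma bil_mono {Ξ : ℕ → ℝ} {γ γ' : ℝ} (h : Bil Ξ γ) (hγ : γ ≤ γ') : Bil Ξ γ' := fun n0 A B =>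
  le_trans (h n0 A B) (mul_le_mul_of_nonneg_right hγ (Real.sqrt_nonneg _))

/-- Odd part of a power. -/
noncomputable def bo (σ : ℝ) (n : ℕ) : ℝ := if n % 2 = 1 then (n : ℝ) ^ (-σ) else 0

lemma sum_range_eq_bo (σ : ℝ) (χ : ℕ → ℝ) (M : ℕ) :
    ∑ n ∈ range M, ((2 * n + 1 : ℕ) : ℝ) ^ (-σ) * χ (2 * n + 1) =
      ∑ n ∈ Icc 1 (2 * M), bo σ n * χ n := by
  induction M with
  | zero => simp
  | succ M ih =>
    rw [Finset.sum_range_succ, ih, show 2 * (M + 1) = 2 * M + 1 + 1 by ring,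
      Finset.sum_Icc_succ_top (by omega), Finset.sum_Icc_succ_top (by omega)]
    have h1 : (2 * M + 1) % 2 = 1 := by omega
    have h2 : ¬ (2 * M + 1 + 1) % 2 = 1 := by omega
    simp only [bo, h1, h2, if_true, if_false, zero_mul, add_zero]

lemma Sf_le (M : ℕ) {b : ℕ → ℝ} (h0 : ∀ n, n % 2 = 0 → b n = 0)
    (h1 : ∀ n, 1 ≤ n → |b n| ≤ 1 / n) : Sf (2 * M) b ≤ √((2 * M : ℕ) : ℝ) := by
  refine le_trans ?_ (sum_odd_inv_sqrt (2 * M) ((Icc 1 (2 * M)).filter fun n => n % 2 = 1) ?_)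
  · rw [Finset.sum_filter, Sf]
    refine Finset.sum_le_sum fun n hn => ?_
    have hn1 := (Finset.mem_Icc.mp hn).1
    split_ifs with hodd
    · have hn0 : (0 : ℝ) < n := by exact_mod_cast hn1
      have hs : 0 < √(n : ℝ) := Real.sqrt_pos.mpr hn0
      calc |b n| * √(n : ℝ) ≤ 1 / n * √(n : ℝ) :=
            mul_le_mul_of_nonneg_right (h1 n hn1) hs.le
        _ = 1 / √(n : ℝ) := by
            field_simp
            rw [Real.sq_sqrt hn0.le]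
    · rw [h0 n (by omega)]; simp
  · intro n hn
    obtain ⟨hn1, hn2⟩ := Finset.mem_filter.mp hn
    have := (Finset.mem_Icc.mp hn1).2
    omega

lemma bo_even (σ : ℝ) (n : ℕ) (h : n % 2 = 0) : bo σ n = 0 := by
  unfold bo; rw [if_neg (by omega)]

lemma abs_bo_le {σ : ℝ} (hσ : 1 ≤ σ) (n : ℕ) (hn : 1 ≤ n) : |bo σ n| ≤ 1 / n := by
  have hn' : (1 : ℝ) ≤ n := by exact_mod_cast hn
  unfold bo; split_ifs
  · rw [abs_of_nonneg (by positivity)]; exact rpow_neg_le_inv hn' hσ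
  · simp

/-- The pointwise bound. -/
lemma ell_sq_point {N : ℕ} (hN : Odd N) {χ : ℕ → ℝ} (h : CM χ) {σ γ : ℝ} (hσ : 1 < σ)
    (hγ : 0 ≤ γ) (hB : Bil (fun n => χ (2 * n + 1)) γ) {M : ℕ} (hM : 1 ≤ M) (hγM : γ ≤ M)
    (hη : |LN σ N χ - Lf σ χ| ≤ 1) : ell σ N χ ^ 2 ≤ √((2 * M : ℕ) : ℝ) + 4 := by
  refine le_trans (ell_sq_le hN h hσ.le) ?_
  have h1 := TL0 hB h.abs_le hγ hσ hM hM
  have hM0 : (0 : ℝ) < M := by exact_mod_cast hM
  rw [Real.sqrt_mul_self hM0.le, sum_range_eq_bo] at h1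
  have h2 : (M : ℝ) / (2 * M) = 1 / 2 := by field_simp
  have h3 : 2 * γ / M ≤ 2 := by rw [div_le_iff₀ hM0]; linarith
  have h4 : |∑ n ∈ Icc 1 (2 * M), bo σ n * χ n| ≤ √((2 * M : ℕ) : ℝ) := by
    refine le_trans (Finset.abs_sum_le_sum_abs _ _)
      (le_trans ?_ (Sf_le M (bo_even σ) (abs_bo_le hσ.le)))
    refine Finset.sum_le_sum fun n hn => ?_
    have hn1 : (1 : ℝ) ≤ n := by exact_mod_cast (Finset.mem_Icc.mp hn).1
    rw [abs_mul]
    exact mul_le_mul_of_nonneg_left (le_trans (h.abs_le n) (Real.one_le_sqrt.mpr hn1))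
      (abs_nonneg _)
  have h5 := (abs_le.mp h1).2
  have h6 := (abs_le.mp hη).2
  have h7 := (abs_le.mp h4).2
  linarith

end Pool.Agent.MP_5d10af_nt.QA

end

-- part MP_5d10af_nt.Half
section

/-!
The half lemma: an averaged bound for the variation of the halved Euler products.
-/

set_option autoImplicit false

namespace Pool.Agent.MP_5d10af_nt.QA

open Finset

/-- Mean square hypothesis for a family of characters. -/
def MSH (χ : ℕ → ℕ → ℝ) : Prop :=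
  ∀ (M : ℕ) (b : ℕ → ℝ), (∀ n, n % 2 = 0 → b n = 0) → ∀ L : ℕ, 1 ≤ L →
    ∑ y ∈ range L, (∑ n ∈ Icc 1 M, b n * χ (2 * y + 1) n) ^ 2 ≤ 4 * L * Qf M b + 6 * Sf M b ^ 2

/-- Approximation of the Euler products by the series. -/
def Apx (s η : ℝ) (N : ℕ) : Prop :=
  ∀ σ : ℝ, s ≤ σ → ∀ χ : ℕ → ℝ, CM χ → |LN σ N χ - Lf σ χ| ≤ η

lemma trunc_win {χ : ℕ → ℝ} (h : CM χ) {σ γ : ℝ} (hσ : 1 < σ) (hγ : 0 ≤ γ)
    (hB : Bil (fun n => χ (2 * n + 1)) γ) {m : ℕ} (hm : 1 ≤ m) (i : ℕ)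
    (hγm : γ ≤ (m : ℝ) ^ 2 * 8 ^ (i + 1)) :
    |Lf σ χ - ∑ n ∈ Icc 1 (2 * (m * 32 ^ i)), bo σ n * χ n| ≤ 17 * m / 2 ^ i := by
  have hM : 1 ≤ m * 32 ^ i := Nat.mul_pos hm (by positivity)
  have hB' : 1 ≤ m * 8 ^ i := Nat.mul_pos hm (by positivity)
  have h1 := TL0 hB h.abs_le hγ hσ hM hB'
  rw [sum_range_eq_bo] at h1
  refine le_trans h1 ?_
  have hm' : (1 : ℝ) ≤ m := by exact_mod_cast hm
  have e8 : (8 : ℝ) ^ i = (2 ^ i) ^ 3 := by rw [← pow_mul, mul_comm, pow_mul]; norm_num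
  have e32 : (32 : ℝ) ^ i = (2 ^ i) ^ 5 := by rw [← pow_mul, mul_comm, pow_mul]; norm_num
  have hq : (1 : ℝ) ≤ 2 ^ i := one_le_pow₀ (by norm_num)
  push_cast
  rw [pow_succ (8 : ℝ) i, e8] at hγm
  rw [e8, e32]
  set q : ℝ := 2 ^ i
  have e : (m : ℝ) * q ^ 3 * (m * q ^ 5) = (m * q ^ 4) * (m * q ^ 4) := by ring
  rw [e, Real.sqrt_mul_self (by positivity)]
  have a1 : (m : ℝ) * q ^ 3 / (2 * (m * q ^ 5)) ≤ m / q := by
    rw [div_le_div_iff₀ (by positivity) (by positivity)]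
    have : (1 : ℝ) ≤ 2 * m * q := by nlinarith
    calc (m : ℝ) * q ^ 3 * q = m * q ^ 4 * 1 := by ring
      _ ≤ m * q ^ 4 * (2 * m * q) := by gcongr
      _ = _ := by ring
  have a2 : 2 * γ / (m * q ^ 4) ≤ 16 * m / q := by
    rw [div_le_div_iff₀ (by positivity) (by positivity)]
    calc 2 * γ * q ≤ 2 * ((m : ℝ) ^ 2 * (q ^ 3 * 8)) * q := by gcongr
      _ = _ := by ring
  calc _ ≤ m / q + 16 * m / q := add_le_add a1 a2
    _ = _ := by ring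

lemma dell_point {N : ℕ} (hN : Odd N) {s t τ η : ℝ} (hs : 1 < s) (hτ : 0 < τ) (hτt : τ ≤ t)
    (ht : t ≤ 1) (hη : η ≤ t) (hA : Apx s η N) {χ : ℕ → ℝ} (h : CM χ) {γ : ℝ} (hγ : 0 ≤ γ)
    (hB : Bil (fun n => χ (2 * n + 1)) γ) {m : ℕ} (hm : 1 ≤ m) (i : ℕ)
    (hγm : γ ≤ (m : ℝ) ^ 2 * 8 ^ (i + 1)) :
    (ell s N χ - ell (s + τ) N χ) ^ 2 ≤ 19 * t + 170 * m / 2 ^ i +
      (∑ n ∈ Icc 1 (2 * (m * 32 ^ i)), (bo s n - bo (s + τ) n) * χ n) ^ 2 / τ +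
      8 * τ * (∑ n ∈ Icc 1 (2 * (m * 32 ^ i)), bo (s + τ) n * χ n) ^ 2 := by
  refine le_trans (ell_diff_sq hN h hs.le hτ.le) ?_
  have h1 := trunc_win h hs hγ hB hm i hγm
  have h2 := trunc_win h (by linarith : 1 < s + τ) hγ hB hm i hγm
  have h3 := hA s le_rfl χ h
  have h4 := hA (s + τ) (by linarith) χ h
  simp only [sub_mul, Finset.sum_sub_distrib]
  set V := ∑ n ∈ Icc 1 (2 * (m * 32 ^ i)), bo s n * χ n
  set V' := ∑ n ∈ Icc 1 (2 * (m * 32 ^ i)), bo (s + τ) n * χ n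
  have e : (170 : ℝ) * m / 2 ^ i = 10 * (17 * m / 2 ^ i) := by ring
  rw [e]
  set E : ℝ := 17 * m / 2 ^ i
  have hE : 0 ≤ E := le_trans (abs_nonneg _) h1
  have hη0 : 0 ≤ η := le_trans (abs_nonneg _) h3
  obtain ⟨a1, a2⟩ := abs_le.mp h1
  obtain ⟨a3, a4⟩ := abs_le.mp h2
  obtain ⟨a5, a6⟩ := abs_le.mp h3
  obtain ⟨a7, a8⟩ := abs_le.mp h4
  have b1 : |V - V'| ≤ τ + (V - V') ^ 2 / τ := by
    rw [← sq_abs (V - V')]
    have : 0 ≤ (|V - V'| - τ) ^ 2 / τ := by positivity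
    have e2 : (|V - V'| - τ) ^ 2 / τ = |V - V'| ^ 2 / τ - 2 * |V - V'| + τ := by
      field_simp; ring
    have := abs_nonneg (V - V')
    linarith
  have b2 : |LN s N χ - LN (s + τ) N χ| ≤ |V - V'| + 2 * η + 2 * E := by
    have := le_abs_self (V - V')
    have := neg_abs_le (V - V')
    rw [abs_le]; constructor <;> linarith
  have b3 : LN (s + τ) N χ ≤ 1 + V' ^ 2 + η + E := by nlinarith [sq_nonneg (V' - 1)]
  have b4 : 8 * τ * LN (s + τ) N χ ≤ 8 * τ * (1 + V' ^ 2 + η + E) := by gcongr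
  have b5 : τ * η ≤ t := by nlinarith
  have b6 : τ * E ≤ E := by nlinarith
  nlinarith

lemma bo_sub_le {s τ : ℝ} (hs : 1 ≤ s) (hτ : 0 ≤ τ) (n : ℕ) (hn : 1 ≤ n) :
    |bo s n - bo (s + τ) n| ≤ 1 / n ∧
      |bo s n - bo (s + τ) n| ≤ 4 * τ * (n : ℝ) ^ (-(3 / 4) : ℝ) := by
  have hn' : (1 : ℝ) ≤ n := by exact_mod_cast hn
  have hn0 : (0 : ℝ) < n := by linarith
  unfold bo
  split_ifs
  · have e1 : (n : ℝ) ^ (-s) - (n : ℝ) ^ (-(s + τ)) = (n : ℝ) ^ (-s) * (1 - (n : ℝ) ^ (-τ)) := by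
      rw [neg_add, Real.rpow_add hn0]; ring
    have h5 : 0 ≤ 1 - (n : ℝ) ^ (-τ) := by
      have := rpow_neg_le_one hn' hτ; linarith
    have h5' : 1 - (n : ℝ) ^ (-τ) ≤ 1 := by
      have : 0 ≤ (n : ℝ) ^ (-τ) := by positivity
      linarith
    have h6 : 1 - (n : ℝ) ^ (-τ) ≤ τ * (4 * (n : ℝ) ^ (1 / 4 : ℝ)) := by
      refine le_trans (one_sub_rpow_le hn0) (mul_le_mul_of_nonneg_left ?_ hτ)
      have := Real.log_le_rpow_div hn0.le (show (0 : ℝ) < 1 / 4 by norm_num)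
      linarith
    have h7 := rpow_neg_le_inv hn' hs
    rw [e1, abs_of_nonneg (by positivity)]
    constructor
    · calc _ ≤ 1 / (n : ℝ) * 1 := by gcongr
        _ = _ := mul_one _
    · have e2 : (n : ℝ) ^ (-(3 / 4) : ℝ) = (n : ℝ) ^ (1 / 4 : ℝ) * (1 / n) := by
        rw [one_div (n : ℝ), ← Real.rpow_neg_one, ← Real.rpow_add hn0]
        norm_num
      rw [e2]
      calc _ ≤ 1 / (n : ℝ) * (τ * (4 * (n : ℝ) ^ (1 / 4 : ℝ))) := by gcongr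
        _ = _ := by ring
  · simp only [sub_self, abs_zero]
    constructor <;> positivity

lemma sum_le_range_odd (T : Finset ℕ) (L : ℕ) (hT : ∀ e ∈ T, e % 2 = 1 ∧ e < 2 * L)
    (f : ℕ → ℝ) (hf : ∀ e, 0 ≤ f e) : ∑ e ∈ T, f e ≤ ∑ y ∈ range L, f (2 * y + 1) := by
  have hsub : T ⊆ (range L).image (fun n => 2 * n + 1) := by
    intro n hn
    have := hT n hn
    exact Finset.mem_image.mpr ⟨n / 2, Finset.mem_range.mpr (by omega), by omega⟩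
  refine le_trans (Finset.sum_le_sum_of_subset_of_nonneg hsub fun n _ _ => hf n) ?_
  rw [Finset.sum_image (fun a _ b _ h => by omega)]

lemma window {N : ℕ} (hN : Odd N) {s t τ η : ℝ} (hs : 1 < s) (ht0 : 0 < t) (hτ : t / 2 ≤ τ)
    (hτt : τ ≤ t) (ht : t ≤ 1) (hη : η ≤ t) (hA : Apx s η N) {χ : ℕ → ℕ → ℝ} (hMS : MSH χ)
    {m : ℕ} (hm : 1 ≤ m) (i : ℕ) (T : Finset ℕ)
    (hT : ∀ e ∈ T, e % 2 = 1 ∧ e < 64 ^ (i + 1) ∧ CM (χ e) ∧
      Bil (fun n => χ e (2 * n + 1)) ((m : ℝ) ^ 2 * √e)) :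
    ∑ e ∈ T, (ell s N (χ e) - ell (s + τ) N (χ e)) ^ 2 ≤
      64 ^ i * (100000 * t + 10000 * m / (2 ^ i * t)) := by
  have hτ0 : 0 < τ := by linarith
  have hm' : (1 : ℝ) ≤ m := by exact_mod_cast hm
  set M := m * 32 ^ i with hM
  set L := 32 * 64 ^ i with hL
  have hL1 : 1 ≤ L := Nat.mul_pos (by norm_num) (by positivity)
  set F : ℕ → ℝ := fun e => 19 * t + 170 * m / 2 ^ i +
      (∑ n ∈ Icc 1 (2 * M), (bo s n - bo (s + τ) n) * χ e n) ^ 2 / τ +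
      8 * τ * (∑ n ∈ Icc 1 (2 * M), bo (s + τ) n * χ e n) ^ 2 with hF
  have h1 : ∑ e ∈ T, (ell s N (χ e) - ell (s + τ) N (χ e)) ^ 2 ≤ ∑ e ∈ T, F e := by
    refine Finset.sum_le_sum fun e he => ?_
    obtain ⟨-, h2, h3, h4⟩ := hT e he
    refine dell_point hN hs hτ0 hτt ht hη hA h3 (by positivity) h4 hm i ?_
    refine mul_le_mul_of_nonneg_left ?_ (by positivity)
    rw [Real.sqrt_le_left (by positivity), ← pow_mul, mul_comm, pow_mul]
    have : (e : ℝ) < 64 ^ (i + 1) := by exact_mod_cast h2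
    norm_num
    exact this.le
  have h2 : ∑ e ∈ T, F e ≤ ∑ y ∈ range L, F (2 * y + 1) := by
    refine sum_le_range_odd T L (fun e he => ⟨(hT e he).1, ?_⟩) F fun e => by
      simp only [hF]; positivity
    have := (hT e he).2.1
    rw [pow_succ] at this
    omega
  refine le_trans h1 (le_trans h2 ?_)
  simp only [hF, Finset.sum_add_distrib, Finset.sum_const, Finset.card_range, nsmul_eq_mul,
    ← Finset.sum_div, ← Finset.mul_sum]
  have hz : ∀ n, n % 2 = 0 → bo s n - bo (s + τ) n = 0 := fun n hn => by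
    rw [bo_even _ _ hn, bo_even _ _ hn, sub_zero]
  have m1 := hMS (2 * M) (fun n => bo s n - bo (s + τ) n) hz L hL1
  have m2 := hMS (2 * M) (bo (s + τ)) (bo_even _) L hL1
  have q1 : Qf (2 * M) (fun n => bo s n - bo (s + τ) n) ≤ 27 * (4 * τ) ^ 2 :=
    Qf_pow _ fun n hn => (bo_sub_le hs.le hτ0.le n (Finset.mem_Icc.mp hn).1).2
  have q2 : Qf (2 * M) (bo (s + τ)) ≤ 27 * 1 ^ 2 := by
    refine Qf_pow _ fun n hn => ?_
    have hn1 := (Finset.mem_Icc.mp hn).1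
    have hn' : (1 : ℝ) ≤ n := by exact_mod_cast hn1
    refine le_trans (abs_bo_le (by linarith) n hn1) ?_
    rw [one_mul, one_div, ← Real.rpow_neg_one]
    exact Real.rpow_le_rpow_of_exponent_le hn' (by norm_num)
  have hsq : ∀ b : ℕ → ℝ, (∀ n, n % 2 = 0 → b n = 0) → (∀ n, 1 ≤ n → |b n| ≤ 1 / n) →
      Sf (2 * M) b ^ 2 ≤ 2 * M := by
    intro b hb0 hb1
    have h0 : 0 ≤ Sf (2 * M) b := Finset.sum_nonneg fun n _ => by positivity
    refine le_trans (pow_le_pow_left₀ h0 (Sf_le M hb0 hb1) 2) ?_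
    rw [Real.sq_sqrt (by positivity)]; push_cast; exact le_rfl
  have s1 := hsq _ hz fun n hn => (bo_sub_le hs.le hτ0.le n hn).1
  have s2 := hsq _ (bo_even (s + τ)) (abs_bo_le (by linarith))
  have hq : (1 : ℝ) ≤ 2 ^ i := one_le_pow₀ (by norm_num)
  have e64 : (64 : ℝ) ^ i = (2 ^ i) ^ 6 := by rw [← pow_mul, mul_comm, pow_mul]; norm_num
  have e32 : (32 : ℝ) ^ i = (2 ^ i) ^ 5 := by rw [← pow_mul, mul_comm, pow_mul]; norm_num
  have eL : (L : ℝ) = 32 * (2 ^ i) ^ 6 := by rw [hL, ← e64]; push_cast; ring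
  have eM : (M : ℝ) = m * (2 ^ i) ^ 5 := by rw [hM, ← e32]; push_cast; ring
  have hL0 : (0 : ℝ) ≤ L := by positivity
  have n1 : (∑ y ∈ range L, (∑ n ∈ Icc 1 (2 * M),
      (bo s n - bo (s + τ) n) * χ (2 * y + 1) n) ^ 2) / τ ≤ L * (1728 * t) + 24 * M / t := by
    rw [div_le_iff₀ hτ0]
    refine le_trans m1 ?_
    have c1 : 4 * L * Qf (2 * M) (fun n => bo s n - bo (s + τ) n) ≤ L * (1728 * t) * τ := by
      calc _ ≤ 4 * L * (27 * (4 * τ) ^ 2) := by gcongr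
        _ = L * (1728 * τ) * τ := by ring
        _ ≤ _ := by gcongr
    have c2 : (12 : ℝ) * M ≤ 24 * M / t * τ := by
      calc (12 : ℝ) * M = 24 * M / t * (t / 2) := by field_simp; ring
        _ ≤ _ := by gcongr
    nlinarith
  have n2 : 8 * τ * ∑ y ∈ range L, (∑ n ∈ Icc 1 (2 * M), bo (s + τ) n * χ (2 * y + 1) n) ^ 2 ≤
      L * (864 * t) + 96 * M / t := by
    have c1 : 4 * L * Qf (2 * M) (bo (s + τ)) ≤ 4 * L * (27 * 1 ^ 2) := by gcongr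
    have c2 : (M : ℝ) * t ≤ M / t := by
      rw [le_div_iff₀ ht0]
      have : t * t ≤ 1 := by nlinarith
      calc (M : ℝ) * t * t = M * (t * t) := by ring
        _ ≤ M * 1 := by gcongr
        _ = M := mul_one _
    calc _ ≤ 8 * t * (4 * L * (27 * 1 ^ 2) + 6 * (2 * M)) := by
          gcongr
          linarith
      _ = L * (864 * t) + 96 * (M * t) := by ring
      _ ≤ L * (864 * t) + 96 * (M / t) := by gcongr
      _ = _ := by ring
  refine le_trans (add_le_add (add_le_add le_rfl n1) n2) ?_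
  rw [eL, eM, e64]
  set q : ℝ := 2 ^ i
  have c3 : (m : ℝ) * q ^ 5 ≤ m * q ^ 5 / t := by
    rw [le_div_iff₀ ht0]; exact mul_le_of_le_one_right (by positivity) ht
  have e1 : q ^ 6 * (100000 * t + 10000 * m / (q * t)) =
      100000 * (q ^ 6 * t) + 10000 * (m * q ^ 5 / t) := by field_simp
  have e2 : 32 * q ^ 6 * (19 * t) + 32 * q ^ 6 * (170 * m / q) +
      (32 * q ^ 6 * (1728 * t) + 24 * (m * q ^ 5) / t) +
      (32 * q ^ 6 * (864 * t) + 96 * (m * q ^ 5) / t) =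
      83552 * (q ^ 6 * t) + 5440 * (m * q ^ 5) + 120 * (m * q ^ 5 / t) := by
    field_simp; ring
  rw [e1, e2]
  have : 0 ≤ q ^ 6 * t := by positivity
  have : 0 ≤ (m : ℝ) * q ^ 5 / t := by positivity
  linarith

lemma sum_geom_rpow {t : ℝ} (ht0 : 0 < t) (ht : t ≤ 1) (J : ℕ) :
    ∑ i ∈ range J, ((8 : ℝ) ^ (-t)) ^ i ≤ 2 / t := by
  have h1 : (8 : ℝ) ^ (-t) ≤ 1 - t / 2 := by
    rw [Real.rpow_def_of_pos (by norm_num), mul_neg, Real.exp_neg]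
    have hl : 1 ≤ Real.log 8 := by
      rw [Real.le_log_iff_exp_le (by norm_num)]
      have := Real.exp_one_lt_d9
      linarith
    have h2 := Real.add_one_le_exp (Real.log 8 * t)
    have h3 : 1 + t ≤ Real.exp (Real.log 8 * t) := by nlinarith
    refine le_trans (inv_anti₀ (by linarith) h3) ?_
    rw [inv_le_iff_one_le_mul₀ (by linarith)]
    nlinarith
  have h0 : (0 : ℝ) ≤ 8 ^ (-t) := by positivity
  set r : ℝ := 8 ^ (-t)
  have h4 : (∑ i ∈ range J, r ^ i) * (1 - r) = 1 - r ^ J := by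
    have := geom_sum_mul_neg r J
    linarith
  have h5 : 0 ≤ ∑ i ∈ range J, r ^ i := Finset.sum_nonneg fun i _ => by positivity
  have h6 : 0 ≤ r ^ J := by positivity
  rw [le_div_iff₀ ht0]
  nlinarith

lemma sum_succ_div_pow (J : ℕ) : ∑ i ∈ range J, ((i : ℝ) + 1) / 2 ^ i ≤ 4 := by
  have : ∑ i ∈ range J, ((i : ℝ) + 1) / 2 ^ i = 4 - (2 * J + 4) / 2 ^ J := by
    induction J with
    | zero => norm_num
    | succ J ih => rw [Finset.sum_range_succ, ih]; push_cast; field_simp; ring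
  rw [this]
  have : (0 : ℝ) ≤ (2 * J + 4) / 2 ^ J := by positivity
  linarith

lemma dx_bounds {e i : ℕ} (h1 : 64 ^ i ≤ e) (h2 : e < 64 ^ (i + 1)) {t : ℝ} (ht0 : 0 < t) :
    0 ≤ (e : ℝ) ^ (-(t / 2)) - (e : ℝ) ^ (-t) ∧
    (e : ℝ) ^ (-(t / 2)) - (e : ℝ) ^ (-t) ≤ ((8 : ℝ) ^ (-t)) ^ i ∧
    (e : ℝ) ^ (-(t / 2)) - (e : ℝ) ^ (-t) ≤ 3 * t * (i + 1) := by
  have h1' : (64 : ℝ) ^ i ≤ e := by exact_mod_cast h1
  have h2' : (e : ℝ) ≤ 64 ^ (i + 1) := by exact_mod_cast h2.le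
  have hq : (1 : ℝ) ≤ 64 ^ i := one_le_pow₀ (by norm_num)
  have he1 : (1 : ℝ) ≤ e := le_trans hq h1'
  have he0 : (0 : ℝ) < e := by linarith
  have e1 : (e : ℝ) ^ (-t) = (e : ℝ) ^ (-(t / 2)) * (e : ℝ) ^ (-(t / 2)) := by
    rw [← Real.rpow_add he0]; congr 1; ring
  have hx1 := rpow_neg_le_one he1 (show 0 ≤ t / 2 by linarith)
  have hx0 : 0 ≤ (e : ℝ) ^ (-(t / 2)) := by positivity
  refine ⟨by rw [e1]; nlinarith, ?_, ?_⟩
  · have a1 : (e : ℝ) ^ (-(t / 2)) ≤ ((64 : ℝ) ^ i) ^ (-(t / 2)) :=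
      Real.rpow_le_rpow_of_nonpos (by positivity) h1' (by linarith)
    have a2 : ((64 : ℝ) ^ i) ^ (-(t / 2)) = ((8 : ℝ) ^ (-t)) ^ i := by
      rw [show (64 : ℝ) = 8 ^ 2 by norm_num, ← pow_mul, ← Real.rpow_natCast,
        ← Real.rpow_mul (by norm_num), ← Real.rpow_natCast, ← Real.rpow_mul (by norm_num)]
      congr 1; push_cast; ring
    have : 0 ≤ (e : ℝ) ^ (-t) := by positivity
    linarith
  · have a1 := one_sub_rpow_le (t := t / 2) he0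
    have a2 : Real.log e ≤ (i + 1) * 6 := by
      refine le_trans (Real.log_le_log he0 h2') ?_
      rw [Real.log_pow, show (64 : ℝ) = 2 ^ 6 by norm_num, Real.log_pow]
      have := Real.log_two_lt_d9
      push_cast
      have : (0 : ℝ) ≤ i := by positivity
      nlinarith
    rw [e1]
    nlinarith

lemma sum_dx_dell {N : ℕ} (hN : Odd N) {s t τ η : ℝ} (hs : 1 < s) (ht0 : 0 < t) (hτ : t / 2 ≤ τ)
    (hτt : τ ≤ t) (ht : t ≤ 1) (hη : η ≤ t) (hA : Apx s η N) {χ : ℕ → ℕ → ℝ} (hMS : MSH χ)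
    {m : ℕ} (hm : 1 ≤ m) (T : Finset ℕ)
    (hT : ∀ e ∈ T, e % 2 = 1 ∧ CM (χ e) ∧ Bil (fun n => χ e (2 * n + 1)) ((m : ℝ) ^ 2 * √e)) :
    ∑ e ∈ T, ((e : ℝ) ^ (-(t / 2)) - (e : ℝ) ^ (-t)) / e *
      (ell s N (χ e) - ell (s + τ) N (χ e)) ^ 2 ≤ 320000 * m := by
  have hm' : (1 : ℝ) ≤ m := by exact_mod_cast hm
  obtain ⟨J, hJ⟩ : ∃ J, ∀ n ∈ T, n < J := ⟨T.sup id + 1, fun n hn =>
    Nat.lt_succ_of_le (Finset.le_sup (f := id) hn)⟩
  rw [← Finset.sum_fiberwise_of_maps_to (t := range J) (g := Nat.log 64) fun e he =>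
    Finset.mem_range.mpr (lt_of_le_of_lt (Nat.log_le_self 64 e) (hJ e he))]
  have key : ∀ i ∈ range J, ∑ e ∈ T with Nat.log 64 e = i,
      ((e : ℝ) ^ (-(t / 2)) - (e : ℝ) ^ (-t)) / e * (ell s N (χ e) - ell (s + τ) N (χ e)) ^ 2 ≤
      100000 * t * ((8 : ℝ) ^ (-t)) ^ i + 30000 * m * ((i + 1) / 2 ^ i) := by
    intro i _
    have hmem : ∀ e ∈ T.filter (fun e => Nat.log 64 e = i), 64 ^ i ≤ e ∧ e < 64 ^ (i + 1) := by
      intro e he
      obtain ⟨h1, h2⟩ := Finset.mem_filter.mp he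
      have := (hT e h1).1
      rw [← h2]
      exact ⟨Nat.pow_log_le_self 64 (by omega), Nat.lt_pow_succ_log_self (by norm_num) e⟩
    have hw := window hN hs ht0 hτ hτt ht hη hA hMS hm i (T.filter fun e => Nat.log 64 e = i)
      fun e he => ⟨(hT e (Finset.mem_filter.mp he).1).1, (hmem e he).2,
        (hT e (Finset.mem_filter.mp he).1).2⟩
    set δ : ℝ := min (((8 : ℝ) ^ (-t)) ^ i) (3 * t * (i + 1)) with hδ
    have hδ0 : 0 ≤ δ := le_min (by positivity) (by positivity)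
    calc _ ≤ ∑ e ∈ T with Nat.log 64 e = i,
          δ / 64 ^ i * (ell s N (χ e) - ell (s + τ) N (χ e)) ^ 2 := by
          refine Finset.sum_le_sum fun e he => ?_
          obtain ⟨h1, h2⟩ := hmem e he
          obtain ⟨_, d2, d3⟩ := dx_bounds h1 h2 ht0
          have h1' : (64 : ℝ) ^ i ≤ e := by exact_mod_cast h1
          refine mul_le_mul_of_nonneg_right ?_ (sq_nonneg _)
          exact div_le_div₀ hδ0 (le_min d2 d3) (by positivity) h1'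
      _ ≤ δ / 64 ^ i * (64 ^ i * (100000 * t + 10000 * m / (2 ^ i * t))) := by
          rw [← Finset.mul_sum]
          exact mul_le_mul_of_nonneg_left hw (by positivity)
      _ = 100000 * t * δ + 10000 * m / (2 ^ i * t) * δ := by field_simp
      _ ≤ 100000 * t * ((8 : ℝ) ^ (-t)) ^ i + 10000 * m / (2 ^ i * t) * (3 * t * (i + 1)) := by
          gcongr
          · exact min_le_left _ _
          · exact min_le_right _ _
      _ = _ := by field_simp; ring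
  refine le_trans (Finset.sum_le_sum key) ?_
  rw [Finset.sum_add_distrib, ← Finset.mul_sum, ← Finset.mul_sum]
  have a1 := sum_geom_rpow ht0 ht J
  have a2 := sum_succ_div_pow J
  calc _ ≤ 100000 * t * (2 / t) + 30000 * m * 4 := by gcongr
    _ = 200000 + 120000 * m := by field_simp; ring
    _ ≤ _ := by linarith

lemma sum_wt_sq {N : ℕ} (hN : Odd N) (hsq : Squarefree N) {s t : ℝ} (hs : 1 ≤ s) (ht0 : 0 < t)
    (ht : t ≤ 1) :
    ∑ e ∈ N.divisors, wt s e ^ 2 * e * (e : ℝ) ^ (-(t / 2)) ≤ 2 * t ^ (-(1 / 4) : ℝ) := by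
  have h1 : ∑ e ∈ N.divisors, wt s e ^ 2 * e * (e : ℝ) ^ (-(t / 2)) ≤
      ∏ p ∈ N.primeFactors, (1 + (p : ℝ) ^ (-(1 + t / 2)) / (4 : ℕ)) := by
    rw [← sum_divisors_prod hsq]
    refine Finset.sum_le_sum fun e he => ?_
    have he' : Squarefree e := hsq.squarefree_of_dvd (Nat.dvd_of_mem_divisors he)
    have e1 : (e : ℝ) = ∏ p ∈ e.primeFactors, (p : ℝ) ^ (1 : ℝ) := by
      rw [← rpow_eq_prod he', Real.rpow_one]
    rw [rpow_eq_prod he', wt, ← Finset.prod_pow]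
    nth_rewrite 1 [e1]
    rw [← Finset.prod_mul_distrib, ← Finset.prod_mul_distrib]
    refine Finset.prod_le_prod (fun p _ => by positivity) fun p hp => ?_
    have hp1 : (1 : ℝ) ≤ p := by exact_mod_cast (Nat.prime_of_mem_primeFactors hp).one_le
    have hp0 : (0 : ℝ) < p := by linarith
    have e2 : ((p : ℝ) ^ (-s) / 2) ^ 2 * (p : ℝ) ^ (1 : ℝ) * (p : ℝ) ^ (-(t / 2)) =
        (p : ℝ) ^ (-s + -s + 1 + -(t / 2)) / 4 := by
      rw [Real.rpow_add hp0, Real.rpow_add hp0, Real.rpow_add hp0]; ring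
    rw [e2]
    push_cast
    gcongr
    linarith
  refine le_trans h1 ?_
  have h2 := prod_one_add_pow_le hN (σ := 1 + t / 2) (by linarith) (k := 4) (by norm_num)
  refine le_of_pow_le_pow_left₀ (n := 4) (by norm_num) (by positivity) (le_trans h2 ?_)
  rw [mul_pow, ← Real.rpow_natCast (t ^ (-(1 / 4) : ℝ)), ← Real.rpow_mul ht0.le]
  norm_num
  rw [Real.rpow_neg_one]
  have : 1 ≤ t⁻¹ := (one_le_inv₀ ht0).mpr ht
  have e4 : 2 / t * (1 / 2) = t⁻¹ := by field_simp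
  linarith

/-- The half lemma. -/
theorem half {N : ℕ} (hN : Odd N) (hsq : Squarefree N) {s t τ η : ℝ} (hs : 1 < s) (ht0 : 0 < t)
    (hτ : t / 2 ≤ τ) (hτt : τ ≤ t) (ht : t ≤ 1) (hη : η ≤ t) (hA : Apx s η N)
    {χ : ℕ → ℕ → ℝ} (hMS : MSH χ) {m : ℕ} (hm : 1 ≤ m) (T : Finset ℕ) (hTN : T ⊆ N.divisors)
    (hT : ∀ e ∈ T, CM (χ e) ∧ Bil (fun n => χ e (2 * n + 1)) ((m : ℝ) ^ 2 * √e)) :
    ∑ e ∈ T, wt s e * ((e : ℝ) ^ (-(t / 2)) - (e : ℝ) ^ (-t)) *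
      |ell s N (χ e) - ell (s + τ) N (χ e)| ≤ 800 * √m * t ^ (-(1 / 8) : ℝ) := by
  have hodd : ∀ e ∈ T, e % 2 = 1 := fun e he =>
    Nat.odd_iff.mp (hN.of_dvd_nat (Nat.dvd_of_mem_divisors (hTN he)))
  have h1 := sum_dx_dell hN hs ht0 hτ hτt ht hη hA hMS hm T fun e he => ⟨hodd e he, hT e he⟩
  have hdx : ∀ e ∈ T, 0 ≤ (e : ℝ) ^ (-(t / 2)) - (e : ℝ) ^ (-t) := fun e he =>
    (dx_bounds (Nat.pow_log_le_self 64 (by have := hodd e he; omega))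
      (Nat.lt_pow_succ_log_self (by norm_num) e) ht0).1
  have h2 : ∑ e ∈ T, wt s e ^ 2 * e * ((e : ℝ) ^ (-(t / 2)) - (e : ℝ) ^ (-t)) ≤
      2 * t ^ (-(1 / 4) : ℝ) := by
    refine le_trans ?_ (sum_wt_sq hN hsq hs.le ht0 ht)
    refine le_trans (Finset.sum_le_sum fun e _ => ?_)
      (Finset.sum_le_sum_of_subset_of_nonneg hTN fun e _ _ => by positivity)
    have : 0 ≤ (e : ℝ) ^ (-t) := by positivity
    gcongr
    linarith
  have h3 := Finset.sum_sq_le_sum_mul_sum_of_sq_le_mul T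
    (r := fun e => wt s e * ((e : ℝ) ^ (-(t / 2)) - (e : ℝ) ^ (-t)) *
      |ell s N (χ e) - ell (s + τ) N (χ e)|)
    (f := fun e => wt s e ^ 2 * e * ((e : ℝ) ^ (-(t / 2)) - (e : ℝ) ^ (-t)))
    (g := fun e => ((e : ℝ) ^ (-(t / 2)) - (e : ℝ) ^ (-t)) / e *
      (ell s N (χ e) - ell (s + τ) N (χ e)) ^ 2)
    (fun e he => by have := hdx e he; positivity) (fun e he => by have := hdx e he; positivity)
    (fun e he => by
      have he0 : (e : ℝ) ≠ 0 := by have := hodd e he; exact_mod_cast (by omega : e ≠ 0)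
      rw [mul_pow, sq_abs]
      exact le_of_eq (by field_simp))
  refine le_of_pow_le_pow_left₀ (n := 2) (by norm_num) (by positivity) (le_trans h3 ?_)
  have h4 : 0 ≤ ∑ e ∈ T, ((e : ℝ) ^ (-(t / 2)) - (e : ℝ) ^ (-t)) / e *
      (ell s N (χ e) - ell (s + τ) N (χ e)) ^ 2 :=
    Finset.sum_nonneg fun e he => by have := hdx e he; positivity
  calc _ ≤ (2 * t ^ (-(1 / 4) : ℝ)) * (320000 * m) := by gcongr
    _ = _ := by
      rw [mul_pow, mul_pow, Real.sq_sqrt (by positivity), ← Real.rpow_natCast (t ^ (-(1 / 8) : ℝ)),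
        ← Real.rpow_mul ht0.le]
      norm_num
      ring

end Pool.Agent.MP_5d10af_nt.QA

end
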