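import Pool.Agent.MP_5d10af_nt.Mg.Num_Sound
import Pool.Agent.MP_5d10af_nt.Num.TabQ

-- part MP_5d10af_nt.Num.TabOK
section

/-!
The table lists the odd primes below 8192.
-/

set_option autoImplicit false

namespace Pool.Agent.MP_5d10af_nt.Num

lemma okQ_spec {lo hi : ℕ} : ∀ {L : List (ℕ × ℕ)}, okQ lo hi L = true →
    ∀ x ∈ L, lo ≤ x.1 → x.1 < hi → x.2 = qr x.1
  | [], _, x, hx, _, _ => absurd hx List.not_mem_nil
  | y :: t, h, x, hx, h1, h2 => by
    have h' : and (cond (and (Nat.ble lo y.1) (Nat.blt y.1 hi)) (Nat.beq y.2 (qr y.1)) true)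
      (okQ lo hi t) = true := h
    rw [Bool.and_eq_true] at h'
    rcases List.mem_cons.mp hx with rfl | hx
    · have h3 := h'.1
      rw [Nat.ble_eq.mpr h1, Nat.blt_eq.mpr h2] at h3
      exact Nat.eq_of_beq_eq_true h3
    · exact okQ_spec h'.2 x hx h1 h2

def isP (n : ℕ) : Bool :=
  cond (Nat.blt n 91) (l97.elem n) (Nat.beq (Nat.gcd (Nat.factorial 90) n) 1)

lemma isP_iff {n : ℕ} (hn : n < 8192) : isP n = true ↔ n.Prime ∧ n % 2 = 1 := by
  unfold isP
  by_cases h : n < 91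
  · rw [Nat.blt_eq.mpr h, cond_true]
    interval_cases n <;> simp [l97] <;> norm_num
  · have h' : Nat.blt n 91 = false := by
      rw [← Bool.not_eq_true, Nat.blt_eq]; exact h
    rw [h', cond_false, Nat.beq_eq]
    constructor
    · intro hg
      have hd : ∀ m, 2 ≤ m → m ≤ 90 → ¬ m ∣ n := fun m h2 h3 h4 => by
        have := Nat.dvd_gcd (Nat.dvd_factorial (by omega) h3) h4
        rw [hg] at this
        have := Nat.le_of_dvd one_pos this
        omega
      refine ⟨Nat.prime_def_le_sqrt.mpr ⟨by omega, fun m h2 h3 => hd m h2 ?_⟩, ?_⟩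
      · have := Nat.le_sqrt.mp h3
        nlinarith
      · have := hd 2 le_rfl (by norm_num)
        omega
    · rintro ⟨hp, -⟩
      exact (hp.coprime_factorial_of_lt (by omega)).symm

lemma tab_fst : tab0.map Prod.fst = (List.range 8192).filter isP := by decide +kernel

lemma tab_fst171 : (tab0.take 171).map Prod.fst = (List.range 1031).filter isP := by
  decide +kernel

lemma tab_fst24 : (tab0.take 24).map Prod.fst = l97 := by decide +kernel

lemma tab_len : (tab0.take 171).length = 171 := by decide +kernel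

lemma tabOK_of {L : List (ℕ × ℕ)} {K K' : ℕ} (hK : K = 8192) (hK' : K' = 1031)
    (h1 : L.map Prod.fst = (List.range K).filter isP)
    (h2 : (L.take 171).map Prod.fst = (List.range K').filter isP)
    (h3 : (L.take 24).map Prod.fst = l97) (h4 : (L.take 171).length = 171)
    (q0 : okQ 0 3600 L = true) (q1 : okQ 3600 5100 L = true) (q2 : okQ 5100 6300 L = true)
    (q3 : okQ 6300 7300 L = true) (q4 : okQ 7300 8192 L = true) : TabOK L where
  prime x hx := by
    have hm : x.1 ∈ (List.range K).filter isP := h1 ▸ List.mem_map_of_mem hx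
    rw [List.mem_filter, List.mem_range] at hm
    have hlt : x.1 < 8192 := hK ▸ hm.1
    obtain ⟨a, b⟩ := (isP_iff hlt).mp hm.2
    refine ⟨a, b, ?_⟩
    by_cases c0 : x.1 < 3600
    · exact okQ_spec q0 x hx (by omega) c0
    by_cases c1 : x.1 < 5100
    · exact okQ_spec q1 x hx (by omega) c1
    by_cases c2 : x.1 < 6300
    · exact okQ_spec q2 x hx (by omega) c2
    by_cases c3 : x.1 < 7300
    · exact okQ_spec q3 x hx (by omega) c3
    exact okQ_spec q4 x hx (by omega) hlt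
  sorted := h1 ▸ List.pairwise_lt_range.filter _
  all q hq ho hl := by
    rw [h1, List.mem_filter, List.mem_range]
    exact ⟨by omega, (isP_iff hl).mpr ⟨hq, ho⟩⟩
  z := h3
  len := h4
  g q hq ho hl := by
    rw [h2, List.mem_filter, List.mem_range]
    exact ⟨by omega, (isP_iff (by omega)).mpr ⟨hq, ho⟩⟩

theorem tabOK : TabOK tab0 :=
  tabOK_of rfl rfl tab_fst tab_fst171 tab_fst24 tab_len okQs.1 okQs.2.1 okQs.2.2.1 okQs.2.2.2.1
    okQs.2.2.2.2

end Pool.Agent.MP_5d10af_nt.Num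

end

-- part MP_5d10af_nt.Head
section

/-!
The part of the double sum where one variable is small.
-/

set_option autoImplicit false

namespace Pool.Agent.MP_5d10af_nt

open Finset

lemma head_cont_rpow {p : ℕ} (hp : p ≠ 0) : Continuous fun σ : ℝ => (p : ℝ) ^ σ :=
  Real.continuous_const_rpow (Nat.cast_ne_zero.2 hp)

lemma head_cont_inv {p : ℕ} (hp : p ≠ 0) : Continuous fun σ : ℝ => 1 / (2 * (p : ℝ) ^ σ + 1) :=
  continuous_const.div ((continuous_const.mul (head_cont_rpow hp)).add continuous_const)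
    fun σ => by positivity

lemma head_cont_gw (a : ℕ) : Continuous fun σ => gw σ a :=
  continuous_finsetProd _ fun _ hp => head_cont_inv (Nat.prime_of_mem_primeFactors hp).ne_zero

lemma head_cont_GG (a : ℕ) : Continuous fun σ => GG σ a := by
  unfold GG
  split_ifs
  · exact head_cont_gw a
  · exact continuous_const

lemma head_cont_PZ {Z : Finset ℕ} (hZ : ∀ p ∈ Z, p.Prime) (χ : ℕ → ℝ) :
    Continuous fun σ => PZ σ Z χ :=
  continuous_finsetProd _ fun p hp =>
    continuous_const.add (continuous_const.mul (head_cont_inv (hZ p hp).ne_zero))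

lemma head_cont_HZ {Z : Finset ℕ} (hZ : ∀ p ∈ Z, p.Prime) (χ : ℕ → ℝ) :
    Continuous fun σ => HZ σ Z χ :=
  continuous_finsetProd _ fun p hp =>
    (continuous_const.add (continuous_const.mul (head_cont_inv (hZ p hp).ne_zero))).mul
      (continuous_const.sub (continuous_const.mul
        ((head_cont_rpow (hZ p hp).ne_zero).comp continuous_neg)))

lemma head_cont_phi (X m : ℕ) (hX : 1 ≤ X) : Continuous fun σ => phi σ X m := by
  unfold phi
  split_ifs with h
  · have h1 : (4 * (X : ℝ) - 1) ≠ 0 := by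
      have : (1 : ℝ) ≤ X := by exact_mod_cast hX
      linarith [show (0 : ℝ) < 4 * X - 1 by linarith]
    exact ((head_cont_rpow (p := m) (by omega)).comp continuous_neg).sub
      (((Real.continuous_const_rpow h1).comp (continuous_const.sub continuous_id)).mul
        continuous_const)
  · exact continuous_const

lemma head_cont_sum (T : Finset ℕ) (X : ℕ) (hX : 1 ≤ X) (χ : ℕ → ℝ) :
    Continuous fun σ => ∑ m ∈ T, phi σ X m * χ m :=
  continuous_finsetSum _ fun m _ => (head_cont_phi X m hX).mul continuous_const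

lemma head_cont_majT (i : Fin 4) (e : ℕ) : Continuous fun σ => majT σ i e :=
  ((head_cont_sum _ 2048 (by norm_num) _).add continuous_const).add continuous_const

lemma Z97_prime : ∀ p ∈ Z97, p.Prime ∧ p ≠ 2 ∧ p < 100 := by
  intro p hp
  simp only [Z97, Finset.mem_insert, Finset.mem_singleton] at hp
  rcases hp with h | h | h | h | h | h | h | h | h | h | h | h | h | h | h | h | h | h | h | h |
    h | h | h | h <;> subst h <;> norm_num

lemma head_cont_numT (c : ℝ) (e : ℕ) : Continuous fun σ => numT σ c e := by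
  have hZ : ∀ p ∈ Z97, p.Prime := fun p hp => (Z97_prime p hp).1
  refine (head_cont_GG e).mul ((continuous_const.mul (continuous_finsetSum _ fun i _ => ?_)).sub
    (continuous_finsetSum _ fun a _ => (head_cont_GG a).mul continuous_const))
  split_ifs
  · exact continuous_const
  · exact continuous_const.mul (((head_cont_PZ hZ _).div_const _).add
      (((head_cont_HZ hZ _).mul (head_cont_majT i e)).div_const _))

lemma head_cont_numS : Continuous numS :=
  (continuous_finsetSum _ fun _ _ => head_cont_numT _ _).add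
    (continuous_finsetSum _ fun _ _ => head_cont_numT _ _)

/-- The truncation bound with `X = B = 2048`. -/
lemma head_TL {σ : ℝ} (hσ : 1 < σ) {i : Fin 4} {e : ℕ} (he : e % 2 = 1)
    (h : i ≠ 0 ∨ ¬ IsSquare e) :
    Lf σ (chi i e) ≤ (∑ m ∈ Icc 1 8192, phi σ 2048 m * chi i e m) +
      cpsi i * √(e : ℝ) * sg1 2048 + 1 / 8192 +
        (σ - 1) * (2 * (cpsi i * √(e : ℝ) / 2048 + 1)) := by
  have h1 := TL1 (lemB i e he h) (chi_cm i e).abs_le
    (mul_nonneg (cpsi_pos i).le (Real.sqrt_nonneg _)) hσ (X := 2048) (B := 2048)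
    (by norm_num) (by norm_num)
  have h2 : √(((2048 : ℕ) : ℝ) * ((2048 : ℕ) : ℝ)) = 2048 := by
    rw [Real.sqrt_mul_self (by positivity)]; norm_num
  have h3 : (4 * 2048 : ℕ) = 8192 := by norm_num
  have h4 : ((2048 : ℕ) : ℝ) / ((2048 : ℕ) : ℝ) = 1 := div_self (by norm_num)
  have h5 : 1 / (4 * ((2048 : ℕ) : ℝ)) = 1 / 8192 := by norm_num
  rw [h2, h3, h4, h5] at h1
  have := (abs_le.1 h1).2
  linarith

lemma head_Lf_nonneg {σ : ℝ} (hσ : 1 < σ) {χ : ℕ → ℝ} (h : CM χ) : 0 ≤ Lf σ χ := by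
  by_contra hc
  have hη : 0 < -Lf σ χ := by linarith
  obtain ⟨P0, hP⟩ := LN_approx hσ hη
  obtain ⟨N, hN⟩ := exists_good P0
  have h1 := (abs_le.1 (hP P0 N le_rfl hN σ le_rfl χ h)).2
  have h2 := LN_pos (by linarith : 0 < σ) N h
  linarith

lemma head_phi_nonneg {σ : ℝ} (hσ : 1 ≤ σ) {X : ℕ} (hX : 32 ≤ X) (m : ℕ) : 0 ≤ phi σ X m := by
  by_cases hm : m % 2 = 1
  · exact (phi_bounds hσ hX hm).1
  · unfold phi
    rw [if_neg fun h => hm h.1]

lemma head_chi_sq (r m : ℕ) : 0 ≤ chi 0 (r * r) m := by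
  unfold chi
  have h1 : 0 ≤ psi 0 m := by unfold psi; split_ifs <;> simp_all
  have h2 : 0 ≤ jacobiSym m (r * r) := by
    rcases Nat.eq_zero_or_pos r with rfl | hr
    · simp
    · rw [jacobiSym.mul_right' _ hr.ne' hr.ne']
      exact mul_self_nonneg _
  exact_mod_cast mul_nonneg h1 h2

lemma majT_nonneg (i : Fin 4) {e : ℕ} (he : e % 2 = 1) : 0 ≤ majT 1 i e := by
  have h0 : 0 ≤ cpsi i * √(e : ℝ) * sg1 2048 :=
    mul_nonneg (mul_nonneg (cpsi_pos i).le (Real.sqrt_nonneg _)) (sg1_nonneg (by norm_num))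
  by_cases h : i ≠ 0 ∨ ¬ IsSquare e
  · let G : ℝ → ℝ := fun σ => majT σ i e + (σ - 1) * (2 * (cpsi i * √(e : ℝ) / 2048 + 1))
    have hG : Continuous G := (head_cont_majT i e).add
      ((continuous_id.sub continuous_const).mul continuous_const)
    have h1 : ∀ σ, 1 < σ → 0 ≤ G σ := by
      intro σ hσ
      have h2 := head_TL hσ he h
      have h3 := head_Lf_nonneg hσ (chi_cm i e)
      change 0 ≤ majT σ i e + _
      unfold majT
      have : (1 / 8192 : ℝ) ≤ 0.000222 := by norm_num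
      linarith
    have h2 : 0 ≤ G 1 := by
      refine ge_of_tendsto (x := nhdsWithin (1 : ℝ) (Set.Ioi 1))
        (hG.continuousAt.tendsto.mono_left nhdsWithin_le_nhds) ?_
      exact eventually_nhdsWithin_of_forall h1
    change 0 ≤ majT 1 i e + _ at h2
    rwa [sub_self, zero_mul, add_zero] at h2
  · rw [not_or, not_not, not_not] at h
    obtain ⟨rfl, r, rfl⟩ := h
    unfold majT
    have h1 : 0 ≤ ∑ m ∈ Icc 1 8192, phi 1 2048 m * chi 0 (r * r) m :=
      sum_nonneg fun m _ => mul_nonneg (head_phi_nonneg le_rfl (by norm_num) m) (head_chi_sq r m)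
    have : (0 : ℝ) ≤ 0.000222 := by norm_num
    linarith

/-- Splitting a symmetric double sum. -/
lemma head_split (S : Finset ℕ) (F : ℕ → ℕ → ℝ) (hF : ∀ a ∈ S, ∀ e ∈ S, F a e = F e a)
    {A E : ℕ} (hAE : A ≤ E) :
    ∑ a ∈ S, ∑ e ∈ S, F a e =
      ∑ e ∈ S.filter (fun e => 0 < e + 1 ∧ e ≤ A),
        (2 * ∑ a ∈ S, F a e - ∑ a ∈ S.filter (fun a => ¬ A < a), F a e) +
      ∑ e ∈ S.filter (fun e => A < e ∧ e ≤ E),
        (∑ a ∈ S, F a e - ∑ a ∈ S.filter (fun a => ¬ A < a), F a e) +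
      ∑ e ∈ S.filter (fun e => E < e), ∑ a ∈ S.filter (fun a => A < a), F a e := by
  have e0 : S.filter (fun e => 0 < e + 1 ∧ e ≤ A) = S.filter (fun a => ¬ A < a) :=
    filter_congr fun e _ => by omega
  have h1 : ∀ e, ∑ a ∈ S, F a e = ∑ a ∈ S.filter (fun a => A < a), F a e +
      ∑ a ∈ S.filter (fun a => ¬ A < a), F a e := fun e =>
    (sum_filter_add_sum_filter_not S _ _).symm
  have h2 : ∑ e ∈ S.filter (fun a => A < a), ∑ a ∈ S.filter (fun a => ¬ A < a), F a e =
      ∑ e ∈ S.filter (fun a => ¬ A < a), ∑ a ∈ S.filter (fun a => A < a), F a e := by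
    rw [sum_comm]
    exact sum_congr rfl fun e he => sum_congr rfl fun a ha =>
      hF _ (mem_filter.1 he).1 _ (mem_filter.1 ha).1
  have h3 : ∀ G : ℕ → ℝ, ∑ e ∈ S.filter (fun a => A < a), G e =
      ∑ e ∈ S.filter (fun e => A < e ∧ e ≤ E), G e + ∑ e ∈ S.filter (fun e => E < e), G e := by
    intro G
    rw [← sum_filter_add_sum_filter_not (S.filter fun a => A < a) (fun e => e ≤ E),
      filter_filter, filter_filter]
    congr 2
    exact filter_congr fun e _ => by omega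
  rw [sum_comm, ← sum_filter_add_sum_filter_not S (fun a => A < a), e0]
  simp only [h1, sum_add_distrib, add_sub_cancel_right, mul_add, sum_sub_distrib, ← mul_sum]
  rw [h2, h3]
  ring

lemma head_mem {P N a : ℕ} (hN : Good P N) (ha : a ∈ N.divisors) :
    Squarefree a ∧ a % 2 = 1 :=
  ⟨hN.sqf.squarefree_of_dvd (Nat.dvd_of_mem_divisors ha),
    Nat.odd_iff.1 (hN.odd.of_dvd_nat (Nat.dvd_of_mem_divisors ha))⟩

lemma head_mem' {P N a : ℕ} (hN : Good P N) (h1 : Squarefree a) (h2 : a % 2 = 1) (h3 : a < P) :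
    a ∈ N.divisors :=
  Nat.mem_divisors.2 ⟨hN.dvd_of_lt h1 h2 h3, hN.sqf.ne_zero⟩

lemma head_low {P N A : ℕ} (hN : Good P N) (hA : A < P) (σ : ℝ) (e : ℕ) :
    ∑ a ∈ N.divisors.filter (fun a => ¬ A < a), gw σ a * Kf a e =
      ∑ a ∈ Icc 1 A, GG σ a * Kf a e := by
  have h1 : ∑ a ∈ N.divisors.filter (fun a => ¬ A < a), gw σ a * Kf a e =
      ∑ a ∈ N.divisors.filter (fun a => ¬ A < a), GG σ a * Kf a e :=
    sum_congr rfl fun a ha => by rw [GG, if_pos (head_mem hN (mem_filter.1 ha).1).1]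
  rw [h1]
  refine sum_subset (fun a ha => ?_) fun a ha hn => ?_
  · have h2 := (head_mem hN (mem_filter.1 ha).1).2
    have h3 := (mem_filter.1 ha).2
    rw [mem_Icc]
    omega
  · rw [mem_Icc] at ha
    by_cases h2 : Squarefree a
    · by_cases h3 : a % 2 = 1
      · exact absurd (mem_filter.2 ⟨head_mem' hN h2 h3 (by omega), by omega⟩) hn
      · have : Kf a e = 0 :=
          sum_eq_zero fun i _ => by rw [(chi_cm i e).even (by omega), mul_zero]
        rw [this, mul_zero]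
    · rw [GG, if_neg h2, zero_mul]

lemma head_reindex {P N x y : ℕ} (hN : Good P N) (hy : 2 * y < P) (F : ℕ → ℝ)
    (hF : ∀ e, ¬ Squarefree e → F e = 0) (q : ℕ → Prop) [DecidablePred q]
    (hq : ∀ e, e % 2 = 1 → (q e ↔ 2 * x < e ∧ e ≤ 2 * y)) :
    ∑ e ∈ N.divisors.filter q, F e = ∑ j ∈ Ico x y, F (2 * j + 1) := by
  rw [← sum_image (s := Ico x y) (g := fun j => 2 * j + 1) (f := F)
    (fun a _ b _ h => by simp only at h; omega)]
  refine sum_subset (fun e he => ?_) fun e he hn => ?_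
  · have h2 := (head_mem hN (mem_filter.1 he).1).2
    have h3 := (hq e h2).1 (mem_filter.1 he).2
    exact mem_image.2 ⟨e / 2, mem_Ico.2 (by omega), by omega⟩
  · obtain ⟨j, hj, rfl⟩ := mem_image.1 he
    rw [mem_Ico] at hj
    refine hF _ fun h2 => hn (mem_filter.2 ⟨head_mem' hN h2 (by omega) (by omega), ?_⟩)
    exact (hq _ (by omega)).2 (by omega)

/-- The majorant of the inner sum. -/
noncomputable def headU (σ : ℝ) (e : ℕ) : ℝ :=
  ∑ i : Fin 4, (if e = 1 ∧ i = 0 then 0 else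
    kk i e * (PZ σ Z97 (chi i e) / 2 + HZ σ Z97 (chi i e) * majT σ i e / 2))

lemma head_full {σ : ℝ} (hσ : 1 < σ) (hσ' : σ ≤ 1.00001) {P N : ℕ} (hN : Good P N) (hP : 100 ≤ P)
    (hL : ∀ χ : ℕ → ℝ, CM χ → |LN σ N χ - Lf σ χ| ≤ 0.00005) {e : ℕ} (he : e ∈ N.divisors)
    (hE : e ≤ 2 ^ 20) :
    ∑ a ∈ N.divisors, gw σ a * Kf a e ≤
      (if e = 1 then 3 / 2 * ∑ a ∈ N.divisors, gw σ a else 0) + headU σ e := by
  obtain ⟨hs, ho⟩ := head_mem hN he
  have hZ : ∀ p ∈ Z97, p.Prime := fun p hp => (Z97_prime p hp).1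
  have hZ' : Z97 ⊆ N.primeFactors := fun p hp => by
    obtain ⟨h1, h2, h3⟩ := Z97_prime p hp
    exact Nat.mem_primeFactors.2 ⟨h1, hN.dvd p h1 h2 (by omega), hN.sqf.ne_zero⟩
  have e1 : ∑ a ∈ N.divisors, gw σ a * Kf a e =
      ∑ i : Fin 4, kk i e * ∑ a ∈ N.divisors, gw σ a * chi i e a := by
    simp only [Kf, mul_sum]
    rw [sum_comm]
    exact sum_congr rfl fun i _ => sum_congr rfl fun a _ => by ring
  have e2 : (if e = 1 then 3 / 2 * ∑ a ∈ N.divisors, gw σ a else 0) =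
      ∑ i : Fin 4, if e = 1 ∧ i = 0 then 3 / 2 * ∑ a ∈ N.divisors, gw σ a else 0 := by
    by_cases h : e = 1 <;> simp [h]
  rw [e1, e2, headU, ← sum_add_distrib]
  refine sum_le_sum fun i _ => ?_
  split_ifs with h
  · obtain ⟨rfl, rfl⟩ := h
    have h1 : kk 0 1 = 3 / 2 := by simp [kk, kk32]; norm_num
    rw [h1, add_zero]
    refine le_of_eq (congrArg _ (sum_congr rfl fun a ha => ?_))
    rw [chi_zero_one, if_neg (by have := (head_mem hN ha).2; omega), mul_one]
  · rw [zero_add]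
    refine mul_le_mul_of_nonneg_left ?_ (kk_nonneg i e)
    have h1 : i ≠ 0 ∨ ¬ IsSquare e := by
      by_contra hc
      rw [not_or, not_not, not_not] at hc
      obtain ⟨hi, r, hr⟩ := hc
      have h2 : IsUnit r := hs r (hr ▸ dvd_rfl)
      rw [Nat.isUnit_iff] at h2
      exact h ⟨by rw [hr, h2], hi⟩
    have h2 := head_TL hσ ho h1
    have h3 := (abs_le.1 (hL _ (chi_cm i e))).2
    have h4 : √(e : ℝ) ≤ 1024 := by
      rw [Real.sqrt_le_left (by norm_num)]
      have : (e : ℝ) ≤ ((2 ^ 20 : ℕ) : ℝ) := Nat.cast_le.2 hE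
      norm_num at this ⊢
      exact this
    have h5 : cpsi i * √(e : ℝ) ≤ 1.41422 * 1024 :=
      mul_le_mul ((cpsi_le i).trans sqrt_two_lt.le) h4 (Real.sqrt_nonneg _) (by norm_num)
    have h6 : (σ - 1) * (2 * (cpsi i * √(e : ℝ) / 2048 + 1)) ≤ 0.00001 * 4 :=
      mul_le_mul (by linarith) (by linarith)
        (by have := mul_nonneg (cpsi_pos i).le (Real.sqrt_nonneg (e : ℝ)); positivity)
        (by norm_num)
    have h7 : LN σ N (chi i e) ≤ majT σ i e := by
      unfold majT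
      have : (1 / 8192 + 0.00001 * 4 + 0.00005 : ℝ) ≤ 0.000222 := by norm_num
      linarith
    have h8 := maj hσ.le hN.sqf hZ' (chi_cm i e)
    have h9 := mul_le_mul_of_nonneg_left h7 (HZ_pos hσ.le hZ (chi_cm i e)).le
    linarith

lemma head_le {σ : ℝ} (hσ : 1 < σ) (hσ' : σ ≤ 1.00001) {P N : ℕ} (hN : Good P N)
    (hP : 2 ^ 20 < P) (hL : ∀ χ : ℕ → ℝ, CM χ → |LN σ N χ - Lf σ χ| ≤ 0.00005) :
    rr σ N - tailS σ N ≤ numS σ := by
  have hnum : ∀ c, ∀ e ∈ N.divisors, numT σ c e = gw σ e * (c * headU σ e -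
      ∑ a ∈ N.divisors.filter (fun a => ¬ 2 ^ 13 < a), gw σ a * Kf a e) := by
    intro c e he
    rw [head_low hN (by omega), numT, GG, if_pos (head_mem hN he).1]
    rfl
  have hz : ∀ c e, ¬ Squarefree e → numT σ c e = 0 := fun c e he => by
    rw [numT, GG, if_neg he, zero_mul]
  have hin : ∀ (T : Finset ℕ) (e : ℕ), ∑ a ∈ T, gw σ a * gw σ e * Kf a e =
      gw σ e * ∑ a ∈ T, gw σ a * Kf a e := fun T e => by
    rw [mul_sum]
    exact sum_congr rfl fun a _ => by ring
  have h1 := head_split N.divisors (fun a e => gw σ a * gw σ e * Kf a e)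
    (fun a ha e he => by rw [Kf_symm (head_mem hN ha).2 (head_mem hN he).2]; ring)
    (A := 2 ^ 13) (E := 2 ^ 20) (by norm_num)
  simp only [hin] at h1
  have h2 := head_reindex (x := 0) (y := 4096) hN (by omega) _ (hz 2)
    (fun e => 0 < e + 1 ∧ e ≤ 2 ^ 13) fun e he => by omega
  have h3 := head_reindex (x := 4096) (y := 524288) hN (by omega) _ (hz 1)
    (fun e => 2 ^ 13 < e ∧ e ≤ 2 ^ 20) fun e he => by omega
  have h4 : ∑ e ∈ N.divisors.filter (fun e => 0 < e + 1 ∧ e ≤ 2 ^ 13),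
      (2 * (gw σ e * ∑ a ∈ N.divisors, gw σ a * Kf a e) -
        gw σ e * ∑ a ∈ N.divisors.filter (fun a => ¬ 2 ^ 13 < a), gw σ a * Kf a e) ≤
      ∑ e ∈ N.divisors.filter (fun e => 0 < e + 1 ∧ e ≤ 2 ^ 13),
        ((if e = 1 then 3 * ∑ a ∈ N.divisors, gw σ a else 0) + numT σ 2 e) := by
    refine sum_le_sum fun e he => ?_
    obtain ⟨he1, he2⟩ := mem_filter.1 he
    have h5 := mul_le_mul_of_nonneg_left
      (head_full hσ hσ' hN (by omega) hL he1 (by omega)) (gw_pos σ e).le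
    rw [hnum 2 e he1]
    split_ifs at h5 ⊢ with h
    · have : gw σ e = 1 := by rw [h]; simp [gw]
      rw [this] at h5 ⊢
      linarith
    · linarith
  have h5 : ∑ e ∈ N.divisors.filter (fun e => 2 ^ 13 < e ∧ e ≤ 2 ^ 20),
      (gw σ e * ∑ a ∈ N.divisors, gw σ a * Kf a e -
        gw σ e * ∑ a ∈ N.divisors.filter (fun a => ¬ 2 ^ 13 < a), gw σ a * Kf a e) ≤
      ∑ e ∈ N.divisors.filter (fun e => 2 ^ 13 < e ∧ e ≤ 2 ^ 20), numT σ 1 e := by
    refine sum_le_sum fun e he => ?_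
    obtain ⟨he1, he2⟩ := mem_filter.1 he
    have h5 := mul_le_mul_of_nonneg_left
      (head_full hσ hσ' hN (by omega) hL he1 he2.2) (gw_pos σ e).le
    rw [hnum 1 e he1]
    rw [if_neg (by omega)] at h5
    linarith
  rw [sum_add_distrib, sum_ite_eq', h2, ← range_eq_Ico, if_pos (mem_filter.2
    ⟨Nat.one_mem_divisors.2 hN.sqf.ne_zero, by norm_num⟩)] at h4
  rw [h3] at h5
  unfold rr tailS numS
  rw [h1]
  generalize ∑ j ∈ range 4096, numT σ 2 (2 * j + 1) = u at h4 ⊢
  generalize ∑ j ∈ Ico 4096 524288, numT σ 1 (2 * j + 1) = v at h5 ⊢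
  linarith

theorem head (h : numS 1 ≤ -1.4) : Ev fun σ N => rr σ N - tailS σ N ≤ -1.35 := by
  have h1 : ∀ᶠ σ in nhds (1 : ℝ), numS σ < -1.35 :=
    head_cont_numS.continuousAt.eventually_lt continuousAt_const (by linarith)
  obtain ⟨ε, hε, h2⟩ := Metric.eventually_nhds_iff.1 h1
  refine ⟨min (1 + ε) 1.00001, lt_min (by linarith) (by norm_num), fun σ hσ hσ' => ?_⟩
  obtain ⟨P0, hP⟩ := LN_approx hσ (η := 0.00005) (by norm_num)
  refine ⟨max P0 (2 ^ 20 + 1), fun P N hP' hN => ?_⟩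
  have h3 := head_le hσ (lt_min_iff.1 hσ').2.le hN (le_of_max_le_right hP')
    fun χ hχ => hP P N (le_of_max_le_left hP') hN σ le_rfl χ hχ
  have h4 : numS σ < -1.35 := h2 (by
    rw [Real.dist_eq, abs_of_pos (by linarith)]
    linarith [(lt_min_iff.1 hσ').1])
  exact h3.trans h4.le

end Pool.Agent.MP_5d10af_nt

end
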