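import Pool.Agent.MP_5d10af_nt.Mg.Q2_Terms
import Pool.Agent.MP_5d10af_nt.H69.Field
import Pool.Agent.MP_5d10af_nt.Mg.H69_Omega

/-! Identification of the constants. -/

set_option autoImplicit false

namespace Pool.Agent.MP_5d10af_nt.Q2

open Finset Filter Real Asymptotics Topology H69

theorem S_nat (n : ℕ) : S n = ∑ m ∈ Ico 1 n, (Fd (-(m : ℤ)) : ℝ) := by
  rw [S_eq, Int.ceil_natCast, sum_Ioo_neg (fun d => (Fd d : ℝ))]

theorem asy_S : Asy S := by
  have h := (asy_F (genus_of_isF Fd isF_Fd)).comp (g := fun X => ((⌈X⌉₊ - 1 : ℕ) : ℝ)) (l := 1)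
    (C := 1) one_pos (by
      filter_upwards [eventually_ge_atTop 1] with X hX
      have h1 : 1 ≤ ⌈X⌉₊ := Nat.one_le_ceil_iff.2 (by linarith)
      have h2 := Nat.le_ceil X
      have h3 := Nat.ceil_lt_add_one (show 0 ≤ X by linarith)
      rw [Nat.cast_sub h1, abs_le]
      constructor <;> push_cast <;> linarith)
  refine h.congr ?_
  filter_upwards [eventually_ge_atTop 1] with X hX
  have h1 : 1 ≤ ⌈X⌉₊ := Nat.one_le_ceil_iff.2 (by linarith)
  rw [S_eq, ← Int.natCast_ceil_eq_ceil (by linarith), sum_Ioo_neg (fun d => (Fd d : ℝ)), Sm,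
    Nat.floor_natCast]
  congr 1

theorem ph_pos : ∀ᶠ X : ℝ in atTop, 0 < Ph X := by
  filter_upwards [eventually_gt_atTop 1] with X hX
  exact div_pos (by linarith) (sqrt_pos.2 (log_pos hX))

theorem ph_div : Tendsto (fun X => Ph X / X) atTop (𝓝 0) := by
  have h : Tendsto (fun X : ℝ => (√(log X))⁻¹) atTop (𝓝 0) :=
    (tendsto_sqrt_atTop.comp tendsto_log_atTop).inv_tendsto_atTop
  refine h.congr' ?_
  filter_upwards [eventually_gt_atTop 0] with X hX
  rw [Ph]
  field_simp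

theorem second (he : Expl) : ∃ κ : ℝ, 0 < κ ∧
    Tendsto (fun X : ℝ => S X / X) atTop (𝓝 (6 / π ^ 2)) ∧
    Tendsto (fun X : ℝ => (S X - 6 / π ^ 2 * X) / (X / √(log X))) atTop (𝓝 (-κ)) := by
  have hG := genus_of_isF Fd isF_Fd
  have hq := qualB_of_qualA qualA
  obtain ⟨c, ρ, h⟩ := asy_S
  have t2 : Tendsto (fun X : ℝ => (S X - c * X) / Ph X) atTop (𝓝 ρ) := by
    have := h.tendsto_div_nhds_zero.add_const ρ
    rw [zero_add] at this
    refine this.congr' ?_
    filter_upwards [ph_pos] with X hX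
    field_simp
    ring
  have t1 : Tendsto (fun X : ℝ => S X / X) atTop (𝓝 c) := by
    have := (t2.mul ph_div).add_const c
    rw [mul_zero, zero_add] at this
    refine this.congr' ?_
    filter_upwards [ph_pos, eventually_gt_atTop 0] with X hX h0
    field_simp
    ring
  obtain ⟨η, hη, hn⟩ := omega_neg Fd hG hq he
  have fr : ∀ {p : ℝ → Prop}, (∀ n0 : ℕ, ∃ n : ℕ, n0 ≤ n ∧ p n) → ∃ᶠ X in atTop, p X := fun h => by
    rw [frequently_atTop]
    intro a
    obtain ⟨n, hn, hp⟩ := h ⌈a⌉₊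
    exact ⟨n, (Nat.le_ceil a).trans (by exact_mod_cast hn), hp⟩
  have f1 : ∃ᶠ X : ℝ in atTop, S X - 6 / π ^ 2 * X < -(η * X / √(log X)) := fr fun n0 => by
    obtain ⟨n, h1, h2⟩ := hn n0
    exact ⟨n, h1, by rw [S_nat]; exact h2⟩
  have c1 : c ≤ 6 / π ^ 2 := by
    refine le_of_tendsto_of_frequently t1 ((f1.and_eventually (eventually_gt_atTop 0)).mono ?_)
    rintro X ⟨h1, h0⟩
    have : 0 ≤ η * X / √(log X) := by positivity
    rw [div_le_iff₀ h0]
    linarith
  have c2 : 6 / π ^ 2 ≤ c := le_of_forall_lt_imp_le_of_dense fun c' hc' => by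
    have f2 : ∃ᶠ X : ℝ in atTop, 0 * X / √(log X) < S X - c' * X := fr fun n0 => by
      obtain ⟨n, h1, h2⟩ := omega_pos Fd hG hq hc' le_rfl n0
      exact ⟨n, h1, by rw [S_nat]; exact h2⟩
    refine ge_of_tendsto_of_frequently t1 ((f2.and_eventually (eventually_gt_atTop 0)).mono ?_)
    rintro X ⟨h1, h0⟩
    rw [le_div_iff₀ h0]
    simp only [zero_mul, zero_div] at h1
    linarith
  obtain rfl : c = 6 / π ^ 2 := le_antisymm c1 c2
  have r1 : ρ ≤ -η := by
    refine le_of_tendsto_of_frequently t2 ((f1.and_eventually ph_pos).mono ?_)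
    rintro X ⟨h1, h0⟩
    rw [div_le_iff₀ h0, Ph]
    rw [mul_div_assoc] at h1
    linarith
  exact ⟨-ρ, by linarith, t1, by rw [neg_neg]; exact t2⟩

end Pool.Agent.MP_5d10af_nt.Q2
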