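import Pool.Agent.MP_5d10af_nt.Mg.QualA
import Pool.Agent.MP_5d10af_nt.Mg.Decomp
import Pool.Agent.MP_a96b63_al.V.SW

attribute [-instance] IdemSemiring.toCanonicallyOrderedAdd AddQuantale.instAddLeftMono
  covariant_swap_mul_of_covariant_mul IsOrderedMonoid.toMulLeftMono NumberField.to_charZero
  AddQuantale.instAddRightMono IdemSemiring.toMulLeftMono Fintype.decidableForallFintype
  Quantale.instMulLeftMono LinearOrderedCommMonoidWithZero.toPosMulStrictMono RKHS.instFunLike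
  Quantale.instMulRightMono instCoeHTCTOfCoeHTC CanonicallyOrderedAdd.toMulLeftMono instCoeTOfCoeDep
  NeZero.of_gt' GrpTypeEquivalenceGrp.grpGroup instCoeHTCTOfCoeTailOfCoeHTC Invertible.toNeZero
  Field.toCommRing CanonicallyOrderedMul.toMulLeftMono
  Group.IsPerfect.subsingleton_of_isMulCommutative

-- part MP_5d10af_nt.Q2.Defs
section

/-! Definitions and elementary lemmas for the pointwise secondary term. -/

set_option autoImplicit false

namespace Pool.Agent.MP_5d10af_nt.Q2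

open Finset Filter Real Asymptotics Topology

/-- Partial sums. -/
noncomputable def Sm (f : ℕ → ℝ) (x : ℝ) : ℝ := ∑ n ∈ Icc 1 ⌊x⌋₊, f n

/-- Double sums under a hyperbola. -/
noncomputable def Dm (F : ℕ → ℕ → ℝ) (x : ℝ) : ℝ := Sm (fun a => Sm (F a) (x / a)) x

/-- Odd and squarefree. -/
def OS (n : ℕ) : Prop := Squarefree n ∧ n % 2 = 1

open Classical in
/-- The weight `2 ^ (-ω n)` on odd squarefree numbers. -/
noncomputable def w (n : ℕ) : ℝ := if OS n then (1 / 2) ^ #n.primeFactors else 0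

/-- The indicator of the numbers coprime to `m`. -/
noncomputable def cop (m n : ℕ) : ℝ := if Nat.Coprime n m then 1 else 0

/-- The local densities. -/
noncomputable def hh (n : ℕ) : ℝ := ∏ p ∈ n.primeFactors, (1 + 1 / (2 * (p : ℝ)))⁻¹

/-- Multiplicative weights that are close to one at most large primes. -/
structure Wg (Λ : ℝ) (v : ℕ → ℝ) : Prop where
  mul : ∀ a b, Nat.Coprime a b → v (a * b) = v a * v b
  abs : ∀ n, |v n| ≤ 1
  one : v 1 = 1
  near : ∀ (y : ℝ) (T : Finset ℕ), 1 ≤ y → (∀ p ∈ T, p.Prime ∧ y < p) →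
    ∑ p ∈ T, |1 - v p| / p ≤ Λ / y

/-- Real characters modulo `q` with mean zero. -/
structure Ch (q : ℕ) (χ : ℕ → ℝ) : Prop where
  pos : 0 < q
  cm : CM χ
  per : ∀ n, χ (n % q) = χ n
  cop : ∀ n, ¬ Nat.Coprime n q → χ n = 0
  zero : ∑ c ∈ range q, χ c = 0

/-- Kernels that are multiplicative in the long variable and satisfy a mean square bound. -/
structure Ker (J : ℕ → ℕ → ℝ) : Prop where
  ms : ∀ (M : ℕ) (b : ℕ → ℝ), (∀ n, n % 2 = 0 → b n = 0) → ∀ L : ℕ, 1 ≤ L →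
    ∑ y ∈ range L, (∑ n ∈ Icc 1 M, b n * J (2 * y + 1) n) ^ 2 ≤ 4 * L * Qf M b + 6 * Sf M b ^ 2
  mul : ∀ e e' a, e % 2 = 1 → e' % 2 = 1 → J (e * e') a = J e a * J e' a
  abs : ∀ e a, |J e a| ≤ 1

/-- The summand of a linked pair of variables. -/
noncomputable def kn (i j : Fin 4) (a e : ℕ) : ℝ :=
  w a * w e * ((psi i a * psi j e * jacobiSym e a : ℤ) : ℝ)

noncomputable def al (i j : Fin 4) (n : ℕ) : ℝ := ∑ x ∈ n.divisorsAntidiagonal, kn i j x.1 x.2

noncomputable def sg (i j : Fin 4) : ℝ := (if j = 0 then 1 else 0) + (if i = 0 then 1 else 0)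

/-- The oscillating part of `al`. -/
noncomputable def rm (i j : Fin 4) (n : ℕ) : ℝ := al i j n - sg i j * w n

/-- The `k`-th root of the logarithm. -/
noncomputable def rt (k : ℕ) (x : ℝ) : ℝ := log x ^ (1 / (k : ℝ))

noncomputable def MM (x : ℝ) : ℝ := Sm (fun n => w n / n) x

noncomputable def II (x : ℝ) : ℝ := Sm (fun n => w n / n * log (x / n)) x

noncomputable def MC (m : ℕ) (x : ℝ) : ℝ := Sm (fun n => w n * cop m n / n) x

noncomputable def WC (m : ℕ) (x : ℝ) : ℝ := Sm (fun n => w n * cop m n) x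

/-- The sum of `f k * g n` over coprime `k, n` with `k n ≤ Y`. -/
noncomputable def cv (f g : ℕ → ℝ) (Y : ℝ) : ℝ := Dm (fun n k => g n * (f k * cop n k)) Y

/-- The scale of the secondary term. -/
noncomputable def Ph (Y : ℝ) : ℝ := Y / √(log Y)

/-- Functions with a two term asymptotic expansion. -/
def Asy (f : ℝ → ℝ) : Prop := ∃ c ρ : ℝ, (fun Y => f Y - c * Y - ρ * Ph Y) =o[atTop] Ph


theorem OS.pos {n : ℕ} (h : OS n) : 0 < n := Nat.pos_of_ne_zero h.1.ne_zero

theorem OS.of_dvd {d n : ℕ} (h : OS n) (hd : d ∣ n) : OS d :=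
  ⟨h.1.squarefree_of_dvd hd, Nat.odd_iff.1 ((Nat.odd_iff.2 h.2).of_dvd_nat hd)⟩

theorem os_mul {a b : ℕ} : OS (a * b) ↔ OS a ∧ OS b ∧ Nat.Coprime a b := by
  constructor
  · intro h
    exact ⟨h.of_dvd (dvd_mul_right _ _), h.of_dvd (dvd_mul_left _ _),
      (Nat.squarefree_mul_iff.1 h.1).1⟩
  · rintro ⟨ha, hb, hab⟩
    exact ⟨Nat.squarefree_mul_iff.2 ⟨hab, ha.1, hb.1⟩,
      Nat.odd_iff.1 ((Nat.odd_iff.2 ha.2).mul (Nat.odd_iff.2 hb.2))⟩

theorem basa_w {n : ℕ} (h : OS n) : w n = (1 / 2) ^ #n.primeFactors := by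
  unfold w; rw [if_pos h]

theorem w_nonneg (n : ℕ) : 0 ≤ w n := by
  unfold w; split_ifs <;> positivity

theorem w_le_one (n : ℕ) : w n ≤ 1 := by
  unfold w
  split_ifs
  · exact pow_le_one₀ (by norm_num) (by norm_num)
  · norm_num

theorem abs_w_le (n : ℕ) : |w n| ≤ 1 := by
  rw [abs_of_nonneg (w_nonneg n)]; exact w_le_one n

theorem w_one : w 1 = 1 := by
  rw [basa_w ⟨squarefree_one, rfl⟩]; simp

theorem w_eq_zero {n : ℕ} (h : ¬ OS n) : w n = 0 := by
  unfold w; rw [if_neg h]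

theorem os_of_w {n : ℕ} (h : w n ≠ 0) : OS n := by
  by_contra h'; exact h (w_eq_zero h')

theorem w_mul {a b : ℕ} (h : Nat.Coprime a b) : w (a * b) = w a * w b := by
  by_cases ha : OS a
  · by_cases hb : OS b
    · rw [basa_w (os_mul.2 ⟨ha, hb, h⟩), basa_w ha, basa_w hb, h.primeFactors_mul,
        card_union_of_disjoint h.disjoint_primeFactors, pow_add]
    · rw [w_eq_zero hb, w_eq_zero fun h' => hb (os_mul.1 h').2.1, mul_zero]
  · rw [w_eq_zero ha, w_eq_zero fun h' => ha (os_mul.1 h').1, zero_mul]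

theorem w_mul_cop (a b : ℕ) : w (a * b) = w a * w b * cop a b := by
  unfold cop
  split_ifs with h
  · rw [w_mul h.symm, mul_one]
  · rw [w_eq_zero fun h' => h (os_mul.1 h').2.2.symm, mul_zero]

theorem w_prime {p : ℕ} (hp : p.Prime) (h2 : p ≠ 2) : w p = 1 / 2 := by
  rw [basa_w ⟨hp.prime.squarefree, Nat.odd_iff.1 (hp.odd_of_ne_two h2)⟩, hp.primeFactors]
  simp

theorem w_eq_wt {n : ℕ} (h : OS n) : w n = wt 0 n := by
  rw [basa_w h]; unfold wt; simp

theorem card_mul_w {n : ℕ} (h : OS n) : (#n.divisorsAntidiagonal : ℝ) * w n = 1 := by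
  have h1 : #n.divisorsAntidiagonal = 2 ^ #n.primeFactors := by
    rw [← Nat.map_div_left_divisors, card_map, Nat.card_divisors h.pos.ne', ← prod_const]
    refine prod_congr rfl fun p hp => ?_
    rw [Nat.factorization_eq_one_of_squarefree h.1 (Nat.prime_of_mem_primeFactors hp)
      (Nat.dvd_of_mem_primeFactors hp)]
  rw [h1, basa_w h]
  push_cast
  rw [← mul_pow]
  norm_num


theorem cop_comm (m n : ℕ) : cop m n = cop n m := by
  simp only [cop, Nat.coprime_comm]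

theorem cop_nonneg (m n : ℕ) : 0 ≤ cop m n := by
  unfold cop; split_ifs <;> norm_num

theorem cop_le_one (m n : ℕ) : cop m n ≤ 1 := by
  unfold cop; split_ifs <;> norm_num

theorem hh_pos (n : ℕ) : 0 < hh n :=
  prod_pos fun _ _ => by positivity

theorem hh_le_one (n : ℕ) : hh n ≤ 1 :=
  prod_le_one (fun _ _ => by positivity) fun p _ =>
    inv_le_one_of_one_le₀ (le_add_of_nonneg_right (by positivity))

theorem card_primeFactors_le {m : ℕ} (hm : 1 ≤ m) : (#m.primeFactors : ℝ) ≤ 2 * log m := by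
  have h1 : 2 ^ #m.primeFactors ≤ m :=
    (pow_card_le_prod _ _ _ fun p hp => (Nat.prime_of_mem_primeFactors hp).two_le).trans
      (Nat.le_of_dvd hm (Nat.prod_primeFactors_dvd m))
  have h2 : ((2 : ℝ) ^ #m.primeFactors) ≤ m := by exact_mod_cast h1
  have h3 := log_le_log (by positivity) h2
  rw [log_pow] at h3
  have h4 := log_two_gt_d9
  have h5 : (0 : ℝ) ≤ #m.primeFactors := by positivity
  nlinarith only [h3, h4]

theorem wg_cop {m : ℕ} (hm : 1 ≤ m) : Wg (2 * log m) (cop m) := by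
  refine ⟨fun a b _ => ?_, fun n => ?_, by simp [cop], fun y T hy hT => ?_⟩
  · unfold cop
    simp only [Nat.coprime_mul_iff_left, ite_and]
    split_ifs <;> norm_num
  · rw [abs_of_nonneg (cop_nonneg m n)]; exact cop_le_one m n
  · have h1 : ∀ p ∈ T, |1 - cop m p| / p ≤ if p ∈ m.primeFactors then 1 / y else 0 := by
      intro p hp
      obtain ⟨hpp, hyp⟩ := hT p hp
      unfold cop
      by_cases h : Nat.Coprime p m
      · rw [if_pos h, sub_self, abs_zero, zero_div]; split_ifs <;> positivity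
      · have h' : p ∈ m.primeFactors :=
          Nat.mem_primeFactors.2 ⟨hpp, by_contra fun hd => h (hpp.coprime_iff_not_dvd.2 hd), by omega⟩
        rw [if_neg h, if_pos h', sub_zero, abs_one]
        exact one_div_le_one_div_of_le (by linarith only [hy]) hyp.le
    refine (sum_le_sum h1).trans ?_
    rw [sum_ite_mem, sum_const, nsmul_eq_mul, mul_one_div]
    refine div_le_div_of_nonneg_right (le_trans ?_ (card_primeFactors_le hm)) (by linarith only [hy])
    exact_mod_cast card_le_card inter_subset_right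

theorem wg_hh : Wg 1 hh := by
  refine ⟨fun a b h => ?_, fun n => ?_, by simp only [hh, Nat.primeFactors_one, one_div, mul_inv_rev, prod_inv_distrib, prod_empty, inv_one], fun y T hy hT => ?_⟩
  · unfold hh
    rw [h.primeFactors_mul, prod_union h.disjoint_primeFactors]
  · rw [abs_of_pos (hh_pos n)]; exact hh_le_one n
  · have h1 : ∀ p ∈ T, |1 - hh p| / p ≤ 1 / 2 * ((p : ℝ) ^ 2)⁻¹ := by
      intro p hp
      have hpp := (hT p hp).1
      have h0 : (0 : ℝ) < p := by exact_mod_cast hpp.pos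
      rw [abs_of_nonneg (sub_nonneg.2 (hh_le_one p)), hh, hpp.primeFactors, prod_singleton,
        div_le_iff₀ h0]
      have : (1 : ℝ) - (1 + 1 / (2 * (p : ℝ)))⁻¹ = 1 / (2 * p + 1) := by field_simp; ring
      rw [this, show 1 / 2 * ((p : ℝ) ^ 2)⁻¹ * p = 1 / (2 * p) by field_simp]
      exact one_div_le_one_div_of_le (by positivity) (by linarith only [])
    have h2 : T ⊆ Ioo ⌊y⌋₊ (T.sup id + 1) := fun p hp =>
      mem_Ioo.2 ⟨(Nat.floor_lt (by linarith)).2 (hT p hp).2,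
        Nat.lt_succ_of_le (le_sup (f := id) hp)⟩
    have h3 := sum_Ioo_inv_sq_le (α := ℝ) ⌊y⌋₊ (T.sup id + 1)
    have h4 := sum_le_sum_of_subset_of_nonneg (f := fun p : ℕ => ((p : ℝ) ^ 2)⁻¹) h2
      fun _ _ _ => by positivity
    have h5 : (2 : ℝ) / (⌊y⌋₊ + 1) ≤ 2 / y :=
      div_le_div_of_nonneg_left (by norm_num) (by linarith only [hy]) (Nat.lt_floor_add_one y).le
    refine (sum_le_sum h1).trans ?_
    rw [← mul_sum, show 1 / y = 1 / 2 * (2 / y) by ring]
    linarith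

theorem kn_eq_zero (i j : Fin 4) {a e : ℕ} (h : ¬ OS (a * e)) : kn i j a e = 0 := by
  unfold kn
  by_cases ha : OS a
  · by_cases he : OS e
    · have hc : ¬ Nat.Coprime a e := fun hc => h (os_mul.2 ⟨ha, he, hc⟩)
      have : jacobiSym e a = 0 := by
        rw [jacobiSym.eq_zero_iff]
        refine ⟨ha.pos.ne', ?_⟩
        rw [Int.gcd_natCast_natCast, Nat.gcd_comm]
        exact hc
      simp [this]
    · simp [w_eq_zero he]
  · simp [w_eq_zero ha]

theorem al_eq_zero (i j : Fin 4) {n : ℕ} (h : ¬ OS n) : al i j n = 0 :=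
  sum_eq_zero fun x hx => kn_eq_zero i j (by rwa [(Nat.mem_divisorsAntidiagonal.1 hx).1])

theorem abs_al_le (i j : Fin 4) (n : ℕ) : |al i j n| ≤ 1 := by
  by_cases h : OS n
  · refine (abs_sum_le_sum_abs _ _).trans ?_
    rw [← card_mul_w h, ← nsmul_eq_mul]
    refine sum_le_card_nsmul _ _ _ fun x hx => ?_
    have hx1 := (Nat.mem_divisorsAntidiagonal.1 hx).1
    have hc := (os_mul.1 (hx1 ▸ h : OS (x.1 * x.2))).2.2
    rw [kn, ← w_mul hc, hx1, abs_mul, abs_of_nonneg (w_nonneg n)]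
    refine mul_le_of_le_one_right (w_nonneg n) ?_
    rcases psi_vals i x.1 with h1 | h1 | h1 <;> rcases psi_vals j x.2 with h2 | h2 | h2 <;>
      rcases jacobiSym.trichotomy x.2 x.1 with h3 | h3 | h3 <;> simp [h1, h2, h3]
  · simp [al_eq_zero i j h]

theorem abs_rm_le (i j : Fin 4) (n : ℕ) : |rm i j n| ≤ 3 := by
  have h1 := abs_le.1 (abs_al_le i j n)
  have h2 := w_nonneg n
  have h3 := w_le_one n
  rw [abs_le, rm, sg]
  split_ifs <;> constructor <;> linarith [h1.1, h1.2]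

theorem rm_eq_zero (i j : Fin 4) {n : ℕ} (h : ¬ OS n) : rm i j n = 0 := by
  simp [rm, al_eq_zero i j h, w_eq_zero h]


theorem basb_dm (F : ℕ → ℕ → ℝ) (x : ℝ) :
    Dm F x = ∑ p ∈ (Icc 1 ⌊x⌋₊ ×ˢ Icc 1 ⌊x⌋₊).filter (fun p => p.1 * p.2 ≤ ⌊x⌋₊), F p.1 p.2 := by
  rw [sum_filter, sum_product]
  unfold Dm Sm
  refine sum_congr rfl fun a ha => ?_
  have ha1 : 0 < a := (mem_Icc.1 ha).1
  beta_reduce
  rw [← sum_filter, Nat.floor_div_natCast]
  refine sum_congr ?_ fun _ _ => rfl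
  ext e
  simp only [mem_filter, mem_Icc, Nat.le_div_iff_mul_le ha1]
  constructor
  · rintro ⟨h1, h2⟩
    exact ⟨⟨h1, by nlinarith⟩, by rwa [mul_comm]⟩
  · rintro ⟨⟨h1, _⟩, h2⟩
    exact ⟨h1, by rwa [mul_comm]⟩

theorem sm_conv (F : ℕ → ℕ → ℝ) (x : ℝ) :
    Sm (fun n => ∑ p ∈ n.divisorsAntidiagonal, F p.1 p.2) x = Dm F x := by
  rw [basb_dm, ← sum_fiberwise_of_maps_to (g := fun p : ℕ × ℕ => p.1 * p.2) (t := Icc 1 ⌊x⌋₊)]
  · unfold Sm
    refine sum_congr rfl fun n hn => sum_congr ?_ fun _ _ => rfl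
    obtain ⟨h1, h2⟩ := mem_Icc.1 hn
    ext p
    simp only [mem_filter, mem_product, mem_Icc, Nat.mem_divisorsAntidiagonal]
    constructor
    · rintro ⟨h, _⟩
      have ha : 0 < p.1 := Nat.pos_of_ne_zero fun h0 => by simp [h0] at h; omega
      have hb : 0 < p.2 := Nat.pos_of_ne_zero fun h0 => by simp [h0] at h; omega
      exact ⟨⟨⟨⟨ha, by nlinarith⟩, hb, by nlinarith only [h2, h, ha]⟩, by omega⟩, h⟩
    · rintro ⟨_, h⟩
      exact ⟨h, by omega⟩
  · intro p hp
    simp only [mem_filter, mem_product, mem_Icc] at hp ⊢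
    exact ⟨Nat.mul_pos hp.1.1.1 hp.1.2.1, hp.2⟩

theorem dm_swap (F : ℕ → ℕ → ℝ) (x : ℝ) : Dm F x = Dm (fun e a => F a e) x := by
  rw [basb_dm, basb_dm]
  refine sum_equiv (Equiv.prodComm ℕ ℕ) (fun p => ?_) fun p _ => rfl
  simp only [mem_filter, mem_product, Equiv.prodComm_apply, Prod.fst_swap, Prod.snd_swap,
    mul_comm p.2 p.1, and_comm]

theorem sm_congr {f g : ℕ → ℝ} {x : ℝ} (h : ∀ n : ℕ, 1 ≤ n → (n : ℝ) ≤ x → f n = g n) :
    Sm f x = Sm g x := by
  refine sum_congr rfl fun n hn => ?_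
  obtain ⟨h1, h2⟩ := mem_Icc.1 hn
  exact h n h1 ((Nat.le_floor_iff' (by omega)).1 h2)

theorem dm_congr {F G : ℕ → ℕ → ℝ} {x : ℝ}
    (h : ∀ a e : ℕ, 1 ≤ a → 1 ≤ e → (a : ℝ) * e ≤ x → F a e = G a e) : Dm F x = Dm G x := by
  refine sm_congr fun a ha _ => sm_congr fun e he hx => h a e ha he ?_
  have : (0 : ℝ) < a := by exact_mod_cast ha
  rwa [le_div_iff₀ this, mul_comm] at hx

theorem sm_add (f g : ℕ → ℝ) (x : ℝ) : Sm (fun n => f n + g n) x = Sm f x + Sm g x :=
  sum_add_distrib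

theorem sm_mul (c : ℝ) (f : ℕ → ℝ) (x : ℝ) : Sm (fun n => c * f n) x = c * Sm f x :=
  (mul_sum _ _ _).symm

theorem dm_add (F G : ℕ → ℕ → ℝ) (x : ℝ) : Dm (fun a e => F a e + G a e) x = Dm F x + Dm G x := by
  unfold Dm
  rw [← sm_add]
  exact sm_congr fun a _ _ => sm_add _ _ _

theorem dm_mul (c : ℝ) (F : ℕ → ℕ → ℝ) (x : ℝ) : Dm (fun a e => c * F a e) x = c * Dm F x := by
  unfold Dm
  rw [← sm_mul]
  exact sm_congr fun a _ _ => sm_mul _ _ _

theorem abs_sm_le {f : ℕ → ℝ} {c x : ℝ} (hx : 0 ≤ x) (h : ∀ n, |f n| ≤ c) : |Sm f x| ≤ c * x := by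
  have hc : 0 ≤ c := (abs_nonneg _).trans (h 0)
  refine (abs_sum_le_sum_abs _ _).trans ((sum_le_card_nsmul _ _ c fun n _ => h n).trans ?_)
  rw [Nat.card_Icc, nsmul_eq_mul, mul_comm, Nat.add_sub_cancel]
  exact mul_le_mul_of_nonneg_left (Nat.floor_le hx) hc

theorem abs_sm_sub_le {f : ℕ → ℝ} {c x y : ℝ} (hy : 0 ≤ y) (hx : y ≤ x) (h : ∀ n, |f n| ≤ c) :
    |Sm f x - Sm f y| ≤ c * (x - y + 1) := by
  have hc : 0 ≤ c := (abs_nonneg _).trans (h 0)
  have hf := Nat.floor_le_floor hx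
  unfold Sm
  rw [← sum_sdiff (Icc_subset_Icc_right hf), add_sub_cancel_right]
  refine (abs_sum_le_sum_abs _ _).trans ((sum_le_card_nsmul _ _ c fun n _ => h n).trans ?_)
  rw [card_sdiff_of_subset (Icc_subset_Icc_right hf), Nat.card_Icc, Nat.card_Icc, nsmul_eq_mul,
    mul_comm, Nat.add_sub_cancel, Nat.add_sub_cancel, Nat.cast_sub hf]
  refine mul_le_mul_of_nonneg_left ?_ hc
  have h1 := Nat.floor_le (hy.trans hx)
  have h2 := Nat.lt_floor_add_one y
  linarith only [h1, h2]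

/-- Cutting off a partial sum. -/
theorem sm_cut (f : ℕ → ℝ) {x y : ℝ} (hy : 0 ≤ y) (h : y ≤ x) :
    Sm (fun n => if (n : ℝ) ≤ y then f n else 0) x = Sm f y := by
  unfold Sm
  rw [← sum_filter]
  refine sum_congr ?_ fun _ _ => rfl
  have hf := Nat.floor_le_floor h
  ext n
  simp only [mem_filter, mem_Icc, ← Nat.le_floor_iff hy]
  omega


theorem base_tele {a b : ℕ} (h : a ≤ b) :
    ∑ n ∈ Ioc (a + 1) (b + 1), (1 : ℝ) / n ≤ log (b + 1) - log (a + 1) := by
  induction b, h using Nat.le_induction with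
  | base => simp
  | succ b hb ih =>
    rw [Finset.sum_Ioc_succ_top (by omega)]
    have h1 : (0 : ℝ) < b + 1 := by positivity
    have h2 : (0 : ℝ) < b + 1 + 1 := by positivity
    have h3 := Real.one_sub_inv_le_log_of_pos (div_pos h2 h1)
    rw [log_div h2.ne' h1.ne', inv_div] at h3
    have h4 : 1 - ((b : ℝ) + 1) / (b + 1 + 1) = 1 / (b + 1 + 1) := by field_simp; ring
    push_cast
    linarith only [ih, h3, h4]

theorem harm_win {x d : ℝ} (hx : 0 ≤ x) (hd : 1 ≤ d) :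
    Sm (fun n => 1 / n) x - Sm (fun n => 1 / n) (x / d) ≤ 1 + log d := by
  have d0 : 0 < d := by linarith
  have l0 := log_nonneg hd
  have hab : ⌊x / d⌋₊ ≤ ⌊x⌋₊ := Nat.floor_le_floor (div_le_self hx hd)
  have e : ∀ m : ℕ, Icc 1 m = Ioc 0 m := fun m => by ext; simp only [mem_Icc, Nat.succ_le_iff, mem_Ioc]
  unfold Sm
  rw [e, e, ← Finset.sum_Ioc_consecutive _ (Nat.zero_le _) hab, add_sub_cancel_left]
  rcases hab.eq_or_lt with h | h
  · rw [h]; simp only [Std.le_refl, Ioc_eq_empty_of_le, one_div, sum_empty, ge_iff_le]; linarith only [l0]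
  obtain ⟨b, hb⟩ : ∃ b, ⌊x⌋₊ = b + 1 := ⟨⌊x⌋₊ - 1, by omega⟩
  have h1 := Nat.lt_floor_add_one (x / d)
  have h2 := Nat.floor_le hx
  generalize ⌊x / d⌋₊ = a at *
  rw [hb] at h2 h ⊢
  have h3 := base_tele (show a ≤ b by omega)
  rw [← Finset.sum_Ioc_consecutive _ (Nat.le_succ a) (show a + 1 ≤ b + 1 by omega),
    Nat.Ioc_succ_singleton, sum_singleton]
  have a0 : (0 : ℝ) < a + 1 := by positivity
  have h4 : log (b + 1) ≤ log d + log (a + 1) := by
    rw [← log_mul d0.ne' a0.ne']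
    refine log_le_log (by positivity) ?_
    rw [div_lt_iff₀ d0] at h1
    push_cast at h2
    linarith only [h1, h2]
  have h5 : (1 : ℝ) / (a + 1) ≤ 1 := by
    rw [div_le_one a0]; have : (0 : ℝ) ≤ a := a.cast_nonneg; linarith only []
  push_cast
  linarith only [h3, h4, h5]

theorem harm_le {x : ℝ} (hx : 1 ≤ x) : Sm (fun n => 1 / n) x ≤ 1 + log x := by
  have h := harmonic_le_one_add_log ⌊x⌋₊
  have h1 : 1 ≤ ⌊x⌋₊ := Nat.le_floor (by simpa using hx)
  have h2 : log ⌊x⌋₊ ≤ log x := log_le_log (by exact_mod_cast h1) (Nat.floor_le (by linarith only [hx]))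
  rw [harmonic_eq_sum_Icc] at h
  push_cast at h
  simp only [Sm, one_div]
  linarith only [h2, h]

/-- The standard bound for a sum with weights `1 / n`. -/
theorem abs_sm_harm {f : ℕ → ℝ} {c x : ℝ} (hx : 1 ≤ x) (hc : 0 ≤ c)
    (h : ∀ n : ℕ, 1 ≤ n → (n : ℝ) ≤ x → |f n| ≤ c / n) : |Sm f x| ≤ c * (1 + log x) := by
  refine (abs_sum_le_sum_abs _ _).trans (le_trans ?_ (mul_le_mul_of_nonneg_left (harm_le hx) hc))
  rw [Sm, mul_sum]
  refine sum_le_sum fun n hn => ?_
  rw [mem_Icc, Nat.le_floor_iff (by linarith only [hx])] at hn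
  rw [mul_one_div]
  exact h n hn.1 hn.2

theorem sum_log_div {x : ℝ} (hx : 0 ≤ x) : Sm (fun n => log (x / n)) x ≤ x := by
  rcases lt_or_ge x 1 with h | h
  · simp [Sm, Nat.floor_eq_zero.2 h, hx]
  have x0 : 0 < x := by linarith
  have key : ∀ N : ℕ, ∑ n ∈ Icc 1 N, log (x / n) = log (x ^ N / N.factorial) := fun N => by
    induction N with
    | zero => simp
    | succ N ih =>
      rw [sum_Icc_succ_top (by omega), ih, ← log_mul (by positivity) (by positivity),
        Nat.factorial_succ, pow_succ]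
      congr 1
      push_cast
      field_simp
  rw [Sm, key, log_le_iff_le_exp (by positivity)]
  exact Real.pow_div_factorial_le_exp x hx _

theorem base_sq (N : ℕ) : ∑ n ∈ range (N + 2), log n / (n : ℝ) ^ 2 ≤ 4 - 4 / √(N + 1) := by
  induction N with
  | zero => simp [sum_range_succ]
  | succ N ih =>
    rw [show N + 1 + 2 = N + 2 + 1 from rfl, sum_range_succ]
    push_cast
    have n0 : (0 : ℝ) ≤ N := N.cast_nonneg
    obtain ⟨s, hs⟩ : ∃ s, s = √((N : ℝ) + 1) := ⟨_, rfl⟩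
    obtain ⟨t, ht⟩ : ∃ t, t = √((N : ℝ) + 1 + 1) := ⟨_, rfl⟩
    have s0 : 0 < s := hs ▸ sqrt_pos.2 (by positivity)
    have t0 : 0 < t := ht ▸ sqrt_pos.2 (by positivity)
    have s2 : s ^ 2 = N + 1 := hs ▸ sq_sqrt (by positivity)
    have t2 : t ^ 2 = N + 1 + 1 := ht ▸ sq_sqrt (by positivity)
    have st : s ≤ t := by nlinarith only [t0, s2, t2]
    rw [← hs] at ih
    rw [← ht, show (N : ℝ) + 2 = t ^ 2 by linarith only [t2], log_pow]
    have h1 := log_le_sub_one_of_pos t0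
    have h2 : 4 / s - 4 / t = 4 / (s * t * (s + t)) := by
      field_simp
      linarith only [s2, t2]
    have h3 : ((2 : ℕ) : ℝ) * log t / (t ^ 2) ^ 2 ≤ 4 / (s * t * (s + t)) := by
      rw [div_le_div_iff₀ (by positivity) (by positivity)]
      have h4 : s * t * (s + t) ≤ t * t * (t + t) := by gcongr
      have h5 : log t * (s * t * (s + t)) ≤ t * (s * t * (s + t)) :=
        mul_le_mul_of_nonneg_right (by linarith only [h1]) (by positivity)
      have h6 := mul_le_mul_of_nonneg_left h4 t0.le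
      push_cast
      linarith only [h5, h6]
    linarith

theorem sum_log_div_sq (T : Finset ℕ) : ∑ n ∈ T, log n / (n : ℝ) ^ 2 ≤ 6 := by
  have h1 : T ⊆ range (T.sup id + 2) := fun n hn =>
    mem_range.2 (by have : n ≤ T.sup id := le_sup (f := id) hn; omega)
  have h2 := sum_le_sum_of_subset_of_nonneg (f := fun n : ℕ => log n / (n : ℝ) ^ 2) h1
    fun n _ _ => div_nonneg (log_natCast_nonneg n) (sq_nonneg _)
  have h3 := base_sq (T.sup id)
  have h4 : 0 ≤ 4 / √(((T.sup id : ℕ) : ℝ) + 1) := by positivity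
  linarith

theorem rt_pow {k : ℕ} (hk : k ≠ 0) {x : ℝ} (hx : 1 ≤ x) : rt k x ^ k = log x := by
  rw [rt, one_div, rpow_inv_natCast_pow (log_nonneg hx) hk]

theorem tendsto_rt {k : ℕ} (hk : k ≠ 0) : Tendsto (rt k) atTop atTop :=
  (tendsto_rpow_atTop (one_div_pos.2 (Nat.cast_pos.2 (Nat.pos_of_ne_zero hk)))).comp
    tendsto_log_atTop

theorem base_exp (m : ℕ) (c : ℝ) : ∀ᶠ t : ℝ in atTop, c * t ^ m ≤ exp t := by
  filter_upwards [(tendsto_exp_div_pow_atTop m).eventually_ge_atTop c, eventually_gt_atTop 0]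
    with t h1 h2
  rwa [le_div_iff₀ (by positivity)] at h1

theorem ev_pow_le_exp_rt {k : ℕ} (hk : k ≠ 0) (A : ℕ) (c : ℝ) :
    ∀ᶠ x : ℝ in atTop, c * log x ^ A ≤ exp (rt k x) := by
  filter_upwards [(tendsto_rt hk).eventually (base_exp (k * A) c), eventually_ge_atTop 1]
    with x h1 h2
  rwa [pow_mul, rt_pow hk h2] at h1

theorem ev_rt_le {k : ℕ} (hk : 2 ≤ k) (c : ℝ) : ∀ᶠ x : ℝ in atTop, c * rt k x ≤ log x := by
  have k0 : k ≠ 0 := by omega
  filter_upwards [(tendsto_rt k0).eventually_ge_atTop c, (tendsto_rt k0).eventually_ge_atTop 1,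
    eventually_ge_atTop 1] with x h1 h2 h3
  rw [← rt_pow k0 h3]
  exact le_trans (by nlinarith only [h1, h2]) (pow_le_pow_right₀ h2 hk)

theorem ev_pow_le_sqrt (A : ℕ) (c : ℝ) : ∀ᶠ x : ℝ in atTop, c * log x ^ A ≤ √x := by
  filter_upwards [(tendsto_log_atTop.atTop_div_const two_pos).eventually (base_exp A (c * 2 ^ A)),
    eventually_gt_atTop 0] with x h1 h2
  rwa [exp_half, exp_log h2, mul_assoc, ← mul_pow, mul_div_cancel₀ _ two_ne_zero] at h1

theorem ev_log_ge (c : ℝ) : ∀ᶠ x : ℝ in atTop, c ≤ log x :=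
  tendsto_log_atTop.eventually_ge_atTop c


theorem basc_pos : ∀ᶠ Y : ℝ in atTop, 0 < Ph Y := by
  filter_upwards [eventually_gt_atTop 1] with Y hY
  exact div_pos (by linarith) (Real.sqrt_pos.2 (Real.log_pos hY))

theorem basc_top : Tendsto Ph atTop atTop := by
  refine tendsto_atTop_mono' _ ?_ Real.tendsto_sqrt_atTop
  filter_upwards [eventually_gt_atTop 1] with Y hY
  have h0 : 0 < √(log Y) := Real.sqrt_pos.2 (Real.log_pos hY)
  have h1 : √(log Y) ≤ √Y := Real.sqrt_le_sqrt ((Real.log_le_self (by linarith)))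
  rw [Ph, le_div_iff₀ h0]
  calc √Y * √(log Y) ≤ √Y * √Y := by gcongr
    _ = Y := Real.mul_self_sqrt (by linarith)

theorem basc_const (c : ℝ) : (fun _ : ℝ => c) =o[atTop] Ph :=
  isLittleO_const_left.2 (Or.inr (tendsto_norm_atTop_atTop.comp basc_top))

theorem basc_o {f : ℝ → ℝ} {ρ : ℝ} (h : Tendsto (fun Y => f Y / Ph Y) atTop (𝓝 ρ)) :
    (fun Y => f Y - ρ * Ph Y) =o[atTop] Ph := by
  refine (isLittleO_iff_tendsto' (basc_pos.mono fun Y hY h0 => absurd h0 hY.ne')).2 ?_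
  have h1 := h.sub_const ρ
  rw [sub_self] at h1
  refine h1.congr' (basc_pos.mono fun Y hY => ?_)
  have := hY.ne'
  field_simp

theorem isLittleO_Ph {f : ℝ → ℝ} {C : ℝ} (h : ∀ᶠ Y : ℝ in atTop, |f Y| ≤ C * Y / rt 8 Y ^ 5) :
    f =o[atTop] Ph := by
  refine isLittleO_iff.2 fun c hc => ?_
  filter_upwards [h, basc_pos, eventually_gt_atTop 1,
    (tendsto_rt (k := 8) (by norm_num)).eventually_ge_atTop (C / c),
    (tendsto_rt (k := 8) (by norm_num)).eventually_gt_atTop 0] with Y h1 h2 h3 h4 h5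
  have h6 : √(log Y) = rt 8 Y ^ 4 := by
    rw [← rt_pow (k := 8) (by norm_num) h3.le, show rt 8 Y ^ 8 = (rt 8 Y ^ 4) ^ 2 by ring]
    exact Real.sqrt_sq (by positivity)
  rw [Real.norm_eq_abs, Real.norm_eq_abs, abs_of_pos h2, Ph, h6]
  refine h1.trans ?_
  rw [div_le_iff₀ hc] at h4
  rw [← mul_div_assoc, div_le_div_iff₀ (by positivity) (by positivity)]
  calc C * Y * rt 8 Y ^ 4 = C * (Y * rt 8 Y ^ 4) := by ring
    _ ≤ rt 8 Y * c * (Y * rt 8 Y ^ 4) := by
      have : 0 < Y := by linarith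
      gcongr
    _ = c * Y * rt 8 Y ^ 5 := by ring

theorem Asy.of_o {f : ℝ → ℝ} (h : f =o[atTop] Ph) : Asy f :=
  ⟨0, 0, by simpa using h⟩

theorem Asy.add {f g : ℝ → ℝ} (hf : Asy f) (hg : Asy g) : Asy fun Y => f Y + g Y := by
  obtain ⟨c, ρ, h⟩ := hf
  obtain ⟨c', ρ', h'⟩ := hg
  exact ⟨c + c', ρ + ρ', (h.add h').congr_left fun Y => by ring⟩

theorem Asy.mul (c : ℝ) {f : ℝ → ℝ} (hf : Asy f) : Asy fun Y => c * f Y := by
  obtain ⟨a, ρ, h⟩ := hf
  exact ⟨c * a, c * ρ, (h.const_mul_left c).congr_left fun Y => by ring⟩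

theorem Asy.sum {ι : Type} (s : Finset ι) {f : ι → ℝ → ℝ} (h : ∀ i ∈ s, Asy (f i)) :
    Asy fun Y => ∑ i ∈ s, f i Y := by
  classical
  induction s using Finset.induction_on with
  | empty => exact Asy.of_o (by simp)
  | insert a s ha ih =>
    simp only [sum_insert ha]
    exact (h a (mem_insert_self _ _)).add (ih fun i hi => h i (mem_insert_of_mem hi))

theorem Asy.const (c : ℝ) : Asy fun _ => c :=
  Asy.of_o (basc_const c)

theorem Asy.congr {f g : ℝ → ℝ} (hf : Asy f) (h : f =ᶠ[atTop] g) : Asy g := by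
  obtain ⟨c, ρ, h1⟩ := hf
  exact ⟨c, ρ, h1.congr' (h.mono fun Y hY => by simp only [hY]) EventuallyEq.rfl⟩

theorem Asy.of_tendsto {f : ℝ → ℝ} {ρ : ℝ} (h : Tendsto (fun Y => f Y / Ph Y) atTop (𝓝 ρ)) :
    Asy f :=
  ⟨0, ρ, (basc_o h).congr_left fun Y => by ring⟩

theorem Asy.comp {f g : ℝ → ℝ} (hf : Asy f) {l C : ℝ} (hl : 0 < l)
    (hg : ∀ᶠ X : ℝ in atTop, |g X - l * X| ≤ C) : Asy fun X => f (g X) := by
  obtain ⟨c, ρ, h⟩ := hf
  have hO : (fun X => g X - l * X) =O[atTop] fun _ : ℝ => (1 : ℝ) :=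
    IsBigO.of_bound C (by simpa only [norm_eq_abs, norm_one, mul_one, eventually_atTop] using hg)
  have h1 : Tendsto (fun X => g X / X) atTop (𝓝 l) := by
    have h0 := (hO.trans_isLittleO
      (isLittleO_const_id_atTop (1 : ℝ))).tendsto_div_nhds_zero.add_const l
    rw [zero_add] at h0
    refine h0.congr' ((eventually_gt_atTop 0).mono fun X hX => ?_)
    simp only [id]
    field_simp
    ring
  have h2 : Tendsto g atTop atTop := by
    refine (h1.pos_mul_atTop hl tendsto_id).congr' ((eventually_gt_atTop 0).mono fun X hX => ?_)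
    simp only [id]
    field_simp
  have h3 : Tendsto (fun X => log (g X) / log X) atTop (𝓝 1) := by
    have h0 := ((h1.log hl.ne').div_atTop Real.tendsto_log_atTop).add_const 1
    rw [zero_add] at h0
    refine h0.congr' ?_
    filter_upwards [eventually_gt_atTop 1, h2.eventually_gt_atTop 0] with X hX hX'
    have := (Real.log_pos hX).ne'
    rw [Real.log_div hX'.ne' (by linarith)]
    field_simp
    ring
  have h4 : Tendsto (fun X => Ph (g X) / Ph X) atTop (𝓝 l) := by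
    have h0 := h1.div h3.sqrt (by simp)
    rw [Real.sqrt_one, div_one] at h0
    refine h0.congr' ?_
    filter_upwards [eventually_gt_atTop 1, h2.eventually_gt_atTop 1] with X hX hX'
    have a1 := (Real.sqrt_pos.2 (Real.log_pos hX)).ne'
    have a2 := (Real.sqrt_pos.2 (Real.log_pos hX')).ne'
    have a3 : X ≠ 0 := by linarith
    simp only [Pi.div_apply, Ph, Real.sqrt_div (Real.log_pos hX').le]
    field_simp
  have h5 := basc_o h4
  have h6 : (fun X => Ph (g X)) =O[atTop] Ph :=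
    (h5.isBigO.add ((isBigO_refl Ph atTop).const_mul_left l)).congr_left fun X => by ring
  have h7 := (h.comp_tendsto h2).trans_isBigO h6
  refine ⟨c * l, ρ * l, ((h7.add ((hO.trans_isLittleO (basc_const 1)).const_mul_left c)).add
    (h5.const_mul_left ρ)).congr_left fun X => ?_⟩
  simp only [Function.comp]
  ring


theorem basd_shift {f : ℕ → ℝ} {q : ℕ} (h : ∀ n, f (n + q) = f n) (x : ℕ) :
    ∑ j ∈ range q, f (x + j) = ∑ j ∈ range q, f j := by
  induction x with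
  | zero => simp
  | succ x ih =>
    have h1 := Finset.sum_range_succ (fun j => f (x + j)) q
    have h2 := Finset.sum_range_succ' (fun j => f (x + j)) q
    simp only [add_zero] at h2
    have h3 : ∑ j ∈ range q, f (x + 1 + j) = ∑ j ∈ range q, f (x + (j + 1)) :=
      sum_congr rfl fun j _ => by congr 1; ring
    rw [h3, ← ih]
    have := h x
    linarith

theorem basd_mul {f : ℕ → ℝ} {q : ℕ} (h : ∀ n, f (n + q) = f n) (t x : ℕ) :
    ∑ j ∈ range (t * q), f (x + j) = t * ∑ j ∈ range q, f j := by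
  induction t with
  | zero => simp
  | succ t ih =>
    rw [Nat.succ_mul, Finset.sum_range_add, ih]
    have := basd_shift h (x + t * q)
    simp only [add_assoc] at this
    rw [this]; push_cast; ring

theorem basd_zero {f : ℕ → ℝ} {q : ℕ} {γ : ℝ} (hq : 0 < q) (h : ∀ n, f (n + q) = f n)
    (hb : Bil f γ) : ∑ j ∈ range q, f j = 0 := by
  by_contra hne
  have hp : 0 < |∑ j ∈ range q, f j| := abs_pos.2 hne
  obtain ⟨t, ht⟩ := exists_nat_gt (|γ| / |∑ j ∈ range q, f j|)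
  have ht0 : (0 : ℝ) < t := lt_of_le_of_lt (by positivity) ht
  have hq' : (0 : ℝ) < q := by exact_mod_cast hq
  have h1 := hb 0 (t * q) (t * q)
  rw [sum_congr rfl fun i _ => basd_mul h t (0 + i), sum_const, card_range, nsmul_eq_mul,
    Real.sqrt_mul_self (by positivity), abs_mul, abs_mul, abs_of_nonneg (by positivity),
    abs_of_pos ht0] at h1
  rw [div_lt_iff₀ hp] at ht
  have h2 : (0 : ℝ) < ((t * q : ℕ) : ℝ) := by push_cast; positivity
  have h3 := mul_lt_mul_of_pos_left (lt_of_le_of_lt (le_abs_self γ) ht) h2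
  linarith only [h1, h3]

theorem basd_two (f : ℕ → ℝ) (n : ℕ) :
    ∑ c ∈ range (2 * n), f c = ∑ j ∈ range n, (f (2 * j) + f (2 * j + 1)) := by
  induction n with
  | zero => simp
  | succ n ih => rw [Nat.mul_succ, sum_range_succ, sum_range_succ, sum_range_succ, ih]; ring

theorem basd_per (i : Fin 4) (k n : ℕ) : chi i k (n % (8 * k)) = chi i k n := by
  unfold chi
  rw [← psi_mod i (n % (8 * k)), Nat.mod_mod_of_dvd _ (dvd_mul_right 8 k), psi_mod,
    jacobiSym.mod_left ((n % (8 * k) : ℕ) : ℤ), jacobiSym.mod_left (n : ℤ), ← Int.natCast_mod,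
    ← Int.natCast_mod, Nat.mod_mod_of_dvd _ (dvd_mul_left k 8)]

theorem ch_chi (i : Fin 4) {k : ℕ} (hk : k % 2 = 1) (h : i ≠ 0 ∨ ¬ IsSquare k) :
    Ch (8 * k) (chi i k) := by
  have hk0 : 0 < k := by omega
  refine ⟨by omega, chi_cm i k, basd_per i k, fun n hn => ?_, ?_⟩
  · rcases Nat.mod_two_eq_zero_or_one n with h2 | h2
    · exact (chi_cm i k).even h2
    · have h8 : Nat.Coprime n 8 :=
        Nat.Coprime.pow_right 3 ((Nat.coprime_two_right).2 (Nat.odd_iff.2 h2))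
      have hc : ¬ Nat.Coprime n k := fun hc => hn (Nat.Coprime.mul_right h8 hc)
      have : NeZero k := ⟨hk0.ne'⟩
      have h0 : jacobiSym n k = 0 := jacobiSym.eq_zero_iff_not_coprime.2 (by
        rw [Int.gcd_natCast_natCast]; exact hc)
      simp [chi, h0]
  · rw [show 8 * k = 2 * (4 * k) by ring, basd_two]
    rw [← basd_zero (f := fun n => chi i k (2 * n + 1)) (q := 4 * k) (by omega) (fun n => by
      rw [← basd_per i k (2 * (n + 4 * k) + 1), ← basd_per i k (2 * n + 1),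
        show 2 * (n + 4 * k) + 1 = 2 * n + 1 + 8 * k by ring, Nat.add_mod_right]) (lemB i k hk h)]
    exact sum_congr rfl fun j _ => by rw [(chi_cm i k).even (by omega), zero_add]

theorem basd_nsq {a : ℕ} (ha : Squarefree a) (h : a ≠ 1) : ¬ IsSquare a := by
  rintro ⟨r, rfl⟩
  have := Nat.isUnit_iff.1 (ha r dvd_rfl)
  exact h (by rw [this])

theorem ch_left (j : Fin 4) {a : ℕ} (ha : OS a) (h : j ≠ 0 ∨ a ≠ 1) :
    Ch (8 * a) fun e => ((psi j e * jacobiSym e a : ℤ) : ℝ) :=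
  ch_chi j ha.2 (h.imp_right (basd_nsq ha.1))

theorem ch_right (i : Fin 4) {e : ℕ} (he : OS e) (h : i ≠ 0 ∨ e ≠ 1) :
    Ch (8 * e) fun a => ((psi i a * jacobiSym e a : ℤ) : ℝ) := by
  change Ch (8 * e) (QA.chl i e)
  rw [QA.chl_eq i he.2]
  refine ch_chi _ he.2 ?_
  by_cases h1 : e = 1
  · subst h1
    exact Or.inl (by simpa using h)
  · exact Or.inr (basd_nsq he.1 h1)

theorem basd_abs (x : ℤ) (a : ℕ) : |(jacobiSym x a : ℝ)| ≤ 1 := by
  rcases jacobiSym.trichotomy x a with h | h | h <;> simp [h]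

theorem ker_left : Ker fun e a => (jacobiSym e a : ℝ) := by
  refine ⟨fun M b hb L hL => ?_, fun e e' a _ _ => ?_, fun e a => basd_abs _ _⟩
  · simpa only [zero_add] using MS_left M b hb 0 hL
  · rw [Nat.cast_mul, jacobiSym.mul_left, Int.cast_mul]

theorem ker_right : Ker fun a e => (jacobiSym e a : ℝ) := by
  refine ⟨fun M b hb L hL => ?_, fun e e' a he he' => ?_, fun e a => basd_abs _ _⟩
  · simpa only [zero_add] using MS_right M b hb 0 hL
  · rw [jacobiSym.mul_right' _ (by omega) (by omega), Int.cast_mul]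


theorem sum_card_divisors (N : ℕ) : ∑ e ∈ Icc 1 N, (#e.divisors : ℝ) ≤ N * (1 + log N) := by
  have h1 : ∑ e ∈ Icc 1 N, (#e.divisors : ℝ) =
      ∑ e ∈ Icc 1 N, ∑ d ∈ Icc 1 N, (if d ∣ e then (1 : ℝ) else 0) := by
    refine sum_congr rfl fun e he => ?_
    rw [mem_Icc] at he
    rw [sum_boole]
    congr 2
    ext d
    simp only [Nat.mem_divisors, mem_filter, mem_Icc]
    constructor
    · rintro ⟨h, h0⟩
      exact ⟨⟨Nat.pos_of_dvd_of_pos h (by omega), (Nat.le_of_dvd (by omega) h).trans he.2⟩, h⟩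
    · rintro ⟨-, h⟩
      exact ⟨h, by omega⟩
  rw [h1, sum_comm]
  have h2 : ∀ d ∈ Icc 1 N, ∑ e ∈ Icc 1 N, (if d ∣ e then (1 : ℝ) else 0) ≤ N * (d : ℝ)⁻¹ := by
    intro d _
    rw [sum_boole, show Icc 1 N = Ioc 0 N from rfl, Nat.Ioc_filter_dvd_card_eq_div,
      ← div_eq_mul_inv]
    exact Nat.cast_div_le
  refine (sum_le_sum h2).trans ?_
  rw [← mul_sum]
  refine mul_le_mul_of_nonneg_left ?_ (Nat.cast_nonneg N)
  have h3 := harmonic_le_one_add_log N
  rw [harmonic_eq_sum_Icc] at h3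
  push_cast at h3
  exact h3

theorem basg_tau_pos {e : ℕ} (he : e ≠ 0) : (0 : ℝ) < #e.divisors := by
  exact_mod_cast card_pos.2 ⟨1, Nat.one_mem_divisors.2 he⟩

/-- Cauchy-Schwarz for a function of a product of two odd numbers. -/
theorem prod_cs (G : ℕ → ℝ) (N : ℕ) :
    (∑ e ∈ (Icc 1 N).filter (· % 2 = 1), ∑ e' ∈ (Icc 1 N).filter (· % 2 = 1), |G (e * e')|) ^ 2 ≤
      (N * (1 + log N)) ^ 2 * ∑ y ∈ range (N ^ 2), G (2 * y + 1) ^ 2 := by
  set S := (Icc 1 N).filter (· % 2 = 1) with hS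
  have hm : ∀ e ∈ S, 1 ≤ e ∧ e ≤ N ∧ e % 2 = 1 := fun e he => by
    rw [hS, mem_filter, mem_Icc] at he
    exact ⟨he.1.1, he.1.2, he.2⟩
  have hp : ∀ x ∈ S ×ˢ S, (0 : ℝ) < #(x.1 * x.2).divisors := fun x hx => by
    rw [mem_product] at hx
    have h1 := hm _ hx.1
    have h2 := hm _ hx.2
    exact basg_tau_pos (Nat.mul_ne_zero (by omega) (by omega))
  rw [← sum_product' S S (fun e e' => |G (e * e')|)]
  have hcs := sum_sq_le_sum_mul_sum_of_sq_le_mul (S ×ˢ S) (r := fun x => |G (x.1 * x.2)|)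
    (f := fun x => (#(x.1 * x.2).divisors : ℝ))
    (g := fun x => G (x.1 * x.2) ^ 2 / #(x.1 * x.2).divisors)
    (fun x hx => (hp x hx).le) (fun x hx => div_nonneg (sq_nonneg _) (hp x hx).le)
    (fun x hx => by
      have := hp x hx
      rw [sq_abs, mul_div_cancel₀ _ this.ne'])
  refine hcs.trans (mul_le_mul ?_ ?_ ?_ (sq_nonneg _))
  · have h1 : ∑ e ∈ S, (#e.divisors : ℝ) ≤ N * (1 + log N) :=
      (sum_le_sum_of_subset_of_nonneg (filter_subset _ _) fun _ _ _ => Nat.cast_nonneg _).trans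
        (sum_card_divisors N)
    have h0 : 0 ≤ ∑ e ∈ S, (#e.divisors : ℝ) := sum_nonneg fun _ _ => Nat.cast_nonneg _
    refine le_trans ?_ (pow_le_pow_left₀ h0 h1 2)
    rw [sq, sum_mul_sum, ← sum_product']
    refine sum_le_sum fun x _ => ?_
    rw [Nat.divisors_mul]
    exact_mod_cast card_mul_le
  · have hmap : ∀ x ∈ S ×ˢ S, x.1 * x.2 / 2 ∈ range (N ^ 2) := fun x hx => by
      rw [mem_product] at hx
      have h1 := hm _ hx.1
      have h2 := hm _ hx.2
      have h3 : x.1 * x.2 ≤ N ^ 2 := by rw [sq]; exact Nat.mul_le_mul h1.2.1 h2.2.1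
      have h4 : 1 ≤ x.1 * x.2 := Nat.mul_pos h1.1 h2.1
      rw [mem_range]
      omega
    rw [← sum_fiberwise_of_maps_to hmap]
    refine sum_le_sum fun y _ => ?_
    have hy : ∀ x ∈ (S ×ˢ S).filter (fun x => x.1 * x.2 / 2 = y), x.1 * x.2 = 2 * y + 1 :=
      fun x hx => by
        rw [mem_filter, mem_product] at hx
        have h1 := hm _ hx.1.1
        have h2 := hm _ hx.1.2
        have h3 : x.1 * x.2 % 2 = 1 := by rw [Nat.mul_mod, h1.2.2, h2.2.2]
        have h4 := hx.2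
        omega
    rw [sum_congr rfl fun x hx => by rw [hy x hx], sum_const, nsmul_eq_mul]
    have ht : (0 : ℝ) < #(2 * y + 1).divisors := basg_tau_pos (by omega)
    have hc : #((S ×ˢ S).filter (fun x => x.1 * x.2 / 2 = y)) ≤ #(2 * y + 1).divisors := by
      refine card_le_card_of_injOn Prod.fst (fun x hx => ?_) fun x hx x' hx' h => ?_
      · exact mem_coe.2 (Nat.mem_divisors.2 ⟨⟨x.2, (hy x hx).symm⟩, by omega⟩)
      · have e1 := hy x hx
        have e2 := hy x' hx'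
        have h0 : 0 < x.1 := Nat.pos_of_ne_zero fun h0 => by rw [h0] at e1; omega
        refine Prod.ext h (Nat.eq_of_mul_eq_mul_left h0 ?_)
        rw [e1, h, e2]
    rw [mul_div_assoc', div_le_iff₀ ht, mul_comm]
    exact mul_le_mul_of_nonneg_left (by exact_mod_cast hc) (sq_nonneg _)
  · exact sum_nonneg fun x hx => div_nonneg (sq_nonneg _) (hp x hx).le

end Pool.Agent.MP_5d10af_nt.Q2

end

-- part MP_5d10af_nt.Q2.Prime
section

/-! Sums over primes and sums of `w` twisted by characters of small conductor. -/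

set_option autoImplicit false

namespace Pool.Agent.MP_5d10af_nt.Q2

open Finset Filter Real Asymptotics Topology


/-- From dyadic intervals to all intervals. -/
theorem dyad {u : ℕ → ℝ} {ε : ℝ} {y : ℕ} (hy : 1 ≤ y) (hε : 0 ≤ ε)
    (h : ∀ x a b : ℕ, y ≤ x → x ≤ a → a ≤ b → b ≤ 2 * x → |∑ n ∈ Ioc a b, u n| ≤ ε * x)
    {a b : ℕ} (ha : y ≤ a) (hab : a ≤ b) : |∑ n ∈ Ioc a b, u n| ≤ 4 * ε * b := by
  induction b using Nat.strong_induction_on with
  | _ b ih =>
    by_cases hb : b ≤ 2 * a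
    · have h1 : (a : ℝ) ≤ b := by exact_mod_cast hab
      have h0 : (0 : ℝ) ≤ a := Nat.cast_nonneg a
      nlinarith only [h a a b ha le_rfl hab hb, hε, h1]
    · obtain ⟨t, ht⟩ : ∃ t, t = (b + 1) / 2 := ⟨_, rfl⟩
      have h1 := ih t (by omega) (by omega)
      have h2 := h t t b (by omega) le_rfl (by omega) (by omega)
      have h3 : 5 * (t : ℝ) ≤ 4 * b := by exact_mod_cast (by omega : 5 * t ≤ 4 * b)
      rw [← sum_Ioc_consecutive u (by omega : a ≤ t) (by omega : t ≤ b)]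
      nlinarith only [abs_add_le (∑ n ∈ Ioc a t, u n) (∑ n ∈ Ioc t b, u n), hε, h1, h2, h3]

open Pool.Agent.MP_a96b63_al in
theorem pra_split {q : ℕ} {χ : ℕ → ℝ} (h : Ch q χ) (a b : ℕ) (r : ℝ) :
    ∑ n ∈ Ioc a b, χ n * H5.lam n = ∑ c ∈ range q, χ c * (∑ n ∈ Ioc a b, H5.apl q c n - r) := by
  simp only [mul_sub, sum_sub_distrib, mul_sum]
  rw [← sum_mul, h.zero, zero_mul, sub_zero, sum_comm]
  refine sum_congr rfl fun n _ => ?_
  rw [sum_eq_single (n % q)]
  · rw [H5.apl, if_pos (Nat.mod_modEq n q).symm, h.per]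
  · intro c hc hne
    rw [H5.apl, if_neg, mul_zero]
    exact fun e => hne (by rw [e, Nat.mod_eq_of_lt (mem_range.1 hc)])
  · exact fun hn => absurd (mem_range.2 (Nat.mod_lt _ h.pos)) hn

open Pool.Agent.MP_a96b63_al in
/-- Siegel-Walfisz for a character. -/
theorem prime_chi (A B : ℕ) : ∀ᶠ y : ℝ in atTop, ∀ (q : ℕ) (χ : ℕ → ℝ), Ch q χ →
    (q : ℝ) ≤ log y ^ B → ∀ a b : ℕ, y ≤ a → a ≤ b →
      |∑ p ∈ (Ioc a b).filter Nat.Prime, χ p| ≤ b / log y ^ A := by
  obtain ⟨x0, hx0⟩ := eventually_atTop.1 (H5.sw (A + 1 + B) B)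
  filter_upwards [eventually_ge_atTop (x0 : ℝ), eventually_ge_atTop 1, ev_log_ge 4]
    with y h1 h2 h3 q χ hχ hq a b ha hab
  have hl : ∀ n : ℕ, ⌈y⌉₊ ≤ n → log y ≤ log n := fun n hn =>
    log_le_log (by linarith only [h2]) (Nat.ceil_le.1 hn)
  have L0 : 0 < log y := by linarith only [h3]
  have key := dyad (u := fun n => if n.Prime then χ n else 0) (ε := 1 / log y ^ (A + 1))
    (y := ⌈y⌉₊) (Nat.one_le_ceil_iff.2 (by linarith only [h2])) (by positivity) (fun x a b hx hxa hab hb => ?_)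
    (Nat.ceil_le.2 ha) hab
  · rw [sum_filter]
    refine key.trans ?_
    rw [show 4 * (1 / log y ^ (A + 1)) * b = 4 / log y * (b / log y ^ A) by
      field_simp; ring]
    exact mul_le_of_le_one_left (by positivity) ((div_le_one L0).2 h3)
  have lx := hl x hx
  have la := hl a (hx.trans hxa)
  have hqx : (q : ℝ) ≤ log x ^ B := hq.trans (by gcongr)
  have hab' := H5.nswb_abel (fun n => χ n * H5.lam n) (fun n => (log n)⁻¹) hab
    (B := 1 / log y ^ (A + 1) * x) (fun j j1 j2 => ?_) (fun n hn => ?_)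
    (inv_nonneg.2 (log_natCast_nonneg b))
  · rw [sum_congr rfl (g := fun n => if n.Prime then χ n else 0) fun n hn => ?_] at hab'
    · exact hab'.trans (mul_le_of_le_one_right (by positivity) (inv_le_one_of_one_le₀ (by linarith only [h3, la])))
    · have := hl n ((hx.trans hxa).trans (mem_Ioc.1 hn).1.le)
      have : log n ≠ 0 := by linarith only [h3, this]
      unfold H5.lam
      split_ifs
      · field_simp
      · simp
  · rw [pra_split hχ a j ((j - a) / q.totient)]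
    refine (abs_sum_le_sum_abs _ _).trans ((sum_le_card_nsmul _ _ (x / log x ^ (A + 1 + B))
      fun c _ => ?_).trans ?_)
    · by_cases hc : Nat.Coprime c q
      · rw [abs_mul]
        refine (mul_le_of_le_one_left (abs_nonneg _) ?_).trans (hx0 x
          (by exact_mod_cast h1.trans (Nat.ceil_le.1 hx)) q c a j hχ.pos hqx hc hxa j1 (by omega))
        rcases hχ.cm.vals c with e | e | e <;> simp [e]
      · have : 0 < log x := by linarith only [h3, lx]
        rw [hχ.cop c hc, zero_mul, abs_zero]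
        positivity
    · have : 0 < log x := by linarith only [h3, lx]
      rw [card_range, nsmul_eq_mul]
      calc _ ≤ log x ^ B * (x / log x ^ (A + 1 + B)) := by gcongr
        _ = 1 / log x ^ (A + 1) * x := by field_simp; ring
        _ ≤ _ := by gcongr
  · have := hl n ((hx.trans hxa).trans hn)
    have n0 : (0 : ℝ) < n := by linarith only [Nat.ceil_le.1 ((hx.trans hxa).trans hn), h2]
    exact inv_anti₀ (by linarith only [h3, this]) (log_le_log n0 (by simp only [Nat.cast_add, Nat.cast_one, le_add_iff_nonneg_right, zero_le_one]))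

open Pool.Agent.MP_a96b63_al in
theorem pra_theta (A : ℕ) : ∀ᶠ z : ℝ in atTop, |Chebyshev.theta z - z| ≤ z / log z ^ A := by
  obtain ⟨x0, hx0⟩ := eventually_atTop.1 (H5.sw (A + 1) 0)
  filter_upwards [tendsto_sqrt_atTop.eventually_ge_atTop (x0 : ℝ), eventually_ge_atTop 4,
    ev_log_ge (8 * 2 ^ (A + 1)), ev_pow_le_sqrt A 14] with z h1 h2 h3 h4
  have L0 : 0 < log z := lt_of_lt_of_le (by positivity) h3
  have s2 : 2 ≤ √z := le_sqrt_of_sq_le (by linarith)
  have ss : √z * √z = z := mul_self_sqrt (by linarith)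
  have s1 := (Nat.ceil_lt_add_one (sqrt_nonneg z)).le
  have hsN : ⌈√z⌉₊ ≤ ⌊z⌋₊ := Nat.le_floor (by nlinarith only [s2, ss, s1])
  have e : ∀ a b : ℕ, a ≤ b → ∑ n ∈ Ioc a b, (H5.lam n - 1) =
      ∑ n ∈ Ioc a b, H5.lam n - (b - a) := fun a b h => by
    rw [sum_sub_distrib, sum_const, Nat.card_Ioc, nsmul_eq_mul, Nat.cast_sub h, mul_one]
  have key := dyad (u := fun n => H5.lam n - 1) (ε := 2 ^ (A + 1) / log z ^ (A + 1))
    (y := ⌈√z⌉₊) (Nat.one_le_ceil_iff.2 (by linarith only [s2])) (by positivity)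
    (fun x a b hx hxa hab hb => ?_) le_rfl hsN
  · have t1 : Chebyshev.theta z =
        Chebyshev.theta (⌈√z⌉₊ : ℕ) + ∑ n ∈ Ioc ⌈√z⌉₊ ⌊z⌋₊, H5.lam n := by
      rw [Chebyshev.theta, Chebyshev.theta, Nat.floor_natCast, sum_filter, sum_filter,
        ← sum_Ioc_consecutive _ (Nat.zero_le _) hsN]
      rfl
    have t2 := Chebyshev.theta_le_log4_mul_x (Nat.cast_nonneg ⌈√z⌉₊)
    have t3 := Chebyshev.theta_nonneg (⌈√z⌉₊ : ℕ)
    have t4 : log 4 ≤ 2 := by
      rw [show (4 : ℝ) = 2 ^ 2 by norm_num, log_pow]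
      push_cast
      linarith only [log_two_lt_d9]
    have t5 := Nat.floor_le (by linarith only [h2] : 0 ≤ z)
    have t6 := Nat.lt_floor_add_one z
    have t7 : 4 * (2 ^ (A + 1) / log z ^ (A + 1)) * ⌊z⌋₊ ≤ 1 / 2 * (z / log z ^ A) := by
      calc _ ≤ 4 * (2 ^ (A + 1) / log z ^ (A + 1)) * z := by gcongr
        _ = 8 * 2 ^ (A + 1) / log z * (1 / 2 * (z / log z ^ A)) := by field_simp; ring
        _ ≤ _ := mul_le_of_le_one_left (by positivity) ((div_le_one L0).2 h3)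
    have t8 : 14 * √z ≤ z / log z ^ A := by
      rw [le_div_iff₀ (by positivity)]
      nlinarith only [h1, h4, ss]
    have t9 : (0 : ℝ) ≤ ⌈√z⌉₊ := Nat.cast_nonneg _
    rw [e _ _ hsN, abs_le] at key
    rw [t1, abs_le]
    constructor <;> nlinarith
  · have x1 := Nat.ceil_le.1 hx
    have lx : log z / 2 ≤ log x := by
      rw [← log_sqrt (by linarith only [h2])]
      exact log_le_log (by linarith only [s2]) x1
    have := hx0 x (by exact_mod_cast h1.trans x1) 1 0 a b one_pos (by simp) (by simp) hxa hab hb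
    simp only [H5.apl, Nat.modEq_one, if_true, Nat.totient_one, Nat.cast_one, div_one] at this
    rw [e a b hab]
    refine this.trans ?_
    calc _ ≤ x / (log z / 2) ^ (A + 1) := by gcongr
      _ = _ := by rw [div_pow]; field_simp

/-- The prime number theorem. -/
theorem theta_pnt (A : ℕ) : ∀ᶠ y : ℝ in atTop, ∀ z : ℝ, y ≤ z →
    |Chebyshev.theta z - z| ≤ z / log y ^ A := by
  obtain ⟨x0, hx0⟩ := eventually_atTop.1 (pra_theta A)
  filter_upwards [eventually_ge_atTop x0, eventually_gt_atTop 1] with y h1 h2 z hz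
  have := log_pos h2
  have : 0 ≤ z := by linarith
  refine (hx0 z (h1.trans hz)).trans ?_
  gcongr


theorem prb_fact (N : ℕ) : log (N.factorial : ℝ) =
    ∑ p ∈ (Icc 1 N).filter Nat.Prime, ((N.factorial.factorization p : ℕ) : ℝ) * log p := by
  rw [Real.log_nat_eq_sum_factorization, Finsupp.sum]
  refine sum_congr ?_ fun _ _ => rfl
  ext p
  simp only [Nat.support_factorization, Nat.mem_primeFactors, mem_filter, mem_Icc]
  constructor
  · rintro ⟨hp, hd, -⟩
    exact ⟨⟨hp.one_le, hp.dvd_factorial.1 hd⟩, hp⟩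
  · rintro ⟨⟨-, h⟩, hp⟩
    exact ⟨hp, hp.dvd_factorial.2 h, N.factorial_ne_zero⟩

theorem prb_val {N p : ℕ} (hp : p.Prime) :
    (N : ℝ) / p - 1 ≤ (N.factorial.factorization p : ℕ) ∧
      ((N.factorial.factorization p : ℕ) : ℝ) ≤ N / p + 2 * N / (p : ℝ) ^ 2 := by
  have h2 : (2 : ℝ) ≤ p := by exact_mod_cast hp.two_le
  constructor
  · have h1 : N / p ≤ N.factorial.factorization p := by
      rw [Nat.factorization_factorial hp (b := Nat.log p N + 2) (by omega)]
      simpa only [pow_one] using single_le_sum (f := fun i => N / p ^ i) (fun _ _ => Nat.zero_le _)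
        (show 1 ∈ Ico 1 (Nat.log p N + 2) by simp only [mem_Ico, Std.le_refl, lt_add_iff_pos_left, Order.lt_add_one_iff, zero_le, and_self])
    have h3 : (N : ℝ) / p < ((N / p : ℕ) : ℝ) + 1 := by
      rw [← Nat.floor_div_eq_div (K := ℝ)]
      exact Nat.lt_floor_add_one _
    have h4 : ((N / p : ℕ) : ℝ) ≤ (N.factorial.factorization p : ℕ) := by exact_mod_cast h1
    linarith only [h3, h4]
  · have h1 : (p - 1) * N.factorial.factorization p ≤ N := by
      rw [Nat.sub_one_mul_factorization_factorial hp]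
      exact Nat.sub_le _ _
    have h3 : ((p : ℝ) - 1) * (N.factorial.factorization p : ℕ) ≤ N := by
      have : (((p - 1) * N.factorial.factorization p : ℕ) : ℝ) ≤ N := by exact_mod_cast h1
      rwa [Nat.cast_mul, Nat.cast_sub hp.one_le, Nat.cast_one] at this
    have h0 : (0 : ℝ) ≤ N := Nat.cast_nonneg _
    have h5 : (N : ℝ) / p + 2 * N / (p : ℝ) ^ 2 = N * (p + 2) / (p : ℝ) ^ 2 := by
      field_simp
    rw [h5, le_div_iff₀ (by positivity)]
    have h6 : (0 : ℝ) ≤ (N.factorial.factorization p : ℕ) := Nat.cast_nonneg _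
    linarith only [mul_le_mul_of_nonneg_right h3 (show (0 : ℝ) ≤ p + 2 by linarith only [h2]), mul_nonneg h6 (show (0 : ℝ) ≤ p - 2 by linarith only [h2])]

theorem mertens : ∃ C : ℝ, ∀ z : ℝ, 1 ≤ z →
    |∑ p ∈ (Icc 1 ⌊z⌋₊).filter Nat.Prime, log p / p - log z| ≤ C := by
  refine ⟨13 + log 4 + log 2, fun z hz => ?_⟩
  have hN : 1 ≤ ⌊z⌋₊ := Nat.le_floor (by simpa using hz)
  have hz1 : (⌊z⌋₊ : ℝ) ≤ z := Nat.floor_le (by linarith only [hz])
  have hz2 : z < ⌊z⌋₊ + 1 := Nat.lt_floor_add_one z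
  generalize ⌊z⌋₊ = N at *
  have hN' : (1 : ℝ) ≤ N := by exact_mod_cast hN
  have a1 : log N ≤ log z := log_le_log (by linarith only [hz, hz2]) hz1
  have a2 : log z ≤ log 2 + log N := by
    rw [← log_mul (by norm_num) (by linarith)]
    exact log_le_log (by linarith) (by linarith)
  have b1 : N * log N - N ≤ log (N.factorial : ℝ) := by
    have := log_le_log (by positivity) (Real.pow_div_factorial_le_exp (N : ℝ) (by linarith) N)
    rw [log_exp, log_div (by positivity) (by positivity), log_pow] at this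
    linarith
  have b2 : log (N.factorial : ℝ) ≤ N * log N := by
    rw [← log_pow]
    exact log_le_log (by positivity) (by exact_mod_cast N.factorial_le_pow)
  have hθ : ∑ p ∈ (Icc 1 N).filter Nat.Prime, log (p : ℝ) ≤ log 4 * N := by
    have := Chebyshev.theta_le_log4_mul_x (x := N) (by linarith only [hz, hz2])
    rw [Chebyshev.theta, Nat.floor_natCast] at this
    exact this
  have hq := sum_log_div_sq ((Icc 1 N).filter Nat.Prime)
  have hl : ∀ p : ℕ, 0 ≤ log (p : ℝ) := fun p => log_natCast_nonneg p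
  set S := ∑ p ∈ (Icc 1 N).filter Nat.Prime, log (p : ℝ) / p with hS
  have c1 : N * S - log 4 * N ≤ log (N.factorial : ℝ) := by
    rw [prb_fact]
    refine le_trans ?_ (sum_le_sum fun p hp =>
      mul_le_mul_of_nonneg_right (prb_val (mem_filter.1 hp).2).1 (hl p))
    rw [hS, mul_sum]
    refine (sub_le_sub_left hθ _).trans (le_of_eq ?_)
    rw [← sum_sub_distrib]
    exact sum_congr rfl fun p _ => by ring
  have c2 : log (N.factorial : ℝ) ≤ N * S + 2 * N * 6 := by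
    rw [prb_fact]
    refine (sum_le_sum fun p hp =>
      mul_le_mul_of_nonneg_right (prb_val (mem_filter.1 hp).2).2 (hl p)).trans ?_
    refine le_trans (le_of_eq ?_) (add_le_add le_rfl
      (mul_le_mul_of_nonneg_left hq (show (0 : ℝ) ≤ 2 * N by linarith only [hz, hz2])))
    rw [hS, mul_sum, mul_sum, ← sum_add_distrib]
    exact sum_congr rfl fun p _ => by ring
  have d1 : S ≤ log N + log 4 := le_of_mul_le_mul_left (a := (N : ℝ)) (by linarith only [b2, c1]) (by linarith only [hz, hz2])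
  have d2 : log N - 13 ≤ S := le_of_mul_le_mul_left (a := (N : ℝ)) (by linarith only [b1, c2]) (by linarith only [hz, hz2])
  have e2 : 0 ≤ log (2 : ℝ) := log_nonneg (by norm_num)
  have e4 : 0 ≤ log (4 : ℝ) := log_nonneg (by norm_num)
  rw [abs_le]
  constructor <;> linarith only [a2, d2, e4, a1, d1]


theorem pre_sum (S : Finset ℕ) (y : ℕ) (s : ℝ)
    (h : ∀ n ∈ S, Squarefree n ∧ ∀ p ∈ n.primeFactors, p ≤ y) :
    ∑ n ∈ S, exp (-(s * log n)) ≤ exp (∑ p ∈ Icc 1 y, exp (-(s * log p))) := by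
  calc ∑ n ∈ S, exp (-(s * log n))
      = ∑ n ∈ S, ∏ p ∈ n.primeFactors, exp (-(s * log p)) := sum_congr rfl fun n hn => by
        rw [← exp_sum, sum_neg_distrib, ← mul_sum, ← log_prod fun p hp =>
          Nat.cast_ne_zero.2 (Nat.prime_of_mem_primeFactors hp).ne_zero, ← Nat.cast_prod,
          Nat.prod_primeFactors_of_squarefree (h n hn).1]
    _ = ∑ T ∈ S.image Nat.primeFactors, ∏ p ∈ T, exp (-(s * log p)) := by
        rw [sum_image fun a ha b hb e => by
          rw [← Nat.prod_primeFactors_of_squarefree (h a ha).1, e,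
            Nat.prod_primeFactors_of_squarefree (h b hb).1]]
    _ ≤ ∑ T ∈ (Icc 1 y).powerset, ∏ p ∈ T, exp (-(s * log p)) := by
        refine sum_le_sum_of_subset_of_nonneg (fun T hT => ?_) fun _ _ _ => by positivity
        obtain ⟨n, hn, rfl⟩ := mem_image.1 hT
        exact mem_powerset.2 fun p hp =>
          mem_Icc.2 ⟨(Nat.prime_of_mem_primeFactors hp).pos, (h n hn).2 p hp⟩
    _ = ∏ p ∈ Icc 1 y, (1 + exp (-(s * log p))) := (prod_one_add _).symm
    _ ≤ _ := by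
        rw [exp_sum]
        exact prod_le_prod (fun _ _ => by positivity) fun _ _ => by
          rw [add_comm]; exact add_one_le_exp _

/-- Rankin's bound for smooth squarefree numbers. -/
theorem smooth (A : ℕ) : ∀ᶠ x : ℝ in atTop, ∀ z : ℝ, √x ≤ z →
    (#((Icc 1 ⌊z⌋₊).filter fun n => Squarefree n ∧ ∀ p ∈ n.primeFactors, p ≤ ⌈exp (rt 3 x)⌉₊) : ℝ) ≤
      z / log x ^ A := by
  filter_upwards [(tendsto_rt three_ne_zero).eventually_ge_atTop 11, eventually_gt_atTop 1,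
    ev_pow_le_exp_rt three_ne_zero A 1] with x ht hx hA z hz
  have h3 := rt_pow three_ne_zero hx.le
  generalize rt 3 x = t at ht hA h3
  generalize hy : ⌈exp t⌉₊ = y
  have e1 : 1 ≤ exp t := one_le_exp (by linarith only [ht])
  have y1 : (1 : ℝ) ≤ y := e1.trans (hy ▸ Nat.le_ceil _)
  have y2 : log y ≤ t + 1 := by
    rw [log_le_iff_le_exp (by linarith only [y1]), exp_add]
    have := (hy ▸ Nat.ceil_lt_add_one (exp_pos t).le : (y : ℝ) < exp t + 1)
    nlinarith only [add_one_le_exp 1, e1, this]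
  have z0 : 0 < z := (sqrt_pos.2 (by linarith only [hx])).trans_le hz
  have z1 : t ^ 3 / 2 ≤ log z := by
    rw [h3, ← log_sqrt (by linarith only [hx])]; exact log_le_log (sqrt_pos.2 (by linarith only [hx])) hz
  obtain ⟨d, hd⟩ : ∃ d, d = 1 / (t + 1) := ⟨_, rfl⟩
  have d0 : 0 < d := by rw [hd]; positivity
  have d1 : d * (t + 1) = 1 := by rw [hd]; field_simp
  have d2 : 0 ≤ 1 - d := by nlinarith only [ht, d1]
  have s1 : ∑ p ∈ Icc 1 y, exp (-((1 - d) * log p)) ≤ 3 * (t + 2) := by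
    have := harm_le y1
    rw [Sm, Nat.floor_natCast] at this
    refine le_trans (sum_le_sum (g := fun p : ℕ => 3 * (1 / (p : ℝ))) fun p hp => ?_)
      (by rw [← mul_sum]; linarith only [y2, this])
    obtain ⟨p1, p2⟩ := mem_Icc.1 hp
    have p0 : (0 : ℝ) < p := Nat.cast_pos.2 p1
    have := log_le_log p0 (Nat.cast_le.2 p2)
    rw [show -((1 - d) * log p) = d * log p - log p by ring, exp_sub, exp_log p0, mul_one_div]
    exact div_le_div_of_nonneg_right
      ((exp_le_exp.2 (by nlinarith only [y2, d0, d1, this])).trans (exp_one_lt_d9.le.trans (by norm_num))) p0.le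
  generalize hS : ((Icc 1 ⌊z⌋₊).filter fun n => Squarefree n ∧ ∀ p ∈ n.primeFactors, p ≤ y) = S
  have s0 := fun n (hn : n ∈ S) => mem_filter.1 (hS.symm.subset hn)
  have s2 := (pre_sum S y (1 - d) fun n hn => (s0 n hn).2).trans (exp_le_exp.2 s1)
  calc (#S : ℝ) = ∑ n ∈ S, (1 : ℝ) := by simp
    _ ≤ ∑ n ∈ S, exp ((1 - d) * log z) * exp (-((1 - d) * log n)) := sum_le_sum fun n hn => by
        obtain ⟨n1, n2⟩ := mem_Icc.1 (s0 n hn).1
        have := log_le_log (Nat.cast_pos.2 n1) ((Nat.le_floor_iff z0.le).1 n2)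
        rw [← exp_add]
        exact one_le_exp (by nlinarith only [ht, d1, this])
    _ ≤ exp ((1 - d) * log z) * exp (3 * (t + 2)) := by
        rw [← mul_sum]; exact mul_le_mul_of_nonneg_left s2 (exp_pos _).le
    _ ≤ exp (log z - t) := by
        rw [← exp_add, exp_le_exp]
        have h4 : (4 * t + 6) * (t + 1) ≤ t ^ 3 / 2 := by
          nlinarith only [mul_nonneg (sub_nonneg.2 ht) (sq_nonneg t), ht]
        have h5 := mul_le_mul_of_nonneg_left (h4.trans z1) d0.le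
        rw [mul_left_comm, d1] at h5
        linarith only [h5]
    _ ≤ _ := by
        rw [exp_sub, exp_log z0]
        exact div_le_div_of_nonneg_left z0.le (pow_pos (log_pos hx) A) (by linarith only [hA])


theorem prc_le {n p : ℕ} (hp : p ∈ n.primeFactors) : p ≤ n.primeFactors.sup id :=
  le_sup (f := id) hp

theorem prc_mul {k p : ℕ} (hk : k ≠ 0) (hp : p.Prime) (h : k.primeFactors.sup id < p) :
    (k * p).primeFactors.sup id = p := by
  rw [Nat.primeFactors_mul hk hp.ne_zero, sup_union, hp.primeFactors, sup_singleton]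
  exact max_eq_right h.le

/-- Splitting off the largest prime factor. -/
theorem largest (f : ℕ → ℝ) (hf : ∀ n, ¬ Squarefree n → f n = 0) (N y : ℕ) :
    ∑ n ∈ Icc 1 N, f n =
      ∑ n ∈ (Icc 1 N).filter (fun n => Squarefree n ∧ ∀ p ∈ n.primeFactors, p ≤ y), f n +
        ∑ k ∈ Icc 1 N, ∑ p ∈ (Ioc (max y (k.primeFactors.sup id)) (N / k)).filter Nat.Prime,
          f (k * p) := by
  rw [← sum_filter_add_sum_filter_not (Icc 1 N)
    (fun n => Squarefree n ∧ ∀ p ∈ n.primeFactors, p ≤ y), sum_sigma']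
  congr 1
  symm
  refine sum_bij_ne_zero (fun x _ _ => x.1 * x.2) ?_ ?_ ?_ fun _ _ _ => rfl
  · rintro ⟨k, p⟩ hx _
    simp only [mem_sigma, mem_filter, mem_Icc, mem_Ioc, max_lt_iff] at hx
    obtain ⟨⟨h1, -⟩, ⟨⟨h2, -⟩, h3⟩, hp⟩ := hx
    refine mem_filter.2 ⟨mem_Icc.2 ⟨Nat.mul_pos h1 hp.pos, ?_⟩, fun h => ?_⟩
    · rw [mul_comm]
      exact (Nat.le_div_iff_mul_le h1).1 h3
    · exact absurd (h.2 p (hp.mem_primeFactors (dvd_mul_left _ _) h.1.ne_zero)) (not_le.2 h2)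
  · rintro ⟨k, p⟩ hx _ ⟨k', p'⟩ hx' _ e
    simp only [mem_sigma, mem_filter, mem_Icc, mem_Ioc, max_lt_iff] at hx hx' e
    have e1 : p = p' := by
      rw [← prc_mul (by omega) hx.2.2 hx.2.1.1.2, e, prc_mul (by omega) hx'.2.2 hx'.2.1.1.2]
    subst e1
    rw [Nat.eq_of_mul_eq_mul_right hx.2.2.pos e]
  · intro n hn h0
    have hs : Squarefree n := by_contra fun h => h0 (hf n h)
    obtain ⟨hn, hy⟩ := mem_filter.1 hn
    rw [mem_Icc] at hn
    obtain ⟨q, hq, hyq⟩ : ∃ q ∈ n.primeFactors, y < q := by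
      by_contra! h
      exact hy ⟨hs, h⟩
    obtain ⟨p, hp, e⟩ := exists_mem_eq_sup n.primeFactors ⟨q, hq⟩ id
    have hpp := Nat.prime_of_mem_primeFactors hp
    obtain ⟨k, rfl⟩ : ∃ k, n = k * p := exists_eq_mul_left_of_dvd (Nat.dvd_of_mem_primeFactors hp)
    have hk : 0 < k := Nat.pos_of_mul_pos_right hn.1
    refine ⟨⟨k, p⟩, ?_, h0, rfl⟩
    simp only [mem_sigma, mem_filter, mem_Icc, mem_Ioc, max_lt_iff]
    refine ⟨⟨hk, (Nat.le_mul_of_pos_right k hpp.pos).trans hn.2⟩,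
      ⟨⟨hyq.trans_le ((prc_le hq).trans e.le), (Finset.sup_lt_iff hpp.pos).2 fun r hr => ?_⟩,
        (Nat.le_div_iff_mul_le hk).2 (by rw [mul_comm]; exact hn.2)⟩, hpp⟩
    have h1 : r ≤ p := (prc_le (Nat.primeFactors_mono (dvd_mul_right _ _) hs.ne_zero hr)).trans e.le
    refine lt_of_le_of_ne h1 ?_
    rintro rfl
    exact Nat.Prime.ne_one hpp (Nat.isUnit_iff.1
      (hs r (mul_dvd_mul_right (Nat.dvd_of_mem_primeFactors hr) r)))


theorem prf_swap (G : ℕ → ℕ → ℝ) (N : ℕ) : ∑ n ∈ Icc 1 N, ∑ p ∈ n.primeFactors, G n p =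
    ∑ k ∈ Icc 1 N, ∑ p ∈ (Icc 1 (N / k)).filter Nat.Prime, G (k * p) p := by
  rw [sum_sigma', sum_sigma']
  refine sum_nbij' (fun x => ⟨x.1 / x.2, x.2⟩) (fun x => ⟨x.1 * x.2, x.2⟩) ?_ ?_ ?_ ?_ ?_
  · rintro ⟨n, p⟩ h
    simp only [mem_sigma, mem_Icc, Nat.mem_primeFactors, mem_filter] at h ⊢
    obtain ⟨⟨h1, h2⟩, hp, ⟨j, rfl⟩, -⟩ := h
    rw [Nat.mul_div_cancel_left _ hp.pos]
    have hj : 0 < j := Nat.pos_of_mul_pos_left h1
    exact ⟨⟨hj, le_trans (Nat.le_mul_of_pos_left _ hp.pos) h2⟩,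
      ⟨hp.pos, (Nat.le_div_iff_mul_le hj).2 h2⟩, hp⟩
  · rintro ⟨k, p⟩ h
    simp only [mem_sigma, mem_Icc, Nat.mem_primeFactors, mem_filter] at h ⊢
    obtain ⟨⟨h1, -⟩, ⟨-, h3⟩, hp⟩ := h
    have h4 := (Nat.le_div_iff_mul_le h1).1 h3
    have h5 : 0 < k * p := Nat.mul_pos h1 hp.pos
    exact ⟨⟨h5, by rwa [mul_comm]⟩, hp, Dvd.intro_left _ rfl, h5.ne'⟩
  · rintro ⟨n, p⟩ h
    simp only [mem_sigma, Nat.mem_primeFactors] at h
    simp only [Nat.div_mul_cancel h.2.2.1]
  · rintro ⟨k, p⟩ h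
    simp only [mem_sigma, mem_filter] at h
    simp only [Nat.mul_div_cancel _ h.2.2.pos]
  · rintro ⟨n, p⟩ h
    simp only [mem_sigma, Nat.mem_primeFactors] at h
    simp only [Nat.div_mul_cancel h.2.2.1]

theorem prf_log {n : ℕ} (h : Squarefree n) : log n = ∑ p ∈ n.primeFactors, log p := by
  rw [← Real.log_prod, ← Nat.cast_prod, Nat.prod_primeFactors_of_squarefree h]
  intro p hp
  exact Nat.cast_ne_zero.2 (Nat.prime_of_mem_primeFactors hp).ne_zero

/-- The logarithm as a sum over the prime factors. -/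
theorem logid (F : ℕ → ℝ) (N : ℕ) : ∑ n ∈ Icc 1 N, w n * F n * log n =
    ∑ k ∈ Icc 1 N, w k * ∑ p ∈ (Icc 1 (N / k)).filter (fun p => p.Prime ∧ p ≠ 2 ∧ ¬ p ∣ k),
      F (k * p) * log p / 2 := by
  have h1 : ∀ n ∈ Icc 1 N, w n * F n * log n = ∑ p ∈ n.primeFactors, w n * F n * log p := by
    intro n _
    by_cases h : OS n
    · rw [prf_log h.1, mul_sum]
    · simp [w_eq_zero h]
  rw [sum_congr rfl h1, prf_swap (fun n p => w n * F n * log p)]
  refine sum_congr rfl fun k _ => ?_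
  rw [mul_sum, sum_filter, sum_filter]
  refine sum_congr rfl fun p _ => ?_
  by_cases hp : p.Prime
  · by_cases h2 : p ≠ 2 ∧ ¬ p ∣ k
    · rw [if_pos hp, if_pos ⟨hp, h2⟩,
        w_mul ((Nat.Prime.coprime_iff_not_dvd hp).2 h2.2).symm, w_prime hp h2.1]
      ring
    · rw [if_pos hp, if_neg fun h => h2 h.2, w_eq_zero, zero_mul, zero_mul]
      intro h
      obtain ⟨-, h3, h4⟩ := os_mul.1 h
      refine h2 ⟨?_, (Nat.Prime.coprime_iff_not_dvd hp).1 h4.symm⟩
      rintro rfl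
      exact absurd h3.2 (by decide)
  · rw [if_neg hp, if_neg fun h => hp h.1]

/-- The pairs with `p ∣ k` contribute little. -/
theorem sum_dvd_le (N : ℕ) :
    ∑ k ∈ Icc 1 N, ∑ p ∈ (Icc 1 (N / k)).filter (fun p => p.Prime ∧ p ∣ k), log p ≤ 6 * N := by
  have h1 : ∑ k ∈ Icc 1 N, ∑ p ∈ (Icc 1 (N / k)).filter (fun p => p.Prime ∧ p ∣ k), log p =
      ∑ p ∈ (Icc 1 N).filter Nat.Prime,
        ∑ _k ∈ (Icc 1 N).filter (fun k => p ∣ k ∧ p ≤ N / k), log p := by
    refine sum_comm' fun k p => ?_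
    simp only [mem_filter, mem_Icc]
    constructor
    · rintro ⟨h, ⟨h1, h2⟩, h3, h4⟩
      exact ⟨⟨h, h4, h2⟩, ⟨h1, h2.trans (Nat.div_le_self _ _)⟩, h3⟩
    · rintro ⟨⟨h, h4, h2⟩, ⟨h1, -⟩, h3⟩
      exact ⟨h, ⟨h1, h2⟩, h3, h4⟩
  rw [h1]
  refine le_trans ?_ (mul_le_mul_of_nonneg_right
    (sum_log_div_sq ((Icc 1 N).filter Nat.Prime)) (Nat.cast_nonneg N))
  rw [sum_mul]
  refine sum_le_sum fun p hp => ?_
  have hp' : p.Prime := (mem_filter.1 hp).2
  have h2 : #((Icc 1 N).filter (fun k => p ∣ k ∧ p ≤ N / k)) ≤ N / (p * p) := by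
    refine le_trans (card_le_card (t := (Icc 1 (N / (p * p))).image (p * ·)) ?_)
      (card_image_le.trans (by simp only [Nat.card_Icc, add_tsub_cancel_right, Std.le_refl]))
    intro k hk
    simp only [mem_filter, mem_Icc, mem_image] at hk ⊢
    obtain ⟨⟨h1, -⟩, ⟨j, rfl⟩, h3⟩ := hk
    refine ⟨j, ⟨Nat.pos_of_mul_pos_left h1, ?_⟩, rfl⟩
    rw [Nat.le_div_iff_mul_le h1] at h3
    rw [Nat.le_div_iff_mul_le (Nat.mul_pos hp'.pos hp'.pos)]
    calc j * (p * p) = p * (p * j) := by ring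
      _ ≤ N := h3
  have h3 : (#((Icc 1 N).filter (fun k => p ∣ k ∧ p ≤ N / k)) : ℝ) ≤ N / (p : ℝ) ^ 2 := by
    refine le_trans (Nat.cast_le.2 h2) (Nat.cast_div_le.trans_eq ?_)
    rw [Nat.cast_mul, sq]
  rw [sum_const, nsmul_eq_mul]
  calc _ ≤ N / (p : ℝ) ^ 2 * log p :=
        mul_le_mul_of_nonneg_right h3 (Real.log_natCast_nonneg p)
    _ = _ := by ring


theorem prd_inner {q : ℕ} {χ v : ℕ → ℝ} {Λ y ε : ℝ} (hχ : Ch q χ) (hv : Wg Λ v) (hy : 2 ≤ y)
    (hε : 0 ≤ ε) (h : ∀ a b : ℕ, y ≤ a → a ≤ b → |∑ p ∈ (Ioc a b).filter Nat.Prime, χ p| ≤ b * ε)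
    {k : ℕ} (hk : 1 ≤ k) (b : ℕ) :
    |∑ p ∈ (Ioc (max ⌈y⌉₊ (k.primeFactors.sup id)) b).filter Nat.Prime,
      w (k * p) * v (k * p) * χ (k * p)| ≤ b * (ε + Λ / y) := by
  have h0 : 0 ≤ Λ / y := by simpa only [sum_empty] using hv.near y ∅ (by linarith only [hy]) (by simp)
  generalize ha : max ⌈y⌉₊ (k.primeFactors.sup id) = a
  have a1 : y ≤ a := (Nat.le_ceil y).trans (by exact_mod_cast ha ▸ le_max_left _ _)
  have a2 : k.primeFactors.sup id ≤ a := ha ▸ le_max_right _ _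
  rcases le_or_gt a b with hab | hab
  swap
  · rw [Ioc_eq_empty (by omega), filter_empty, sum_empty, abs_zero]
    positivity
  have hp : ∀ p ∈ (Ioc a b).filter Nat.Prime, p.Prime ∧ y < p := fun p hp =>
    ⟨(mem_filter.1 hp).2, a1.trans_lt (by exact_mod_cast (mem_Ioc.1 (mem_filter.1 hp).1).1)⟩
  have e : ∀ p ∈ (Ioc a b).filter Nat.Prime, w (k * p) * v (k * p) * χ (k * p) =
      w k * v k * χ k / 2 * (χ p - (1 - v p) * χ p) := fun p hp' => by
    obtain ⟨h1, h2⟩ := hp p hp'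
    have h3 := (mem_Ioc.1 (mem_filter.1 hp').1).1
    have hc : Nat.Coprime k p := ((Nat.Prime.coprime_iff_not_dvd h1).2 fun hd => by
      have : id p ≤ k.primeFactors.sup id :=
        le_sup (Nat.mem_primeFactors.2 ⟨h1, hd, by omega⟩)
      simp only [id] at this
      omega).symm
    have p2 : p ≠ 2 := by
      rintro rfl
      norm_num at h2
      linarith only [hy, h2]
    rw [w_mul hc, hv.mul _ _ hc, hχ.cm.mul, w_prime h1 p2]
    ring
  have c1 : |w k * v k * χ k / 2| ≤ 1 := by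
    rw [abs_div, abs_mul, abs_mul, abs_two]
    have := mul_le_one₀ (mul_le_one₀ (abs_w_le k) (abs_nonneg _) (hv.abs k)) (abs_nonneg _)
      (hχ.cm.abs_le k)
    linarith only [this]
  have c2 : |∑ p ∈ (Ioc a b).filter Nat.Prime, (1 - v p) * χ p| ≤ b * (Λ / y) := by
    refine (abs_sum_le_sum_abs _ _).trans (le_trans ?_
      (mul_le_mul_of_nonneg_left (hv.near y _ (by linarith only [hy]) hp) (Nat.cast_nonneg b)))
    rw [mul_sum]
    refine sum_le_sum fun p hp' => ?_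
    have p0 : (0 : ℝ) < p := by linarith only [(hp p hp').2, hy]
    have pb : (p : ℝ) ≤ b := by exact_mod_cast (mem_Ioc.1 (mem_filter.1 hp').1).2
    rw [abs_mul, mul_div_assoc', le_div_iff₀ p0, mul_comm (b : ℝ)]
    exact mul_le_mul (mul_le_of_le_one_right (abs_nonneg _) (hχ.cm.abs_le p)) pb p0.le
      (abs_nonneg _)
  rw [sum_congr rfl e, ← mul_sum, sum_sub_distrib, abs_mul, mul_add]
  exact (mul_le_of_le_one_left (abs_nonneg _) c1).trans
    ((abs_sub _ _).trans (add_le_add (h a b a1 hab) c2))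

/-- Siegel-Walfisz for the weight `w`. -/
theorem sww (A B : ℕ) : ∀ᶠ x : ℝ in atTop, ∀ (q : ℕ) (χ : ℕ → ℝ) (Λ : ℝ) (v : ℕ → ℝ), Ch q χ →
    (q : ℝ) ≤ log x ^ B → Wg Λ v → Λ ≤ log x ^ B → ∀ z : ℝ, √x ≤ z → z ≤ x →
      |Sm (fun n => w n * v n * χ n) z| ≤ z / log x ^ A := by
  have ht : Tendsto (fun x => exp (rt 3 x)) atTop atTop :=
    tendsto_exp_atTop.comp (tendsto_rt (by norm_num))
  filter_upwards [smooth (A + 1), ht.eventually (prime_chi (3 * (A + 2)) (3 * B)),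
    ev_pow_le_exp_rt (k := 3) (by norm_num) (B + (A + 2)) 1, ev_log_ge 5, eventually_ge_atTop 1,
    ht.eventually_ge_atTop 2] with x h1 h2 h3 h4 h5 h6 q χ Λ v hχ hq hv hΛ z hz hzx
  have z1 : 1 ≤ z := (one_le_sqrt.2 h5).trans hz
  have L0 : 0 < log x := by linarith
  simp only [log_exp, pow_mul, rt_pow (k := 3) (by norm_num) h5] at h2
  have e1 : Λ / exp (rt 3 x) ≤ 1 / log x ^ (A + 2) := by
    rw [div_le_div_iff₀ (exp_pos _) (by positivity)]
    refine le_trans (mul_le_mul_of_nonneg_right hΛ (by positivity)) ?_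
    rw [← pow_add]
    linarith
  have hf : ∀ n, |w n * v n * χ n| ≤ 1 := fun n => by
    rw [abs_mul, abs_mul]
    exact mul_le_one₀ (mul_le_one₀ (abs_w_le n) (abs_nonneg _) (hv.abs n)) (abs_nonneg _)
      (hχ.cm.abs_le n)
  have b2 := abs_sm_harm (c := z * (2 / log x ^ (A + 2))) z1 (by positivity)
    (f := fun k => ∑ p ∈ (Ioc (max ⌈exp (rt 3 x)⌉₊ (k.primeFactors.sup id)) (⌊z⌋₊ / k)).filter
      Nat.Prime, w (k * p) * v (k * p) * χ (k * p)) fun k hk _ => by
    refine (prd_inner (ε := 1 / log x ^ (A + 2)) hχ hv h6 (by positivity) (fun a b ha hab => ?_) hk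
      _).trans ?_
    · rw [mul_one_div]
      exact h2 q χ hχ hq a b ha hab
    · have : ((⌊z⌋₊ / k : ℕ) : ℝ) ≤ z / k := by
        rw [← Nat.floor_div_natCast]
        exact Nat.floor_le (by positivity)
      rw [mul_div_right_comm]
      refine mul_le_mul this ?_ ?_ (by positivity)
      · rw [show (2 : ℝ) = 1 + 1 by norm_num, add_div]
        linarith only [e1]
      · have : 0 ≤ Λ / exp (rt 3 x) := by simpa only [sum_empty] using hv.near _ ∅ (by linarith only [h6]) (by simp)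
        positivity
  have b1 := h1 z hz
  have b3 : log z ≤ log x := log_le_log (by linarith only [z1]) hzx
  rw [Sm, largest _ (fun n hn => by rw [w_eq_zero fun h => hn h.1, zero_mul, zero_mul]) _
    ⌈exp (rt 3 x)⌉₊]
  have b0 : |∑ n ∈ (Icc 1 ⌊z⌋₊).filter (fun n => Squarefree n ∧
      ∀ p ∈ n.primeFactors, p ≤ ⌈exp (rt 3 x)⌉₊), w n * v n * χ n| ≤ z / log x ^ (A + 1) := by
    refine (abs_sum_le_sum_abs _ _).trans ((sum_le_card_nsmul _ _ 1 fun n _ => hf n).trans ?_)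
    rwa [nsmul_one]
  rw [Sm] at b2
  refine (abs_add_le _ _).trans ((add_le_add b0 b2).trans ?_)
  have u0 : 0 ≤ z / log x ^ (A + 2) := by positivity
  have u1 : z / log x ^ (A + 1) = z / log x ^ (A + 2) * log x := by field_simp; ring
  have u2 : z / log x ^ A = z / log x ^ (A + 2) * log x * log x := by field_simp; ring
  rw [u1, u2, mul_div_assoc', mul_comm z 2, mul_div_assoc]
  generalize z / log x ^ (A + 2) = u at u0
  linarith only [mul_nonneg u0 L0.le, mul_le_mul_of_nonneg_left h4 (mul_nonneg u0 L0.le), mul_le_mul_of_nonneg_left b3 u0, mul_le_mul_of_nonneg_left h4 u0]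

end Pool.Agent.MP_5d10af_nt.Q2

end

-- part MP_5d10af_nt.Q2.Rem
section

/-! The partial sums of the oscillating part. -/

set_option autoImplicit false

namespace Pool.Agent.MP_5d10af_nt.Q2

open Finset Filter Real Asymptotics Topology


/-- The bilinear bound for one block. -/
theorem block {J : ℕ → ℕ → ℝ} (hJ : Ker J) (I : Finset ℕ) {U E : ℝ} {α β : ℕ → ℝ}
    (hI : ∀ a ∈ I, OS a ∧ (a : ℝ) ≤ U) (hα : ∀ a, |α a| ≤ 1) (hβ : ∀ e, |β e| ≤ 1)
    (hβ0 : ∀ e, e % 2 = 0 → β e = 0) (hE : 1 ≤ E) (hU0 : 0 ≤ U) (hU : U ≤ 4 * E) :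
    (∑ a ∈ I, α a * Sm (fun e => β e * J e a) E) ^ 4 ≤ 100 * E ^ 4 * (1 + log E) ^ 2 * U ^ 3 := by
  set N := ⌊E⌋₊ with hN
  set O := (Icc 1 N).filter (· % 2 = 1) with hO
  set G : ℕ → ℝ := fun n => ∑ a ∈ I, J n a with hG
  set b : ℕ → ℝ := fun n => if n ∈ I then 1 else 0 with hb
  have hN1 : 1 ≤ N := Nat.le_floor (by simpa using hE)
  have hN1' : (1 : ℝ) ≤ N := by exact_mod_cast hN1
  have hNE : (N : ℝ) ≤ E := Nat.floor_le (by linarith only [hE])
  have hsub : I ⊆ Icc 1 ⌊U⌋₊ := fun a ha =>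
    mem_Icc.2 ⟨(hI a ha).1.pos, Nat.le_floor (hI a ha).2⟩
  have hc : (#I : ℝ) ≤ U := by
    have h1 : (#I : ℝ) ≤ ⌊U⌋₊ := by exact_mod_cast (card_le_card hsub).trans (by simp only [Nat.card_Icc, add_tsub_cancel_right, Std.le_refl])
    exact h1.trans (Nat.floor_le hU0)
  have hbs : ∀ f : ℕ → ℝ, ∑ n ∈ Icc 1 ⌊U⌋₊, b n * f n = ∑ n ∈ I, f n := fun f => by
    rw [← sum_subset hsub fun n _ hn => by simp [hb, hn]]
    exact sum_congr rfl fun n hn => by simp [hb, hn]
  have hS : ∀ a, Sm (fun e => β e * J e a) E = ∑ e ∈ O, β e * J e a := fun a =>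
    (sum_filter_of_ne fun e _ he => by
      by_contra h
      exact he (by rw [hβ0 e (by omega), zero_mul])).symm
  have h1 : ∑ a ∈ I, Sm (fun e => β e * J e a) E ^ 2 ≤ ∑ e ∈ O, ∑ e' ∈ O, |G (e * e')| := by
    simp only [hS, sq, sum_mul_sum]
    rw [sum_comm]
    refine sum_le_sum fun e he => ?_
    rw [sum_comm]
    refine sum_le_sum fun e' he' => ?_
    have : ∑ a ∈ I, β e * J e a * (β e' * J e' a) = β e * β e' * G (e * e') := by
      rw [hG, mul_sum]
      refine sum_congr rfl fun a _ => ?_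
      rw [hJ.mul e e' a (mem_filter.1 he).2 (mem_filter.1 he').2]; ring
    rw [this]
    refine (le_abs_self _).trans ?_
    rw [abs_mul, abs_mul]
    exact mul_le_of_le_one_left (abs_nonneg _) (mul_le_one₀ (hβ e) (abs_nonneg _) (hβ e'))
  have h2 : ∑ y ∈ range (N ^ 2), G (2 * y + 1) ^ 2 ≤ 100 * E ^ 2 * U := by
    have h3 := hJ.ms ⌊U⌋₊ b (fun n hn => if_neg fun h => by have := (hI n h).1.2; omega) (N ^ 2)
      (Nat.one_le_pow _ _ hN1)
    have h4 : Qf ⌊U⌋₊ b ≤ U := by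
      rw [Qf_sqfree _ (b := b) fun n hn => if_neg fun h => hn (hI n h).1.1]
      simp only [sq, hbs]
      refine le_trans (le_of_eq ?_) hc
      rw [sum_congr rfl (g := fun _ => (1 : ℝ)) fun n hn => by simp [hb, hn]]; simp
    have h5 : Sf ⌊U⌋₊ b = ∑ n ∈ I, √(n : ℝ) := by
      rw [← hbs]
      exact sum_congr rfl fun n _ => by rw [abs_of_nonneg (by simp only [hb]; split_ifs <;> simp)]
    have h6 : Sf ⌊U⌋₊ b ≤ U * √U := by
      rw [h5]
      refine (sum_le_card_nsmul _ _ _ fun n hn => sqrt_le_sqrt (hI n hn).2).trans ?_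
      rw [nsmul_eq_mul]; gcongr
    have h7 : Sf ⌊U⌋₊ b ^ 2 ≤ (4 * E) ^ 2 * U := by
      calc _ ≤ (U * √U) ^ 2 := pow_le_pow_left₀ (by rw [h5]; positivity) h6 2
        _ = U ^ 2 * U := by rw [mul_pow, sq_sqrt hU0]
        _ ≤ _ := by gcongr
    have h8 : 4 * ((N ^ 2 : ℕ) : ℝ) * Qf ⌊U⌋₊ b ≤ 4 * E ^ 2 * U := by
      refine (mul_le_mul_of_nonneg_left h4 (by positivity)).trans ?_
      push_cast; gcongr
    simp only [hbs] at h3
    simp only [hG]
    linarith only [h7, h8, h3]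
  have hl : 0 ≤ log (N : ℝ) := log_nonneg hN1'
  have h9 : (∑ a ∈ I, α a * Sm (fun e => β e * J e a) E) ^ 2 ≤
      U * ∑ e ∈ O, ∑ e' ∈ O, |G (e * e')| := by
    refine (sum_mul_sq_le_sq_mul_sq _ _ _).trans (mul_le_mul ?_ h1 (by positivity) hU0)
    refine (sum_le_card_nsmul _ _ 1 fun a _ => (sq_le_one_iff_abs_le_one _).2 (hα a)).trans ?_
    simpa using hc
  calc _ = ((∑ a ∈ I, α a * Sm (fun e => β e * J e a) E) ^ 2) ^ 2 := by ring
    _ ≤ (U * ∑ e ∈ O, ∑ e' ∈ O, |G (e * e')|) ^ 2 := by gcongr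
    _ ≤ U ^ 2 * ((N * (1 + log N)) ^ 2 * ∑ y ∈ range (N ^ 2), G (2 * y + 1) ^ 2) := by
      rw [mul_pow]; gcongr; exact prod_cs G N
    _ ≤ U ^ 2 * ((E * (1 + log E)) ^ 2 * (100 * E ^ 2 * U)) := by gcongr
    _ = _ := by ring


theorem bilb_block {J : ℕ → ℕ → ℝ} (hJ : Ker J) (I : Finset ℕ) {U x D : ℝ} {α β : ℕ → ℝ}
    (hI : ∀ a ∈ I, OS a ∧ (a : ℝ) ≤ U) (hα : ∀ a, |α a| ≤ 1) (hβ : ∀ e, |β e| ≤ 1)
    (hβ0 : ∀ e, e % 2 = 0 → β e = 0) (hx : 4 ≤ x) (hL : 1 ≤ log x) (hD : 1 ≤ D)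
    (hU : U ≤ 2 * √x) (hU1 : 400 * log x ^ 2 * D ^ 4 ≤ U) :
    |∑ a ∈ I, α a * Sm (fun e => β e * J e a) (x / U)| ≤ x / D := by
  have hs : √x * √x = x := mul_self_sqrt (by linarith)
  have hs2 : 2 ≤ √x := le_sqrt_of_sq_le (by linarith)
  have h1 : 1 ≤ U := le_trans (by
    nlinarith only [one_le_pow₀ (n := 2) hL, one_le_pow₀ (n := 4) hD]) hU1
  have hU0 : 0 < U := by linarith
  have hE : 1 ≤ x / U := by rw [le_div_iff₀ hU0]; nlinarith only [hU, hs, hs2]
  have h4 : U ≤ 4 * (x / U) := by rw [← mul_div_assoc, le_div_iff₀ hU0]; nlinarith only [hU, hs, h1]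
  have h := block hJ I hI hα hβ hβ0 hE hU0.le h4
  have hl : log (x / U) ≤ log x := log_le_log (by linarith only [hE]) (div_le_self (by linarith only [hx]) h1)
  have hl0 : 0 ≤ log (x / U) := log_nonneg hE
  have hq : (1 + log (x / U)) ^ 2 ≤ 4 * log x ^ 2 := by nlinarith only [hL, hl, hl0]
  refine abs_le_of_sq_le_sq' ?_ (by positivity) |> abs_le.2
  refine (pow_le_pow_iff_left₀ (sq_nonneg _) (sq_nonneg _) two_ne_zero).1 ?_
  rw [← pow_mul, ← pow_mul]
  refine h.trans ?_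
  calc 100 * (x / U) ^ 4 * (1 + log (x / U)) ^ 2 * U ^ 3
      ≤ 100 * (x / U) ^ 4 * (4 * log x ^ 2) * U ^ 3 := by gcongr
    _ = x ^ 4 * (400 * log x ^ 2 * D ^ 4) / U / D ^ 4 := by field_simp; ring
    _ ≤ x ^ 4 * U / U / D ^ 4 := by gcongr
    _ = (x / D) ^ (2 * 2) := by rw [div_pow]; field_simp; ring

/-- The bilinear bound under a hyperbola. -/
theorem bil (A : ℕ) : ∃ B : ℕ, ∀ᶠ x : ℝ in atTop, ∀ (J : ℕ → ℕ → ℝ) (α β : ℕ → ℝ), Ker J →
    (∀ a, |α a| ≤ 1) → (∀ a, α a ≠ 0 → OS a ∧ log x ^ B < a ∧ (a : ℝ) ≤ √x) →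
    (∀ e, |β e| ≤ 1) → (∀ e, e % 2 = 0 → β e = 0) →
      |Dm (fun a e => α a * (β e * J e a)) x| ≤ x / log x ^ A := by
  refine ⟨8 * A + 20, ?_⟩
  filter_upwards [ev_log_ge 20, ev_pow_le_sqrt (A + 1) 1, eventually_ge_atTop 4]
    with x hL hs hx J α β hJ hα hS hβ hβ0
  set L := log x with hLd
  have hL0 : 0 < L := by linarith
  have hLA : 1 ≤ L ^ A := one_le_pow₀ (by linarith)
  set η := 1 / L ^ (A + 2) with hη
  have hη0 : 0 < η := by positivity
  have hη1 : η ≤ 1 / 2 := by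
    rw [hη]; gcongr; rw [pow_add]; nlinarith only [hL, hLA]
  have hexp : exp η ≤ 2 := by
    have := exp_bound_div_one_sub_of_interval hη0.le (by linarith)
    refine this.trans ?_
    rw [div_le_iff₀ (by linarith only [hη0, hη1])]; linarith only [hη1]
  let k : ℕ → ℕ := fun a => ⌊log a / η⌋₊
  let U : ℕ → ℝ := fun j => exp (η * (j + 1))
  let g : ℕ → ℕ → ℝ := fun a e => β e * J e a
  have hg : ∀ a e, |g a e| ≤ 1 := fun a e => by
    rw [abs_mul]; exact mul_le_one₀ (hβ e) (abs_nonneg _) (hJ.abs e a)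
  set S := (Icc 1 ⌊x⌋₊).filter fun a => α a ≠ 0 with hSd
  have hS1 : ∀ a ∈ S, (1 : ℝ) ≤ a := fun a ha => by
    exact_mod_cast (mem_Icc.1 (mem_filter.1 ha).1).1
  have hS2 : ∀ a ∈ S, OS a ∧ L ^ (8 * A + 20) < a ∧ (a : ℝ) ≤ √x := fun a ha =>
    hS a (mem_filter.1 ha).2
  have hsx : √x * √x = x := mul_self_sqrt (by linarith only [hx, hη0, hη1])
  have hs2 : 2 ≤ √x := le_sqrt_of_sq_le (by linarith only [hx])
  have hU1 : ∀ a ∈ S, (a : ℝ) ≤ U (k a) := fun a ha => by
    have := Nat.lt_floor_add_one (log a / η)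
    rw [div_lt_iff₀ hη0] at this
    rw [← exp_log (by linarith only [hS1 a ha, hη0, hη1] : (0 : ℝ) < a)]
    exact exp_le_exp.2 (by simp only [k]; linarith only [this])
  have hU2 : ∀ a ∈ S, U (k a) ≤ a * exp η := fun a ha => by
    have := Nat.floor_le (div_nonneg (log_nonneg (hS1 a ha)) hη0.le)
    rw [le_div_iff₀ hη0] at this
    rw [← exp_log (by linarith only [hS1 a ha, hη0, hη1] : (0 : ℝ) < a), ← exp_add]
    exact exp_le_exp.2 (by simp only [k]; linarith only [this])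
  have hk : ∀ a ∈ S, k a ∈ range (⌊L ^ (A + 3)⌋₊ + 1) := fun a ha => by
    refine mem_range.2 (Nat.lt_succ_of_le (Nat.floor_le_floor ?_))
    have : log a ≤ L := log_le_log (by linarith only [hS1 a ha, hη0, hη1]) (by nlinarith only [(hS2 a ha).2.2, hsx, hs2])
    rw [hη, div_div_eq_mul_div, div_one, pow_succ' L (A + 2)]
    gcongr
  have e1 : Dm (fun a e => α a * (β e * J e a)) x =
      ∑ a ∈ S, α a * Sm (g a) (x / U (k a)) +
        ∑ a ∈ S, α a * (Sm (g a) (x / a) - Sm (g a) (x / U (k a))) := by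
    rw [← sum_add_distrib, hSd, sum_filter]
    unfold Dm
    refine sum_congr (s₁ := Icc 1 ⌊x⌋₊) rfl fun a _ => ?_
    refine (sm_mul (α a) (g a) (x / a)).trans ?_
    split_ifs with h
    · ring
    · rw [not_not.1 h, zero_mul]
  have b1 : |∑ a ∈ S, α a * Sm (g a) (x / U (k a))| ≤ 2 * (x / L ^ (A + 1)) := by
    rw [← sum_fiberwise_of_maps_to hk]
    refine (abs_sum_le_sum_abs _ _).trans ((sum_le_card_nsmul _ _ (x / L ^ (2 * A + 4))
      fun j _ => ?_).trans ?_)
    · rcases (S.filter fun a => k a = j).eq_empty_or_nonempty with h | ⟨a, ha'⟩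
      · rw [h, sum_empty, abs_zero]; positivity
      · obtain ⟨ha, rfl⟩ := mem_filter.1 ha'
        rw [sum_congr rfl fun b hb => by rw [(mem_filter.1 hb).2]]
        refine bilb_block hJ _ (fun b hb => ?_) hα hβ hβ0 hx (by linarith only [hL, hη0, hη1])
          (one_le_pow₀ (by linarith only [hL, hη0, hη1])) ?_ ?_
        · exact ⟨(hS2 b (mem_filter.1 hb).1).1,
            (mem_filter.1 hb).2 ▸ hU1 b (mem_filter.1 hb).1⟩
        · nlinarith only [hU2 a ha, (hS2 a ha).2.2, hexp]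
        · refine le_trans ?_ ((hS2 a ha).2.1.le.trans (hU1 a ha))
          calc 400 * L ^ 2 * (L ^ (2 * A + 4)) ^ 4 ≤ L ^ 2 * L ^ 2 * (L ^ (2 * A + 4)) ^ 4 := by
                gcongr; nlinarith only [hL]
            _ = L ^ (8 * A + 20) := by ring
    · have h3 : 1 ≤ L ^ (A + 3) := one_le_pow₀ (by linarith only [hL, hη0, hη1])
      have := Nat.floor_le (by positivity : 0 ≤ L ^ (A + 3))
      rw [card_range, nsmul_eq_mul]
      calc ((⌊L ^ (A + 3)⌋₊ + 1 : ℕ) : ℝ) * (x / L ^ (2 * A + 4))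
          ≤ (2 * L ^ (A + 3)) * (x / L ^ (2 * A + 4)) := by
            gcongr; push_cast; linarith only [h3, this]
        _ = 2 * (x / L ^ (A + 1)) := by field_simp; ring
  have b2 : |∑ a ∈ S, α a * (Sm (g a) (x / a) - Sm (g a) (x / U (k a)))| ≤
      ∑ a ∈ S, (η * x * (1 / a) + 1) := by
    refine (abs_sum_le_sum_abs _ _).trans (sum_le_sum fun a ha => ?_)
    have ha0 : (0 : ℝ) < a := by linarith only [hS1 a ha, hη0, hη1]
    have hp : 0 < U (k a) := exp_pos _
    have h1 := abs_sm_sub_le (by positivity : 0 ≤ x / U (k a))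
      (by gcongr; exact hU1 a ha : x / U (k a) ≤ x / a) (hg a)
    have h2 : x / a * (1 - η) ≤ x / U (k a) :=
      calc x / a * (1 - η) ≤ x / a * exp (-η) := by
            gcongr; linarith only [add_one_le_exp (-η)]
        _ = x / (a * exp η) := by rw [exp_neg]; field_simp
        _ ≤ x / U (k a) := by gcongr; exact hU2 a ha
    rw [abs_mul]
    refine (mul_le_of_le_one_left (abs_nonneg _) (hα a)).trans (h1.trans ?_)
    have : η * x * (1 / a) = x / a * η := by ring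
    linarith only [h2, this]
  have b3 : ∑ a ∈ S, (1 / a : ℝ) ≤ 2 * L :=
    (sum_le_sum_of_subset_of_nonneg (filter_subset _ _) fun _ _ _ => by positivity).trans
      ((harm_le (by linarith only [hx, hη0, hη1] : 1 ≤ x)).trans (by linarith only [hL, hη0, hη1]))
  have b4 : (#S : ℝ) ≤ √x := by
    have : S ⊆ Icc 1 ⌊√x⌋₊ := fun a ha => mem_Icc.2 ⟨(mem_Icc.1 (mem_filter.1 ha).1).1,
      Nat.le_floor (hS2 a ha).2.2⟩
    have h := card_le_card this
    rw [Nat.card_Icc, Nat.add_sub_cancel] at h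
    exact (Nat.cast_le.2 h).trans (Nat.floor_le (by positivity))
  have b5 : √x ≤ x / L ^ (A + 1) := by
    rw [le_div_iff₀ (by positivity)]; nlinarith only [hs, hsx, hs2]
  have b6 : η * x * (2 * L) = 2 * (x / L ^ (A + 1)) := by rw [hη]; field_simp; ring
  have b7 : 5 * (x / L ^ (A + 1)) ≤ x / L ^ A := by
    rw [pow_succ, ← div_div, ← mul_div_assoc, div_le_iff₀ hL0]
    nlinarith only [(by positivity : 0 ≤ x / L ^ A), hL]
  rw [sum_add_distrib, ← mul_sum, sum_const, nsmul_eq_mul, mul_one] at b2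
  have b8 : η * x * ∑ a ∈ S, (1 / a : ℝ) ≤ η * x * (2 * L) := by gcongr
  rw [e1]
  linarith only [abs_add_le (∑ a ∈ S, α a * Sm (g a) (x / U (k a)))
    (∑ a ∈ S, α a * (Sm (g a) (x / a) - Sm (g a) (x / U (k a)))), b1, b2, b4, b5, b6, b7, b8]


/-- The part where the first variable is small. -/
theorem small (A B : ℕ) : ∀ᶠ x : ℝ in atTop, ∀ (α v : ℕ → ℝ) (χ : ℕ → ℕ → ℝ) (Λ : ℝ),
    (∀ a, |α a| ≤ 1) → (∀ a, α a ≠ 0 → (a : ℝ) ≤ log x ^ B ∧ Ch (8 * a) (χ a)) →
    Wg Λ v → Λ ≤ log x ^ B →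
      |Dm (fun a e => α a * (w e * v e * χ a e)) x| ≤ x / log x ^ A := by
  filter_upwards [sww (A + 2) (B + 1), ev_log_ge 8, ev_pow_le_sqrt B 1, eventually_ge_atTop 1]
    with x hs hL hq hx α v χ Λ hα h hv hΛ
  have hL0 : 0 < log x := by linarith
  have hB : 0 < log x ^ B := by positivity
  have hx0 : 0 ≤ x := by linarith
  have hc : 0 ≤ x / log x ^ (A + 2) := by positivity
  refine (abs_sm_harm hx hc fun a ha _ => ?_).trans ?_
  · rw [sm_mul]
    have ha1 : (1 : ℝ) ≤ a := by exact_mod_cast ha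
    by_cases h0 : α a = 0
    · rw [h0, zero_mul, abs_zero]
      positivity
    obtain ⟨h1, h2⟩ := h a h0
    have h3 := hs (8 * a) (χ a) Λ v h2 (by push_cast; rw [pow_succ]; nlinarith only [hL, h1]) hv
      (by rw [pow_succ]; nlinarith only [hL, hΛ, hB]) (x / a)
      (by
        rw [le_div_iff₀ (by linarith only [ha1])]
        calc √x * a ≤ √x * √x := by gcongr; linarith only [hq, h1]
          _ = x := mul_self_sqrt hx0)
      (div_le_self hx0 ha1)
    rw [abs_mul, div_right_comm]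
    exact (mul_le_of_le_one_left (abs_nonneg _) (hα a)).trans h3
  · rw [pow_add, ← div_div, div_mul_eq_mul_div, mul_div_assoc]
    refine mul_le_of_le_one_right (by positivity) ?_
    rw [div_le_one (by positivity)]
    nlinarith only [hL]

theorem rema_sm {f : ℕ → ℝ} {c T : ℝ} (x : ℝ) (hc : 0 ≤ c) (hT : 0 ≤ T) (hf : ∀ n, |f n| ≤ c)
    (h : ∀ n, f n ≠ 0 → (n : ℝ) ≤ T) : |Sm f x| ≤ c * T := by
  have e : Sm f x = ∑ n ∈ Icc 1 ⌊x⌋₊ ∩ Icc 1 ⌊T⌋₊, f n :=
    (sum_subset inter_subset_left fun n hn hn' => by_contra fun h0 =>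
      hn' (mem_inter.2 ⟨hn, mem_Icc.2 ⟨(mem_Icc.1 hn).1, Nat.le_floor (h n h0)⟩⟩)).symm
  rw [e]
  refine (abs_sum_le_sum_abs _ _).trans ((sum_le_card_nsmul _ _ c fun n _ => hf n).trans ?_)
  have h1 : #(Icc 1 ⌊x⌋₊ ∩ Icc 1 ⌊T⌋₊) ≤ ⌊T⌋₊ := (card_le_card inter_subset_right).trans (by simp only [Nat.card_Icc, add_tsub_cancel_right, Std.le_refl])
  rw [nsmul_eq_mul, mul_comm]
  exact mul_le_mul_of_nonneg_left ((Nat.cast_le.2 h1).trans (Nat.floor_le hT)) hc

/-- Both variables small. -/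
theorem tiny {F : ℕ → ℕ → ℝ} {T x : ℝ} (hT : 0 ≤ T) (hF : ∀ a e, |F a e| ≤ 1)
    (h : ∀ a e, F a e ≠ 0 → (a : ℝ) ≤ T ∧ (e : ℝ) ≤ T) : |Dm F x| ≤ T ^ 2 := by
  rw [sq]
  refine rema_sm x hT hT (fun a => ?_) fun a ha => ?_
  · simpa using rema_sm (x / a) zero_le_one hT (hF a) fun e he => (h a e he).2
  · obtain ⟨e, -, he⟩ := exists_ne_zero_of_sum_ne_zero ha
    exact (h a e he).1

theorem al_sum {Λ : ℝ} {v : ℕ → ℝ} (hv : Wg Λ v) (i j : Fin 4) (x : ℝ) :
    Sm (fun n => al i j n * v n) x = Dm (fun a e => kn i j a e * (v a * v e)) x := by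
  rw [← sm_conv]
  refine sm_congr fun n _ _ => ?_
  rw [al, sum_mul]
  refine sum_congr rfl fun p hp => ?_
  by_cases h : OS (p.1 * p.2)
  · rw [← hv.mul _ _ (os_mul.1 h).2.2, (Nat.mem_divisorsAntidiagonal.1 hp).1]
  · rw [kn_eq_zero i j h, zero_mul, zero_mul]

theorem dm_one (f : ℕ → ℝ) (x : ℝ) : Dm (fun a e => if a = 1 then f e else 0) x = Sm f x := by
  rw [Dm, Sm, sum_eq_single 1]
  · simp
  · intro a _ ha
    simp only [Sm, ha, ↓ reduceIte, sum_const_zero]
  · intro h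
    have : ⌊x⌋₊ = 0 := by
      rw [mem_Icc] at h
      omega
    simp [Sm, this]


/-- The coefficient attached to one variable. -/
noncomputable def remb_c (i : Fin 4) (v : ℕ → ℝ) (n : ℕ) : ℝ := w n * v n * (psi i n : ℝ)

theorem remb_abs {Λ : ℝ} {v : ℕ → ℝ} (hv : Wg Λ v) (i : Fin 4) (n : ℕ) : |remb_c i v n| ≤ 1 := by
  have h : |(psi i n : ℝ)| ≤ 1 := by rcases psi_vals i n with h | h | h <;> simp [h]
  rw [remb_c, abs_mul, abs_mul]
  exact mul_le_one₀ (mul_le_one₀ (abs_w_le n) (abs_nonneg _) (hv.abs n)) (abs_nonneg _) h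

theorem remb_os {v : ℕ → ℝ} {i : Fin 4} {n : ℕ} (h : remb_c i v n ≠ 0) : OS n :=
  os_of_w fun h0 => h (by simp [remb_c, h0])

theorem remb_even (v : ℕ → ℝ) (i : Fin 4) {n : ℕ} (h : n % 2 = 0) : remb_c i v n = 0 := by
  simp [remb_c, psi_even i h]

theorem remb_zero (v : ℕ → ℝ) (n : ℕ) : remb_c 0 v n = w n * v n := by
  by_cases h : OS n
  · simp [remb_c, psi_zero_odd h.2]
  · simp [remb_c, w_eq_zero h]

theorem remb_one {Λ : ℝ} {v : ℕ → ℝ} (hv : Wg Λ v) (i : Fin 4) : remb_c i v 1 = 1 := by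
  simp [remb_c, w_one, hv.one, psi_one]

theorem remb_ite {Λ : ℝ} {v : ℕ → ℝ} (hv : Wg Λ v) (i : Fin 4) (P : ℕ → Prop) [DecidablePred P]
    (n : ℕ) : |if P n then remb_c i v n else 0| ≤ 1 := by
  split_ifs
  · exact remb_abs hv i n
  · simp

/-- One variable small: the main term plus a character sum. -/
theorem remb_small {Λ T : ℝ} {v : ℕ → ℝ} (hv : Wg Λ v) (hT : 1 ≤ T) (i j : Fin 4)
    (J : ℕ → ℕ → ℝ) (hJ : ∀ e, J 1 e = 1) (x : ℝ) :
    Dm (fun a e => if (a : ℝ) ≤ T then remb_c i v a * (remb_c j v e * J a e) else 0) x =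
      (if j = 0 then 1 else 0) * Sm (fun n => w n * v n) x +
      Dm (fun a e => (if (a : ℝ) ≤ T ∧ (j ≠ 0 ∨ a ≠ 1) then remb_c i v a else 0) *
        (w e * v e * ((psi j e : ℝ) * J a e))) x := by
  rw [← dm_one (fun n => w n * v n), ← dm_mul, ← dm_add]
  refine dm_congr fun a e _ _ _ => ?_
  by_cases ha : a = 1
  · subst ha
    by_cases hj : j = 0
    · subst hj
      simp [hT, remb_one hv, remb_zero, hJ]
    · simp [hT, hj, remb_c, mul_assoc]
  · by_cases h : (a : ℝ) ≤ T <;> simp [h, ha, remb_c, mul_assoc]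

/-- The splitting of the double sum. -/
theorem remb_split (F : ℕ → ℕ → ℝ) (T : ℝ) {x : ℝ} (hx : 0 ≤ x) : Dm F x =
    Dm (fun a e => if (a : ℝ) ≤ T then F a e else 0) x +
    Dm (fun e a => if (e : ℝ) ≤ T then F a e else 0) x +
    (-1) * Dm (fun a e => if (a : ℝ) ≤ T ∧ (e : ℝ) ≤ T then F a e else 0) x +
    Dm (fun a e => if (T < a ∧ (a : ℝ) ≤ √x) ∧ T < e then F a e else 0) x +
    Dm (fun e a => if (T < e ∧ (e : ℝ) ≤ √x) ∧ (T < a ∧ √x < a) then F a e else 0) x := by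
  rw [dm_swap (fun e a => if (e : ℝ) ≤ T then F a e else 0),
    dm_swap (fun e a => if (T < e ∧ (e : ℝ) ≤ √x) ∧ (T < a ∧ √x < a) then F a e else 0),
    ← dm_mul, ← dm_add, ← dm_add, ← dm_add, ← dm_add]
  refine dm_congr fun a e _ _ hae => ?_
  by_cases h1 : (a : ℝ) ≤ T
  · by_cases h2 : (e : ℝ) ≤ T <;> simp only [h1, ↓ reduceIte, h2, and_self, neg_mul, one_mul, add_neg_cancel_right, not_lt.2 h1, false_and, add_zero, and_false, mul_zero]
  · by_cases h2 : (e : ℝ) ≤ T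
    · simp only [h1, ↓ reduceIte, h2, zero_add, and_true, mul_zero, add_zero, not_lt.2 h2, and_false, false_and]
    · by_cases h3 : (a : ℝ) ≤ √x
      · simp only [h1, ↓ reduceIte, h2, add_zero, and_self, mul_zero, not_le.1 h1, h3, not_le.1 h2, zero_add, true_and, not_lt.2 h3, and_false]
      · have h4 : (e : ℝ) ≤ √x := by
          by_contra h4
          have := mul_lt_mul'' (not_le.1 h3) (not_le.1 h4) (sqrt_nonneg x) (sqrt_nonneg x)
          rw [mul_self_sqrt hx] at this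
          linarith only [hae, this]
        simp only [h1, ↓ reduceIte, h2, add_zero, and_self, mul_zero, not_le.1 h1, h3, and_false, not_le.1 h2, and_true, h4, not_le.1 h3, zero_add]

/-- The main estimate. -/
theorem rem (A K : ℕ) : ∀ᶠ x : ℝ in atTop, ∀ (i j : Fin 4) (Λ : ℝ) (v : ℕ → ℝ), Wg Λ v →
    Λ ≤ log x ^ K → |Sm (fun n => rm i j n * v n) x| ≤ x / log x ^ A := by
  obtain ⟨B, hB⟩ := bil (A + 1)
  filter_upwards [hB, small (A + 1) (B + K), ev_log_ge 8, ev_pow_le_sqrt (2 * (B + K) + A) 2,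
    eventually_ge_atTop 1] with x hb hs hL hq hx i j Λ v hv hΛ
  have hL1 : 1 ≤ log x := by linarith
  set T : ℝ := log x ^ (B + K) with hTdef
  have hT : 1 ≤ T := one_le_pow₀ hL1
  have hΛT : Λ ≤ T := hΛ.trans (pow_le_pow_right₀ hL1 (by omega))
  have hBT : log x ^ B ≤ T := pow_le_pow_right₀ hL1 (by omega)
  have e0 : Sm (fun n => rm i j n * v n) x =
      Dm (fun a e => remb_c i v a * (remb_c j v e * (jacobiSym e a : ℝ))) x +
        (- sg i j) * Sm (fun n => w n * v n) x := by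
    rw [← sm_mul, show Dm (fun a e => remb_c i v a * (remb_c j v e * (jacobiSym e a : ℝ))) x =
      Dm (fun a e => kn i j a e * (v a * v e)) x from
      dm_congr fun a e _ _ _ => by simp only [remb_c, kn]; push_cast; ring, ← al_sum hv, ← sm_add]
    exact sm_congr fun n _ _ => by rw [rm]; ring
  have e1 := remb_small hv hT i j (fun a e => (jacobiSym e a : ℝ)) (fun e => by simp) x
  have e2 := remb_small hv hT j i (fun e a => (jacobiSym e a : ℝ)) (fun e => by simp) x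
  have b1 := hs (fun a => if (a : ℝ) ≤ T ∧ (j ≠ 0 ∨ a ≠ 1) then remb_c i v a else 0) v
    (fun a e => (psi j e : ℝ) * (jacobiSym e a : ℝ)) Λ (remb_ite hv i _) (fun a h => by
      rw [ite_ne_right_iff] at h
      exact ⟨h.1.1, by simpa using ch_left j (remb_os h.2) h.1.2⟩) hv hΛT
  have b2 := hs (fun a => if (a : ℝ) ≤ T ∧ (i ≠ 0 ∨ a ≠ 1) then remb_c j v a else 0) v
    (fun e a => (psi i a : ℝ) * (jacobiSym e a : ℝ)) Λ (remb_ite hv j _) (fun a h => by
      rw [ite_ne_right_iff] at h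
      exact ⟨h.1.1, by simpa using ch_right i (remb_os h.2) h.1.2⟩) hv hΛT
  have b12 := tiny (x := x) (F := fun a e => if (a : ℝ) ≤ T ∧ (e : ℝ) ≤ T then
      remb_c i v a * (remb_c j v e * (jacobiSym e a : ℝ)) else 0) (zero_le_one.trans hT)
    (fun a e => by
      split_ifs
      · rw [abs_mul, abs_mul]
        exact mul_le_one₀ (remb_abs hv i a) (by positivity)
          (mul_le_one₀ (remb_abs hv j e) (abs_nonneg _) (ker_left.abs e a))
      · simp) (fun a e h => (ite_ne_right_iff.1 h).1)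
  have b3 := hb _ (fun a => if T < a ∧ (a : ℝ) ≤ √x then remb_c i v a else 0)
    (fun e => if T < e then remb_c j v e else 0) ker_left (remb_ite hv i _) (fun a h => by
      rw [ite_ne_right_iff] at h
      exact ⟨remb_os h.2, hBT.trans_lt h.1.1, h.1.2⟩) (remb_ite hv j _)
    (fun e h => by simp [remb_even v j h])
  have b4 := hb _ (fun a => if T < a ∧ (a : ℝ) ≤ √x then remb_c j v a else 0)
    (fun e => if T < e ∧ √x < e then remb_c i v e else 0) ker_right (remb_ite hv j _)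
    (fun a h => by
      rw [ite_ne_right_iff] at h
      exact ⟨remb_os h.2, hBT.trans_lt h.1.1, h.1.2⟩) (remb_ite hv i _)
    (fun e h => by simp [remb_even v i h])
  have e3 : Dm (fun a e => if (T < a ∧ (a : ℝ) ≤ √x) ∧ T < e then
      remb_c i v a * (remb_c j v e * (jacobiSym e a : ℝ)) else 0) x =
      Dm (fun a e => (if T < a ∧ (a : ℝ) ≤ √x then remb_c i v a else 0) *
        ((if T < e then remb_c j v e else 0) * (jacobiSym e a : ℝ))) x :=
    dm_congr fun a e _ _ _ => by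
      by_cases h1 : T < a ∧ (a : ℝ) ≤ √x <;> by_cases h2 : T < e <;> simp [h1, h2]
  have e4 : Dm (fun e a => if (T < e ∧ (e : ℝ) ≤ √x) ∧ (T < a ∧ √x < a) then
      remb_c i v a * (remb_c j v e * (jacobiSym e a : ℝ)) else 0) x =
      Dm (fun e a => (if T < e ∧ (e : ℝ) ≤ √x then remb_c j v e else 0) *
        ((if T < a ∧ √x < a then remb_c i v a else 0) * (jacobiSym e a : ℝ))) x :=
    dm_congr fun e a _ _ _ => by
      by_cases h1 : T < e ∧ (e : ℝ) ≤ √x <;> by_cases h2 : T < a ∧ √x < a <;> simp [h1, h2]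
      ring
  have e5 : Dm (fun e a => if (e : ℝ) ≤ T then
      remb_c i v a * (remb_c j v e * (jacobiSym e a : ℝ)) else 0) x =
      Dm (fun e a => if (e : ℝ) ≤ T then
        remb_c j v e * (remb_c i v a * (jacobiSym e a : ℝ)) else 0) x :=
    dm_congr fun e a _ _ _ => by rw [mul_left_comm]
  have hP : 0 < log x ^ A := by positivity
  have n1 : x / log x ^ (A + 1) ≤ x / log x ^ A / 8 := by
    rw [pow_succ, ← div_div]
    exact div_le_div_of_nonneg_left (by positivity) (by norm_num) hL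
  have n2 : T ^ 2 ≤ x / log x ^ A / 2 := by
    rw [le_div_iff₀ two_pos, le_div_iff₀ hP]
    calc T ^ 2 * 2 * log x ^ A = 2 * log x ^ (2 * (B + K) + A) := by rw [hTdef]; ring
      _ ≤ √x := hq
      _ ≤ x := by rw [sqrt_le_left (by linarith only [hx])]; nlinarith only [hx]
  rw [e0, remb_split _ T (zero_le_one.trans hx), e1, e5, e2, e3, e4, sg]
  rw [abs_le] at b1 b2 b12 b3 b4 ⊢
  constructor <;> linarith only [b1.1, b1.2, b2.1, b2.2, b12.1, b12.2, b3.1, b3.2, b4.1, b4.2, n1, n2]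


theorem remc_step {t : ℝ} (ht : 2 ≤ t) :
    1 / ((t + 1) * log (t + 1) ^ 2) ≤ 1 / log t - 1 / log (t + 1) := by
  have h0 : 0 < log t := log_pos (by linarith)
  have h1 : log t ≤ log (t + 1) := log_le_log (by linarith) (by linarith)
  have h2 : 1 / (t + 1) ≤ log (t + 1) - log t := by
    have h := one_sub_inv_le_log_of_pos (x := (t + 1) / t) (by positivity)
    rw [log_div (by positivity) (by positivity)] at h
    refine le_trans (le_of_eq ?_) h
    field_simp
    ring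
  have h3 : 0 < log (t + 1) := by linarith
  calc 1 / ((t + 1) * log (t + 1) ^ 2) = 1 / (t + 1) / (log (t + 1) * log (t + 1)) := by
        field_simp
    _ ≤ (log (t + 1) - log t) / (log t * log (t + 1)) := by gcongr
    _ = 1 / log t - 1 / log (t + 1) := by field_simp

theorem remc_summable : Summable fun n : ℕ => 1 / ((n : ℝ) * log n ^ 2) := by
  rw [← summable_nat_add_iff 3]
  refine summable_of_sum_range_le (c := 1 / log 2) (fun n => by positivity) fun N => ?_
  have key : ∑ i ∈ range N, 1 / (((i + 3 : ℕ) : ℝ) * log ((i + 3 : ℕ) : ℝ) ^ 2) ≤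
      1 / log 2 - 1 / log ((N : ℝ) + 2) := by
    induction N with
    | zero => simp
    | succ N ih =>
      rw [sum_range_succ]
      have h := remc_step (t := (N : ℝ) + 2) (by linarith only [])
      have e1 : ((N + 3 : ℕ) : ℝ) = (N : ℝ) + 2 + 1 := by push_cast; ring
      have e2 : ((N + 1 : ℕ) : ℝ) + 2 = (N : ℝ) + 2 + 1 := by push_cast; ring
      rw [e1, e2]
      linarith
  have : 0 ≤ 1 / log ((N : ℝ) + 2) :=
    div_nonneg zero_le_one (log_nonneg (by linarith only []))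
  linarith

theorem remc_abel (c : ℕ → ℝ) (N : ℕ) :
    ∑ n ∈ Icc 1 N, c n / n = (∑ n ∈ Icc 1 N, c n) / (N + 1) +
      ∑ n ∈ range (N + 1), (∑ k ∈ Icc 1 n, c k) / (n * (n + 1)) := by
  induction N with
  | zero => simp
  | succ N ih =>
    rw [sum_range_succ, sum_Icc_succ_top (by omega), ih, sum_Icc_succ_top (by omega)]
    push_cast
    field_simp
    ring

theorem rem_conv (i j : Fin 4) :
    ∃ ρ : ℝ, Tendsto (Sm fun n => rm i j n * hh n / n) atTop (𝓝 ρ) := by
  set c : ℕ → ℝ := fun n => rm i j n * hh n with hc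
  have hS : ∀ᶠ N : ℕ in atTop, |∑ n ∈ Icc 1 N, c n| ≤ N / log N ^ 2 ∧ 1 ≤ log (N : ℝ) := by
    filter_upwards [tendsto_natCast_atTop_atTop (R := ℝ) ((rem 2 1).and (ev_log_ge 1))] with N hN
    obtain ⟨h1, h2⟩ := hN
    have h := h1 i j 1 hh wg_hh (by simpa only [pow_one] using h2)
    exact ⟨by simpa only [Sm, Nat.floor_natCast] using h, h2⟩
  have hg : Summable fun n : ℕ => (∑ k ∈ Icc 1 n, c k) / ((n : ℝ) * (n + 1)) := by
    refine remc_summable.of_norm_bounded_eventually_nat ?_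
    filter_upwards [hS, eventually_ge_atTop 1] with N hN h1
    have h1' : (0 : ℝ) < N := by exact_mod_cast h1
    have h2 : 0 < log (N : ℝ) := by linarith only [hN.2]
    rw [norm_eq_abs, abs_div, abs_of_pos (a := (N : ℝ) * (N + 1)) (by positivity)]
    calc _ ≤ N / log N ^ 2 / ((N : ℝ) * N) := by
          gcongr
          · exact hN.1
          · linarith only []
      _ = _ := by field_simp
  have h0 : Tendsto (fun N : ℕ => (∑ n ∈ Icc 1 N, c n) / ((N : ℝ) + 1)) atTop (𝓝 0) := by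
    have hl : Tendsto (fun N : ℕ => (log (N : ℝ))⁻¹) atTop (𝓝 0) :=
      (tendsto_log_atTop.comp tendsto_natCast_atTop_atTop).inv_tendsto_atTop
    refine squeeze_zero_norm' ?_ hl
    filter_upwards [hS, eventually_ge_atTop 1] with N hN h1
    have h1' : (0 : ℝ) < N := by exact_mod_cast h1
    have h2 : 0 < log (N : ℝ) := by linarith only [hN.2]
    rw [norm_eq_abs, abs_div, abs_of_pos (a := (N : ℝ) + 1) (by positivity)]
    calc _ ≤ N / log N ^ 1 / (N : ℝ) := by
          gcongr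
          · exact hN.1.trans (by gcongr; exacts [hN.2, by norm_num])
          · linarith only []
      _ = _ := by field_simp
  have h1 := h0.add (hg.hasSum.tendsto_sum_nat.comp (tendsto_add_atTop_nat 1))
  refine ⟨_, (h1.comp (tendsto_nat_floor_atTop (α := ℝ))).congr fun x => ?_⟩
  exact (remc_abel c _).symm

/-- The main estimate with a coprimality condition, uniformly on a long range. -/
theorem rem_cop : ∀ᶠ Y : ℝ in atTop, ∀ (i j : Fin 4) (m : ℕ) (x : ℝ), 1 ≤ m → (m : ℝ) ≤ Y →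
    exp (rt 8 Y) ≤ x → |Sm (fun n => rm i j n * cop m n) x| ≤ x / log Y ^ 2 := by
  obtain ⟨X, hX⟩ := eventually_atTop.1 (rem 16 9)
  have hT := tendsto_rt (k := 8) (by norm_num)
  filter_upwards [hT.eventually_ge_atTop 2, (tendsto_exp_atTop.comp hT).eventually_ge_atTop X,
    eventually_ge_atTop 1] with Y h2 hx0 hY i j m x hm hmY hx
  have hp := rt_pow (k := 8) (by norm_num) hY
  set T := rt 8 Y
  have hxp : 0 < x := (exp_pos _).trans_le hx
  have hl : T ≤ log x := (le_log_iff_exp_le hxp).2 hx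
  have hm' : (0 : ℝ) < m := by exact_mod_cast hm
  have hΛ : 2 * log m ≤ log x ^ 9 := by
    calc 2 * log m ≤ T * T ^ 8 := by
          rw [hp]
          exact mul_le_mul h2 (log_le_log hm' hmY) (log_natCast_nonneg m) (by linarith only [h2])
      _ = T ^ 9 := by ring
      _ ≤ _ := by gcongr
  refine (hX x (le_trans hx0 hx) i j _ _ (wg_cop hm) hΛ).trans ?_
  rw [← hp, ← pow_mul]
  have : 0 < T := by linarith only [h2]
  gcongr

end Pool.Agent.MP_5d10af_nt.Q2

end
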