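import Pool.Agent.MP_5d10af_nt.Mg.Q2_Rem

attribute [-instance] AddQuantale.instAddLeftMono NumberField.to_charZero
  IdemSemiring.toCanonicallyOrderedAdd Fintype.decidableForallFintype RKHS.instFunLike
  AddQuantale.instAddRightMono Unique.instInhabited covariant_swap_mul_of_covariant_mul
  Quantale.instMulRightMono GrpTypeEquivalenceGrp.grpGroup instCoeHTCTOfCoeHTC instCoeTOfCoeDep
  Finset.decidableDforallFinset Quantale.instMulLeftMono IsOrderedMonoid.toMulLeftMono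
  TotallySeparatedSpace.t2Space Multiset.decidableDforallMultiset NeZero.of_gt'
  Vector.instDecidableForallForallMemOfDecidablePred instNonemptyOfMonad littleWedderburn
  Int.decidableLTLE Array.instDecidableForallForallMemOfDecidablePred

-- part MP_5d10af_nt.Q2.Mean
section

/-! Mean values of the weight `w`. -/

set_option autoImplicit false

namespace Pool.Agent.MP_5d10af_nt.Q2

open Finset Filter Real Asymptotics Topology


theorem MM_nonneg (x : ℝ) : 0 ≤ MM x := by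
  rw [MM, Sm]
  exact Finset.sum_nonneg fun n _ => div_nonneg (w_nonneg n) (Nat.cast_nonneg n)

theorem MM_le {x : ℝ} (hx : 1 ≤ x) : MM x ≤ 4 * √(1 + log x) := by
  classical
  have hL : 0 ≤ log x := log_nonneg hx
  set ε : ℝ := 1 / (1 + log x) with hε
  have hε0 : 0 < ε := by positivity
  set P := (range (⌊x⌋₊ + 1)).filter fun p => p.Prime ∧ p ≠ 2 with hP
  set N := ∏ p ∈ P, p with hN
  have hPp : ∀ p ∈ P, p.Prime := fun p hp => (mem_filter.mp hp).2.1
  have hsq : Squarefree N := by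
    refine Finset.squarefree_prod_of_pairwise_isCoprime (fun p hp q hq hpq => ?_)
      fun p hp => (hPp p hp).squarefree
    exact Nat.coprime_iff_isRelPrime.mp ((Nat.coprime_primes (hPp p hp) (hPp q hq)).mpr hpq)
  have hodd : Odd N := by
    refine Finset.prod_induction _ Odd (fun a b => Odd.mul) odd_one fun p hp => ?_
    exact (hPp p hp).odd_of_ne_two (mem_filter.mp hp).2.2
  have h4 : ∑ a ∈ N.divisors, wt (1 + ε) a =
      ∏ p ∈ N.primeFactors, (1 + (p : ℝ) ^ (-(1 + ε)) / (2 : ℕ)) := by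
    rw [Dec.sum_wt _ hsq]; rfl
  have h5 := QA.prod_one_add_pow_le hodd (σ := 1 + ε) (by linarith only [hε0]) (k := 2) (by norm_num)
  rw [← h4] at h5
  have h6 : 0 ≤ ∑ a ∈ N.divisors, wt (1 + ε) a := sum_nonneg fun a _ => (wt_pos _ a).le
  have h1 : MM x ≤ 3 * ∑ a ∈ N.divisors, wt (1 + ε) a := by
    rw [MM, Sm, ← sum_filter_of_ne (p := fun n => OS n)
      (fun n _ h => os_of_w fun h0 => h (by rw [h0, zero_div])), mul_sum]
    have hsub : (Icc 1 ⌊x⌋₊).filter (fun n => OS n) ⊆ N.divisors := by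
      intro n hn
      obtain ⟨hn1, hn2⟩ := mem_filter.mp hn
      refine Nat.mem_divisors.mpr ⟨?_, hsq.ne_zero⟩
      rw [← Nat.prod_primeFactors_of_squarefree hn2.1]
      refine prod_dvd_prod_of_subset _ _ _ fun p hp => mem_filter.mpr ⟨?_, ?_, ?_⟩
      · have := Nat.le_of_mem_primeFactors hp
        have := (mem_Icc.mp hn1).2
        exact mem_range.mpr (by omega)
      · exact Nat.prime_of_mem_primeFactors hp
      · rintro rfl
        have := Nat.dvd_of_mem_primeFactors hp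
        have := hn2.2
        omega
    refine le_trans (sum_le_sum fun n hn => ?_)
      (sum_le_sum_of_subset_of_nonneg hsub fun a _ _ => by have := wt_pos (1 + ε) a; positivity)
    obtain ⟨hn1, hn2⟩ := mem_filter.mp hn
    have hn0 : (0 : ℝ) < n := by exact_mod_cast hn2.pos
    have hnx : (n : ℝ) ≤ x := (Nat.le_floor_iff (by linarith only [hx])).mp (mem_Icc.mp hn1).2
    have e1 : wt (1 + ε) n = w n / n * (n : ℝ) ^ (-ε) := by
      rw [QA.wt_add hn2.1, ← zero_add (1 : ℝ), QA.wt_add hn2.1, w_eq_wt hn2, rpow_neg_one]; rfl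
    have e2 : 1 ≤ 3 * (n : ℝ) ^ (-ε) := by
      rw [rpow_neg hn0.le, ← div_eq_mul_inv, le_div_iff₀ (by positivity), one_mul,
        rpow_def_of_pos hn0]
      refine le_trans (exp_le_exp.mpr (?_ : _ ≤ (1 : ℝ))) (exp_one_lt_d9.le.trans (by norm_num))
      have := log_le_log hn0 hnx
      rw [hε, mul_one_div, div_le_one (by linarith only [hL])]
      linarith only [this]
    have e3 : 0 ≤ w n / n := div_nonneg (w_nonneg n) hn0.le
    rw [e1]
    nlinarith only [e2, e3]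
  refine h1.trans ?_
  have e4 : 1 / (2 * (1 + ε - 1)) = (1 + log x) / 2 := by rw [hε]; field_simp; ring
  rw [e4] at h5
  refine le_of_pow_le_pow_left₀ (n := 2) (by norm_num) (by positivity) ?_
  rw [mul_pow, mul_pow, sq_sqrt (by linarith only [hL])]
  linarith only [hL, h5]


theorem mee_ld (n : ℕ) : 0 ≤ log n / (n : ℝ) := div_nonneg (log_natCast_nonneg n) n.cast_nonneg

theorem mee_mult (N : ℕ) {d : ℕ} (hd : 1 ≤ d) :
    ∑ k ∈ (Icc 1 N).filter (d ∣ ·), w k / k ≤ 1 / d * ∑ k ∈ Icc 1 N, w k / k := by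
  have hs : (Icc 1 N).filter (d ∣ ·) ⊆ (Icc 1 N).image (d * ·) := by
    intro k hk
    obtain ⟨hk, c, rfl⟩ := mem_filter.1 hk
    rw [mem_Icc] at hk
    refine mem_image.2 ⟨c, mem_Icc.2 ⟨Nat.pos_of_mul_pos_left hk.1, ?_⟩, rfl⟩
    exact (Nat.le_mul_of_pos_left c hd).trans hk.2
  refine (sum_le_sum_of_subset_of_nonneg hs fun k _ _ =>
    div_nonneg (w_nonneg k) k.cast_nonneg).trans ?_
  rw [sum_image fun a _ b _ h => Nat.eq_of_mul_eq_mul_left hd h, mul_sum]
  refine sum_le_sum fun k _ => ?_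
  have h1 : w (d * k) ≤ w k := by
    rw [w_mul_cop]
    have := mul_le_mul (mul_le_mul_of_nonneg_right (w_le_one d) (w_nonneg k)) (cop_le_one d k)
      (cop_nonneg d k) (by simpa only [one_mul] using w_nonneg k)
    simpa using this
  rw [div_mul_div_comm, one_mul, Nat.cast_mul]
  exact div_le_div_of_nonneg_right h1 (by positivity)

theorem mee_dvd (N : ℕ) :
    ∑ k ∈ Icc 1 N, w k / k * ∑ d ∈ (Icc 1 N).filter (· ∣ k), log d / (d : ℝ) ≤
      6 * ∑ k ∈ Icc 1 N, w k / k := by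
  have hM : 0 ≤ ∑ k ∈ Icc 1 N, w k / k :=
    sum_nonneg fun k _ => div_nonneg (w_nonneg k) k.cast_nonneg
  refine le_trans ?_ (mul_le_mul_of_nonneg_right (sum_log_div_sq (Icc 1 N)) hM)
  simp_rw [mul_sum]
  rw [sum_comm' (t' := Icc 1 N) (s' := fun d => (Icc 1 N).filter (d ∣ ·))
    (by intro k d; simp only [mem_filter]; tauto), ← mul_sum, sum_mul]
  refine sum_le_sum fun d hd => ?_
  rw [← sum_mul]
  refine (mul_le_mul_of_nonneg_right (mee_mult N (mem_Icc.1 hd).1) (mee_ld d)).trans (le_of_eq ?_)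
  ring

theorem mee_rm (N k : ℕ) :
    |∑ p ∈ (Icc 1 (N / k)).filter (fun p => p.Prime ∧ p ≠ 2 ∧ ¬ p ∣ k), log p / (p : ℝ) -
      ∑ p ∈ (Icc 1 (N / k)).filter Nat.Prime, log p / (p : ℝ)| ≤
      1 + ∑ d ∈ (Icc 1 N).filter (· ∣ k), log d / (d : ℝ) := by
  rw [← sum_filter_add_sum_filter_not ((Icc 1 (N / k)).filter Nat.Prime)
    (fun p => p ≠ 2 ∧ ¬ p ∣ k), filter_filter, sub_add_cancel_left, abs_neg,
    abs_of_nonneg (sum_nonneg fun p _ => mee_ld p)]
  have hs : ((Icc 1 (N / k)).filter Nat.Prime).filter (fun p => ¬ (p ≠ 2 ∧ ¬ p ∣ k)) ⊆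
      {2} ∪ (Icc 1 N).filter (· ∣ k) := by
    intro p hp
    simp only [mem_filter, mem_Icc, mem_union, mem_singleton] at hp ⊢
    have := Nat.div_le_self N k
    by_cases h2 : p = 2
    · exact Or.inl h2
    · exact Or.inr ⟨⟨hp.1.1.1, by omega⟩, by tauto⟩
  refine (sum_le_sum_of_subset_of_nonneg hs fun p _ _ => mee_ld p).trans ?_
  have hu := sum_union_inter (s₁ := {2}) (s₂ := (Icc 1 N).filter (· ∣ k))
    (f := fun p : ℕ => log p / (p : ℝ))
  have h0 : 0 ≤ ∑ p ∈ {2} ∩ (Icc 1 N).filter (· ∣ k), log p / (p : ℝ) :=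
    sum_nonneg fun p _ => mee_ld p
  have h2 : log ((2 : ℕ) : ℝ) / ((2 : ℕ) : ℝ) ≤ 1 := by
    have := log_le_sub_one_of_pos (show (0 : ℝ) < 2 by norm_num)
    push_cast
    linarith only [this]
  rw [sum_singleton] at hu
  linarith

theorem ode_ineq : ∃ C : ℝ, ∀ x : ℝ, 1 ≤ x → |log x * MM x - 3 / 2 * II x| ≤ C * √(1 + log x) := by
  obtain ⟨C, hC⟩ := mertens
  have hC0 : 0 ≤ C := (abs_nonneg _).trans (hC 1 le_rfl)
  refine ⟨2 * (C + 7), fun x hx => ?_⟩
  have hx0 : 0 < x := by linarith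
  have e1 : log x * MM x - II x = ∑ n ∈ Icc 1 ⌊x⌋₊, w n * (1 / n) * log n := by
    simp only [MM, II, Sm, mul_sum, ← sum_sub_distrib]
    refine sum_congr rfl fun n hn => ?_
    have : (0 : ℝ) < n := by exact_mod_cast (mem_Icc.1 hn).1
    rw [log_div hx0.ne' this.ne']
    ring
  have e2 : log x * MM x - 3 / 2 * II x = ∑ k ∈ Icc 1 ⌊x⌋₊, w k / k / 2 *
      (∑ p ∈ (Icc 1 (⌊x⌋₊ / k)).filter (fun p => p.Prime ∧ p ≠ 2 ∧ ¬ p ∣ k), log p / (p : ℝ) -
        log (x / k)) := by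
    have : log x * MM x - 3 / 2 * II x = (log x * MM x - II x) - 1 / 2 * II x := by ring
    rw [this, e1, logid (fun n => 1 / (n : ℝ))]
    simp only [II, Sm, mul_sum, ← sum_sub_distrib, mul_sub]
    refine sum_congr rfl fun k _ => ?_
    congr 1
    · refine sum_congr rfl fun p _ => ?_
      push_cast
      ring
    · ring
  have b : ∀ k ∈ Icc 1 ⌊x⌋₊, |w k / k / 2 *
      (∑ p ∈ (Icc 1 (⌊x⌋₊ / k)).filter (fun p => p.Prime ∧ p ≠ 2 ∧ ¬ p ∣ k), log p / (p : ℝ) -
        log (x / k))| ≤ (C + 1) / 2 * (w k / k) +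
          1 / 2 * (w k / k * ∑ d ∈ (Icc 1 ⌊x⌋₊).filter (· ∣ k), log d / (d : ℝ)) := by
    intro k hk
    have hk0 : (0 : ℝ) < k := by exact_mod_cast (mem_Icc.1 hk).1
    have hkx : (k : ℝ) ≤ x := (Nat.cast_le.2 (mem_Icc.1 hk).2).trans (Nat.floor_le hx0.le)
    have h1 := hC (x / k) ((one_le_div hk0).2 hkx)
    rw [Nat.floor_div_natCast] at h1
    have hw : 0 ≤ w k / k / 2 := by have := w_nonneg k; positivity
    rw [abs_mul, abs_of_nonneg hw]
    refine (mul_le_mul_of_nonneg_left ((abs_sub_le _ _ _).trans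
      (add_le_add (mee_rm ⌊x⌋₊ k) h1)) hw).trans (le_of_eq ?_)
    ring
  rw [e2]
  refine (abs_sum_le_sum_abs _ _).trans ((sum_le_sum b).trans ?_)
  rw [sum_add_distrib, ← mul_sum, ← mul_sum]
  have h1 := mee_dvd ⌊x⌋₊
  have h2 : ∑ k ∈ Icc 1 ⌊x⌋₊, w k / k ≤ 4 * √(1 + log x) := MM_le hx
  linarith only [mul_le_mul_of_nonneg_left h2 hC0, h1, h2]


theorem meb_cont (g : ℕ → ℝ) (a b : ℝ) :
    ContinuousOn (fun t => Sm (fun n => g n * (t - log n)) (exp t)) (Set.Icc a b) := by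
  have hc : Continuous fun t : ℝ => ∑ n ∈ Icc 1 ⌊exp b⌋₊, g n * max (t - log n) 0 := by fun_prop
  refine hc.continuousOn.congr fun t ht => ?_
  have hs : Icc 1 ⌊exp t⌋₊ ⊆ Icc 1 ⌊exp b⌋₊ :=
    Icc_subset_Icc_right (Nat.floor_le_floor (exp_le_exp.2 ht.2))
  simp only [Sm]
  rw [← sum_subset hs]
  · refine sum_congr rfl fun n hn => ?_
    obtain ⟨h1, h2⟩ := mem_Icc.1 hn
    have h0 : (0 : ℝ) < n := by exact_mod_cast h1
    have : log n ≤ t := (log_le_iff_le_exp h0).2 ((Nat.le_floor_iff (exp_pos t).le).1 h2)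
    rw [max_eq_left (by linarith only [this])]
  · intro n hn hn'
    have h1 := (mem_Icc.1 hn).1
    have h0 : (0 : ℝ) < n := by exact_mod_cast h1
    have h2 : exp t < n := Nat.lt_of_floor_lt (by
      by_contra hc'
      exact hn' (mem_Icc.2 ⟨h1, not_lt.1 hc'⟩))
    have : t < log n := (lt_log_iff_exp_lt h0).2 h2
    rw [max_eq_right (by linarith only [this]), mul_zero]

theorem meb_deriv (g : ℕ → ℝ) (t : ℝ) :
    HasDerivWithinAt (fun s => Sm (fun n => g n * (s - log n)) (exp s)) (Sm g (exp t))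
      (Set.Ici t) t := by
  have h1 : HasDerivAt (fun s : ℝ => ∑ n ∈ Icc 1 ⌊exp t⌋₊, g n * (s - log n))
      (∑ n ∈ Icc 1 ⌊exp t⌋₊, g n) t := by
    refine HasDerivAt.fun_sum fun n _ => ?_
    simpa using ((hasDerivAt_id t).sub_const (log n)).const_mul (g n)
  refine h1.hasDerivWithinAt.congr_of_eventuallyEq ?_ rfl
  have h2 : ∀ᶠ s in 𝓝 t, exp s < (⌊exp t⌋₊ : ℝ) + 1 :=
    continuous_exp.continuousAt.eventually_lt continuousAt_const (Nat.lt_floor_add_one _)
  filter_upwards [mem_nhdsWithin_of_mem_nhds h2, self_mem_nhdsWithin] with s hs hts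
  have : ⌊exp s⌋₊ = ⌊exp t⌋₊ := (Nat.floor_eq_iff (exp_pos s).le).2
    ⟨(Nat.floor_le (exp_pos t).le).trans (exp_le_exp.2 hts), hs⟩
  simp only [Sm, this]

theorem meb_sqrt {t : ℝ} (ht : 1 ≤ t) : √(1 + t) ≤ 2 * √t := by
  rw [show (2 : ℝ) = √4 by rw [show (4 : ℝ) = 2 ^ 2 by norm_num, sqrt_sq (by norm_num)],
    ← sqrt_mul (by norm_num)]
  exact sqrt_le_sqrt (by linarith)

/-- Solving the integral equation. -/
theorem ode_lim {g : ℕ → ℝ} {C : ℝ} (h : ∀ t : ℝ, 0 ≤ t →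
    |t * Sm g (exp t) - 3 / 2 * Sm (fun n => g n * (t - log n)) (exp t)| ≤ C * √(1 + t)) :
    ∃ c : ℝ, Tendsto (fun t => Sm g (exp t) / √t) atTop (𝓝 c) := by
  have hC : 0 ≤ C := by simpa only [add_zero, sqrt_one, mul_one] using (abs_nonneg _).trans (h 0 le_rfl)
  set I : ℝ → ℝ := fun t => Sm (fun n => g n * (t - log n)) (exp t) with hI
  set M : ℝ → ℝ := fun t => Sm g (exp t) with hM
  have h' : ∀ t, 1 ≤ t → |t * M t - 3 / 2 * I t| ≤ 2 * C * √t := fun t ht =>
    (h t (by linarith)).trans (by nlinarith only [meb_sqrt ht, hC])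
  set φ : ℝ → ℝ := fun t => I t / (t * √t) with hφ
  have key : ∀ s t, 1 ≤ s → s ≤ t → ‖φ t - φ s‖ ≤ 2 * C * (s⁻¹ - t⁻¹) := by
    intro s t hs hst
    refine image_norm_le_of_norm_deriv_right_le_deriv_boundary' (a := s) (b := t)
      (f := fun u => φ u - φ s) (f' := fun u => (u * M u - 3 / 2 * I u) / (u ^ 2 * √u))
      (B := fun u => 2 * C * (s⁻¹ - u⁻¹)) (B' := fun u => 2 * C * (u ^ 2)⁻¹) ?_ ?_ (by simp) ?_ ?_ ?_
      ⟨hst, le_rfl⟩
    · refine ContinuousOn.sub ((meb_cont g s t).div (by fun_prop) fun u hu => ?_) continuousOn_const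
      have : 0 < u := by linarith [hu.1]
      positivity
    · intro u hu
      have hu0 : 0 < u := by linarith [hu.1]
      have hq : 0 < √u := sqrt_pos.2 hu0
      have hd := ((hasDerivAt_id u).mul (hasDerivAt_sqrt hu0.ne')).hasDerivWithinAt (s := Set.Ici u)
      have := (((meb_deriv g u).div hd (by simp only [Pi.mul_apply, id]; positivity))).sub_const (φ s)
      refine this.congr_deriv ?_
      symm
      change _ = (M u * (u * √u) - I u * (1 * √u + u * (1 / (2 * √u)))) / (u * √u) ^ 2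
      have e := mul_self_sqrt hu0.le
      set r := √u
      rw [← e]
      field_simp
      ring
    · refine continuousOn_const.mul (continuousOn_const.sub (continuousOn_id.inv₀ fun u hu => ?_))
      have : 0 < u := by linarith [hu.1]
      exact this.ne'
    · intro u hu
      have hu0 : 0 < u := by linarith [hu.1]
      simpa only [neg_neg] using (((hasDerivAt_inv hu0.ne').const_sub s⁻¹).const_mul (2 * C)).hasDerivWithinAt
    · intro u hu
      have hu0 : 0 < u := by linarith [hu.1]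
      have hq : 0 < √u := sqrt_pos.2 hu0
      rw [norm_eq_abs, abs_div, abs_of_pos (by positivity : 0 < u ^ 2 * √u), div_le_iff₀ (by positivity)]
      refine (h' u (hs.trans hu.1)).trans (le_of_eq ?_)
      field_simp
  have hz : Tendsto (fun t : ℝ => 2 * C * t⁻¹) atTop (𝓝 0) := by
    simpa only [mul_zero] using tendsto_inv_atTop_zero.const_mul (2 * C)
  have hcs : CauchySeq φ := by
    refine Metric.cauchySeq_iff'.2 fun ε hε => ?_
    obtain ⟨N, hN1, hN⟩ := ((eventually_ge_atTop 1).and (hz.eventually (gt_mem_nhds hε))).exists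
    refine ⟨N, fun t ht => ?_⟩
    have h0 : 0 ≤ t⁻¹ := inv_nonneg.2 (by linarith only [hN1, ht])
    rw [dist_eq_norm]
    nlinarith only [key N t hN1 ht, hC, hN, h0]
  obtain ⟨l, hl⟩ := cauchySeq_tendsto_of_complete hcs
  have he : Tendsto (fun t => M t / √t - 3 / 2 * φ t) atTop (𝓝 0) := by
    refine squeeze_zero_norm' ?_ hz
    filter_upwards [eventually_ge_atTop 1] with t ht
    have ht0 : 0 < t := by linarith
    have hq : 0 < √t := sqrt_pos.2 ht0
    have e : M t / √t - 3 / 2 * φ t = (t * M t - 3 / 2 * I t) / (t * √t) := by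
      simp only [hφ]; field_simp
    rw [e, norm_eq_abs, abs_div, abs_of_pos (by positivity : 0 < t * √t), div_le_iff₀ (by positivity)]
    refine (h' t ht).trans (le_of_eq ?_)
    field_simp
  exact ⟨_, (he.add (hl.const_mul (3 / 2))).congr fun t => sub_add_cancel _ _⟩

theorem MM_lim : ∃ c : ℝ, Tendsto (fun x => MM x / √(log x)) atTop (𝓝 c) := by
  obtain ⟨C, hC⟩ := ode_ineq
  obtain ⟨c, hc⟩ := ode_lim (g := fun n => w n / n) (C := C) fun t ht => by
    have h1 := hC (exp t) (one_le_exp ht)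
    have h2 : II (exp t) = Sm (fun n => w n / n * (t - log n)) (exp t) := by
      unfold II Sm
      refine sum_congr rfl fun n hn => ?_
      have h0 : (0 : ℝ) < n := by exact_mod_cast (mem_Icc.1 hn).1
      simp only [log_div (exp_pos t).ne' h0.ne', log_exp]
    rwa [log_exp, h2] at h1
  refine ⟨c, (hc.comp tendsto_log_atTop).congr' ?_⟩
  filter_upwards [eventually_gt_atTop 0] with x hx
  simp only [Function.comp, exp_log hx, MM]


theorem mec_log {m : ℕ} (hm : 1 ≤ m) (S : Finset ℕ) :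
    ∑ p ∈ S.filter (fun p => p.Prime ∧ p ∣ m), log p ≤ log m := by
  have h1 : S.filter (fun p => p.Prime ∧ p ∣ m) ⊆ m.primeFactors := fun p hp =>
    Nat.mem_primeFactors.2 ⟨(mem_filter.1 hp).2.1, (mem_filter.1 hp).2.2, by omega⟩
  refine (sum_le_sum_of_subset_of_nonneg h1 fun p _ _ => log_natCast_nonneg p).trans ?_
  rw [← log_prod fun p hp => by exact_mod_cast (Nat.prime_of_mem_primeFactors hp).ne_zero,
    ← Nat.cast_prod]
  exact log_le_log (by exact_mod_cast prod_pos fun p hp => (Nat.prime_of_mem_primeFactors hp).pos)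
    (by exact_mod_cast Nat.le_of_dvd hm (Nat.prod_primeFactors_dvd m))

theorem mec_inner {m : ℕ} (hm : 1 ≤ m) (k M : ℕ) :
    |∑ p ∈ (Icc 1 M).filter (fun p => p.Prime ∧ p ≠ 2 ∧ ¬ p ∣ k), cop m (k * p) * log p / 2 -
      cop m k * Chebyshev.theta M / 2| ≤
      1 + log m + ∑ p ∈ (Icc 1 M).filter (fun p => p.Prime ∧ p ∣ k), log p := by
  have h2 : ∑ p ∈ (Icc 1 M).filter (fun p => p.Prime ∧ p ∣ 2), log p ≤ 1 := by
    have := mec_log (m := 2) one_le_two (Icc 1 M)
    push_cast at this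
    linarith only [log_two_lt_d9, this]
  have h3 := mec_log hm (Icc 1 M)
  have e : Chebyshev.theta M = ∑ p ∈ (Icc 1 M).filter Nat.Prime, log p := by
    rw [Chebyshev.theta, Nat.floor_natCast]; rfl
  rw [e, mul_sum, sum_div]
  refine le_trans ?_ (add_le_add_left (add_le_add h2 h3) _)
  simp only [sum_filter, ← sum_sub_distrib, ← sum_add_distrib]
  refine (abs_sum_le_sum_abs _ _).trans (sum_le_sum fun p _ => ?_)
  have l0 := log_natCast_nonneg p
  have c0 := cop_nonneg m k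
  have c1 := cop_le_one m k
  have c2 : cop m k * log p ≤ log p := mul_le_of_le_one_left l0 c1
  have c3 := mul_nonneg c0 l0
  by_cases hp : p.Prime
  · have e2 : p ∣ 2 ↔ p = 2 := Nat.prime_dvd_prime_iff_eq hp Nat.prime_two
    have e3 : cop m (k * p) = if p ∣ m then 0 else cop m k := by
      simp only [cop, Nat.coprime_mul_iff_left, hp.coprime_iff_not_dvd]
      by_cases h : p ∣ m <;> simp [h]
    simp only [hp, true_and, if_true, e2, e3, ne_eq]
    rw [abs_le]
    split_ifs <;> first | (constructor <;> linarith only [l0, c2, c3]) | (exfalso; tauto)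
  · simp [hp]

theorem wir : ∃ C : ℝ, ∀ᶠ Y : ℝ in atTop, ∀ (m : ℕ) (x : ℝ), 1 ≤ m → log m ≤ rt 8 Y → √Y ≤ x →
    x ≤ Y → |Sm (fun n => w n * cop m n * log n) x - x / 2 * MC m x| ≤ C * x * rt 8 Y := by
  refine ⟨14, ?_⟩
  filter_upwards [(tendsto_exp_atTop.comp (tendsto_rt (k := 8) (by norm_num))).eventually
    (theta_pnt 8), (tendsto_rt (k := 8) (by norm_num)).eventually_ge_atTop 1,
    eventually_ge_atTop 1, ev_log_ge 1] with Y hθ hT hY hL m x hm hmT hx hxY
  have hT8 := rt_pow (k := 8) (by norm_num) hY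
  obtain ⟨T, hTe⟩ : ∃ T, T = rt 8 Y := ⟨_, rfl⟩
  simp only [Function.comp, log_exp, hT8] at hθ
  rw [← hTe] at hθ hT hmT ⊢
  have x1 : 1 ≤ x := (one_le_sqrt.2 hY).trans hx
  have x0 : 0 < x := by linarith only [x1]
  have E1 : 1 ≤ exp T := one_le_exp (by linarith only [hT])
  have hN : (⌊x⌋₊ : ℝ) ≤ x := Nat.floor_le x0.le
  have key : ∀ k ∈ Icc 1 ⌊x⌋₊, |w k * ∑ p ∈ (Icc 1 (⌊x⌋₊ / k)).filter
      (fun p => p.Prime ∧ p ≠ 2 ∧ ¬ p ∣ k), cop m (k * p) * log p / 2 -
        x / 2 * (w k * cop m k / k)| ≤ x / log Y * (1 / k) +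
      2 * x * (1 / k - if (k : ℝ) ≤ x / exp T then 1 / (k : ℝ) else 0) + (1 + T) +
      ∑ p ∈ (Icc 1 (⌊x⌋₊ / k)).filter (fun p => p.Prime ∧ p ∣ k), log p := by
    intro k hk
    have k0 : (0 : ℝ) < k := by exact_mod_cast (mem_Icc.1 hk).1
    have h1 := mec_inner hm k (⌊x⌋₊ / k)
    rw [← Nat.floor_div_natCast, ← Chebyshev.theta_eq_theta_coe_floor, Nat.floor_div_natCast] at h1
    have z0 : 0 < x / k := by positivity
    have h2 : |Chebyshev.theta (x / k) - x / k| ≤ x / log Y * (1 / k) +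
        2 * x * (1 / k - if (k : ℝ) ≤ x / exp T then 1 / (k : ℝ) else 0) := by
      split_ifs with h
      · rw [le_div_comm₀ k0 (by positivity)] at h
        refine (hθ _ h).trans (le_of_eq ?_)
        ring
      · have h3 := Chebyshev.theta_le_log4_mul_x z0.le
        have h4 := Chebyshev.theta_nonneg (x / k)
        have h5 : log 4 ≤ 2 := by
          rw [show (4 : ℝ) = 2 ^ 2 by norm_num, log_pow]
          push_cast
          linarith only [log_two_lt_d9]
        have h6 : 0 ≤ x / log Y * (1 / k) := by positivity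
        have e : 2 * x * (1 / k - 0) = 2 * (x / k) := by ring
        rw [e, abs_le]
        constructor <;> nlinarith only [z0, h4, h6, h3, h5]
    obtain ⟨S, hS⟩ : ∃ S, S = ∑ p ∈ (Icc 1 (⌊x⌋₊ / k)).filter
      (fun p => p.Prime ∧ p ≠ 2 ∧ ¬ p ∣ k), cop m (k * p) * log p / 2 := ⟨_, rfl⟩
    rw [← hS] at h1 ⊢
    have e : w k * S - x / 2 * (w k * cop m k / k) = w k * ((S - cop m k *
        Chebyshev.theta (x / k) / 2) + cop m k / 2 * (Chebyshev.theta (x / k) - x / k)) := by ring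
    rw [e, abs_mul]
    refine (mul_le_of_le_one_left (abs_nonneg _) (abs_w_le k)).trans ((abs_add_le _ _).trans ?_)
    have c0 := cop_nonneg m k
    have c1 := cop_le_one m k
    rw [abs_mul, abs_of_nonneg (by positivity : 0 ≤ cop m k / 2)]
    nlinarith only [abs_nonneg (Chebyshev.theta (x / k) - x / k), hmT, h2, h1, c1]
  rw [Sm, logid, MC, Sm, mul_sum, ← sum_sub_distrib]
  refine (abs_sum_le_sum_abs _ _).trans ((sum_le_sum key).trans ?_)
  have s1 := harm_le x1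
  have s2 := harm_win x0.le E1
  rw [← sm_cut (fun n => 1 / n) (by positivity) (div_le_self x0.le E1), log_exp] at s2
  have s3 := sum_dvd_le ⌊x⌋₊
  have s4 : log x ≤ log Y := log_le_log x0 hxY
  simp only [Sm] at s1 s2
  simp only [sum_add_distrib, ← mul_sum, sum_sub_distrib, sum_const, Nat.card_Icc, nsmul_eq_mul,
    Nat.add_sub_cancel]
  have s5 : x / log Y * ∑ n ∈ Icc 1 ⌊x⌋₊, (1 : ℝ) / n ≤ 2 * x := by
    rw [div_mul_eq_mul_div, div_le_iff₀ (by linarith only [hL])]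
    nlinarith only [hL, x1, s4, s1]
  have s6 := mul_le_mul_of_nonneg_left s2 x0.le
  nlinarith only [hT, hN, s3, s5, s6]


theorem med_wc_nonneg (m n : ℕ) : 0 ≤ w n * cop m n := mul_nonneg (w_nonneg n) (cop_nonneg m n)

theorem med_wc_le (m n : ℕ) : w n * cop m n ≤ 1 :=
  mul_le_one₀ (w_le_one n) (cop_nonneg m n) (cop_le_one m n)

theorem WC_log (m : ℕ) {x Y : ℝ} (hx : 1 ≤ x) (hY : x ≤ Y) :
    |WC m x * log Y - Sm (fun n => w n * cop m n * log n) x| ≤ x * (1 + log (Y / x)) := by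
  have hx0 : 0 < x := by linarith
  have hL : 0 ≤ log (Y / x) := log_nonneg ((one_le_div hx0).2 hY)
  have h1 := sum_log_div hx0.le
  have h2 : ∑ _n ∈ Icc 1 ⌊x⌋₊, log (Y / x) ≤ x * log (Y / x) := by
    rw [sum_const, Nat.card_Icc, Nat.add_sub_cancel, nsmul_eq_mul]
    exact mul_le_mul_of_nonneg_right (Nat.floor_le hx0.le) hL
  unfold WC Sm at *
  rw [sum_mul, ← sum_sub_distrib]
  refine (abs_sum_le_sum_abs _ _).trans ((sum_le_sum (g := fun n : ℕ =>
    log (x / n) + log (Y / x)) fun n hn => ?_).trans ?_)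
  · obtain ⟨hn1, hn2⟩ := mem_Icc.1 hn
    have hn0 : (0 : ℝ) < n := by exact_mod_cast hn1
    have hnx : (n : ℝ) ≤ x := (Nat.le_floor_iff hx0.le).1 hn2
    have h3 : 0 ≤ log (x / n) := log_nonneg ((one_le_div hn0).2 hnx)
    have h4 : log Y - log n = log (x / n) + log (Y / x) := by
      rw [log_div hx0.ne' hn0.ne', log_div (by linarith only [hx, hY]) hx0.ne']; ring
    rw [← mul_sub, h4, abs_of_nonneg (mul_nonneg (med_wc_nonneg m n) (by linarith only [hL, h3]))]
    exact mul_le_of_le_one_left (by linarith only [hL, h3]) (med_wc_le m n)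
  · rw [sum_add_distrib]; linarith

theorem med_term {d e k : ℕ} (hd : 0 < d) :
    w d / d * (w k * cop (d * e) k / k) =
      if Nat.gcd (d * k) (d * e) = d then w (d * k) / ((d * k : ℕ) : ℝ) else 0 := by
  have h1 : Nat.gcd (d * k) (d * e) = d ↔ Nat.Coprime k e := by
    rw [Nat.gcd_mul_left, Nat.Coprime, Nat.mul_eq_left hd.ne']
  rw [w_mul_cop, Nat.cast_mul]
  unfold cop
  simp only [h1, Nat.coprime_mul_iff_right]
  by_cases h3 : Nat.Coprime k e
  · rw [if_pos h3]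
    by_cases h2 : Nat.Coprime k d
    · rw [if_pos ⟨h2, h3⟩, if_pos h2]; ring
    · rw [if_neg fun h => h2 h.1, if_neg h2]; ring
  · rw [if_neg h3, if_neg fun h => h3 h.2]; ring

theorem MM_eq {m : ℕ} (hm : OS m) (x : ℝ) : MM x = ∑ d ∈ m.divisors, w d / d * MC m (x / d) := by
  have hm0 := hm.pos
  have h1 : MM x = ∑ n ∈ Icc 1 ⌊x⌋₊, ∑ d ∈ m.divisors,
      if Nat.gcd n m = d then w n / (n : ℝ) else 0 := by
    unfold MM Sm
    refine sum_congr rfl fun n _ => ?_
    rw [sum_ite_eq, if_pos (Nat.mem_divisors.2 ⟨Nat.gcd_dvd_right n m, hm0.ne'⟩)]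
  rw [h1, sum_comm]
  refine sum_congr rfl fun d hd => ?_
  have hd0 : 0 < d := Nat.pos_of_mem_divisors hd
  obtain ⟨e, rfl⟩ := Nat.dvd_of_mem_divisors hd
  unfold MC Sm
  rw [mul_sum, Nat.floor_div_natCast]
  refine (sum_of_injOn (fun k => d * k) (fun a _ b _ h => Nat.eq_of_mul_eq_mul_left hd0 h)
    (fun k hk => ?_) (fun n hn h => ?_) fun k _ => med_term hd0).symm
  · obtain ⟨h2, h3⟩ := mem_Icc.1 hk
    exact mem_Icc.2 ⟨Nat.mul_pos hd0 h2, by rwa [Nat.le_div_iff_mul_le hd0, mul_comm] at h3⟩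
  · refine if_neg fun h2 => h ?_
    obtain ⟨k, rfl⟩ : d ∣ n := h2 ▸ Nat.gcd_dvd_left n (d * e)
    obtain ⟨h3, h4⟩ := mem_Icc.1 hn
    refine ⟨k, mem_coe.2 (mem_Icc.2 ⟨Nat.pos_of_mul_pos_left h3, ?_⟩), rfl⟩
    rwa [Nat.le_div_iff_mul_le hd0, mul_comm]

theorem sum_w_div {m : ℕ} (hm : OS m) : hh m * ∑ d ∈ m.divisors, w d / d = 1 := by
  let f : ArithmeticFunction ℝ := ⟨fun n => w n / n, by simp⟩
  have hf : f.IsMultiplicative := by
    refine ⟨by simp [f, w_one], fun {a b} h => ?_⟩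
    change w (a * b) / ((a * b : ℕ) : ℝ) = w a / a * (w b / b)
    rw [w_mul h, Nat.cast_mul, mul_div_mul_comm]
  have h1 := hf.prodPrimeFactors_one_add_of_squarefree hm.1
  change _ = ∑ d ∈ m.divisors, w d / d at h1
  rw [← h1, hh, ← prod_mul_distrib]
  refine prod_eq_one fun p hp => ?_
  have hp1 := Nat.prime_of_mem_primeFactors hp
  have hp2 : p ≠ 2 := by
    rintro rfl
    have := (hm.of_dvd (Nat.dvd_of_mem_primeFactors hp)).2
    omega
  have hp0 : (0 : ℝ) < p := by exact_mod_cast hp1.pos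
  change _ * (1 + w p / p) = 1
  rw [w_prime hp1 hp2, div_div]
  exact inv_mul_cancel₀ (by positivity)

theorem med_win (m : ℕ) {x d : ℝ} (hx : 0 ≤ x) (hd : 1 ≤ d) :
    |MC m x - MC m (x / d)| ≤ 1 + log d := by
  have h1 := harm_win hx hd
  have h2 : Icc 1 ⌊x / d⌋₊ ⊆ Icc 1 ⌊x⌋₊ :=
    Icc_subset_Icc_right (Nat.floor_mono (div_le_self hx hd))
  unfold MC Sm at *
  rw [← sum_sdiff_eq_sub h2] at h1 ⊢
  rw [abs_of_nonneg (sum_nonneg fun n _ => div_nonneg (med_wc_nonneg m n) n.cast_nonneg)]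
  exact (sum_le_sum fun n _ => div_le_div_of_nonneg_right (med_wc_le m n) n.cast_nonneg).trans h1

theorem MC_sub {m : ℕ} (hm : OS m) {x : ℝ} (hx : 0 ≤ x) : |MC m x - hh m * MM x| ≤ 1 + log m := by
  have h1 := sum_w_div hm
  have h2 : MC m x - hh m * MM x =
      ∑ d ∈ m.divisors, hh m * (w d / d) * (MC m x - MC m (x / d)) := by
    simp only [mul_sub, sum_sub_distrib]
    rw [← sum_mul, ← mul_sum, h1, one_mul, MM_eq hm x, mul_sum]
    simp only [mul_assoc]
  rw [h2]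
  refine (abs_sum_le_sum_abs _ _).trans ((sum_le_sum (g := fun d : ℕ =>
    hh m * (w d / d) * (1 + log m)) fun d hd => ?_).trans ?_)
  · have hd0 : (1 : ℝ) ≤ d := by exact_mod_cast Nat.pos_of_mem_divisors hd
    have h3 : 0 ≤ hh m * (w d / d) :=
      mul_nonneg (hh_pos m).le (div_nonneg (w_nonneg d) d.cast_nonneg)
    have h4 : log d ≤ log m :=
      log_le_log (by linarith only [hd0]) (by exact_mod_cast Nat.divisor_le hd)
    rw [abs_mul, abs_of_nonneg h3]
    exact mul_le_mul_of_nonneg_left ((med_win m hx hd0).trans (by linarith only [h4])) h3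
  · rw [← sum_mul, ← mul_sum, h1, one_mul]


theorem mef_MM_sub {Y d : ℝ} (hY : 0 ≤ Y) (hd : 1 ≤ d) : |MM Y - MM (Y / d)| ≤ 1 + log d := by
  have hs : Icc 1 ⌊Y / d⌋₊ ⊆ Icc 1 ⌊Y⌋₊ :=
    Icc_subset_Icc_right (Nat.floor_le_floor (div_le_self hY hd))
  have h := harm_win hY hd
  simp only [MM, Sm] at h ⊢
  rw [← sum_sdiff hs, add_sub_cancel_right] at h ⊢
  rw [abs_of_nonneg (sum_nonneg fun n _ => div_nonneg (w_nonneg n) (Nat.cast_nonneg n))]
  exact (sum_le_sum fun n _ => div_le_div_of_nonneg_right (w_le_one n) (Nat.cast_nonneg n)).trans h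

theorem WC_main : ∃ C : ℝ, ∀ᶠ Y : ℝ in atTop, ∀ m : ℕ, OS m → (m : ℝ) ≤ exp (rt 8 Y) →
    |WC m (Y / m) - Y / m * hh m * (MM Y / (2 * log Y))| ≤ C * (Y / m) * rt 8 Y / log Y := by
  obtain ⟨C, hC⟩ := wir
  refine ⟨C + 4, ?_⟩
  filter_upwards [hC, ev_rt_le (k := 8) (by norm_num) 2, ev_log_ge 1, eventually_ge_atTop 1,
    (tendsto_rt (k := 8) (by norm_num)).eventually_ge_atTop 1] with Y hw h2 hL hY hT m hm hmT
  have hm1 : (1 : ℝ) ≤ m := by exact_mod_cast hm.pos
  have hm0 : (0 : ℝ) < m := by linarith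
  have hY0 : 0 < Y := by linarith
  have hlm : log m ≤ rt 8 Y := (log_le_iff_le_exp hm0).2 hmT
  have hms : (m : ℝ) ≤ √Y := by
    refine hmT.trans ?_
    rw [sqrt_eq_rpow, rpow_def_of_pos hY0]
    exact exp_le_exp.2 (by linarith only [h2])
  have hsx : √Y ≤ Y / m := by
    rw [le_div_iff₀ hm0]
    calc √Y * m ≤ √Y * √Y := mul_le_mul_of_nonneg_left hms (sqrt_nonneg _)
      _ = Y := mul_self_sqrt hY0.le
  have hx1 : 1 ≤ Y / m := (hm1.trans hms).trans hsx
  have hxY : Y / m ≤ Y := div_le_self hY0.le hm1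
  have e1 := WC_log m hx1 hxY
  rw [div_div_cancel₀ hY0.ne'] at e1
  have e2 := hw m _ hm.pos hlm hsx hxY
  have e3 := MC_sub hm (x := Y / m) (by linarith only [hm1, hms, hsx])
  have e4 := mef_MM_sub hY0.le hm1
  have h0 := hh_pos m
  have h1 := hh_le_one m
  generalize Sm (fun n => w n * cop m n * log n) (Y / m) = S at e1 e2
  generalize WC m (Y / m) = W at e1 ⊢
  generalize MC m (Y / m) = M at e2 e3
  generalize MM (Y / m) = A at e3 e4
  generalize Y / m = x at *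
  generalize MM Y = B at *
  generalize rt 8 Y = T at *
  generalize log Y = L at *
  generalize log m = l at *
  generalize hh m = h at *
  have hL0 : 0 < L := by linarith only [hT, h2]
  have hx0 : 0 ≤ x / 2 := by linarith only [hm1, hms, hsx]
  rw [le_div_iff₀ hL0, ← abs_of_pos hL0, ← abs_mul, abs_of_pos hL0]
  have key : (W - x * h * (B / (2 * L))) * L =
      (W * L - S) + (S - x / 2 * M) + x / 2 * (M - h * A) - x / 2 * (h * (B - A)) := by
    field_simp; ring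
  have f3 : |x / 2 * (M - h * A)| ≤ x / 2 * (2 * T) := by
    rw [abs_mul, abs_of_nonneg hx0]; exact mul_le_mul_of_nonneg_left (by linarith only [hT, hlm, e3]) hx0
  have f4 : |x / 2 * (h * (B - A))| ≤ x / 2 * (2 * T) := by
    rw [abs_mul, abs_of_nonneg hx0, abs_mul, abs_of_pos h0]
    exact mul_le_mul_of_nonneg_left ((mul_le_of_le_one_left (abs_nonneg _) h1).trans (by linarith only [hT, e4, hlm])) hx0
  have f1 : x * (1 + l) ≤ x * (2 * T) := mul_le_mul_of_nonneg_left (by linarith only [hT, hlm]) (by linarith only [hm1, hms, hsx])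
  rw [key]
  have := abs_le.1 e1; have := abs_le.1 e2; have := abs_le.1 f3; have := abs_le.1 f4
  rw [abs_le]; constructor <;> nlinarith

end Pool.Agent.MP_5d10af_nt.Q2

end

-- part MP_5d10af_nt.Q2.Terms
section

/-! The asymptotic expansion of the four variable sums. -/

set_option autoImplicit false

namespace Pool.Agent.MP_5d10af_nt.Q2

open Finset Filter Real Asymptotics Topology


theorem cv_comm (f g : ℕ → ℝ) : cv f g = cv g f := by
  funext Y
  rw [cv, dm_swap]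
  exact dm_congr fun a e _ _ _ => by rw [cop_comm]; ring

theorem cv_add (f f' g : ℕ → ℝ) (Y : ℝ) : cv (fun n => f n + f' n) g Y = cv f g Y + cv f' g Y := by
  rw [cv, cv, cv, ← dm_add]
  exact dm_congr fun a e _ _ _ => by ring

theorem cv_mul (c : ℝ) (f g : ℕ → ℝ) (Y : ℝ) : cv (fun n => c * f n) g Y = c * cv f g Y := by
  rw [cv, cv, ← dm_mul]
  exact dm_congr fun a e _ _ _ => by ring

theorem cv_eq (f g : ℕ → ℝ) (Y : ℝ) :
    cv f g Y = Sm (fun m => ∑ x ∈ m.divisorsAntidiagonal, g x.1 * (f x.2 * cop x.1 x.2)) Y :=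
  (sm_conv (fun n k => g n * (f k * cop n k)) Y).symm

theorem cv_ww (Y : ℝ) : cv w w Y = #((Icc 1 ⌊Y⌋₊).filter fun n => Squarefree n ∧ n % 2 = 1) := by
  rw [cv_eq, Sm, card_filter, Nat.cast_sum]
  refine sum_congr rfl fun m _ => ?_
  rw [sum_congr rfl (g := fun _ => w m) fun x hx => by
    rw [← (Nat.mem_divisorsAntidiagonal.1 hx).1, w_mul_cop, mul_assoc], sum_const, nsmul_eq_mul]
  split_ifs with h
  · rw [card_mul_w h, Nat.cast_one]
  · rw [w_eq_zero h, mul_zero, Nat.cast_zero]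


theorem tef_dvd {a b d : ℕ} (ha : Squarefree a) (hb : b ≠ 0) (h : d ^ 2 ∣ b ^ 2 * a) : d ∣ b := by
  have h0 : b ^ 2 * a ≠ 0 := mul_ne_zero (pow_ne_zero _ hb) ha.ne_zero
  have hd : d ≠ 0 := by
    rintro rfl
    exact h0 (zero_dvd_iff.1 (by simpa only [zero_dvd_iff, mul_eq_zero, Nat.pow_eq_zero, ne_eq, OfNat.ofNat_ne_zero, not_false_eq_true, and_true, zero_pow] using h))
  rw [← Nat.factorization_le_iff_dvd hd hb]
  intro p
  have h1 := (Nat.factorization_le_iff_dvd (pow_ne_zero 2 hd) h0).2 h p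
  have h2 := ha.natFactorization_le_one p
  rw [Nat.factorization_mul (pow_ne_zero _ hb) ha.ne_zero] at h1
  simp only [Nat.factorization_pow, Finsupp.add_apply, Finsupp.smul_apply, smul_eq_mul] at h1
  omega

open ArithmeticFunction in
theorem tef_ind {n N : ℕ} (hn : n ∈ Icc 1 N) :
    ∑ d ∈ Icc 1 N, (if d ^ 2 ∣ n then (moebius d : ℝ) else 0) = if Squarefree n then 1 else 0 := by
  obtain ⟨h1, h2⟩ := mem_Icc.1 hn
  obtain ⟨a, b, ha, hb, rfl, hs⟩ := Nat.sq_mul_squarefree_of_pos h1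
  have e : (Icc 1 N).filter (fun d => d ^ 2 ∣ b ^ 2 * a) = b.divisors := by
    ext d
    simp only [mem_filter, mem_Icc, Nat.mem_divisors]
    refine ⟨fun h => ⟨tef_dvd hs hb.ne' h.2, hb.ne'⟩, fun h => ⟨⟨Nat.pos_of_dvd_of_pos h.1 hb, ?_⟩,
      (pow_dvd_pow_of_dvd h.1 2).mul_right _⟩⟩
    have := Nat.le_of_dvd hb h.1
    nlinarith
  have h3 := congrArg (fun f : ArithmeticFunction ℤ => f b) moebius_mul_coe_zeta
  simp only [coe_mul_zeta_apply, one_apply] at h3
  rw [← sum_filter, e, ← Int.cast_sum, h3]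
  by_cases hb1 : b = 1
  · simp [hb1, hs]
  · have : ¬ Squarefree (b ^ 2 * a) := fun h =>
      hb1 (Nat.isUnit_iff.1 (h b (by rw [← sq]; exact dvd_mul_right _ _)))
    simp [hb1, this]

theorem tef_odd (M : ℕ) : #((Icc 1 M).filter fun k => k % 2 = 1) = (M + 1) / 2 := by
  induction M with
  | zero => simp
  | succ M ih =>
    rw [← insert_Icc_right_eq_Icc_add_one (by omega), filter_insert]
    split_ifs with h
    · rw [card_insert_of_notMem (by simp only [mem_filter, mem_Icc, le_add_iff_nonneg_left, zero_le, add_le_iff_nonpos_right, nonpos_iff_eq_zero, one_ne_zero, and_false, false_and, not_false_eq_true]), ih]; omega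
    · rw [ih]; omega

theorem tef_cnt (N : ℕ) {d : ℕ} (hd : d ≠ 0) :
    #((Icc 1 N).filter fun n => n % 2 = 1 ∧ d ^ 2 ∣ n) =
      if d % 2 = 1 then (N / d ^ 2 + 1) / 2 else 0 := by
  have hp : 0 < d ^ 2 := by positivity
  split_ifs with h
  · rw [← tef_odd]
    have ho : Odd (d ^ 2) := (Nat.odd_iff.2 h).pow
    refine (card_bij (fun k _ => d ^ 2 * k) (fun k hk => ?_) (fun k _ l _ e => ?_)
      (fun n hn => ?_)).symm
    · simp only [mem_filter, mem_Icc, Nat.le_div_iff_mul_le hp] at hk ⊢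
      exact ⟨⟨Nat.mul_pos hp hk.1.1, by rw [mul_comm]; exact hk.1.2⟩,
        Nat.odd_iff.1 (ho.mul (Nat.odd_iff.2 hk.2)), dvd_mul_right _ _⟩
    · exact Nat.eq_of_mul_eq_mul_left hp e
    · simp only [mem_filter, mem_Icc, Nat.le_div_iff_mul_le hp] at hn ⊢
      obtain ⟨⟨h1, h2⟩, h3, k, rfl⟩ := hn
      exact ⟨k, ⟨⟨Nat.pos_of_mul_pos_left h1, by rw [mul_comm]; exact h2⟩,
        Nat.odd_iff.1 (Nat.odd_mul.1 (Nat.odd_iff.2 h3)).2⟩, rfl⟩
  · refine card_eq_zero.2 (filter_eq_empty_iff.2 fun n _ hn => h ?_)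
    exact Nat.odd_iff.1 ((Nat.odd_iff.2 hn.1).of_dvd_nat ((dvd_pow_self d two_ne_zero).trans hn.2))

theorem tef_near {x : ℝ} (hx : 0 ≤ x) : |(((⌊x⌋₊ + 1) / 2 : ℕ) : ℝ) - x / 2| ≤ x ^ (3 / 4 : ℝ) := by
  rcases lt_or_ge x 1 with h | h
  · rw [Nat.floor_eq_zero.2 h]
    have := Real.rpow_le_rpow_of_exponent_ge' hx h.le (show (0 : ℝ) ≤ 3 / 4 by norm_num)
      (show (3 / 4 : ℝ) ≤ 1 by norm_num)
    rw [rpow_one] at this
    rw [abs_le]; norm_num only [zero_sub, neg_le_neg_iff]; constructor <;> linarith only [hx, this]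
  · have h1 := Nat.floor_le hx
    have h2 := Nat.lt_floor_add_one x
    have h3 : (⌊x⌋₊ : ℝ) ≤ 2 * ((⌊x⌋₊ + 1) / 2 : ℕ) := by exact_mod_cast (by omega)
    have h4 : 2 * (((⌊x⌋₊ + 1) / 2 : ℕ) : ℝ) ≤ ⌊x⌋₊ + 1 := by exact_mod_cast (by omega)
    refine le_trans ?_ (Real.one_le_rpow h (by norm_num))
    rw [abs_le]; constructor <;> linarith only [h2, h3, h1, h4]

open ArithmeticFunction in
theorem asy_ww : Asy (cv w w) := by
  let a : ℕ → ℝ := fun d => if d % 2 = 1 then (moebius d : ℝ) / (2 * d ^ 2) else 0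
  have hμ : ∀ d, |(moebius d : ℝ)| ≤ 1 := fun d => by exact_mod_cast abs_moebius_le_one
  have ha : Summable a := by
    refine Summable.of_norm_bounded (Real.summable_one_div_nat_pow.2 one_lt_two) fun d => ?_
    simp only [a]
    split_ifs with h
    · have : (0 : ℝ) < d := by exact_mod_cast (by omega : 0 < d)
      rw [norm_eq_abs, abs_div, abs_of_pos (by positivity : (0 : ℝ) < 2 * d ^ 2)]
      exact div_le_div₀ zero_le_one (hμ d) (by positivity) (by linarith only [sq_nonneg (d : ℝ)])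
    · simp only [norm_zero, one_div, inv_nonneg, Nat.cast_nonneg, pow_nonneg]
  have hs : Summable fun d : ℕ => (d : ℝ) ^ (-(3 / 2) : ℝ) :=
    Real.summable_nat_rpow.2 (by norm_num)
  refine ⟨∑' d, a d, 0, isLittleO_Ph (C := ∑' d : ℕ, (d : ℝ) ^ (-(3 / 2) : ℝ)) ?_⟩
  filter_upwards [ev_pow_le_sqrt 2 1, eventually_ge_atTop 1,
    (tendsto_rt (k := 8) (by norm_num)).eventually_ge_atTop 1] with Y h1 hY hT
  have hY0 : 0 < Y := by linarith
  let g : ℕ → ℝ := fun d =>
    if d % 2 = 1 then (moebius d : ℝ) * ((⌊Y⌋₊ / d ^ 2 + 1) / 2 : ℕ) else 0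
  have hg0 : ∀ d ∉ Icc 1 ⌊Y⌋₊, g d = 0 := fun d hd => by
    simp only [g]
    split_ifs with h
    · have : ⌊Y⌋₊ < d ^ 2 := by
        have : ⌊Y⌋₊ < d := by rw [mem_Icc] at hd; omega
        nlinarith only [this]
      simp [Nat.div_eq_of_lt this]
    · rfl
  have e1 : cv w w Y = ∑' d, g d := by
    rw [tsum_eq_sum hg0, cv_ww, card_filter, Nat.cast_sum]
    calc _ = ∑ n ∈ Icc 1 ⌊Y⌋₊, ∑ d ∈ Icc 1 ⌊Y⌋₊,
          (moebius d : ℝ) * if n % 2 = 1 ∧ d ^ 2 ∣ n then 1 else 0 := by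
          refine sum_congr rfl fun n hn => ?_
          by_cases h : n % 2 = 1
          · simp only [h, true_and, and_true, mul_ite, mul_one, mul_zero, tef_ind hn]
            split_ifs <;> simp
          · simp only [h, and_false, ↓ reduceIte, CharP.cast_eq_zero, false_and, mul_zero, sum_const_zero]
      _ = _ := by
          rw [sum_comm]
          refine sum_congr rfl fun d hd => ?_
          rw [← mul_sum, sum_boole, tef_cnt _ (by rw [mem_Icc] at hd; omega)]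
          simp only [g]
          split_ifs <;> simp only [CharP.cast_eq_zero, mul_zero]
  have hb : ∀ d, ‖g d - a d * Y‖ ≤ (d : ℝ) ^ (-(3 / 2) : ℝ) * Y ^ (3 / 4 : ℝ) := fun d => by
    simp only [g, a]
    split_ifs with h
    · have hd : (0 : ℝ) < d := by exact_mod_cast (by omega : 0 < d)
      have h2 := tef_near (x := Y / (d ^ 2 : ℕ)) (by positivity)
      rw [Nat.floor_div_natCast, Real.div_rpow hY0.le (by positivity), Nat.cast_pow,
        ← rpow_natCast, ← rpow_mul hd.le] at h2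
      rw [rpow_neg hd.le, norm_eq_abs, show ∀ u : ℝ, (moebius d : ℝ) * u -
        moebius d / (2 * d ^ 2) * Y = moebius d * (u - Y / d ^ 2 / 2) from fun u => by ring, abs_mul]
      refine (mul_le_of_le_one_left (abs_nonneg _) (hμ d)).trans ?_
      rw [rpow_natCast] at h2
      refine h2.trans_eq ?_
      norm_num
      ring
    · simp only [zero_mul, sub_zero, norm_zero]; positivity
  have h2 := tsum_of_norm_bounded (hs.hasSum.mul_right _) hb
  rw [(summable_of_ne_finset_zero hg0).tsum_sub (ha.mul_right Y), tsum_mul_right, ← e1] at h2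
  rw [zero_mul, sub_zero]
  refine h2.trans ?_
  rw [mul_div_assoc]
  refine mul_le_mul_of_nonneg_left ?_ (tsum_nonneg fun d => by positivity)
  have h3 : rt 8 Y ^ 5 ≤ Y ^ (1 / 4 : ℝ) := by
    refine (pow_le_pow_right₀ hT (by norm_num : 5 ≤ 8)).trans ?_
    rw [rt_pow (by norm_num) hY]
    refine (pow_le_pow_iff_left₀ (log_nonneg hY) (by positivity) two_ne_zero).1 ?_
    rw [← rpow_natCast (Y ^ _), ← rpow_mul hY0.le]
    norm_num
    rw [← sqrt_eq_rpow]
    linarith only [h1]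
  rw [le_div_iff₀ (by positivity)]
  refine (mul_le_mul_of_nonneg_left h3 (by positivity)).trans_eq ?_
  rw [← rpow_add hY0]; norm_num


theorem teb_main {f β : ℕ → ℝ} {c Y : ℝ} (hY : 1 ≤ log Y) (hY1 : 1 ≤ Y) (hc : 0 ≤ c)
    (hβ : ∀ n, |β n| ≤ 3) (h : ∀ n : ℕ, 1 ≤ n → (n : ℝ) ≤ Y → β n ≠ 0 →
      |Sm (fun k => f k * cop n k) (Y / n)| ≤ c * (Y / n / log Y ^ 2)) :
    |cv f β Y| ≤ 6 * c * Y / log Y := by
  have h1 : |cv f β Y| ≤ 3 * c * Y / log Y ^ 2 * (1 + log Y) := by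
    refine abs_sm_harm hY1 (by positivity) fun n hn hnY => ?_
    have hn0 : (0 : ℝ) < n := by exact_mod_cast hn
    rw [sm_mul, abs_mul]
    by_cases h0 : β n = 0
    · rw [h0, abs_zero, zero_mul]; positivity
    · refine le_trans (mul_le_mul (hβ n) (h n hn hnY h0) (abs_nonneg _) (by norm_num))
        (le_of_eq ?_)
      field_simp
  refine h1.trans ?_
  have h2 : 3 * c * Y / log Y ^ 2 * (1 + log Y) ≤ 3 * c * Y / log Y ^ 2 * (2 * log Y) := by
    gcongr; linarith only [hY]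
  refine h2.trans (le_of_eq ?_)
  field_simp
  ring

/-- The oscillating variable is summed over its full range. -/
theorem head : ∀ᶠ Y : ℝ in atTop, ∀ (i j : Fin 4) (β : ℕ → ℝ), (∀ n, |β n| ≤ 3) →
    (∀ n, β n ≠ 0 → n * exp (rt 8 Y) ≤ Y) → |cv (rm i j) β Y| ≤ 6 * Y / log Y := by
  filter_upwards [rem_cop, ev_log_ge 1, eventually_ge_atTop 1] with Y h1 h2 h3 i j β hβ hs
  have := teb_main (f := rm i j) (c := 1) h2 h3 zero_le_one hβ fun n hn hnY h0 => by
    have hn0 : (0 : ℝ) < n := by exact_mod_cast hn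
    rw [one_mul]
    exact h1 i j n _ hn hnY (by rw [le_div_iff₀ hn0, mul_comm]; exact hs n h0)
  rwa [mul_one] at this

/-- The oscillating variable is large. -/
theorem tail : ∀ᶠ Y : ℝ in atTop, ∀ (i j : Fin 4) (β : ℕ → ℝ) (Z : ℝ), (∀ n, |β n| ≤ 3) →
    exp (rt 8 Y) ≤ Z → Z ≤ Y →
      |cv (fun n => if (n : ℝ) ≤ Z then 0 else rm i j n) β Y| ≤ 12 * Y / log Y := by
  filter_upwards [rem_cop, ev_log_ge 1, eventually_ge_atTop 1] with Y h1 h2 h3 i j β Z hβ hZ _
  have hZ0 : 0 ≤ Z := (exp_pos _).le.trans hZ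
  have := teb_main (f := fun n => if (n : ℝ) ≤ Z then 0 else rm i j n) (c := 2) h2 h3
    zero_le_two hβ fun n hn hnY _ => by
    have hn0 : (0 : ℝ) < n := by exact_mod_cast hn
    by_cases hc : Z ≤ Y / n
    · have e1 : Sm (fun k => (if (k : ℝ) ≤ Z then 0 else rm i j k) * cop n k) (Y / n) =
          Sm (fun k => rm i j k * cop n k) (Y / n) - Sm (fun k => rm i j k * cop n k) Z := by
        rw [← sm_cut _ hZ0 hc, eq_sub_iff_add_eq, ← sm_add]
        refine sm_congr fun k _ _ => ?_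
        split_ifs <;> simp
      have e2 := h1 i j n _ hn hnY (hZ.trans hc)
      have e3 := h1 i j n _ hn hnY hZ
      have e4 : Z / log Y ^ 2 ≤ Y / n / log Y ^ 2 := by gcongr
      rw [e1]
      refine (abs_sub _ _).trans ?_
      linarith only [e2, e3, e4]
    · have e1 : Sm (fun k => (if (k : ℝ) ≤ Z then 0 else rm i j k) * cop n k) (Y / n) =
          Sm (fun _ => 0 * 0) (Y / n) :=
        sm_congr fun k _ hk => by rw [if_pos (by linarith only [hc, hk]), zero_mul, zero_mul]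
      rw [e1, sm_mul, zero_mul, abs_zero]
      positivity
  rwa [show (6 : ℝ) * 2 = 12 by norm_num] at this

theorem asy_rr (i j k l : Fin 4) : Asy (cv (rm i j) (rm k l)) := by
  refine Asy.of_o (isLittleO_Ph (C := 18) ?_)
  filter_upwards [head, tail, ev_log_ge 1, eventually_ge_atTop 1, ev_rt_le (k := 8) (by norm_num) 2,
    (tendsto_rt (k := 8) (by norm_num)).eventually_ge_atTop 1] with Y h1 h2 h3 h4 h5 h6
  have hs : exp (rt 8 Y) ≤ √Y := by
    rw [le_sqrt (exp_pos _).le (by linarith), ← exp_nat_mul, ← le_log_iff_exp_le (by linarith)]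
    exact_mod_cast h5
  have hs2 : √Y * √Y = Y := mul_self_sqrt (by linarith)
  have hs1 : 1 ≤ √Y := one_le_sqrt.mpr h4
  have e1 : cv (rm i j) (rm k l) Y =
      cv (fun n => if (n : ℝ) ≤ √Y then rm i j n else 0) (rm k l) Y +
        cv (fun n => if (n : ℝ) ≤ √Y then 0 else rm i j n) (rm k l) Y := by
    rw [← cv_add]
    congr 1
    funext n
    split_ifs <;> simp
  have e2 := h2 i j (rm k l) (√Y) (abs_rm_le k l) hs (by nlinarith only [hs2, hs1])
  have e3 := h1 k l (fun n => if (n : ℝ) ≤ √Y then rm i j n else 0)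
    (fun n => by split_ifs; exacts [abs_rm_le i j n, by norm_num]) fun n hn => by
      have hn' : (n : ℝ) ≤ √Y := by
        by_contra hc
        exact hn (if_neg hc)
      calc _ ≤ √Y * √Y := mul_le_mul hn' hs (exp_pos _).le (by linarith only [hs1])
        _ = Y := hs2
  rw [cv_comm] at e3
  have e4 : 18 * Y / log Y ≤ 18 * Y / rt 8 Y ^ 5 := by
    rw [← rt_pow (k := 8) (by norm_num) h4]
    gcongr
    norm_num
  rw [e1]
  refine (abs_add_le _ _).trans (le_trans ?_ e4)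
  have : 18 * Y / log Y = 6 * Y / log Y + 12 * Y / log Y := by ring
  linarith only [e2, e3, this]


theorem tec_main (i j : Fin 4) : Asy fun Y =>
    Y * (MM Y / (2 * log Y)) * Sm (fun n => rm i j n * hh n / n) (exp (rt 8 Y)) := by
  obtain ⟨c, hc⟩ := MM_lim
  obtain ⟨ρ, hρ⟩ := rem_conv i j
  refine Asy.of_tendsto (ρ := c / 2 * ρ) (((hc.div_const 2).mul
    (hρ.comp (tendsto_exp_atTop.comp (tendsto_rt (k := 8) (by norm_num))))).congr' ?_)
  filter_upwards [ev_log_ge 1, eventually_gt_atTop 0] with Y hL hY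
  have h1 : 0 < √(log Y) := sqrt_pos.2 (by linarith)
  have h2 : √(log Y) * √(log Y) = log Y := mul_self_sqrt (by linarith)
  simp only [Function.comp, Ph]
  obtain ⟨s, hs⟩ : ∃ s, s = √(log Y) := ⟨_, rfl⟩
  rw [← hs] at h1 h2 ⊢
  rw [← h2]
  field_simp

theorem tec_cut (i j : Fin 4) {Y Z : ℝ} (hZ : 0 ≤ Z) (hY : Z ≤ Y) :
    cv (fun n => if (n : ℝ) ≤ Z then rm i j n else 0) w Y =
      Sm (fun n => rm i j n * WC n (Y / n)) Z := by
  rw [cv_comm, cv, Dm, ← sm_cut _ hZ hY]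
  refine sm_congr fun n _ _ => ?_
  rw [sm_mul]
  split_ifs
  · rfl
  · exact zero_mul _

theorem asy_rw (i j : Fin 4) : Asy (cv (rm i j) w) := by
  obtain ⟨C, hC⟩ := WC_main
  have h := (tec_main i j).add (Asy.of_o (isLittleO_Ph (C := 12 + 6 * |C|) (f := fun Y =>
    cv (rm i j) w Y - Y * (MM Y / (2 * log Y)) *
      Sm (fun n => rm i j n * hh n / n) (exp (rt 8 Y))) ?_))
  · exact h.congr (Eventually.of_forall fun Y => by simp)
  filter_upwards [hC, tail, (tendsto_rt (k := 8) (by norm_num)).eventually_ge_atTop 1,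
    eventually_ge_atTop 1, ev_rt_le (k := 8) (by norm_num) 1] with Y h1 h2 hT hY hTL
  have hT8 := rt_pow (k := 8) (by norm_num) hY
  obtain ⟨T, hTe⟩ : ∃ T, T = rt 8 Y := ⟨_, rfl⟩
  rw [← hTe] at h1 h2 hT hTL hT8 ⊢
  have Y0 : 0 < Y := by linarith
  have T0 : 0 < T := by linarith
  have hZ : exp T ≤ Y := by
    rw [← le_log_iff_exp_le Y0]; linarith
  have a1 := h2 i j w (exp T) (fun n => (abs_w_le n).trans (by norm_num)) le_rfl hZ
  have e1 : cv (rm i j) w Y = cv (fun n => if (n : ℝ) ≤ exp T then rm i j n else 0) w Y +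
      cv (fun n => if (n : ℝ) ≤ exp T then 0 else rm i j n) w Y := by
    rw [← cv_add]
    congr 2 with n
    split_ifs <;> simp
  have a2 := abs_sm_harm (f := fun n => rm i j n * WC n (Y / n) +
    -(Y * (MM Y / (2 * log Y))) * (rm i j n * hh n / n)) (c := 3 * (|C| * Y * T / log Y))
    (one_le_exp T0.le) (by rw [← hT8]; positivity) fun n n1 hn => ?_
  · rw [sm_add, sm_mul, log_exp] at a2
    rw [e1, tec_cut i j (exp_pos T).le hZ]
    rw [← hT8] at a1 a2 ⊢
    have b1 : 12 * Y / T ^ 8 ≤ 12 * Y / T ^ 5 := by gcongr; norm_num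
    have b2 : 3 * (|C| * Y * T / T ^ 8) * (1 + T) ≤ 6 * |C| * Y / T ^ 5 := by
      have : 1 + T ≤ 2 * T ^ 2 := by nlinarith only [hT]
      calc _ ≤ 3 * (|C| * Y * T / T ^ 8) * (2 * T ^ 2) := by gcongr
        _ = _ := by field_simp; ring
    have e2 : (12 + 6 * |C|) * Y / T ^ 5 = 12 * Y / T ^ 5 + 6 * |C| * Y / T ^ 5 := by ring
    rw [abs_le] at a1 a2 ⊢
    constructor <;> linarith only [a1.1, a1.2, a2.1, a2.2, b1, b2, e2]
  · have L0 : 0 < log Y := by linarith only [hTL, hT]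
    by_cases hn' : OS n
    · have e : rm i j n * WC n (Y / n) + -(Y * (MM Y / (2 * log Y))) * (rm i j n * hh n / n) =
          rm i j n * (WC n (Y / n) - Y / n * hh n * (MM Y / (2 * log Y))) := by ring
      rw [e, abs_mul]
      refine (mul_le_mul (abs_rm_le i j n) ((h1 n hn' hn).trans
        (?_ : _ ≤ |C| * (Y / n) * T / log Y)) (abs_nonneg _) (by norm_num)).trans (le_of_eq ?_)
      · gcongr
        exact le_abs_self C
      · ring
    · simp only [rm_eq_zero i j hn', zero_mul, zero_div, mul_zero, add_zero, abs_zero]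
      positivity

theorem asy_al (i j k l : Fin 4) : Asy (cv (al i j) (al k l)) := by
  have e : ∀ i j, al i j = fun n => rm i j n + sg i j * w n := fun i j => by
    funext n; rw [rm]; ring
  have h1 : ∀ g : ℕ → ℝ, ∀ i j, Asy (cv (rm i j) g) → Asy (cv w g) → Asy (cv g (al i j)) := by
    intro g i j a b
    rw [cv_comm, e]
    exact (a.add (b.mul (sg i j))).congr (Eventually.of_forall fun Y => by
      simp only [cv_add, cv_mul])
  exact h1 _ k l (h1 _ i j (asy_rr i j k l) (cv_comm _ _ ▸ asy_rw k l))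
    (h1 _ i j (asy_rw i j) asy_ww)


lemma ted_one (φ : ℕ → ℝ) {a : ℕ} (ha : a % 2 = 1) :
    φ (a % 8) = ∑ i : Fin 4, (∑ x : Fin 4, φ (2 * x.1 + 1) * psi i (2 * x.1 + 1) / 4) * psi i a := by
  obtain ⟨y, hy⟩ := Dec.exists_res ha
  have h : ∀ x y : Fin 4, ∑ i : Fin 4, psi i (2 * x.1 + 1) * psi i (2 * y.1 + 1) =
      if x = y then 4 else 0 := by decide
  have h1 : ∀ x : Fin 4, ∑ i : Fin 4, φ (2 * x.1 + 1) * psi i (2 * x.1 + 1) / 4 * psi i a =
      if x = y then φ (2 * x.1 + 1) else 0 := by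
    intro x
    have h2 := congrArg (Int.cast (R := ℝ)) (h x y)
    rw [Int.cast_sum] at h2
    have h3 : ∑ i : Fin 4, φ (2 * x.1 + 1) * psi i (2 * x.1 + 1) / 4 * psi i a =
        φ (2 * x.1 + 1) / 4 * ∑ i : Fin 4, ((psi i (2 * x.1 + 1) * psi i (2 * y.1 + 1) : ℤ) : ℝ) := by
      rw [mul_sum]
      refine sum_congr rfl fun i _ => ?_
      rw [Dec.psi_res hy]; push_cast; ring
    rw [h3, h2]
    split_ifs <;> push_cast <;> ring
  simp only [sum_mul]
  rw [sum_comm]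
  simp only [h1, sum_ite_eq', mem_univ, if_true, hy]

lemma ted_ex (φ : ℕ → ℝ) : ∃ co : Fin 4 → ℝ, ∀ a : ℕ, a % 2 = 1 →
    φ (a % 8) = ∑ i, co i * psi i a := ⟨_, fun _ ha => ted_one φ ha⟩

lemma ted_pair {N n : ℕ} (hN : N ≠ 0) (h : n ∣ N) (G : ℕ → ℕ → ℝ) :
    ∑ y ∈ n.divisorsAntidiagonal, G y.1 y.2 =
      ∑ a ∈ N.divisors, ∑ e ∈ N.divisors, if a * e = n then G a e else 0 := by
  rw [← sum_product', ← sum_filter]
  refine sum_congr ?_ fun _ _ => rfl
  ext y
  simp only [Nat.mem_divisorsAntidiagonal, mem_filter, mem_product, Nat.mem_divisors]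
  constructor
  · rintro ⟨rfl, -⟩
    exact ⟨⟨⟨(dvd_mul_right _ _).trans h, hN⟩, (dvd_mul_left _ _).trans h, hN⟩, rfl⟩
  · rintro ⟨-, h1⟩
    exact ⟨h1, ne_zero_of_dvd_ne_zero hN h⟩

lemma ted_four {m : ℕ} (hm : m ≠ 0) (F : ℕ → ℕ → ℕ → ℕ → ℝ) :
    ∑ x ∈ m.divisorsAntidiagonal, ∑ y ∈ x.1.divisorsAntidiagonal,
      ∑ z ∈ x.2.divisorsAntidiagonal, F y.1 y.2 z.1 z.2 =
    ∑ a ∈ m.divisors, ∑ e ∈ m.divisors, ∑ c ∈ m.divisors, ∑ b ∈ m.divisors,
      if a * e * (c * b) = m then F a e c b else 0 := by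
  have h1 : ∀ a e c b, (if a * e * (c * b) = m then F a e c b else 0) =
      ∑ x ∈ m.divisorsAntidiagonal, if (a * e, c * b) = x then F a e c b else 0 := by
    intro a e c b
    rw [sum_ite_eq]
    simp only [Nat.mem_divisorsAntidiagonal, hm, ne_eq, not_false_eq_true, and_true]
  simp only [h1]
  simp only [sum_comm (t := m.divisorsAntidiagonal)]
  refine sum_congr rfl fun x hx => ?_
  obtain ⟨h2, -⟩ := Nat.mem_divisorsAntidiagonal.mp hx
  rw [ted_pair hm (Dvd.intro _ h2) fun a e => ∑ z ∈ x.2.divisorsAntidiagonal, F a e z.1 z.2]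
  refine sum_congr rfl fun a _ => sum_congr rfl fun e _ => ?_
  rw [ted_pair hm (Dvd.intro_left _ h2) (F a e)]
  by_cases h3 : a * e = x.1
  · simp only [h3, if_true, Prod.ext_iff, true_and]
  · simp only [h3, if_false, Prod.ext_iff, false_and, sum_const_zero]

lemma ted_w {n : ℕ} (h : OS n) : wt 0 n = w n := by
  simp [wt, w, h]

/-- Fourier expansion on four odd residues modulo 8. -/
theorem fourier (φ : ℕ → ℕ → ℕ → ℕ → ℝ) : ∃ co : Fin 4 → Fin 4 → Fin 4 → Fin 4 → ℝ,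
    ∀ a e c b : ℕ, a % 2 = 1 → e % 2 = 1 → c % 2 = 1 → b % 2 = 1 →
      φ (a % 8) (e % 8) (c % 8) (b % 8) = ∑ i, ∑ j, ∑ k, ∑ l,
        co i j k l * ((psi i a * psi j e * (psi k c * psi l b) : ℤ) : ℝ) := by
  choose c1 h1 using fun e c b => ted_ex fun a => φ a e c b
  choose c2 h2 using fun i c b => ted_ex fun e => c1 e c b i
  choose c3 h3 using fun i j b => ted_ex fun c => c2 i c b j
  choose c4 h4 using fun i j k => ted_ex fun b => c3 i j b k
  refine ⟨c4, fun a e c b ha he hc hb => ?_⟩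
  rw [h1 _ _ _ a ha]
  refine sum_congr rfl fun i _ => ?_
  rw [h2 _ _ _ e he, sum_mul]
  refine sum_congr rfl fun j _ => ?_
  rw [h3 _ _ _ c hc, sum_mul, sum_mul]
  refine sum_congr rfl fun k _ => ?_
  rw [h4 _ _ _ b hb, sum_mul, sum_mul, sum_mul]
  refine sum_congr rfl fun l _ => ?_
  push_cast; ring

theorem cnt_eq {c₁ c₂ : ℤ} (h1 : c₁ = 1 ∨ c₁ = 2) (h2 : c₂ = 1 ∨ c₂ = 2) {m : ℕ} (hm : OS m) :
    (cnt c₁ c₂ m : ℝ) = ∑ x ∈ m.divisorsAntidiagonal, ∑ y ∈ x.1.divisorsAntidiagonal,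
      ∑ z ∈ x.2.divisorsAntidiagonal,
        ((jacobiSym c₁ y.1 * jacobiSym c₂ z.1 * (jacobiSym z.1 y.1 * jacobiSym y.1 z.1) : ℤ) : ℝ) *
          ((jacobiSym y.2 y.1 * w y.1 * w y.2) * (jacobiSym z.2 z.1 * w z.1 * w z.2)) := by
  have g : ∀ {c : ℤ}, c = 1 ∨ c = 2 → c.gcd m = 1 := by
    rintro c (rfl | rfl)
    · simp
    · exact (Nat.coprime_two_left.2 (Nat.odd_iff.2 hm.2) :)
  have h := Dec.cnt_expand 0 hm.1 (g h1) (g h2) fun n => if n = m then 1 else 0
  simp only [neg_zero, rpow_zero, one_mul, ite_mul, zero_mul, sum_ite_eq', Nat.mem_divisors,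
    dvd_refl, hm.pos.ne', ne_eq, not_false_eq_true, and_self, if_true] at h
  rw [h, ted_four hm.pos.ne' fun a e c b =>
    ((jacobiSym c₁ a * jacobiSym c₂ c * (jacobiSym c a * jacobiSym a c) : ℤ) : ℝ) *
      ((jacobiSym e a * w a * w e) * (jacobiSym b c * w c * w b))]
  refine sum_congr rfl fun a ha => sum_congr rfl fun e he => sum_congr rfl fun c hc =>
    sum_congr rfl fun b hb => ?_
  have o := fun {d : ℕ} (hd : d ∈ m.divisors) => ted_w (hm.of_dvd (Nat.dvd_of_mem_divisors hd))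
  rw [o ha, o he, o hc, o hb, show a * b * (c * e) = a * e * (c * b) by ring]
  by_cases h3 : a * e * (c * b) = m
  · rw [if_pos (os_mul.1 (h3 ▸ hm)).2.2]
  · simp only [if_neg h3, ite_self]


theorem tee_jac {c : ℤ} (h : c = 1 ∨ c = 2) {a : ℕ} (ha : a % 2 = 1) :
    jacobiSym c a = if c = 1 then 1 else psi 2 a := by
  rcases h with rfl | rfl
  · simp [jacobiSym.one_left]
  · rw [if_neg (by norm_num), Dec.jac_two ha]

theorem tee_swap {α : Type} (s : Finset α) (F : Fin 4 → Fin 4 → Fin 4 → Fin 4 → α → ℝ) :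
    ∑ i, ∑ j, ∑ k, ∑ l, ∑ x ∈ s, F i j k l x = ∑ x ∈ s, ∑ i, ∑ j, ∑ k, ∑ l, F i j k l x := by
  rw [sum_comm (s := s)]
  refine sum_congr rfl fun i _ => ?_
  rw [sum_comm (s := s)]
  refine sum_congr rfl fun j _ => ?_
  rw [sum_comm (s := s)]
  exact sum_congr rfl fun k _ => sum_comm

open Classical in
theorem cnt_al (φ : ℕ → ℝ) {c₁ c₂ : ℤ} (h1 : c₁ = 1 ∨ c₁ = 2) (h2 : c₂ = 1 ∨ c₂ = 2) :
    ∃ co : Fin 4 → Fin 4 → Fin 4 → Fin 4 → ℝ, ∀ m : ℕ,
      (if OS m then φ (m % 8) * cnt c₁ c₂ m else 0) = ∑ i, ∑ j, ∑ k, ∑ l, co i j k l *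
        ∑ x ∈ m.divisorsAntidiagonal, al i j x.1 * (al k l x.2 * cop x.1 x.2) := by
  obtain ⟨co, hco⟩ := fourier fun a e c b => φ (a * e * (c * b) % 8) *
    (((if c₁ = 1 then 1 else psi 2 a) * (if c₂ = 1 then 1 else psi 2 c) *
      (if c % 4 = 1 then 1 else psi 1 a) : ℤ) : ℝ)
  refine ⟨co, fun m => ?_⟩
  split_ifs with hm
  · rw [cnt_eq h1 h2 hm, mul_sum]
    simp only [mul_sum (s := m.divisorsAntidiagonal)]
    rw [tee_swap]
    refine sum_congr rfl fun x hx => ?_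
    have hxm : x.1 * x.2 = m := (Nat.mem_divisorsAntidiagonal.mp hx).1
    obtain ⟨o1, o2, hc⟩ := os_mul.mp (hxm ▸ hm)
    have hcop : cop x.1 x.2 = 1 := by unfold cop; rw [if_pos hc.symm]
    simp only [hcop, mul_one, al, sum_mul_sum]
    simp only [mul_sum (s := x.1.divisorsAntidiagonal), mul_sum (s := x.2.divisorsAntidiagonal)]
    rw [tee_swap]
    refine sum_congr rfl fun y hy => ?_
    rw [tee_swap]
    refine sum_congr rfl fun z hz => ?_
    have hy1 : y.1 * y.2 = x.1 := (Nat.mem_divisorsAntidiagonal.mp hy).1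
    have hz1 : z.1 * z.2 = x.2 := (Nat.mem_divisorsAntidiagonal.mp hz).1
    obtain ⟨a1, a2, -⟩ := os_mul.mp (hy1 ▸ o1)
    obtain ⟨b1, b2, -⟩ := os_mul.mp (hz1 ▸ o2)
    have hac : Nat.Coprime y.1 z.1 :=
      (hc.coprime_dvd_left ⟨_, hy1.symm⟩).coprime_dvd_right ⟨_, hz1.symm⟩
    have key := hco y.1 y.2 z.1 z.2 a1.2 a2.2 b1.2 b2.2
    have hmod : y.1 % 8 * (y.2 % 8) * (z.1 % 8 * (z.2 % 8)) % 8 = m % 8 := by
      rw [← hxm, ← hy1, ← hz1]; simp only [Nat.mul_mod, dvd_refl, Nat.mod_mod_of_dvd]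
    have h4 : z.1 % 8 % 4 = z.1 % 4 := by omega
    simp only [hmod, h4, ← tee_jac h1 a1.2, ← tee_jac h2 b1.2, psi_mod,
      ← Dec.jac_mul_jac a1.2 b1.2 hac] at key
    rw [← mul_assoc, key]
    simp only [sum_mul]
    refine sum_congr rfl fun i _ => sum_congr rfl fun j _ => sum_congr rfl fun k _ =>
      sum_congr rfl fun l _ => ?_
    unfold kn
    push_cast
    ring
  · symm
    refine sum_eq_zero fun i _ => sum_eq_zero fun j _ => sum_eq_zero fun k _ =>
      sum_eq_zero fun l _ => mul_eq_zero_of_right _ (sum_eq_zero fun x hx => ?_)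
    have hxm : x.1 * x.2 = m := (Nat.mem_divisorsAntidiagonal.mp hx).1
    rw [← hxm, os_mul] at hm
    by_cases o1 : OS x.1
    · by_cases o2 : OS x.2
      · have hc : ¬ Nat.Coprime x.2 x.1 := fun h => hm ⟨o1, o2, h.symm⟩
        unfold cop
        rw [if_neg hc, mul_zero, mul_zero]
      · rw [al_eq_zero k l o2, zero_mul, mul_zero]
    · rw [al_eq_zero i j o1, zero_mul]

open Classical in
theorem asy_cnt (φ : ℕ → ℝ) {c₁ c₂ : ℤ} (h1 : c₁ = 1 ∨ c₁ = 2) (h2 : c₂ = 1 ∨ c₂ = 2) :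
    Asy (Sm fun m => if OS m then φ (m % 8) * cnt c₁ c₂ m else 0) := by
  obtain ⟨co, hco⟩ := cnt_al φ h1 h2
  refine (Asy.sum univ fun i _ => Asy.sum univ fun j _ => Asy.sum univ fun k _ =>
    Asy.sum univ fun l _ => (asy_al k l i j).mul (co i j k l)).congr
      (Eventually.of_forall fun Y => ?_)
  simp only [cv_eq, hco, Sm, mul_sum (s := Icc 1 ⌊Y⌋₊)]
  exact tee_swap _ _


theorem teg_dil (f : ℕ → ℝ) {k : ℕ} (hk : 0 < k) (Y : ℝ) :
    Sm (fun n => if k ∣ n then f (n / k) else 0) Y = Sm f (Y / k) := by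
  rw [Sm, Sm, Nat.floor_div_natCast, ← sum_filter]
  refine (sum_bij (fun m _ => k * m) (fun m hm => ?_) (fun m _ l _ e => ?_) (fun n hn => ?_)
    fun m _ => ?_).symm
  · simp only [mem_filter, mem_Icc, Nat.le_div_iff_mul_le hk] at hm ⊢
    exact ⟨⟨Nat.mul_pos hk hm.1, by rw [mul_comm]; exact hm.2⟩, dvd_mul_right _ _⟩
  · exact Nat.eq_of_mul_eq_mul_left hk e
  · simp only [mem_filter, mem_Icc, Nat.le_div_iff_mul_le hk] at hn ⊢
    obtain ⟨⟨h1, h2⟩, m, rfl⟩ := hn
    exact ⟨m, ⟨Nat.pos_of_mul_pos_left h1, by rw [mul_comm]; exact h2⟩, rfl⟩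
  · rw [Nat.mul_div_cancel_left _ hk]

theorem teg_asy {f : ℕ → ℝ} (hf : Asy (Sm f)) {k : ℕ} (hk : 0 < k) :
    Asy (Sm fun n => if k ∣ n then f (n / k) else 0) :=
  (hf.comp (g := fun X => X / k) (l := 1 / k) (C := 0) (by positivity)
    (Eventually.of_forall fun X => by rw [one_div_mul_eq_div]; simp)).congr
    (Eventually.of_forall fun Y => (teg_dil f hk Y).symm)

theorem teg_add {f g : ℕ → ℝ} (hf : Asy (Sm f)) (hg : Asy (Sm g)) :
    Asy (Sm fun n => f n + g n) :=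
  (hf.add hg).congr (Eventually.of_forall fun Y => (sm_add f g Y).symm)

theorem teg_pt (c : ℝ) : Asy (Sm fun n => if n = 4 then c else 0) := by
  refine (Asy.const c).congr ?_
  filter_upwards [eventually_ge_atTop 4] with Y hY
  have : 4 ≤ ⌊Y⌋₊ := Nat.le_floor (by exact_mod_cast hY)
  rw [Sm, sum_ite_eq', if_pos (mem_Icc.2 ⟨by norm_num, this⟩)]

open Classical in
theorem asy_F {F : ℤ → ℕ} (hG : Genus F) : Asy (Sm fun n => (F (-(n : ℤ)) : ℝ)) := by
  let φ : ℕ → ℕ → ℝ := fun s r => if r % 4 = s then 1 / 2 else 0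
  let ψ : ℕ → ℝ := fun _ => 1 / 2
  have h := teg_add (teg_add (teg_add (asy_cnt (φ 3) (.inl rfl) (.inl rfl))
    (teg_asy (teg_add (asy_cnt (φ 1) (.inl rfl) (.inl rfl)) (asy_cnt (φ 1) (.inr rfl) (.inr rfl)))
      (k := 4) (by norm_num)))
    (teg_asy (teg_add (asy_cnt ψ (.inl rfl) (.inr rfl)) (asy_cnt ψ (.inr rfl) (.inl rfl)))
      (k := 8) (by norm_num)))
    (teg_pt (F (-(4 : ℕ)) - (1 / 2 * cnt 1 1 1 + 1 / 2 * cnt 2 2 1)))
  refine h.congr (Eventually.of_forall fun Y => sm_congr fun n hn _ => ?_)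
  have ev : ∀ m, m % 2 = 0 → ¬ OS m := fun m h h' => by have := h'.2; omega
  by_cases h1 : Squarefree n ∧ n % 4 = 3
  · have e : (2 : ℝ) * F (-(n : ℤ)) = cnt 1 1 n := by exact_mod_cast hG.odd n h1.1 h1.2
    rw [if_pos (show OS n from ⟨h1.1, by omega⟩), if_neg (by omega), if_neg (by omega),
      if_neg (by omega), ← e]
    simp only [φ]
    rw [if_pos (by omega)]; ring
  by_cases h2 : ∃ m, Squarefree m ∧ m % 4 = 1 ∧ n = 4 * m
  · obtain ⟨m, hs, hm, rfl⟩ := h2
    have ho : OS m := ⟨hs, by omega⟩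
    rw [if_neg (ev _ (by omega)), if_pos (dvd_mul_right _ _), if_neg (show ¬ 8 ∣ _ by omega),
      Nat.mul_div_cancel_left _ (by norm_num), if_pos ho, if_pos ho]
    simp only [φ]
    rw [if_pos (by omega)]
    by_cases hm1 : m = 1
    · subst hm1; rw [if_pos rfl]; ring
    · have e : (2 : ℝ) * F (-(4 * m : ℕ)) = cnt 1 1 m + cnt 2 2 m := by
        exact_mod_cast hG.four m hs hm hm1
      rw [if_neg (by omega)]; linarith only [e]
  by_cases h3 : ∃ m, Squarefree m ∧ m % 2 = 1 ∧ n = 8 * m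
  · obtain ⟨m, hs, hm, rfl⟩ := h3
    have ho : OS m := ⟨hs, hm⟩
    have e : (2 : ℝ) * F (-(8 * m : ℕ)) = cnt 1 2 m + cnt 2 1 m := by
      exact_mod_cast hG.eight m hs hm
    rw [if_neg (ev _ (by omega)), if_neg (ev (8 * m / 4) (by omega)),
      if_neg (ev (8 * m / 4) (by omega)), if_pos (dvd_mul_right 8 _),
      Nat.mul_div_cancel_left _ (by norm_num), if_pos ho, if_pos ho, if_neg (show ¬ 8 * m = 4 by omega)]
    simp only [ψ, add_zero, ite_self]
    linarith only [e]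
  have h4 : n ≠ 4 := fun e => h2 ⟨1, squarefree_one, rfl, e⟩
  rw [hG.zero n hn h1 (fun m a b c => h2 ⟨m, a, b, c⟩) fun m a b c => h3 ⟨m, a, b, c⟩, if_neg h4]
  have e1 : OS n → φ 3 (n % 8) = 0 := fun h => if_neg fun h' => h1 ⟨h.1, by omega⟩
  have e2 : 4 ∣ n → OS (n / 4) → φ 1 (n / 4 % 8) = 0 := fun hd h =>
    if_neg fun h' => h2 ⟨n / 4, h.1, by omega, by omega⟩
  have e3 : 8 ∣ n → ¬ OS (n / 8) := fun hd h => h3 ⟨n / 8, h.1, h.2, by omega⟩
  split_ifs <;> simp_all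

end Pool.Agent.MP_5d10af_nt.Q2

end
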