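import Pool.Agent.MP_5d10af_nt.Mg.Half
import Pool.Agent.MP_5d10af_nt.Mg.MS

-- part MP_5d10af_nt.HalfCore
section

/-!
The abstract double sum bound.
-/

set_option autoImplicit false

namespace Pool.Agent.MP_5d10af_nt.QA

open Finset

/-- A family of characters with coefficients. -/
structure Fam (N m : ℕ) (c : ℕ → ℝ) (χ : ℕ → ℕ → ℝ) : Prop where
  abs_c : ∀ e, |c e| ≤ 1
  cm : ∀ e ∈ N.divisors, CM (χ e)
  bil : ∀ e ∈ N.divisors, 1 < e → c e ≠ 0 → Bil (fun n => χ e (2 * n + 1)) ((m : ℝ) ^ 2 * √e)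
  ms : MSH χ

lemma wt_one (σ : ℝ) : wt σ 1 = 1 := by simp [wt]

lemma ell_sub {N : ℕ} (hsq : Squarefree N) {χ : ℕ → ℝ} (h : CM χ) (s τ : ℝ) :
    ell s N χ - ell (s + τ) N χ = ∑ a ∈ N.divisors, wt s a * χ a * (1 - (a : ℝ) ^ (-τ)) := by
  rw [ell_eq_sum hsq h, ell_eq_sum hsq h, ← Finset.sum_sub_distrib]
  refine Finset.sum_congr rfl fun a ha => ?_
  rw [wt_add (hsq.squarefree_of_dvd (Nat.dvd_of_mem_divisors ha))]; ring

lemma step {N : ℕ} (hN : Odd N) (hsq : Squarefree N) {s t τ η : ℝ} (hs : 1 < s) (ht0 : 0 < t)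
    (hτ : t / 2 ≤ τ) (hτt : τ ≤ t) (ht : t ≤ 1) (hη : η ≤ t) (hA : Apx s η N)
    {m : ℕ} (hm : 1 ≤ m) {c : ℕ → ℝ} {χ : ℕ → ℕ → ℝ} (hF : Fam N m c χ) :
    |∑ e ∈ N.divisors, ∑ a ∈ N.divisors, c e * χ e a * wt s a * wt s e *
      (((e : ℝ) ^ (-(t / 2)) - (e : ℝ) ^ (-t)) * (1 - (a : ℝ) ^ (-τ)))| ≤
      800 * √m * t ^ (-(1 / 8) : ℝ) := by
  classical
  have h := half hN hsq hs ht0 hτ hτt ht hη hA hF.ms hm
    (N.divisors.filter fun e => 1 < e ∧ c e ≠ 0) (Finset.filter_subset _ _) fun e he => by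
      obtain ⟨h1, h2, h3⟩ := Finset.mem_filter.mp he
      exact ⟨hF.cm e h1, hF.bil e h1 h2 h3⟩
  refine le_trans (Finset.abs_sum_le_sum_abs _ _) (le_trans ?_ h)
  rw [Finset.sum_filter]
  refine Finset.sum_le_sum fun e he => ?_
  have e1 : ∑ a ∈ N.divisors, c e * χ e a * wt s a * wt s e *
      (((e : ℝ) ^ (-(t / 2)) - (e : ℝ) ^ (-t)) * (1 - (a : ℝ) ^ (-τ))) =
      c e * (wt s e * ((e : ℝ) ^ (-(t / 2)) - (e : ℝ) ^ (-t)) *
        (ell s N (χ e) - ell (s + τ) N (χ e))) := by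
    rw [ell_sub hsq (hF.cm e he), Finset.mul_sum, Finset.mul_sum]
    exact Finset.sum_congr rfl fun a _ => by ring
  rw [e1]
  have he0 := Nat.pos_of_mem_divisors he
  have hdx : 0 ≤ (e : ℝ) ^ (-(t / 2)) - (e : ℝ) ^ (-t) :=
    (dx_bounds (Nat.pow_log_le_self 64 he0.ne') (Nat.lt_pow_succ_log_self (by norm_num) e) ht0).1
  split_ifs with h1
  · rw [abs_mul, abs_mul, abs_of_nonneg (mul_nonneg (wt_pos s e).le hdx)]
    exact mul_le_of_le_one_left (mul_nonneg (mul_nonneg (wt_pos s e).le hdx) (abs_nonneg _))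
      (hF.abs_c e)
  · by_cases h2 : c e = 0
    · simp [h2]
    · have : e = 1 := by
        by_contra h3
        exact h1 ⟨by omega, h2⟩
      simp [this]

lemma ell_point {N : ℕ} (hN : Odd N) {χ : ℕ → ℝ} (h : CM χ) {s σ η : ℝ} (hs : 1 < s)
    (hσ : s ≤ σ) (hη : η ≤ 1) (hA : Apx s η N) {m e : ℕ} (hm : 1 ≤ m) (he : 1 ≤ e)
    (hB : Bil (fun n => χ (2 * n + 1)) ((m : ℝ) ^ 2 * √e)) :
    |ell σ N χ| ≤ 2.5 * √m * √e := by
  have hm' : (1 : ℝ) ≤ m := by exact_mod_cast hm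
  have he' : (1 : ℝ) ≤ e := by exact_mod_cast he
  have hse : √(e : ℝ) ≤ e := by
    rw [Real.sqrt_le_left (by positivity)]; nlinarith
  have h1 := ell_sq_point hN h (by linarith : 1 < σ) (by positivity) hB
    (M := m ^ 2 * e) (Nat.mul_pos (by positivity) he) (by push_cast; gcongr)
    (le_trans (hA σ hσ χ h) hη)
  have h2 : √((2 * (m ^ 2 * e) : ℕ) : ℝ) ≤ 2 * m * e := by
    rw [Real.sqrt_le_left (by positivity)]
    push_cast
    have : (m : ℝ) ^ 2 * e ≤ m ^ 2 * (e * e) := by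
      gcongr; nlinarith
    have : 0 ≤ (m : ℝ) ^ 2 * (e * e) := by positivity
    nlinarith
  refine le_of_pow_le_pow_left₀ (n := 2) (by norm_num) (by positivity) ?_
  rw [sq_abs, mul_pow, mul_pow, Real.sq_sqrt (by positivity), Real.sq_sqrt (by positivity)]
  have : 1 ≤ (m : ℝ) * e := by nlinarith
  nlinarith

lemma point_sum {N : ℕ} (hN : Odd N) (hsq : Squarefree N) {s σ η : ℝ} (hs : 1 < s)
    (hσ : s ≤ σ) (hη : η ≤ 1) (hA : Apx s η N) {m : ℕ} (hm : 1 ≤ m) {c : ℕ → ℝ}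
    {χ : ℕ → ℕ → ℝ} (hF : Fam N m c χ) :
    |∑ e ∈ N.divisors, c e * wt s e * (e : ℝ) ^ (-(1 : ℝ)) * ell σ N (χ e) -
      c 1 * ell σ N (χ 1)| ≤ 5 * √m := by
  have h1 : 1 ∈ N.divisors := Nat.one_mem_divisors.mpr hsq.ne_zero
  rw [← Finset.add_sum_erase _ _ h1, wt_one, Nat.cast_one, Real.one_rpow, mul_one, mul_one,
    add_sub_cancel_left]
  refine le_trans (Finset.abs_sum_le_sum_abs _ _) ?_
  have hs2 := sum_odd_set (σ := 3 / 2) (by norm_num) (N.divisors.erase 1) fun e he =>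
    Nat.odd_iff.mp (hN.of_dvd_nat (Nat.dvd_of_mem_divisors (Finset.mem_of_mem_erase he)))
  have h2 : ∑ e ∈ N.divisors.erase 1, |c e * wt s e * (e : ℝ) ^ (-(1 : ℝ)) * ell σ N (χ e)| ≤
      ∑ e ∈ N.divisors.erase 1, 2.5 * √m * (e : ℝ) ^ (-(3 / 2 : ℝ)) := by
    refine Finset.sum_le_sum fun e he => ?_
    obtain ⟨he1, he2⟩ := Finset.mem_erase.mp he
    have he0 := Nat.pos_of_mem_divisors he2
    have he' : (1 : ℝ) ≤ e := by exact_mod_cast he0
    have he'' : (0 : ℝ) < e := by linarith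
    by_cases hc : c e = 0
    · rw [hc]; simp only [zero_mul, abs_zero]; positivity
    have h3 := ell_point hN (hF.cm e he2) hs hσ hη hA hm he0 (hF.bil e he2 (by omega) hc)
    have h4 : wt s e ≤ (e : ℝ) ^ (-(1 : ℝ)) :=
      le_trans (wt_le_rpow s (hsq.squarefree_of_dvd (Nat.dvd_of_mem_divisors he2)))
        (Real.rpow_le_rpow_of_exponent_le he' (by linarith))
    have e2 : (e : ℝ) ^ (-(3 / 2 : ℝ)) = (e : ℝ) ^ (-(1 : ℝ)) * (e : ℝ) ^ (-(1 : ℝ)) * √e := by
      rw [Real.sqrt_eq_rpow, ← Real.rpow_add he'', ← Real.rpow_add he'']; norm_num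
    rw [e2, abs_mul, abs_mul, abs_mul, abs_of_pos (wt_pos s e),
      abs_of_nonneg (by positivity : 0 ≤ (e : ℝ) ^ (-(1 : ℝ)))]
    have h5 := hF.abs_c e
    have h6 := (wt_pos s e).le
    calc _ ≤ 1 * (e : ℝ) ^ (-(1 : ℝ)) * (e : ℝ) ^ (-(1 : ℝ)) * (2.5 * √m * √e) := by gcongr
      _ = _ := by ring
  refine le_trans h2 ?_
  rw [← Finset.mul_sum]
  norm_num at hs2
  have := Real.sqrt_nonneg (m : ℝ)
  nlinarith

lemma abs_ell_two {N : ℕ} (hN : Odd N) (hsq : Squarefree N) {χ : ℕ → ℝ} (h : CM χ) {σ : ℝ}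
    (hσ : 2 ≤ σ) : |ell σ N χ| ≤ 2 := by
  rw [ell_eq_sum hsq h]
  refine le_trans (Finset.abs_sum_le_sum_abs _ _) ?_
  have hs2 := sum_odd_set (σ := 2) (by norm_num) N.divisors fun e he =>
    Nat.odd_iff.mp (hN.of_dvd_nat (Nat.dvd_of_mem_divisors he))
  refine le_trans (Finset.sum_le_sum fun e he => ?_) (le_trans hs2 (by norm_num))
  have he' : (1 : ℝ) ≤ e := by exact_mod_cast Nat.pos_of_mem_divisors he
  rw [abs_mul, abs_of_pos (wt_pos σ e)]
  refine le_trans (mul_le_of_le_one_right (wt_pos σ e).le (h.abs_le e)) ?_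
  exact le_trans (wt_le_rpow σ (hsq.squarefree_of_dvd (Nat.dvd_of_mem_divisors he)))
    (Real.rpow_le_rpow_of_exponent_le he' (by linarith))

lemma sum_wt_one_sub {N : ℕ} (hN : Odd N) (hsq : Squarefree N) {s t : ℝ} (hs : 1 < s)
    (hs2 : s ≤ 2) (ht0 : 0 ≤ t) (ht : t ≤ (s - 1) ^ (3 / 2 : ℝ)) :
    ∑ a ∈ N.divisors, wt s a * (1 - (a : ℝ) ^ (-t)) ≤ 3 := by
  set ε := s - 1 with hε
  have hε0 : 0 < ε := by linarith
  have h1 : ∑ a ∈ N.divisors, wt s a * (1 - (a : ℝ) ^ (-t)) ≤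
      ∑ a ∈ N.divisors, t * (2 / ε) * wt (1 + ε / 2) a := by
    refine Finset.sum_le_sum fun a ha => ?_
    have ha0 : (0 : ℝ) < a := by exact_mod_cast Nat.pos_of_mem_divisors ha
    have e1 : wt (1 + ε / 2) a = wt s a * (a : ℝ) ^ (ε / 2) := by
      rw [show 1 + ε / 2 = s + -(ε / 2) by linarith,
        wt_add (hsq.squarefree_of_dvd (Nat.dvd_of_mem_divisors ha)), neg_neg]
    have h2 := Real.log_le_rpow_div ha0.le (show 0 < ε / 2 by linarith)
    have h3 : 1 - (a : ℝ) ^ (-t) ≤ t * ((a : ℝ) ^ (ε / 2) / (ε / 2)) :=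
      le_trans (one_sub_rpow_le ha0) (mul_le_mul_of_nonneg_left h2 ht0)
    rw [e1]
    calc _ ≤ wt s a * (t * ((a : ℝ) ^ (ε / 2) / (ε / 2))) :=
          mul_le_mul_of_nonneg_left h3 (wt_pos s a).le
      _ = _ := by field_simp
  refine le_trans h1 ?_
  rw [← Finset.mul_sum]
  have h4 : ∑ a ∈ N.divisors, wt (1 + ε / 2) a =
      ∏ p ∈ N.primeFactors, (1 + (p : ℝ) ^ (-(1 + ε / 2)) / (2 : ℕ)) := by
    rw [← sum_divisors_prod hsq]; rfl
  have h5 := prod_one_add_pow_le hN (σ := 1 + ε / 2) (by linarith) (k := 2) (by norm_num)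
  rw [← h4] at h5
  have h6 : 0 ≤ ∑ a ∈ N.divisors, wt (1 + ε / 2) a := Finset.sum_nonneg fun a _ => (wt_pos _ a).le
  set Y := ∑ a ∈ N.divisors, wt (1 + ε / 2) a
  have h7 : t ^ 2 ≤ ε ^ 3 := by
    refine le_trans (pow_le_pow_left₀ ht0 ht 2) (le_of_eq ?_)
    rw [← Real.rpow_natCast, ← Real.rpow_mul hε0.le, ← Real.rpow_natCast]; norm_num
  have h8 : Y ^ 2 ≤ 2 / ε := by
    refine le_trans h5 ?_
    have e2 : 1 / (2 * (1 + ε / 2 - 1)) = 1 / ε := by congr 1; ring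
    have e3 : 2 / ε = 1 / ε + 1 / ε := by ring
    have : 1 ≤ 1 / ε := by rw [le_div_iff₀ hε0]; linarith
    linarith
  refine le_of_pow_le_pow_left₀ (n := 2) (by norm_num) (by norm_num) ?_
  calc (t * (2 / ε) * Y) ^ 2 = t ^ 2 * (2 / ε) ^ 2 * Y ^ 2 := by ring
    _ ≤ ε ^ 3 * (2 / ε) ^ 2 * (2 / ε) := by gcongr
    _ = 8 := by field_simp; norm_num
    _ ≤ _ := by norm_num

lemma telescope {F : ℝ → ℝ} {H t0 : ℝ} (hH : 0 ≤ H)
    (h : ∀ t, 0 < t → t0 ≤ t → t ≤ 1 → |F t - F (t / 2)| ≤ H * t ^ (-(1 / 8) : ℝ)) (k : ℕ)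
    (hk : ∀ j < k, t0 ≤ (1 / 2) ^ j) :
    |F 1 - F ((1 / 2) ^ k)| ≤ 12 * H * ((1 / 2 : ℝ) ^ k) ^ (-(1 / 8) : ℝ) := by
  induction k with
  | zero => simp only [pow_zero, sub_self, abs_zero]; positivity
  | succ k ih =>
    have h1 := ih fun j hj => hk j (by omega)
    have hp : (0 : ℝ) < (1 / 2) ^ k := by positivity
    have h2 := h ((1 / 2) ^ k) hp (hk k (by omega)) (pow_le_one₀ (by norm_num) (by norm_num))
    have e1 : (1 / 2 : ℝ) ^ (k + 1) = (1 / 2) ^ k / 2 := by rw [pow_succ]; ring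
    have h3 : (13 / 12 : ℝ) ≤ (1 / 2 : ℝ) ^ (-(1 / 8) : ℝ) := by
      refine le_of_pow_le_pow_left₀ (n := 8) (by norm_num) (by positivity) ?_
      rw [← Real.rpow_natCast ((1 / 2 : ℝ) ^ (-(1 / 8) : ℝ)), ← Real.rpow_mul (by norm_num)]
      norm_num
    have e2 : ((1 / 2 : ℝ) ^ (k + 1)) ^ (-(1 / 8) : ℝ) =
        ((1 / 2 : ℝ) ^ k) ^ (-(1 / 8) : ℝ) * (1 / 2 : ℝ) ^ (-(1 / 8) : ℝ) := by
      rw [pow_succ, Real.mul_rpow hp.le (by norm_num)]
    rw [e2, e1]
    have h4 := abs_sub_le (F 1) (F ((1 / 2) ^ k)) (F ((1 / 2) ^ k / 2))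
    have h5 : 0 ≤ H * ((1 / 2 : ℝ) ^ k) ^ (-(1 / 8) : ℝ) := by positivity
    nlinarith

/-- The abstract double sum bound. -/
theorem core {N : ℕ} (hN : Odd N) (hsq : Squarefree N) {s : ℝ} (hs : 1 < s) (hs2 : s ≤ 2)
    (hA : Apx s ((s - 1) ^ (3 / 2 : ℝ)) N) {m : ℕ} (hm : 1 ≤ m) {c c' : ℕ → ℝ}
    {χ χ' : ℕ → ℕ → ℝ} (hF : Fam N m c χ) (hF' : Fam N m c' χ')
    (hK : ∀ a ∈ N.divisors, ∀ e ∈ N.divisors, c e * χ e a = c' a * χ' a e) :
    |∑ a ∈ N.divisors, ∑ e ∈ N.divisors, c e * χ e a * wt s a * wt s e -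
      c 1 * ell s N (χ 1) - c' 1 * ell s N (χ' 1)| ≤
      40000 * √m * (s - 1) ^ (-(3 / 16) : ℝ) := by
  have hε0 : 0 < s - 1 := by linarith
  set t0 : ℝ := (s - 1) ^ (3 / 2 : ℝ) with ht0
  have ht00 : 0 < t0 := by positivity
  have ht01 : t0 ≤ 1 := Real.rpow_le_one hε0.le (by linarith) (by norm_num)
  set F : ℝ → ℝ := fun t => ∑ a ∈ N.divisors, ∑ e ∈ N.divisors,
    c e * χ e a * wt s a * wt s e * ((1 - (e : ℝ) ^ (-t)) * (1 - (a : ℝ) ^ (-t))) with hFdef
  have hstep : ∀ t, 0 < t → t0 ≤ t → t ≤ 1 →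
      |F t - F (t / 2)| ≤ 1600 * √m * t ^ (-(1 / 8) : ℝ) := by
    intro t h0 h1 h2
    have a1 := step hN hsq hs h0 (τ := t) (by linarith) le_rfl h2 h1 hA hm hF
    have a2 := step hN hsq hs h0 (τ := t / 2) le_rfl (by linarith) h2 h1 hA hm hF'
    rw [Finset.sum_comm] at a1
    have e1 : F t - F (t / 2) =
        ∑ a ∈ N.divisors, ∑ e ∈ N.divisors, c e * χ e a * wt s a * wt s e *
          (((e : ℝ) ^ (-(t / 2)) - (e : ℝ) ^ (-t)) * (1 - (a : ℝ) ^ (-t))) +
        ∑ a ∈ N.divisors, ∑ e ∈ N.divisors, c' a * χ' a e * wt s e * wt s a *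
          (((a : ℝ) ^ (-(t / 2)) - (a : ℝ) ^ (-t)) * (1 - (e : ℝ) ^ (-(t / 2)))) := by
      simp only [hFdef, ← Finset.sum_sub_distrib, ← Finset.sum_add_distrib]
      refine Finset.sum_congr rfl fun a ha => Finset.sum_congr rfl fun e he => ?_
      rw [← hK a ha e he]; ring
    rw [e1]
    refine le_trans (abs_add_le _ _) ?_
    linarith
  obtain ⟨n, hn1, hn2⟩ := exists_nat_pow_near_of_lt_one ht00 ht01
    (show (0 : ℝ) < 1 / 2 by norm_num) (by norm_num)
  have htel := telescope (by positivity) hstep (n + 1) fun j hj =>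
    le_trans hn2 (pow_le_pow_of_le_one (by norm_num) (by norm_num) (by omega))
  have hb1 : ((1 / 2 : ℝ) ^ (n + 1)) ^ (-(1 / 8) : ℝ) ≤ 2 * (s - 1) ^ (-(3 / 16) : ℝ) := by
    have b1 : t0 * (1 / 2) ≤ (1 / 2 : ℝ) ^ (n + 1) := by rw [pow_succ]; gcongr
    refine le_trans (Real.rpow_le_rpow_of_nonpos (by positivity) b1 (by norm_num)) ?_
    rw [Real.mul_rpow ht00.le (by norm_num), ht0, ← Real.rpow_mul hε0.le, mul_comm]
    have b2 : (1 / 2 : ℝ) ^ (-(1 / 8) : ℝ) ≤ 2 := by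
      refine le_of_pow_le_pow_left₀ (n := 8) (by norm_num) (by positivity) ?_
      rw [← Real.rpow_natCast ((1 / 2 : ℝ) ^ (-(1 / 8) : ℝ)), ← Real.rpow_mul (by norm_num)]
      norm_num
    norm_num
    gcongr
  have hrem : |F ((1 / 2) ^ (n + 1))| ≤ 9 := by
    have r0 : (0 : ℝ) ≤ (1 / 2) ^ (n + 1) := by positivity
    have r1 := sum_wt_one_sub hN hsq hs hs2 r0 hn1.le
    set t : ℝ := (1 / 2) ^ (n + 1)
    have r2 : ∀ a ∈ N.divisors, 0 ≤ wt s a * (1 - (a : ℝ) ^ (-t)) := by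
      intro a ha
      have ha' : (1 : ℝ) ≤ a := by exact_mod_cast Nat.pos_of_mem_divisors ha
      have := rpow_neg_le_one ha' r0
      exact mul_nonneg (wt_pos s a).le (by linarith)
    have r3 := Finset.sum_nonneg r2
    calc |F t| ≤ ∑ a ∈ N.divisors, ∑ e ∈ N.divisors,
          (wt s a * (1 - (a : ℝ) ^ (-t))) * (wt s e * (1 - (e : ℝ) ^ (-t))) := by
          refine le_trans (Finset.abs_sum_le_sum_abs _ _) (Finset.sum_le_sum fun a ha => ?_)
          refine le_trans (Finset.abs_sum_le_sum_abs _ _) (Finset.sum_le_sum fun e he => ?_)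
          have r4 := mul_nonneg (r2 a ha) (r2 e he)
          rw [show c e * χ e a * wt s a * wt s e * ((1 - (e : ℝ) ^ (-t)) * (1 - (a : ℝ) ^ (-t))) =
            (c e * χ e a) * ((wt s a * (1 - (a : ℝ) ^ (-t))) * (wt s e * (1 - (e : ℝ) ^ (-t))))
            by ring, abs_mul, abs_of_nonneg r4, abs_mul]
          exact mul_le_of_le_one_left r4
            (mul_le_one₀ (hF.abs_c e) (abs_nonneg _) ((hF.cm e he).abs_le a))
      _ = (∑ a ∈ N.divisors, wt s a * (1 - (a : ℝ) ^ (-t))) *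
          ∑ a ∈ N.divisors, wt s a * (1 - (a : ℝ) ^ (-t)) := by rw [Finset.sum_mul_sum]
      _ ≤ 3 * 3 := by gcongr
      _ = 9 := by norm_num
  have p1 := point_sum hN hsq hs le_rfl ht01 hA hm hF
  have p2 := point_sum hN hsq hs le_rfl ht01 hA hm hF'
  have p3 := point_sum hN hsq hs (σ := s + 1) (by linarith) ht01 hA hm hF'
  have h1 : 1 ∈ N.divisors := Nat.one_mem_divisors.mpr hsq.ne_zero
  have p4 : |c' 1 * ell (s + 1) N (χ' 1)| ≤ 2 := by
    rw [abs_mul]
    exact le_trans (mul_le_of_le_one_left (abs_nonneg _) (hF'.abs_c 1))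
      (abs_ell_two hN hsq (hF'.cm 1 h1) (by linarith))
  have e2 : ∑ a ∈ N.divisors, ∑ e ∈ N.divisors, c e * χ e a * wt s a * wt s e = F 1 +
      ∑ e ∈ N.divisors, c e * wt s e * (e : ℝ) ^ (-(1 : ℝ)) * ell s N (χ e) +
      (∑ e ∈ N.divisors, c' e * wt s e * (e : ℝ) ^ (-(1 : ℝ)) * ell s N (χ' e) -
       ∑ e ∈ N.divisors, c' e * wt s e * (e : ℝ) ^ (-(1 : ℝ)) * ell (s + 1) N (χ' e)) := by
    have f1 : ∑ e ∈ N.divisors, c e * wt s e * (e : ℝ) ^ (-(1 : ℝ)) * ell s N (χ e) =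
        ∑ a ∈ N.divisors, ∑ e ∈ N.divisors,
          c e * χ e a * wt s a * wt s e * (e : ℝ) ^ (-(1 : ℝ)) := by
      rw [Finset.sum_comm]
      refine Finset.sum_congr rfl fun e he => ?_
      rw [ell_eq_sum hsq (hF.cm e he), Finset.mul_sum]
      exact Finset.sum_congr rfl fun a _ => by ring
    have f2 : ∑ e ∈ N.divisors, c' e * wt s e * (e : ℝ) ^ (-(1 : ℝ)) * ell s N (χ' e) -
        ∑ e ∈ N.divisors, c' e * wt s e * (e : ℝ) ^ (-(1 : ℝ)) * ell (s + 1) N (χ' e) =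
        ∑ a ∈ N.divisors, ∑ e ∈ N.divisors,
          c e * χ e a * wt s a * wt s e * ((1 - (e : ℝ) ^ (-(1 : ℝ))) * (a : ℝ) ^ (-(1 : ℝ))) := by
      rw [← Finset.sum_sub_distrib]
      refine Finset.sum_congr rfl fun a ha => ?_
      rw [← mul_sub, ell_sub hsq (hF'.cm a ha), Finset.mul_sum]
      refine Finset.sum_congr rfl fun e he => ?_
      rw [hK a ha e he]; ring
    rw [f1, f2]
    simp only [hFdef, ← Finset.sum_add_distrib]
    exact Finset.sum_congr rfl fun a _ => Finset.sum_congr rfl fun e _ => by ring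
  rw [e2]
  have hm1 : (1 : ℝ) ≤ √m := Real.one_le_sqrt.mpr (by exact_mod_cast hm)
  have hε1 : 1 ≤ (s - 1) ^ (-(3 / 16) : ℝ) :=
    Real.one_le_rpow_of_pos_of_le_one_of_nonpos hε0 (by linarith) (by norm_num)
  have htel' : |F 1 - F ((1 / 2) ^ (n + 1))| ≤ 38400 * (√m * (s - 1) ^ (-(3 / 16) : ℝ)) := by
    refine le_trans htel ?_
    calc _ ≤ 12 * (1600 * √m) * (2 * (s - 1) ^ (-(3 / 16) : ℝ)) := by gcongr
      _ = _ := by ring
  have hX : √m ≤ √m * (s - 1) ^ (-(3 / 16) : ℝ) := le_mul_of_one_le_right (by positivity) hε1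
  rw [mul_assoc]
  set X := √m * (s - 1) ^ (-(3 / 16) : ℝ)
  rw [abs_le] at *
  constructor <;> linarith [p1.1, p1.2, p2.1, p2.2, p3.1, p3.2, p4.1, p4.2, htel'.1, htel'.2,
    hrem.1, hrem.2]

end Pool.Agent.MP_5d10af_nt.QA

end

-- part MP_5d10af_nt.QualA
section

/-!
The qualitative bound for the twisted double sums.
-/

set_option autoImplicit false

namespace Pool.Agent.MP_5d10af_nt

open Finset

namespace QA

lemma sum_dvd_eq {N u : ℕ} (hN : Squarefree N) (hu : u ∣ N) (f : ℕ → ℝ) :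
    ∑ a ∈ N.divisors, (if u ∣ a then f a else 0) =
      ∑ a ∈ N.divisors, if Nat.Coprime u a then f (u * a) else 0 := by
  have hu0 : 0 < u := Nat.pos_of_dvd_of_pos hu (Nat.pos_of_ne_zero hN.ne_zero)
  rw [← Finset.sum_filter, ← Finset.sum_filter]
  symm
  refine Finset.sum_bij (fun a _ => u * a) ?_ ?_ ?_ fun a _ => rfl
  · intro a ha
    obtain ⟨h1, h2⟩ := Finset.mem_filter.mp ha
    exact Finset.mem_filter.mpr ⟨Nat.mem_divisors.mpr
      ⟨h2.mul_dvd_of_dvd_of_dvd hu (Nat.dvd_of_mem_divisors h1), hN.ne_zero⟩, dvd_mul_right _ _⟩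
  · intro a _ b _ h
    exact Nat.eq_of_mul_eq_mul_left hu0 h
  · intro b hb
    obtain ⟨h1, a, rfl⟩ := Finset.mem_filter.mp hb
    have h2 := Nat.dvd_of_mem_divisors h1
    refine ⟨a, Finset.mem_filter.mpr ⟨Nat.mem_divisors.mpr
      ⟨(dvd_mul_left a u).trans h2, hN.ne_zero⟩, ?_⟩, rfl⟩
    exact Nat.coprime_of_squarefree_mul (hN.squarefree_of_dvd h2)

lemma ind_split {d a e : ℕ} (hd : d ≠ 0) (h : Nat.Coprime a e) (x : ℝ) :
    (if d ∣ a * e then x else 0) =
      ∑ p ∈ d.divisorsAntidiagonal, if p.1 ∣ a then (if p.2 ∣ e then x else 0) else 0 := by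
  split_ifs with h1
  · obtain ⟨u, v, hu, hv, rfl⟩ := Nat.dvd_mul.mp h1
    rw [Finset.sum_eq_single (u, v)]
    · simp [hu, hv]
    · rintro ⟨u', v'⟩ hp hne
      have h2 := (Nat.mem_divisorsAntidiagonal.mp hp).1
      simp only at h2 ⊢
      split_ifs with h3 h4
      · exfalso
        apply hne
        have a1 : u' = u := by
          apply Nat.dvd_antisymm
          · exact (Nat.Coprime.coprime_dvd_left h3
              (Nat.Coprime.coprime_dvd_right hv h)).dvd_of_dvd_mul_right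
              (h2 ▸ dvd_mul_right u' v')
          · exact (Nat.Coprime.coprime_dvd_left hu
              (Nat.Coprime.coprime_dvd_right h4 h)).dvd_of_dvd_mul_right
              (h2 ▸ dvd_mul_right u v)
        subst a1
        have hu0 : 0 < u' := Nat.pos_of_ne_zero (left_ne_zero_of_mul hd)
        rw [Nat.eq_of_mul_eq_mul_left hu0 h2]
      · rfl
      · rfl
    · intro h2
      exact absurd (Nat.mem_divisorsAntidiagonal.mpr ⟨rfl, hd⟩) h2
  · symm
    refine Finset.sum_eq_zero fun p hp => ?_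
    have h2 := (Nat.mem_divisorsAntidiagonal.mp hp).1
    split_ifs with h3 h4
    · exact absurd (h2 ▸ Nat.mul_dvd_mul h3 h4) h1
    · rfl
    · rfl

lemma not_isSquare_mul {u w : ℕ} (hu : u ≠ 0) (hw : Squarefree w) (h1 : 1 < w) :
    ¬ IsSquare (u ^ 2 * w) := by
  rintro ⟨r, hr⟩
  have h2 : u ∣ r := by
    have : u ^ 2 ∣ r ^ 2 := ⟨w, by rw [hr]; ring⟩
    exact (Nat.pow_dvd_pow_iff (by norm_num)).mp this
  obtain ⟨q, rfl⟩ := h2
  have h3 : w = q * q := by
    apply Nat.eq_of_mul_eq_mul_left (show 0 < u ^ 2 by positivity)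
    rw [hr]; ring
  have h4 := hw q (h3 ▸ dvd_rfl)
  rw [Nat.isUnit_iff] at h4
  subst h4
  omega

lemma jac_eq_zero {a b : ℕ} (hb : b ≠ 0) : jacobiSym a b = 0 ↔ ¬ Nat.Coprime a b := by
  have : NeZero b := ⟨hb⟩
  rw [jacobiSym.eq_zero_iff_not_coprime, Int.gcd_natCast_natCast]

lemma abs_psi_jac (i : Fin 4) (n : ℕ) (a : ℤ) (b : ℕ) :
    |((psi i n * jacobiSym a b : ℤ) : ℝ)| ≤ 1 := by
  rcases psi_vals i n with h | h | h <;> rcases jacobiSym.trichotomy a b with h' | h' | h' <;>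
    simp [h, h']

/-- The character `n ↦ psi i n * (k / n)`. -/
noncomputable def chl (i : Fin 4) (k n : ℕ) : ℝ := ((psi i n * jacobiSym k n : ℤ) : ℝ)

lemma chl_eq (i : Fin 4) {k : ℕ} (hk : k % 2 = 1) :
    chl i k = chi (if k % 4 = 1 then i else pm i 1) k := by
  funext n
  unfold chl chi
  rcases Nat.mod_two_eq_zero_or_one n with h | h
  · simp [psi_even _ h]
  · rw [jac_rec h hk]
    split_ifs
    · rw [one_mul]
    · rw [psi_pm, mul_assoc]

lemma Sf_mono {M : ℕ} {b b' : ℕ → ℝ} (h : ∀ n, |b n| ≤ |b' n|) : Sf M b ^ 2 ≤ Sf M b' ^ 2 :=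
  pow_le_pow_left₀ (Finset.sum_nonneg fun n _ => by positivity)
    (Finset.sum_le_sum fun n _ => mul_le_mul_of_nonneg_right (h n) (Real.sqrt_nonneg _)) 2

lemma abs_mul_le_of {x y : ℝ} (h : |y| ≤ 1) : |x * y| ≤ |x| := by
  rw [abs_mul]; exact mul_le_of_le_one_right (abs_nonneg _) h

lemma msh_left (i : Fin 4) (k : ℕ) : MSH fun e => chl i (k * e) := by
  intro M b hb L hL
  have h := MS_left M (fun n => b n * chl i k n) (fun n hn => by rw [hb n hn, zero_mul]) 0 hL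
  have hb' : ∀ n, |b n * chl i k n| ≤ |b n| := fun n => abs_mul_le_of (abs_psi_jac _ _ _ _)
  refine le_trans (le_of_eq ?_) (le_trans h (add_le_add ?_ ?_))
  · refine Finset.sum_congr rfl fun y _ => ?_
    congr 1
    refine Finset.sum_congr rfl fun n _ => ?_
    simp only [chl, zero_add, Nat.cast_mul k, jacobiSym.mul_left]
    push_cast; ring
  · exact mul_le_mul_of_nonneg_left (Qf_mono fun n _ => hb' n) (by positivity)
  · exact mul_le_mul_of_nonneg_left (Sf_mono hb') (by norm_num)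

lemma msh_right (j : Fin 4) {k : ℕ} (hk : k ≠ 0) : MSH fun a => chi j (k * a) := by
  intro M b hb L hL
  have h := MS_right M (fun n => b n * chi j k n) (fun n hn => by rw [hb n hn, zero_mul]) 0 hL
  have hb' : ∀ n, |b n * chi j k n| ≤ |b n| := fun n => abs_mul_le_of (abs_psi_jac _ _ _ _)
  refine le_trans (le_of_eq ?_) (le_trans h (add_le_add ?_ ?_))
  · refine Finset.sum_congr rfl fun y _ => ?_
    congr 1
    refine Finset.sum_congr rfl fun n _ => ?_
    simp only [chi, zero_add, jacobiSym.mul_right' _ hk (show 2 * y + 1 ≠ 0 by omega)]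
    push_cast; ring
  · exact mul_le_mul_of_nonneg_left (Qf_mono fun n _ => hb' n) (by positivity)
  · exact mul_le_mul_of_nonneg_left (Sf_mono hb') (by norm_num)

lemma bil_of {i : Fin 4} {k m e d : ℕ} (hk : k % 2 = 1) (h : i ≠ 0 ∨ ¬ IsSquare k)
    (hkd : k ≤ d ^ 2 * e) (hm : 2 * d ≤ m ^ 2) :
    Bil (fun n => chi i k (2 * n + 1)) ((m : ℝ) ^ 2 * √e) := by
  refine bil_mono (lemB i k hk h) ?_
  have h1 : √(k : ℝ) ≤ d * √e := by
    rw [← Real.sqrt_sq (show (0 : ℝ) ≤ d by positivity), ← Real.sqrt_mul (by positivity)]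
    exact Real.sqrt_le_sqrt (by exact_mod_cast hkd)
  have h2 : cpsi i ≤ 2 := le_trans (cpsi_le i) (by have := sqrt_two_lt; linarith)
  have h3 : (2 : ℝ) * d ≤ m ^ 2 := by exact_mod_cast hm
  calc cpsi i * √(k : ℝ) ≤ 2 * (d * √e) := by gcongr
    _ = (2 * d) * √e := by ring
    _ ≤ _ := by gcongr

section
variable {N u v m : ℕ}

lemma odd_of_dvd (hN : Odd N) {a : ℕ} (ha : a ∣ N) : a % 2 = 1 :=
  Nat.odd_iff.mp (hN.of_dvd_nat ha)

lemma odd_mul3 {u v e : ℕ} (hu : u % 2 = 1) (hv : v % 2 = 1) (he : e % 2 = 1) :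
    (u ^ 2 * v * e) % 2 = 1 := by
  rw [← Nat.odd_iff] at *
  exact (hu.pow.mul hv).mul he

lemma le_sq_mul {u v : ℕ} (hv : 0 < v) (e : ℕ) : u ^ 2 * v * e ≤ (u * v) ^ 2 * e := by
  refine Nat.mul_le_mul_right e ?_
  rw [mul_pow]
  exact Nat.mul_le_mul_left _ (by nlinarith)

lemma fam_left (hN : Odd N) (hsq : Squarefree N) (hd : u * v ∣ N) (hm : 2 * (u * v) ≤ m ^ 2)
    (i j : Fin 4) : Fam N m (chi j (v ^ 2 * u)) fun e => chl i (u ^ 2 * v * e) := by
  have hu := odd_of_dvd hN ((dvd_mul_right u v).trans hd)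
  have hv := odd_of_dvd hN ((dvd_mul_left v u).trans hd)
  refine ⟨(chi_cm _ _).abs_le, fun e he => ?_, fun e he h1 hc => ?_, msh_left i _⟩
  · rw [chl_eq i (odd_mul3 hu hv (odd_of_dvd hN (Nat.dvd_of_mem_divisors he)))]
    exact chi_cm _ _
  · have hk := odd_mul3 hu hv (odd_of_dvd hN (Nat.dvd_of_mem_divisors he))
    rw [chl_eq i hk]
    refine bil_of hk (Or.inr ?_) (le_sq_mul (by omega) e) hm
    have hcop : Nat.Coprime e (v ^ 2 * u) := by
      by_contra h2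
      apply hc
      rw [chi, (jac_eq_zero (by have : v ≠ 0 := by omega
                                have : u ≠ 0 := by omega
                                positivity)).mpr h2]
      simp
    rw [mul_assoc]
    refine not_isSquare_mul (by omega) ?_ (by nlinarith [show 0 < v by omega])
    refine (Nat.squarefree_mul ?_).mpr ⟨hsq.squarefree_of_dvd ((dvd_mul_left v u).trans hd),
      hsq.squarefree_of_dvd (Nat.dvd_of_mem_divisors he)⟩
    exact (Nat.Coprime.coprime_dvd_right ⟨v * u, by ring⟩ hcop).symm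

lemma fam_right (hN : Odd N) (hsq : Squarefree N) (hd : u * v ∣ N) (hm : 2 * (u * v) ≤ m ^ 2)
    (i j : Fin 4) : Fam N m (chl i (u ^ 2 * v)) fun a => chi j (v ^ 2 * u * a) := by
  have hu := odd_of_dvd hN ((dvd_mul_right u v).trans hd)
  have hv := odd_of_dvd hN ((dvd_mul_left v u).trans hd)
  refine ⟨fun a => abs_psi_jac _ _ _ _, fun e _ => chi_cm _ _, fun e he h1 hc => ?_,
    msh_right j (by have : v ≠ 0 := by omega
                    have : u ≠ 0 := by omega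
                    positivity)⟩
  have hk := odd_mul3 hv hu (odd_of_dvd hN (Nat.dvd_of_mem_divisors he))
  refine bil_of hk (Or.inr ?_) (le_sq_mul (by omega) e) (by rw [mul_comm v u]; exact hm)
  have hcop : Nat.Coprime (u ^ 2 * v) e := by
    by_contra h2
    apply hc
    rw [chl, (jac_eq_zero (by omega)).mpr h2]
    simp
  rw [mul_assoc]
  refine not_isSquare_mul (by omega) ?_ (by nlinarith [show 0 < u by omega])
  refine (Nat.squarefree_mul ?_).mpr ⟨hsq.squarefree_of_dvd ((dvd_mul_right u v).trans hd),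
    hsq.squarefree_of_dvd (Nat.dvd_of_mem_divisors he)⟩
  exact Nat.Coprime.coprime_dvd_left ⟨u * v, by ring⟩ hcop

/-- The sum of the weights over divisors coprime to `d`. -/
noncomputable def Yd (s : ℝ) (N d : ℕ) : ℝ :=
  ∑ a ∈ N.divisors, if Nat.Coprime d a then wt s a else 0

lemma jac_sq_left {d a : ℕ} (ha : a ≠ 0) :
    jacobiSym (d ^ 2 : ℕ) a = if Nat.Coprime d a then 1 else 0 := by
  split_ifs with h
  · push_cast
    exact jacobiSym.sq_one' (by rw [Int.gcd_natCast_natCast]; exact h)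
  · exact (jac_eq_zero ha).mpr fun h2 => h (Nat.Coprime.coprime_dvd_left ⟨d, by ring⟩ h2)

lemma jac_sq_right {d a : ℕ} (hd : d ≠ 0) :
    jacobiSym a (d ^ 2) = if Nat.Coprime d a then 1 else 0 := by
  split_ifs with h
  · rw [jacobiSym.pow_right]
    exact jacobiSym.sq_one (by rw [Int.gcd_natCast_natCast]; exact h.symm)
  · exact (jac_eq_zero (by positivity)).mpr fun h2 =>
      h (Nat.Coprime.coprime_dvd_right ⟨d, by ring⟩ h2).symm

lemma block (hN : Odd N) (hsq : Squarefree N) (hd : u * v ∣ N) (hm : 2 * (u * v) ≤ m ^ 2)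
    (i j : Fin 4) {s : ℝ} (hs : 1 < s) (hs2 : s ≤ 2) (hA : Apx s ((s - 1) ^ (3 / 2 : ℝ)) N) :
    |∑ a ∈ N.divisors, ∑ e ∈ N.divisors,
        chi j (v ^ 2 * u) e * chl i (u ^ 2 * v * e) a * wt s a * wt s e -
      (if i = 0 ∧ v = 1 then Yd s N (u * v) else 0) -
      (if j = 0 ∧ u = 1 then Yd s N (u * v) else 0)| ≤
      40005 * √m * (s - 1) ^ (-(3 / 16) : ℝ) := by
  have hu := odd_of_dvd hN ((dvd_mul_right u v).trans hd)
  have hv := odd_of_dvd hN ((dvd_mul_left v u).trans hd)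
  have hu0 : u ≠ 0 := by omega
  have hv0 : v ≠ 0 := by omega
  have hm1 : 1 ≤ m := by
    by_contra h
    have : m = 0 := by omega
    subst this
    have : 0 < u * v := by positivity
    omega
  have hη : (s - 1) ^ (3 / 2 : ℝ) ≤ 1 := Real.rpow_le_one (by linarith) (by linarith) (by norm_num)
  have h := core hN hsq hs hs2 hA hm1 (fam_left hN hsq hd hm i j) (fam_right hN hsq hd hm i j)
    fun a ha e he => by
      have ha0 := (Nat.pos_of_mem_divisors ha).ne'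
      simp only [chi, chl, Nat.cast_mul (u ^ 2 * v), jacobiSym.mul_left,
        jacobiSym.mul_right' _ (show v ^ 2 * u ≠ 0 by positivity) ha0]
      push_cast; ring
  have hk1 := odd_mul3 hu hv (show 1 % 2 = 1 by norm_num)
  have hk2 := odd_mul3 hv hu (show 1 % 2 = 1 by norm_num)
  have c1 : chi j (v ^ 2 * u) 1 = 1 := (chi_cm _ _).one
  have c2 : chl i (u ^ 2 * v) 1 = 1 := by simp [chl, psi_one]
  have cm1 : CM (chl i (u ^ 2 * v * 1)) := by rw [chl_eq i hk1]; exact chi_cm _ _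
  have r1 : |ell s N (chl i (u ^ 2 * v * 1)) - (if i = 0 ∧ v = 1 then Yd s N (u * v) else 0)| ≤
      2.5 * √m := by
    split_ifs with h1
    · obtain ⟨rfl, rfl⟩ := h1
      rw [ell_eq_sum hsq cm1, Yd, ← Finset.sum_sub_distrib, Finset.sum_eq_zero]
      · simp only [abs_zero]; positivity
      intro a ha
      simp only [chl, mul_one, jac_sq_left (Nat.pos_of_mem_divisors ha).ne',
        psi_zero_odd (odd_of_dvd hN (Nat.dvd_of_mem_divisors ha))]
      split_ifs <;> simp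
    · have := ell_point hN cm1 hs le_rfl hη hA hm1 (e := 1) le_rfl (by
        rw [chl_eq i hk1]
        refine bil_of hk1 ?_ (le_sq_mul (by omega) 1) hm
        by_cases hv1 : v = 1
        · left
          subst hv1
          have : (u ^ 2 * 1 * 1) % 4 = 1 := by
            obtain ⟨w, rfl⟩ : ∃ w, u = 2 * w + 1 := ⟨u / 2, by omega⟩
            rw [show (2 * w + 1) ^ 2 * 1 * 1 = 4 * (w * w + w) + 1 by ring]; omega
          rw [if_pos this]
          exact fun h2 => h1 ⟨h2, rfl⟩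
        · right
          rw [mul_one]
          exact not_isSquare_mul hu0 (hsq.squarefree_of_dvd ((dvd_mul_left v u).trans hd))
            (by omega))
      simpa using this
  have r2 : |ell s N (chi j (v ^ 2 * u * 1)) - (if j = 0 ∧ u = 1 then Yd s N (u * v) else 0)| ≤
      2.5 * √m := by
    split_ifs with h1
    · obtain ⟨rfl, rfl⟩ := h1
      rw [ell_eq_sum hsq (chi_cm _ _), Yd, ← Finset.sum_sub_distrib, Finset.sum_eq_zero]
      · simp only [abs_zero]; positivity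
      intro a ha
      simp only [chi, mul_one, one_mul, jac_sq_right hv0,
        psi_zero_odd (odd_of_dvd hN (Nat.dvd_of_mem_divisors ha))]
      split_ifs <;> simp
    · have := ell_point hN (chi_cm j (v ^ 2 * u * 1)) hs le_rfl hη hA hm1 (e := 1) le_rfl (by
        refine bil_of hk2 ?_ (le_sq_mul (by omega) 1) (by rw [mul_comm v u]; exact hm)
        by_cases hu1 : u = 1
        · exact Or.inl fun h2 => h1 ⟨h2, hu1⟩
        · right
          rw [mul_one]
          exact not_isSquare_mul hv0 (hsq.squarefree_of_dvd ((dvd_mul_right u v).trans hd))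
            (by omega))
      simpa using this
  rw [c1, c2, one_mul, one_mul] at h
  have hε1 : 1 ≤ (s - 1) ^ (-(3 / 16) : ℝ) :=
    Real.one_le_rpow_of_pos_of_le_one_of_nonpos (by linarith) (by linarith) (by norm_num)
  have hX : √m ≤ √m * (s - 1) ^ (-(3 / 16) : ℝ) := le_mul_of_one_le_right (by positivity) hε1
  rw [abs_le] at *
  constructor <;> linarith [h.1, h.2, r1.1, r1.2, r2.1, r2.2]

end

lemma Ad_eq {N d : ℕ} (hN : Odd N) (hsq : Squarefree N) (hd : d ∣ N) (i j : Fin 4) (s : ℝ) :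
    Ad i j s N d = ∑ p ∈ d.divisorsAntidiagonal,
      ((psi i p.1 * psi j p.2 * jacobiSym p.2 p.1 : ℤ) : ℝ) * wt s d *
      (∑ a ∈ N.divisors, ∑ e ∈ N.divisors,
        chi j (p.2 ^ 2 * p.1) e * chl i (p.1 ^ 2 * p.2 * e) a * wt s a * wt s e -
      (if i = 0 ∧ p.2 = 1 then Yd s N (p.1 * p.2) else 0) -
      (if j = 0 ∧ p.1 = 1 then Yd s N (p.1 * p.2) else 0)) := by
  have hd0 : d ≠ 0 := ne_zero_of_dvd_ne_zero hsq.ne_zero hd
  have hdo := odd_of_dvd hN hd
  have h1 : 1 ∈ N.divisors := Nat.one_mem_divisors.mpr hsq.ne_zero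
  have hY : ∑ a ∈ N.divisors, (if d ∣ a then wt s a else 0) = wt s d * Yd s N d := by
    rw [sum_dvd_eq hsq hd, Yd, Finset.mul_sum]
    refine Finset.sum_congr rfl fun a _ => ?_
    split_ifs with h
    · exact wt_mul s h
    · simp
  have e1 : Ad i j s N d = ∑ a ∈ N.divisors, ∑ e ∈ N.divisors,
      (if d ∣ a * e then ((psi i a * psi j e * jacobiSym e a : ℤ) : ℝ) * wt s a * wt s e else 0) -
      (if i = 0 then wt s d * Yd s N d else 0) - (if j = 0 then wt s d * Yd s N d else 0) := by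
    have f1 : (if i = 0 then wt s d * Yd s N d else 0) = ∑ a ∈ N.divisors, ∑ e ∈ N.divisors,
        if d ∣ a * e then (if i = 0 ∧ e = 1 then 1 else 0) * wt s a * wt s e else 0 := by
      split_ifs with hi
      · rw [← hY]
        refine Finset.sum_congr rfl fun a _ => ?_
        rw [Finset.sum_eq_single_of_mem 1 h1]
        · simp [hi, wt_one]
        · intro e _ he; simp [he]
      · simp [hi]
    have f2 : (if j = 0 then wt s d * Yd s N d else 0) = ∑ a ∈ N.divisors, ∑ e ∈ N.divisors,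
        if d ∣ a * e then (if j = 0 ∧ a = 1 then 1 else 0) * wt s a * wt s e else 0 := by
      split_ifs with hj
      · rw [← hY, Finset.sum_comm]
        refine Finset.sum_congr rfl fun a _ => ?_
        rw [Finset.sum_eq_single_of_mem 1 h1]
        · simp [hj, wt_one]
        · intro e _ he; simp [he]
      · simp [hj]
    rw [f1, f2, Ad]
    simp only [← Finset.sum_sub_distrib]
    refine Finset.sum_congr rfl fun a _ => Finset.sum_congr rfl fun e _ => ?_
    unfold sig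
    by_cases h : d ∣ a * e
    · simp only [h, if_true]; ring
    · simp [h]
  rw [e1]
  simp only [mul_sub, Finset.sum_sub_distrib]
  congr 1
  congr 1
  · have g1 : ∀ a ∈ N.divisors, ∀ e ∈ N.divisors,
        (if d ∣ a * e then ((psi i a * psi j e * jacobiSym e a : ℤ) : ℝ) * wt s a * wt s e else 0) =
        ∑ p ∈ d.divisorsAntidiagonal, if p.1 ∣ a then (if p.2 ∣ e then
          ((psi i a * psi j e * jacobiSym e a : ℤ) : ℝ) * wt s a * wt s e else 0) else 0 := by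
      intro a ha e _
      by_cases hc : Nat.Coprime a e
      · exact ind_split hd0 hc _
      · rw [(jac_eq_zero (Nat.pos_of_mem_divisors ha).ne').mpr fun h => hc h.symm]
        simp
    rw [Finset.sum_congr rfl fun a ha => Finset.sum_congr rfl fun e he => g1 a ha e he,
      Finset.sum_congr rfl fun a _ => Finset.sum_comm, Finset.sum_comm]
    refine Finset.sum_congr rfl ?_
    rintro ⟨u, v⟩ hp
    have h2 : u * v = d := (Nat.mem_divisorsAntidiagonal.mp hp).1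
    have hu : u ∣ N := (dvd_mul_right u v).trans (h2 ▸ hd)
    have hv : v ∣ N := (dvd_mul_left v u).trans (h2 ▸ hd)
    have hu0 : u ≠ 0 := ne_zero_of_dvd_ne_zero hsq.ne_zero hu
    have hv0 : v ≠ 0 := ne_zero_of_dvd_ne_zero hsq.ne_zero hv
    have huv : Nat.Coprime u v := Nat.coprime_of_squarefree_mul (hsq.squarefree_of_dvd (h2 ▸ hd))
    simp only [Finset.sum_ite_irrel, Finset.sum_const_zero]
    rw [sum_dvd_eq hsq hu, Finset.mul_sum]
    refine Finset.sum_congr rfl fun a ha => ?_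
    have ha0 := (Nat.pos_of_mem_divisors ha).ne'
    rw [sum_dvd_eq hsq hv, Finset.mul_sum]
    have g2 : ∀ e : ℕ, chi j (v ^ 2 * u) e * chl i (u ^ 2 * v * e) a =
        (if Nat.Coprime u a then 1 else 0) * (if Nat.Coprime v e then 1 else 0) *
        ((psi j e * jacobiSym e u * psi i a * jacobiSym v a * jacobiSym e a : ℤ) : ℝ) := by
      intro e
      simp only [chi, chl, Nat.cast_mul (u ^ 2 * v), Nat.cast_mul (u ^ 2), jacobiSym.mul_left,
        jacobiSym.mul_right' _ (show v ^ 2 ≠ 0 by positivity) hu0, jac_sq_left ha0,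
        jac_sq_right hv0]
      push_cast; ring
    simp only [g2]
    split_ifs with h3
    · refine Finset.sum_congr rfl fun e _ => ?_
      split_ifs with h4
      · rw [wt_mul s h3, wt_mul s h4, ← h2, wt_mul s huv]
        simp only [psi_mul, Nat.cast_mul, jacobiSym.mul_left, jacobiSym.mul_right' _ hu0 ha0]
        push_cast; ring
      · simp
    · simp
  · split_ifs with hi
    · rw [Finset.sum_eq_single_of_mem (d, 1) (Nat.mem_divisorsAntidiagonal.mpr ⟨mul_one d, hd0⟩)]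
      · simp [hi, psi_one, psi_zero_odd hdo]
      · rintro ⟨u, v⟩ hp hne
        have h2 : u * v = d := (Nat.mem_divisorsAntidiagonal.mp hp).1
        have : v ≠ 1 := by
          rintro rfl
          exact hne (by rw [← h2, mul_one])
        simp [this]
    · simp [hi]
  · split_ifs with hj
    · rw [Finset.sum_eq_single_of_mem (1, d) (Nat.mem_divisorsAntidiagonal.mpr ⟨one_mul d, hd0⟩)]
      · simp [hj, psi_one, psi_zero_odd hdo]
      · rintro ⟨u, v⟩ hp hne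
        have h2 : u * v = d := (Nat.mem_divisorsAntidiagonal.mp hp).1
        have : u ≠ 1 := by
          rintro rfl
          exact hne (by rw [← h2, one_mul])
        simp [this]
    · simp [hj]

lemma card_mul_wt {d : ℕ} (hd : Squarefree d) (s : ℝ) :
    (d.divisorsAntidiagonal.card : ℝ) * wt s d = (d : ℝ) ^ (-s) := by
  have h1 : (d.divisorsAntidiagonal.card : ℝ) = ∏ _p ∈ d.primeFactors, (1 + 1 : ℝ) := by
    rw [← sum_divisors_prod hd, ← Nat.map_div_right_divisors, Finset.card_map]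
    simp
  rw [h1, wt, ← Finset.prod_mul_distrib, rpow_eq_prod hd]
  exact Finset.prod_congr rfl fun p _ => by ring

end QA

open QA in
theorem qualA : QualA := by
  refine ⟨80010, fun s hs hs2 => ?_⟩
  have hε : 0 < s - 1 := by linarith
  obtain ⟨P0, hP0⟩ := LN_approx (η := (s - 1) ^ (3 / 2 : ℝ)) hs (by positivity)
  refine ⟨P0, fun P N hP hG i j d hd => ?_⟩
  have hA : Apx s ((s - 1) ^ (3 / 2 : ℝ)) N := hP0 P N hP hG
  have hdsq : Squarefree d := hG.sqf.squarefree_of_dvd hd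
  have hd1 : (1 : ℝ) ≤ d := by exact_mod_cast Nat.pos_of_ne_zero hdsq.ne_zero
  have hd0 : (0 : ℝ) < d := by linarith
  set m := 2 * (Nat.sqrt d + 1) with hm
  have hm1 : 2 * d ≤ m ^ 2 := by
    have := Nat.lt_succ_sqrt' d
    rw [hm, mul_pow]
    simp only [Nat.succ_eq_add_one] at this
    omega
  have hm2 : √(m : ℝ) ≤ 2 * (d : ℝ) ^ (1 / 3 : ℝ) := by
    rw [Real.sqrt_le_left (by positivity), mul_pow, ← Real.rpow_natCast ((d : ℝ) ^ (1 / 3 : ℝ)),
      ← Real.rpow_mul hd0.le]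
    have a1 : (Nat.sqrt d : ℝ) ≤ √(d : ℝ) := Real.nat_sqrt_le_real_sqrt
    have a2 : √(d : ℝ) ≤ (d : ℝ) ^ (1 / 3 * ((2 : ℕ) : ℝ)) := by
      rw [Real.sqrt_eq_rpow]
      exact Real.rpow_le_rpow_of_exponent_le hd1 (by norm_num)
    have a3 : 1 ≤ √(d : ℝ) := Real.one_le_sqrt.mpr hd1
    rw [hm]; push_cast at a2 ⊢
    linarith
  rw [Ad_eq hG.odd hG.sqf hd]
  refine le_trans (Finset.abs_sum_le_sum_abs _ _) ?_
  refine le_trans (Finset.sum_le_card_nsmul _ _
    (wt s d * (40005 * √m * (s - 1) ^ (-(3 / 16) : ℝ))) fun p hp => ?_) ?_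
  · have h2 : p.1 * p.2 = d := (Nat.mem_divisorsAntidiagonal.mp hp).1
    have h3 := block hG.odd hG.sqf (h2 ▸ hd) (h2 ▸ hm1) i j hs hs2 hA
    rw [abs_mul, abs_mul, abs_of_pos (wt_pos s d)]
    have h4 : |((psi i p.1 * psi j p.2 * jacobiSym p.2 p.1 : ℤ) : ℝ)| ≤ 1 := by
      rcases psi_vals i p.1 with h | h | h <;> rcases psi_vals j p.2 with h'' | h'' | h'' <;>
        rcases jacobiSym.trichotomy p.2 p.1 with h' | h' | h' <;> simp [h, h', h'']
    have h5 := (wt_pos s d).le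
    calc _ ≤ 1 * wt s d * (40005 * √m * (s - 1) ^ (-(3 / 16) : ℝ)) := by gcongr
      _ = _ := by ring
  · rw [nsmul_eq_mul, ← mul_assoc, card_mul_wt hdsq]
    have h6 : (d : ℝ) ^ (-s) ≤ (d : ℝ) ^ (-(1 : ℝ)) :=
      Real.rpow_le_rpow_of_exponent_le hd1 (by linarith)
    have e3 : (d : ℝ) ^ (-(2 / 3) : ℝ) = (d : ℝ) ^ (-(1 : ℝ)) * (d : ℝ) ^ (1 / 3 : ℝ) := by
      rw [← Real.rpow_add hd0]; norm_num
    rw [e3]
    calc _ ≤ (d : ℝ) ^ (-(1 : ℝ)) *
          (40005 * (2 * (d : ℝ) ^ (1 / 3 : ℝ)) * (s - 1) ^ (-(3 / 16) : ℝ)) := by gcongr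
      _ = _ := by ring

end Pool.Agent.MP_5d10af_nt

end
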