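import Pool.Agent.MP_5d10af_nt.Mg.Sq

/-!
Operators built from dilations.
-/

set_option autoImplicit false

namespace Pool.Agent.MP_5d10af_nt

open Finset

namespace WinA

noncomputable def gg (σ : ℝ) (p : ℕ) : ℝ := 1 / (2 * (p : ℝ) ^ σ + 1)

noncomputable def xx (σ : ℝ) (p : ℕ) : ℝ := (p : ℝ) ^ (-σ)

noncomputable def Pop (c : ℝ) (p : ℕ) (f : ℕ → ℝ) : ℕ → ℝ := fun n => f n + c * dil p f n

noncomputable def PL (σ : ℝ) (l : List ℕ) (f : ℕ → ℝ) : ℕ → ℝ :=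
  l.foldr (fun p h => Pop (gg σ p) p h) f

noncomputable def TL (σ : ℝ) (l : List ℕ) (f : ℕ → ℝ) : ℕ → ℝ :=
  l.foldr (fun p h => Pop (gg σ p) p (Pop (-xx σ p) p h)) f

@[simp] lemma PL_nil (σ : ℝ) (f : ℕ → ℝ) : PL σ [] f = f := rfl
@[simp] lemma TL_nil (σ : ℝ) (f : ℕ → ℝ) : TL σ [] f = f := rfl
lemma PL_cons (σ : ℝ) (p : ℕ) (l : List ℕ) (f : ℕ → ℝ) :
    PL σ (p :: l) f = Pop (gg σ p) p (PL σ l f) := rfl
lemma TL_cons (σ : ℝ) (p : ℕ) (l : List ℕ) (f : ℕ → ℝ) :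
    TL σ (p :: l) f = Pop (gg σ p) p (Pop (-xx σ p) p (TL σ l f)) := rfl

lemma dil_lin (d : ℕ) (s t : ℝ) (f h : ℕ → ℝ) (n : ℕ) :
    dil d (fun m => s * f m + t * h m) n = s * dil d f n + t * dil d h n := by
  unfold dil; split_ifs <;> simp

lemma dil_dil {p : ℕ} (hp : 0 < p) (q : ℕ) (f : ℕ → ℝ) (n : ℕ) :
    dil p (dil q f) n = dil (p * q) f n := by
  unfold dil
  by_cases h : p ∣ n
  · obtain ⟨m, rfl⟩ := h
    rw [if_pos (dvd_mul_right _ _), Nat.mul_div_cancel_left _ hp]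
    by_cases h' : q ∣ m
    · rw [if_pos h', if_pos (Nat.mul_dvd_mul_left _ h'), Nat.mul_div_mul_left _ _ hp]
    · rw [if_neg h', if_neg (fun hh => h' (Nat.dvd_of_mul_dvd_mul_left hp hh))]
  · rw [if_neg h, if_neg (fun hh => h (dvd_trans (dvd_mul_right _ _) hh))]

lemma dil_Pop {p : ℕ} (hp : 0 < p) (q : ℕ) (c : ℝ) (f : ℕ → ℝ) (n : ℕ) :
    dil p (Pop c q f) n = dil p f n + c * dil (p * q) f n := by
  have : Pop c q f = fun m => 1 * f m + c * dil q f m := by funext m; simp [Pop]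
  rw [this, dil_lin, dil_dil hp, one_mul]

lemma Pop_comm {p q : ℕ} (hp : 0 < p) (hq : 0 < q) (c c' : ℝ) (f : ℕ → ℝ) :
    Pop c p (Pop c' q f) = Pop c' q (Pop c p f) := by
  funext n
  show Pop c' q f n + c * dil p (Pop c' q f) n = Pop c p f n + c' * dil q (Pop c p f) n
  rw [dil_Pop hp, dil_Pop hq, mul_comm q p]
  simp only [Pop]; ring

lemma Pop_lin (c : ℝ) (p : ℕ) (s t : ℝ) (f h : ℕ → ℝ) :
    Pop c p (fun m => s * f m + t * h m) = fun m => s * Pop c p f m + t * Pop c p h m := by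
  funext n
  simp only [Pop, dil_lin]; ring

lemma PL_lin (σ : ℝ) (l : List ℕ) (s t : ℝ) (f h : ℕ → ℝ) :
    PL σ l (fun m => s * f m + t * h m) = fun m => s * PL σ l f m + t * PL σ l h m := by
  induction l with
  | nil => rfl
  | cons p l ih => rw [PL_cons, ih, Pop_lin]; rfl

lemma TL_lin (σ : ℝ) (l : List ℕ) (s t : ℝ) (f h : ℕ → ℝ) :
    TL σ l (fun m => s * f m + t * h m) = fun m => s * TL σ l f m + t * TL σ l h m := by
  induction l with
  | nil => rfl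
  | cons p l ih => rw [TL_cons, ih, Pop_lin, Pop_lin]; rfl

lemma Pop_PL (σ : ℝ) {l : List ℕ} (hl : ∀ q ∈ l, 0 < q) {p : ℕ} (hp : 0 < p) (c : ℝ)
    (f : ℕ → ℝ) : Pop c p (PL σ l f) = PL σ l (Pop c p f) := by
  induction l with
  | nil => rfl
  | cons q l ih =>
    rw [PL_cons, PL_cons, Pop_comm hp (hl q List.mem_cons_self),
      ih fun r hr => hl r (List.mem_cons_of_mem _ hr)]

lemma Tp_eq {p : ℕ} (hp : 0 < p) (g x : ℝ) (f : ℕ → ℝ) :
    Pop g p (Pop (-x) p f) =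
      fun n => (f n + (g - x) * dil p f n) + (-(g * x)) * dil (p * p) f n := by
  funext n
  show Pop (-x) p f n + g * dil p (Pop (-x) p f) n = _
  rw [dil_Pop hp]
  simp only [Pop]; ring

/-- Vanishing on multiples of `r`. -/
lemma Pop_van {r p : ℕ} (h : Nat.Coprime r p) (c : ℝ) {f : ℕ → ℝ} (hf : ∀ n, r ∣ n → f n = 0) :
    ∀ n, r ∣ n → Pop c p f n = 0 := by
  intro n hn
  simp only [Pop, hf n hn, dil, zero_add]
  split_ifs with hp
  · obtain ⟨m, rfl⟩ := hp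
    rcases Nat.eq_zero_or_pos p with rfl | hp0
    · simp [hf 0 (dvd_zero _)]
    · rw [Nat.mul_div_cancel_left _ hp0, hf m (h.dvd_of_dvd_mul_left hn), mul_zero]
  · simp

lemma PL_van (σ : ℝ) {r : ℕ} {l : List ℕ} (h : ∀ p ∈ l, Nat.Coprime r p) {f : ℕ → ℝ}
    (hf : ∀ n, r ∣ n → f n = 0) : ∀ n, r ∣ n → PL σ l f n = 0 := by
  induction l with
  | nil => exact hf
  | cons p l ih =>
    exact Pop_van (h p List.mem_cons_self) _ (ih fun q hq => h q (List.mem_cons_of_mem _ hq))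

lemma TL_van (σ : ℝ) {r : ℕ} {l : List ℕ} (h : ∀ p ∈ l, Nat.Coprime r p) {f : ℕ → ℝ}
    (hf : ∀ n, r ∣ n → f n = 0) : ∀ n, r ∣ n → TL σ l f n = 0 := by
  induction l with
  | nil => exact hf
  | cons p l ih =>
    exact Pop_van (h p List.mem_cons_self) _ (Pop_van (h p List.mem_cons_self) _
      (ih fun q hq => h q (List.mem_cons_of_mem _ hq)))

/-- Supports. -/
lemma Pop_supp {p Y : ℕ} (hp : 0 < p) (c : ℝ) {f : ℕ → ℝ} (hf : ∀ n, Y < n → f n = 0) :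
    ∀ n, Y * p < n → Pop c p f n = 0 := by
  intro n hn
  have h1 : Y < n := lt_of_le_of_lt (Nat.le_mul_of_pos_right _ hp) hn
  simp only [Pop, hf n h1, dil, zero_add]
  split_ifs with hpn
  · obtain ⟨m, rfl⟩ := hpn
    rw [Nat.mul_div_cancel_left _ hp, hf m, mul_zero]
    rw [mul_comm] at hn
    exact lt_of_mul_lt_mul_left hn (Nat.zero_le _)
  · simp

lemma sum_trunc {Y M M' : ℕ} (h : Y ≤ M) (h' : M ≤ M') {F : ℕ → ℝ} (hF : ∀ n, Y < n → F n = 0) :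
    ∑ n ∈ Icc 1 M, F n = ∑ n ∈ Icc 1 M', F n := by
  refine Finset.sum_subset (Finset.Icc_subset_Icc_right h') fun n hn hn' => hF n ?_
  simp only [Finset.mem_Icc] at hn hn'
  omega

lemma Pop_sum {p Y M : ℕ} (hp : 0 < p) (hM : Y * p ≤ M) (c : ℝ) {f : ℕ → ℝ}
    (hf : ∀ n, Y < n → f n = 0) {χ : ℕ → ℝ} (hχ : CM χ) :
    ∑ n ∈ Icc 1 M, Pop c p f n * χ n = (1 + χ p * c) * ∑ n ∈ Icc 1 M, f n * χ n := by
  have h1 : ∑ n ∈ Icc 1 M, dil p f n * χ n = χ p * ∑ n ∈ Icc 1 M, f n * χ n := by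
    rw [sum_dil hp M f (fun n y => y * χ n) (fun n => zero_mul _),
      ← sum_trunc (Y := Y) (M := M / p) ((Nat.le_div_iff_mul_le hp).mpr hM) (Nat.div_le_self _ _)
        (fun n hn => by rw [hf n hn, zero_mul]), Finset.mul_sum]
    exact Finset.sum_congr rfl fun m _ => by rw [hχ.mul]; ring
  simp only [Pop, add_mul, mul_assoc, Finset.sum_add_distrib, ← Finset.mul_sum, h1]
  ring

lemma PL_supp (σ : ℝ) {l : List ℕ} (hl : ∀ q ∈ l, 0 < q) {Y : ℕ} {f : ℕ → ℝ}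
    (hf : ∀ n, Y < n → f n = 0) : ∀ n, Y * l.prod < n → PL σ l f n = 0 := by
  induction l with
  | nil => simpa using hf
  | cons p l ih =>
    have := Pop_supp (hl p List.mem_cons_self) (gg σ p)
      (ih fun q hq => hl q (List.mem_cons_of_mem _ hq))
    intro n hn
    refine this n ?_
    rw [List.prod_cons] at hn
    calc Y * l.prod * p = Y * (p * l.prod) := by ring
      _ < n := hn

lemma TL_supp (σ : ℝ) {l : List ℕ} (hl : ∀ q ∈ l, 0 < q) {Y : ℕ} {f : ℕ → ℝ}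
    (hf : ∀ n, Y < n → f n = 0) : ∀ n, Y * l.prod ^ 2 < n → TL σ l f n = 0 := by
  induction l with
  | nil => simpa using hf
  | cons p l ih =>
    have := Pop_supp (hl p List.mem_cons_self) (gg σ p)
      (Pop_supp (hl p List.mem_cons_self) (-xx σ p)
        (ih fun q hq => hl q (List.mem_cons_of_mem _ hq)))
    intro n hn
    refine this n ?_
    rw [List.prod_cons] at hn
    calc Y * l.prod ^ 2 * p * p = Y * (p * l.prod) ^ 2 := by ring
      _ < n := hn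

lemma PL_sum (σ : ℝ) {l : List ℕ} (hl : ∀ q ∈ l, 0 < q) {Y M : ℕ} (hM : Y * l.prod ≤ M)
    {f : ℕ → ℝ} (hf : ∀ n, Y < n → f n = 0) {χ : ℕ → ℝ} (hχ : CM χ) :
    ∑ n ∈ Icc 1 M, PL σ l f n * χ n =
      (l.map fun p => 1 + χ p * gg σ p).prod * ∑ n ∈ Icc 1 M, f n * χ n := by
  induction l with
  | nil => simp
  | cons p l ih =>
    have hp := hl p List.mem_cons_self
    have hl' : ∀ q ∈ l, 0 < q := fun q hq => hl q (List.mem_cons_of_mem _ hq)
    rw [List.prod_cons] at hM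
    have hM1 : Y * l.prod * p ≤ M := by
      calc Y * l.prod * p = Y * (p * l.prod) := by ring
        _ ≤ M := hM
    rw [PL_cons, Pop_sum hp hM1 _ (PL_supp σ hl' hf) hχ,
      ih hl' (le_trans (Nat.le_mul_of_pos_right _ hp) hM1), List.map_cons, List.prod_cons,
      mul_assoc]

lemma TL_sum (σ : ℝ) {l : List ℕ} (hl : ∀ q ∈ l, 0 < q) {Y M : ℕ} (hM : Y * l.prod ^ 2 ≤ M)
    {f : ℕ → ℝ} (hf : ∀ n, Y < n → f n = 0) {χ : ℕ → ℝ} (hχ : CM χ) :
    ∑ n ∈ Icc 1 M, TL σ l f n * χ n =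
      (l.map fun p => (1 + χ p * gg σ p) * (1 - χ p * xx σ p)).prod *
        ∑ n ∈ Icc 1 M, f n * χ n := by
  induction l with
  | nil => simp
  | cons p l ih =>
    have hp := hl p List.mem_cons_self
    have hl' : ∀ q ∈ l, 0 < q := fun q hq => hl q (List.mem_cons_of_mem _ hq)
    rw [List.prod_cons] at hM
    have hM2 : Y * l.prod ^ 2 * p * p ≤ M := by
      calc Y * l.prod ^ 2 * p * p = Y * (p * l.prod) ^ 2 := by ring
        _ ≤ M := hM
    have hM1 : Y * l.prod ^ 2 * p ≤ M := le_trans (Nat.le_mul_of_pos_right _ hp) hM2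
    rw [TL_cons, Pop_sum hp hM2 _ (Pop_supp hp _ (TL_supp σ hl' hf)) hχ,
      Pop_sum hp hM1 _ (TL_supp σ hl' hf) hχ,
      ih hl' (le_trans (Nat.le_mul_of_pos_right _ hp) hM1), List.map_cons, List.prod_cons]
    ring

/-! The weighted sum. -/

lemma Sf_nonneg (M : ℕ) (f : ℕ → ℝ) : 0 ≤ Sf M f :=
  Finset.sum_nonneg fun _ _ => by positivity

lemma Sf_add (M : ℕ) (f h : ℕ → ℝ) : Sf M (fun n => f n + h n) ≤ Sf M f + Sf M h := by
  unfold Sf
  rw [← Finset.sum_add_distrib]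
  refine Finset.sum_le_sum fun n _ => ?_
  rw [← add_mul]
  exact mul_le_mul_of_nonneg_right (abs_add_le _ _) (Real.sqrt_nonneg _)

lemma Sf_smul (M : ℕ) (c : ℝ) (f : ℕ → ℝ) : Sf M (fun n => c * f n) = |c| * Sf M f := by
  unfold Sf
  rw [Finset.mul_sum]
  exact Finset.sum_congr rfl fun n _ => by rw [abs_mul, mul_assoc]

lemma Sf_dil {d : ℕ} (hd : 0 < d) (M : ℕ) (f : ℕ → ℝ) : Sf M (dil d f) ≤ √(d : ℝ) * Sf M f := by
  unfold Sf
  rw [sum_dil hd M f (fun n y => |y| * √(n : ℝ)) (fun n => by simp), Finset.mul_sum]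
  refine le_trans (le_of_eq ?_) (Finset.sum_le_sum_of_subset_of_nonneg
    (Finset.Icc_subset_Icc_right (Nat.div_le_self M d)) fun _ _ _ => by positivity)
  refine Finset.sum_congr rfl fun m _ => ?_
  rw [Nat.cast_mul, Real.sqrt_mul (Nat.cast_nonneg _)]; ring

lemma Sf_Pop {p : ℕ} (hp : 0 < p) (M : ℕ) (c : ℝ) (f : ℕ → ℝ) :
    Sf M (Pop c p f) ≤ (1 + |c| * √(p : ℝ)) * Sf M f := by
  refine le_trans (Sf_add M f fun n => c * dil p f n) ?_
  rw [Sf_smul]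
  have := mul_le_mul_of_nonneg_left (Sf_dil hp M f) (abs_nonneg c)
  nlinarith

lemma Sf_Tp {p : ℕ} (hp : 0 < p) (M : ℕ) (g x : ℝ) (f : ℕ → ℝ) :
    Sf M (Pop g p (Pop (-x) p f)) ≤ (1 + |g - x| * √(p : ℝ) + |g * x| * p) * Sf M f := by
  rw [Tp_eq hp]
  refine le_trans (Sf_add M _ _) ?_
  have h1 := Sf_Pop hp M (g - x) f
  have h2 := mul_le_mul_of_nonneg_left (Sf_dil (Nat.mul_pos hp hp) M f) (abs_nonneg (g * x))
  rw [Nat.cast_mul, Real.sqrt_mul_self (Nat.cast_nonneg _)] at h2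
  rw [Sf_smul, abs_neg]
  have h3 : Sf M (fun n => f n + (g - x) * dil p f n) = Sf M (Pop (g - x) p f) := rfl
  rw [h3]
  nlinarith

lemma sqrt_Qf_smul (M : ℕ) (c : ℝ) (f : ℕ → ℝ) :
    √(Qf M fun n => c * f n) = |c| * √(Qf M f) := by
  rw [Qf_smul, Real.sqrt_mul (sq_nonneg _), Real.sqrt_sq_eq_abs]

lemma Qf_Tp {p : ℕ} (hp : 0 < p) (M : ℕ) (g x : ℝ) (f : ℕ → ℝ) :
    √(Qf M (Pop g p (Pop (-x) p f))) ≤ (1 + |g - x| + |g * x|) * √(Qf M f) := by
  rw [Tp_eq hp]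
  refine le_trans (sqrt_Qf_add M _ _) ?_
  have h1 := sqrt_Qf_add M f fun n => (g - x) * dil p f n
  rw [sqrt_Qf_smul] at h1
  rw [sqrt_Qf_smul, abs_neg]
  have h2 := mul_le_mul_of_nonneg_left (Real.sqrt_le_sqrt (Qf_dil hp M f)) (abs_nonneg (g - x))
  have h3 := mul_le_mul_of_nonneg_left (Real.sqrt_le_sqrt (Qf_dil (Nat.mul_pos hp hp) M f))
    (abs_nonneg (g * x))
  nlinarith

/-- A general induction over the list. -/
lemma fold_le (F : (ℕ → ℝ) → ℝ) (O : ℕ → (ℕ → ℝ) → ℕ → ℝ) (w : ℕ → ℝ)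
    (l : List ℕ) (hw : ∀ p ∈ l, 0 ≤ w p) (h : ∀ p ∈ l, ∀ f, F (O p f) ≤ w p * F f)
    (f : ℕ → ℝ) : F (l.foldr O f) ≤ (l.map w).prod * F f := by
  induction l with
  | nil => simp
  | cons p l ih =>
    rw [List.foldr_cons, List.map_cons, List.prod_cons, mul_assoc]
    exact le_trans (h p List.mem_cons_self _) (mul_le_mul_of_nonneg_left
      (ih (fun q hq => hw q (List.mem_cons_of_mem _ hq))
        fun q hq => h q (List.mem_cons_of_mem _ hq)) (hw p List.mem_cons_self))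

lemma Qf_PL (σ : ℝ) (M : ℕ) {l : List ℕ} (hl : ∀ p ∈ l, p.Prime) (hnd : l.Nodup) {f : ℕ → ℝ}
    (hf : ∀ p ∈ l, ∀ n, p ∣ n → f n = 0) :
    Qf M (PL σ l f) ≤ (l.map fun p => 1 + gg σ p ^ 2).prod * Qf M f := by
  induction l with
  | nil => simp
  | cons p l ih =>
    have hp := hl p List.mem_cons_self
    have hl' : ∀ q ∈ l, q.Prime := fun q hq => hl q (List.mem_cons_of_mem _ hq)
    rw [List.nodup_cons] at hnd
    have hv : ∀ n, p ∣ n → PL σ l f n = 0 :=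
      PL_van σ (fun q hq => (Nat.coprime_primes hp (hl' q hq)).mpr fun h => hnd.1 (h ▸ hq))
        (hf p List.mem_cons_self)
    rw [List.map_cons, List.prod_cons, mul_assoc]
    refine le_trans (Qf_add_dil hp M (gg σ p) hv) (mul_le_mul_of_nonneg_left ?_ (by positivity))
    exact ih hl' hnd.2 fun q hq => hf q (List.mem_cons_of_mem _ hq)

/-! The special sequences. -/

noncomputable def aa (σ : ℝ) (n : ℕ) : ℝ := if n % 2 = 1 then (n : ℝ) ^ (-σ) else 0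

noncomputable def GG (σ : ℝ) (n : ℕ) : ℝ := if Squarefree n ∧ n % 2 = 1 then gw σ n else 0

noncomputable def RR (l : List ℕ) (n : ℕ) : ℝ := if ∀ p ∈ l, ¬ p ∣ n then 1 else 0

lemma RR_cons (p : ℕ) (l : List ℕ) (n : ℕ) :
    RR (p :: l) n = if p ∣ n then 0 else RR l n := by
  unfold RR
  by_cases h : p ∣ n <;> simp [h]

lemma RR_mul {p : ℕ} (hp : p.Prime) {l : List ℕ} (hl : ∀ q ∈ l, q.Prime) (hpl : p ∉ l) (m : ℕ) :
    RR l (p * m) = RR l m := by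
  unfold RR
  refine if_congr (forall₂_congr fun q hq => not_congr ?_) rfl rfl
  have hc : Nat.Coprime q p := (Nat.coprime_primes (hl q hq) hp).mpr fun h => hpl (h ▸ hq)
  exact ⟨fun h => hc.dvd_of_dvd_mul_left h, fun h => dvd_mul_of_dvd_right h _⟩

lemma aa_mul (σ : ℝ) {p : ℕ} (hp : p % 2 = 1) (m : ℕ) : aa σ (p * m) = xx σ p * aa σ m := by
  unfold aa xx
  have : p * m % 2 = m % 2 := by rw [Nat.mul_mod, hp, one_mul, Nat.mod_mod]
  rw [this]
  split_ifs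
  · rw [Nat.cast_mul, Real.mul_rpow (Nat.cast_nonneg _) (Nat.cast_nonneg _)]
  · simp

lemma gw_prime (σ : ℝ) {p : ℕ} (hp : p.Prime) : gw σ p = gg σ p := by
  simp [gw, gg, hp.primeFactors]

lemma GG_mul (σ : ℝ) {p : ℕ} (hp : p.Prime) (hp2 : p % 2 = 1) (m : ℕ) :
    GG σ (p * m) = if p ∣ m then 0 else gg σ p * GG σ m := by
  unfold GG
  have h2 : p * m % 2 = m % 2 := by rw [Nat.mul_mod, hp2, one_mul, Nat.mod_mod]
  rw [h2]
  by_cases h : p ∣ m
  · rw [if_pos h, if_neg]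
    rintro ⟨h1, -⟩
    exact hp.one_lt.ne' (Nat.isUnit_iff.mp (h1 p (Nat.mul_dvd_mul_left p h)))
  · have hc : Nat.Coprime p m := (Nat.Prime.coprime_iff_not_dvd hp).mpr h
    rw [if_neg h, gw_mul σ hc, gw_prime σ hp]
    simp [Nat.squarefree_mul hc, hp.squarefree]

lemma TL_aa (σ : ℝ) {l : List ℕ} (hl : ∀ p ∈ l, p.Prime ∧ p % 2 = 1) (hnd : l.Nodup) :
    TL σ l (aa σ) = PL σ l fun n => aa σ n * RR l n := by
  induction l with
  | nil => funext n; simp [RR]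
  | cons p l ih =>
    obtain ⟨hp, hp2⟩ := hl p List.mem_cons_self
    have hl' : ∀ q ∈ l, q.Prime ∧ q % 2 = 1 := fun q hq => hl q (List.mem_cons_of_mem _ hq)
    rw [List.nodup_cons] at hnd
    rw [TL_cons, PL_cons, ih hl' hnd.2, Pop_PL σ (fun q hq => (hl' q hq).1.pos) hp.pos (-xx σ p)]
    congr 2
    funext n
    simp only [Pop, dil, RR_cons]
    split_ifs with h
    · obtain ⟨m, rfl⟩ := h
      rw [Nat.mul_div_cancel_left _ hp.pos, aa_mul σ hp2,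
        RR_mul hp (fun q hq => (hl' q hq).1) hnd.1]
      ring
    · ring

lemma PL_GG (σ : ℝ) {l : List ℕ} (hl : ∀ p ∈ l, p.Prime ∧ p % 2 = 1) (hnd : l.Nodup) :
    PL σ l (fun n => GG σ n * RR l n) = GG σ := by
  induction l with
  | nil => funext n; simp [RR]
  | cons p l ih =>
    obtain ⟨hp, hp2⟩ := hl p List.mem_cons_self
    have hl' : ∀ q ∈ l, q.Prime ∧ q % 2 = 1 := fun q hq => hl q (List.mem_cons_of_mem _ hq)
    rw [List.nodup_cons] at hnd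
    rw [PL_cons, Pop_PL σ (fun q hq => (hl' q hq).1.pos) hp.pos]
    refine Eq.trans ?_ (ih hl' hnd.2)
    congr 1
    funext n
    simp only [Pop, dil, RR_cons]
    by_cases h : p ∣ n
    · obtain ⟨m, rfl⟩ := h
      rw [if_pos (dvd_mul_right _ _), if_pos (dvd_mul_right _ _),
        Nat.mul_div_cancel_left _ hp.pos, GG_mul σ hp hp2,
        RR_mul hp (fun q hq => (hl' q hq).1) hnd.1]
      split_ifs <;> ring
    · rw [if_neg h, if_neg h]; ring

end WinA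

end Pool.Agent.MP_5d10af_nt
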